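import Mathlib

/-! Algebraic one-step inequality for the product functional. -/

noncomputable section

namespace Pf31f09

open Finset

/-- Unordered pairs of coordinates. -/
def pairs (n : ℕ) : Finset (Fin n × Fin n) := univ.filter fun p => p.1 < p.2

theorem mem_pairs {n : ℕ} {p : Fin n × Fin n} : p ∈ pairs n ↔ p.1 < p.2 := by
  simp [pairs]

theorem sum_pairs {n : ℕ} (g : Fin n → Fin n → ℝ) :
    ∑ p ∈ pairs n, (g p.1 p.2 + g p.2 p.1) = ∑ i, ∑ j ∈ univ.erase i, g i j := by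
  have h1 : ∑ i, ∑ j ∈ univ.erase i, g i j =
      ∑ p : Fin n × Fin n, if p.1 ≠ p.2 then g p.1 p.2 else 0 := by
    rw [Fintype.sum_prod_type]
    refine Finset.sum_congr rfl fun i _ => ?_
    rw [← Finset.sum_filter]
    refine Finset.sum_congr ?_ fun _ _ => rfl
    ext j
    simp [eq_comm]
  have h2 : ∑ p : Fin n × Fin n, (if p.1 ≠ p.2 then g p.1 p.2 else 0) =
      ∑ p ∈ univ.filter (fun p : Fin n × Fin n => p.1 < p.2), g p.1 p.2 +
      ∑ p ∈ univ.filter (fun p : Fin n × Fin n => p.2 < p.1), g p.1 p.2 := by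
    rw [Finset.sum_filter, Finset.sum_filter, ← Finset.sum_add_distrib]
    refine Finset.sum_congr rfl fun p _ => ?_
    rcases lt_trichotomy p.1 p.2 with h | h | h
    · simp [h, h.ne, h.not_gt]
    · simp [h]
    · simp [h, h.ne', h.not_gt]
  have h3 : ∑ p ∈ univ.filter (fun p : Fin n × Fin n => p.2 < p.1), g p.1 p.2 =
      ∑ p ∈ univ.filter (fun p : Fin n × Fin n => p.1 < p.2), g p.2 p.1 := by
    refine Finset.sum_bij' (fun p _ => p.swap) (fun p _ => p.swap) ?_ ?_ ?_ ?_ ?_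
    · intro p hp; simpa using hp
    · intro p hp; simpa using hp
    · intro p hp; simp
    · intro p hp; simp
    · intro p hp; simp
  rw [h1, h2, h3, ← Finset.sum_add_distrib]
  rfl

theorem sum_pairs_add {n : ℕ} (f : Fin n → ℝ) :
    ∑ p ∈ pairs n, (f p.1 + f p.2) = ((n : ℝ) - 1) * ∑ i, f i := by
  have h := sum_pairs (fun i _ : Fin n => f i)
  rw [h, Finset.mul_sum]
  refine Finset.sum_congr rfl fun i _ => ?_
  rw [Finset.sum_const, Finset.card_erase_of_mem (Finset.mem_univ i), Finset.card_univ,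
    Fintype.card_fin, nsmul_eq_mul]
  congr 1
  have : 1 ≤ n := by
    have := i.2
    omega
  push_cast [Nat.cast_sub this]
  ring

theorem card_pairs (n : ℕ) : ((pairs n).card : ℝ) = (n : ℝ) * (n - 1) / 2 := by
  have h := sum_pairs_add (n := n) (fun _ => (1 / 2 : ℝ))
  simp only [Finset.sum_const, Finset.card_univ, Fintype.card_fin, nsmul_eq_mul] at h
  linarith

theorem exp_le_one_add {y : ℝ} (hy : |y| ≤ 1 / 8) : Real.exp (y - 2 * y ^ 2) ≤ 1 + y := by
  have h1 := abs_le.1 hy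
  have hz : |y - 2 * y ^ 2| ≤ 1 := by
    rw [abs_le]
    constructor <;> nlinarith [h1.1, h1.2]
  have h2 := abs_le.1 (Real.abs_exp_sub_one_sub_id_le hz)
  have h3 : (y - 2 * y ^ 2) ^ 2 ≤ 2 * y ^ 2 := by
    have : (1 - 2 * y) ^ 2 ≤ 2 := by nlinarith [h1.1, h1.2]
    calc (y - 2 * y ^ 2) ^ 2 = y ^ 2 * (1 - 2 * y) ^ 2 := by ring
      _ ≤ y ^ 2 * 2 := mul_le_mul_of_nonneg_left this (sq_nonneg y)
      _ = 2 * y ^ 2 := by ring
  linarith [h2.2]

theorem prod_ge {ι : Type*} (s : Finset ι) (y : ι → ℝ) (hy : ∀ k ∈ s, |y k| ≤ 1 / 8) :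
    1 + ∑ k ∈ s, y k - 2 * ∑ k ∈ s, y k ^ 2 ≤ ∏ k ∈ s, (1 + y k) := by
  calc 1 + ∑ k ∈ s, y k - 2 * ∑ k ∈ s, y k ^ 2
      = (∑ k ∈ s, (y k - 2 * y k ^ 2)) + 1 := by
        rw [Finset.sum_sub_distrib, ← Finset.mul_sum]; ring
    _ ≤ Real.exp (∑ k ∈ s, (y k - 2 * y k ^ 2)) := Real.add_one_le_exp _
    _ = ∏ k ∈ s, Real.exp (y k - 2 * y k ^ 2) := Real.exp_sum _ _
    _ ≤ ∏ k ∈ s, (1 + y k) := Finset.prod_le_prod (fun k _ => (Real.exp_pos _).le)
        fun k hk => exp_le_one_add (hy k hk)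

/-- The algebraic one-step inequality. -/
theorem step_alg {n : ℕ} (hn : 32 ≤ n) (a b : Fin n → ℝ) (N ξ : ℝ)
    (ha0 : ∀ k, 0 ≤ a k) (ha1 : ∀ k, a k ≤ 1 / 4) (hb0 : ∀ k, 0 ≤ b k) (hb1 : ∀ k, b k ≤ 1 / 2)
    (hN : ((univ.filter fun k => ¬ (a k = 0 ∧ b k = 0)).card : ℝ) ≤ N)
    (hξ : 3 * N / (n - 1) + 16 / n ≤ ξ) (hξ1 : ξ ≤ 1) :
    (2 / ((n : ℝ) * (n - 1))) * ∑ p ∈ pairs n,
      (∏ k ∈ (univ.erase p.1).erase p.2, (1 - a k)) * (1 - max (b p.1) (b p.2)) ≤
    ∏ k, (1 - ((1 - (2 / (n : ℝ)) * (1 + ξ)) * a k + (2 / (n : ℝ)) * (1 - ξ) * b k)) := by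
  have hn' : (32 : ℝ) ≤ n := by exact_mod_cast hn
  have hn0 : (0 : ℝ) < n := by linarith
  have hn1 : (0 : ℝ) < (n : ℝ) - 1 := by linarith
  set Φ : ℝ := ∏ k, (1 - a k) with hΦ
  have h1a : ∀ k, 3 / 4 ≤ 1 - a k := fun k => by linarith [ha1 k]
  have h1a' : ∀ k, 0 < 1 - a k := fun k => by linarith [h1a k]
  have hΦ0 : 0 < Φ := Finset.prod_pos fun k _ => h1a' k
  set u : Fin n → ℝ := fun k => 1 / (1 - a k) with hu
  have hu1 : ∀ k, 1 ≤ u k := fun k => by
    rw [hu]; simp only; rw [le_div_iff₀ (h1a' k)]; linarith [ha0 k]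
  have hu2 : ∀ k, u k ≤ 4 / 3 := fun k => by
    rw [hu]; simp only; rw [div_le_iff₀ (h1a' k)]; linarith [h1a k]
  have hua : ∀ k, u k * (1 - a k) = 1 := fun k => by
    rw [hu]; simp only; field_simp [(h1a' k).ne']
  have hu3 : ∀ k, u k = 1 + a k * u k := fun k => by linarith [hua k]
  set x : Fin n → ℝ := fun k => (a k - b k) * u k with hx
  set h : Fin n → ℝ := fun k => (a k + b k) * u k with hh
  have hh0 : ∀ k, 0 ≤ h k := fun k =>
    mul_nonneg (add_nonneg (ha0 k) (hb0 k)) (by linarith [hu1 k])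
  have hh1 : ∀ k, h k ≤ 1 := fun k => by
    have : h k ≤ (3 / 4) * (4 / 3) := mul_le_mul (by linarith [ha1 k, hb1 k]) (hu2 k)
      (by linarith [hu1 k]) (by norm_num)
    linarith
  set H := univ.filter (fun k => ¬ (a k = 0 ∧ b k = 0)) with hH
  -- each term
  have hterm : ∀ p ∈ pairs n,
      (∏ k ∈ (univ.erase p.1).erase p.2, (1 - a k)) * (1 - max (b p.1) (b p.2)) ≤
      Φ * (1 + (x p.1 + x p.2) + (if p.1 ∈ H ∧ p.2 ∈ H then 3 * (h p.1 + h p.2) else 0)) := by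
    intro p hp
    have hne : p.1 ≠ p.2 := (mem_pairs.1 hp).ne
    have hprod : ∏ k ∈ (univ.erase p.1).erase p.2, (1 - a k) = Φ * (u p.1 * u p.2) := by
      have e1 : (1 - a p.1) * ∏ k ∈ univ.erase p.1, (1 - a k) = Φ :=
        Finset.mul_prod_erase univ (fun k => 1 - a k) (Finset.mem_univ _)
      have e2 : (1 - a p.2) * ∏ k ∈ (univ.erase p.1).erase p.2, (1 - a k) =
          ∏ k ∈ univ.erase p.1, (1 - a k) :=
        Finset.mul_prod_erase (univ.erase p.1) (fun k => 1 - a k)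
          (Finset.mem_erase.2 ⟨hne.symm, Finset.mem_univ _⟩)
      rw [← e1, ← e2]
      have f1 := hua p.1
      have f2 := hua p.2
      calc ∏ k ∈ (univ.erase p.1).erase p.2, (1 - a k) =
          (u p.1 * (1 - a p.1)) * (u p.2 * (1 - a p.2)) *
            ∏ k ∈ (univ.erase p.1).erase p.2, (1 - a k) := by rw [f1, f2]; ring
        _ = _ := by ring
    rw [hprod, mul_assoc]
    refine mul_le_mul_of_nonneg_left ?_ hΦ0.le
    split_ifs with hc
    · have hm : 0 ≤ max (b p.1) (b p.2) := (hb0 _).trans (le_max_left _ _)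
      have e1 : u p.1 * u p.2 * (1 - max (b p.1) (b p.2)) ≤ u p.1 * u p.2 := by
        have : 0 ≤ u p.1 * u p.2 := mul_nonneg (by linarith [hu1 p.1]) (by linarith [hu1 p.2])
        nlinarith
      have e2 : u p.1 * u p.2 ≤ 1 + 2 * (a p.1 * u p.1 + a p.2 * u p.2) := by
        have i1 : 0 ≤ a p.1 * u p.1 := mul_nonneg (ha0 _) (by linarith [hu1 p.1])
        have i2 : 0 ≤ a p.2 * u p.2 := mul_nonneg (ha0 _) (by linarith [hu1 p.2])
        have i3 : a p.1 * u p.1 ≤ 1 / 3 := by linarith [hu3 p.1, hu2 p.1]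
        calc u p.1 * u p.2 = (1 + a p.1 * u p.1) * (1 + a p.2 * u p.2) := by
              rw [← hu3, ← hu3]
          _ ≤ 1 + 2 * (a p.1 * u p.1 + a p.2 * u p.2) := by nlinarith
      have e3 : ∀ k, a k * u k ≤ h k := fun k => by
        rw [hh]; simp only
        have : 0 ≤ b k * u k := mul_nonneg (hb0 k) (by linarith [hu1 k])
        nlinarith
      have e4 : ∀ k, - h k ≤ x k := fun k => by
        rw [hh, hx]; simp only
        have : 0 ≤ a k * u k := mul_nonneg (ha0 k) (by linarith [hu1 k])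
        nlinarith
      linarith [e3 p.1, e3 p.2, e4 p.1, e4 p.2]
    · rw [not_and_or] at hc
      have hz : ∀ k, k ∉ H → a k = 0 ∧ b k = 0 := by
        intro k hk
        rw [hH, Finset.mem_filter, not_and_not_right] at hk
        exact hk (Finset.mem_univ k)
      rcases hc with hc | hc
      · obtain ⟨z1, z2⟩ := hz _ hc
        have hm : max (b p.1) (b p.2) = b p.2 := by rw [z2]; exact max_eq_right (hb0 _)
        have hu0 : u p.1 = 1 := by rw [hu]; simp [z1]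
        rw [hm, hu0, hx]
        simp only [z1, z2]
        linarith [hu3 p.2]
      · obtain ⟨z1, z2⟩ := hz _ hc
        have hm : max (b p.1) (b p.2) = b p.1 := by rw [z2]; exact max_eq_left (hb0 _)
        have hu0 : u p.2 = 1 := by rw [hu]; simp [z1]
        rw [hm, hu0, hx]
        simp only [z1, z2]
        linarith [hu3 p.1]
  -- the sum of the pair errors
  have hN0 : 0 ≤ N := le_trans (Nat.cast_nonneg _) hN
  have herr : ∑ p ∈ pairs n, (if p.1 ∈ H ∧ p.2 ∈ H then 3 * (h p.1 + h p.2) else 0) ≤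
      3 * N * ∑ k, h k := by
    have e1 := sum_pairs (n := n) (fun i j => if i ∈ H ∧ j ∈ H then 3 * h i else 0)
    have e2 : ∀ p ∈ pairs n, (if p.1 ∈ H ∧ p.2 ∈ H then 3 * (h p.1 + h p.2) else 0) =
        (if p.1 ∈ H ∧ p.2 ∈ H then 3 * h p.1 else 0) +
        (if p.2 ∈ H ∧ p.1 ∈ H then 3 * h p.2 else 0) := by
      intro p _
      by_cases c1 : p.1 ∈ H <;> by_cases c2 : p.2 ∈ H <;> simp [c1, c2]
      ring
    rw [Finset.sum_congr rfl e2, e1, Finset.mul_sum]
    refine Finset.sum_le_sum fun i _ => ?_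
    have e3 : ∀ j ∈ univ.erase i, (if i ∈ H ∧ j ∈ H then 3 * h i else 0) ≤
        (if j ∈ H then 3 * h i else 0) := by
      intro j _
      by_cases c1 : i ∈ H <;> by_cases c2 : j ∈ H <;> simp [c1, c2]
      exact hh0 i
    calc ∑ j ∈ univ.erase i, (if i ∈ H ∧ j ∈ H then 3 * h i else 0)
        ≤ ∑ j ∈ univ.erase i, (if j ∈ H then 3 * h i else 0) := Finset.sum_le_sum e3
      _ ≤ ∑ j, (if j ∈ H then 3 * h i else 0) :=
          Finset.sum_le_sum_of_subset_of_nonneg (Finset.erase_subset _ _) fun j _ _ => by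
            split_ifs
            · linarith [hh0 i]
            · exact le_rfl
      _ = (H.card : ℝ) * (3 * h i) := by
          rw [← Finset.sum_filter, Finset.sum_const, nsmul_eq_mul]
          have : univ.filter (fun k => k ∈ H) = H := by ext k; simp
          rw [this]
      _ ≤ N * (3 * h i) := mul_le_mul_of_nonneg_right hN (by linarith [hh0 i])
      _ = 3 * N * h i := by ring
  -- the left hand side
  have hL : (2 / ((n : ℝ) * (n - 1))) * ∑ p ∈ pairs n,
      (∏ k ∈ (univ.erase p.1).erase p.2, (1 - a k)) * (1 - max (b p.1) (b p.2)) ≤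
      Φ * (1 + (2 / n) * ∑ k, x k + (2 / n) * (3 * N / (n - 1)) * ∑ k, h k) := by
    have hc0 : (0 : ℝ) ≤ 2 / ((n : ℝ) * (n - 1)) := by positivity
    calc (2 / ((n : ℝ) * (n - 1))) * ∑ p ∈ pairs n,
          (∏ k ∈ (univ.erase p.1).erase p.2, (1 - a k)) * (1 - max (b p.1) (b p.2))
        ≤ (2 / ((n : ℝ) * (n - 1))) * ∑ p ∈ pairs n,
          Φ * (1 + (x p.1 + x p.2) +
            (if p.1 ∈ H ∧ p.2 ∈ H then 3 * (h p.1 + h p.2) else 0)) :=
          mul_le_mul_of_nonneg_left (Finset.sum_le_sum hterm) hc0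
      _ = Φ * ((2 / ((n : ℝ) * (n - 1))) * ((pairs n).card + ∑ p ∈ pairs n, (x p.1 + x p.2) +
            ∑ p ∈ pairs n, (if p.1 ∈ H ∧ p.2 ∈ H then 3 * (h p.1 + h p.2) else 0))) := by
          rw [← Finset.mul_sum, Finset.sum_add_distrib, Finset.sum_add_distrib]
          simp only [Finset.sum_const, nsmul_eq_mul, mul_one]
          ring
      _ ≤ Φ * ((2 / ((n : ℝ) * (n - 1))) * ((n : ℝ) * (n - 1) / 2 + ((n : ℝ) - 1) * ∑ k, x k +
            3 * N * ∑ k, h k)) := by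
          refine mul_le_mul_of_nonneg_left (mul_le_mul_of_nonneg_left ?_ hc0) hΦ0.le
          rw [card_pairs, sum_pairs_add]
          linarith [herr]
      _ = _ := by
          congr 1
          field_simp
  refine hL.trans ?_
  -- the right hand side
  set ρ : ℝ := 2 / (n : ℝ) with hρ
  have hρ0 : 0 < ρ := by rw [hρ]; positivity
  have hρ1 : ρ ≤ 1 / 16 := by rw [hρ, div_le_iff₀ hn0]; linarith
  have hξ0 : 0 ≤ ξ := le_trans (by positivity) hξ
  set y : Fin n → ℝ := fun k => ρ * (x k + ξ * h k) with hy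
  have hprod : ∏ k, (1 - ((1 - ρ * (1 + ξ)) * a k + ρ * (1 - ξ) * b k)) =
      Φ * ∏ k, (1 + y k) := by
    rw [hΦ, ← Finset.prod_mul_distrib]
    refine Finset.prod_congr rfl fun k _ => ?_
    rw [hy, hx, hh]
    simp only
    have := hua k
    calc (1 - ((1 - ρ * (1 + ξ)) * a k + ρ * (1 - ξ) * b k)) =
        (1 - a k) + ρ * ((a k - b k) + ξ * (a k + b k)) * (u k * (1 - a k)) := by
          rw [this]; ring
      _ = _ := by ring
  rw [hprod]
  refine mul_le_mul_of_nonneg_left ?_ hΦ0.le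
  have hxh : ∀ k, |x k| ≤ h k := fun k => by
    rw [hx, hh]; simp only
    rw [abs_mul, abs_of_nonneg (show 0 ≤ u k by linarith [hu1 k])]
    refine mul_le_mul_of_nonneg_right ?_ (by linarith [hu1 k])
    rw [abs_le]
    constructor <;> linarith [ha0 k, hb0 k]
  have hyh : ∀ k, |y k| ≤ 2 * ρ * h k := fun k => by
    rw [hy]; simp only
    rw [abs_mul, abs_of_pos hρ0]
    have e1 : |x k + ξ * h k| ≤ 2 * h k := by
      refine (abs_add_le _ _).trans ?_
      have e0 : |ξ * h k| ≤ h k := by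
        rw [abs_of_nonneg (mul_nonneg hξ0 (hh0 k))]
        nlinarith [hh0 k]
      linarith [hxh k]
    nlinarith
  have hy8 : ∀ k ∈ (univ : Finset (Fin n)), |y k| ≤ 1 / 8 := fun k _ => by
    refine (hyh k).trans ?_
    have := hh1 k
    have := hh0 k
    nlinarith
  refine le_trans ?_ (prod_ge univ y hy8)
  have hsq : ∀ k, y k ^ 2 ≤ ρ * (4 * ρ) * h k := fun k => by
    have e1 := hyh k
    have e2 : y k ^ 2 ≤ (2 * ρ * h k) ^ 2 := sq_le_sq' (by linarith [(abs_le.1 e1).1])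
      (abs_le.1 e1).2
    have e3 : h k * h k ≤ h k := by nlinarith [hh0 k, hh1 k]
    nlinarith [mul_pos hρ0 hρ0]
  have hsum : ∑ k, y k ^ 2 ≤ ρ * (4 * ρ) * ∑ k, h k := by
    rw [Finset.mul_sum]; exact Finset.sum_le_sum fun k _ => hsq k
  have hsy : ∑ k, y k = ρ * ∑ k, x k + ρ * ξ * ∑ k, h k := by
    rw [hy, Finset.mul_sum, Finset.mul_sum, ← Finset.sum_add_distrib]
    exact Finset.sum_congr rfl fun k _ => by ring
  have hh' : 0 ≤ ∑ k, h k := Finset.sum_nonneg fun k _ => hh0 k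
  rw [hsy]
  have hξ' : 3 * N / ((n : ℝ) - 1) + 8 * ρ ≤ ξ := by
    rw [hρ]
    have : 8 * (2 / (n : ℝ)) = 16 / n := by ring
    linarith
  have key : ρ * (3 * N / ((n : ℝ) - 1)) * ∑ k, h k + 2 * (ρ * (4 * ρ) * ∑ k, h k) ≤
      ρ * ξ * ∑ k, h k := by
    have : ρ * (3 * N / ((n : ℝ) - 1) + 8 * ρ) * ∑ k, h k ≤ ρ * ξ * ∑ k, h k :=
      mul_le_mul_of_nonneg_right (mul_le_mul_of_nonneg_left hξ' hρ0.le) hh'
    linarith
  linarith

end Pf31f09
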