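import Mathlib
import Pool.Agent.Lib.Pf31f09.Alg

/-! Kac's walk on the sphere: definitions and the step of the energies. -/

noncomputable section

namespace Pf31f09

open Finset MeasureTheory

/-- The ambient space. -/
abbrev E (n : ℕ) := EuclideanSpace ℝ (Fin n)

/-- The rotation by the angle `θ` in the `(i,j)` coordinate plane. -/
def rot {n : ℕ} (i j : Fin n) (θ : ℝ) (v : E n) : E n :=
  WithLp.toLp 2 fun k => if k = i then v i * Real.cos θ - v j * Real.sin θ
    else if k = j then v i * Real.sin θ + v j * Real.cos θ else v k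

/-- The uniform probability measure on the angles `[0, 2π)`. -/
def unifAngle : Measure ℝ :=
  (ENNReal.ofReal (2 * Real.pi))⁻¹ • (volume : Measure ℝ).restrict (Set.Ico 0 (2 * Real.pi))

/-- The law of the new position after one step from `v`: a uniform pair `i < j` and a uniform
angle are chosen. -/
def step {n : ℕ} (v : E n) : Measure (E n) :=
  ((pairs n).card : ENNReal)⁻¹ • ∑ p ∈ pairs n, unifAngle.map fun θ => rot p.1 p.2 θ v

/-- The law of Kac's walk at time `t` started at `x`. -/
def law {n : ℕ} (x : E n) : ℕ → Measure (E n)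
  | 0 => Measure.dirac x
  | t + 1 => (law x t).bind step

theorem rot_i {n : ℕ} {i j : Fin n} (θ : ℝ) (v : E n) :
    rot i j θ v i = v i * Real.cos θ - v j * Real.sin θ := by
  simp [rot]

theorem rot_j {n : ℕ} {i j : Fin n} (h : i ≠ j) (θ : ℝ) (v : E n) :
    rot i j θ v j = v i * Real.sin θ + v j * Real.cos θ := by
  simp [rot, h.symm]

theorem rot_k {n : ℕ} {i j k : Fin n} (hi : k ≠ i) (hj : k ≠ j) (θ : ℝ) (v : E n) :
    rot i j θ v k = v k := by
  simp [rot, hi, hj]

/-- Average over the angle. -/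
def avg (g : ℝ → ℝ) : ℝ := (2 * Real.pi)⁻¹ * ∫ θ in (0 : ℝ)..(2 * Real.pi), g θ

theorem two_pi_pos : 0 < 2 * Real.pi := by positivity

instance : IsProbabilityMeasure unifAngle := by
  constructor
  rw [unifAngle, Measure.smul_apply, Measure.restrict_apply_univ, Real.volume_Ico, sub_zero,
    smul_eq_mul, ENNReal.inv_mul_cancel]
  · simp [Real.pi_pos]
  · exact ENNReal.ofReal_ne_top

theorem integral_unifAngle (g : ℝ → ℝ) : ∫ θ, g θ ∂unifAngle = avg g := by
  rw [unifAngle, integral_smul_measure, avg, intervalIntegral.integral_of_le two_pi_pos.le,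
    integral_Ico_eq_integral_Ioc]
  congr 1
  rw [ENNReal.toReal_inv, ENNReal.toReal_ofReal two_pi_pos.le]

theorem lintegral_unifAngle {g : ℝ → ℝ} (hg : Measurable g) (h0 : ∀ θ, 0 ≤ g θ) {C : ℝ}
    (hC : ∀ θ, g θ ≤ C) : ∫⁻ θ, ENNReal.ofReal (g θ) ∂unifAngle = ENNReal.ofReal (avg g) := by
  rw [← integral_unifAngle, ofReal_integral_eq_lintegral_ofReal]
  · refine Integrable.of_bound hg.aestronglyMeasurable C (Filter.Eventually.of_forall fun θ => ?_)
    rw [Real.norm_of_nonneg (h0 θ)]
    exact hC θ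
  · exact Filter.Eventually.of_forall h0

theorem intervalIntegrable_of_bdd {g : ℝ → ℝ} (hg : Measurable g) {C : ℝ}
    (hC : ∀ θ, |g θ| ≤ C) (a b : ℝ) : IntervalIntegrable g volume a b := by
  rw [intervalIntegrable_iff]
  refine Measure.integrableOn_of_bounded (M := C) ?_ hg.aestronglyMeasurable ?_
  · simp [Set.uIoc]
  · exact Filter.Eventually.of_forall fun θ => by rw [Real.norm_eq_abs]; exact hC θ

theorem avg_mono {f g : ℝ → ℝ} (hf : Measurable f) (hg : Measurable g) {C : ℝ}
    (hfC : ∀ θ, |f θ| ≤ C) (hgC : ∀ θ, |g θ| ≤ C) (h : ∀ θ, f θ ≤ g θ) : avg f ≤ avg g := by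
  unfold avg
  refine mul_le_mul_of_nonneg_left ?_ (inv_nonneg.2 two_pi_pos.le)
  exact intervalIntegral.integral_mono two_pi_pos.le (intervalIntegrable_of_bdd hf hfC _ _)
    (intervalIntegrable_of_bdd hg hgC _ _) h

theorem avg_nonneg {f : ℝ → ℝ} (h : ∀ θ, 0 ≤ f θ) : 0 ≤ avg f := by
  unfold avg
  refine mul_nonneg (inv_nonneg.2 two_pi_pos.le) ?_
  exact intervalIntegral.integral_nonneg two_pi_pos.le fun θ _ => h θ

theorem avg_const (c : ℝ) : avg (fun _ => c) = c := by
  unfold avg
  rw [intervalIntegral.integral_const, sub_zero, smul_eq_mul, ← mul_assoc,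
    inv_mul_cancel₀ two_pi_pos.ne', one_mul]

theorem avg_add {f g : ℝ → ℝ} (hf : Measurable f) (hg : Measurable g) {C : ℝ}
    (hfC : ∀ θ, |f θ| ≤ C) (hgC : ∀ θ, |g θ| ≤ C) :
    avg (fun θ => f θ + g θ) = avg f + avg g := by
  unfold avg
  rw [intervalIntegral.integral_add (intervalIntegrable_of_bdd hf hfC _ _)
    (intervalIntegrable_of_bdd hg hgC _ _), mul_add]

theorem avg_const_mul (c : ℝ) (f : ℝ → ℝ) : avg (fun θ => c * f θ) = c * avg f := by
  unfold avg
  rw [intervalIntegral.integral_const_mul]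
  ring

/-- Shift invariance. -/
theorem avg_shift {g : ℝ → ℝ} (hg : Function.Periodic g (2 * Real.pi)) (α : ℝ) :
    avg (fun θ => g (θ + α)) = avg g := by
  unfold avg
  congr 1
  rw [intervalIntegral.integral_comp_add_right, zero_add, add_comm (2 * Real.pi) α]
  have := hg.intervalIntegral_add_eq α 0
  rw [this, zero_add]

theorem exists_polar (a b : ℝ) : ∃ α : ℝ, a = √(a ^ 2 + b ^ 2) * Real.cos α ∧
    b = √(a ^ 2 + b ^ 2) * Real.sin α := by
  have h := Complex.norm_mul_cos_add_sin_mul_I (⟨a, b⟩ : ℂ)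
  have hn : ‖(⟨a, b⟩ : ℂ)‖ = √(a ^ 2 + b ^ 2) := by
    rw [Complex.norm_def, Complex.normSq_mk, sq, sq]
  refine ⟨Complex.arg ⟨a, b⟩, ?_, ?_⟩
  · rw [← hn]; exact (Complex.norm_mul_cos_arg ⟨a, b⟩).symm
  · rw [← hn]; exact (Complex.norm_mul_sin_arg ⟨a, b⟩).symm

/-- The energies after a rotation, in polar form. -/
theorem rot_polar (a b : ℝ) : ∃ α : ℝ, ∀ θ : ℝ,
    (a * Real.cos θ - b * Real.sin θ) ^ 2 = (a ^ 2 + b ^ 2) * Real.cos (θ + α) ^ 2 ∧
    (a * Real.sin θ + b * Real.cos θ) ^ 2 = (a ^ 2 + b ^ 2) * Real.sin (θ + α) ^ 2 := by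
  obtain ⟨α, h1, h2⟩ := exists_polar a b
  refine ⟨α, fun θ => ?_⟩
  set r := √(a ^ 2 + b ^ 2) with hr
  have hr2 : r ^ 2 = a ^ 2 + b ^ 2 := Real.sq_sqrt (by positivity)
  rw [← hr2, Real.cos_add, Real.sin_add]
  constructor
  · calc (a * Real.cos θ - b * Real.sin θ) ^ 2 =
        (r * Real.cos α * Real.cos θ - r * Real.sin α * Real.sin θ) ^ 2 := by
          rw [← h1, ← h2]
      _ = _ := by ring
  · calc (a * Real.sin θ + b * Real.cos θ) ^ 2 =
        (r * Real.cos α * Real.sin θ + r * Real.sin α * Real.cos θ) ^ 2 := by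
          rw [← h1, ← h2]
      _ = _ := by ring

/-- The average over a rotation of a function of the two energies. -/
theorem avg_rot (F : ℝ → ℝ → ℝ) (a b : ℝ) :
    avg (fun θ => F ((a * Real.cos θ - b * Real.sin θ) ^ 2)
      ((a * Real.sin θ + b * Real.cos θ) ^ 2)) =
    avg (fun φ => F ((a ^ 2 + b ^ 2) * Real.cos φ ^ 2) ((a ^ 2 + b ^ 2) * Real.sin φ ^ 2)) := by
  obtain ⟨α, hα⟩ := rot_polar a b
  have hper : Function.Periodic (fun φ => F ((a ^ 2 + b ^ 2) * Real.cos φ ^ 2)
      ((a ^ 2 + b ^ 2) * Real.sin φ ^ 2)) (2 * Real.pi) := by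
    intro φ
    simp only [Real.cos_add_two_pi, Real.sin_add_two_pi]
  rw [← avg_shift hper α]
  congr 1
  funext θ
  rw [(hα θ).1, (hα θ).2]

theorem measurable_rot {n : ℕ} (i j : Fin n) : Measurable fun p : ℝ × E n => rot i j p.1 p.2 := by
  unfold rot
  refine (PiLp.continuous_toLp 2 _).measurable.comp ?_
  refine measurable_pi_lambda _ fun k => ?_
  by_cases hi : k = i
  · simp only [hi, if_true]
    fun_prop
  · by_cases hj : k = j
    · simp only [hj, if_true]
      have : j ≠ i := hj ▸ hi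
      simp only [this, if_false]
      fun_prop
    · simp only [hi, hj, if_false]
      fun_prop

theorem measurable_rot_left {n : ℕ} (i j : Fin n) (v : E n) : Measurable fun θ => rot i j θ v :=
  (measurable_rot i j).comp (measurable_id.prodMk measurable_const)

theorem measurable_step {n : ℕ} : Measurable (step (n := n)) := by
  refine Measure.measurable_of_measurable_coe _ fun s hs => ?_
  have h : ∀ v : E n, step v s = ((pairs n).card : ENNReal)⁻¹ *
      ∑ p ∈ pairs n, unifAngle {θ | rot p.1 p.2 θ v ∈ s} := by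
    intro v
    rw [step, Measure.smul_apply, Measure.finsetSum_apply, smul_eq_mul]
    congr 1
    refine Finset.sum_congr rfl fun p _ => ?_
    rw [Measure.map_apply (measurable_rot_left _ _ _) hs]
    rfl
  simp only [h]
  refine Measurable.const_mul ?_ _
  refine Finset.measurable_sum _ fun p _ => ?_
  have hms : MeasurableSet {q : E n × ℝ | rot p.1 p.2 q.2 q.1 ∈ s} :=
    ((measurable_rot p.1 p.2).comp (measurable_snd.prodMk measurable_fst)) hs
  exact measurable_measure_prodMk_left hms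

theorem pairs_card_pos {n : ℕ} (hn : 2 ≤ n) : 0 < (pairs n).card := by
  refine Finset.card_pos.2 ⟨(⟨0, by omega⟩, ⟨1, by omega⟩), ?_⟩
  rw [mem_pairs]
  simp [Fin.lt_def]

theorem isProb_step {n : ℕ} (hn : 2 ≤ n) (v : E n) : IsProbabilityMeasure (step v) := by
  constructor
  rw [step, Measure.smul_apply, Measure.finsetSum_apply, smul_eq_mul]
  have : ∀ p ∈ pairs n, (unifAngle.map fun θ => rot p.1 p.2 θ v) Set.univ = 1 := by
    intro p _
    rw [Measure.map_apply (measurable_rot_left _ _ _) MeasurableSet.univ, Set.preimage_univ,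
      measure_univ]
  rw [Finset.sum_congr rfl this, Finset.sum_const, nsmul_eq_mul, mul_one,
    ENNReal.inv_mul_cancel]
  · exact_mod_cast (pairs_card_pos hn).ne'
  · exact ENNReal.natCast_ne_top _

theorem isProb_law {n : ℕ} (hn : 2 ≤ n) (x : E n) (t : ℕ) : IsProbabilityMeasure (law x t) := by
  induction t with
  | zero => rw [law]; infer_instance
  | succ t ih =>
    rw [law]
    constructor
    rw [Measure.bind_apply MeasurableSet.univ measurable_step.aemeasurable]
    have : ∀ v : E n, step v Set.univ = 1 := fun v => (isProb_step hn v).measure_univ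
    simp [this]

/-- Integration with respect to one step. -/
theorem lintegral_step {n : ℕ} (v : E n) {f : E n → ENNReal} (hf : Measurable f) :
    ∫⁻ w, f w ∂(step v) = ((pairs n).card : ENNReal)⁻¹ *
      ∑ p ∈ pairs n, ∫⁻ θ, f (rot p.1 p.2 θ v) ∂unifAngle := by
  rw [step, lintegral_smul_measure, lintegral_finsetSum_measure, smul_eq_mul]
  congr 1
  refine Finset.sum_congr rfl fun p _ => ?_
  rw [lintegral_map hf (measurable_rot_left _ _ _)]

theorem lintegral_law_succ {n : ℕ} (x : E n) (t : ℕ) {f : E n → ENNReal} (hf : Measurable f) :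
    ∫⁻ w, f w ∂(law x (t + 1)) = ∫⁻ v, (∫⁻ w, f w ∂(step v)) ∂(law x t) := by
  rw [law, Measure.lintegral_bind measurable_step.aemeasurable hf.aemeasurable]

end Pf31f09
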