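import Mathlib
import Pool.Agent.Lib.Pf31f09.Basic

/-! The one-step inequality for the product functional along Kac's walk. -/

noncomputable section

namespace Pf31f09

open Finset MeasureTheory

/-- The product functional. -/
def Phi {n : ℕ} (s : ℝ → ℝ) (v : E n) : ℝ := ∏ k, (1 - s (v k ^ 2))

/-- Success of one of two children. -/
def Q (s : ℝ → ℝ) (x : ℝ) : ℝ :=
  avg fun φ => 1 - (1 - s (x * Real.cos φ ^ 2)) * (1 - s (x * Real.sin φ ^ 2))

/-- The recursion of the success functions. -/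
def V (n : ℕ) (ξ : ℝ) (s : ℝ → ℝ) (x : ℝ) : ℝ :=
  (1 - (2 / (n : ℝ)) * (1 + ξ)) * s x + (2 / (n : ℝ)) * (1 - ξ) * Q s x

/-- Admissible success functions with threshold `y`. -/
structure Good (y : ℝ) (s : ℝ → ℝ) : Prop where
  mono : Monotone s
  nonneg : ∀ x, 0 ≤ s x
  le : ∀ x, s x ≤ 1 / 4
  zero : ∀ x, x < y → s x = 0

namespace Good

variable {y : ℝ} {s : ℝ → ℝ}

theorem meas (h : Good y s) : Measurable s := h.mono.measurable

theorem measQ (h : Good y s) (x : ℝ) :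
    Measurable fun φ => 1 - (1 - s (x * Real.cos φ ^ 2)) * (1 - s (x * Real.sin φ ^ 2)) := by
  have := h.meas
  refine measurable_const.sub (Measurable.mul ?_ ?_)
  · exact measurable_const.sub (this.comp (by fun_prop))
  · exact measurable_const.sub (this.comp (by fun_prop))

theorem bddQ (h : Good y s) (x φ : ℝ) :
    0 ≤ 1 - (1 - s (x * Real.cos φ ^ 2)) * (1 - s (x * Real.sin φ ^ 2)) ∧
    1 - (1 - s (x * Real.cos φ ^ 2)) * (1 - s (x * Real.sin φ ^ 2)) ≤ 1 / 2 := by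
  have a1 := h.nonneg (x * Real.cos φ ^ 2)
  have a2 := h.le (x * Real.cos φ ^ 2)
  have b1 := h.nonneg (x * Real.sin φ ^ 2)
  have b2 := h.le (x * Real.sin φ ^ 2)
  constructor <;> nlinarith

theorem absQ (h : Good y s) (x φ : ℝ) :
    |1 - (1 - s (x * Real.cos φ ^ 2)) * (1 - s (x * Real.sin φ ^ 2))| ≤ 1 := by
  rw [abs_of_nonneg (h.bddQ x φ).1]
  linarith [(h.bddQ x φ).2]

theorem Q_nonneg (h : Good y s) (x : ℝ) : 0 ≤ Q s x := avg_nonneg fun φ => (h.bddQ x φ).1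

theorem Q_le (h : Good y s) (x : ℝ) : Q s x ≤ 1 / 2 := by
  rw [← avg_const (1 / 2 : ℝ)]
  exact avg_mono (h.measQ x) measurable_const (C := 1) (h.absQ x)
    (fun _ => by norm_num) (fun φ => (h.bddQ x φ).2)

theorem Q_mono (h : Good y s) : Monotone (Q s) := by
  intro x x' hx
  refine avg_mono (h.measQ x) (h.measQ x') (C := 1) (h.absQ x) (h.absQ x') fun φ => ?_
  have e1 : s (x * Real.cos φ ^ 2) ≤ s (x' * Real.cos φ ^ 2) :=
    h.mono (mul_le_mul_of_nonneg_right hx (sq_nonneg _))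
  have e2 : s (x * Real.sin φ ^ 2) ≤ s (x' * Real.sin φ ^ 2) :=
    h.mono (mul_le_mul_of_nonneg_right hx (sq_nonneg _))
  have a2 := h.le (x' * Real.cos φ ^ 2)
  have b2 := h.le (x * Real.sin φ ^ 2)
  nlinarith

theorem zero_mul (h : Good y s) (hy : 0 < y) {x c : ℝ} (hx : x < y) (hc0 : 0 ≤ c)
    (hc1 : c ≤ 1) : s (x * c) = 0 := by
  refine h.zero _ ?_
  rcases le_total 0 x with h0 | h0
  · exact lt_of_le_of_lt (mul_le_of_le_one_right h0 hc1) hx
  · exact lt_of_le_of_lt (mul_nonpos_of_nonpos_of_nonneg h0 hc0) hy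

theorem Q_zero (h : Good y s) (hy : 0 < y) {x : ℝ} (hx : x < y) : Q s x = 0 := by
  unfold Q
  have : (fun φ => 1 - (1 - s (x * Real.cos φ ^ 2)) * (1 - s (x * Real.sin φ ^ 2))) =
      fun _ => (0 : ℝ) := by
    funext φ
    rw [h.zero_mul hy hx (sq_nonneg _) (Real.cos_sq_le_one φ),
      h.zero_mul hy hx (sq_nonneg _) (Real.sin_sq_le_one φ)]
    norm_num
  rw [this, avg_const]

end Good

theorem measurable_Phi {n : ℕ} {s : ℝ → ℝ} (hs : Measurable s) :
    Measurable (Phi (n := n) s) := by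
  unfold Phi
  refine Finset.measurable_prod _ fun k _ => ?_
  exact measurable_const.sub (hs.comp (by fun_prop))

theorem Phi_nonneg {n : ℕ} {s : ℝ → ℝ} (hs : ∀ x, s x ≤ 1) (v : E n) : 0 ≤ Phi s v :=
  Finset.prod_nonneg fun k _ => by linarith [hs (v k ^ 2)]

theorem Phi_le_one {n : ℕ} {s : ℝ → ℝ} (h0 : ∀ x, 0 ≤ s x) (hs : ∀ x, s x ≤ 1) (v : E n) :
    Phi s v ≤ 1 :=
  Finset.prod_le_one (fun k _ => by linarith [hs (v k ^ 2)]) fun k _ => by linarith [h0 (v k ^ 2)]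

/-- Number of large energies. -/
theorem card_large {n : ℕ} {y : ℝ} (hy : 0 < y) {v : E n} (hv : ∑ k, v k ^ 2 = 1)
    (S : Finset (Fin n)) (hS : ∀ k ∈ S, y ≤ v k ^ 2) : (S.card : ℝ) ≤ 1 / y := by
  rw [le_div_iff₀ hy, ← hv]
  calc (S.card : ℝ) * y = ∑ _k ∈ S, y := by rw [Finset.sum_const, nsmul_eq_mul]
    _ ≤ ∑ k ∈ S, v k ^ 2 := Finset.sum_le_sum hS
    _ ≤ ∑ k, v k ^ 2 := Finset.sum_le_sum_of_subset_of_nonneg (Finset.subset_univ _)
        fun k _ _ => sq_nonneg _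

theorem Phi_rot {n : ℕ} (s : ℝ → ℝ) {i j : Fin n} (h : i ≠ j) (θ : ℝ) (v : E n) :
    Phi s (rot i j θ v) = (∏ k ∈ (univ.erase i).erase j, (1 - s (v k ^ 2))) *
      ((1 - s ((v i * Real.cos θ - v j * Real.sin θ) ^ 2)) *
        (1 - s ((v i * Real.sin θ + v j * Real.cos θ) ^ 2))) := by
  unfold Phi
  rw [← Finset.mul_prod_erase univ _ (Finset.mem_univ i),
    ← Finset.mul_prod_erase (univ.erase i) _ (Finset.mem_erase.2 ⟨h.symm, Finset.mem_univ j⟩),
    rot_i, rot_j h]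
  have : ∏ k ∈ (univ.erase i).erase j, (1 - s (rot i j θ v k ^ 2)) =
      ∏ k ∈ (univ.erase i).erase j, (1 - s (v k ^ 2)) := by
    refine Finset.prod_congr rfl fun k hk => ?_
    rw [Finset.mem_erase, Finset.mem_erase] at hk
    rw [rot_k hk.2.1 hk.1]
  rw [this]
  ring

theorem avg_Phi_rot {n : ℕ} (s : ℝ → ℝ) {i j : Fin n} (h : i ≠ j) (v : E n)
    (hs : Measurable s) (h0 : ∀ x, 0 ≤ s x) (h1 : ∀ x, s x ≤ 1) :
    avg (fun θ => Phi s (rot i j θ v)) = (∏ k ∈ (univ.erase i).erase j, (1 - s (v k ^ 2))) *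
      (1 - Q s (v i ^ 2 + v j ^ 2)) := by
  simp only [Phi_rot s h]
  rw [avg_const_mul]
  congr 1
  rw [avg_rot (fun a b => (1 - s a) * (1 - s b)) (v i) (v j)]
  set R := v i ^ 2 + v j ^ 2 with hR
  have e1 : (fun φ => (1 - s (R * Real.cos φ ^ 2)) * (1 - s (R * Real.sin φ ^ 2))) =
      fun φ => 1 + (-1) * (1 - (1 - s (R * Real.cos φ ^ 2)) * (1 - s (R * Real.sin φ ^ 2))) := by
    funext φ; ring
  have hm : Measurable fun φ => 1 - (1 - s (R * Real.cos φ ^ 2)) *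
      (1 - s (R * Real.sin φ ^ 2)) := by
    refine measurable_const.sub (Measurable.mul ?_ ?_)
    · exact measurable_const.sub (hs.comp (by fun_prop))
    · exact measurable_const.sub (hs.comp (by fun_prop))
  have hb : ∀ φ, 0 ≤ (1 - s (R * Real.cos φ ^ 2)) * (1 - s (R * Real.sin φ ^ 2)) ∧
      (1 - s (R * Real.cos φ ^ 2)) * (1 - s (R * Real.sin φ ^ 2)) ≤ 1 := by
    intro φ
    have a1 := h0 (R * Real.cos φ ^ 2)
    have a2 := h1 (R * Real.cos φ ^ 2)
    have b1 := h0 (R * Real.sin φ ^ 2)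
    have b2 := h1 (R * Real.sin φ ^ 2)
    constructor
    · exact mul_nonneg (by linarith) (by linarith)
    · exact mul_le_one₀ (by linarith) (by linarith) (by linarith)
  rw [e1, avg_add measurable_const (hm.const_mul _) (C := 1) (fun _ => by norm_num)
    (fun φ => by
      have := hb φ
      rw [abs_le]; constructor <;> linarith), avg_const_mul, avg_const]
  rw [Q]
  ring

/-- The one-step inequality. -/
theorem step_le {n : ℕ} (hn : 32 ≤ n) {y : ℝ} (hy : 0 < y) {s : ℝ → ℝ} (hs : Good y s) {ξ : ℝ}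
    (hξ : 3 * (1 / y) / (n - 1) + 16 / n ≤ ξ) (hξ1 : ξ ≤ 1) {v : E n}
    (hv : ∑ k, v k ^ 2 = 1) :
    ∫⁻ w, ENNReal.ofReal (Phi s w) ∂(step v) ≤ ENNReal.ofReal (Phi (V n ξ s) v) := by
  have hs1 : ∀ x, s x ≤ 1 := fun x => by linarith [hs.le x]
  rw [lintegral_step v (f := fun w => ENNReal.ofReal (Phi s w))
    (ENNReal.measurable_ofReal.comp (measurable_Phi hs.meas))]
  have hterm : ∀ p ∈ pairs n, ∫⁻ θ, ENNReal.ofReal (Phi s (rot p.1 p.2 θ v)) ∂unifAngle ≤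
      ENNReal.ofReal ((∏ k ∈ (univ.erase p.1).erase p.2, (1 - s (v k ^ 2))) *
        (1 - max (Q s (v p.1 ^ 2)) (Q s (v p.2 ^ 2)))) := by
    intro p hp
    have hne : p.1 ≠ p.2 := (mem_pairs.1 hp).ne
    rw [lintegral_unifAngle (g := fun θ => Phi s (rot p.1 p.2 θ v))
      ((measurable_Phi hs.meas).comp (measurable_rot_left _ _ _))
      (fun θ => Phi_nonneg hs1 _) (C := 1) (fun θ => Phi_le_one hs.nonneg hs1 _)]
    refine ENNReal.ofReal_le_ofReal ?_
    rw [avg_Phi_rot s hne v hs.meas hs.nonneg hs1]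
    refine mul_le_mul_of_nonneg_left ?_ (Finset.prod_nonneg fun k _ => by
      linarith [hs1 (v k ^ 2)])
    have e1 : Q s (v p.1 ^ 2) ≤ Q s (v p.1 ^ 2 + v p.2 ^ 2) :=
      hs.Q_mono (by linarith [sq_nonneg (v p.2)])
    have e2 : Q s (v p.2 ^ 2) ≤ Q s (v p.1 ^ 2 + v p.2 ^ 2) :=
      hs.Q_mono (by linarith [sq_nonneg (v p.1)])
    linarith [max_le e1 e2]
  have hnn : ∀ p ∈ pairs n, 0 ≤ (∏ k ∈ (univ.erase p.1).erase p.2, (1 - s (v k ^ 2))) *
        (1 - max (Q s (v p.1 ^ 2)) (Q s (v p.2 ^ 2))) := by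
    intro p _
    refine mul_nonneg (Finset.prod_nonneg fun k _ => by linarith [hs1 (v k ^ 2)]) ?_
    have := max_le (hs.Q_le (v p.1 ^ 2)) (hs.Q_le (v p.2 ^ 2))
    linarith
  have hn' : (32 : ℝ) ≤ n := by exact_mod_cast hn
  calc ((pairs n).card : ENNReal)⁻¹ * ∑ p ∈ pairs n,
        ∫⁻ θ, ENNReal.ofReal (Phi s (rot p.1 p.2 θ v)) ∂unifAngle
      ≤ ((pairs n).card : ENNReal)⁻¹ * ∑ p ∈ pairs n,
        ENNReal.ofReal ((∏ k ∈ (univ.erase p.1).erase p.2, (1 - s (v k ^ 2))) *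
        (1 - max (Q s (v p.1 ^ 2)) (Q s (v p.2 ^ 2)))) := by
        gcongr with p hp
        exact hterm p hp
    _ = ENNReal.ofReal ((2 / ((n : ℝ) * (n - 1))) * ∑ p ∈ pairs n,
        (∏ k ∈ (univ.erase p.1).erase p.2, (1 - s (v k ^ 2))) *
        (1 - max (Q s (v p.1 ^ 2)) (Q s (v p.2 ^ 2)))) := by
        have hcpos : (0 : ℝ) < (pairs n).card := by
          exact_mod_cast pairs_card_pos (by omega : 2 ≤ n)
        rw [ENNReal.ofReal_mul (by
            have : (0 : ℝ) < (n : ℝ) * (n - 1) := by nlinarith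
            positivity), ENNReal.ofReal_sum_of_nonneg hnn]
        congr 1
        have : 2 / ((n : ℝ) * (n - 1)) = ((pairs n).card : ℝ)⁻¹ := by
          rw [card_pairs, inv_div]
        rw [this, ENNReal.ofReal_inv_of_pos hcpos, ENNReal.ofReal_natCast]
    _ ≤ ENNReal.ofReal (Phi (V n ξ s) v) := by
        refine ENNReal.ofReal_le_ofReal ?_
        refine (step_alg hn (fun k => s (v k ^ 2)) (fun k => Q s (v k ^ 2)) (1 / y) ξ
          (fun k => hs.nonneg _) (fun k => hs.le _) (fun k => hs.Q_nonneg _)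
          (fun k => hs.Q_le _) ?_ hξ hξ1).trans (le_of_eq ?_)
        · refine card_large hy hv _ fun k hk => ?_
          rw [Finset.mem_filter] at hk
          by_contra hlt
          rw [not_le] at hlt
          exact hk.2 ⟨hs.zero _ hlt, hs.Q_zero hy hlt⟩
        · rfl

end Pf31f09
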