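import Mathlib
import Pool.Agent.Lib.Pf31f09.Step

/-! Iteration of the one-step inequality; the linear lower bound. -/

noncomputable section

namespace Pf31f09

open Finset MeasureTheory

theorem rot_norm {n : ℕ} {i j : Fin n} (h : i ≠ j) (θ : ℝ) (v : E n) :
    ∑ k, rot i j θ v k ^ 2 = ∑ k, v k ^ 2 := by
  rw [← Finset.add_sum_erase univ _ (Finset.mem_univ i),
    ← Finset.add_sum_erase (univ.erase i) _ (Finset.mem_erase.2 ⟨h.symm, Finset.mem_univ j⟩),
    ← Finset.add_sum_erase univ (fun k => v k ^ 2) (Finset.mem_univ i),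
    ← Finset.add_sum_erase (univ.erase i) (fun k => v k ^ 2)
      (Finset.mem_erase.2 ⟨h.symm, Finset.mem_univ j⟩), rot_i, rot_j h]
  have : ∑ k ∈ (univ.erase i).erase j, rot i j θ v k ^ 2 =
      ∑ k ∈ (univ.erase i).erase j, v k ^ 2 := by
    refine Finset.sum_congr rfl fun k hk => ?_
    rw [Finset.mem_erase, Finset.mem_erase] at hk
    rw [rot_k hk.2.1 hk.1]
  rw [this]
  have := Real.sin_sq_add_cos_sq θ
  linear_combination (v i ^ 2 + v j ^ 2) * this

/-- The set of points with `∑ v_k² = 1`. -/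
def sph (n : ℕ) : Set (E n) := {v | ∑ k, v k ^ 2 = 1}

theorem measurableSet_sph (n : ℕ) : MeasurableSet (sph n) := by
  refine measurableSet_eq_fun ?_ measurable_const
  fun_prop

theorem step_sph {n : ℕ} {v : E n} (hv : v ∈ sph n) : step v (sph n)ᶜ = 0 := by
  rw [step, Measure.smul_apply, Measure.finsetSum_apply, smul_eq_mul]
  have : ∀ p ∈ pairs n, (unifAngle.map fun θ => rot p.1 p.2 θ v) (sph n)ᶜ = 0 := by
    intro p hp
    rw [Measure.map_apply (measurable_rot_left _ _ _) (measurableSet_sph n).compl]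
    have : (fun θ => rot p.1 p.2 θ v) ⁻¹' (sph n)ᶜ = ∅ := by
      ext θ
      simp only [Set.mem_preimage, Set.mem_compl_iff, Set.mem_empty_iff_false, iff_false, not_not]
      change ∑ k, rot p.1 p.2 θ v k ^ 2 = 1
      rw [rot_norm (mem_pairs.1 hp).ne]
      exact hv
    rw [this, measure_empty]
  rw [Finset.sum_congr rfl this, Finset.sum_const_zero, mul_zero]

theorem law_sph {n : ℕ} {x : E n} (hx : x ∈ sph n) (t : ℕ) : law x t (sph n)ᶜ = 0 := by
  induction t with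
  | zero =>
    rw [law, Measure.dirac_apply' _ (measurableSet_sph n).compl]
    simp [hx]
  | succ t ih =>
    rw [law, Measure.bind_apply (measurableSet_sph n).compl measurable_step.aemeasurable]
    have hae : ∀ᵐ v ∂(law x t), v ∈ sph n := by
      rw [ae_iff]
      exact ih
    have hz : ∀ᵐ v ∂(law x t), step v (sph n)ᶜ = 0 := by
      filter_upwards [hae] with v hv
      exact step_sph hv
    rw [lintegral_congr_ae hz, lintegral_zero]

theorem law_ae {n : ℕ} {x : E n} (hx : x ∈ sph n) (t : ℕ) :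
    ∀ᵐ v ∂(law x t), ∑ k, v k ^ 2 = 1 := by
  rw [ae_iff]
  exact law_sph hx t

theorem V_le_one {n : ℕ} (hn : 32 ≤ n) {y : ℝ} {s : ℝ → ℝ} (hs : Good y s) {ξ : ℝ}
    (hξ0 : 0 ≤ ξ) (x : ℝ) : V n ξ s x ≤ 1 := by
  have hn' : (32 : ℝ) ≤ n := by exact_mod_cast hn
  have hρ0 : (0 : ℝ) < 2 / n := by positivity
  have hρ1 : (2 : ℝ) / n ≤ 1 / 16 := by rw [div_le_iff₀ (by linarith)]; linarith
  unfold V
  have h1 := hs.nonneg x
  have h2 := hs.le x
  have h3 := hs.Q_nonneg x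
  have h4 := hs.Q_le x
  have e1 : (1 - 2 / (n : ℝ) * (1 + ξ)) * s x ≤ 1 * (1 / 4) := by
    refine mul_le_mul ?_ h2 h1 (by norm_num)
    nlinarith
  have e2 : (2 / (n : ℝ)) * (1 - ξ) * Q s x ≤ (1 / 16) * (1 / 2) := by
    refine mul_le_mul ?_ h4 h3 (by norm_num)
    nlinarith
  linarith

theorem Phi_anti {n : ℕ} {s s' : ℝ → ℝ} (h : ∀ x, s' x ≤ s x) (h1 : ∀ x, s x ≤ 1) (v : E n) :
    Phi s v ≤ Phi s' v :=
  Finset.prod_le_prod (fun k _ => by linarith [h1 (v k ^ 2)]) fun k _ => by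
    linarith [h (v k ^ 2)]

/-- Iteration. -/
theorem iter_le {n : ℕ} (hn : 32 ≤ n) {y : ℝ} (hy : 0 < y) {ξ : ℝ}
    (hξ : 3 * (1 / y) / (n - 1) + 16 / n ≤ ξ) (hξ1 : ξ ≤ 1) {x : E n} (hx : x ∈ sph n) (t : ℕ) :
    ∀ (T : ℕ) (s : ℕ → ℝ → ℝ), (∀ r, Good y (s r)) →
      (∀ r < T, ∀ z, s (r + 1) z ≤ V n ξ (s r) z) →
      ∫⁻ w, ENNReal.ofReal (Phi (s 0) w) ∂(law x (t + T)) ≤
        ∫⁻ w, ENNReal.ofReal (Phi (s T) w) ∂(law x t) := by
  have hn' : (32 : ℝ) ≤ n := by exact_mod_cast hn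
  have hξ0 : 0 ≤ ξ := by
    refine le_trans ?_ hξ
    have : (0 : ℝ) < n - 1 := by linarith
    positivity
  intro T
  induction T with
  | zero => intro s _ _; simp
  | succ T ih =>
    intro s hs hstep
    rw [← add_assoc, lintegral_law_succ x (t + T) (f := fun w => ENNReal.ofReal (Phi (s 0) w))
      (ENNReal.measurable_ofReal.comp (measurable_Phi (hs 0).meas))]
    calc ∫⁻ v, ∫⁻ w, ENNReal.ofReal (Phi (s 0) w) ∂(step v) ∂(law x (t + T))
        ≤ ∫⁻ v, ENNReal.ofReal (Phi (s 1) v) ∂(law x (t + T)) := by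
          refine lintegral_mono_ae ?_
          filter_upwards [law_ae hx (t + T)] with v hv
          refine (step_le hn hy (hs 0) hξ hξ1 hv).trans (ENNReal.ofReal_le_ofReal ?_)
          exact Phi_anti (hstep 0 (by omega)) (V_le_one hn (hs 0) hξ0) v
      _ ≤ ∫⁻ v, ENNReal.ofReal (Phi (s (T + 1)) v) ∂(law x t) := by
          exact ih (fun r => s (r + 1)) (fun r => hs _) fun r hr z => hstep (r + 1) (by omega) z

/-- Sum of the two children. -/
def L1 (s : ℝ → ℝ) (x : ℝ) : ℝ := avg fun φ => s (x * Real.cos φ ^ 2) + s (x * Real.sin φ ^ 2)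

/-- The linear operator. -/
def Lam (n : ℕ) (α : ℝ) (s : ℝ → ℝ) (x : ℝ) : ℝ :=
  (1 - (2 / (n : ℝ)) * (1 + α)) * s x + (2 / (n : ℝ)) * (1 - α) * L1 s x

/-- Iterates of the indicator function of `[y, ∞)`. -/
def Lit (n : ℕ) (α y : ℝ) : ℕ → ℝ → ℝ
  | 0 => fun x => if y ≤ x then 1 else 0
  | r + 1 => Lam n α (Lit n α y r)

section

variable {n : ℕ} {α y : ℝ}

theorem rho_bounds (hn : 32 ≤ n) : 0 < 2 / (n : ℝ) ∧ 2 / (n : ℝ) ≤ 1 / 16 := by
  have hn' : (32 : ℝ) ≤ n := by exact_mod_cast hn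
  refine ⟨by positivity, ?_⟩
  rw [div_le_iff₀ (by linarith)]
  linarith

theorem Lit_props (hn : 32 ≤ n) (hα0 : 0 ≤ α) (hα1 : α ≤ 1) (hy : 0 < y) (r : ℕ) :
    Monotone (Lit n α y r) ∧ (∀ x, 0 ≤ Lit n α y r x) ∧
    (∀ x, Lit n α y r x ≤ (1 + 2 / (n : ℝ)) ^ r) ∧ (∀ x, x < y → Lit n α y r x = 0) := by
  obtain ⟨hρ0, hρ1⟩ := rho_bounds hn
  induction r with
  | zero =>
    refine ⟨?_, fun x => ?_, fun x => ?_, fun x hx => ?_⟩
    · intro x x' hx
      simp only [Lit]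
      split_ifs with h1 h2 h2
      · exact le_rfl
      · exact absurd (h1.trans hx) h2
      · norm_num
      · exact le_rfl
    · simp only [Lit]; split_ifs <;> norm_num
    · simp only [Lit, pow_zero]; split_ifs <;> norm_num
    · simp only [Lit]; rw [if_neg (not_le.2 hx)]
  | succ r ih =>
    obtain ⟨h1, h2, h3, h4⟩ := ih
    set s := Lit n α y r with hs
    set C := (1 + 2 / (n : ℝ)) ^ r with hC
    have hC0 : 0 ≤ C := by positivity
    have hm : ∀ x, Measurable fun φ => s (x * Real.cos φ ^ 2) + s (x * Real.sin φ ^ 2) := by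
      intro x
      exact (h1.measurable.comp (by fun_prop)).add (h1.measurable.comp (by fun_prop))
    have hb : ∀ x φ, |s (x * Real.cos φ ^ 2) + s (x * Real.sin φ ^ 2)| ≤ 2 * C := by
      intro x φ
      rw [abs_of_nonneg (add_nonneg (h2 _) (h2 _))]
      linarith [h3 (x * Real.cos φ ^ 2), h3 (x * Real.sin φ ^ 2)]
    have hL0 : ∀ x, 0 ≤ L1 s x := fun x => avg_nonneg fun φ => add_nonneg (h2 _) (h2 _)
    have hL2 : ∀ x, L1 s x ≤ 2 * C := fun x => by
      rw [← avg_const (2 * C)]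
      refine avg_mono (hm x) measurable_const (C := 2 * C) (hb x) (fun _ => ?_) fun φ => ?_
      · rw [abs_of_nonneg (by positivity)]
      · exact (le_abs_self _).trans (hb x φ)
    have hLm : Monotone (L1 s) := fun x x' hx => by
      refine avg_mono (hm x) (hm x') (C := 2 * C) (hb x) (hb x') fun φ => ?_
      exact add_le_add (h1 (mul_le_mul_of_nonneg_right hx (sq_nonneg _)))
        (h1 (mul_le_mul_of_nonneg_right hx (sq_nonneg _)))
    have hc1 : 0 ≤ 1 - (2 / (n : ℝ)) * (1 + α) := by nlinarith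
    have hc2 : 0 ≤ (2 / (n : ℝ)) * (1 - α) := mul_nonneg hρ0.le (by linarith)
    refine ⟨fun x x' hx => ?_, fun x => ?_, fun x => ?_, fun x hx => ?_⟩
    · simp only [Lit, Lam]
      exact add_le_add (mul_le_mul_of_nonneg_left (h1 hx) hc1)
        (mul_le_mul_of_nonneg_left (hLm hx) hc2)
    · simp only [Lit, Lam]
      exact add_nonneg (mul_nonneg hc1 (h2 x)) (mul_nonneg hc2 (hL0 x))
    · simp only [Lit, Lam]
      calc (1 - (2 / (n : ℝ)) * (1 + α)) * s x + (2 / (n : ℝ)) * (1 - α) * L1 s x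
          ≤ (1 - (2 / (n : ℝ)) * (1 + α)) * C + (2 / (n : ℝ)) * (1 - α) * (2 * C) :=
            add_le_add (mul_le_mul_of_nonneg_left (h3 x) hc1)
              (mul_le_mul_of_nonneg_left (hL2 x) hc2)
        _ ≤ (1 + 2 / (n : ℝ)) ^ (r + 1) := by
            rw [pow_succ, ← hC]
            have : 0 ≤ (2 / (n : ℝ)) * α * C := by positivity
            nlinarith
    · change (1 - 2 / (n : ℝ) * (1 + α)) * s x + 2 / (n : ℝ) * (1 - α) * L1 s x = 0
      rw [h4 x hx]
      have : L1 s x = 0 := by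
        unfold L1
        have : (fun φ => s (x * Real.cos φ ^ 2) + s (x * Real.sin φ ^ 2)) = fun _ => (0 : ℝ) := by
          funext φ
          have e : ∀ c : ℝ, 0 ≤ c → c ≤ 1 → s (x * c) = 0 := by
            intro c hc0 hc1
            refine h4 _ ?_
            rcases le_total 0 x with h0 | h0
            · exact lt_of_le_of_lt (mul_le_of_le_one_right h0 hc1) hx
            · exact lt_of_le_of_lt (mul_nonpos_of_nonpos_of_nonneg h0 hc0) hy
          rw [e _ (sq_nonneg _) (Real.cos_sq_le_one φ), e _ (sq_nonneg _) (Real.sin_sq_le_one φ),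
            add_zero]
        rw [this, avg_const]
      rw [this]
      ring

/-- The nonlinear step dominates the linear one. -/
theorem Lam_le_V (hn : 32 ≤ n) {η ξ : ℝ} {s : ℝ → ℝ} (hs : Good y s)
    (hη : ∀ x, s x ≤ η) (hξ0 : 0 ≤ ξ) (hα : ξ + η ≤ α) (hα1 : α ≤ 1) (x : ℝ) :
    Lam n α s x ≤ V n ξ s x := by
  obtain ⟨hρ0, hρ1⟩ := rho_bounds hn
  have hη0 : 0 ≤ η := (hs.nonneg 0).trans (hη 0)
  have hm : Measurable fun φ => s (x * Real.cos φ ^ 2) + s (x * Real.sin φ ^ 2) :=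
    (hs.meas.comp (by fun_prop)).add (hs.meas.comp (by fun_prop))
  have hb : ∀ φ, |s (x * Real.cos φ ^ 2) + s (x * Real.sin φ ^ 2)| ≤ 1 := by
    intro φ
    rw [abs_of_nonneg (add_nonneg (hs.nonneg _) (hs.nonneg _))]
    linarith [hs.le (x * Real.cos φ ^ 2), hs.le (x * Real.sin φ ^ 2)]
  have hη1 : η ≤ 1 := by linarith
  have hQ : (1 - η) * L1 s x ≤ Q s x := by
    unfold L1 Q
    rw [← avg_const_mul]
    refine avg_mono (hm.const_mul _) (hs.measQ x) (C := 1) (fun φ => ?_) (hs.absQ x) fun φ => ?_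
    · rw [abs_mul, abs_of_nonneg (by linarith : 0 ≤ 1 - η)]
      exact mul_le_one₀ (by linarith) (abs_nonneg _) (hb φ)
    · have a1 := hs.nonneg (x * Real.cos φ ^ 2)
      have a2 := hη (x * Real.cos φ ^ 2)
      have b1 := hs.nonneg (x * Real.sin φ ^ 2)
      have b2 := hη (x * Real.sin φ ^ 2)
      nlinarith
  have hL0 : 0 ≤ L1 s x := avg_nonneg fun φ => add_nonneg (hs.nonneg _) (hs.nonneg _)
  unfold Lam V
  have e1 : (1 - 2 / (n : ℝ) * (1 + α)) * s x ≤ (1 - 2 / (n : ℝ) * (1 + ξ)) * s x := by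
    refine mul_le_mul_of_nonneg_right ?_ (hs.nonneg x)
    nlinarith
  have e2 : (2 / (n : ℝ)) * (1 - α) * L1 s x ≤ (2 / (n : ℝ)) * (1 - ξ) * Q s x := by
    have f1 : (1 - α) * L1 s x ≤ (1 - ξ) * ((1 - η) * L1 s x) := by
      rw [← mul_assoc]
      refine mul_le_mul_of_nonneg_right ?_ hL0
      nlinarith
    have f2 : (1 - ξ) * ((1 - η) * L1 s x) ≤ (1 - ξ) * Q s x :=
      mul_le_mul_of_nonneg_left hQ (by linarith)
    rw [mul_assoc, mul_assoc]
    exact mul_le_mul_of_nonneg_left (f1.trans f2) hρ0.le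
  linarith

end

end Pf31f09
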