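import Mathlib
import Pool.Agent.Lib.Pf31f09.Iter

/-! Power functions and the linear operator. -/

noncomputable section

namespace Pf31f09

open Finset MeasureTheory

/-- The moment `m_q = E |cos θ|^{2q}` of a uniform angle. -/
def mom (q : ℝ) : ℝ := avg fun φ => (Real.cos φ ^ 2) ^ q

/-- The eigenvalue of the linear operator on the power function. -/
def lam (n : ℕ) (α q : ℝ) : ℝ := 1 - (2 / (n : ℝ)) * (1 + α) + (2 / (n : ℝ)) * (1 - α) * (2 * mom q)

theorem avg_sum {ι : Type*} (J : Finset ι) (f : ι → ℝ → ℝ) (hf : ∀ j ∈ J, Measurable (f j))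
    (C : ι → ℝ) (hC : ∀ j ∈ J, ∀ φ, |f j φ| ≤ C j) :
    avg (fun φ => ∑ j ∈ J, f j φ) = ∑ j ∈ J, avg (f j) := by
  unfold avg
  rw [intervalIntegral.integral_finsetSum fun j hj =>
    intervalIntegrable_of_bdd (hf j hj) (hC j hj) _ _, Finset.mul_sum]

theorem measurable_powc (z q : ℝ) : Measurable fun φ : ℝ => (z * Real.cos φ ^ 2) ^ q :=
  (measurable_id.pow_const q).comp (by fun_prop : Measurable fun φ : ℝ => z * Real.cos φ ^ 2)

theorem measurable_pows (z q : ℝ) : Measurable fun φ : ℝ => (z * Real.sin φ ^ 2) ^ q :=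
  (measurable_id.pow_const q).comp (by fun_prop : Measurable fun φ : ℝ => z * Real.sin φ ^ 2)

theorem pow_bdd {z c q : ℝ} (hz : 0 ≤ z) (hc0 : 0 ≤ c) (hc1 : c ≤ 1) (hq : 0 ≤ q) :
    |(z * c) ^ q| ≤ z ^ q := by
  rw [abs_of_nonneg (Real.rpow_nonneg (mul_nonneg hz hc0) _)]
  exact Real.rpow_le_rpow (mul_nonneg hz hc0) (mul_le_of_le_one_right hz hc1) hq

theorem avg_powc {z q : ℝ} (hz : 0 ≤ z) : avg (fun φ => (z * Real.cos φ ^ 2) ^ q) =
    z ^ q * mom q := by
  rw [mom, ← avg_const_mul]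
  congr 1
  funext φ
  rw [Real.mul_rpow hz (sq_nonneg _)]

theorem avg_pows {z q : ℝ} (hz : 0 ≤ z) : avg (fun φ => (z * Real.sin φ ^ 2) ^ q) =
    z ^ q * mom q := by
  rw [← avg_powc hz]
  have hper : Function.Periodic (fun φ => (z * Real.cos φ ^ 2) ^ q) (2 * Real.pi) := by
    intro φ
    simp only [Real.cos_add_two_pi]
  rw [← avg_shift hper (-(Real.pi / 2))]
  congr 1
  funext φ
  rw [← sub_eq_add_neg, Real.cos_sub_pi_div_two]

theorem L1_pow {z q : ℝ} (hz : 0 ≤ z) (hq : 0 ≤ q) : L1 (fun x => x ^ q) z = 2 * mom q * z ^ q := by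
  unfold L1
  rw [avg_add (measurable_powc z q) (measurable_pows z q) (C := z ^ q)
    (fun φ => pow_bdd hz (sq_nonneg _) (Real.cos_sq_le_one φ) hq)
    (fun φ => pow_bdd hz (sq_nonneg _) (Real.sin_sq_le_one φ) hq), avg_powc hz, avg_pows hz]
  ring

theorem L1_sum {ι : Type*} (J : Finset ι) (c q : ι → ℝ) (hq : ∀ j ∈ J, 0 ≤ q j) {z : ℝ}
    (hz : 0 ≤ z) : L1 (fun x => ∑ j ∈ J, c j * x ^ q j) z =
    ∑ j ∈ J, c j * (2 * mom (q j) * z ^ q j) := by
  unfold L1
  have h1 : (fun φ => (∑ j ∈ J, c j * (z * Real.cos φ ^ 2) ^ q j) +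
      ∑ j ∈ J, c j * (z * Real.sin φ ^ 2) ^ q j) =
      fun φ => ∑ j ∈ J, c j * ((z * Real.cos φ ^ 2) ^ q j + (z * Real.sin φ ^ 2) ^ q j) := by
    funext φ
    rw [← Finset.sum_add_distrib]
    exact Finset.sum_congr rfl fun j _ => by ring
  rw [h1, avg_sum J (fun j φ => c j * ((z * Real.cos φ ^ 2) ^ q j + (z * Real.sin φ ^ 2) ^ q j))
    (fun j _ => ((measurable_powc z (q j)).add
    (measurable_pows z (q j))).const_mul _) (fun j => |c j| * (2 * z ^ q j))]
  · refine Finset.sum_congr rfl fun j hj => ?_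
    rw [avg_const_mul]
    congr 1
    exact L1_pow hz (hq j hj)
  · intro j hj φ
    rw [abs_mul]
    refine mul_le_mul_of_nonneg_left ?_ (abs_nonneg _)
    refine (abs_add_le _ _).trans ?_
    have e1 := pow_bdd hz (sq_nonneg _) (Real.cos_sq_le_one φ) (hq j hj)
    have e2 := pow_bdd hz (sq_nonneg _) (Real.sin_sq_le_one φ) (hq j hj)
    linarith

/-- Lower bound for the iterates by sums of power functions. -/
theorem Lit_ge {n : ℕ} (hn : 32 ≤ n) {α y : ℝ} (hα0 : 0 ≤ α) (hα1 : α ≤ 1) (hy : 0 < y)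
    {ι : Type*} (J : Finset ι) (c q : ι → ℝ) (hq : ∀ j ∈ J, 0 ≤ q j) {x0 : ℝ}
    (h : ∀ z, 0 ≤ z → z ≤ x0 → ∑ j ∈ J, c j * z ^ q j ≤ if y ≤ z then 1 else 0) (r : ℕ) :
    ∀ z, 0 ≤ z → z ≤ x0 → ∑ j ∈ J, c j * lam n α (q j) ^ r * z ^ q j ≤ Lit n α y r z := by
  obtain ⟨hρ0, hρ1⟩ := rho_bounds hn
  induction r with
  | zero =>
    intro z h0 h1
    simp only [pow_zero, mul_one]
    exact h z h0 h1
  | succ r ih =>
    intro z h0 h1
    obtain ⟨p1, p2, p3, p4⟩ := Lit_props hn hα0 hα1 hy r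
    set s := Lit n α y r with hs
    change _ ≤ Lam n α s z
    set f : ℝ → ℝ := fun x => ∑ j ∈ J, (c j * lam n α (q j) ^ r) * x ^ q j with hf
    have e1 : ∑ j ∈ J, c j * lam n α (q j) ^ (r + 1) * z ^ q j = Lam n α f z := by
      unfold Lam
      rw [hf, L1_sum J _ q hq h0, Finset.mul_sum, Finset.mul_sum, ← Finset.sum_add_distrib]
      refine Finset.sum_congr rfl fun j _ => ?_
      rw [pow_succ]
      conv_lhs => rw [show lam n α (q j) ^ r * lam n α (q j) = lam n α (q j) ^ r *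
        (1 - (2 / (n : ℝ)) * (1 + α) + (2 / (n : ℝ)) * (1 - α) * (2 * mom (q j))) from rfl]
      ring
    rw [e1]
    unfold Lam
    have hc1 : 0 ≤ 1 - (2 / (n : ℝ)) * (1 + α) := by nlinarith
    have hc2 : 0 ≤ (2 / (n : ℝ)) * (1 - α) := mul_nonneg hρ0.le (by linarith)
    have hfs : ∀ x, 0 ≤ x → x ≤ x0 → f x ≤ s x := fun x hx0 hx1 => ih x hx0 hx1
    refine add_le_add (mul_le_mul_of_nonneg_left (hfs z h0 h1) hc1)
      (mul_le_mul_of_nonneg_left ?_ hc2)
    -- monotonicity of `L1`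
    have hfm : ∀ g : ℝ → ℝ, Measurable g → (∀ φ, 0 ≤ g φ ∧ g φ ≤ 1) →
        Measurable (fun φ => f (z * g φ)) ∧ ∀ φ, |f (z * g φ)| ≤
          ∑ j ∈ J, |c j * lam n α (q j) ^ r| * z ^ q j := by
      intro g hg hg1
      constructor
      · refine Finset.measurable_sum _ fun j _ => Measurable.const_mul ?_ _
        exact (measurable_id.pow_const (q j)).comp (hg.const_mul z)
      · intro φ
        refine (Finset.abs_sum_le_sum_abs _ _).trans (Finset.sum_le_sum fun j hj => ?_)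
        rw [abs_mul]
        exact mul_le_mul_of_nonneg_left (pow_bdd h0 (hg1 φ).1 (hg1 φ).2 (hq j hj)) (abs_nonneg _)
    obtain ⟨m1, b1⟩ := hfm (fun φ => Real.cos φ ^ 2) (by fun_prop)
      fun φ => ⟨sq_nonneg _, Real.cos_sq_le_one φ⟩
    obtain ⟨m2, b2⟩ := hfm (fun φ => Real.sin φ ^ 2) (by fun_prop)
      fun φ => ⟨sq_nonneg _, Real.sin_sq_le_one φ⟩
    set B := ∑ j ∈ J, |c j * lam n α (q j) ^ r| * z ^ q j with hB
    have hB0 : 0 ≤ B := Finset.sum_nonneg fun j _ =>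
      mul_nonneg (abs_nonneg _) (Real.rpow_nonneg h0 _)
    set C := (1 + 2 / (n : ℝ)) ^ r with hC
    have hC0 : 0 ≤ C := by positivity
    unfold L1
    refine avg_mono (m1.add m2) ((p1.measurable.comp (by fun_prop)).add
      (p1.measurable.comp (by fun_prop))) (C := 2 * B + 2 * C) (fun φ => ?_) (fun φ => ?_)
      fun φ => ?_
    · refine (abs_add_le _ _).trans ?_
      linarith [b1 φ, b2 φ]
    · rw [abs_of_nonneg (add_nonneg (p2 _) (p2 _))]
      linarith [p3 (z * Real.cos φ ^ 2), p3 (z * Real.sin φ ^ 2)]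
    · refine add_le_add (hfs _ (mul_nonneg h0 (sq_nonneg _)) ?_)
        (hfs _ (mul_nonneg h0 (sq_nonneg _)) ?_)
      · exact (mul_le_of_le_one_right h0 (Real.cos_sq_le_one φ)).trans h1
      · exact (mul_le_of_le_one_right h0 (Real.sin_sq_le_one φ)).trans h1

/-- The explicit lower bound at the point `y e^a`. -/
theorem Lit_explicit {n : ℕ} (hn : 32 ≤ n) {α y : ℝ} (hα0 : 0 ≤ α) (hα1 : α ≤ 1) (hy : 0 < y)
    {a b q1 q2 q3 : ℝ} (hq2 : 0 < q2) (h21 : q2 < q1) (h13 : q1 < q3) (r : ℕ) :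
    Real.exp (q1 * b) * (lam n α q1 ^ r - Real.exp ((q3 - q1) * b) * lam n α q3 ^ r -
      Real.exp (-(q1 - q2) * a) * lam n α q2 ^ r) ≤ Lit n α y r (y * Real.exp a) := by
  set x0 := y * Real.exp a with hx0
  have hx0' : 0 < x0 := by positivity
  let q : Fin 3 → ℝ := ![q1, q3, q2]
  let c : Fin 3 → ℝ := ![Real.exp (q1 * b) * (x0 ^ q1)⁻¹,
    -(Real.exp (q1 * b) * Real.exp ((q3 - q1) * b) * (x0 ^ q3)⁻¹),
    -(Real.exp (q1 * b) * Real.exp (-(q1 - q2) * a) * (x0 ^ q2)⁻¹)]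
  have hq : ∀ j ∈ (univ : Finset (Fin 3)), 0 ≤ q j := by
    intro j _
    fin_cases j
    · exact (hq2.trans h21).le
    · exact (hq2.trans (h21.trans h13)).le
    · exact hq2.le
  have key : ∀ z, 0 ≤ z → z ≤ x0 → ∑ j, c j * z ^ q j ≤ if y ≤ z then 1 else 0 := by
    intro z hz0 hz1
    rw [Fin.sum_univ_three]
    change Real.exp (q1 * b) * (x0 ^ q1)⁻¹ * z ^ q1 +
      -(Real.exp (q1 * b) * Real.exp ((q3 - q1) * b) * (x0 ^ q3)⁻¹) * z ^ q3 +
      -(Real.exp (q1 * b) * Real.exp (-(q1 - q2) * a) * (x0 ^ q2)⁻¹) * z ^ q2 ≤ _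
    rcases hz0.eq_or_lt with hz | hz
    · rw [← hz, Real.zero_rpow (hq2.trans h21).ne', Real.zero_rpow
        (hq2.trans (h21.trans h13)).ne', Real.zero_rpow hq2.ne', if_neg (not_le.2 hy)]
      simp
    · set t := Real.log x0 - Real.log z with ht
      have ht0 : 0 ≤ t := by
        rw [ht]; linarith [Real.log_le_log hz hz1]
      have hpow : ∀ p : ℝ, (x0 ^ p)⁻¹ * z ^ p = Real.exp (-(p * t)) := by
        intro p
        rw [Real.rpow_def_of_pos hx0', Real.rpow_def_of_pos hz, ← Real.exp_neg, ← Real.exp_add]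
        congr 1
        rw [ht]; ring
      have e1 : Real.exp (q1 * b) * (x0 ^ q1)⁻¹ * z ^ q1 = Real.exp (q1 * b - q1 * t) := by
        rw [mul_assoc, hpow, ← Real.exp_add]
        congr 1
      have e2 : Real.exp (q1 * b) * Real.exp ((q3 - q1) * b) * (x0 ^ q3)⁻¹ * z ^ q3 =
          Real.exp (q1 * b + (q3 - q1) * b - q3 * t) := by
        rw [mul_assoc _ ((x0 ^ q3)⁻¹), hpow, ← Real.exp_add, ← Real.exp_add]
        congr 1
      have e3 : Real.exp (q1 * b) * Real.exp (-(q1 - q2) * a) * (x0 ^ q2)⁻¹ * z ^ q2 =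
          Real.exp (q1 * b + -(q1 - q2) * a - q2 * t) := by
        rw [mul_assoc _ ((x0 ^ q2)⁻¹), hpow, ← Real.exp_add, ← Real.exp_add]
        congr 1
      rw [neg_mul, neg_mul, e1, e2, e3]
      have p1 := Real.exp_pos (q1 * b + (q3 - q1) * b - q3 * t)
      have p2 := Real.exp_pos (q1 * b + -(q1 - q2) * a - q2 * t)
      split_ifs with hyz
      · rcases lt_or_ge t b with htb | htb
        · have : Real.exp (q1 * b - q1 * t) ≤ Real.exp (q1 * b + (q3 - q1) * b - q3 * t) := by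
            rw [Real.exp_le_exp]
            nlinarith
          linarith
        · have : Real.exp (q1 * b - q1 * t) ≤ 1 := by
            rw [← Real.exp_zero, Real.exp_le_exp]
            nlinarith [hq2.trans h21]
          linarith
      · have hta : a < t := by
          rw [not_le] at hyz
          have : Real.log z < Real.log y := Real.log_lt_log hz hyz
          have hl : Real.log x0 = Real.log y + a := by
            rw [hx0, Real.log_mul hy.ne' (Real.exp_ne_zero _), Real.log_exp]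
          rw [ht, hl]
          linarith
        have : Real.exp (q1 * b - q1 * t) ≤ Real.exp (q1 * b + -(q1 - q2) * a - q2 * t) := by
          rw [Real.exp_le_exp]
          nlinarith
        linarith
  have h := Lit_ge hn hα0 hα1 hy univ c q hq key r x0 hx0'.le le_rfl
  refine le_trans (le_of_eq ?_) h
  rw [Fin.sum_univ_three]
  change _ = Real.exp (q1 * b) * (x0 ^ q1)⁻¹ * lam n α q1 ^ r * x0 ^ q1 +
      -(Real.exp (q1 * b) * Real.exp ((q3 - q1) * b) * (x0 ^ q3)⁻¹) * lam n α q3 ^ r * x0 ^ q3 +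
      -(Real.exp (q1 * b) * Real.exp (-(q1 - q2) * a) * (x0 ^ q2)⁻¹) * lam n α q2 ^ r * x0 ^ q2
  have hne : ∀ p : ℝ, (x0 ^ p) ≠ 0 := fun p => (Real.rpow_pos_of_pos hx0' p).ne'
  have h1 := hne q1
  have h2 := hne q2
  have h3 := hne q3
  field_simp
  ring

end Pf31f09
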