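import Mathlib
import Pool.Agent.Lib.Pf31f09.Pow

/-! The rate function and the block estimate. -/

noncomputable section

namespace Pf31f09

open Finset MeasureTheory Filter Topology ProbabilityTheory

/-- The growth rate `κ(q) = 4 m_q - 2`. -/
def kap (q : ℝ) : ℝ := 4 * mom q - 2

/-- Log-energy fraction. -/
def lX (φ : ℝ) : ℝ := Real.log (Real.cos φ ^ 2)

theorem cos_ne_ae : ∀ᵐ φ ∂unifAngle, Real.cos φ ≠ 0 := by
  have h : ∀ᵐ φ ∂(volume : Measure ℝ), Real.cos φ ≠ 0 := by
    rw [ae_iff]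
    have : {φ : ℝ | ¬ Real.cos φ ≠ 0} ⊆ Set.range fun k : ℤ => (2 * (k : ℝ) + 1) * Real.pi / 2 := by
      intro φ hφ
      simp only [ne_eq, not_not, Set.mem_ofPred_eq] at hφ
      obtain ⟨k, hk⟩ := Real.cos_eq_zero_iff.1 hφ
      exact ⟨k, hk.symm⟩
    exact measure_mono_null this ((Set.countable_range _).measure_zero _)
  rw [unifAngle]
  have h2 := ae_restrict_of_ae (s := Set.Ico 0 (2 * Real.pi)) h
  exact (Measure.ae_smul_measure_le _) h2

theorem mom_eq_mgf {q : ℝ} : mom q = mgf lX unifAngle q := by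
  rw [mom, ← integral_unifAngle, mgf]
  refine integral_congr_ae ?_
  filter_upwards [cos_ne_ae] with φ hφ
  have hpos : 0 < Real.cos φ ^ 2 := by positivity
  rw [Real.rpow_def_of_pos hpos, lX, mul_comm]

theorem lX_nonpos (φ : ℝ) : lX φ ≤ 0 :=
  Real.log_nonpos (sq_nonneg _) (Real.cos_sq_le_one φ)

theorem measurable_lX : Measurable lX := Real.measurable_log.comp (by fun_prop)

theorem mem_expSet {q : ℝ} (hq : 0 ≤ q) : q ∈ integrableExpSet lX unifAngle := by
  change Integrable _ _
  refine Integrable.of_bound (C := 1) ?_ (Eventually.of_forall fun φ => ?_)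
  · exact (Real.measurable_exp.comp (measurable_lX.const_mul q)).aestronglyMeasurable
  · rw [Real.norm_of_nonneg (Real.exp_pos _).le, ← Real.exp_zero, Real.exp_le_exp]
    exact mul_nonpos_of_nonneg_of_nonpos hq (lX_nonpos φ)

theorem mem_int {q : ℝ} (hq : 0 < q) : q ∈ interior (integrableExpSet lX unifAngle) := by
  rw [mem_interior]
  exact ⟨Set.Ioi 0, fun x hx => mem_expSet (le_of_lt hx), isOpen_Ioi, hq⟩

theorem differentiableAt_kap {q : ℝ} (hq : 0 < q) : DifferentiableAt ℝ kap q := by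
  have h : kap = fun q => 4 * mgf lX unifAngle q - 2 := by
    funext q
    rw [kap, mom_eq_mgf]
  rw [h]
  exact ((differentiableAt_mgf (mem_int hq)).const_mul 4).sub_const 2

theorem mom_nonneg (q : ℝ) : 0 ≤ mom q := avg_nonneg fun _ => Real.rpow_nonneg (sq_nonneg _) _

theorem mom_le_one {q : ℝ} (hq : 0 ≤ q) : mom q ≤ 1 := by
  have h := avg_powc (z := 1) (q := q) zero_le_one
  rw [Real.one_rpow, one_mul] at h
  rw [← h]
  refine le_trans ?_ (avg_const 1).le
  refine avg_mono (measurable_powc 1 q) measurable_const (C := 1) (fun φ => ?_) (fun _ => by simp)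
    fun φ => ?_
  · have := pow_bdd zero_le_one (sq_nonneg _) (Real.cos_sq_le_one φ) hq
    rwa [Real.one_rpow] at this
  · have := pow_bdd zero_le_one (sq_nonneg _) (Real.cos_sq_le_one φ) hq
    rw [Real.one_rpow] at this
    exact (le_abs_self _).trans this

theorem mom_natCast (k : ℕ) : mom k = avg fun φ => Real.cos φ ^ (2 * k) := by
  unfold mom
  congr 1
  funext φ
  rw [Real.rpow_natCast, ← pow_mul]

theorem mom_one : mom 1 = 1 / 2 := by
  have h := mom_natCast 1
  rw [Nat.cast_one] at h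
  rw [h, avg]
  simp only [mul_one]
  rw [integral_cos_sq]
  simp only [Real.sin_two_pi, Real.sin_zero]
  have := Real.pi_pos.ne'
  field_simp
  ring

theorem mom_two : mom 2 = 3 / 8 := by
  have h := mom_natCast 2
  rw [Nat.cast_ofNat] at h
  rw [h, avg]
  have e : 2 * 2 = 2 + 2 := rfl
  rw [e, integral_cos_pow 2, integral_cos_sq]
  simp only [Real.sin_two_pi, Real.sin_zero]
  have := Real.pi_pos.ne'
  push_cast
  field_simp
  ring

theorem kap_one : kap 1 = 0 := by rw [kap, mom_one]; norm_num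

theorem kap_two : kap 2 = -1 / 2 := by rw [kap, mom_two]; norm_num

theorem kap_ge (q : ℝ) : -2 ≤ kap q := by
  have := mom_nonneg q
  rw [kap]
  linarith

/-- Choice of the exponents. -/
theorem exists_exponents {β : ℝ} (hβ0 : 0 < β) (hβ1 : β < 1 / 2)
    (H : ∀ q, 1 < q → 0 < β * q + kap q) {ε : ℝ} (hε : 0 < ε) :
    ∃ ε1 q1 q2 q3 : ℝ, 0 < ε1 ∧ ε1 ≤ ε ∧ 0 < q2 ∧ q2 < q1 ∧ q1 < q3 ∧
      0 < q1 * (β - ε1) + kap q1 ∧
      0 < kap q1 - kap q3 - (q3 - q1) * (β - ε1) ∧
      0 < kap q1 - kap q2 + (q1 - q2) * (β + ε1) := by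
  set G : ℝ → ℝ := fun q => β * q + kap q with hG
  set Q0 : ℝ := 3 + 2 / β with hQ0
  have hQ0' : 3 < Q0 := by rw [hQ0]; have : 0 < 2 / β := by positivity
                           linarith
  have hcont : ContinuousOn G (Set.Icc 1 Q0) := by
    intro q hq
    refine ContinuousAt.continuousWithinAt ?_
    have := (differentiableAt_kap (q := q) (by linarith [hq.1])).continuousAt
    exact (continuousAt_const.mul continuousAt_id).add this
  obtain ⟨q1, hq1, hmin⟩ := isCompact_Icc.exists_isMinOn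
    (⟨1, Set.left_mem_Icc.2 (by linarith)⟩ : (Set.Icc (1 : ℝ) Q0).Nonempty) hcont
  have hG2 : G 2 < G 1 := by
    rw [hG]; simp only; rw [kap_one, kap_two]; linarith
  have hGmin2 : G q1 ≤ G 2 := hmin (Set.mem_Icc.2 ⟨by norm_num, by linarith⟩)
  have hq1a : 1 < q1 := by
    refine lt_of_le_of_ne hq1.1 ?_
    rintro rfl
    linarith
  have hq1b : q1 < Q0 := by
    refine lt_of_le_of_ne hq1.2 ?_
    intro he
    have h1 : β * Q0 - 2 ≤ G q1 := by
      rw [hG, he]; simp only
      linarith [kap_ge Q0]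
    have h2 : G 2 = β * 2 - 1 / 2 := by
      rw [hG]; simp only; rw [kap_two]; ring
    have h3 : β * Q0 = 3 * β + 2 := by
      rw [hQ0]; field_simp
    linarith
  have hGpos : 0 < G q1 := H q1 hq1a
  have hdiff : DifferentiableAt ℝ G q1 :=
    (differentiableAt_id.const_mul β).add (differentiableAt_kap (by linarith))
  have hloc : IsLocalMin G q1 := hmin.isLocalMin (Icc_mem_nhds hq1a hq1b)
  have hder : HasDerivAt G 0 q1 := by
    have := hloc.deriv_eq_zero
    rw [← this]
    exact hdiff.hasDerivAt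
  set ε1 : ℝ := min ε (G q1 / (2 * q1)) with hε1
  have hε1pos : 0 < ε1 := lt_min hε (by positivity)
  have hε1a : ε1 ≤ G q1 / (2 * q1) := min_le_right _ _
  have hε1b : q1 * ε1 ≤ G q1 / 2 := by
    calc q1 * ε1 ≤ q1 * (G q1 / (2 * q1)) := mul_le_mul_of_nonneg_left hε1a (by linarith)
      _ = G q1 / 2 := by field_simp
  have hlittle := hasDerivAt_iff_isLittleO.1 hder
  rw [Asymptotics.isLittleO_iff] at hlittle
  have hev := hlittle (c := ε1 / 2) (by positivity)
  obtain ⟨δ, hδ, hball⟩ := Metric.eventually_nhds_iff.1 hev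
  set d : ℝ := min (δ / 2) (1 / 2) with hd
  have hd0 : 0 < d := lt_min (by linarith) (by norm_num)
  have hd1 : d < δ := lt_of_le_of_lt (min_le_left _ _) (by linarith)
  have hd2 : d ≤ 1 / 2 := min_le_right _ _
  have b3 := hball (y := q1 + d) (by rw [Real.dist_eq, add_sub_cancel_left, abs_of_pos hd0]; exact hd1)
  have b2 := hball (y := q1 - d) (by
    rw [Real.dist_eq, sub_sub_cancel_left, abs_neg, abs_of_pos hd0]; exact hd1)
  simp only [smul_zero, sub_zero, Real.norm_eq_abs, add_sub_cancel_left, sub_sub_cancel_left,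
    abs_neg, abs_of_pos hd0] at b3 b2
  refine ⟨ε1, q1, q1 - d, q1 + d, hε1pos, min_le_left _ _, by linarith, by linarith, by linarith,
    ?_, ?_, ?_⟩
  · have : G q1 = β * q1 + kap q1 := rfl
    nlinarith
  · have e1 : G (q1 + d) = β * (q1 + d) + kap (q1 + d) := rfl
    have e2 : G q1 = β * q1 + kap q1 := rfl
    have := (abs_le.1 b3).2
    nlinarith [mul_pos hε1pos hd0]
  · have e1 : G (q1 - d) = β * (q1 - d) + kap (q1 - d) := rfl
    have e2 : G q1 = β * q1 + kap q1 := rfl
    have := (abs_le.1 b2).2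
    nlinarith [mul_pos hε1pos hd0]

/-- perturbed rate -/
def kapa (α q : ℝ) : ℝ := 2 * ((1 - α) * (2 * mom q) - (1 + α))

theorem lam_eq (n : ℕ) (α q : ℝ) : lam n α q = 1 + kapa α q / n := by
  rw [lam, kapa]; ring

theorem kapa_bounds {α q : ℝ} (hα : 0 ≤ α) (hq : 0 ≤ q) :
    kap q - 6 * α ≤ kapa α q ∧ kapa α q ≤ kap q := by
  have h0 := mom_nonneg q
  have h1 := mom_le_one hq
  rw [kapa, kap]
  constructor <;> nlinarith

theorem tendsto_lam (α q : ℝ) (K : ℕ) :
    Tendsto (fun n : ℕ => lam n α q ^ (K * n)) atTop (𝓝 (Real.exp (K * kapa α q))) := by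
  have h := (Real.tendsto_one_add_div_pow_exp (kapa α q)).pow K
  rw [← Real.exp_nat_mul] at h
  refine h.congr fun n => ?_
  rw [lam_eq, mul_comm K n, pow_mul]

/-- The block estimate. -/
theorem exists_block {β : ℝ} (hβ0 : 0 < β) (hβ1 : β < 1 / 2)
    (H : ∀ q, 1 < q → 0 < β * q + kap q) {ε : ℝ} (hε : 0 < ε) :
    ∃ (K : ℕ) (α : ℝ), 1 ≤ K ∧ 0 < α ∧ α ≤ 1 / 8 ∧ ∀ᶠ n : ℕ in atTop, ∀ y : ℝ, 0 < y →
      1 ≤ Lit n α y (K * n) (y * Real.exp ((β + ε) * K)) := by
  obtain ⟨ε1, q1, q2, q3, hε1, hε1', hq2, h21, h13, hg, hθ3, hθ2⟩ :=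
    exists_exponents hβ0 hβ1 H hε
  set g := q1 * (β - ε1) + kap q1 with hgdef
  set θ3 := kap q1 - kap q3 - (q3 - q1) * (β - ε1) with hθ3def
  set θ2 := kap q1 - kap q2 + (q1 - q2) * (β + ε1) with hθ2def
  set μ := min g (min θ3 θ2) with hμ
  have hμ0 : 0 < μ := lt_min hg (lt_min hθ3 hθ2)
  have hμg : μ ≤ g := min_le_left _ _
  have hμ3 : μ ≤ θ3 := (min_le_right _ _).trans (min_le_left _ _)
  have hμ2 : μ ≤ θ2 := (min_le_right _ _).trans (min_le_right _ _)
  set α := min (1 / 8) (μ / 12) with hα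
  have hα0 : 0 < α := lt_min (by norm_num) (by linarith)
  have hα8 : α ≤ 1 / 8 := min_le_left _ _
  have hα6 : 6 * α ≤ μ / 2 := by
    have : α ≤ μ / 12 := min_le_right _ _
    linarith
  obtain ⟨K, hK⟩ := exists_nat_gt (4 / μ)
  have hK1 : 1 ≤ K := by
    have : (0 : ℝ) < K := lt_trans (by positivity) hK
    exact_mod_cast this
  have hKμ : 4 < K * μ := by rwa [div_lt_iff₀ hμ0] at hK
  have hK0 : (0 : ℝ) < K := by exact_mod_cast hK1
  refine ⟨K, α, hK1, hα0, hα8, ?_⟩
  set b := (β - ε1) * K with hb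
  set a := (β + ε1) * K with ha
  have k1 := kapa_bounds hα0.le (hq2.trans h21).le
  have k2 := kapa_bounds hα0.le hq2.le
  have k3 := kapa_bounds hα0.le (hq2.trans (h21.trans h13)).le
  -- the limit
  have hlim : Tendsto (fun n : ℕ => Real.exp (q1 * b) * (lam n α q1 ^ (K * n) -
      Real.exp ((q3 - q1) * b) * lam n α q3 ^ (K * n) -
      Real.exp (-(q1 - q2) * a) * lam n α q2 ^ (K * n))) atTop
      (𝓝 (Real.exp (q1 * b) * (Real.exp (K * kapa α q1) -
      Real.exp ((q3 - q1) * b) * Real.exp (K * kapa α q3) -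
      Real.exp (-(q1 - q2) * a) * Real.exp (K * kapa α q2)))) :=
    (((tendsto_lam α q1 K).sub ((tendsto_lam α q3 K).const_mul _)).sub
      ((tendsto_lam α q2 K).const_mul _)).const_mul _
  have hbig : 1 < Real.exp (q1 * b) * (Real.exp (K * kapa α q1) -
      Real.exp ((q3 - q1) * b) * Real.exp (K * kapa α q3) -
      Real.exp (-(q1 - q2) * a) * Real.exp (K * kapa α q2)) := by
    set M := Real.exp (K * kapa α q1) with hM
    have hM0 : 0 < M := Real.exp_pos _
    have hexp2 : Real.exp (-2 : ℝ) ≤ 1 / 3 := by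
      have := Real.add_one_le_exp (2 : ℝ)
      rw [Real.exp_neg, ← one_div]
      exact one_div_le_one_div_of_le (by norm_num) (by linarith)
    have t3 : Real.exp ((q3 - q1) * b) * Real.exp (K * kapa α q3) ≤ M * (1 / 3) := by
      calc Real.exp ((q3 - q1) * b) * Real.exp (K * kapa α q3)
          = M * Real.exp ((q3 - q1) * b + K * kapa α q3 - K * kapa α q1) := by
            rw [hM, ← Real.exp_add, ← Real.exp_add]; congr 1; ring
        _ ≤ M * Real.exp (-2) := by
            refine mul_le_mul_of_nonneg_left (Real.exp_le_exp.2 ?_) hM0.le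
            have : (q3 - q1) * b + K * kapa α q3 - K * kapa α q1 =
                -(K * (kapa α q1 - kapa α q3 - (q3 - q1) * (β - ε1))) := by rw [hb]; ring
            rw [this]
            have : μ / 2 ≤ kapa α q1 - kapa α q3 - (q3 - q1) * (β - ε1) := by
              linarith [k1.1, k3.2]
            have := mul_le_mul_of_nonneg_left this hK0.le
            linarith
        _ ≤ M * (1 / 3) := mul_le_mul_of_nonneg_left hexp2 hM0.le
    have t2 : Real.exp (-(q1 - q2) * a) * Real.exp (K * kapa α q2) ≤ M * (1 / 3) := by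
      calc Real.exp (-(q1 - q2) * a) * Real.exp (K * kapa α q2)
          = M * Real.exp (-(q1 - q2) * a + K * kapa α q2 - K * kapa α q1) := by
            rw [hM, ← Real.exp_add, ← Real.exp_add]; congr 1; ring
        _ ≤ M * Real.exp (-2) := by
            refine mul_le_mul_of_nonneg_left (Real.exp_le_exp.2 ?_) hM0.le
            have : -(q1 - q2) * a + K * kapa α q2 - K * kapa α q1 =
                -(K * (kapa α q1 - kapa α q2 + (q1 - q2) * (β + ε1))) := by rw [ha]; ring
            rw [this]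
            have : μ / 2 ≤ kapa α q1 - kapa α q2 + (q1 - q2) * (β + ε1) := by
              linarith [k1.1, k2.2]
            have := mul_le_mul_of_nonneg_left this hK0.le
            linarith
        _ ≤ M * (1 / 3) := mul_le_mul_of_nonneg_left hexp2 hM0.le
    have t1 : 5 / 3 ≤ Real.exp (q1 * b) * (M * (1 / 3)) := by
      have e1 : Real.exp (q1 * b) * M = Real.exp (K * (q1 * (β - ε1) + kapa α q1)) := by
        rw [hM, ← Real.exp_add, hb]; congr 1; ring
      have e2 : 2 ≤ K * (q1 * (β - ε1) + kapa α q1) := by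
        have : μ / 2 ≤ q1 * (β - ε1) + kapa α q1 := by linarith [k1.1]
        have := mul_le_mul_of_nonneg_left this hK0.le
        linarith
      have e3 : (5 : ℝ) ≤ Real.exp 2 := by
        have := Real.quadratic_le_exp_of_nonneg (show (0 : ℝ) ≤ 2 by norm_num)
        norm_num at this
        linarith
      have e4 := Real.exp_le_exp.2 e2
      rw [← mul_assoc, e1]
      linarith
    have hE := Real.exp_pos (q1 * b)
    have : Real.exp (q1 * b) * (M * (1 / 3)) ≤ Real.exp (q1 * b) * (M -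
      Real.exp ((q3 - q1) * b) * Real.exp (K * kapa α q3) -
      Real.exp (-(q1 - q2) * a) * Real.exp (K * kapa α q2)) :=
      mul_le_mul_of_nonneg_left (by linarith) hE.le
    linarith
  filter_upwards [hlim.eventually (lt_mem_nhds hbig), eventually_ge_atTop 32] with n hn hn32 y hy
  have h1 := Lit_explicit (n := n) hn32 hα0.le (by linarith : α ≤ 1) hy (a := a) (b := b)
    hq2 h21 h13 (K * n)
  refine (hn.le.trans h1).trans ?_
  refine (Lit_props hn32 hα0.le (by linarith) hy (K * n)).1 ?_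
  refine mul_le_mul_of_nonneg_left (Real.exp_le_exp.2 ?_) hy.le
  rw [ha]
  exact mul_le_mul_of_nonneg_right (by linarith) hK0.le

end Pf31f09
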