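import Mathlib
import Pool.Agent.Lib.Pf31f09.Rate

/-! Iterating the block estimate along the walk. -/

noncomputable section

namespace Pf31f09

open Finset MeasureTheory

theorem Lam_smul (n : ℕ) (α η : ℝ) (s : ℝ → ℝ) (x : ℝ) :
    Lam n α (fun z => η * s z) x = η * Lam n α s x := by
  unfold Lam L1
  have : (fun φ => η * s (x * Real.cos φ ^ 2) + η * s (x * Real.sin φ ^ 2)) =
      fun φ => η * (s (x * Real.cos φ ^ 2) + s (x * Real.sin φ ^ 2)) := by
    funext φ; ring
  rw [this, avg_const_mul]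
  ring

/-- The sequence of success functions. -/
def seqS (n N : ℕ) (α η y a : ℝ) (τ : ℕ) (z : ℝ) : ℝ :=
  η * Lit n α (y * Real.exp (a * (τ / N : ℕ))) (τ % N) z

section

variable {n K : ℕ} {α η y a : ℝ}

theorem pow_le_exp (hn : 32 ≤ n) {r : ℕ} (hr : r ≤ K * n) :
    (1 + 2 / (n : ℝ)) ^ r ≤ Real.exp (2 * K) := by
  have hn' : (32 : ℝ) ≤ n := by exact_mod_cast hn
  have hn0 : (0 : ℝ) < n := by linarith
  calc (1 + 2 / (n : ℝ)) ^ r ≤ Real.exp (2 / (n : ℝ)) ^ r := by
        refine pow_le_pow_left₀ (by positivity) ?_ _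
        have := Real.add_one_le_exp (2 / (n : ℝ))
        linarith
    _ = Real.exp (r * (2 / (n : ℝ))) := by rw [← Real.exp_nat_mul]
    _ ≤ Real.exp (2 * K) := by
        rw [Real.exp_le_exp]
        have : (r : ℝ) ≤ K * n := by exact_mod_cast hr
        calc (r : ℝ) * (2 / (n : ℝ)) ≤ (K * n) * (2 / (n : ℝ)) :=
              mul_le_mul_of_nonneg_right this (by positivity)
          _ = 2 * K := by field_simp

theorem seqS_good (hn : 32 ≤ n) (hK : 1 ≤ K) (hα0 : 0 ≤ α) (hα1 : α ≤ 1 / 8) (hy : 0 < y)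
    (ha : 0 ≤ a) (hη0 : 0 ≤ η) (hη : η * Real.exp (2 * K) ≤ α / 2) (τ : ℕ) :
    Good y (seqS n (K * n) α η y a τ) ∧ ∀ z, seqS n (K * n) α η y a τ z ≤ α / 2 := by
  have hN : 0 < K * n := Nat.mul_pos (by omega) (by omega)
  set Y := y * Real.exp (a * (τ / (K * n) : ℕ)) with hY
  have hY0 : 0 < Y := by positivity
  have hyY : y ≤ Y := by
    rw [hY]
    refine le_mul_of_one_le_right hy.le ?_
    rw [← Real.exp_zero, Real.exp_le_exp]
    positivity
  obtain ⟨p1, p2, p3, p4⟩ := Lit_props hn hα0 (by linarith : α ≤ 1) hY0 (τ % (K * n))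
  have hb : ∀ z, seqS n (K * n) α η y a τ z ≤ α / 2 := by
    intro z
    refine le_trans (mul_le_mul_of_nonneg_left ((p3 z).trans
      (pow_le_exp hn (Nat.mod_lt _ hN).le)) hη0) hη
  refine ⟨⟨?_, fun z => mul_nonneg hη0 (p2 z), fun z => by linarith [hb z], ?_⟩, hb⟩
  · intro z z' hz
    exact mul_le_mul_of_nonneg_left (p1 hz) hη0
  · intro z hz
    unfold seqS
    rw [p4 z (lt_of_lt_of_le hz hyY), mul_zero]

theorem seqS_step (hn : 32 ≤ n) (hK : 1 ≤ K) (hα0 : 0 ≤ α) (hα1 : α ≤ 1 / 8) (hy : 0 < y)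
    (ha : 0 ≤ a) (hη0 : 0 ≤ η) (hη : η * Real.exp (2 * K) ≤ α / 2)
    (hblock : ∀ y : ℝ, 0 < y → 1 ≤ Lit n α y (K * n) (y * Real.exp a)) (τ : ℕ) (z : ℝ) :
    seqS n (K * n) α η y a (τ + 1) z ≤ V n (α / 2) (seqS n (K * n) α η y a τ) z := by
  obtain ⟨hg, hb⟩ := seqS_good hn hK hα0 hα1 hy ha hη0 hη τ
  have hN : 0 < K * n := Nat.mul_pos (by omega) (by omega)
  refine le_trans ?_ (Lam_le_V (α := α) hn hg hb (by linarith : 0 ≤ α / 2) (by linarith)
    (by linarith) z)
  set N := K * n with hNdef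
  have hLam : Lam n α (seqS n N α η y a τ) z =
      η * Lit n α (y * Real.exp (a * (τ / N : ℕ))) (τ % N + 1) z := by
    change Lam n α (fun z => η * Lit n α (y * Real.exp (a * (τ / N : ℕ))) (τ % N) z) z = _
    rw [Lam_smul]
    rfl
  rw [hLam]
  unfold seqS
  refine mul_le_mul_of_nonneg_left ?_ hη0
  have hdm := Nat.div_add_mod τ N
  have hr : τ % N < N := Nat.mod_lt _ hN
  set k := τ / N with hk
  set r := τ % N with hrdef
  rcases Nat.lt_or_ge (r + 1) N with h1 | h1
  · have e1 : (τ + 1) / N = k := by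
      rw [← hdm, add_assoc, Nat.mul_add_div hN, Nat.div_eq_of_lt h1, add_zero]
    have e2 : (τ + 1) % N = r + 1 := by
      rw [← hdm, add_assoc, Nat.mul_add_mod, Nat.mod_eq_of_lt h1]
    rw [e1, e2]
  · have h2 : r + 1 = N := by omega
    have e0 : τ + 1 = N * (k + 1) := by rw [← hdm, add_assoc, h2]; ring
    have e1 : (τ + 1) / N = k + 1 := by rw [e0, Nat.mul_div_cancel_left _ hN]
    have e2 : (τ + 1) % N = 0 := by rw [e0, Nat.mul_mod_right]
    rw [e1, e2, h2]
    simp only [Lit]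
    set Y := y * Real.exp (a * (k : ℕ)) with hY
    have hY0 : 0 < Y := by positivity
    obtain ⟨p1, p2, p3, p4⟩ := Lit_props hn hα0 (by linarith : α ≤ 1) hY0 N
    split_ifs with hz
    · refine (hblock Y hY0).trans (p1 ?_)
      refine le_trans (le_of_eq ?_) hz
      rw [hY, mul_assoc, ← Real.exp_add]
      congr 2
      push_cast
      ring
    · exact p2 z

theorem one_sub_pow_ge (hn : 32 ≤ n) {r : ℕ} (hr : r ≤ K * n) (hα1 : α ≤ 1) :
    Real.exp (-(8 * K)) ≤ (1 - (2 / (n : ℝ)) * (1 + α)) ^ r := by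
  have hn' : (32 : ℝ) ≤ n := by exact_mod_cast hn
  have hn0 : (0 : ℝ) < n := by linarith
  obtain ⟨hρ0, hρ1⟩ := rho_bounds hn
  have h1 : Real.exp (-(4 * (2 / (n : ℝ)))) ≤ 1 - (2 / (n : ℝ)) * (1 + α) := by
    have hz : |-(4 * (2 / (n : ℝ)))| ≤ 1 := by
      rw [abs_neg, abs_of_pos (by linarith)]
      linarith
    have := (abs_le.1 (Real.abs_exp_sub_one_sub_id_le hz)).2
    nlinarith
  calc Real.exp (-(8 * K)) ≤ Real.exp (r * -(4 * (2 / (n : ℝ)))) := by
        rw [Real.exp_le_exp]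
        have : (r : ℝ) ≤ K * n := by exact_mod_cast hr
        have h2 : (r : ℝ) * (4 * (2 / (n : ℝ))) ≤ (K * n) * (4 * (2 / (n : ℝ))) :=
          mul_le_mul_of_nonneg_right this (by positivity)
        have h3 : ((K : ℝ) * n) * (4 * (2 / (n : ℝ))) = 8 * K := by
          field_simp
          ring
        linarith
    _ = Real.exp (-(4 * (2 / (n : ℝ)))) ^ r := by rw [← Real.exp_nat_mul]
    _ ≤ (1 - (2 / (n : ℝ)) * (1 + α)) ^ r := pow_le_pow_left₀ (Real.exp_pos _).le h1 _

theorem Lit_lower (hn : 32 ≤ n) (hα0 : 0 ≤ α) (hα1 : α ≤ 1) (hy : 0 < y) (r : ℕ) {z : ℝ}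
    (hz : y ≤ z) : (1 - (2 / (n : ℝ)) * (1 + α)) ^ r ≤ Lit n α y r z := by
  obtain ⟨hρ0, hρ1⟩ := rho_bounds hn
  induction r with
  | zero => simp [Lit, hz]
  | succ r ih =>
    obtain ⟨p1, p2, p3, p4⟩ := Lit_props hn hα0 hα1 hy r
    change _ ≤ Lam n α (Lit n α y r) z
    unfold Lam
    have hc1 : 0 ≤ 1 - (2 / (n : ℝ)) * (1 + α) := by nlinarith
    have hL : 0 ≤ L1 (Lit n α y r) z := avg_nonneg fun φ => add_nonneg (p2 _) (p2 _)
    have hc2 : 0 ≤ (2 / (n : ℝ)) * (1 - α) := mul_nonneg hρ0.le (by linarith)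
    rw [pow_succ, mul_comm]
    have := mul_le_mul_of_nonneg_left ih hc1
    have := mul_nonneg hc2 hL
    linarith

/-- Number of coordinates with energy at least `x1`. -/
def cnt {n : ℕ} (x1 : ℝ) (v : E n) : ℕ := (univ.filter fun k => x1 ≤ v k ^ 2).card

theorem measurable_cnt {n : ℕ} (x1 : ℝ) : Measurable (cnt (n := n) x1) := by
  have : cnt (n := n) x1 = fun v => ∑ k, if x1 ≤ v k ^ 2 then 1 else 0 := by
    funext v
    rw [cnt, Finset.card_filter]
  rw [this]
  refine Finset.measurable_sum _ fun k _ => ?_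
  refine Measurable.ite ?_ measurable_const measurable_const
  exact measurableSet_le measurable_const (by fun_prop)

/-- The probability that all energies are below `y`. -/
theorem fail_le (hn : 32 ≤ n) (hK : 1 ≤ K) (hα0 : 0 < α) (hα1 : α ≤ 1 / 8) (hy : 0 < y)
    (ha : 0 ≤ a) (hη0 : 0 ≤ η) (hη : η * Real.exp (2 * K) ≤ α / 2)
    (hblock : ∀ y : ℝ, 0 < y → 1 ≤ Lit n α y (K * n) (y * Real.exp a))
    (hξ : 3 * (1 / y) / ((n : ℝ) - 1) + 16 / n ≤ α / 2) {x : E n} (hx : x ∈ sph n) (t T M : ℕ)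
    {x1 : ℝ} (hx1 : y * Real.exp (a * (T / (K * n) : ℕ)) ≤ x1) :
    law x (t + T) {v | ∀ k, v k ^ 2 < y} ≤ law x t {v | cnt x1 v < M} +
      ENNReal.ofReal ((1 - η * Real.exp (-(8 * K))) ^ M) := by
  set s := seqS n (K * n) α η y a with hs
  have hgood : ∀ r, Good y (s r) := fun r => (seqS_good hn hK hα0.le hα1 hy ha hη0 hη r).1
  have hiter := iter_le hn hy hξ (by linarith : α / 2 ≤ 1) hx t T s hgood
    (fun r _ z => seqS_step hn hK hα0.le hα1 hy ha hη0 hη hblock r z)
  have hs1 : ∀ r z, s r z ≤ 1 := fun r z => by linarith [(hgood r).le z]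
  have hmeasA : MeasurableSet {v : E n | ∀ k, v k ^ 2 < y} := by
    rw [Set.ofPred_forall]
    exact MeasurableSet.iInter fun k => measurableSet_lt (by fun_prop) measurable_const
  have hmeasB : MeasurableSet {v : E n | cnt x1 v < M} :=
    measurableSet_lt (measurable_cnt x1) measurable_const
  have hleft : law x (t + T) {v | ∀ k, v k ^ 2 < y} ≤
      ∫⁻ w, ENNReal.ofReal (Phi (s 0) w) ∂(law x (t + T)) := by
    rw [← lintegral_indicator_one hmeasA]
    refine lintegral_mono fun w => ?_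
    by_cases hw : w ∈ {v : E n | ∀ k, v k ^ 2 < y}
    · rw [Set.indicator_of_mem hw, Pi.one_apply]
      have : Phi (s 0) w = 1 := by
        unfold Phi
        refine Finset.prod_eq_one fun k _ => ?_
        rw [(hgood 0).zero _ (hw k), sub_zero]
      rw [this, ENNReal.ofReal_one]
    · rw [Set.indicator_of_notMem hw]
      exact zero_le
  refine hleft.trans (hiter.trans ?_)
  set c := η * Real.exp (-(8 * K)) with hc
  have hc0 : 0 ≤ c := by positivity
  have hc1 : c ≤ 1 := by
    have e1 : Real.exp (-(8 * (K : ℝ))) ≤ Real.exp (2 * K) := by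
      rw [Real.exp_le_exp]
      have : (0 : ℝ) ≤ K := Nat.cast_nonneg K
      linarith
    have := mul_le_mul_of_nonneg_left e1 hη0
    linarith
  have hN : 0 < K * n := Nat.mul_pos (by omega) (by omega)
  have hsT : ∀ z, x1 ≤ z → c ≤ s T z := by
    intro z hz
    have h1 := Lit_lower hn hα0.le (by linarith : α ≤ 1)
      (by positivity : 0 < y * Real.exp (a * (T / (K * n) : ℕ))) (T % (K * n)) (hx1.trans hz)
    have h2 := one_sub_pow_ge hn (K := K) (r := T % (K * n)) (Nat.mod_lt _ hN).le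
      (by linarith : α ≤ 1)
    exact mul_le_mul_of_nonneg_left (h2.trans h1) hη0
  calc ∫⁻ w, ENNReal.ofReal (Phi (s T) w) ∂(law x t)
      ≤ ∫⁻ w, ({v : E n | cnt x1 v < M}.indicator 1 w + ENNReal.ofReal ((1 - c) ^ M))
          ∂(law x t) := by
        refine lintegral_mono fun w => ?_
        by_cases hw : w ∈ {v : E n | cnt x1 v < M}
        · rw [Set.indicator_of_mem hw, Pi.one_apply]
          refine le_trans ?_ le_self_add
          rw [← ENNReal.ofReal_one]
          exact ENNReal.ofReal_le_ofReal (Phi_le_one (hgood T).nonneg (hs1 T) w)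
        · rw [Set.indicator_of_notMem hw, zero_add]
          refine ENNReal.ofReal_le_ofReal ?_
          have hM : M ≤ cnt x1 w := not_lt.1 hw
          unfold Phi
          set S := univ.filter fun k => x1 ≤ w k ^ 2 with hS
          calc ∏ k, (1 - s T (w k ^ 2)) ≤ ∏ k ∈ S, (1 - s T (w k ^ 2)) := by
                rw [← Finset.prod_mul_prod_compl S]
                refine mul_le_of_le_one_right (Finset.prod_nonneg fun k _ => by
                  linarith [hs1 T (w k ^ 2)]) ?_
                exact Finset.prod_le_one (fun k _ => by linarith [hs1 T (w k ^ 2)])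
                  fun k _ => by linarith [(hgood T).nonneg (w k ^ 2)]
            _ ≤ ∏ _k ∈ S, (1 - c) := by
                refine Finset.prod_le_prod (fun k _ => by linarith [hs1 T (w k ^ 2)])
                  fun k hk => ?_
                have := hsT (w k ^ 2) (Finset.mem_filter.1 hk).2
                linarith
            _ = (1 - c) ^ S.card := by rw [Finset.prod_const]
            _ ≤ (1 - c) ^ M := pow_le_pow_of_le_one (by linarith) (by linarith) hM
    _ = law x t {v | cnt x1 v < M} + ENNReal.ofReal ((1 - c) ^ M) := by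
        rw [lintegral_add_right _ measurable_const, lintegral_indicator_one hmeasB,
          lintegral_const]
        have := isProb_law (by omega : 2 ≤ n) x t
        rw [measure_univ, mul_one]

end

end Pf31f09
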