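import Mathlib

/-!
Negative association for uniformly random permutations (product form), and the resulting bound
for the second moment of a randomly relabelled Gaussian scale mixture.
-/

open Finset

namespace Pf31f09

variable {α : Type*} [Fintype α] [DecidableEq α]

/-- Product form of negative association for a uniform random permutation:
`E ∏_{i∈I} F_i(a(σ i)) ≤ ∏_{i∈I} E_j F_i(a j)` for nondecreasing `F_i ≥ 0`. -/
theorem perm_prod_le (a : α → ℝ) (F : α → ℝ → ℝ)
    (hF : ∀ i j j', a j ≤ a j' → F i (a j) ≤ F i (a j'))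
    (h0 : ∀ i j, 0 ≤ F i (a j)) (I : Finset α) :
    (∑ σ : Equiv.Perm α, ∏ i ∈ I, F i (a (σ i))) * (Fintype.card α : ℝ) ^ I.card ≤
      (Fintype.card (Equiv.Perm α) : ℝ) * ∏ i ∈ I, ∑ j, F i (a j) := by
  classical
  induction I using Finset.induction_on with
  | empty => simp [Finset.card_univ]
  | insert m I hm ih =>
    -- G j = sum over σ with σ m = j of the product over I
    set G : α → ℝ := fun j => ∑ σ ∈ (univ : Finset (Equiv.Perm α)).filter (fun σ => σ m = j),
      ∏ i ∈ I, F i (a (σ i)) with hG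
    have hsplit : (∑ σ : Equiv.Perm α, ∏ i ∈ insert m I, F i (a (σ i)))
        = ∑ j, F m (a j) * G j := by
      rw [← Finset.sum_fiberwise (univ : Finset (Equiv.Perm α)) (fun σ => σ m)]
      refine Finset.sum_congr rfl fun j _ => ?_
      rw [hG, Finset.mul_sum]
      refine Finset.sum_congr rfl fun σ hσ => ?_
      rw [Finset.prod_insert hm]
      rw [(Finset.mem_filter.1 hσ).2]
    have hGsum : ∑ j, G j = ∑ σ : Equiv.Perm α, ∏ i ∈ I, F i (a (σ i)) := by
      rw [hG, Finset.sum_fiberwise]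
    have hanti : Antivary (fun j => F m (a j)) G := by
      intro j j' hlt
      -- G j < G j' implies F m (a j') ≤ F m (a j)
      by_contra hcon
      replace hcon := not_le.1 hcon
      have haj : a j ≤ a j' := by
        by_contra h
        exact absurd (hF m _ _ (not_le.1 h).le) (not_le.2 hcon)
      -- then G j' ≤ G j
      have hle : G j' ≤ G j := by
        have e1 : G j' = ∑ σ ∈ (univ : Finset (Equiv.Perm α)).filter (fun σ => σ m = j),
            ∏ i ∈ I, F i (a (Equiv.swap j j' (σ i))) := by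
          rw [hG]
          symm
          refine Finset.sum_equiv (Equiv.mulLeft (Equiv.swap j j')) ?_ ?_
          · intro σ
            simp only [Finset.mem_filter, Finset.mem_univ, true_and, Equiv.coe_mulLeft,
              Equiv.Perm.coe_mul, Function.comp_apply]
            constructor
            · intro h; rw [h]; simp
            · intro h
              have := congrArg (Equiv.swap j j') h
              simpa using this
          · intro σ _
            simp
        rw [e1, hG]
        refine Finset.sum_le_sum fun σ hσ => ?_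
        have hσm : σ m = j := (Finset.mem_filter.1 hσ).2
        refine Finset.prod_le_prod (fun i _ => h0 _ _) fun i hi => ?_
        have hne : σ i ≠ j := by
          intro h
          have : i = m := σ.injective (h.trans hσm.symm)
          exact hm (this ▸ hi)
        by_cases hj' : σ i = j'
        · rw [hj', Equiv.swap_apply_right]
          exact hF i _ _ haj
        · rw [Equiv.swap_apply_of_ne_of_ne hne hj']
      exact absurd hlt (not_lt.2 hle)
    have hcheb := hanti.card_mul_sum_le_sum_mul_sum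
    rw [Finset.card_insert_of_notMem hm, Finset.prod_insert hm, hsplit, pow_succ]
    rw [hGsum] at hcheb
    have hFm : 0 ≤ ∑ j, F m (a j) := Finset.sum_nonneg fun j _ => h0 m j
    calc (∑ j, F m (a j) * G j) * ((Fintype.card α : ℝ) ^ I.card * (Fintype.card α : ℝ))
        = ((Fintype.card α : ℝ) * ∑ j, F m (a j) * G j) * (Fintype.card α : ℝ) ^ I.card := by ring
      _ ≤ ((∑ j, F m (a j)) * ∑ σ : Equiv.Perm α, ∏ i ∈ I, F i (a (σ i)))
            * (Fintype.card α : ℝ) ^ I.card := by
          gcongr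
      _ = (∑ j, F m (a j)) * ((∑ σ : Equiv.Perm α, ∏ i ∈ I, F i (a (σ i)))
            * (Fintype.card α : ℝ) ^ I.card) := by ring
      _ ≤ (∑ j, F m (a j)) * ((Fintype.card (Equiv.Perm α) : ℝ) * ∏ i ∈ I, ∑ j, F i (a j)) := by
          gcongr
      _ = _ := by ring

/-- Expectation form. -/
theorem perm_prod_le' [Nonempty α] (a : α → ℝ) (F : α → ℝ → ℝ)
    (hF : ∀ i j j', a j ≤ a j' → F i (a j) ≤ F i (a j'))
    (h0 : ∀ i j, 0 ≤ F i (a j)) (I : Finset α) :
    (∑ σ : Equiv.Perm α, ∏ i ∈ I, F i (a (σ i))) / (Fintype.card (Equiv.Perm α) : ℝ) ≤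
      ∏ i ∈ I, (∑ j, F i (a j)) / (Fintype.card α : ℝ) := by
  have h := perm_prod_le a F hF h0 I
  have hc : (0:ℝ) < (Fintype.card α : ℝ) := by exact_mod_cast Fintype.card_pos
  have hP : (0:ℝ) < (Fintype.card (Equiv.Perm α) : ℝ) := by exact_mod_cast Fintype.card_pos
  rw [Finset.prod_div_distrib, Finset.prod_const, div_le_div_iff₀ hP (pow_pos hc _)]
  linarith

theorem inv_one_sub_le {u : ℝ} (hu : |u| ≤ 1 / 2) : (1 - u)⁻¹ ≤ 1 + u + 2 * u ^ 2 := by
  have h := abs_le.1 hu
  have hpos : 0 < 1 - u := by linarith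
  rw [inv_le_iff_one_le_mul₀ hpos]
  nlinarith [sq_nonneg u, mul_nonneg (sq_nonneg u) (by linarith : (0:ℝ) ≤ 1 - 2 * u)]

/-- second moment over random relabelling -/
theorem perm_second_moment [Nonempty α] (a b : α → ℝ)
    (hab : ∀ i j, |a j * b i| ≤ 1 / 2) :
    (∑ σ : Equiv.Perm α, ∏ i, (Real.sqrt (1 - a (σ i) * b i))⁻¹) /
        (Fintype.card (Equiv.Perm α) : ℝ) ≤
      Real.exp ((∑ i, |b i|) * |∑ j, a j| / (2 * Fintype.card α) +
        (∑ i, b i ^ 2) * (∑ j, a j ^ 2) / Fintype.card α) := by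
  classical
  have hc : (0:ℝ) < (Fintype.card α : ℝ) := by exact_mod_cast Fintype.card_pos
  have hP : (0:ℝ) < (Fintype.card (Equiv.Perm α) : ℝ) := by exact_mod_cast Fintype.card_pos
  have hpos : ∀ i j, 0 < 1 - a j * b i := by
    intro i j
    have := abs_le.1 (hab i j)
    linarith
  set Ip : Finset α := univ.filter (fun i => 0 ≤ b i) with hIp
  set Im : Finset α := univ.filter (fun i => ¬ 0 ≤ b i) with hIm
  -- averages
  set A : α → ℝ := fun i => (∑ j, (1 - a j * b i)⁻¹) / (Fintype.card α : ℝ) with hA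
  have hplus : (∑ σ : Equiv.Perm α, ∏ i ∈ Ip, (1 - a (σ i) * b i)⁻¹) /
      (Fintype.card (Equiv.Perm α) : ℝ) ≤ ∏ i ∈ Ip, A i := by
    -- use truncated functions: replace b i by 0 when b i < 0
    have h := perm_prod_le' a (fun i x => if 0 ≤ b i then (1 - x * b i)⁻¹ else 1)
      (by
        intro i j j' hjj
        split_ifs with hb
        · apply inv_anti₀ (hpos i j')
          have := mul_le_mul_of_nonneg_right hjj hb
          linarith
        · exact le_refl _)
      (by
        intro i j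
        split_ifs
        · exact (inv_pos.2 (hpos i j)).le
        · exact zero_le_one) Ip
    have e1 : ∀ σ : Equiv.Perm α, ∏ i ∈ Ip, (if 0 ≤ b i then (1 - a (σ i) * b i)⁻¹ else 1)
        = ∏ i ∈ Ip, (1 - a (σ i) * b i)⁻¹ := by
      intro σ
      refine Finset.prod_congr rfl fun i hi => ?_
      rw [if_pos (Finset.mem_filter.1 hi).2]
    have e2 : ∏ i ∈ Ip, (∑ j, (if 0 ≤ b i then (1 - a j * b i)⁻¹ else 1)) /
        (Fintype.card α : ℝ) = ∏ i ∈ Ip, A i := by
      refine Finset.prod_congr rfl fun i hi => ?_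
      simp only [if_pos (Finset.mem_filter.1 hi).2, hA]
    rw [← e2]
    simpa only [e1] using h
  have hminus : (∑ σ : Equiv.Perm α, ∏ i ∈ Im, (1 - a (σ i) * b i)⁻¹) /
      (Fintype.card (Equiv.Perm α) : ℝ) ≤ ∏ i ∈ Im, A i := by
    have h := perm_prod_le' (fun j => - a j)
      (fun i x => if 0 ≤ b i then 1 else (1 + x * b i)⁻¹)
      (by
        intro i j j' hjj
        split_ifs with hb
        · exact le_refl _
        · have hb' : b i ≤ 0 := (not_le.1 hb).le
          apply inv_anti₀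
          · have := hpos i j'
            linarith
          · nlinarith [mul_nonneg (sub_nonneg.2 hjj) (neg_nonneg.2 hb')])
      (by
        intro i j
        split_ifs
        · exact zero_le_one
        · refine (inv_pos.2 ?_).le
          have := hpos i j
          linarith) Im
    have e1 : ∀ σ : Equiv.Perm α, ∏ i ∈ Im, (if 0 ≤ b i then (1:ℝ) else (1 + -a (σ i) * b i)⁻¹)
        = ∏ i ∈ Im, (1 - a (σ i) * b i)⁻¹ := by
      intro σ
      refine Finset.prod_congr rfl fun i hi => ?_
      rw [if_neg (Finset.mem_filter.1 hi).2]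
      congr 1
      ring
    have e2 : ∏ i ∈ Im, (∑ j, (if 0 ≤ b i then (1:ℝ) else (1 + -a j * b i)⁻¹)) /
        (Fintype.card α : ℝ) = ∏ i ∈ Im, A i := by
      refine Finset.prod_congr rfl fun i hi => ?_
      simp only [if_neg (Finset.mem_filter.1 hi).2, hA]
      congr 1
      refine Finset.sum_congr rfl fun j _ => ?_
      congr 1
      ring
    rw [← e2]
    simpa only [e1] using h
  have hApos : ∀ i, 0 < A i := by
    intro i
    apply div_pos _ hc
    exact Finset.sum_pos (fun j _ => inv_pos.2 (hpos i j)) univ_nonempty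
  have hAle : ∀ i, A i ≤ Real.exp (|b i| * |∑ j, a j| / Fintype.card α +
      2 * (b i ^ 2 * (∑ j, a j ^ 2)) / Fintype.card α) := by
    intro i
    have h1 : A i ≤ 1 + (b i * (∑ j, a j)) / Fintype.card α +
        2 * (b i ^ 2 * (∑ j, a j ^ 2)) / Fintype.card α := by
      rw [hA]
      dsimp only
      rw [div_le_iff₀ hc]
      have : ∑ j, (1 - a j * b i)⁻¹ ≤ ∑ j, (1 + a j * b i + 2 * (a j * b i) ^ 2) :=
        Finset.sum_le_sum fun j _ => inv_one_sub_le (hab i j)
      refine this.trans (le_of_eq ?_)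
      rw [Finset.sum_add_distrib, Finset.sum_add_distrib, ← Finset.mul_sum, ← Finset.sum_mul]
      simp only [mul_pow, Finset.sum_const, Finset.card_univ, nsmul_eq_mul, mul_one]
      rw [← Finset.sum_mul]
      field_simp
    refine h1.trans ?_
    have h2 : b i * (∑ j, a j) ≤ |b i| * |∑ j, a j| := by
      rw [← abs_mul]; exact le_abs_self _
    have h3 : (b i * (∑ j, a j)) / (Fintype.card α : ℝ) ≤ |b i| * |∑ j, a j| / Fintype.card α := by
      gcongr
    have h4 := Real.add_one_le_exp (|b i| * |∑ j, a j| / Fintype.card α +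
      2 * (b i ^ 2 * (∑ j, a j ^ 2)) / Fintype.card α)
    linarith
  -- Cauchy–Schwarz
  set Pp : Equiv.Perm α → ℝ := fun σ => ∏ i ∈ Ip, (Real.sqrt (1 - a (σ i) * b i))⁻¹ with hPp
  set Pm : Equiv.Perm α → ℝ := fun σ => ∏ i ∈ Im, (Real.sqrt (1 - a (σ i) * b i))⁻¹ with hPm
  have hsplit : ∀ σ : Equiv.Perm α, ∏ i, (Real.sqrt (1 - a (σ i) * b i))⁻¹ = Pp σ * Pm σ := by
    intro σ
    rw [hPp, hPm]
    exact (Finset.prod_filter_mul_prod_filter_not univ (fun i => 0 ≤ b i) _).symm
  have hPp2 : ∀ σ, Pp σ ^ 2 = ∏ i ∈ Ip, (1 - a (σ i) * b i)⁻¹ := by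
    intro σ
    rw [hPp]
    dsimp only
    rw [← Finset.prod_pow]
    refine Finset.prod_congr rfl fun i _ => ?_
    rw [inv_pow, Real.sq_sqrt (hpos i (σ i)).le]
  have hPm2 : ∀ σ, Pm σ ^ 2 = ∏ i ∈ Im, (1 - a (σ i) * b i)⁻¹ := by
    intro σ
    rw [hPm]
    dsimp only
    rw [← Finset.prod_pow]
    refine Finset.prod_congr rfl fun i _ => ?_
    rw [inv_pow, Real.sq_sqrt (hpos i (σ i)).le]
  have hCS := Finset.sum_mul_sq_le_sq_mul_sq (univ : Finset (Equiv.Perm α)) Pp Pm
  set N : ℝ := (Fintype.card (Equiv.Perm α) : ℝ) with hN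
  have hprod : (∏ i ∈ Ip, A i) * (∏ i ∈ Im, A i) = ∏ i, A i :=
    Finset.prod_filter_mul_prod_filter_not univ (fun i => 0 ≤ b i) _
  have hbound : ((∑ σ, Pp σ * Pm σ) / N) ^ 2 ≤ ∏ i, A i := by
    calc ((∑ σ, Pp σ * Pm σ) / N) ^ 2 = (∑ σ, Pp σ * Pm σ) ^ 2 / N ^ 2 := by rw [div_pow]
      _ ≤ ((∑ σ, Pp σ ^ 2) * ∑ σ, Pm σ ^ 2) / N ^ 2 := by gcongr
      _ = ((∑ σ : Equiv.Perm α, ∏ i ∈ Ip, (1 - a (σ i) * b i)⁻¹) / N) *
          ((∑ σ : Equiv.Perm α, ∏ i ∈ Im, (1 - a (σ i) * b i)⁻¹) / N) := by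
          simp only [hPp2, hPm2]
          field_simp
      _ ≤ (∏ i ∈ Ip, A i) * (∏ i ∈ Im, A i) := by
          apply mul_le_mul hplus hminus
          · apply div_nonneg _ hP.le
            exact Finset.sum_nonneg fun σ _ => Finset.prod_nonneg fun i _ =>
              (inv_pos.2 (hpos i (σ i))).le
          · exact Finset.prod_nonneg fun i _ => (hApos i).le
      _ = ∏ i, A i := hprod
  have hexp : ∏ i, A i ≤ Real.exp ((∑ i, |b i|) * |∑ j, a j| / (2 * Fintype.card α) +
        (∑ i, b i ^ 2) * (∑ j, a j ^ 2) / Fintype.card α) ^ 2 := by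
    calc ∏ i, A i ≤ ∏ i, Real.exp (|b i| * |∑ j, a j| / Fintype.card α +
      2 * (b i ^ 2 * (∑ j, a j ^ 2)) / Fintype.card α) :=
          Finset.prod_le_prod (fun i _ => (hApos i).le) fun i _ => hAle i
      _ = _ := by
          rw [← Real.exp_sum, ← Real.exp_nat_mul]
          congr 1
          rw [Finset.sum_add_distrib, ← Finset.sum_div, ← Finset.sum_div, ← Finset.sum_mul,
            ← Finset.mul_sum, ← Finset.sum_mul]
          push_cast
          field_simp
  have hfin : (∑ σ : Equiv.Perm α, ∏ i, (Real.sqrt (1 - a (σ i) * b i))⁻¹) = ∑ σ, Pp σ * Pm σ :=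
    Finset.sum_congr rfl fun σ _ => hsplit σ
  rw [hfin]
  exact le_of_sq_le_sq (hbound.trans hexp) (Real.exp_pos _).le

end Pf31f09
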