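import Pool.Agent.Lib.Pf31f09.GScale
import Pool.Agent.Lib.Pf31f09.PermNA

/-!
Second moment bound for Gaussian scale mixtures, Jensen's inequality for the overlap, and the
bound for exchangeable mixtures.
-/

open MeasureTheory ProbabilityTheory Finset

noncomputable section

namespace Pf31f09

variable {ι : Type*} [Fintype ι]

theorem abs_integral_le_sqrt {X : Type*} [MeasurableSpace X] (μ : Measure X)
    [IsProbabilityMeasure μ] {g : X → ℝ} (hg : Integrable g μ)
    (hg2 : Integrable (fun x => g x ^ 2) μ) : ∫ x, |g x| ∂μ ≤ √(∫ x, g x ^ 2 ∂μ) := by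
  set t := ∫ x, |g x| ∂μ with ht
  have ht0 : 0 ≤ t := integral_nonneg fun x => abs_nonneg _
  have h1 : 0 ≤ ∫ x, (|g x| - t) ^ 2 ∂μ := integral_nonneg fun x => sq_nonneg _
  have h2 : ∫ x, (|g x| - t) ^ 2 ∂μ = (∫ x, g x ^ 2 ∂μ) - t ^ 2 := by
    have e : (fun x => (|g x| - t) ^ 2) = fun x => (g x ^ 2 - 2 * t * |g x|) + t ^ 2 := by
      funext x
      rw [sub_sq, sq_abs]
      ring
    have i1 : Integrable (fun x => g x ^ 2 - 2 * t * |g x|) μ :=
      hg2.sub (hg.abs.const_mul _)
    rw [e, integral_add i1 (integrable_const _), integral_sub hg2 (hg.abs.const_mul _),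
      integral_const_mul, ← ht]
    simp
    ring
  rw [h2] at h1
  exact Real.le_sqrt_of_sq_le (by linarith)

/-- the overlap of two likelihood ratios -/
def ovl (d e : ι → ℝ) : ℝ := ∏ i, (√(1 - d i * e i))⁻¹

theorem ovl_nonneg (d e : ι → ℝ) : 0 ≤ ovl d e :=
  Finset.prod_nonneg fun i _ => inv_nonneg.2 (Real.sqrt_nonneg _)

theorem measurable_ovl : Measurable (fun p : (ι → ℝ) × (ι → ℝ) => ovl p.1 p.2) := by
  unfold ovl
  fun_prop

theorem ovl_le {ρ : ℝ} (hρ : ρ < 1) (hρ0 : 0 ≤ ρ) {d e : ι → ℝ} (hd : ∀ i, |d i| ≤ ρ)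
    (he : ∀ i, |e i| ≤ ρ) : ovl d e ≤ ∏ _i : ι, (√(1 - ρ * ρ))⁻¹ := by
  unfold ovl
  refine Finset.prod_le_prod (fun i _ => inv_nonneg.2 (Real.sqrt_nonneg _)) fun i _ => ?_
  have h1 : (0:ℝ) < 1 - ρ * ρ := by nlinarith
  apply inv_anti₀ (Real.sqrt_pos.2 h1)
  apply Real.sqrt_le_sqrt
  have : |d i * e i| ≤ ρ * ρ := by
    rw [abs_mul]
    exact mul_le_mul (hd i) (he i) (abs_nonneg _) hρ0
  have := (abs_le.1 this).2
  linarith

theorem mixture_tv {Ω : Type*} [MeasurableSpace Ω] (P : Measure Ω) [IsProbabilityMeasure P]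
    {a : Ω → ι → ℝ} (ha : Measurable a) {ρ : ℝ} (hρ : ρ < 1) (hρ0 : 0 ≤ ρ)
    (h : ∀ ω i, |a ω i| ≤ ρ)
    {F : (ι → ℝ) → ℝ} (hF : Measurable F) (hF1 : ∀ x, |F x| ≤ 1) {K : ℝ}
    (hK : ∫ ω, ∫ ω', ovl (a ω) (a ω') ∂P ∂P ≤ 1 + K) :
    |∫ ω, ∫ x, F (scl (a ω) x) ∂(gpi ι) ∂P - ∫ x, F x ∂(gpi ι)| ≤ √K := by
  set γ := gpi ι with hγ
  have hlt : ∀ ω i, |a ω i| < 1 := fun ω i => (h ω i).trans_lt hρ
  have hgt : ∀ ω i, -1 < a ω i := fun ω i => (abs_lt.1 (hlt ω i)).1
  set H : Ω × (ι → ℝ) → ℝ := fun p => ell (a p.1) p.2 with hH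
  have hHm : Measurable H := measurable_ell.comp ((ha.comp measurable_fst).prodMk measurable_snd)
  have hH0 : ∀ p, 0 ≤ H p := fun p => ell_nonneg _ _
  have hHint : Integrable H (P.prod γ) := by
    rw [integrable_prod_iff hHm.aestronglyMeasurable]
    refine ⟨Filter.Eventually.of_forall fun ω => (ell_integral (hgt ω)).1, ?_⟩
    have : (fun ω => ∫ x, ‖H (ω, x)‖ ∂γ) = fun _ => (1:ℝ) := by
      funext ω
      simp only [Real.norm_of_nonneg (hH0 _)]
      exact (ell_integral (hgt ω)).2
    rw [this]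
    exact integrable_const _
  -- the mixture density
  set L : (ι → ℝ) → ℝ := fun x => ∫ ω, H (ω, x) ∂P with hL
  have hLint : Integrable L γ := hHint.integral_prod_right
  have hL1 : ∫ x, L x ∂γ = 1 := by
    rw [hL, ← integral_prod_symm H hHint, integral_prod H hHint]
    simp only [hH]
    have : (fun ω => ∫ x, ell (a ω) x ∂γ) = fun _ => (1:ℝ) := by
      funext ω
      exact (ell_integral (hgt ω)).2
    rw [this]
    simp
  -- step 1
  have hFH : Integrable (fun p : Ω × (ι → ℝ) => F p.2 * H p) (P.prod γ) := by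
    refine Integrable.mono' hHint ((hF.comp measurable_snd).mul hHm).aestronglyMeasurable
      (Filter.Eventually.of_forall fun p => ?_)
    rw [norm_mul, Real.norm_eq_abs, Real.norm_of_nonneg (hH0 p)]
    nlinarith [hF1 p.2, hH0 p]
  have s1 : ∫ ω, ∫ x, F (scl (a ω) x) ∂γ ∂P = ∫ x, F x * L x ∂γ := by
    have e1 : (fun ω => ∫ x, F (scl (a ω) x) ∂γ) = fun ω => ∫ x, F x * H (ω, x) ∂γ := by
      funext ω
      exact integral_scl (hgt ω) hF
    rw [e1]
    have e2 := integral_integral_swap (f := fun ω x => F x * H (ω, x)) hFH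
    rw [e2]
    apply integral_congr_ae
    refine Filter.Eventually.of_forall fun x => ?_
    beta_reduce
    rw [integral_const_mul]
  -- L^2
  have hG : Integrable (fun p : (Ω × Ω) × (ι → ℝ) => H (p.1.1, p.2) * H (p.1.2, p.2))
      ((P.prod P).prod γ) := by
    have hm : Measurable (fun p : (Ω × Ω) × (ι → ℝ) => H (p.1.1, p.2) * H (p.1.2, p.2)) := by
      apply Measurable.mul
      · exact hHm.comp ((measurable_fst.comp measurable_fst).prodMk measurable_snd)
      · exact hHm.comp ((measurable_snd.comp measurable_fst).prodMk measurable_snd)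
    rw [integrable_prod_iff hm.aestronglyMeasurable]
    refine ⟨Filter.Eventually.of_forall fun p => (ell_mul_integral (hlt p.1) (hlt p.2)).1, ?_⟩
    have e : (fun p : Ω × Ω => ∫ x, ‖H (p.1, x) * H (p.2, x)‖ ∂γ)
        = fun p => ovl (a p.1) (a p.2) := by
      funext p
      simp only [Real.norm_of_nonneg (mul_nonneg (hH0 _) (hH0 _))]
      exact (ell_mul_integral (hlt p.1) (hlt p.2)).2
    rw [e]
    refine Integrable.of_bound (C := ∏ _i : ι, (√(1 - ρ * ρ))⁻¹)
      (measurable_ovl.comp ((ha.comp measurable_fst).prodMk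
        (ha.comp measurable_snd))).aestronglyMeasurable (Filter.Eventually.of_forall fun p => ?_)
    rw [Real.norm_of_nonneg (ovl_nonneg _ _)]
    exact ovl_le hρ hρ0 (h _) (h _)
  have hL2eq : ∀ x, L x ^ 2 = ∫ p : Ω × Ω, H (p.1, x) * H (p.2, x) ∂(P.prod P) := by
    intro x
    rw [sq]
    exact (integral_prod_mul (μ := P) (ν := P) (fun ω => H (ω, x)) (fun ω => H (ω, x))).symm
  have hL2int : Integrable (fun x => L x ^ 2) γ := by
    simp only [hL2eq]
    exact hG.integral_prod_right
  have hL2 : ∫ x, L x ^ 2 ∂γ ≤ 1 + K := by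
    simp only [hL2eq]
    have e3 := integral_integral_swap (f := fun (p : Ω × Ω) x => H (p.1, x) * H (p.2, x)) hG
    rw [← e3]
    have e : (fun p : Ω × Ω => ∫ x, H (p.1, x) * H (p.2, x) ∂γ)
        = fun p => ovl (a p.1) (a p.2) := by
      funext p
      exact (ell_mul_integral (hlt p.1) (hlt p.2)).2
    rw [e]
    refine le_trans (le_of_eq ?_) hK
    refine integral_prod (fun p : Ω × Ω => ovl (a p.1) (a p.2)) ?_
    refine Integrable.of_bound (C := ∏ _i : ι, (√(1 - ρ * ρ))⁻¹)
      (measurable_ovl.comp ((ha.comp measurable_fst).prodMk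
        (ha.comp measurable_snd))).aestronglyMeasurable (Filter.Eventually.of_forall fun p => ?_)
    rw [Real.norm_of_nonneg (ovl_nonneg _ _)]
    exact ovl_le hρ hρ0 (h _) (h _)
  -- conclusion
  have hLm1 : Integrable (fun x => L x - 1) γ := hLint.sub (integrable_const _)
  have hLm2 : Integrable (fun x => (L x - 1) ^ 2) γ := by
    have e : (fun x => (L x - 1) ^ 2) = fun x => (L x ^ 2 - 2 * L x) + 1 := by
      funext x; ring
    rw [e]
    exact (hL2int.sub (hLint.const_mul _)).add (integrable_const _)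
  have hFint : Integrable F γ :=
    Integrable.of_bound hF.aestronglyMeasurable 1 (Filter.Eventually.of_forall fun x => by
      rw [Real.norm_eq_abs]; exact hF1 x)
  have hFL : Integrable (fun x => F x * L x) γ := by
    have := hFH.integral_prod_right
    refine this.congr (Filter.Eventually.of_forall fun x => ?_)
    change ∫ ω, F x * H (ω, x) ∂P = F x * L x
    rw [integral_const_mul]
  rw [s1, ← integral_sub hFL hFint]
  calc |∫ x, (F x * L x - F x) ∂γ| ≤ ∫ x, |F x * L x - F x| ∂γ := abs_integral_le_integral_abs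
    _ ≤ ∫ x, |L x - 1| ∂γ := by
        apply integral_mono (hFL.sub hFint).abs hLm1.abs
        intro x
        change |F x * L x - F x| ≤ |L x - 1|
        rw [show F x * L x - F x = F x * (L x - 1) by ring, abs_mul]
        nlinarith [hF1 x, abs_nonneg (L x - 1)]
    _ ≤ √(∫ x, (L x - 1) ^ 2 ∂γ) := abs_integral_le_sqrt γ hLm1 hLm2
    _ ≤ √K := by
        apply Real.sqrt_le_sqrt
        have e : (fun x => (L x - 1) ^ 2) = fun x => (L x ^ 2 - 2 * L x) + 1 := by
          funext x; ring
        have i1 : Integrable (fun x => L x ^ 2 - 2 * L x) γ := hL2int.sub (hLint.const_mul _)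
        rw [e, integral_add i1 (integrable_const _),
          integral_sub hL2int (hLint.const_mul _), integral_const_mul, hL1]
        simp
        linarith

theorem ovl_comm (d e : ι → ℝ) : ovl d e = ovl e d := by
  unfold ovl
  simp only [mul_comm]

/-- Jensen's inequality for the overlap, in the first variable. -/
theorem ovl_jensen {κ : Type*} [Fintype κ] {w : κ → ℝ} (hw : ∀ k, 0 ≤ w k) (hw1 : ∑ k, w k = 1)
    (u : κ → ι → ℝ) (v : ι → ℝ) (huv : ∀ k i, u k i * v i < 1) :
    ovl (fun i => ∑ k, w k * u k i) v ≤ ∑ k, w k * ovl (u k) v := by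
  have hx : ∀ k i, 0 < 1 - u k i * v i := fun k i => by linarith [huv k i]
  have h1 : ∀ i, (√(1 - (∑ k, w k * u k i) * v i))⁻¹ ≤
      ∏ k, ((√(1 - u k i * v i))⁻¹) ^ (w k) := by
    intro i
    have hg := Real.geom_mean_le_arith_mean_weighted univ w (fun k => 1 - u k i * v i)
      (fun k _ => hw k) hw1 (fun k _ => (hx k i).le)
    have e : ∑ k, w k * (1 - u k i * v i) = 1 - (∑ k, w k * u k i) * v i := by
      simp only [mul_sub, mul_one, Finset.sum_sub_distrib, hw1, Finset.sum_mul]
      congr 1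
      exact Finset.sum_congr rfl fun k _ => by ring
    rw [e] at hg
    have hp : 0 < ∏ k, (1 - u k i * v i) ^ (w k) :=
      Finset.prod_pos fun k _ => Real.rpow_pos_of_pos (hx k i) _
    have e2 : ∏ k, ((√(1 - u k i * v i))⁻¹) ^ (w k) = (√(∏ k, (1 - u k i * v i) ^ (w k)))⁻¹ := by
      rw [Real.sqrt_eq_rpow, ← Real.finsetProd_rpow _ _ (fun k _ => (Real.rpow_pos_of_pos (hx k i) _).le)]
      rw [← Finset.prod_inv_distrib]
      refine Finset.prod_congr rfl fun k _ => ?_
      rw [Real.inv_rpow (Real.sqrt_nonneg _), Real.sqrt_eq_rpow, ← Real.rpow_mul (hx k i).le,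
        ← Real.rpow_mul (hx k i).le, mul_comm (1 / 2 : ℝ) (w k)]
    rw [e2]
    exact inv_anti₀ (Real.sqrt_pos.2 hp) (Real.sqrt_le_sqrt hg)
  calc ovl (fun i => ∑ k, w k * u k i) v
      ≤ ∏ i, ∏ k, ((√(1 - u k i * v i))⁻¹) ^ (w k) := by
        unfold ovl
        exact Finset.prod_le_prod (fun i _ => inv_nonneg.2 (Real.sqrt_nonneg _)) fun i _ => h1 i
    _ = ∏ k, (ovl (u k) v) ^ (w k) := by
        rw [Finset.prod_comm]
        refine Finset.prod_congr rfl fun k _ => ?_
        unfold ovl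
        exact Real.finsetProd_rpow _ _ (fun i _ => inv_nonneg.2 (Real.sqrt_nonneg _)) _
    _ ≤ ∑ k, w k * ovl (u k) v :=
        Real.geom_mean_le_arith_mean_weighted univ w (fun k => ovl (u k) v)
          (fun k _ => hw k) hw1 (fun k _ => ovl_nonneg _ _)

theorem sqrt_inv_le_exp {u : ℝ} (hu : u ≤ 1 / 2) (hu0 : 0 ≤ u) : (√(1 - u))⁻¹ ≤ Real.exp u := by
  have h1 : (0:ℝ) < 1 - u := by linarith
  have h2 : Real.exp (-u) ≤ √(1 - u) := by
    apply Real.le_sqrt_of_sq_le
    rw [← Real.exp_nat_mul]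
    have h3 : 1 + 2 * u ≤ Real.exp (2 * u) := by linarith [Real.add_one_le_exp (2 * u)]
    have h4 : Real.exp ((2:ℕ) * -u) = (Real.exp (2 * u))⁻¹ := by
      rw [← Real.exp_neg]; congr 1; push_cast; ring
    rw [h4]
    rw [inv_le_comm₀ (Real.exp_pos _) h1]
    refine le_trans ?_ h3
    rw [inv_le_iff_one_le_mul₀ h1]
    nlinarith
  calc (√(1 - u))⁻¹ ≤ (Real.exp (-u))⁻¹ := inv_anti₀ (Real.exp_pos _) h2
    _ = Real.exp u := by rw [Real.exp_neg, inv_inv]

/-- Total variation distance of two Gaussian scalings. -/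
theorem scl_diff {d e : ι → ℝ} (he : ∀ i, -(1/2) ≤ e i)
    {F : (ι → ℝ) → ℝ} (hF : Measurable F) (hF1 : ∀ x, |F x| ≤ 1) :
    |∫ x, F (scl d x) ∂(gpi ι) - ∫ x, F (scl e x) ∂(gpi ι)| ≤
      6 * √(∑ i, (d i - e i) ^ 2) := by
  set S := ∑ i, (d i - e i) ^ 2 with hS
  have hS0 : 0 ≤ S := Finset.sum_nonneg fun i _ => sq_nonneg _
  set c : ι → ℝ := fun i => (d i - e i) / (1 + e i) with hc
  have hep : ∀ i, (1:ℝ)/2 ≤ 1 + e i := fun i => by linarith [he i]
  have hcsq : ∑ i, c i ^ 2 ≤ 4 * S := by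
    rw [hS, Finset.mul_sum]
    refine Finset.sum_le_sum fun i _ => ?_
    rw [hc]
    dsimp only
    rw [div_pow, div_le_iff₀ (by have := hep i; positivity)]
    have h1 : (1:ℝ) ≤ 4 * (1 + e i) ^ 2 := by nlinarith [hep i]
    nlinarith [sq_nonneg (d i - e i)]
  have htriv : ∀ u : ι → ℝ, |∫ x, F (scl u x) ∂(gpi ι)| ≤ 1 := by
    intro u
    refine (abs_integral_le_integral_abs).trans ?_
    have : ∫ x, |F (scl u x)| ∂(gpi ι) ≤ ∫ x, (1:ℝ) ∂(gpi ι) := by
      apply integral_mono_of_nonneg (Filter.Eventually.of_forall fun x => abs_nonneg _)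
        (integrable_const _) (Filter.Eventually.of_forall fun x => hF1 _)
    simpa using this
  by_cases hsmall : 4 * S ≤ 1 / 2
  · -- use the mixture lemma with a constant
    have hcomp : ∀ x, scl d x = scl e (scl c x) := by
      intro x
      funext i
      unfold scl
      rw [← mul_assoc]
      congr 1
      rw [← Real.sqrt_mul (by linarith [hep i])]
      congr 1
      rw [hc]
      dsimp only
      have : (1 + e i) ≠ 0 := by linarith [hep i]
      field_simp
      ring
    set F' : (ι → ℝ) → ℝ := fun x => F (scl e x) with hF'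
    have hF'm : Measurable F' := hF.comp (measurable_scl.comp (measurable_const.prodMk measurable_id))
    have hci : ∀ i, |c i| ≤ √(1/2) := by
      intro i
      apply Real.abs_le_sqrt
      refine le_trans ?_ (hcsq.trans hsmall)
      exact Finset.single_le_sum (f := fun i => c i ^ 2) (fun j _ => sq_nonneg _) (Finset.mem_univ i)
    have hsq : √(1/2 : ℝ) < 1 := by
      rw [Real.sqrt_lt' one_pos]; norm_num
    have h := mixture_tv (Measure.dirac () : Measure Unit) (a := fun _ => c) measurable_const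
      hsq (Real.sqrt_nonneg _) (fun _ i => hci i) hF'm (fun x => hF1 _) (K := Real.exp (4 * S) - 1)
      (by
        simp only [integral_dirac]
        rw [add_sub_cancel]
        unfold ovl
        calc ∏ i, (√(1 - c i * c i))⁻¹ ≤ ∏ i, Real.exp (c i ^ 2) := by
              refine Finset.prod_le_prod (fun i _ => inv_nonneg.2 (Real.sqrt_nonneg _)) fun i _ => ?_
              rw [← sq]
              apply sqrt_inv_le_exp _ (sq_nonneg _)
              have := hci i
              have h2 := Real.sq_sqrt (show (0:ℝ) ≤ 1/2 by norm_num)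
              calc c i ^ 2 = |c i| ^ 2 := (sq_abs _).symm
                _ ≤ √(1/2) ^ 2 := by gcongr
                _ = 1/2 := h2
          _ = Real.exp (∑ i, c i ^ 2) := (Real.exp_sum _ _).symm
          _ ≤ Real.exp (4 * S) := Real.exp_le_exp.2 hcsq)
    simp only [integral_dirac] at h
    have e1 : ∫ x, F (scl d x) ∂(gpi ι) = ∫ x, F' (scl c x) ∂(gpi ι) := by
      rw [hF']
      simp only [← hcomp]
    rw [e1]
    refine h.trans ?_
    have h3 : Real.exp (4 * S) - 1 ≤ 2 * (4 * S) := by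
      have h5 : (1 - 4 * S) * Real.exp (4 * S) ≤ 1 := by
        have h6 := Real.add_one_le_exp (-(4 * S))
        have h7 : Real.exp (-(4 * S)) * Real.exp (4 * S) = 1 := by
          rw [← Real.exp_add]; simp
        nlinarith [Real.exp_pos (4 * S)]
      have h8 : Real.exp (4 * S) ≤ 2 := by nlinarith [Real.exp_pos (4 * S)]
      nlinarith
    calc √(Real.exp (4 * S) - 1) ≤ √(2 * (4 * S)) := Real.sqrt_le_sqrt h3
      _ ≤ √(6 ^ 2 * S) := by
          apply Real.sqrt_le_sqrt; nlinarith
      _ = 6 * √S := by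
          rw [Real.sqrt_mul (by norm_num), Real.sqrt_sq (by norm_num)]
  · have h1 := htriv d
    have h2 := htriv e
    have h3 : |∫ x, F (scl d x) ∂(gpi ι) - ∫ x, F (scl e x) ∂(gpi ι)| ≤ 2 := by
      refine (abs_sub _ _).trans ?_
      linarith
    refine h3.trans ?_
    have h4 : (1:ℝ)/8 ≤ S := by linarith [not_le.1 hsmall]
    have h5 : (1:ℝ)/3 ≤ √S := by
      apply Real.le_sqrt_of_sq_le
      norm_num
      linarith
    linarith

theorem prod_splitG {n : ℕ} (k : Fin n) (f : Fin n → ℝ) :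
    ∏ i, f i = f k * ∏ i : {i : Fin n // ¬ i = k}, f i := by
  rw [← Finset.mul_prod_erase univ f (Finset.mem_univ k)]
  congr 1
  exact Finset.prod_subtype (univ.erase k) (by simp) f

theorem sum_splitG {n : ℕ} (k : Fin n) (f : Fin n → ℝ) :
    ∑ i, f i = f k + ∑ i : {i : Fin n // ¬ i = k}, f i := by
  rw [← Finset.add_sum_erase univ f (Finset.mem_univ k)]
  congr 1
  exact Finset.sum_subtype (univ.erase k) (by simp) f

/-- Second moment bound for an exchangeable mixture. -/
theorem exch_mixture {n : ℕ} (hn : 2 ≤ n) {Ω : Type*} [MeasurableSpace Ω] (P : Measure Ω)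
    [IsProbabilityMeasure P] {w : Fin n → ℝ} (hw : ∀ k, 0 ≤ w k) (hw1 : ∑ k, w k = 1)
    {r : Fin n → Ω → Fin n → ℝ} (hr : ∀ k, Measurable (r k)) {ρ R : ℝ} (hρ0 : 0 ≤ ρ)
    (hρ : ρ ≤ 1 / 2) (hbd : ∀ k ω i, |r k ω i| ≤ ρ) (hsum : ∀ k ω, ∑ i, r k ω i = 0)
    (hR : ∀ k ω, ∑ i, r k ω i ^ 2 ≤ R)
    (hexch : ∀ k (σ : Equiv.Perm (Fin n)), σ k = k →
      P.map (fun ω i => r k ω (σ i)) = P.map (r k))
    {F : (Fin n → ℝ) → ℝ} (hF : Measurable F) (hF1 : ∀ x, |F x| ≤ 1) :
    |∫ ω, ∫ x, F (scl (fun i => ∑ k, w k * r k ω i) x) ∂(gpi (Fin n)) ∂P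
      - ∫ x, F x ∂(gpi (Fin n))| ≤ √(Real.exp (2 * ρ ^ 2 + R ^ 2 / ((n : ℝ) - 1)) - 1) := by
  classical
  set C : ℝ := Real.exp (2 * ρ ^ 2 + R ^ 2 / ((n : ℝ) - 1)) with hC
  have hn1 : (0:ℝ) < (n : ℝ) - 1 := by
    have : (2:ℝ) ≤ n := by exact_mod_cast hn
    linarith
  -- pointwise bound: average over permutations fixing k
  have key : ∀ k (b : Fin n → ℝ), (∀ i, |b i| ≤ ρ) → (∑ i, b i ^ 2 ≤ R) →
      ∫ ω, ovl (r k ω) b ∂P ≤ C := by
    intro k b hb hbR
    let A := {i : Fin n // ¬ i = k}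
    have hcardA : (Fintype.card A : ℝ) = (n : ℝ) - 1 := by
      have h := sum_splitG k (fun _ => (1:ℝ))
      simp only [Finset.sum_const, Finset.card_univ, nsmul_eq_mul, mul_one, Fintype.card_fin] at h
      linarith
    have : Nonempty A := by
      rw [← Fintype.card_pos_iff]
      have : (0:ℝ) < (Fintype.card A : ℝ) := by rw [hcardA]; exact hn1
      exact_mod_cast this
    have hinv : ∀ τ : Equiv.Perm A,
        ∫ ω, ovl (fun i => r k ω (Equiv.Perm.ofSubtype τ i)) b ∂P = ∫ ω, ovl (r k ω) b ∂P := by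
      intro τ
      have hfix : Equiv.Perm.ofSubtype τ k = k :=
        Equiv.Perm.ofSubtype_apply_of_not_mem τ (by simp)
      have hm : Measurable (fun v : Fin n → ℝ => ovl v b) :=
        measurable_ovl.comp (measurable_id.prodMk measurable_const)
      have h1 : ∫ ω, ovl (fun i => r k ω (Equiv.Perm.ofSubtype τ i)) b ∂P
          = ∫ v, ovl v b ∂(P.map (fun ω i => r k ω (Equiv.Perm.ofSubtype τ i))) := by
        rw [integral_map _ hm.aestronglyMeasurable]
        exact (measurable_pi_lambda _ fun i =>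
          (measurable_pi_apply _).comp (hr k)).aemeasurable
      rw [h1, hexch k _ hfix, integral_map (hr k).aemeasurable hm.aestronglyMeasurable]
    have hint : ∀ τ : Equiv.Perm A,
        Integrable (fun ω => ovl (fun i => r k ω (Equiv.Perm.ofSubtype τ i)) b) P := by
      intro τ
      refine Integrable.of_bound (C := ∏ _i : Fin n, (√(1 - ρ * ρ))⁻¹) ?_
        (Filter.Eventually.of_forall fun ω => ?_)
      · refine (measurable_ovl.comp (Measurable.prodMk ?_ measurable_const)).aestronglyMeasurable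
        exact measurable_pi_lambda _ fun i => (measurable_pi_apply _).comp (hr k)
      · rw [Real.norm_of_nonneg (ovl_nonneg _ _)]
        exact ovl_le (by linarith) hρ0 (fun i => hbd k ω _) hb
    have hpt : ∀ ω, (∑ τ : Equiv.Perm A, ovl (fun i => r k ω (Equiv.Perm.ofSubtype τ i)) b) /
        (Fintype.card (Equiv.Perm A) : ℝ) ≤ C := by
      intro ω
      have hprod : ∀ τ : Equiv.Perm A, ovl (fun i => r k ω (Equiv.Perm.ofSubtype τ i)) b
          = (√(1 - r k ω k * b k))⁻¹ * ∏ i : A, (√(1 - r k ω (τ i) * b i))⁻¹ := by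
        intro τ
        unfold ovl
        rw [prod_splitG k]
        have hfix : Equiv.Perm.ofSubtype τ k = k :=
          Equiv.Perm.ofSubtype_apply_of_not_mem τ (by simp)
        congr 1
        · simp only [hfix]
        · refine Finset.prod_congr rfl fun i _ => ?_
          simp only [Equiv.Perm.ofSubtype_apply_coe]
      simp only [hprod]
      rw [← Finset.mul_sum, mul_div_assoc]
      have h2 := perm_second_moment (α := A) (fun j => r k ω j) (fun i => b i)
        (by
          intro i j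
          rw [abs_mul]
          calc |r k ω j| * |b i| ≤ ρ * ρ :=
                mul_le_mul (hbd k ω _) (hb _) (abs_nonneg _) hρ0
            _ ≤ 1 / 2 := by nlinarith)
      have h3 : (√(1 - r k ω k * b k))⁻¹ ≤ Real.exp (ρ ^ 2) := by
        have hle : r k ω k * b k ≤ ρ ^ 2 := by
          calc r k ω k * b k ≤ |r k ω k * b k| := le_abs_self _
            _ = |r k ω k| * |b k| := abs_mul _ _
            _ ≤ ρ * ρ := mul_le_mul (hbd k ω _) (hb _) (abs_nonneg _) hρ0
            _ = ρ ^ 2 := (sq ρ).symm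
        refine le_trans ?_ (sqrt_inv_le_exp (by nlinarith) (sq_nonneg ρ))
        apply inv_anti₀ (Real.sqrt_pos.2 (by nlinarith))
        exact Real.sqrt_le_sqrt (by linarith)
      have h4 : (∑ i : A, |b i|) * |∑ j : A, r k ω j| / (2 * Fintype.card A) +
          (∑ i : A, b i ^ 2) * (∑ j : A, r k ω j ^ 2) / Fintype.card A ≤
          ρ ^ 2 / 2 + R ^ 2 / ((n:ℝ) - 1) := by
        rw [hcardA]
        have e1 : ∑ i : A, |b i| ≤ ((n:ℝ) - 1) * ρ := by
          calc ∑ i : A, |b i| ≤ ∑ _i : A, ρ := Finset.sum_le_sum fun i _ => hb _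
            _ = ((n:ℝ) - 1) * ρ := by
                rw [Finset.sum_const, Finset.card_univ, nsmul_eq_mul, hcardA]
        have e2 : |∑ j : A, r k ω j| ≤ ρ := by
          have hs := sum_splitG k (fun i => r k ω i)
          rw [hsum k ω] at hs
          have : ∑ j : A, r k ω j = - r k ω k := by linarith
          rw [this, abs_neg]
          exact hbd k ω k
        have e3 : ∑ i : A, b i ^ 2 ≤ R := by
          refine le_trans ?_ hbR
          rw [sum_splitG k (fun i => b i ^ 2)]
          linarith [sq_nonneg (b k)]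
        have e4 : ∑ j : A, r k ω j ^ 2 ≤ R := by
          refine le_trans ?_ (hR k ω)
          rw [sum_splitG k (fun i => r k ω i ^ 2)]
          linarith [sq_nonneg (r k ω k)]
        have e3' : 0 ≤ ∑ i : A, b i ^ 2 := Finset.sum_nonneg fun i _ => sq_nonneg _
        have e4' : 0 ≤ ∑ j : A, r k ω j ^ 2 := Finset.sum_nonneg fun i _ => sq_nonneg _
        have e1' : 0 ≤ ∑ i : A, |b i| := Finset.sum_nonneg fun i _ => abs_nonneg _
        have f1 : (∑ i : A, |b i|) * |∑ j : A, r k ω j| / (2 * ((n:ℝ) - 1)) ≤ ρ ^ 2 / 2 := by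
          rw [div_le_div_iff₀ (by positivity) (by norm_num)]
          have := mul_le_mul e1 e2 (abs_nonneg _) (by positivity)
          nlinarith
        have f2 : (∑ i : A, b i ^ 2) * (∑ j : A, r k ω j ^ 2) / ((n:ℝ) - 1) ≤
            R ^ 2 / ((n:ℝ) - 1) := by
          apply div_le_div_of_nonneg_right _ hn1.le
          rw [sq]
          exact mul_le_mul e3 e4 e4' (e3'.trans e3)
        linarith
      calc (√(1 - r k ω k * b k))⁻¹ * ((∑ τ : Equiv.Perm A, ∏ i : A,
            (√(1 - r k ω (τ i) * b i))⁻¹) / (Fintype.card (Equiv.Perm A) : ℝ))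
          ≤ Real.exp (ρ ^ 2) * Real.exp (ρ ^ 2 / 2 + R ^ 2 / ((n:ℝ) - 1)) := by
            apply mul_le_mul h3 (h2.trans (Real.exp_le_exp.2 h4)) _ (Real.exp_pos _).le
            apply div_nonneg _ (Nat.cast_nonneg _)
            exact Finset.sum_nonneg fun τ _ => Finset.prod_nonneg fun i _ =>
              inv_nonneg.2 (Real.sqrt_nonneg _)
        _ ≤ C := by
            rw [hC, ← Real.exp_add]
            apply Real.exp_le_exp.2
            nlinarith [sq_nonneg ρ]
    have hcP : (0:ℝ) < (Fintype.card (Equiv.Perm A) : ℝ) := by exact_mod_cast Fintype.card_pos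
    have e5 : ∫ ω, ovl (r k ω) b ∂P = ∫ ω, (∑ τ : Equiv.Perm A,
        ovl (fun i => r k ω (Equiv.Perm.ofSubtype τ i)) b) /
        (Fintype.card (Equiv.Perm A) : ℝ) ∂P := by
      rw [integral_div, integral_finsetSum _ fun τ _ => hint τ]
      simp only [hinv]
      rw [Finset.sum_const, Finset.card_univ, nsmul_eq_mul]
      field_simp
    rw [e5]
    calc ∫ ω, (∑ τ : Equiv.Perm A, ovl (fun i => r k ω (Equiv.Perm.ofSubtype τ i)) b) /
        (Fintype.card (Equiv.Perm A) : ℝ) ∂P ≤ ∫ _ω, C ∂P := by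
          apply integral_mono_of_nonneg
          · refine Filter.Eventually.of_forall fun ω => ?_
            apply div_nonneg _ hcP.le
            exact Finset.sum_nonneg fun τ _ => ovl_nonneg _ _
          · exact integrable_const _
          · exact Filter.Eventually.of_forall fun ω => hpt ω
      _ = C := by simp
  -- the mixture vector
  set a : Ω → Fin n → ℝ := fun ω i => ∑ k, w k * r k ω i with ha
  have ham : Measurable a := by
    refine measurable_pi_lambda _ fun i => ?_
    exact Finset.measurable_sum _ fun k _ => ((measurable_pi_apply i).comp (hr k)).const_mul _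
  have habd : ∀ ω i, |a ω i| ≤ ρ := by
    intro ω i
    calc |a ω i| ≤ ∑ k, |w k * r k ω i| := Finset.abs_sum_le_sum_abs _ _
      _ ≤ ∑ k, w k * ρ := by
          refine Finset.sum_le_sum fun k _ => ?_
          rw [abs_mul, abs_of_nonneg (hw k)]
          exact mul_le_mul_of_nonneg_left (hbd k ω i) (hw k)
      _ = ρ := by rw [← Finset.sum_mul, hw1, one_mul]
  have haR : ∀ ω, ∑ i, a ω i ^ 2 ≤ R := by
    intro ω
    have hj : ∀ i, a ω i ^ 2 ≤ ∑ k, w k * r k ω i ^ 2 := by
      intro i
      have h0 : 0 ≤ ∑ k, w k * (r k ω i - a ω i) ^ 2 :=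
        Finset.sum_nonneg fun k _ => mul_nonneg (hw k) (sq_nonneg _)
      have e : ∑ k, w k * (r k ω i - a ω i) ^ 2 = (∑ k, w k * r k ω i ^ 2) - a ω i ^ 2 := by
        have : ∀ k, w k * (r k ω i - a ω i) ^ 2 = w k * r k ω i ^ 2 - 2 * a ω i * (w k * r k ω i)
            + w k * a ω i ^ 2 := fun k => by ring
        simp only [this, Finset.sum_add_distrib, Finset.sum_sub_distrib]
        rw [← Finset.mul_sum, ← Finset.sum_mul, hw1]
        have : ∑ k, w k * r k ω i = a ω i := rfl
        rw [this]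
        ring
      linarith
    calc ∑ i, a ω i ^ 2 ≤ ∑ i, ∑ k, w k * r k ω i ^ 2 := Finset.sum_le_sum fun i _ => hj i
      _ = ∑ k, w k * ∑ i, r k ω i ^ 2 := by
          rw [Finset.sum_comm]
          exact Finset.sum_congr rfl fun k _ => (Finset.mul_sum _ _ _).symm
      _ ≤ ∑ k, w k * R := Finset.sum_le_sum fun k _ => mul_le_mul_of_nonneg_left (hR k ω) (hw k)
      _ = R := by rw [← Finset.sum_mul, hw1, one_mul]
  have hb : ∀ b : Fin n → ℝ, (∀ i, |b i| ≤ ρ) → (∑ i, b i ^ 2 ≤ R) →
      ∫ ω, ovl (a ω) b ∂P ≤ C := by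
    intro b hb hbR
    have hi : ∀ k, Integrable (fun ω => ovl (r k ω) b) P := by
      intro k
      refine Integrable.of_bound (C := ∏ _i : Fin n, (√(1 - ρ * ρ))⁻¹) ?_
        (Filter.Eventually.of_forall fun ω => ?_)
      · exact (measurable_ovl.comp ((hr k).prodMk measurable_const)).aestronglyMeasurable
      · rw [Real.norm_of_nonneg (ovl_nonneg _ _)]
        exact ovl_le (by linarith) hρ0 (fun i => hbd k ω _) hb
    calc ∫ ω, ovl (a ω) b ∂P ≤ ∫ ω, ∑ k, w k * ovl (r k ω) b ∂P := by
          apply integral_mono_of_nonneg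
          · exact Filter.Eventually.of_forall fun ω => ovl_nonneg _ _
          · exact integrable_finsetSum _ fun k _ => (hi k).const_mul _
          · refine Filter.Eventually.of_forall fun ω => ?_
            apply ovl_jensen hw hw1 (fun k => r k ω) b
            intro k i
            calc r k ω i * b i ≤ |r k ω i * b i| := le_abs_self _
              _ = |r k ω i| * |b i| := abs_mul _ _
              _ ≤ ρ * ρ := mul_le_mul (hbd k ω _) (hb _) (abs_nonneg _) hρ0
              _ < 1 := by nlinarith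
      _ = ∑ k, w k * ∫ ω, ovl (r k ω) b ∂P := by
          rw [integral_finsetSum _ fun k _ => (hi k).const_mul _]
          exact Finset.sum_congr rfl fun k _ => integral_const_mul _ _
      _ ≤ ∑ k, w k * C := Finset.sum_le_sum fun k _ =>
          mul_le_mul_of_nonneg_left (key k b hb hbR) (hw k)
      _ = C := by rw [← Finset.sum_mul, hw1, one_mul]
  apply mixture_tv P ham (by linarith) hρ0 habd hF hF1
  rw [add_sub_cancel]
  calc ∫ ω, ∫ ω', ovl (a ω) (a ω') ∂P ∂P ≤ ∫ _ω, C ∂P := by
        apply integral_mono_of_nonneg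
        · exact Filter.Eventually.of_forall fun ω => integral_nonneg fun ω' => ovl_nonneg _ _
        · exact integrable_const _
        · refine Filter.Eventually.of_forall fun ω => ?_
          simp only [ovl_comm (a ω)]
          exact hb (a ω) (habd ω) (haR ω)
    _ = C := by simp

end Pf31f09
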