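import Pool.Agent.Lib.Pf31f09.GScale

/-!
Second moments of `∑ c_j (y_j² - 1)` for a standard Gaussian vector.
-/

open MeasureTheory ProbabilityTheory Finset

noncomputable section

namespace Pf31f09

theorem gauss_four : ∫ y, y ^ 4 ∂(gaussianReal 0 1) = 3 := by
  rw [integral_gaussianReal_eq_integral_smul one_ne_zero]
  have hfun : ∀ y : ℝ, gaussianPDFReal 0 1 y • y ^ 4
      = (√(2 * Real.pi))⁻¹ * (|y| ^ (4:ℝ) * Real.exp (-(1/2) * |y| ^ (2:ℝ))) := by
    intro y
    have h1 : |y| ^ (4:ℝ) = y ^ 4 := by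
      rw [show (4:ℝ) = ((4:ℕ):ℝ) by norm_num, Real.rpow_natCast]
      exact Even.pow_abs (by decide) y
    have h2 : |y| ^ (2:ℝ) = y ^ 2 := by
      rw [show (2:ℝ) = ((2:ℕ):ℝ) by norm_num, Real.rpow_natCast]
      exact sq_abs y
    rw [h1, h2]
    simp only [gaussianPDFReal, NNReal.coe_one, mul_one, sub_zero, smul_eq_mul]
    rw [show -y ^ 2 / 2 = -(1/2) * y ^ 2 by ring]
    ring
  simp only [hfun]
  rw [integral_const_mul,
    integral_comp_abs (f := fun y => y ^ (4:ℝ) * Real.exp (-(1/2) * y ^ (2:ℝ))),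
    integral_rpow_mul_exp_neg_mul_rpow (by norm_num) (by norm_num) (by norm_num)]
  have hG : Real.Gamma (5/2) = 3 / 4 * √Real.pi := by
    have h := Real.Gamma_nat_add_half 2
    rw [show ((2:ℕ):ℝ) + 1/2 = 5/2 by norm_num] at h
    rw [h]
    simp [Nat.doubleFactorial]
    ring
  rw [show ((4:ℝ)+1)/2 = 5/2 by norm_num, hG]
  have h5 : ((1:ℝ)/2) ^ (-(4 + 1:ℝ)/2) = 4 * √2 := by
    rw [show -(4 + 1:ℝ)/2 = -(2 + 1/2) by norm_num, Real.rpow_neg (by norm_num),
      Real.rpow_add (by norm_num), ← Real.sqrt_eq_rpow, Real.sqrt_div (by norm_num), Real.sqrt_one]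
    have h2 : √(2:ℝ) ≠ 0 := by positivity
    rw [show ((1:ℝ)/2) ^ (2:ℝ) = 1/4 by
      rw [show (2:ℝ) = ((2:ℕ):ℝ) by norm_num, Real.rpow_natCast]; norm_num]
    field_simp
  rw [h5, Real.sqrt_mul (by norm_num)]
  have h2 : √(2:ℝ) ≠ 0 := by positivity
  have h3 : √Real.pi ≠ 0 := by positivity
  field_simp

theorem gauss_two : ∫ y, y ^ 2 ∂(gaussianReal 0 1) = 1 := by
  have h := variance_fun_id_gaussianReal (μ := 0) (v := 1)
  rw [variance_eq_sub] at h
  · simp only [integral_id_gaussianReal, NNReal.coe_one] at h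
    simpa using h
  · exact memLp_id_gaussianReal 2

theorem integrable_four : Integrable (fun y : ℝ => y ^ 4) (gaussianReal 0 1) := by
  have h : MemLp (id : ℝ → ℝ) ((4:ℕ) : ENNReal) (gaussianReal 0 1) := memLp_id_gaussianReal 4
  have h2 := h.integrable_norm_pow (by norm_num)
  refine h2.congr ?_
  filter_upwards with y
  rw [id, Real.norm_eq_abs]
  exact Even.pow_abs (by decide) y

theorem memLp_sq : MemLp (fun y : ℝ => y ^ 2) 2 (gaussianReal 0 1) := by
  rw [memLp_two_iff_integrable_sq (by fun_prop)]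
  refine integrable_four.congr ?_
  filter_upwards with y
  ring

theorem integrable_two : Integrable (fun y : ℝ => y ^ 2) (gaussianReal 0 1) :=
  memLp_sq.integrable (by norm_num)

theorem memLp_cs (c : ℝ) : MemLp (fun y : ℝ => c * (y ^ 2 - 1)) 2 (gaussianReal 0 1) :=
  (memLp_sq.sub (memLp_const 1)).const_mul c

theorem mean_cs (c : ℝ) : ∫ y, c * (y ^ 2 - 1) ∂(gaussianReal 0 1) = 0 := by
  rw [integral_const_mul, integral_sub integrable_two (integrable_const _), gauss_two]
  simp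

theorem var_cs (c : ℝ) : Var[fun y : ℝ => c * (y ^ 2 - 1); gaussianReal 0 1] = 2 * c ^ 2 := by
  rw [variance_of_integral_eq_zero (memLp_cs c).aestronglyMeasurable.aemeasurable (mean_cs c)]
  have e : ∀ y : ℝ, (c * (y ^ 2 - 1)) ^ 2 = c ^ 2 * (y ^ 4 - 2 * y ^ 2 + 1) := by
    intro y; ring
  simp only [e]
  have i1 : Integrable (fun y : ℝ => y ^ 4 - 2 * y ^ 2) (gaussianReal 0 1) :=
    integrable_four.sub (integrable_two.const_mul 2)
  rw [integral_const_mul, integral_add i1 (integrable_const _),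
    integral_sub integrable_four (integrable_two.const_mul 2), integral_const_mul, gauss_four,
    gauss_two]
  simp
  ring

variable {ι : Type*} [Fintype ι]

/-- The centred quadratic form. -/
def qz (c y : ι → ℝ) : ℝ := ∑ j, c j * (y j ^ 2 - 1)

theorem memLp_qz (c : ι → ℝ) : MemLp (qz c) 2 (gpi ι) := by
  have e : qz c = ∑ j, fun y : ι → ℝ => (fun x : ℝ => c j * (x ^ 2 - 1)) (y j) := by
    funext y
    simp [qz]
  rw [e]
  refine memLp_finsetSum' _ fun j _ => ?_
  exact (memLp_cs (c j)).comp_measurePreserving (measurePreserving_eval _ j)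

theorem mean_qz (c : ι → ℝ) : ∫ y, qz c y ∂(gpi ι) = 0 := by
  unfold qz
  rw [integral_finsetSum]
  · refine Finset.sum_eq_zero fun j _ => ?_
    rw [integral_comp_eval (μ := fun _ : ι => gaussianReal 0 1) (i := j)
      (f := fun x : ℝ => c j * (x ^ 2 - 1)) (memLp_cs (c j)).aestronglyMeasurable]
    exact mean_cs _
  · intro j _
    exact integrable_comp_eval (μ := fun _ : ι => gaussianReal 0 1) (i := j)
      (f := fun x : ℝ => c j * (x ^ 2 - 1)) ((memLp_cs (c j)).integrable (by norm_num))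

theorem integral_en (c : ι → ℝ) : Integrable (fun y : ι → ℝ => ∑ j, c j * y j ^ 2) (gpi ι) ∧
    ∫ y, ∑ j, c j * y j ^ 2 ∂(gpi ι) = ∑ j, c j := by
  have hi : ∀ j, Integrable (fun y : ι → ℝ => c j * y j ^ 2) (gpi ι) := fun j =>
    integrable_comp_eval (μ := fun _ : ι => gaussianReal 0 1) (i := j)
      (f := fun x : ℝ => c j * x ^ 2) (integrable_two.const_mul _)
  refine ⟨integrable_finsetSum _ fun j _ => hi j, ?_⟩
  rw [integral_finsetSum _ fun j _ => hi j]
  refine Finset.sum_congr rfl fun j _ => ?_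
  rw [integral_comp_eval (μ := fun _ : ι => gaussianReal 0 1) (i := j)
      (f := fun x : ℝ => c j * x ^ 2) (integrable_two.const_mul _).aestronglyMeasurable,
    integral_const_mul, gauss_two, mul_one]

theorem integral_qz_sq (c : ι → ℝ) : ∫ y, qz c y ^ 2 ∂(gpi ι) = 2 * ∑ j, c j ^ 2 := by
  have h1 : Var[qz c; gpi ι] = 2 * ∑ j, c j ^ 2 := by
    have e : qz c = ∑ j, fun y : ι → ℝ => (fun x : ℝ => c j * (x ^ 2 - 1)) (y j) := by
      funext y
      simp [qz]
    rw [e, variance_sum_pi (fun j => memLp_cs (c j))]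
    simp only [var_cs]
    rw [Finset.mul_sum]
  rw [← h1, variance_of_integral_eq_zero (memLp_qz c).aestronglyMeasurable.aemeasurable (mean_qz c)]

end Pf31f09
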