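import Mathlib

/-!
Gaussian scale mixtures: change of measure, the overlap of two likelihood ratios, and the second
moment bound for mixtures.
-/

open MeasureTheory ProbabilityTheory Finset

noncomputable section

namespace Pf31f09

/-- The standard Gaussian measure on `ι → ℝ`. -/
abbrev gpi (ι : Type*) [Fintype ι] : Measure (ι → ℝ) := Measure.pi fun _ => gaussianReal 0 1

/-- Likelihood ratio of `N(0,1+d)` with respect to `N(0,1)`. -/
def ell1 (d x : ℝ) : ℝ := (√(1 + d))⁻¹ * Real.exp (d * x ^ 2 / (2 * (1 + d)))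

/-- Likelihood ratio of `N(0,diag(1+d))` with respect to `N(0,I)`. -/
def ell {ι : Type*} [Fintype ι] (d x : ι → ℝ) : ℝ := ∏ i, ell1 (d i) (x i)

/-- Coordinatewise scaling. -/
def scl {ι : Type*} (d x : ι → ℝ) : ι → ℝ := fun i => √(1 + d i) * x i

theorem ell1_nonneg (d x : ℝ) : 0 ≤ ell1 d x :=
  mul_nonneg (inv_nonneg.2 (Real.sqrt_nonneg _)) (Real.exp_pos _).le

theorem ell1_zero (x : ℝ) : ell1 0 x = 1 := by simp [ell1]

theorem measurable_ell1 : Measurable (fun p : ℝ × ℝ => ell1 p.1 p.2) := by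
  unfold ell1
  fun_prop

theorem exp_half_sq_integral {c : ℝ} (hc : c < 1) :
    Integrable (fun x : ℝ => Real.exp (c * x ^ 2 / 2)) (gaussianReal 0 1) ∧
    ∫ x, Real.exp (c * x ^ 2 / 2) ∂(gaussianReal 0 1) = (√(1 - c))⁻¹ := by
  have h1 : (0 : ℝ) < (1 - c) / 2 := by linarith
  have hfun : ∀ x : ℝ, gaussianPDFReal 0 1 x * Real.exp (c * x ^ 2 / 2)
      = (√(2 * Real.pi))⁻¹ * Real.exp (-((1 - c) / 2) * x ^ 2) := by
    intro x
    simp only [gaussianPDFReal, NNReal.coe_one, mul_one, sub_zero]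
    rw [mul_assoc, ← Real.exp_add]
    congr 2
    ring
  constructor
  · rw [gaussianReal_of_var_ne_zero 0 one_ne_zero]
    rw [integrable_withDensity_iff_integrable_smul' (measurable_gaussianPDF 0 1)
      (Filter.Eventually.of_forall fun _ => gaussianPDF_lt_top)]
    have : (fun x : ℝ => (gaussianPDF 0 1 x).toReal • Real.exp (c * x ^ 2 / 2))
        = fun x => (√(2 * Real.pi))⁻¹ * Real.exp (-((1 - c) / 2) * x ^ 2) := by
      funext x
      rw [toReal_gaussianPDF, smul_eq_mul, hfun]
    rw [this]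
    exact (integrable_exp_neg_mul_sq h1).const_mul _
  · rw [integral_gaussianReal_eq_integral_smul one_ne_zero]
    simp only [smul_eq_mul, hfun]
    rw [integral_const_mul, integral_gaussian]
    have h2 : Real.pi / ((1 - c) / 2) = (2 * Real.pi) / (1 - c) := by
      field_simp
    rw [h2, Real.sqrt_div (by positivity)]
    have h3 : √(2 * Real.pi) ≠ 0 := by positivity
    field_simp

theorem ell1_mul {d e : ℝ} (hd : |d| < 1) (he : |e| < 1) (x : ℝ) :
    ell1 d x * ell1 e x = (√((1 + d) * (1 + e)))⁻¹ *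
      Real.exp ((1 - (1 - d * e) / ((1 + d) * (1 + e))) * x ^ 2 / 2) := by
  have hd' := abs_lt.1 hd
  have he' := abs_lt.1 he
  have h1 : (0:ℝ) < 1 + d := by linarith
  have h2 : (0:ℝ) < 1 + e := by linarith
  unfold ell1
  rw [Real.sqrt_mul h1.le, mul_inv]
  have : (√(1 + d))⁻¹ * Real.exp (d * x ^ 2 / (2 * (1 + d))) *
      ((√(1 + e))⁻¹ * Real.exp (e * x ^ 2 / (2 * (1 + e)))) =
      (√(1 + d))⁻¹ * (√(1 + e))⁻¹ * (Real.exp (d * x ^ 2 / (2 * (1 + d))) *
        Real.exp (e * x ^ 2 / (2 * (1 + e)))) := by ring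
  rw [this, ← Real.exp_add]
  congr 2
  field_simp
  ring

theorem ell1_mul_integral {d e : ℝ} (hd : |d| < 1) (he : |e| < 1) :
    Integrable (fun x => ell1 d x * ell1 e x) (gaussianReal 0 1) ∧
    ∫ x, ell1 d x * ell1 e x ∂(gaussianReal 0 1) = (√(1 - d * e))⁻¹ := by
  have hd' := abs_lt.1 hd
  have he' := abs_lt.1 he
  have h1 : (0:ℝ) < 1 + d := by linarith
  have h2 : (0:ℝ) < 1 + e := by linarith
  have h3 : (0:ℝ) < 1 - d * e := by
    have : |d * e| < 1 := by
      rw [abs_mul]
      nlinarith [abs_nonneg d, abs_nonneg e]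
    have := (abs_lt.1 this).2
    linarith
  have h4 : (0:ℝ) < (1 - d * e) / ((1 + d) * (1 + e)) := by positivity
  have h5 := exp_half_sq_integral (c := 1 - (1 - d * e) / ((1 + d) * (1 + e))) (by linarith)
  simp only [ell1_mul hd he]
  refine ⟨h5.1.const_mul _, ?_⟩
  rw [integral_const_mul, h5.2]
  rw [show 1 - (1 - (1 - d * e) / ((1 + d) * (1 + e))) = (1 - d * e) / ((1 + d) * (1 + e)) by ring]
  rw [Real.sqrt_div h3.le]
  have h6 : √((1 + d) * (1 + e)) ≠ 0 := by positivity
  have h7 : √(1 - d * e) ≠ 0 := by positivity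
  field_simp

theorem ell1_integral {d : ℝ} (hd : -1 < d) :
    Integrable (fun x => ell1 d x) (gaussianReal 0 1) ∧
    ∫ x, ell1 d x ∂(gaussianReal 0 1) = 1 := by
  have h1 : (0:ℝ) < 1 + d := by linarith
  have h4 : d / (1 + d) < 1 := by
    rw [div_lt_one h1]; linarith
  have h5 := exp_half_sq_integral h4
  have hfun : (fun x => ell1 d x) = fun x => (√(1 + d))⁻¹ * Real.exp (d / (1 + d) * x ^ 2 / 2) := by
    funext x
    unfold ell1
    congr 2
    field_simp
  rw [hfun]
  refine ⟨h5.1.const_mul _, ?_⟩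
  rw [integral_const_mul, h5.2]
  rw [show 1 - d / (1 + d) = 1 / (1 + d) by field_simp; ring]
  rw [Real.sqrt_div zero_le_one, Real.sqrt_one]
  have h6 : √(1 + d) ≠ 0 := by positivity
  field_simp

theorem gaussian_scale_one {d : ℝ} (hd : -1 < d) :
    (gaussianReal 0 1).map (fun x => √(1 + d) * x)
      = (gaussianReal 0 1).withDensity (fun x => ENNReal.ofReal (ell1 d x)) := by
  have h1 : (0:ℝ) < 1 + d := by linarith
  rw [gaussianReal_map_const_mul, mul_zero]
  have hv : (NNReal.mk (√(1 + d) ^ 2) (sq_nonneg _) * 1 : NNReal) = Real.toNNReal (1 + d) := by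
    apply NNReal.eq
    rw [Real.coe_toNNReal _ h1.le, mul_one, NNReal.coe_mk, Real.sq_sqrt h1.le]
  rw [hv]
  have hne : Real.toNNReal (1 + d) ≠ 0 := by
    rw [Ne, Real.toNNReal_eq_zero]
    linarith
  have hmeas : Measurable (fun x => ell1 d x) := by unfold ell1; fun_prop
  rw [gaussianReal_of_var_ne_zero 0 hne, gaussianReal_of_var_ne_zero 0 one_ne_zero,
    ← withDensity_mul _ (measurable_gaussianPDF 0 1) hmeas.ennreal_ofReal]
  congr 1
  funext x
  simp only [gaussianPDF, Pi.mul_apply]
  rw [← ENNReal.ofReal_mul (gaussianPDFReal_nonneg 0 1 x)]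
  congr 1
  simp only [gaussianPDFReal, NNReal.coe_one, mul_one, sub_zero, Real.coe_toNNReal _ h1.le, ell1]
  rw [Real.sqrt_mul (by positivity), mul_inv]
  have : (√(2 * Real.pi))⁻¹ * Real.exp (-x ^ 2 / 2) *
      ((√(1 + d))⁻¹ * Real.exp (d * x ^ 2 / (2 * (1 + d)))) =
      (√(2 * Real.pi))⁻¹ * (√(1 + d))⁻¹ *
        (Real.exp (-x ^ 2 / 2) * Real.exp (d * x ^ 2 / (2 * (1 + d)))) := by ring
  rw [this, ← Real.exp_add]
  congr 2
  field_simp
  ring

section Multi

variable {ι : Type*} [Fintype ι]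

theorem ell_nonneg (d x : ι → ℝ) : 0 ≤ ell d x := Finset.prod_nonneg fun i _ => ell1_nonneg _ _

theorem measurable_ell : Measurable (fun p : (ι → ℝ) × (ι → ℝ) => ell p.1 p.2) := by
  unfold ell ell1
  fun_prop

omit [Fintype ι] in
theorem measurable_scl : Measurable (fun p : (ι → ℝ) × (ι → ℝ) => scl p.1 p.2) := by
  unfold scl
  refine measurable_pi_lambda _ fun i => ?_
  fun_prop

theorem gaussian_scale {d : ι → ℝ} (hd : ∀ i, -1 < d i) :
    (gpi ι).map (scl d) = (gpi ι).withDensity (fun x => ENNReal.ofReal (ell d x)) := by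
  have h1 : (gpi ι).map (scl d)
      = Measure.pi (fun i => (gaussianReal 0 1).map (fun x => √(1 + d i) * x)) := by
    have hp : ∀ i, SigmaFinite ((gaussianReal 0 1).map (fun x => √(1 + d i) * x)) := by
      intro i
      have : IsProbabilityMeasure ((gaussianReal 0 1).map (fun x => √(1 + d i) * x)) :=
        Measure.isProbabilityMeasure_map (by fun_prop)
      infer_instance
    exact (Measure.pi_map_pi (fun i => by fun_prop))
  rw [h1]
  have hprob : ∀ i, IsProbabilityMeasure ((gaussianReal 0 1).map (fun x => √(1 + d i) * x)) :=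
    fun i => Measure.isProbabilityMeasure_map (by fun_prop)
  refine Measure.pi_eq fun s hs => ?_
  rw [withDensity_apply _ (MeasurableSet.univ_pi hs), Measure.restrict_pi_pi]
  have hint : ∀ i, Integrable (fun x => ell1 (d i) x) ((gaussianReal 0 1).restrict (s i)) :=
    fun i => (ell1_integral (hd i)).1.restrict
  unfold ell
  rw [← ofReal_integral_eq_lintegral_ofReal]
  · rw [integral_fintype_prod_eq_prod (f := fun i x => ell1 (d i) x)]
    rw [ENNReal.ofReal_prod_of_nonneg]
    · apply Finset.prod_congr rfl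
      intro i _
      rw [gaussian_scale_one (hd i), withDensity_apply _ (hs i),
        ofReal_integral_eq_lintegral_ofReal (hint i)
          (Filter.Eventually.of_forall fun x => ell1_nonneg _ _)]
    · intro i _
      exact integral_nonneg fun x => ell1_nonneg _ _
  · exact Integrable.fintype_prod (f := fun i x => ell1 (d i) x) hint
  · exact Filter.Eventually.of_forall fun Z => Finset.prod_nonneg fun i _ => ell1_nonneg _ _

theorem ell_integral {d : ι → ℝ} (hd : ∀ i, -1 < d i) :
    Integrable (fun x => ell d x) (gpi ι) ∧ ∫ x, ell d x ∂(gpi ι) = 1 := by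
  unfold ell
  constructor
  · exact Integrable.fintype_prod (f := fun i x => ell1 (d i) x) fun i => (ell1_integral (hd i)).1
  · rw [integral_fintype_prod_eq_prod (f := fun i x => ell1 (d i) x)]
    exact Finset.prod_eq_one fun i _ => (ell1_integral (hd i)).2

theorem ell_mul_integral {d e : ι → ℝ} (hd : ∀ i, |d i| < 1) (he : ∀ i, |e i| < 1) :
    Integrable (fun x => ell d x * ell e x) (gpi ι) ∧
    ∫ x, ell d x * ell e x ∂(gpi ι) = ∏ i, (√(1 - d i * e i))⁻¹ := by
  have hfun : (fun x : ι → ℝ => ell d x * ell e x)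
      = fun x => ∏ i, (ell1 (d i) (x i) * ell1 (e i) (x i)) := by
    funext x
    unfold ell
    rw [Finset.prod_mul_distrib]
  rw [hfun]
  constructor
  · exact Integrable.fintype_prod (f := fun i x => ell1 (d i) x * ell1 (e i) x)
      fun i => (ell1_mul_integral (hd i) (he i)).1
  · rw [integral_fintype_prod_eq_prod (f := fun i x => ell1 (d i) x * ell1 (e i) x)]
    exact Finset.prod_congr rfl fun i _ => (ell1_mul_integral (hd i) (he i)).2

theorem integral_scl {d : ι → ℝ} (hd : ∀ i, -1 < d i) {F : (ι → ℝ) → ℝ} (hF : Measurable F) :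
    ∫ x, F (scl d x) ∂(gpi ι) = ∫ x, F x * ell d x ∂(gpi ι) := by
  have hs : Measurable (scl d) := measurable_scl.comp (measurable_const.prodMk measurable_id)
  have he : Measurable (ell d) := measurable_ell.comp (measurable_const.prodMk measurable_id)
  have h1 : ∫ x, F (scl d x) ∂(gpi ι) = ∫ x, F x ∂((gpi ι).map (scl d)) := by
    rw [integral_map hs.aemeasurable hF.aestronglyMeasurable]
  rw [h1, gaussian_scale hd, integral_withDensity_eq_integral_toReal_smul]
  · apply integral_congr_ae
    refine Filter.Eventually.of_forall fun Z => ?_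
    beta_reduce
    rw [ENNReal.toReal_ofReal (ell_nonneg _ _), smul_eq_mul, mul_comm]
  · exact he.ennreal_ofReal
  · exact Filter.Eventually.of_forall fun Z => ENNReal.ofReal_lt_top

end Multi

end Pf31f09
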