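import Mathlib

/-!
Linear algebra for the Jacobian of the near-identity map.
-/

open Finset Matrix

namespace Pf31f09

theorem one_sub_sum_le_prod {ι : Type*} (s : Finset ι) (e : ι → ℝ) (h0 : ∀ i ∈ s, 0 ≤ e i)
    (h1 : ∀ i ∈ s, e i ≤ 1) : 1 - ∑ i ∈ s, e i ≤ ∏ i ∈ s, (1 - e i) := by
  classical
  induction s using Finset.induction_on with
  | empty => simp
  | insert a s ha ih =>
    rw [Finset.sum_insert ha, Finset.prod_insert ha]
    have h0a := h0 a (Finset.mem_insert_self _ _)
    have h1a := h1 a (Finset.mem_insert_self _ _)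
    have ih' := ih (fun i hi => h0 i (Finset.mem_insert_of_mem hi))
      (fun i hi => h1 i (Finset.mem_insert_of_mem hi))
    have hs : 0 ≤ ∑ i ∈ s, e i := Finset.sum_nonneg fun i hi => h0 i (Finset.mem_insert_of_mem hi)
    nlinarith [mul_le_mul_of_nonneg_left ih' (sub_nonneg.2 h1a), mul_nonneg h0a hs]

variable {ι κ : Type*} [Fintype ι] [DecidableEq ι] [Fintype κ]

theorem one_sub_trace_le_abs_det {Q : Matrix ι ι ℝ} (hQ : Q.PosSemidef) :
    1 - Q.trace ≤ |(1 - Q).det| := by
  have h1 : (1 - Q).det = ∏ i, (1 - hQ.1.eigenvalues i) := by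
    have h := Matrix.eval_charpoly Q 1
    rw [hQ.1.charpoly_eq, Polynomial.eval_prod] at h
    simp only [Polynomial.eval_sub, Polynomial.eval_X, Polynomial.eval_C, map_one] at h
    rw [← h]
    rfl
  have h2 : Q.trace = ∑ i, hQ.1.eigenvalues i := by
    have := hQ.1.trace_eq_sum_eigenvalues
    simpa using this
  rw [h1, h2]
  have he : ∀ i, 0 ≤ hQ.1.eigenvalues i := hQ.eigenvalues_nonneg
  by_cases hS : ∑ i, hQ.1.eigenvalues i ≤ 1
  · refine le_trans ?_ (le_abs_self _)
    refine one_sub_sum_le_prod _ _ (fun i _ => he i) fun i _ => ?_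
    exact (Finset.single_le_sum (fun j _ => he j) (Finset.mem_univ i)).trans hS
  · have := abs_nonneg (∏ i, (1 - hQ.1.eigenvalues i))
    linarith

/-- The matrix `∑ a_k v_k v_kᵀ`. -/
def covM (a : κ → ℝ) (v : κ → ι → ℝ) : Matrix ι ι ℝ := ∑ k, a k • vecMulVec (v k) (v k)

theorem covM_apply (a : κ → ℝ) (v : κ → ι → ℝ) (i j : ι) :
    covM a v i j = ∑ k, a k * (v k i * v k j) := by
  unfold covM
  rw [Matrix.sum_apply]
  simp [vecMulVec_apply]

theorem covM_posSemidef {a : κ → ℝ} (ha : ∀ k, 0 ≤ a k) (v : κ → ι → ℝ) :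
    (covM a v).PosSemidef := by
  unfold covM
  refine Matrix.posSemidef_sum _ fun k _ => ?_
  refine Matrix.PosSemidef.smul ?_ (ha k)
  have := Matrix.posSemidef_vecMulVec_self_star (v k)
  simpa using this

theorem covM_trace (a : κ → ℝ) (v : κ → ι → ℝ) :
    (covM a v).trace = ∑ k, a k * ∑ i, v k i ^ 2 := by
  unfold Matrix.trace
  simp only [diag_apply, covM_apply, Finset.mul_sum]
  rw [Finset.sum_comm]
  exact Finset.sum_congr rfl fun k _ => Finset.sum_congr rfl fun i _ => by ring

/-- The factorisation of the Jacobian. -/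
theorem det_factor {a : κ → ℝ} {α β : ι → ℝ} {h : κ → ι → ℝ} (ha1 : ∑ k, a k = 1)
    (hαα : ∑ i, α i * α i = 1) (hαβ : ∑ i, β i * α i = 1) (hαh : ∀ k, ∑ i, h k i * α i = 1)
    (hh : ∀ i, ∑ k, a k * h k i = α i) :
    (1 + vecMulVec α β - covM a h).det = (1 - covM a (fun k i => h k i - α i)).det := by
  set Q := covM a (fun k i => h k i - α i) with hQ
  have hQij : ∀ i j, Q i j = covM a h i j - α i * α j := by
    intro i j
    rw [hQ, covM_apply, covM_apply]
    have e : ∀ k, a k * ((h k i - α i) * (h k j - α j)) =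
        a k * (h k i * h k j) - (a k * h k i) * α j - (a k * h k j) * α i + a k * (α i * α j) := by
      intro k; ring
    simp only [e]
    rw [Finset.sum_add_distrib, Finset.sum_sub_distrib, Finset.sum_sub_distrib,
      ← Finset.sum_mul, ← Finset.sum_mul, ← Finset.sum_mul, hh, hh, ha1]
    ring
  have hQα : ∀ i, ∑ l, Q i l * α l = 0 := by
    intro i
    have e : ∀ l, Q i l * α l = ∑ k, (a k * (h k i - α i)) * (h k l * α l - α l * α l) := by
      intro l
      rw [hQ, covM_apply, Finset.sum_mul]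
      exact Finset.sum_congr rfl fun k _ => by ring
    simp only [e]
    rw [Finset.sum_comm]
    refine Finset.sum_eq_zero fun k _ => ?_
    rw [← Finset.mul_sum, Finset.sum_sub_distrib, hαh, hαα]
    ring
  have hfac : (1 + vecMulVec α β - covM a h) = (1 - Q) * (1 + vecMulVec α (fun j => β j - α j)) := by
    rw [Matrix.mul_add, Matrix.mul_one, Matrix.sub_mul, Matrix.one_mul]
    ext i j
    simp only [Matrix.add_apply, Matrix.sub_apply, vecMulVec_apply, Matrix.mul_apply]
    have e : ∑ l, Q i l * (α l * (β j - α j)) = 0 := by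
      have : ∀ l, Q i l * (α l * (β j - α j)) = Q i l * α l * (β j - α j) := fun l => by ring
      simp only [this]
      rw [← Finset.sum_mul, hQα, zero_mul]
    rw [e, hQij]
    ring
  rw [hfac, Matrix.det_mul]
  have hd : (1 + vecMulVec α (fun j => β j - α j)).det = 1 := by
    have h1 := Matrix.det_one_add_replicateCol_mul_replicateRow (ι := Unit) α (fun j => β j - α j)
    have h2 : replicateCol Unit α * replicateRow Unit (fun j => β j - α j)
        = vecMulVec α (fun j => β j - α j) := by
      ext i j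
      simp [Matrix.mul_apply, vecMulVec_apply]
    rw [h2] at h1
    rw [h1]
    simp only [dotProduct, sub_mul, Finset.sum_sub_distrib]
    rw [hαβ, hαα]
    norm_num
  rw [hd, mul_one]

end Pf31f09
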