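import Pool.Agent.Lib.Pf31f09.JacTV

/-!
The explicit bound for the near-identity map.
-/

open MeasureTheory ProbabilityTheory Finset

noncomputable section

namespace Pf31f09

variable {ι κ : Type*} [Fintype ι] [Fintype κ]

/-- The bounding function. -/
def BJ (a : κ → ℝ) (b : κ → ι → ℝ) (n θ : ℝ) (y : ι → ℝ) : ℝ :=
  4 / n ^ 2 * qz (fun _ => 1) y ^ 2 + 16 / n ^ 2 * ∑ k, qz (fun i => b k i - 1) y ^ 2
    + 24 / n * ∑ k, a k * ∑ i, (b k i - 1) ^ 2 * y i ^ 2
    + 1 / n * ∑ k, a k * (θ * qz (fun i => b k i - 1) y ^ 2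
        + qz (fun i => b k i / wtJ a b i) y ^ 2 / θ)
    + 24 / n * ∑ k, a k * qz (fun i => b k i - 1) y ^ 2

theorem sub_log_le {x : ℝ} (hx : -(1/3) ≤ x) : x - Real.log (1 + x) ≤ 3 / 2 * x ^ 2 := by
  have h1 : 0 < 1 + x := by linarith
  have h2 : -Real.log (1 + x) ≤ (1 + x)⁻¹ - 1 := by
    rw [← Real.log_inv]
    exact Real.log_le_sub_one_of_pos (inv_pos.2 h1)
  have h3 : x + ((1 + x)⁻¹ - 1) = x ^ 2 / (1 + x) := by field_simp; ring
  have h4 : x ^ 2 / (1 + x) ≤ 3 / 2 * x ^ 2 := by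
    rw [div_le_iff₀ h1]; nlinarith [sq_nonneg x]
  linarith

theorem sub_log_nonneg {x : ℝ} (hx : -(1/3) ≤ x) : 0 ≤ x - Real.log (1 + x) := by
  have := Real.log_le_sub_one_of_pos (show 0 < 1 + x by linarith)
  linarith

theorem JH.en_eq {a : κ → ℝ} {b : κ → ι → ℝ} (H : JH a b) (y : ι → ℝ) (k : κ) :
    en (b k) y = en1 y + qz (fun i => b k i - 1) y := by
  unfold en en1 qz
  rw [← Finset.sum_add_distrib]
  have h1 : ∑ i, (b k i - 1) = 0 := by
    rw [Finset.sum_sub_distrib, H.b1]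
    simp
  have h2 : ∑ i, (y i ^ 2 + (b k i - 1) * (y i ^ 2 - 1))
      = ∑ i, b k i * y i ^ 2 - ∑ i, (b k i - 1) := by
    rw [← Finset.sum_sub_distrib]
    exact Finset.sum_congr rfl fun i _ => by ring
  rw [h2, h1, sub_zero]

theorem en1_eq (y : ι → ℝ) : en1 y = Fintype.card ι + qz (fun _ => 1) y := by
  unfold en1 qz
  simp [Finset.sum_sub_distrib]

/-- Variance bound for weighted averages. -/
theorem var_le {a : κ → ℝ} (ha1 : ∑ k, a k = 1) (x : κ → ℝ) {m : ℝ}
    (hm : m = ∑ k, a k * x k) (c : ℝ) :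
    ∑ k, a k * (x k - m) ^ 2 ≤ ∑ k, a k * (x k - c) ^ 2 := by
  have e : ∑ k, a k * (x k - c) ^ 2 = ∑ k, a k * (x k - m) ^ 2 + (m - c) ^ 2 := by
    have e1 : ∀ k, a k * (x k - c) ^ 2 = a k * (x k - m) ^ 2
        + (2 * (m - c) * (a k * x k) - (2 * (m - c) * m - (m - c) ^ 2) * a k) := by
      intro k; ring
    simp only [e1]
    rw [Finset.sum_add_distrib, Finset.sum_sub_distrib, ← Finset.mul_sum, ← Finset.mul_sum, ha1,
      ← hm]
    ring
  rw [e]
  have := sq_nonneg (m - c)
  linarith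

theorem BJ_nonneg_terms {a : κ → ℝ} {b : κ → ι → ℝ} (H : JH a b) {n θ : ℝ} (hn : 0 < n)
    (hθ : 0 < θ) (y : ι → ℝ) :
    0 ≤ 4 / n ^ 2 * qz (fun _ => 1) y ^ 2 ∧
    0 ≤ 16 / n ^ 2 * ∑ k, qz (fun i => b k i - 1) y ^ 2 ∧
    0 ≤ 24 / n * ∑ k, a k * ∑ i, (b k i - 1) ^ 2 * y i ^ 2 ∧
    0 ≤ 1 / n * ∑ k, a k * (θ * qz (fun i => b k i - 1) y ^ 2
        + qz (fun i => b k i / wtJ a b i) y ^ 2 / θ) ∧
    0 ≤ 24 / n * ∑ k, a k * qz (fun i => b k i - 1) y ^ 2 := by
  refine ⟨by positivity, ?_, ?_, ?_, ?_⟩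
  · exact mul_nonneg (by positivity) (Finset.sum_nonneg fun k _ => sq_nonneg _)
  · exact mul_nonneg (by positivity) (Finset.sum_nonneg fun k _ => mul_nonneg (H.a0 k)
      (Finset.sum_nonneg fun i _ => by positivity))
  · exact mul_nonneg (by positivity) (Finset.sum_nonneg fun k _ => mul_nonneg (H.a0 k)
      (by positivity))
  · exact mul_nonneg (by positivity) (Finset.sum_nonneg fun k _ => mul_nonneg (H.a0 k)
      (sq_nonneg _))

theorem JH.pointwise [Nonempty ι] {a : κ → ℝ} {b : κ → ι → ℝ} (H : JH a b) {n θ : ℝ}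
    (hn : n = Fintype.card ι) (hθ : 0 < θ) {y : ι → ℝ} (hy : ∀ i, y i ≠ 0) :
    min 1 (tauJ a b y + |MJ a b y|) ≤ BJ a b n θ y := by
  have hn0 : 0 < n := by
    rw [hn]; exact_mod_cast Fintype.card_pos
  obtain ⟨t1, t2, t3, t4, t5⟩ := BJ_nonneg_terms H hn0 hθ y
  set N := en1 y with hN
  set S : κ → ℝ := fun k => qz (fun i => b k i - 1) y with hS
  have hNpos : 0 < N := en1_pos hy
  have hen : ∀ k, en (b k) y = N + S k := fun k => H.en_eq y k
  by_cases hA : n / 2 ≤ N
  swap
  · -- N small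
    push Not at hA
    refine (min_le_left _ _).trans ?_
    unfold BJ
    have h1 : N = n + qz (fun _ => 1) y := by rw [hn]; exact en1_eq y
    have h2 : 1 ≤ 4 / n ^ 2 * qz (fun _ => 1) y ^ 2 := by
      rw [div_mul_eq_mul_div, le_div_iff₀ (by positivity)]
      nlinarith
    linarith
  by_cases hB : ∀ k, |S k| ≤ N / 2
  swap
  · push Not at hB
    obtain ⟨k, hk⟩ := hB
    refine (min_le_left _ _).trans ?_
    unfold BJ
    have h2 : 1 ≤ 16 / n ^ 2 * ∑ k, qz (fun i => b k i - 1) y ^ 2 := by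
      have h3 : S k ^ 2 ≤ ∑ k, qz (fun i => b k i - 1) y ^ 2 :=
        Finset.single_le_sum (f := fun k => qz (fun i => b k i - 1) y ^ 2)
          (fun j _ => sq_nonneg _) (Finset.mem_univ k)
      have h4 : (n / 4) ^ 2 ≤ S k ^ 2 := by
        rw [← sq_abs (S k)]
        apply pow_le_pow_left₀ (by positivity)
        linarith
      rw [div_mul_eq_mul_div, le_div_iff₀ (by positivity)]
      nlinarith
    linarith
  refine (min_le_right _ _).trans ?_
  -- the good event
  set u : κ → ℝ := fun k => N / en (b k) y with hu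
  have henpos : ∀ k, 0 < en (b k) y := H.en_pos hy
  have huS : ∀ k, u k * (N + S k) = N := by
    intro k
    rw [hu, ← hen k]
    exact div_mul_cancel₀ _ (henpos k).ne'
  have hulow : ∀ k, 2 / 3 ≤ u k := by
    intro k
    have h1 := huS k
    have h2 := (abs_le.1 (hB k)).2
    have h3 : 0 < N + S k := by rw [← hen k]; exact henpos k
    have h4 : N ≤ u k * (3 / 2 * N) := by
      rw [← h1]
      have : 0 ≤ u k := (div_pos hNpos (henpos k)).le
      nlinarith
    nlinarith
  have huhigh : ∀ k, u k ≤ 2 := by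
    intro k
    have h1 := huS k
    have h2 := (abs_le.1 (hB k)).1
    have h3 : 0 ≤ u k := (div_pos hNpos (henpos k)).le
    have h4 : u k * (N / 2) ≤ N := by
      rw [← h1]
      have : N / 2 ≤ N + S k := by linarith
      nlinarith
    nlinarith
  have hu1 : ∀ k, |u k - 1| ≤ 4 / n * |S k| := by
    intro k
    have h1 : u k - 1 = -(u k * (S k / N)) := by
      have := huS k
      field_simp
      linarith
    have hu0 : 0 ≤ u k := (div_pos hNpos (henpos k)).le
    rw [h1, abs_neg, abs_mul, abs_of_nonneg hu0, abs_div, abs_of_pos hNpos]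
    have h2 : |S k| / N ≤ |S k| / (n / 2) :=
      div_le_div_of_nonneg_left (abs_nonneg _) (by positivity) hA
    calc u k * (|S k| / N) ≤ 2 * (|S k| / (n / 2)) := by
          apply mul_le_mul (huhigh k) h2 (by positivity) (by norm_num)
      _ = 4 / n * |S k| := by field_simp; ring
  -- lambda
  have hlam : ∀ i, lamJ a b y i = ∑ k, a k * (b k i * u k) := by
    intro i
    unfold lamJ
    rw [Finset.mul_sum]
    refine Finset.sum_congr rfl fun k _ => ?_
    rw [hu, ← hN]
    ring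
  have hw : ∀ i, 1 / 2 ≤ wtJ a b i := H.half
  have hlamlow : ∀ i, 2 / 3 * wtJ a b i ≤ lamJ a b y i := by
    intro i
    rw [hlam]
    unfold wtJ
    rw [Finset.mul_sum]
    refine Finset.sum_le_sum fun k _ => ?_
    have h1 := mul_nonneg (H.a0 k) (H.b0 k i)
    nlinarith [hulow k]
  have hlam3 : ∀ i, 1 / 3 ≤ lamJ a b y i := fun i => by linarith [hlamlow i, hw i]
  have hkap : ∀ i, -(1/3) ≤ kapJ a b y i := by
    intro i
    unfold kapJ
    have h1 := hlamlow i
    have h2 := hw i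
    have h3 : 2 / 3 ≤ lamJ a b y i / wtJ a b i := by
      rw [le_div_iff₀ (by linarith)]; linarith
    linarith
  have hkapeq : ∀ i, kapJ a b y i = ∑ k, a k * b k i / wtJ a b i * (u k - 1) := by
    intro i
    have h2 : wtJ a b i ≠ 0 := by linarith [hw i]
    unfold kapJ
    rw [hlam]
    have e : ∀ k, a k * b k i / wtJ a b i * (u k - 1)
        = (a k * (b k i * u k)) / wtJ a b i - (a k * b k i) / wtJ a b i := by
      intro k; ring
    simp only [e]
    rw [Finset.sum_sub_distrib, ← Finset.sum_div, ← Finset.sum_div]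
    congr 1
    change 1 = wtJ a b i / wtJ a b i
    exact (div_self h2).symm
  have hwsum : ∀ i, ∑ k, a k * b k i / wtJ a b i = 1 := by
    intro i
    have h2 : wtJ a b i ≠ 0 := by linarith [hw i]
    rw [← Finset.sum_div]
    exact div_self h2
  -- the trace term
  have hp : ∀ k, ∑ i, y i ^ 2 / N * (b k i - 1 - S k / N) ^ 2
      ≤ 2 / n * ∑ i, (b k i - 1) ^ 2 * y i ^ 2 := by
    intro k
    have hr : ∑ i, (b k i - 1) * y i ^ 2 = S k := by
      have h1 := hen k
      have h2 : ∑ i, (b k i - 1) * y i ^ 2 = en (b k) y - N := by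
        rw [hN]
        unfold en en1
        rw [← Finset.sum_sub_distrib]
        exact Finset.sum_congr rfl fun i _ => by ring
      rw [h2, h1]; ring
    have e : ∀ i, y i ^ 2 / N * (b k i - 1 - S k / N) ^ 2
        = 1 / N * ((b k i - 1) ^ 2 * y i ^ 2) - 2 * S k / N ^ 2 * ((b k i - 1) * y i ^ 2)
          + S k ^ 2 / N ^ 3 * y i ^ 2 := by
      intro i
      field_simp
      ring
    simp only [e]
    rw [Finset.sum_add_distrib, Finset.sum_sub_distrib, ← Finset.mul_sum, ← Finset.mul_sum,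
      ← Finset.mul_sum, hr]
    have hNN : ∑ i, y i ^ 2 = N := rfl
    rw [hNN]
    have h3 : S k ^ 2 / N ^ 3 * N = S k ^ 2 / N ^ 2 := by field_simp
    have h4 : 2 * S k / N ^ 2 * S k = 2 * (S k ^ 2 / N ^ 2) := by ring
    rw [h3, h4]
    have h5 : 0 ≤ S k ^ 2 / N ^ 2 := by positivity
    have h6 : 0 ≤ ∑ i, (b k i - 1) ^ 2 * y i ^ 2 := Finset.sum_nonneg fun i _ => by positivity
    have h7 : 1 / N ≤ 2 / n := by
      rw [div_le_div_iff₀ hNpos hn0]; linarith
    have h8 := mul_le_mul_of_nonneg_right h7 h6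
    linarith
  have htau : tauJ a b y ≤ 24 / n * ∑ k, a k * ∑ i, (b k i - 1) ^ 2 * y i ^ 2 := by
    have h1 : tauJ a b y ≤ ∑ i, y i ^ 2 / N * (3 * ∑ k, a k * (b k i * u k - lamJ a b y i) ^ 2) := by
      unfold tauJ
      have e : ∀ k, a k * ∑ i, y i ^ 2 / en1 y * ((b k i * (en1 y / en (b k) y)
          - lamJ a b y i) ^ 2 / lamJ a b y i)
          = ∑ i, y i ^ 2 / N * ((a k * (b k i * u k - lamJ a b y i) ^ 2) / lamJ a b y i) := by
        intro k
        rw [Finset.mul_sum]
        refine Finset.sum_congr rfl fun i _ => ?_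
        rw [hu, ← hN]
        ring
      simp only [e]
      rw [Finset.sum_comm]
      refine Finset.sum_le_sum fun i _ => ?_
      rw [← Finset.mul_sum, ← Finset.sum_div]
      refine mul_le_mul_of_nonneg_left ?_ (by positivity)
      have h3 : 0 ≤ ∑ k, a k * (b k i * u k - lamJ a b y i) ^ 2 :=
        Finset.sum_nonneg fun k _ => mul_nonneg (H.a0 k) (sq_nonneg _)
      rw [div_le_iff₀ (by linarith [hlam3 i])]
      nlinarith [hlam3 i]
    have h2 : ∀ i, ∑ k, a k * (b k i * u k - lamJ a b y i) ^ 2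
        ≤ 4 * ∑ k, a k * (b k i - 1 - S k / N) ^ 2 := by
      intro i
      refine (var_le H.a1 (fun k => b k i * u k) (hlam i) 1).trans ?_
      rw [Finset.mul_sum]
      refine Finset.sum_le_sum fun k _ => ?_
      have h3 : b k i * u k - 1 = u k * (b k i - 1 - S k / N) := by
        have := huS k
        field_simp
        linarith
      rw [h3, mul_pow]
      have h4 : u k ^ 2 ≤ 4 := by nlinarith [hulow k, huhigh k]
      have h5 := mul_nonneg (H.a0 k) (sq_nonneg (b k i - 1 - S k / N))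
      nlinarith
    calc tauJ a b y ≤ ∑ i, y i ^ 2 / N * (3 * ∑ k, a k * (b k i * u k - lamJ a b y i) ^ 2) := h1
      _ ≤ ∑ i, y i ^ 2 / N * (3 * (4 * ∑ k, a k * (b k i - 1 - S k / N) ^ 2)) := by
          refine Finset.sum_le_sum fun i _ => mul_le_mul_of_nonneg_left ?_ (by positivity)
          linarith [h2 i]
      _ = 12 * ∑ k, a k * ∑ i, y i ^ 2 / N * (b k i - 1 - S k / N) ^ 2 := by
          simp only [Finset.mul_sum]
          rw [Finset.sum_comm]
          exact Finset.sum_congr rfl fun k _ => Finset.sum_congr rfl fun i _ => by ring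
      _ ≤ 12 * ∑ k, a k * (2 / n * ∑ i, (b k i - 1) ^ 2 * y i ^ 2) := by
          refine mul_le_mul_of_nonneg_left ?_ (by norm_num)
          exact Finset.sum_le_sum fun k _ => mul_le_mul_of_nonneg_left (hp k) (H.a0 k)
      _ = 24 / n * ∑ k, a k * ∑ i, (b k i - 1) ^ 2 * y i ^ 2 := by
          rw [Finset.mul_sum, Finset.mul_sum]
          exact Finset.sum_congr rfl fun k _ => by ring
  -- the exponent
  have hM1 : MJ a b y = 1 / 2 * ∑ k, a k * (u k - 1) * qz (fun i => b k i / wtJ a b i) y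
      + 1 / 2 * ∑ i, (kapJ a b y i - Real.log (1 + kapJ a b y i)) := by
    unfold MJ
    rw [← mul_add]
    congr 1
    have e : ∀ i, y i ^ 2 * kapJ a b y i - Real.log (1 + kapJ a b y i)
        = (y i ^ 2 - 1) * kapJ a b y i + (kapJ a b y i - Real.log (1 + kapJ a b y i)) := by
      intro i; ring
    simp only [e]
    rw [Finset.sum_add_distrib]
    congr 1
    have e2 : ∀ i, (y i ^ 2 - 1) * kapJ a b y i
        = ∑ k, a k * (u k - 1) * (b k i / wtJ a b i * (y i ^ 2 - 1)) := by
      intro i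
      rw [hkapeq, Finset.mul_sum]
      exact Finset.sum_congr rfl fun k _ => by ring
    simp only [e2]
    rw [Finset.sum_comm]
    refine Finset.sum_congr rfl fun k _ => ?_
    unfold qz
    rw [Finset.mul_sum]
  have hkap2 : ∑ i, (kapJ a b y i - Real.log (1 + kapJ a b y i))
      ≤ 48 / n * ∑ k, a k * S k ^ 2 := by
    have h1 : ∀ i, kapJ a b y i - Real.log (1 + kapJ a b y i)
        ≤ 3 * ∑ k, a k * b k i * (u k - 1) ^ 2 := by
      intro i
      refine (sub_log_le (hkap i)).trans ?_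
      have hwi : 0 < wtJ a b i := by linarith [hw i]
      have h2 : kapJ a b y i ^ 2 ≤ ∑ k, a k * b k i / wtJ a b i * (u k - 1) ^ 2 := by
        have h4 : ∑ k, a k * b k i / wtJ a b i * (u k - 1 - kapJ a b y i) ^ 2
            = ∑ k, a k * b k i / wtJ a b i * (u k - 1) ^ 2 - kapJ a b y i ^ 2 := by
          have e : ∀ k, a k * b k i / wtJ a b i * (u k - 1 - kapJ a b y i) ^ 2
              = a k * b k i / wtJ a b i * (u k - 1) ^ 2
                - (2 * kapJ a b y i * (a k * b k i / wtJ a b i * (u k - 1))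
                  - kapJ a b y i ^ 2 * (a k * b k i / wtJ a b i)) := by
            intro k; ring
          simp only [e]
          rw [Finset.sum_sub_distrib, Finset.sum_sub_distrib, ← Finset.mul_sum, ← Finset.mul_sum,
            hwsum, ← hkapeq]
          ring
        have h5 : 0 ≤ ∑ k, a k * b k i / wtJ a b i * (u k - 1 - kapJ a b y i) ^ 2 :=
          Finset.sum_nonneg fun k _ => mul_nonneg
            (div_nonneg (mul_nonneg (H.a0 k) (H.b0 k i)) hwi.le) (sq_nonneg _)
        linarith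
      have h6 : ∑ k, a k * b k i / wtJ a b i * (u k - 1) ^ 2
          ≤ 2 * ∑ k, a k * b k i * (u k - 1) ^ 2 := by
        rw [Finset.mul_sum]
        refine Finset.sum_le_sum fun k _ => ?_
        have h7 := mul_nonneg (mul_nonneg (H.a0 k) (H.b0 k i)) (sq_nonneg (u k - 1))
        have h8 : a k * b k i / wtJ a b i * (u k - 1) ^ 2
            = (a k * b k i * (u k - 1) ^ 2) / wtJ a b i := by ring
        rw [h8, div_le_iff₀ hwi]
        nlinarith [hw i]
      linarith
    calc ∑ i, (kapJ a b y i - Real.log (1 + kapJ a b y i))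
        ≤ ∑ i, 3 * ∑ k, a k * b k i * (u k - 1) ^ 2 := Finset.sum_le_sum fun i _ => h1 i
      _ = 3 * ∑ k, a k * (u k - 1) ^ 2 * ∑ i, b k i := by
          rw [← Finset.mul_sum, Finset.sum_comm]
          congr 1
          refine Finset.sum_congr rfl fun k _ => ?_
          rw [Finset.mul_sum]
          exact Finset.sum_congr rfl fun i _ => by ring
      _ = 3 * ∑ k, a k * (u k - 1) ^ 2 * n := by
          simp only [H.b1, ← hn]
      _ ≤ 3 * ∑ k, a k * (16 / n ^ 2 * S k ^ 2) * n := by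
          refine mul_le_mul_of_nonneg_left ?_ (by norm_num)
          refine Finset.sum_le_sum fun k _ => ?_
          refine mul_le_mul_of_nonneg_right ?_ hn0.le
          refine mul_le_mul_of_nonneg_left ?_ (H.a0 k)
          have h2 := pow_le_pow_left₀ (abs_nonneg _) (hu1 k) 2
          rw [sq_abs, mul_pow, sq_abs, div_pow] at h2
          norm_num at h2
          exact h2
      _ = 48 / n * ∑ k, a k * S k ^ 2 := by
          rw [Finset.mul_sum, Finset.mul_sum]
          refine Finset.sum_congr rfl fun k _ => ?_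
          field_simp
          ring
  have hM2 : |∑ k, a k * (u k - 1) * qz (fun i => b k i / wtJ a b i) y| ≤
      2 / n * ∑ k, a k * (θ * S k ^ 2 + qz (fun i => b k i / wtJ a b i) y ^ 2 / θ) := by
    refine (Finset.abs_sum_le_sum_abs _ _).trans ?_
    rw [Finset.mul_sum]
    refine Finset.sum_le_sum fun k _ => ?_
    set Z := qz (fun i => b k i / wtJ a b i) y with hZ
    rw [abs_mul, abs_mul, abs_of_nonneg (H.a0 k)]
    have h1 : |u k - 1| * |Z| ≤ 4 / n * (|S k| * |Z|) := by
      rw [← mul_assoc]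
      exact mul_le_mul_of_nonneg_right (hu1 k) (abs_nonneg _)
    have h2 : 2 * (|S k| * |Z|) ≤ θ * S k ^ 2 + Z ^ 2 / θ := by
      have h3 : 0 ≤ (θ * |S k| - |Z|) ^ 2 / θ := by positivity
      have h4 : (θ * |S k| - |Z|) ^ 2 / θ = θ * |S k| ^ 2 - 2 * (|S k| * |Z|) + |Z| ^ 2 / θ := by
        field_simp
        ring
      rw [h4, sq_abs, sq_abs] at h3
      linarith
    calc a k * |u k - 1| * |Z| = a k * (|u k - 1| * |Z|) := by ring
      _ ≤ a k * (4 / n * (|S k| * |Z|)) := mul_le_mul_of_nonneg_left h1 (H.a0 k)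
      _ = a k * (2 / n * (2 * (|S k| * |Z|))) := by ring
      _ ≤ a k * (2 / n * (θ * S k ^ 2 + Z ^ 2 / θ)) := by
          refine mul_le_mul_of_nonneg_left ?_ (H.a0 k)
          exact mul_le_mul_of_nonneg_left h2 (by positivity)
      _ = 2 / n * (a k * (θ * S k ^ 2 + Z ^ 2 / θ)) := by ring
  have hkap0 : 0 ≤ ∑ i, (kapJ a b y i - Real.log (1 + kapJ a b y i)) :=
    Finset.sum_nonneg fun i _ => sub_log_nonneg (hkap i)
  have hM : |MJ a b y| ≤ 1 / n * ∑ k, a k * (θ * S k ^ 2
      + qz (fun i => b k i / wtJ a b i) y ^ 2 / θ) + 24 / n * ∑ k, a k * S k ^ 2 := by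
    rw [hM1]
    refine (abs_add_le _ _).trans ?_
    rw [abs_mul, abs_mul, abs_of_nonneg hkap0, abs_of_nonneg (by norm_num : (0:ℝ) ≤ 1/2)]
    have e1 : 1 / n * ∑ k, a k * (θ * S k ^ 2 + qz (fun i => b k i / wtJ a b i) y ^ 2 / θ)
        = 1 / 2 * (2 / n * ∑ k, a k * (θ * S k ^ 2
          + qz (fun i => b k i / wtJ a b i) y ^ 2 / θ)) := by ring
    have e2 : 24 / n * ∑ k, a k * S k ^ 2 = 1 / 2 * (48 / n * ∑ k, a k * S k ^ 2) := by ring
    rw [e1, e2]
    exact add_le_add (mul_le_mul_of_nonneg_left hM2 (by norm_num))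
      (mul_le_mul_of_nonneg_left hkap2 (by norm_num))
  unfold BJ
  simp only [hS] at hM
  linarith

theorem integral_BJ [Nonempty ι] {a : κ → ℝ} {b : κ → ι → ℝ} (H : JH a b) {n θ P Q : ℝ}
    (hn : n = Fintype.card ι) (hθ : 0 < θ) (hP : ∑ k, a k * ∑ i, (b k i - 1) ^ 2 ≤ P)
    (hQ : ∑ k, ∑ i, (b k i - 1) ^ 2 ≤ Q) :
    Measurable (BJ a b n θ) ∧ Integrable (BJ a b n θ) (gpi ι) ∧
    ∫ y, BJ a b n θ y ∂(gpi ι) ≤ 8 / n + 32 * Q / n ^ 2 + 72 * P / n
      + 2 / n * (θ * P + 4 * (n + P) / θ) := by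
  have hn0 : 0 < n := by
    rw [hn]; exact_mod_cast Fintype.card_pos
  have hqm : ∀ c : ι → ℝ, Measurable (qz c) := by
    intro c; unfold qz; fun_prop
  have hqi : ∀ c : ι → ℝ, Integrable (fun y => qz c y ^ 2) (gpi ι) := fun c =>
    (memLp_qz c).integrable_sq
  have hei : ∀ k, Integrable (fun y : ι → ℝ => ∑ i, (b k i - 1) ^ 2 * y i ^ 2) (gpi ι) := fun k =>
    (integral_en (fun i => (b k i - 1) ^ 2)).1
  have i1 : Integrable (fun y : ι → ℝ => 4 / n ^ 2 * qz (fun _ => 1) y ^ 2) (gpi ι) :=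
    (hqi _).const_mul _
  have i2 : Integrable (fun y : ι → ℝ => 16 / n ^ 2 * ∑ k, qz (fun i => b k i - 1) y ^ 2)
      (gpi ι) := (integrable_finsetSum _ fun k _ => hqi _).const_mul _
  have i3 : Integrable (fun y : ι → ℝ => 24 / n * ∑ k, a k * ∑ i, (b k i - 1) ^ 2 * y i ^ 2)
      (gpi ι) := (integrable_finsetSum _ fun k _ => (hei k).const_mul _).const_mul _
  have i4a : ∀ k, Integrable (fun y : ι → ℝ => θ * qz (fun i => b k i - 1) y ^ 2
        + qz (fun i => b k i / wtJ a b i) y ^ 2 / θ) (gpi ι) := fun k =>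
    ((hqi _).const_mul _).add ((hqi _).div_const _)
  have i4 : Integrable (fun y : ι → ℝ => 1 / n * ∑ k, a k * (θ * qz (fun i => b k i - 1) y ^ 2
        + qz (fun i => b k i / wtJ a b i) y ^ 2 / θ)) (gpi ι) :=
    (integrable_finsetSum _ fun k _ => (i4a k).const_mul _).const_mul _
  have i5 : Integrable (fun y : ι → ℝ => 24 / n * ∑ k, a k * qz (fun i => b k i - 1) y ^ 2)
      (gpi ι) := (integrable_finsetSum _ fun k _ => (hqi _).const_mul _).const_mul _
  refine ⟨?_, ?_, ?_⟩
  · unfold BJ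
    have hq2 : ∀ c : ι → ℝ, Measurable (fun y => qz c y ^ 2) := fun c => (hqm c).pow_const 2
    refine Measurable.add (Measurable.add (Measurable.add (Measurable.add ?_ ?_) ?_) ?_) ?_
    · exact (hq2 _).const_mul _
    · exact (Finset.measurable_sum _ fun k _ => hq2 _).const_mul _
    · refine (Finset.measurable_sum _ fun k _ => ?_).const_mul _
      exact Measurable.const_mul (by fun_prop) _
    · refine (Finset.measurable_sum _ fun k _ => ?_).const_mul _
      exact (((hq2 _).const_mul _).add ((hq2 _).div_const _)).const_mul _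
    · refine (Finset.measurable_sum _ fun k _ => ?_).const_mul _
      exact (hq2 _).const_mul _
  · exact (((i1.add i2).add i3).add i4).add i5
  · unfold BJ
    have j2 : Integrable (fun y : ι → ℝ => 4 / n ^ 2 * qz (fun _ => 1) y ^ 2
        + 16 / n ^ 2 * ∑ k, qz (fun i => b k i - 1) y ^ 2) (gpi ι) := i1.add i2
    have j3 : Integrable (fun y : ι → ℝ => 4 / n ^ 2 * qz (fun _ => 1) y ^ 2
        + 16 / n ^ 2 * ∑ k, qz (fun i => b k i - 1) y ^ 2
        + 24 / n * ∑ k, a k * ∑ i, (b k i - 1) ^ 2 * y i ^ 2) (gpi ι) := j2.add i3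
    have j4 : Integrable (fun y : ι → ℝ => 4 / n ^ 2 * qz (fun _ => 1) y ^ 2
        + 16 / n ^ 2 * ∑ k, qz (fun i => b k i - 1) y ^ 2
        + 24 / n * ∑ k, a k * ∑ i, (b k i - 1) ^ 2 * y i ^ 2
        + 1 / n * ∑ k, a k * (θ * qz (fun i => b k i - 1) y ^ 2
        + qz (fun i => b k i / wtJ a b i) y ^ 2 / θ)) (gpi ι) := j3.add i4
    rw [integral_add j4 i5, integral_add j3 i4, integral_add j2 i3, integral_add i1 i2]
    have e1 : ∫ y, 4 / n ^ 2 * qz (fun _ : ι => 1) y ^ 2 ∂(gpi ι) = 8 / n := by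
      rw [integral_const_mul, integral_qz_sq]
      simp only [one_pow, Finset.sum_const, Finset.card_univ, nsmul_eq_mul, mul_one]
      rw [← hn]
      field_simp
      norm_num
    have e2 : ∫ y : ι → ℝ, 16 / n ^ 2 * ∑ k, qz (fun i => b k i - 1) y ^ 2 ∂(gpi ι)
        ≤ 32 * Q / n ^ 2 := by
      rw [integral_const_mul, integral_finsetSum _ fun k _ => hqi _]
      simp only [integral_qz_sq]
      rw [← Finset.mul_sum]
      have h1 : 16 / n ^ 2 * (2 * ∑ k, ∑ i, (b k i - 1) ^ 2)
          = 32 / n ^ 2 * ∑ k, ∑ i, (b k i - 1) ^ 2 := by ring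
      rw [h1]
      have h2 : 32 * Q / n ^ 2 = 32 / n ^ 2 * Q := by ring
      rw [h2]
      exact mul_le_mul_of_nonneg_left hQ (by positivity)
    have e3 : ∫ y : ι → ℝ, 24 / n * ∑ k, a k * ∑ i, (b k i - 1) ^ 2 * y i ^ 2 ∂(gpi ι)
        ≤ 24 * P / n := by
      rw [integral_const_mul, integral_finsetSum _ fun k _ => (hei k).const_mul _]
      simp only [integral_const_mul]
      have h0 : ∀ k, ∫ y : ι → ℝ, ∑ i, (b k i - 1) ^ 2 * y i ^ 2 ∂(gpi ι)
          = ∑ i, (b k i - 1) ^ 2 := fun k => (integral_en (fun i => (b k i - 1) ^ 2)).2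
      simp only [h0]
      have h2 : 24 * P / n = 24 / n * P := by ring
      rw [h2]
      exact mul_le_mul_of_nonneg_left hP (by positivity)
    have e5 : ∫ y : ι → ℝ, 24 / n * ∑ k, a k * qz (fun i => b k i - 1) y ^ 2 ∂(gpi ι)
        ≤ 48 * P / n := by
      rw [integral_const_mul, integral_finsetSum _ fun k _ => (hqi _).const_mul _]
      simp only [integral_const_mul, integral_qz_sq]
      have h1 : 24 / n * ∑ k, a k * (2 * ∑ i, (b k i - 1) ^ 2)
          = 48 / n * ∑ k, a k * ∑ i, (b k i - 1) ^ 2 := by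
        rw [Finset.mul_sum, Finset.mul_sum]
        exact Finset.sum_congr rfl fun k _ => by ring
      rw [h1]
      have h2 : 48 * P / n = 48 / n * P := by ring
      rw [h2]
      exact mul_le_mul_of_nonneg_left hP (by positivity)
    have e4 : ∫ y : ι → ℝ, 1 / n * ∑ k, a k * (θ * qz (fun i => b k i - 1) y ^ 2
        + qz (fun i => b k i / wtJ a b i) y ^ 2 / θ) ∂(gpi ι)
        ≤ 2 / n * (θ * P + 4 * (n + P) / θ) := by
      rw [integral_const_mul, integral_finsetSum _ fun k _ => (i4a k).const_mul _]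
      simp only [integral_const_mul]
      have h1 : ∀ k, ∫ y : ι → ℝ, (θ * qz (fun i => b k i - 1) y ^ 2
          + qz (fun i => b k i / wtJ a b i) y ^ 2 / θ) ∂(gpi ι)
          ≤ 2 * θ * ∑ i, (b k i - 1) ^ 2 + 8 / θ * (n + ∑ i, (b k i - 1) ^ 2) := by
        intro k
        rw [integral_add ((hqi _).const_mul _) ((hqi _).div_const _), integral_const_mul,
          integral_div, integral_qz_sq, integral_qz_sq]
        have h2 : ∑ i, (b k i / wtJ a b i) ^ 2 ≤ 4 * (n + ∑ i, (b k i - 1) ^ 2) := by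
          have h3 : n + ∑ i, (b k i - 1) ^ 2 = ∑ i, b k i ^ 2 := by
            have e : ∀ i, (b k i - 1) ^ 2 = b k i ^ 2 - (2 * b k i - 1) := by intro i; ring
            simp only [e]
            rw [Finset.sum_sub_distrib, Finset.sum_sub_distrib, ← Finset.mul_sum, H.b1]
            simp only [Finset.sum_const, Finset.card_univ, nsmul_eq_mul, mul_one]
            rw [← hn]
            ring
          rw [h3, Finset.mul_sum]
          refine Finset.sum_le_sum fun i _ => ?_
          have hwi := H.half i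
          have hwi' : 1 / 2 ≤ wtJ a b i := hwi
          rw [div_pow, div_le_iff₀ (by positivity)]
          have h4 : (1:ℝ) ≤ 4 * wtJ a b i ^ 2 := by nlinarith
          nlinarith [sq_nonneg (b k i)]
        have h5 : 2 * ∑ i, (b k i / wtJ a b i) ^ 2 / θ
            ≤ 8 / θ * (n + ∑ i, (b k i - 1) ^ 2) := by
          rw [← Finset.sum_div]
          have h6 := div_le_div_of_nonneg_right h2 hθ.le
          have h7 : 8 / θ * (n + ∑ i, (b k i - 1) ^ 2)
              = 2 * (4 * (n + ∑ i, (b k i - 1) ^ 2) / θ) := by ring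
          rw [h7]
          linarith
        have h6 : 2 * (∑ i, (b k i / wtJ a b i) ^ 2) / θ
            = 2 * ∑ i, (b k i / wtJ a b i) ^ 2 / θ := by
          rw [← Finset.sum_div]; ring
        rw [h6]
        linarith
      have h2 : ∑ k, a k * ∫ y : ι → ℝ, (θ * qz (fun i => b k i - 1) y ^ 2
          + qz (fun i => b k i / wtJ a b i) y ^ 2 / θ) ∂(gpi ι)
          ≤ ∑ k, a k * (2 * θ * ∑ i, (b k i - 1) ^ 2
            + 8 / θ * (n + ∑ i, (b k i - 1) ^ 2)) :=
        Finset.sum_le_sum fun k _ => mul_le_mul_of_nonneg_left (h1 k) (H.a0 k)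
      have h3 : ∑ k, a k * (2 * θ * ∑ i, (b k i - 1) ^ 2
            + 8 / θ * (n + ∑ i, (b k i - 1) ^ 2))
          = (2 * θ + 8 / θ) * ∑ k, a k * ∑ i, (b k i - 1) ^ 2 + 8 / θ * n := by
        have e : ∀ k, a k * (2 * θ * ∑ i, (b k i - 1) ^ 2
            + 8 / θ * (n + ∑ i, (b k i - 1) ^ 2))
            = (2 * θ + 8 / θ) * (a k * ∑ i, (b k i - 1) ^ 2) + 8 / θ * n * a k := by
          intro k; ring
        simp only [e]
        rw [Finset.sum_add_distrib, ← Finset.mul_sum, ← Finset.mul_sum, H.a1, mul_one]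
      have h4 : (2 * θ + 8 / θ) * ∑ k, a k * ∑ i, (b k i - 1) ^ 2 + 8 / θ * n
          ≤ (2 * θ + 8 / θ) * P + 8 / θ * n := by
        have := mul_le_mul_of_nonneg_left hP (by positivity : 0 ≤ 2 * θ + 8 / θ)
        linarith
      rw [h3] at h2
      have h5 := h2.trans h4
      calc 1 / n * ∑ k, a k * ∫ y : ι → ℝ, (θ * qz (fun i => b k i - 1) y ^ 2
          + qz (fun i => b k i / wtJ a b i) y ^ 2 / θ) ∂(gpi ι)
          ≤ 1 / n * ((2 * θ + 8 / θ) * P + 8 / θ * n) :=
            mul_le_mul_of_nonneg_left h5 (by positivity)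
        _ = 2 / n * (θ * P + 4 * (n + P) / θ) := by
            field_simp
            ring
    have e6 : 72 * P / n = 24 * P / n + 48 * P / n := by ring
    rw [e1, e6]
    linarith

/-- The Jacobian lemma, one-sided form. -/
theorem JH.tv_bound [Nonempty ι] {a : κ → ℝ} {b : κ → ι → ℝ} (H : JH a b) {n P Q : ℝ}
    (hn : n = Fintype.card ι) (hP0 : 0 < P) (hP : ∑ k, a k * ∑ i, (b k i - 1) ^ 2 ≤ P)
    (hQ : ∑ k, ∑ i, (b k i - 1) ^ 2 ≤ Q)
    {F : (ι → ℝ) → ℝ} (hF : Measurable F) (hF0 : ∀ x, 0 ≤ F x) (hF1 : ∀ x, F x ≤ 1) :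
    ∫ y, F (Th a b y) ∂(gpi ι) ≤ ∫ y, F (scl (fun i => wtJ a b i - 1) y) ∂(gpi ι)
      + (8 / n + 32 * Q / n ^ 2 + 80 * P / n + 8 * √(P / n)) := by
  have hn0 : 0 < n := by
    rw [hn]; exact_mod_cast Fintype.card_pos
  set θ : ℝ := 2 * √((n + P) / P) with hθ
  have hθ0 : 0 < θ := by positivity
  obtain ⟨hm, hi, hb⟩ := integral_BJ H hn hθ0 hP hQ
  have h := H.tv_upper hF hF0 hF1 hi hm (fun y hy => H.pointwise hn hθ0 hy)
  refine h.trans ?_
  have h1 : 2 / n * (θ * P + 4 * (n + P) / θ) ≤ 8 * P / n + 8 * √(P / n) := by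
    set s := √((n + P) / P) with hs
    have hs0 : 0 < s := by positivity
    have hs2 : s ^ 2 = (n + P) / P := Real.sq_sqrt (by positivity)
    have h2 : n + P = s ^ 2 * P := by rw [hs2]; field_simp
    have h3 : θ * P + 4 * (n + P) / θ = 4 * (s * P) := by
      rw [h2, hθ]
      field_simp
      ring
    have h4 : s * P = √(P * (n + P)) := by
      rw [eq_comm, Real.sqrt_eq_iff_eq_sq (by positivity) (by positivity), h2]
      ring
    have h5 : √(P * (n + P)) ≤ √(P * n) + P := by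
      rw [Real.sqrt_le_left (by positivity)]
      have h6 : √(P * n) ^ 2 = P * n := Real.sq_sqrt (by positivity)
      nlinarith [Real.sqrt_nonneg (P * n)]
    have h6 : √(P * n) = n * √(P / n) := by
      rw [Real.sqrt_eq_iff_eq_sq (by positivity) (by positivity), mul_pow,
        Real.sq_sqrt (by positivity)]
      field_simp
    rw [h3, h4]
    calc 2 / n * (4 * √(P * (n + P))) ≤ 2 / n * (4 * (n * √(P / n) + P)) := by
          refine mul_le_mul_of_nonneg_left ?_ (by positivity)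
          linarith
      _ = 8 * P / n + 8 * √(P / n) := by
          field_simp
          ring
  have h2 : 80 * P / n = 72 * P / n + 8 * P / n := by ring
  linarith

/-- The Jacobian lemma. -/
theorem JH.tv_main [Nonempty ι] {a : κ → ℝ} {b : κ → ι → ℝ} (H : JH a b) {n P Q : ℝ}
    (hn : n = Fintype.card ι) (hP : ∑ k, a k * ∑ i, (b k i - 1) ^ 2 ≤ P)
    (hQ : ∑ k, ∑ i, (b k i - 1) ^ 2 ≤ Q)
    {F : (ι → ℝ) → ℝ} (hF : Measurable F) (hF1 : ∀ x, |F x| ≤ 1) :
    |∫ y, F (Th a b y) ∂(gpi ι) - ∫ y, F (scl (fun i => wtJ a b i - 1) y) ∂(gpi ι)| ≤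
      2 * (8 / n + 32 * Q / n ^ 2 + 80 * P / n + 8 * √(P / n)) := by
  have hn0 : 0 < n := by
    rw [hn]; exact_mod_cast Fintype.card_pos
  have hP00 : 0 ≤ P := le_trans (Finset.sum_nonneg fun k _ => mul_nonneg (H.a0 k)
    (Finset.sum_nonneg fun i _ => sq_nonneg _)) hP
  have hmTh := measurable_Th a b
  have hms : Measurable (scl (fun i => wtJ a b i - 1) : (ι → ℝ) → (ι → ℝ)) :=
    measurable_scl.comp (measurable_const.prodMk measurable_id)
  have hFi : ∀ {g : (ι → ℝ) → (ι → ℝ)}, Measurable g →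
      Integrable (fun y => F (g y)) (gpi ι) := by
    intro g hg
    exact Integrable.of_bound (C := 1) (hF.comp hg).aestronglyMeasurable
      (Filter.Eventually.of_forall fun y => hF1 _)
  have key : ∀ P' > P, |∫ y, F (Th a b y) ∂(gpi ι)
      - ∫ y, F (scl (fun i => wtJ a b i - 1) y) ∂(gpi ι)| ≤
      2 * (8 / n + 32 * Q / n ^ 2 + 80 * P' / n + 8 * √(P' / n)) := by
    intro P' hP'
    have hP'0 : 0 < P' := lt_of_le_of_lt hP00 hP'
    have h1 := H.tv_bound hn hP'0 (hP.trans hP'.le) hQ (F := fun x => (1 + F x) / 2)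
      ((measurable_const.add hF).div_const 2)
      (fun x => by have := (abs_le.1 (hF1 x)).1; linarith)
      (fun x => by have := (abs_le.1 (hF1 x)).2; linarith)
    have h2 := H.tv_bound hn hP'0 (hP.trans hP'.le) hQ (F := fun x => (1 - F x) / 2)
      ((measurable_const.sub hF).div_const 2)
      (fun x => by have := (abs_le.1 (hF1 x)).2; linarith)
      (fun x => by have := (abs_le.1 (hF1 x)).1; linarith)
    simp only [integral_div] at h1 h2
    rw [integral_add (integrable_const _) (hFi hmTh), integral_add (integrable_const _) (hFi hms)]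
      at h1
    rw [integral_sub (integrable_const _) (hFi hmTh), integral_sub (integrable_const _) (hFi hms)]
      at h2
    simp only [integral_const, probReal_univ, one_smul] at h1 h2
    rw [abs_le]
    constructor <;> linarith
  have hcont : Filter.Tendsto (fun P' : ℝ => 2 * (8 / n + 32 * Q / n ^ 2 + 80 * P' / n
      + 8 * √(P' / n))) (nhdsWithin P (Set.Ioi P))
      (nhds (2 * (8 / n + 32 * Q / n ^ 2 + 80 * P / n + 8 * √(P / n)))) := by
    have : Continuous (fun P' : ℝ => 2 * (8 / n + 32 * Q / n ^ 2 + 80 * P' / n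
      + 8 * √(P' / n))) := by fun_prop
    exact (this.tendsto P).mono_left nhdsWithin_le_nhds
  refine ge_of_tendsto hcont ?_
  filter_upwards [self_mem_nhdsWithin] with P' hP'
  exact key P' hP'

end Pf31f09
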