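import Pool.Agent.Lib.Pf31f09.JacDet

/-!
The near-identity map `y ↦ y_i √(λ_i(y))`: derivative, determinant, injectivity.
-/

open Finset Matrix

noncomputable section

namespace Pf31f09

variable {ι κ : Type*} [Fintype ι] [Fintype κ]

/-- Weighted energy. -/
def en (b y : ι → ℝ) : ℝ := ∑ j, b j * y j ^ 2

/-- Total energy. -/
def en1 (y : ι → ℝ) : ℝ := ∑ j, y j ^ 2

/-- The multiplier. -/
def lamJ (a : κ → ℝ) (b : κ → ι → ℝ) (y : ι → ℝ) (i : ι) : ℝ :=
  en1 y * ∑ k, a k * (b k i / en (b k) y)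

/-- The map. -/
def Th (a : κ → ℝ) (b : κ → ι → ℝ) (y : ι → ℝ) : ι → ℝ := fun i => y i * √(lamJ a b y i)

/-- The matrix of the derivative. -/
def Dmat [DecidableEq ι] (a : κ → ℝ) (b : κ → ι → ℝ) (y : ι → ℝ) : Matrix ι ι ℝ := fun i j =>
  (if i = j then √(lamJ a b y i) else 0) + y i * y j / √(lamJ a b y i) *
    ((∑ k, a k * (b k i / en (b k) y)) - en1 y * ∑ k, a k * (b k i * b k j / en (b k) y ^ 2))

theorem hasFDerivAt_en (b y : ι → ℝ) : HasFDerivAt (en b)
    (∑ j, (2 * b j * y j) • (ContinuousLinearMap.proj (R := ℝ) (φ := fun _ : ι => ℝ) j)) y := by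
  unfold en
  refine HasFDerivAt.fun_sum fun j _ => ?_
  have h := ((hasFDerivAt_apply (𝕜 := ℝ) (F' := fun _ : ι => ℝ) j y).pow 2).const_mul (b j)
  refine h.congr_fderiv ?_
  ext v
  simp
  ring

theorem hasFDerivAt_en1 (y : ι → ℝ) : HasFDerivAt en1
    (∑ j, (2 * y j) • (ContinuousLinearMap.proj (R := ℝ) (φ := fun _ : ι => ℝ) j)) y := by
  have h := hasFDerivAt_en (fun _ => 1) y
  have e : en (fun _ : ι => (1:ℝ)) = en1 := by
    funext y; simp [en, en1]
  rw [e] at h
  refine h.congr_fderiv ?_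
  simp

theorem hasFDerivAt_Th [DecidableEq ι] {a : κ → ℝ} {b : κ → ι → ℝ} {y : ι → ℝ}
    (hN : ∀ k, en (b k) y ≠ 0) (hl : ∀ i, 0 < lamJ a b y i) :
    HasFDerivAt (Th a b) (LinearMap.toContinuousLinearMap (Matrix.toLin' (Dmat a b y))) y := by
  rw [hasFDerivAt_pi']
  intro i
  have hinv : ∀ k, HasFDerivAt (fun y => b k i / en (b k) y)
      ((b k i * (-(en (b k) y ^ 2)⁻¹)) •
        (∑ j, (2 * b k j * y j) • (ContinuousLinearMap.proj (R := ℝ) (φ := fun _ : ι => ℝ) j))) y := by
    intro k
    have h := (hasDerivAt_inv (hN k)).comp_hasFDerivAt y (hasFDerivAt_en (b k) y)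
    have h2 := h.const_mul (b k i)
    refine (h2.congr_fderiv ?_)
    rw [smul_smul]
  have hsum : HasFDerivAt (fun y => ∑ k, a k * (b k i / en (b k) y))
      (∑ k, a k • ((b k i * (-(en (b k) y ^ 2)⁻¹)) •
        (∑ j, (2 * b k j * y j) • (ContinuousLinearMap.proj (R := ℝ) (φ := fun _ : ι => ℝ) j)))) y :=
    HasFDerivAt.fun_sum fun k _ => (hinv k).const_mul (a k)
  have hlam := (hasFDerivAt_en1 y).mul hsum
  have hsq := HasFDerivAt.sqrt hlam (hl i).ne'
  have hfin := (hasFDerivAt_apply (𝕜 := ℝ) (F' := fun _ : ι => ℝ) i y).mul hsq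
  refine hfin.congr_fderiv ?_
  ext v
  have hs : 0 < √(lamJ a b y i) := Real.sqrt_pos.2 (hl i)
  have hlamdef : en1 y * ∑ k, a k * (b k i / en (b k) y) = lamJ a b y i := rfl
  simp only [_root_.add_apply, _root_.smul_apply,
    _root_.sum_apply, ContinuousLinearMap.comp_apply, ContinuousLinearMap.proj_apply,
    smul_eq_mul, LinearMap.coe_toContinuousLinearMap', Matrix.toLin'_apply, Matrix.mulVec,
    dotProduct, hlamdef, Pi.mul_apply]
  have e1 : ∑ j, Dmat a b y i j * v j = √(lamJ a b y i) * v i + y i / √(lamJ a b y i) *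
      ((∑ k, a k * (b k i / en (b k) y)) * (∑ j, y j * v j)
        - en1 y * ∑ k, a k * (b k i / en (b k) y ^ 2) * (∑ j, b k j * y j * v j)) := by
    have e2 : ∀ j, Dmat a b y i j * v j = (if i = j then √(lamJ a b y i) * v j else 0) +
        y i / √(lamJ a b y i) * ((∑ k, a k * (b k i / en (b k) y)) * (y j * v j)
          - en1 y * ∑ k, a k * (b k i / en (b k) y ^ 2) * (b k j * y j * v j)) := by
      intro j
      have e3 : (∑ k, a k * (b k i * b k j / en (b k) y ^ 2)) * (y j * v j)
          = ∑ k, a k * (b k i / en (b k) y ^ 2) * (b k j * y j * v j) := by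
        rw [Finset.sum_mul]
        exact Finset.sum_congr rfl fun k _ => by ring
      rw [← e3]
      unfold Dmat
      split_ifs
      · ring
      · ring
    simp only [e2]
    rw [Finset.sum_add_distrib, Finset.sum_ite_eq]
    simp only [Finset.mem_univ, if_true]
    rw [← Finset.mul_sum, Finset.sum_sub_distrib, ← Finset.mul_sum, ← Finset.mul_sum,
      Finset.sum_comm]
    simp only [Finset.mul_sum]
  rw [e1]
  have e4 : ∑ j, 2 * y j * v j = 2 * ∑ j, y j * v j := by
    rw [Finset.mul_sum]; exact Finset.sum_congr rfl fun j _ => by ring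
  have e5 : ∀ k, ∑ j, 2 * b k j * y j * v j = 2 * ∑ j, b k j * y j * v j := by
    intro k
    rw [Finset.mul_sum]; exact Finset.sum_congr rfl fun j _ => by ring
  simp only [e4, e5]
  have e6 : ∑ k, a k * (b k i * -(en (b k) y ^ 2)⁻¹ * (2 * ∑ j, b k j * y j * v j))
      = - (2 * ∑ k, a k * (b k i / en (b k) y ^ 2) * (∑ j, b k j * y j * v j)) := by
    rw [Finset.mul_sum, ← Finset.sum_neg_distrib]
    exact Finset.sum_congr rfl fun k _ => by ring
  rw [e6]
  field_simp
  ring

/-- Hypotheses on the weights and the profiles. -/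
structure JH (a : κ → ℝ) (b : κ → ι → ℝ) : Prop where
  a0 : ∀ k, 0 ≤ a k
  a1 : ∑ k, a k = 1
  b0 : ∀ k i, 0 ≤ b k i
  b1 : ∀ k, ∑ i, b k i = Fintype.card ι
  pos : ∃ k, 0 < a k ∧ ∀ i, 0 < b k i
  half : ∀ i, 1 / 2 ≤ ∑ k, a k * b k i

theorem JH.en_pos [Nonempty ι] {a : κ → ℝ} {b : κ → ι → ℝ} (H : JH a b) {y : ι → ℝ}
    (hy : ∀ i, y i ≠ 0) (k : κ) : 0 < en (b k) y := by
  have h1 : ∃ i ∈ (Finset.univ : Finset ι), 0 < b k i := by
    by_contra hcon
    push Not at hcon
    have h2 : ∑ i, b k i ≤ 0 := Finset.sum_nonpos fun i hi => hcon i hi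
    rw [H.b1] at h2
    have h3 : (0:ℝ) < Fintype.card ι := by exact_mod_cast Fintype.card_pos
    linarith
  obtain ⟨i, hi, hbi⟩ := h1
  unfold en
  refine Finset.sum_pos' (fun j _ => mul_nonneg (H.b0 k j) (sq_nonneg _)) ⟨i, hi, ?_⟩
  have := hy i
  positivity

theorem en1_pos [Nonempty ι] {y : ι → ℝ} (hy : ∀ i, y i ≠ 0) : 0 < en1 y := by
  unfold en1
  refine Finset.sum_pos (fun j _ => ?_) Finset.univ_nonempty
  have := hy j
  positivity

theorem JH.lam_pos [Nonempty ι] {a : κ → ℝ} {b : κ → ι → ℝ} (H : JH a b) {y : ι → ℝ}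
    (hy : ∀ i, y i ≠ 0) (i : ι) : 0 < lamJ a b y i := by
  unfold lamJ
  refine mul_pos (en1_pos hy) ?_
  obtain ⟨k, hk, hkb⟩ := H.pos
  refine Finset.sum_pos' (fun l _ => mul_nonneg (H.a0 l)
    (div_nonneg (H.b0 l i) (H.en_pos hy l).le)) ⟨k, Finset.mem_univ _, ?_⟩
  have := H.en_pos hy k
  have := hkb i
  positivity

theorem JH.sum_lam [Nonempty ι] {a : κ → ℝ} {b : κ → ι → ℝ} (H : JH a b) {y : ι → ℝ}
    (hy : ∀ i, y i ≠ 0) : ∑ i, y i ^ 2 * lamJ a b y i = en1 y := by
  have e : ∀ i, y i ^ 2 * lamJ a b y i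
      = en1 y * ∑ k, a k / en (b k) y * (b k i * y i ^ 2) := by
    intro i
    unfold lamJ
    rw [mul_left_comm, Finset.mul_sum]
    congr 1
    exact Finset.sum_congr rfl fun k _ => by ring
  simp only [e]
  rw [← Finset.mul_sum, Finset.sum_comm]
  have e2 : ∀ k, ∑ i, a k / en (b k) y * (b k i * y i ^ 2) = a k := by
    intro k
    rw [← Finset.mul_sum]
    have h := (H.en_pos hy k).ne'
    change a k / en (b k) y * en (b k) y = a k
    field_simp
  simp only [e2]
  rw [H.a1, mul_one]

theorem JH.sum_Th [Nonempty ι] {a : κ → ℝ} {b : κ → ι → ℝ} (H : JH a b) {y : ι → ℝ}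
    (hy : ∀ i, y i ≠ 0) : en1 (Th a b y) = en1 y := by
  conv_rhs => rw [← H.sum_lam hy]
  unfold en1 Th
  refine Finset.sum_congr rfl fun i _ => ?_
  rw [mul_pow, Real.sq_sqrt (H.lam_pos hy i).le]

/-- The trace term. -/
def tauJ (a : κ → ℝ) (b : κ → ι → ℝ) (y : ι → ℝ) : ℝ :=
  ∑ k, a k * ∑ i, y i ^ 2 / en1 y *
    ((b k i * (en1 y / en (b k) y) - lamJ a b y i) ^ 2 / lamJ a b y i)

theorem JH.det_ge [Nonempty ι] [DecidableEq ι] {a : κ → ℝ} {b : κ → ι → ℝ} (H : JH a b)
    {y : ι → ℝ} (hy : ∀ i, y i ≠ 0) :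
    (1 - tauJ a b y) * ∏ i, √(lamJ a b y i) ≤ |(Dmat a b y).det| := by
  set N := en1 y with hN
  have hNpos : 0 < N := en1_pos hy
  set s : ι → ℝ := fun i => √(lamJ a b y i) with hs
  have hspos : ∀ i, 0 < s i := fun i => Real.sqrt_pos.2 (H.lam_pos hy i)
  have hssq : ∀ i, s i ^ 2 = lamJ a b y i := fun i => Real.sq_sqrt (H.lam_pos hy i).le
  set rN := √N with hrN
  have hrNpos : 0 < rN := Real.sqrt_pos.2 hNpos
  have hrNsq : rN ^ 2 = N := Real.sq_sqrt hNpos.le
  set α : ι → ℝ := fun i => y i * s i / rN with hα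
  set β : ι → ℝ := fun i => y i / (s i * rN) with hβ
  set h : κ → ι → ℝ := fun k i => y i * b k i * rN / (s i * en (b k) y) with hh
  have hen : ∀ k, 0 < en (b k) y := H.en_pos hy
  -- factor out the diagonal
  have hD : Dmat a b y = (1 + vecMulVec α β - covM a h) * Matrix.diagonal s := by
    ext i j
    rw [Matrix.mul_diagonal]
    simp only [Matrix.sub_apply, Matrix.add_apply, vecMulVec_apply, covM_apply, Matrix.one_apply]
    unfold Dmat
    have e1 : (∑ k, a k * (h k i * h k j)) * s j
        = y i * y j / s i * (N * ∑ k, a k * (b k i * b k j / en (b k) y ^ 2)) := by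
      rw [Finset.sum_mul, Finset.mul_sum, Finset.mul_sum]
      refine Finset.sum_congr rfl fun k _ => ?_
      simp only [hh]
      have h1 := (hspos i).ne'
      have h2 := (hspos j).ne'
      have h3 := (hen k).ne'
      rw [← hrNsq]
      field_simp
    have e2 : α i * β j * s j = y i * y j / s i * (∑ k, a k * (b k i / en (b k) y)) := by
      have e3 : (∑ k, a k * (b k i / en (b k) y)) = s i ^ 2 / N := by
        rw [hssq]
        unfold lamJ
        rw [← hN]
        field_simp
      rw [e3]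
      simp only [hα, hβ]
      have h1 := (hspos i).ne'
      have h2 := (hspos j).ne'
      rw [← hrNsq]
      field_simp
    rw [sub_mul, add_mul, e1, e2]
    split_ifs with hij
    · subst hij
      simp only [hs, hN]
      ring
    · simp only [hs, hN]
      ring
  have hsum1 : ∑ i, y i ^ 2 * s i ^ 2 = N := by
    simp only [hssq]
    exact H.sum_lam hy
  have hdet := det_factor (a := a) (α := α) (β := β) (h := h) H.a1
    (by
      have : ∀ i, α i * α i = y i ^ 2 * s i ^ 2 / N := by
        intro i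
        simp only [hα]
        rw [← hrNsq]
        field_simp
      simp only [this]
      rw [← Finset.sum_div, hsum1, div_self hNpos.ne'])
    (by
      have : ∀ i, β i * α i = y i ^ 2 / N := by
        intro i
        simp only [hα, hβ]
        have h1 := (hspos i).ne'
        rw [← hrNsq]
        field_simp
      simp only [this]
      rw [← Finset.sum_div]
      change N / N = 1
      exact div_self hNpos.ne')
    (by
      intro k
      have : ∀ i, h k i * α i = b k i * y i ^ 2 / en (b k) y := by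
        intro i
        simp only [hh, hα]
        have h1 := (hspos i).ne'
        have h3 := (hen k).ne'
        field_simp
      simp only [this]
      rw [← Finset.sum_div]
      change en (b k) y / en (b k) y = 1
      exact div_self (hen k).ne')
    (by
      intro i
      have e3 : (∑ k, a k * (b k i / en (b k) y)) = s i ^ 2 / N := by
        rw [hssq]
        unfold lamJ
        rw [← hN]
        field_simp
      have : ∀ k, a k * h k i = y i * rN / s i * (a k * (b k i / en (b k) y)) := by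
        intro k
        simp only [hh]
        have h1 := (hspos i).ne'
        have h3 := (hen k).ne'
        field_simp
      simp only [this]
      rw [← Finset.mul_sum, e3]
      simp only [hα]
      have h1 := (hspos i).ne'
      rw [← hrNsq]
      field_simp)
  rw [hD, Matrix.det_mul, hdet, Matrix.det_diagonal, abs_mul]
  have hprod : 0 ≤ ∏ i, s i := Finset.prod_nonneg fun i _ => (hspos i).le
  rw [abs_of_nonneg hprod]
  refine mul_le_mul_of_nonneg_right ?_ hprod
  have htr := one_sub_trace_le_abs_det (covM_posSemidef H.a0 (fun k i => h k i - α i))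
  rw [covM_trace] at htr
  refine le_trans (le_of_eq ?_) htr
  congr 1
  unfold tauJ
  refine Finset.sum_congr rfl fun k _ => ?_
  congr 1
  refine Finset.sum_congr rfl fun i _ => ?_
  simp only [hh, hα]
  rw [← hssq i, ← hN]
  have h1 := (hspos i).ne'
  have h3 := (hen k).ne'
  rw [← hrNsq]
  field_simp

theorem JH.inj [Nonempty ι] {a : κ → ℝ} {b : κ → ι → ℝ} (H : JH a b) {y z : ι → ℝ}
    (hy : ∀ i, y i ≠ 0) (hz : ∀ i, z i ≠ 0) (hyz : Th a b y = Th a b z) : y = z := by
  have hN : en1 y = en1 z := by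
    rw [← H.sum_Th hy, ← H.sum_Th hz, hyz]
  have hNpos : 0 < en1 y := en1_pos hy
  set t : ι → ℝ := fun i => z i ^ 2 / y i ^ 2 with ht
  have hy2 : ∀ i, 0 < y i ^ 2 := fun i => by have := hy i; positivity
  have hz2 : ∀ i, 0 < z i ^ 2 := fun i => by have := hz i; positivity
  have htz : ∀ i, z i ^ 2 = t i * y i ^ 2 := fun i => by
    rw [ht]; exact (div_mul_cancel₀ _ (hy2 i).ne').symm
  have hcomp : ∀ i, y i * √(lamJ a b y i) = z i * √(lamJ a b z i) := fun i => congrFun hyz i
  have hcomp2 : ∀ i, y i ^ 2 * lamJ a b y i = z i ^ 2 * lamJ a b z i := by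
    intro i
    have := congrArg (fun u => u ^ 2) (hcomp i)
    simp only [mul_pow, Real.sq_sqrt (H.lam_pos hy i).le, Real.sq_sqrt (H.lam_pos hz i).le] at this
    exact this
  obtain ⟨m, _, hm⟩ := Finset.exists_max_image (Finset.univ : Finset ι) t Finset.univ_nonempty
  have htm : ∀ i, t i ≤ t m := fun i => hm i (Finset.mem_univ i)
  have htpos : ∀ i, 0 < t i := fun i => div_pos (hz2 i) (hy2 i)
  have hen : ∀ k, en (b k) z ≤ t m * en (b k) y := by
    intro k
    unfold en
    rw [Finset.mul_sum]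
    refine Finset.sum_le_sum fun j _ => ?_
    rw [htz]
    have := mul_le_mul_of_nonneg_right (htm j) (mul_nonneg (H.b0 k j) (hy2 j).le)
    nlinarith
  -- comparison at the maximal index
  have hkey : ∑ k, a k * (b k m * (t m / en (b k) z - 1 / en (b k) y)) = 0 := by
    have h1 := hcomp2 m
    rw [htz m] at h1
    have h2 : lamJ a b y m = t m * lamJ a b z m := by
      have := (hy2 m).ne'
      have h3 : y m ^ 2 * lamJ a b y m = y m ^ 2 * (t m * lamJ a b z m) := by
        rw [h1]; ring
      exact mul_left_cancel₀ this h3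
    unfold lamJ at h2
    rw [← hN, mul_left_comm] at h2
    have h3 := mul_left_cancel₀ hNpos.ne' h2
    have h4 : ∀ k, a k * (b k m * (t m / en (b k) z - 1 / en (b k) y))
        = t m * (a k * (b k m / en (b k) z)) - a k * (b k m / en (b k) y) := by
      intro k; ring
    simp only [h4]
    rw [Finset.sum_sub_distrib, ← Finset.mul_sum, ← h3, sub_self]
  have hterm : ∀ k, 0 ≤ a k * (b k m * (t m / en (b k) z - 1 / en (b k) y)) := by
    intro k
    refine mul_nonneg (H.a0 k) (mul_nonneg (H.b0 k m) ?_)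
    rw [sub_nonneg, div_le_div_iff₀ (H.en_pos hy k) (H.en_pos hz k), one_mul]
    exact hen k
  obtain ⟨k, hk, hkb⟩ := H.pos
  have hk0 := (Finset.sum_eq_zero_iff_of_nonneg (fun l _ => hterm l)).1 hkey k (Finset.mem_univ k)
  have hk1 : t m / en (b k) z - 1 / en (b k) y = 0 := by
    rcases mul_eq_zero.1 hk0 with h | h
    · exact absurd h hk.ne'
    · rcases mul_eq_zero.1 h with h | h
      · exact absurd h (hkb m).ne'
      · exact h
  have hk2 : en (b k) z = t m * en (b k) y := by
    have h1 := (H.en_pos hy k).ne'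
    have h2 := (H.en_pos hz k).ne'
    field_simp at hk1
    linarith
  have hk3 : ∑ j, (t m - t j) * (b k j * y j ^ 2) = 0 := by
    have e : ∀ j, (t m - t j) * (b k j * y j ^ 2) = t m * (b k j * y j ^ 2) - b k j * z j ^ 2 := by
      intro j; rw [htz j]; ring
    simp only [e]
    rw [Finset.sum_sub_distrib, ← Finset.mul_sum]
    change t m * en (b k) y - en (b k) z = 0
    linarith
  have hteq : ∀ j, t j = t m := by
    intro j
    have := (Finset.sum_eq_zero_iff_of_nonneg (fun l _ => mul_nonneg (sub_nonneg.2 (htm l))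
      (mul_nonneg (H.b0 k l) (hy2 l).le))).1 hk3 j (Finset.mem_univ j)
    rcases mul_eq_zero.1 this with h | h
    · linarith
    · exact absurd h (mul_pos (hkb j) (hy2 j)).ne'
  have htm1 : t m = 1 := by
    have h1 : en1 z = t m * en1 y := by
      unfold en1
      rw [Finset.mul_sum]
      exact Finset.sum_congr rfl fun j _ => by rw [htz j, hteq j]
    rw [← hN] at h1
    have : (t m - 1) * en1 y = 0 := by linarith
    rcases mul_eq_zero.1 this with h | h
    · linarith
    · exact absurd h hNpos.ne'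
  funext i
  have h1 : z i ^ 2 = y i ^ 2 := by rw [htz i, hteq i, htm1, one_mul]
  rcases sq_eq_sq_iff_eq_or_eq_neg.1 h1 with h | h
  · exact h.symm
  · -- signs
    exfalso
    have h2 := hcomp i
    rw [h] at h2
    have h3 : 0 < √(lamJ a b y i) := Real.sqrt_pos.2 (H.lam_pos hy i)
    have h4 : 0 < √(lamJ a b z i) := Real.sqrt_pos.2 (H.lam_pos hz i)
    have h5 : y i * (√(lamJ a b y i) + √(lamJ a b z i)) = 0 := by linarith
    rcases mul_eq_zero.1 h5 with h6 | h6
    · exact hy i h6
    · linarith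

end Pf31f09
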