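import Pool.Agent.Lib.Pf31f09.JacMap
import Pool.Agent.Lib.Pf31f09.GMom

/-!
Total variation bound for the near-identity map.
-/

open MeasureTheory ProbabilityTheory Finset

noncomputable section

namespace Pf31f09

variable {ι κ : Type*} [Fintype ι] [Fintype κ]

/-- Density of the standard Gaussian vector. -/
def psi (y : ι → ℝ) : ℝ := ∏ i, gaussianPDFReal 0 1 (y i)

theorem psi_pos (y : ι → ℝ) : 0 < psi y :=
  Finset.prod_pos fun _ _ => gaussianPDFReal_pos 0 1 _ one_ne_zero

theorem measurable_psi : Measurable (psi : (ι → ℝ) → ℝ) := by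
  unfold psi
  exact Finset.measurable_prod _ fun i _ =>
    (measurable_gaussianPDFReal 0 1).comp (measurable_pi_apply i)

theorem gpi_eq : gpi ι = (volume : Measure (ι → ℝ)).withDensity
    (fun y => ENNReal.ofReal (psi y)) := by
  refine Measure.pi_eq fun s hs => ?_
  rw [withDensity_apply _ (MeasurableSet.univ_pi hs), volume_pi, Measure.restrict_pi_pi]
  have hint : ∀ i, Integrable (fun x => gaussianPDFReal 0 1 x)
      ((volume : Measure ℝ).restrict (s i)) :=
    fun i => (integrable_gaussianPDFReal 0 1).restrict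
  unfold psi
  rw [← ofReal_integral_eq_lintegral_ofReal]
  · rw [integral_fintype_prod_eq_prod (f := fun i x => gaussianPDFReal 0 1 x)]
    rw [ENNReal.ofReal_prod_of_nonneg]
    · apply Finset.prod_congr rfl
      intro i _
      rw [gaussianReal_apply_eq_integral 0 one_ne_zero]
    · intro i _
      exact integral_nonneg fun x => gaussianPDFReal_nonneg _ _ _
  · exact Integrable.fintype_prod (f := fun i x => gaussianPDFReal 0 1 x) hint
  · exact Filter.Eventually.of_forall fun Z =>
      Finset.prod_nonneg fun i _ => gaussianPDFReal_nonneg _ _ _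

/-- The averaged profile. -/
def wtJ (a : κ → ℝ) (b : κ → ι → ℝ) (i : ι) : ℝ := ∑ k, a k * b k i

/-- The relative multiplier. -/
def kapJ (a : κ → ℝ) (b : κ → ι → ℝ) (y : ι → ℝ) (i : ι) : ℝ := lamJ a b y i / wtJ a b i - 1

/-- The exponent. -/
def MJ (a : κ → ℝ) (b : κ → ι → ℝ) (y : ι → ℝ) : ℝ :=
  (1 / 2) * ∑ i, (y i ^ 2 * kapJ a b y i - Real.log (1 + kapJ a b y i))

theorem JH.wt_pos {a : κ → ℝ} {b : κ → ι → ℝ} (H : JH a b) (i : ι) : 0 < wtJ a b i := by
  have := H.half i
  unfold wtJ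
  linarith

theorem JH.ratio_ge [Nonempty ι] [DecidableEq ι] {a : κ → ℝ} {b : κ → ι → ℝ} (H : JH a b)
    {y : ι → ℝ} (hy : ∀ i, y i ≠ 0) :
    (1 - tauJ a b y) * Real.exp (-MJ a b y) * psi y ≤
      |(Dmat a b y).det| * (psi (Th a b y) * ell (fun i => wtJ a b i - 1) (Th a b y)) := by
  have hl := H.lam_pos hy
  have hw := H.wt_pos
  have e1 : psi (Th a b y) * ell (fun i => wtJ a b i - 1) (Th a b y)
      = psi y * ∏ i, ((√(wtJ a b i))⁻¹ * Real.exp (-(1/2) * (y i ^ 2 * kapJ a b y i))) := by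
    unfold psi ell
    rw [← Finset.prod_mul_distrib, ← Finset.prod_mul_distrib]
    refine Finset.prod_congr rfl fun i _ => ?_
    simp only [gaussianPDFReal, NNReal.coe_one, mul_one, sub_zero, ell1, Th, kapJ]
    rw [add_sub_cancel]
    have h1 : (√(2 * Real.pi))⁻¹ * Real.exp (-(y i * √(lamJ a b y i)) ^ 2 / 2) *
        ((√(wtJ a b i))⁻¹ * Real.exp ((wtJ a b i - 1) * (y i * √(lamJ a b y i)) ^ 2 /
          (2 * wtJ a b i))) = (√(2 * Real.pi))⁻¹ * (√(wtJ a b i))⁻¹ *
        (Real.exp (-(y i * √(lamJ a b y i)) ^ 2 / 2) *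
          Real.exp ((wtJ a b i - 1) * (y i * √(lamJ a b y i)) ^ 2 / (2 * wtJ a b i))) := by ring
    have h2 : (√(2 * Real.pi))⁻¹ * Real.exp (-y i ^ 2 / 2) * ((√(wtJ a b i))⁻¹ *
        Real.exp (-(1/2) * (y i ^ 2 * (lamJ a b y i / wtJ a b i - 1)))) =
        (√(2 * Real.pi))⁻¹ * (√(wtJ a b i))⁻¹ * (Real.exp (-y i ^ 2 / 2) *
        Real.exp (-(1/2) * (y i ^ 2 * (lamJ a b y i / wtJ a b i - 1)))) := by ring
    rw [h1, h2, ← Real.exp_add, ← Real.exp_add]
    congr 2
    rw [mul_pow, Real.sq_sqrt (hl i).le]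
    have := (hw i).ne'
    field_simp
    ring
  have e2 : (∏ i, √(lamJ a b y i)) *
      ∏ i, ((√(wtJ a b i))⁻¹ * Real.exp (-(1/2) * (y i ^ 2 * kapJ a b y i)))
      = Real.exp (-MJ a b y) := by
    rw [← Finset.prod_mul_distrib]
    unfold MJ
    rw [Finset.mul_sum, ← Finset.sum_neg_distrib, Real.exp_sum]
    refine Finset.prod_congr rfl fun i _ => ?_
    have h1 : √(lamJ a b y i) * (√(wtJ a b i))⁻¹
        = Real.exp (Real.log (lamJ a b y i / wtJ a b i) / 2) := by
      rw [Real.exp_half, Real.exp_log (div_pos (hl i) (hw i)), Real.sqrt_div (hl i).le]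
      rfl
    rw [← mul_assoc, h1, ← Real.exp_add]
    congr 1
    unfold kapJ
    rw [add_sub_cancel]
    ring
  have hdet := H.det_ge hy
  rw [e1]
  have hP : 0 ≤ ∏ i, ((√(wtJ a b i))⁻¹ * Real.exp (-(1/2) * (y i ^ 2 * kapJ a b y i))) :=
    Finset.prod_nonneg fun i _ => mul_nonneg (inv_nonneg.2 (Real.sqrt_nonneg _))
      (Real.exp_pos _).le
  have h3 := mul_le_mul_of_nonneg_right hdet (mul_nonneg (psi_pos y).le hP)
  refine le_trans (le_of_eq ?_) h3
  rw [← e2]
  ring

theorem JH.tau_nonneg [Nonempty ι] {a : κ → ℝ} {b : κ → ι → ℝ} (H : JH a b)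
    {y : ι → ℝ} (hy : ∀ i, y i ≠ 0) : 0 ≤ tauJ a b y := by
  unfold tauJ
  refine Finset.sum_nonneg fun k _ => mul_nonneg (H.a0 k) (Finset.sum_nonneg fun i _ => ?_)
  exact mul_nonneg (div_nonneg (sq_nonneg _) (en1_pos hy).le)
    (div_nonneg (sq_nonneg _) (H.lam_pos hy i).le)

theorem one_sub_le {τ M R : ℝ} (hτ : 0 ≤ τ) (hR : 0 ≤ R) (h : (1 - τ) * Real.exp (-M) ≤ R) :
    1 - R ≤ min 1 (τ + |M|) := by
  refine le_min (by linarith) ?_
  by_cases h1 : τ ≤ 1
  · have h2 : 1 - Real.exp (-M) ≤ |M| := by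
      have := Real.add_one_le_exp (-M)
      have := le_abs_self M
      linarith
    rcases le_total (Real.exp (-M)) 1 with h3 | h3
    · nlinarith
    · have := abs_nonneg M
      nlinarith
  · have := abs_nonneg M
    linarith

theorem measurable_en (b : ι → ℝ) : Measurable (en b) := by
  unfold en
  fun_prop

theorem measurable_en1 : Measurable (en1 : (ι → ℝ) → ℝ) := by
  unfold en1
  fun_prop

theorem measurable_lamJ (a : κ → ℝ) (b : κ → ι → ℝ) (i : ι) :
    Measurable (fun y => lamJ a b y i) := by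
  unfold lamJ
  refine measurable_en1.mul (Finset.measurable_sum _ fun k _ => ?_)
  exact (measurable_const.div (measurable_en _)).const_mul _

theorem measurable_Th (a : κ → ℝ) (b : κ → ι → ℝ) : Measurable (Th a b) := by
  refine measurable_pi_lambda _ fun i => ?_
  exact (measurable_pi_apply i).mul (measurable_lamJ a b i).sqrt

theorem ae_ne_zero : ∀ᵐ y ∂(volume : Measure (ι → ℝ)), ∀ i, y i ≠ 0 := by
  rw [ae_all_iff]
  intro i
  rw [volume_pi]
  exact Measure.ae_eval_ne (μ := fun _ : ι => (volume : Measure ℝ)) i 0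

theorem JH.tv_upper [Nonempty ι] {a : κ → ℝ} {b : κ → ι → ℝ} (H : JH a b)
    {F : (ι → ℝ) → ℝ} (hF : Measurable F) (hF0 : ∀ x, 0 ≤ F x) (hF1 : ∀ x, F x ≤ 1)
    {B : (ι → ℝ) → ℝ} (hBi : Integrable B (gpi ι)) (hBm : Measurable B)
    (hB : ∀ y, (∀ i, y i ≠ 0) → min 1 (tauJ a b y + |MJ a b y|) ≤ B y) :
    ∫ y, F (Th a b y) ∂(gpi ι) ≤
      ∫ y, F (scl (fun i => wtJ a b i - 1) y) ∂(gpi ι) + ∫ y, B y ∂(gpi ι) := by
  classical
  set d : ι → ℝ := fun i => wtJ a b i - 1 with hd
  have hd1 : ∀ i, -1 < d i := fun i => by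
    have := H.wt_pos i
    rw [hd]; dsimp only; linarith
  set s : Set (ι → ℝ) := {y | ∀ i, y i ≠ 0} with hs
  have hsm : MeasurableSet s := by
    have : s = ⋂ i, {y | y i ≠ 0} := by ext y; simp [hs]
    rw [this]
    exact MeasurableSet.iInter fun i => (measurable_pi_apply i) (measurableSet_singleton 0).compl
  have hsae : ∀ᵐ y ∂(volume : Measure (ι → ℝ)), y ∈ s := ae_ne_zero
  have hsg : ∀ᵐ y ∂(gpi ι), y ∈ s := by
    rw [gpi_eq]
    exact (withDensity_absolutelyContinuous _ _) hsae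
  have hpm : Measurable (fun y : ι → ℝ => ENNReal.ofReal (psi y)) := measurable_psi.ennreal_ofReal
  have hTm := measurable_Th a b
  have hB0 : 0 ≤ᵐ[gpi ι] B := by
    filter_upwards [hsg] with y hy
    refine le_trans ?_ (hB y hy)
    exact le_min zero_le_one (add_nonneg (H.tau_nonneg hy) (abs_nonneg _))
  -- change of variables
  have hcv := lintegral_image_eq_lintegral_abs_det_fderiv_mul (volume : Measure (ι → ℝ)) hsm
    (f := Th a b) (f' := fun y => LinearMap.toContinuousLinearMap (Matrix.toLin' (Dmat a b y)))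
    (fun y hy => (hasFDerivAt_Th (fun k => (H.en_pos hy k).ne')
      (H.lam_pos hy)).hasFDerivWithinAt) (fun y hy z hz h => H.inj hy hz h)
    (fun z => ENNReal.ofReal (F z * (psi z * ell d z)))
  have hpt : ∀ y ∈ s, ENNReal.ofReal (psi y) * ENNReal.ofReal (F (Th a b y)) ≤
      ENNReal.ofReal |(LinearMap.toContinuousLinearMap (Matrix.toLin' (Dmat a b y))).det| *
        ENNReal.ofReal (F (Th a b y) * (psi (Th a b y) * ell d (Th a b y))) +
      ENNReal.ofReal (psi y) * ENNReal.ofReal (B y) := by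
    intro y hy
    have hdet : (LinearMap.toContinuousLinearMap (Matrix.toLin' (Dmat a b y))).det
        = (Dmat a b y).det := by
      rw [LinearMap.det_toContinuousLinearMap, LinearMap.det_toLin']
    rw [hdet, ← ENNReal.ofReal_mul (psi_pos y).le, ← ENNReal.ofReal_mul (abs_nonneg _),
      ← ENNReal.ofReal_mul (psi_pos y).le]
    have hBy : 0 ≤ B y := by
      refine le_trans ?_ (hB y hy)
      exact le_min zero_le_one (add_nonneg (H.tau_nonneg hy) (abs_nonneg _))
    have hq0 : 0 ≤ psi (Th a b y) * ell d (Th a b y) :=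
      mul_nonneg (psi_pos _).le (ell_nonneg _ _)
    rw [← ENNReal.ofReal_add (mul_nonneg (abs_nonneg _) (mul_nonneg (hF0 _) hq0))
      (mul_nonneg (psi_pos y).le hBy)]
    apply ENNReal.ofReal_le_ofReal
    set R := |(Dmat a b y).det| * (psi (Th a b y) * ell d (Th a b y)) / psi y with hR
    have hR0 : 0 ≤ R := div_nonneg (mul_nonneg (abs_nonneg _) hq0) (psi_pos y).le
    have hR1 : |(Dmat a b y).det| * (psi (Th a b y) * ell d (Th a b y)) = R * psi y := by
      rw [hR]; exact (div_mul_cancel₀ _ (psi_pos y).ne').symm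
    have hge := H.ratio_ge hy
    rw [← hd, hR1] at hge
    have hge2 := le_of_mul_le_mul_right hge (psi_pos y)
    have h1 := (one_sub_le (H.tau_nonneg hy) hR0 hge2).trans (hB y hy)
    have h2 : |(Dmat a b y).det| * (F (Th a b y) * (psi (Th a b y) * ell d (Th a b y)))
        = psi y * (F (Th a b y) * R) := by
      rw [mul_left_comm, hR1]; ring
    rw [h2, ← mul_add]
    refine mul_le_mul_of_nonneg_left ?_ (psi_pos y).le
    have h3 := hF0 (Th a b y)
    have h4 := hF1 (Th a b y)
    rcases le_total R 1 with h5 | h5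
    · nlinarith
    · nlinarith
  have hL1 : ∫⁻ y, ENNReal.ofReal (F (Th a b y)) ∂(gpi ι)
      ≤ ∫⁻ y, ENNReal.ofReal (F (scl d y)) ∂(gpi ι) + ∫⁻ y, ENNReal.ofReal (B y) ∂(gpi ι) := by
    have e1 : ∫⁻ y, ENNReal.ofReal (F (Th a b y)) ∂(gpi ι)
        = ∫⁻ y in s, ENNReal.ofReal (psi y) * ENNReal.ofReal (F (Th a b y)) := by
      have hFT : Measurable (fun y => ENNReal.ofReal (F (Th a b y))) :=
        (hF.comp hTm).ennreal_ofReal
      rw [Measure.restrict_eq_self_of_ae_mem hsae, gpi_eq,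
        lintegral_withDensity_eq_lintegral_mul _ hpm hFT]
      rfl
    have e2 : ∫⁻ y, ENNReal.ofReal (B y) ∂(gpi ι)
        = ∫⁻ y, ENNReal.ofReal (psi y) * ENNReal.ofReal (B y) := by
      rw [gpi_eq, lintegral_withDensity_eq_lintegral_mul _ hpm hBm.ennreal_ofReal]
      rfl
    have hellm : Measurable (ell d) :=
      measurable_ell.comp (measurable_const.prodMk measurable_id)
    have hsclm : Measurable (scl d) :=
      measurable_scl.comp (measurable_const.prodMk measurable_id)
    have e3 : ∫⁻ y, ENNReal.ofReal (F (scl d y)) ∂(gpi ι)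
        = ∫⁻ z, ENNReal.ofReal (F z * (psi z * ell d z)) := by
      have h1 : ∫⁻ y, ENNReal.ofReal (F (scl d y)) ∂(gpi ι)
          = ∫⁻ z, ENNReal.ofReal (F z) ∂((gpi ι).map (scl d)) := by
        rw [lintegral_map hF.ennreal_ofReal hsclm]
      rw [h1, gaussian_scale hd1,
        lintegral_withDensity_eq_lintegral_mul _ hellm.ennreal_ofReal hF.ennreal_ofReal,
        gpi_eq, lintegral_withDensity_eq_lintegral_mul _ hpm
          (hellm.ennreal_ofReal.mul hF.ennreal_ofReal)]
      refine lintegral_congr fun z => ?_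
      simp only [Pi.mul_apply]
      rw [← ENNReal.ofReal_mul (ell_nonneg _ _), ← ENNReal.ofReal_mul (psi_pos z).le]
      congr 1
      ring
    rw [e1, e2, e3]
    calc ∫⁻ y in s, ENNReal.ofReal (psi y) * ENNReal.ofReal (F (Th a b y))
        ≤ ∫⁻ y in s, (ENNReal.ofReal
            |(LinearMap.toContinuousLinearMap (Matrix.toLin' (Dmat a b y))).det| *
            ENNReal.ofReal (F (Th a b y) * (psi (Th a b y) * ell d (Th a b y))) +
            ENNReal.ofReal (psi y) * ENNReal.ofReal (B y)) := by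
          refine setLIntegral_mono' hsm fun y hy => hpt y hy
      _ = (∫⁻ y in s, ENNReal.ofReal
            |(LinearMap.toContinuousLinearMap (Matrix.toLin' (Dmat a b y))).det| *
            ENNReal.ofReal (F (Th a b y) * (psi (Th a b y) * ell d (Th a b y)))) +
            ∫⁻ y in s, ENNReal.ofReal (psi y) * ENNReal.ofReal (B y) := by
          have hpB : Measurable (fun y => ENNReal.ofReal (psi y) * ENNReal.ofReal (B y)) :=
            hpm.mul hBm.ennreal_ofReal
          rw [lintegral_add_right _ hpB]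
      _ = (∫⁻ z in (Th a b) '' s, ENNReal.ofReal (F z * (psi z * ell d z))) +
            ∫⁻ y in s, ENNReal.ofReal (psi y) * ENNReal.ofReal (B y) := by rw [hcv]
      _ ≤ _ := add_le_add (setLIntegral_le_lintegral _ _) (setLIntegral_le_lintegral _ _)
  have hFi : ∀ {g : (ι → ℝ) → (ι → ℝ)}, Measurable g →
      Integrable (fun y => F (g y)) (gpi ι) := by
    intro g hg
    refine Integrable.of_bound (C := 1) (hF.comp hg).aestronglyMeasurable
      (Filter.Eventually.of_forall fun y => ?_)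
    rw [Real.norm_of_nonneg (hF0 _)]
    exact hF1 _
  have hsclm : Measurable (scl d) :=
    measurable_scl.comp (measurable_const.prodMk measurable_id)
  rw [← ofReal_integral_eq_lintegral_ofReal (hFi hTm)
      (Filter.Eventually.of_forall fun y => hF0 _),
    ← ofReal_integral_eq_lintegral_ofReal (hFi hsclm)
      (Filter.Eventually.of_forall fun y => hF0 _),
    ← ofReal_integral_eq_lintegral_ofReal hBi hB0,
    ← ENNReal.ofReal_add (integral_nonneg fun y => hF0 _) (integral_nonneg_of_ae hB0)] at hL1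
  rwa [ENNReal.ofReal_le_ofReal_iff] at hL1
  exact add_nonneg (integral_nonneg fun y => hF0 _) (integral_nonneg_of_ae hB0)

end Pf31f09
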