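import Mathlib
import Pool.Agent.Lib.Pf31f09.Block

/-! The walk started from a coordinate vector spreads over many coordinates. -/

noncomputable section

namespace Pf31f09

open Finset MeasureTheory

/-- Sum of absolute values. -/
def F1 {n : ℕ} (v : E n) : ℝ := ∑ k, |v k|

/-- Sum of fourth powers. -/
def F2 {n : ℕ} (v : E n) : ℝ := ∑ k, (v k ^ 2) ^ 2

theorem measurable_F1 {n : ℕ} : Measurable (F1 (n := n)) := by
  unfold F1; fun_prop

theorem measurable_F2 {n : ℕ} : Measurable (F2 (n := n)) := by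
  unfold F2; fun_prop

theorem meas1 {n : ℕ} : Measurable fun w : E n => ENNReal.ofReal (F1 w) :=
  ENNReal.measurable_ofReal.comp measurable_F1

theorem meas2 {n : ℕ} : Measurable fun w : E n => ENNReal.ofReal (F2 w) :=
  ENNReal.measurable_ofReal.comp measurable_F2

theorem F1_nonneg {n : ℕ} (v : E n) : 0 ≤ F1 v := Finset.sum_nonneg fun _ _ => abs_nonneg _

theorem F2_nonneg {n : ℕ} (v : E n) : 0 ≤ F2 v := Finset.sum_nonneg fun _ _ => by positivity

theorem F2_le_one {n : ℕ} {v : E n} (hv : v ∈ sph n) : F2 v ≤ 1 := by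
  have hv' : ∑ k, v k ^ 2 = 1 := hv
  rw [← hv']
  refine Finset.sum_le_sum fun k _ => ?_
  have h1 : v k ^ 2 ≤ 1 := by
    rw [← hv']
    exact Finset.single_le_sum (f := fun k => v k ^ 2) (fun _ _ => sq_nonneg _)
      (Finset.mem_univ k)
  nlinarith [sq_nonneg (v k)]

/-- Averaging over pairs. -/
theorem card_inv_sum {n : ℕ} (hn : 2 ≤ n) (g : Fin n × Fin n → ℝ) (hg : ∀ p ∈ pairs n, 0 ≤ g p) :
    ((pairs n).card : ENNReal)⁻¹ * ∑ p ∈ pairs n, ENNReal.ofReal (g p) =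
    ENNReal.ofReal ((2 / ((n : ℝ) * (n - 1))) * ∑ p ∈ pairs n, g p) := by
  have hcpos : (0 : ℝ) < (pairs n).card := by exact_mod_cast pairs_card_pos hn
  have : 2 / ((n : ℝ) * (n - 1)) = ((pairs n).card : ℝ)⁻¹ := by rw [card_pairs, inv_div]
  rw [this, ENNReal.ofReal_mul (by positivity), ENNReal.ofReal_sum_of_nonneg hg,
    ENNReal.ofReal_inv_of_pos hcpos, ENNReal.ofReal_natCast]

theorem F1_rot {n : ℕ} {i j : Fin n} (h : i ≠ j) (θ : ℝ) (v : E n) :
    F1 (rot i j θ v) ≤ F1 v + (|v i| + |v j|) := by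
  unfold F1
  rw [← Finset.add_sum_erase univ _ (Finset.mem_univ i),
    ← Finset.add_sum_erase (univ.erase i) _ (Finset.mem_erase.2 ⟨h.symm, Finset.mem_univ j⟩),
    ← Finset.add_sum_erase univ (fun k => |v k|) (Finset.mem_univ i),
    ← Finset.add_sum_erase (univ.erase i) (fun k => |v k|)
      (Finset.mem_erase.2 ⟨h.symm, Finset.mem_univ j⟩), rot_i, rot_j h]
  have : ∑ k ∈ (univ.erase i).erase j, |rot i j θ v k| =
      ∑ k ∈ (univ.erase i).erase j, |v k| := by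
    refine Finset.sum_congr rfl fun k hk => ?_
    rw [Finset.mem_erase, Finset.mem_erase] at hk
    rw [rot_k hk.2.1 hk.1]
  rw [this]
  have c1 := Real.abs_cos_le_one θ
  have s1 := Real.abs_sin_le_one θ
  have e1 : |v i * Real.cos θ - v j * Real.sin θ| ≤ |v i| + |v j| := by
    refine (abs_sub _ _).trans ?_
    rw [abs_mul, abs_mul]
    have := mul_le_mul_of_nonneg_left c1 (abs_nonneg (v i))
    have := mul_le_mul_of_nonneg_left s1 (abs_nonneg (v j))
    linarith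
  have e2 : |v i * Real.sin θ + v j * Real.cos θ| ≤ |v i| + |v j| := by
    refine (abs_add_le _ _).trans ?_
    rw [abs_mul, abs_mul]
    have := mul_le_mul_of_nonneg_left s1 (abs_nonneg (v i))
    have := mul_le_mul_of_nonneg_left c1 (abs_nonneg (v j))
    linarith
  linarith

theorem step_F1 {n : ℕ} (hn : 2 ≤ n) (v : E n) :
    ∫⁻ w, ENNReal.ofReal (F1 w) ∂(step v) ≤ ENNReal.ofReal ((1 + 2 / (n : ℝ)) * F1 v) := by
  rw [lintegral_step v (f := fun w => ENNReal.ofReal (F1 w))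
    (ENNReal.measurable_ofReal.comp measurable_F1)]
  have hterm : ∀ p ∈ pairs n, ∫⁻ θ, ENNReal.ofReal (F1 (rot p.1 p.2 θ v)) ∂unifAngle ≤
      ENNReal.ofReal (F1 v + (|v p.1| + |v p.2|)) := by
    intro p hp
    calc ∫⁻ θ, ENNReal.ofReal (F1 (rot p.1 p.2 θ v)) ∂unifAngle
        ≤ ∫⁻ _θ, ENNReal.ofReal (F1 v + (|v p.1| + |v p.2|)) ∂unifAngle :=
          lintegral_mono fun θ => ENNReal.ofReal_le_ofReal (F1_rot (mem_pairs.1 hp).ne θ v)
      _ = _ := by rw [lintegral_const, measure_univ, mul_one]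
  calc ((pairs n).card : ENNReal)⁻¹ * ∑ p ∈ pairs n,
        ∫⁻ θ, ENNReal.ofReal (F1 (rot p.1 p.2 θ v)) ∂unifAngle
      ≤ ((pairs n).card : ENNReal)⁻¹ * ∑ p ∈ pairs n,
        ENNReal.ofReal (F1 v + (|v p.1| + |v p.2|)) := by
        gcongr with p hp
        exact hterm p hp
    _ = ENNReal.ofReal ((1 + 2 / (n : ℝ)) * F1 v) := by
        rw [card_inv_sum hn _ fun p _ => by
          have := F1_nonneg v
          positivity]
        congr 1
        rw [Finset.sum_add_distrib, sum_pairs_add (fun k => |v k|), Finset.sum_const,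
          nsmul_eq_mul, card_pairs]
        have hn' : (2 : ℝ) ≤ n := by exact_mod_cast hn
        have h1 : (n : ℝ) - 1 ≠ 0 := by linarith
        have h0 : (n : ℝ) ≠ 0 := by linarith
        change _ * (_ * F1 v + _ * F1 v) = _
        field_simp

theorem law_F1 {n : ℕ} (hn : 2 ≤ n) {x : E n} (hx : F1 x = 1) (t : ℕ) :
    ∫⁻ w, ENNReal.ofReal (F1 w) ∂(law x t) ≤ ENNReal.ofReal ((1 + 2 / (n : ℝ)) ^ t) := by
  induction t with
  | zero =>
    rw [law, lintegral_dirac' _ meas1, hx, pow_zero]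
  | succ t ih =>
    rw [lintegral_law_succ x t (f := fun w => ENNReal.ofReal (F1 w))
      (ENNReal.measurable_ofReal.comp measurable_F1)]
    calc ∫⁻ v, ∫⁻ w, ENNReal.ofReal (F1 w) ∂(step v) ∂(law x t)
        ≤ ∫⁻ v, ENNReal.ofReal ((1 + 2 / (n : ℝ)) * F1 v) ∂(law x t) :=
          lintegral_mono fun v => step_F1 hn v
      _ = ENNReal.ofReal (1 + 2 / (n : ℝ)) * ∫⁻ v, ENNReal.ofReal (F1 v) ∂(law x t) := by
          rw [← lintegral_const_mul _ meas1]
          refine lintegral_congr fun v => ?_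
          rw [ENNReal.ofReal_mul (by positivity)]
      _ ≤ ENNReal.ofReal (1 + 2 / (n : ℝ)) * ENNReal.ofReal ((1 + 2 / (n : ℝ)) ^ t) := by
          gcongr
      _ = ENNReal.ofReal ((1 + 2 / (n : ℝ)) ^ (t + 1)) := by
          rw [← ENNReal.ofReal_mul (by positivity), pow_succ, mul_comm]

theorem F2_rot {n : ℕ} {i j : Fin n} (h : i ≠ j) (θ : ℝ) (v : E n) :
    F2 (rot i j θ v) = (F2 v - (v i ^ 2) ^ 2 - (v j ^ 2) ^ 2) +
      (((v i * Real.cos θ - v j * Real.sin θ) ^ 2) ^ 2 +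
        ((v i * Real.sin θ + v j * Real.cos θ) ^ 2) ^ 2) := by
  unfold F2
  rw [← Finset.add_sum_erase univ _ (Finset.mem_univ i),
    ← Finset.add_sum_erase (univ.erase i) _ (Finset.mem_erase.2 ⟨h.symm, Finset.mem_univ j⟩),
    ← Finset.add_sum_erase univ (fun k => (v k ^ 2) ^ 2) (Finset.mem_univ i),
    ← Finset.add_sum_erase (univ.erase i) (fun k => (v k ^ 2) ^ 2)
      (Finset.mem_erase.2 ⟨h.symm, Finset.mem_univ j⟩), rot_i, rot_j h]
  have : ∑ k ∈ (univ.erase i).erase j, (rot i j θ v k ^ 2) ^ 2 =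
      ∑ k ∈ (univ.erase i).erase j, (v k ^ 2) ^ 2 := by
    refine Finset.sum_congr rfl fun k hk => ?_
    rw [Finset.mem_erase, Finset.mem_erase] at hk
    rw [rot_k hk.2.1 hk.1]
  rw [this]
  ring

theorem avg_two {R : ℝ} (hR : 0 ≤ R) :
    avg (fun φ => (R * Real.cos φ ^ 2) ^ 2 + (R * Real.sin φ ^ 2) ^ 2) = 3 / 4 * R ^ 2 := by
  have h := L1_pow hR (show (0 : ℝ) ≤ 2 by norm_num)
  rw [mom_two] at h
  unfold L1 at h
  simp only [Real.rpow_two] at h
  rw [h]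
  ring

theorem step_F2 {n : ℕ} (hn : 2 ≤ n) {v : E n} (hv : v ∈ sph n) :
    ∫⁻ w, ENNReal.ofReal (F2 w) ∂(step v) ≤
      ENNReal.ofReal ((1 - 1 / (2 * (n : ℝ))) * F2 v + 3 / (2 * ((n : ℝ) * (n - 1)))) := by
  have hn' : (2 : ℝ) ≤ n := by exact_mod_cast hn
  rw [lintegral_step v (f := fun w => ENNReal.ofReal (F2 w))
    (ENNReal.measurable_ofReal.comp measurable_F2)]
  set g : Fin n × Fin n → ℝ := fun p => F2 v - 1 / 4 * ((v p.1 ^ 2) ^ 2 + (v p.2 ^ 2) ^ 2) +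
    3 / 2 * (v p.1 ^ 2 * v p.2 ^ 2) with hg
  have hterm : ∀ p ∈ pairs n, ∫⁻ θ, ENNReal.ofReal (F2 (rot p.1 p.2 θ v)) ∂unifAngle =
      ENNReal.ofReal (g p) := by
    intro p hp
    have hne := (mem_pairs.1 hp).ne
    have hsph : ∀ θ, rot p.1 p.2 θ v ∈ sph n := fun θ => by
      change ∑ k, rot p.1 p.2 θ v k ^ 2 = 1
      rw [rot_norm hne]; exact hv
    rw [lintegral_unifAngle (g := fun θ => F2 (rot p.1 p.2 θ v))
      (measurable_F2.comp (measurable_rot_left _ _ _)) (fun θ => F2_nonneg _) (C := 1)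
      (fun θ => F2_le_one (hsph θ))]
    congr 1
    simp only [F2_rot hne]
    have hm : Measurable fun θ => ((v p.1 * Real.cos θ - v p.2 * Real.sin θ) ^ 2) ^ 2 +
        ((v p.1 * Real.sin θ + v p.2 * Real.cos θ) ^ 2) ^ 2 := by fun_prop
    have hF2 := F2_le_one hv
    have hF2' := F2_nonneg v
    have hb : ∀ θ, |((v p.1 * Real.cos θ - v p.2 * Real.sin θ) ^ 2) ^ 2 +
        ((v p.1 * Real.sin θ + v p.2 * Real.cos θ) ^ 2) ^ 2| ≤
        1 + |F2 v - (v p.1 ^ 2) ^ 2 - (v p.2 ^ 2) ^ 2| := by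
      intro θ
      have h1 := F2_le_one (hsph θ)
      rw [F2_rot hne] at h1
      rw [abs_of_nonneg (by positivity)]
      have h2 := neg_abs_le (F2 v - (v p.1 ^ 2) ^ 2 - (v p.2 ^ 2) ^ 2)
      linarith
    rw [avg_add measurable_const hm (C := 1 + |F2 v - (v p.1 ^ 2) ^ 2 - (v p.2 ^ 2) ^ 2|)
      (fun _ => by linarith) hb, avg_const,
      avg_rot (fun a b => a ^ 2 + b ^ 2), avg_two (by positivity)]
    rw [hg]
    ring
  rw [Finset.sum_congr rfl hterm]
  have hgnn : ∀ p ∈ pairs n, 0 ≤ g p := by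
    intro p hp
    have hne := (mem_pairs.1 hp).ne
    have h2 : (v p.1 ^ 2) ^ 2 + (v p.2 ^ 2) ^ 2 ≤ F2 v := by
      unfold F2
      rw [← Finset.add_sum_erase univ _ (Finset.mem_univ p.1),
        ← Finset.add_sum_erase (univ.erase p.1) _
          (Finset.mem_erase.2 ⟨hne.symm, Finset.mem_univ p.2⟩)]
      have : 0 ≤ ∑ k ∈ (univ.erase p.1).erase p.2, (v k ^ 2) ^ 2 :=
        Finset.sum_nonneg fun _ _ => by positivity
      linarith
    rw [hg]
    have h3 : 0 ≤ v p.1 ^ 2 * v p.2 ^ 2 := by positivity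
    have h4 : 0 ≤ (v p.1 ^ 2) ^ 2 + (v p.2 ^ 2) ^ 2 := by positivity
    simp only
    linarith
  rw [card_inv_sum hn g hgnn]
  refine ENNReal.ofReal_le_ofReal ?_
  have hS : ∑ p ∈ pairs n, g p = ((n : ℝ) * (n - 1) / 2) * F2 v -
      1 / 4 * (((n : ℝ) - 1) * F2 v) + 3 / 2 * ∑ p ∈ pairs n, v p.1 ^ 2 * v p.2 ^ 2 := by
    rw [hg, Finset.sum_add_distrib, Finset.sum_sub_distrib, ← Finset.mul_sum, ← Finset.mul_sum,
      sum_pairs_add (fun k => (v k ^ 2) ^ 2), Finset.sum_const, nsmul_eq_mul, card_pairs]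
    rfl
  have hX : ∑ p ∈ pairs n, v p.1 ^ 2 * v p.2 ^ 2 ≤ 1 / 2 := by
    have h1 := sum_pairs (n := n) (fun i j => v i ^ 2 * v j ^ 2)
    have h2 : ∑ i, ∑ j ∈ univ.erase i, v i ^ 2 * v j ^ 2 ≤ 1 := by
      have hv' : ∑ k, v k ^ 2 = 1 := hv
      calc ∑ i, ∑ j ∈ univ.erase i, v i ^ 2 * v j ^ 2
          ≤ ∑ i, ∑ j, v i ^ 2 * v j ^ 2 := Finset.sum_le_sum fun i _ =>
            Finset.sum_le_sum_of_subset_of_nonneg (Finset.erase_subset _ _)
              fun j _ _ => by positivity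
        _ = 1 := by
            simp only [← Finset.mul_sum, hv', mul_one]
    rw [← h1] at h2
    have h3 : ∑ p ∈ pairs n, (v p.1 ^ 2 * v p.2 ^ 2 + v p.2 ^ 2 * v p.1 ^ 2) =
        2 * ∑ p ∈ pairs n, v p.1 ^ 2 * v p.2 ^ 2 := by
      rw [Finset.mul_sum]
      exact Finset.sum_congr rfl fun p _ => by ring
    rw [h3] at h2
    linarith
  rw [hS]
  have h1 : (0 : ℝ) < (n : ℝ) - 1 := by linarith
  have h0 : (0 : ℝ) < (n : ℝ) := by linarith
  have hpos : (0 : ℝ) < 2 / ((n : ℝ) * (n - 1)) := by positivity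
  have e1 : 2 / ((n : ℝ) * (n - 1)) * (((n : ℝ) * (n - 1) / 2) * F2 v -
      1 / 4 * (((n : ℝ) - 1) * F2 v)) = (1 - 1 / (2 * (n : ℝ))) * F2 v := by
    field_simp
    ring
  have e2 : 2 / ((n : ℝ) * (n - 1)) * (3 / 2 * ∑ p ∈ pairs n, v p.1 ^ 2 * v p.2 ^ 2) ≤
      3 / (2 * ((n : ℝ) * (n - 1))) := by
    calc 2 / ((n : ℝ) * (n - 1)) * (3 / 2 * ∑ p ∈ pairs n, v p.1 ^ 2 * v p.2 ^ 2)
        ≤ 2 / ((n : ℝ) * (n - 1)) * (3 / 2 * (1 / 2)) :=
          mul_le_mul_of_nonneg_left (by linarith) hpos.le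
      _ = 3 / (2 * ((n : ℝ) * (n - 1))) := by field_simp
  rw [mul_add, e1]
  linarith

theorem law_F2 {n : ℕ} (hn : 2 ≤ n) {x : E n} (hx : x ∈ sph n) (t : ℕ) :
    ∫⁻ w, ENNReal.ofReal (F2 w) ∂(law x t) ≤
      ENNReal.ofReal ((1 - 1 / (2 * (n : ℝ))) ^ t + 3 / ((n : ℝ) - 1)) := by
  have hn' : (2 : ℝ) ≤ n := by exact_mod_cast hn
  have h1 : (0 : ℝ) < (n : ℝ) - 1 := by linarith
  have h0 : (0 : ℝ) < (n : ℝ) := by linarith
  have hc0 : 0 ≤ 1 - 1 / (2 * (n : ℝ)) := by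
    rw [sub_nonneg, div_le_iff₀ (by positivity)]; linarith
  induction t with
  | zero =>
    rw [law, lintegral_dirac' _ meas2]
    refine ENNReal.ofReal_le_ofReal ?_
    have := F2_le_one hx
    have : 0 ≤ 3 / ((n : ℝ) - 1) := by positivity
    rw [pow_zero]
    linarith
  | succ t ih =>
    have hprob := isProb_law hn x t
    rw [lintegral_law_succ x t (f := fun w => ENNReal.ofReal (F2 w))
      (ENNReal.measurable_ofReal.comp measurable_F2)]
    calc ∫⁻ v, ∫⁻ w, ENNReal.ofReal (F2 w) ∂(step v) ∂(law x t)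
        ≤ ∫⁻ v, (ENNReal.ofReal (1 - 1 / (2 * (n : ℝ))) * ENNReal.ofReal (F2 v) +
            ENNReal.ofReal (3 / (2 * ((n : ℝ) * (n - 1))))) ∂(law x t) := by
          refine lintegral_mono_ae ?_
          filter_upwards [law_ae hx t] with v hv
          refine (step_F2 hn hv).trans ?_
          rw [ENNReal.ofReal_add (mul_nonneg hc0 (F2_nonneg v)) (by positivity),
            ENNReal.ofReal_mul hc0]
      _ = ENNReal.ofReal (1 - 1 / (2 * (n : ℝ))) * ∫⁻ v, ENNReal.ofReal (F2 v) ∂(law x t) +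
            ENNReal.ofReal (3 / (2 * ((n : ℝ) * (n - 1)))) := by
          rw [lintegral_add_right _ measurable_const, lintegral_const, measure_univ, mul_one,
            lintegral_const_mul _ meas2]
      _ ≤ ENNReal.ofReal (1 - 1 / (2 * (n : ℝ))) *
            ENNReal.ofReal ((1 - 1 / (2 * (n : ℝ))) ^ t + 3 / ((n : ℝ) - 1)) +
            ENNReal.ofReal (3 / (2 * ((n : ℝ) * (n - 1)))) := by
          gcongr
      _ = ENNReal.ofReal ((1 - 1 / (2 * (n : ℝ))) ^ (t + 1) + 3 / ((n : ℝ) - 1)) := by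
          rw [← ENNReal.ofReal_mul hc0, ← ENNReal.ofReal_add (by positivity) (by positivity)]
          congr 1
          rw [pow_succ]
          field_simp
          ring

/-- Many large coordinates. -/
theorem cnt_ge {n : ℕ} {v : E n} (hv : v ∈ sph n) {ε B x1 : ℝ} (hε : 0 < ε) (hB : 0 < B)
    (hx1 : 0 < x1) (hxB : √x1 * B ≤ 1 / 2) (h1 : F1 v ≤ B) (h2 : F2 v ≤ ε) :
    1 / (4 * ε) ≤ (cnt x1 v : ℝ) := by
  have hv' : ∑ k, v k ^ 2 = 1 := hv
  set S := univ.filter fun k => x1 ≤ v k ^ 2 with hS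
  have hsplit : ∑ k ∈ S, v k ^ 2 + ∑ k ∈ univ.filter (fun k => ¬ x1 ≤ v k ^ 2), v k ^ 2 = 1 := by
    rw [← hv', hS]
    exact Finset.sum_filter_add_sum_filter_not _ _ _
  have hsmall : ∑ k ∈ univ.filter (fun k => ¬ x1 ≤ v k ^ 2), v k ^ 2 ≤ 1 / 2 := by
    calc ∑ k ∈ univ.filter (fun k => ¬ x1 ≤ v k ^ 2), v k ^ 2
        ≤ ∑ k ∈ univ.filter (fun k => ¬ x1 ≤ v k ^ 2), √x1 * |v k| := by
          refine Finset.sum_le_sum fun k hk => ?_
          have hk' : v k ^ 2 < x1 := not_le.1 (Finset.mem_filter.1 hk).2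
          have : |v k| ≤ √x1 := by
            refine Real.le_sqrt_of_sq_le ?_
            rw [sq_abs]
            exact hk'.le
          rw [← sq_abs, sq]
          exact mul_le_mul_of_nonneg_right this (abs_nonneg _)
      _ ≤ ∑ k, √x1 * |v k| := Finset.sum_le_sum_of_subset_of_nonneg (Finset.subset_univ _)
          fun k _ _ => by positivity
      _ = √x1 * F1 v := by rw [← Finset.mul_sum]; rfl
      _ ≤ √x1 * B := mul_le_mul_of_nonneg_left h1 (Real.sqrt_nonneg _)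
      _ ≤ 1 / 2 := hxB
  have hbig : 1 / 2 ≤ ∑ k ∈ S, v k ^ 2 := by linarith
  have hcs : (∑ k ∈ S, v k ^ 2) ^ 2 ≤ (S.card : ℝ) * ∑ k ∈ S, (v k ^ 2) ^ 2 :=
    sq_sum_le_card_mul_sum_sq
  have hle : ∑ k ∈ S, (v k ^ 2) ^ 2 ≤ ε := by
    refine le_trans ?_ h2
    exact Finset.sum_le_sum_of_subset_of_nonneg (Finset.subset_univ _)
      fun k _ _ => by positivity
  have hfin : (1 / 4 : ℝ) ≤ (S.card : ℝ) * ε := by
    calc (1 / 4 : ℝ) = (1 / 2) ^ 2 := by norm_num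
      _ ≤ (∑ k ∈ S, v k ^ 2) ^ 2 := pow_le_pow_left₀ (by norm_num) hbig 2
      _ ≤ (S.card : ℝ) * ∑ k ∈ S, (v k ^ 2) ^ 2 := hcs
      _ ≤ (S.card : ℝ) * ε := mul_le_mul_of_nonneg_left hle (Nat.cast_nonneg _)
  have : (cnt x1 v : ℝ) = S.card := rfl
  rw [this, div_le_iff₀ (by positivity)]
  linarith

/-- Probability that few coordinates are large. -/
theorem spread {n : ℕ} (hn : 2 ≤ n) {x : E n} (hx : x ∈ sph n) (hx1 : F1 x = 1) (t M : ℕ)
    {ε B x1 : ℝ} (hε : 0 < ε) (hB : 0 < B) (hx1' : 0 < x1) (hxB : √x1 * B ≤ 1 / 2)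
    (hM : (M : ℝ) ≤ 1 / (4 * ε)) :
    law x t {v | cnt x1 v < M} ≤
      ENNReal.ofReal ((1 + 2 / (n : ℝ)) ^ t / B) +
      ENNReal.ofReal (((1 - 1 / (2 * (n : ℝ))) ^ t + 3 / ((n : ℝ) - 1)) / ε) := by
  have hsub : law x t {v | cnt x1 v < M} ≤
      law x t {v | ENNReal.ofReal B ≤ ENNReal.ofReal (F1 v)} +
      law x t {v | ENNReal.ofReal ε ≤ ENNReal.ofReal (F2 v)} := by
    refine le_trans (measure_mono_ae ?_) (measure_union_le _ _)
    filter_upwards [law_ae hx t] with v hv hcnt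
    by_contra hcon
    have hcon' : ¬ (ENNReal.ofReal B ≤ ENNReal.ofReal (F1 v) ∨
        ENNReal.ofReal ε ≤ ENNReal.ofReal (F2 v)) := hcon
    rw [not_or, not_le, not_le] at hcon'
    have h1 : F1 v ≤ B := (lt_of_not_ge fun h => (not_le.2 hcon'.1)
      (ENNReal.ofReal_le_ofReal h)).le
    have h2 : F2 v ≤ ε := (lt_of_not_ge fun h => (not_le.2 hcon'.2)
      (ENNReal.ofReal_le_ofReal h)).le
    have h3 := cnt_ge hv hε hB hx1' hxB h1 h2
    have h4 : (cnt x1 v : ℝ) < M := by exact_mod_cast hcnt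
    linarith
  refine hsub.trans (add_le_add ?_ ?_)
  · refine (meas_ge_le_lintegral_div (ENNReal.measurable_ofReal.comp
      measurable_F1).aemeasurable (by simpa using hB) ENNReal.ofReal_ne_top).trans ?_
    rw [ENNReal.ofReal_div_of_pos hB]
    exact ENNReal.div_le_div_right (law_F1 hn hx1 t) _
  · refine (meas_ge_le_lintegral_div (ENNReal.measurable_ofReal.comp
      measurable_F2).aemeasurable (by simpa using hε) ENNReal.ofReal_ne_top).trans ?_
    rw [ENNReal.ofReal_div_of_pos hε]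
    exact ENNReal.div_le_div_right (law_F2 hn hx t) _

/-- Short times: all energies small is unlikely. -/
theorem fail_short {n : ℕ} (hn : 2 ≤ n) {x : E n} (hx : x ∈ sph n) (hx1 : F1 x = 1) (t : ℕ)
    {y : ℝ} (hy : 0 < y) :
    law x t {v | ∀ k, v k ^ 2 < y} ≤ ENNReal.ofReal ((1 + 2 / (n : ℝ)) ^ t * √y) := by
  have hsub : law x t {v | ∀ k, v k ^ 2 < y} ≤
      law x t {v | ENNReal.ofReal (1 / √y) ≤ ENNReal.ofReal (F1 v)} := by
    refine measure_mono_ae ?_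
    filter_upwards [law_ae hx t] with v hv hall
    refine ENNReal.ofReal_le_ofReal ?_
    have hall' : ∀ k, v k ^ 2 < y := hall
    rw [div_le_iff₀ (Real.sqrt_pos.2 hy), ← hv, F1, Finset.sum_mul]
    refine Finset.sum_le_sum fun k _ => ?_
    have : |v k| ≤ √y := by
      refine Real.le_sqrt_of_sq_le ?_
      rw [sq_abs]
      exact (hall' k).le
    rw [← sq_abs, sq]
    exact mul_le_mul_of_nonneg_left this (abs_nonneg _)
  have hpos : 0 < 1 / √y := by
    have := Real.sqrt_pos.2 hy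
    positivity
  refine hsub.trans ?_
  refine (meas_ge_le_lintegral_div (ENNReal.measurable_ofReal.comp
      measurable_F1).aemeasurable (by simpa using hpos) ENNReal.ofReal_ne_top).trans ?_
  have : (1 + 2 / (n : ℝ)) ^ t * √y = (1 + 2 / (n : ℝ)) ^ t / (1 / √y) := by
    rw [div_div_eq_mul_div, div_one]
  rw [this, ENNReal.ofReal_div_of_pos hpos]
  exact ENNReal.div_le_div_right (law_F1 hn hx1 t) _

end Pf31f09
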