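import Mathlib
import Pool.Agent.Lib.Pf31f09.Spread

/-! The uniform measure on the sphere: moments of a coordinate. -/

noncomputable section

namespace Pf31f09

open Finset MeasureTheory

open scoped Pointwise

/-- The uniform probability measure on the unit sphere of `ℝⁿ`, as a measure on `ℝⁿ`. -/
def unifS (n : ℕ) : Measure (E n) :=
  ((volume : Measure (E n)).toSphere Set.univ)⁻¹ •
    ((volume : Measure (E n)).toSphere.map Subtype.val)

theorem toSphere_univ_ne {n : ℕ} (hn : 1 ≤ n) :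
    (volume : Measure (E n)).toSphere Set.univ ≠ 0 := by
  have : Nonempty (Fin n) := ⟨⟨0, by omega⟩⟩
  rw [Measure.measure_univ_ne_zero]
  exact Measure.toSphere_ne_zero _

theorem isProb_unifS {n : ℕ} (hn : 1 ≤ n) : IsProbabilityMeasure (unifS n) := by
  constructor
  rw [unifS, Measure.smul_apply, Measure.map_apply measurable_subtype_coe MeasurableSet.univ,
    Set.preimage_univ, smul_eq_mul, ENNReal.inv_mul_cancel (toSphere_univ_ne hn)
    (measure_ne_top _ _)]

theorem mem_sph_iff {n : ℕ} (v : E n) : v ∈ sph n ↔ ‖v‖ = 1 := by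
  have h : ‖v‖ ^ 2 = ∑ k, v k ^ 2 := by
    rw [EuclideanSpace.norm_sq_eq]
    simp [Real.norm_eq_abs, sq_abs]
  constructor
  · intro hv
    have hv' : ∑ k, v k ^ 2 = 1 := hv
    rw [hv'] at h
    nlinarith [norm_nonneg v]
  · intro hv
    change ∑ k, v k ^ 2 = 1
    rw [← h, hv, one_pow]

theorem unifS_ae {n : ℕ} : ∀ᵐ v ∂(unifS n), v ∈ sph n := by
  rw [ae_iff]
  change unifS n (sph n)ᶜ = 0
  rw [unifS, Measure.smul_apply, Measure.map_apply measurable_subtype_coe
    (measurableSet_sph n).compl]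
  have : (Subtype.val : Metric.sphere (0 : E n) 1 → E n) ⁻¹' (sph n)ᶜ = ∅ := by
    ext v
    simp only [Set.mem_preimage, Set.mem_compl_iff, Set.mem_empty_iff_false, iff_false, not_not]
    rw [mem_sph_iff]
    exact norm_eq_of_mem_sphere v
  rw [this, measure_empty, smul_zero]

theorem unifS_invariant {n : ℕ} (g : E n ≃ₗᵢ[ℝ] E n) : (unifS n).map g = unifS n := by
  have hg : Measurable g := g.continuous.measurable
  rw [unifS, Measure.map_smul]
  congr 1
  refine Measure.ext fun s hs => ?_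
  rw [Measure.map_apply hg hs, Measure.map_apply measurable_subtype_coe (hg hs),
    Measure.map_apply measurable_subtype_coe hs,
    Measure.toSphere_apply' _ (measurable_subtype_coe (hg hs)),
    Measure.toSphere_apply' _ (measurable_subtype_coe hs)]
  congr 1
  have hset : (Set.Ioo (0 : ℝ) 1 • ((↑) '' ((Subtype.val : Metric.sphere (0 : E n) 1 → E n) ⁻¹'
      (g ⁻¹' s))) : Set (E n)) = g ⁻¹' (Set.Ioo (0 : ℝ) 1 •
      ((↑) '' ((Subtype.val : Metric.sphere (0 : E n) 1 → E n) ⁻¹' s))) := by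
    ext x
    simp only [Set.mem_smul, Set.mem_image, Set.mem_preimage]
    constructor
    · rintro ⟨r, hr, u, ⟨w, hw, rfl⟩, rfl⟩
      refine ⟨r, hr, g w, ⟨⟨g w, ?_⟩, hw, rfl⟩, ?_⟩
      · rw [mem_sphere_zero_iff_norm, g.norm_map]
        exact norm_eq_of_mem_sphere w
      · rw [map_smul]
    · rintro ⟨r, hr, u, ⟨w, hw, rfl⟩, hx⟩
      refine ⟨r, hr, g.symm w, ⟨⟨g.symm w, ?_⟩, ?_, rfl⟩, ?_⟩
      · rw [mem_sphere_zero_iff_norm, LinearIsometryEquiv.norm_map]
        exact norm_eq_of_mem_sphere w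
      · simpa using hw
      · apply g.injective
        rw [map_smul, LinearIsometryEquiv.apply_symm_apply]
        exact hx
  rw [hset]
  exact g.measurePreserving.measure_preimage_emb g.toHomeomorph.measurableEmbedding _

/-- The rotation as a linear isometry. -/
def rotL {n : ℕ} {i j : Fin n} (h : i ≠ j) (θ : ℝ) : E n →ₗᵢ[ℝ] E n where
  toFun := rot i j θ
  map_add' v w := by
    ext k
    by_cases hi : k = i
    · rw [hi, PiLp.add_apply, rot_i, rot_i, rot_i, PiLp.add_apply, PiLp.add_apply]; ring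
    · by_cases hj : k = j
      · rw [hj, PiLp.add_apply, rot_j h, rot_j h, rot_j h, PiLp.add_apply, PiLp.add_apply]; ring
      · rw [PiLp.add_apply, rot_k hi hj, rot_k hi hj, rot_k hi hj, PiLp.add_apply]
  map_smul' c v := by
    ext k
    by_cases hi : k = i
    · rw [hi, PiLp.smul_apply, rot_i, rot_i, PiLp.smul_apply, PiLp.smul_apply]
      simp only [smul_eq_mul, RingHom.id_apply]; ring
    · by_cases hj : k = j
      · rw [hj, PiLp.smul_apply, rot_j h, rot_j h, PiLp.smul_apply, PiLp.smul_apply]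
        simp only [smul_eq_mul, RingHom.id_apply]; ring
      · rw [PiLp.smul_apply, rot_k hi hj, rot_k hi hj, PiLp.smul_apply]
        simp
  norm_map' v := by
    change ‖rot i j θ v‖ = ‖v‖
    have h1 : ‖rot i j θ v‖ ^ 2 = ‖v‖ ^ 2 := by
      rw [EuclideanSpace.norm_sq_eq, EuclideanSpace.norm_sq_eq]
      simp only [Real.norm_eq_abs, sq_abs]
      exact rot_norm h θ v
    exact (sq_eq_sq₀ (norm_nonneg _) (norm_nonneg _)).1 h1

theorem lintegral_rot {n : ℕ} {i j : Fin n} (h : i ≠ j) (θ : ℝ) {f : E n → ENNReal}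
    (hf : Measurable f) : ∫⁻ v, f (rot i j θ v) ∂(unifS n) = ∫⁻ v, f v ∂(unifS n) := by
  set g : E n ≃ₗᵢ[ℝ] E n := (rotL h θ).toLinearIsometryEquiv rfl with hg
  have hgr : ∀ v, g v = rot i j θ v := fun v => rfl
  conv_rhs => rw [← unifS_invariant g]
  rw [lintegral_map hf g.continuous.measurable]
  rfl

theorem lintegral_avg {n : ℕ} {i j : Fin n} (h : i ≠ j) {f : E n → ENNReal} (hf : Measurable f) :
    ∫⁻ v, f v ∂(unifS n) = ∫⁻ v, ∫⁻ θ, f (rot i j θ v) ∂unifAngle ∂(unifS n) := by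
  have hn : 1 ≤ n := by have := i.2; omega
  have := isProb_unifS hn
  rw [lintegral_lintegral_swap]
  · simp only [lintegral_rot h _ hf, lintegral_const, measure_univ, mul_one]
  · exact (hf.comp ((measurable_rot i j).comp
      (measurable_snd.prodMk measurable_fst))).aemeasurable

/-- The moments. -/
def Am {n : ℕ} (i : Fin n) (k : ℕ) : ENNReal := ∫⁻ v, ENNReal.ofReal ((v i ^ 2) ^ k) ∂(unifS n)

theorem Am_eq {n : ℕ} {i j : Fin n} (h : i ≠ j) (k : ℕ) : Am i k = Am j k := by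
  have hf : Measurable fun v : E n => ENNReal.ofReal ((v i ^ 2) ^ k) :=
    ENNReal.measurable_ofReal.comp (by fun_prop)
  rw [Am, ← lintegral_rot h (Real.pi / 2) hf, Am]
  refine lintegral_congr fun v => ?_
  rw [rot_i, Real.cos_pi_div_two, Real.sin_pi_div_two]
  congr 2
  ring

theorem mom_succ (k : ℕ) : avg (fun φ => Real.cos φ ^ (2 * (k + 1))) =
    (2 * k + 1) / (2 * k + 2) * avg fun φ => Real.cos φ ^ (2 * k) := by
  unfold avg
  have e : 2 * (k + 1) = 2 * k + 2 := by ring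
  rw [e, integral_cos_pow]
  simp only [Real.sin_two_pi, Real.sin_zero]
  push_cast
  ring

theorem mom_pos (k : ℕ) : 0 < avg fun φ => Real.cos φ ^ (2 * k) := by
  induction k with
  | zero =>
    simp only [mul_zero, pow_zero]
    rw [avg_const]
    norm_num
  | succ k ih =>
    rw [mom_succ]
    positivity

/-- The constant `avg cos^{2k} sin²`. -/
def wk (k : ℕ) : ℝ := avg fun φ => (Real.cos φ ^ 2) ^ k * Real.sin φ ^ 2

theorem wk_pos (k : ℕ) : 0 < wk k := by
  have h1 : (fun φ => (Real.cos φ ^ 2) ^ k * Real.sin φ ^ 2) =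
      fun φ => Real.cos φ ^ (2 * k) + (-1) * Real.cos φ ^ (2 * (k + 1)) := by
    funext φ
    rw [Real.sin_sq, ← pow_mul]
    ring
  have hb : ∀ m φ, |Real.cos φ ^ m| ≤ 1 := fun m φ => by
    rw [abs_pow]
    exact pow_le_one₀ (abs_nonneg _) (Real.abs_cos_le_one φ)
  rw [wk, h1, avg_add (by fun_prop) (by fun_prop) (C := 1) (hb _)
    (fun φ => by rw [abs_mul, abs_neg, abs_one, one_mul]; exact hb _ φ), avg_const_mul, mom_succ]
  have hp := mom_pos k
  set m := avg fun φ => Real.cos φ ^ (2 * k)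
  have : m + -1 * ((2 * (k : ℝ) + 1) / (2 * k + 2) * m) = m / (2 * k + 2) := by
    field_simp
    ring
  rw [this]
  positivity

theorem Am_pair {n : ℕ} {i j : Fin n} (h : i ≠ j) (k : ℕ) :
    ENNReal.ofReal (wk k) * Am i (k + 1) ≤
      ∫⁻ v, ENNReal.ofReal ((v i ^ 2) ^ k * v j ^ 2) ∂(unifS n) := by
  have hf : Measurable fun v : E n => ENNReal.ofReal ((v i ^ 2) ^ k * v j ^ 2) :=
    ENNReal.measurable_ofReal.comp (by fun_prop)
  have hf2 : Measurable fun v : E n => ENNReal.ofReal ((v i ^ 2) ^ (k + 1)) :=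
    ENNReal.measurable_ofReal.comp (by fun_prop)
  rw [lintegral_avg h hf, Am, ← lintegral_const_mul _ hf2]
  refine lintegral_mono fun v => ?_
  have hm : Measurable fun θ => (rot i j θ v i ^ 2) ^ k * rot i j θ v j ^ 2 := by
    simp only [rot_i, rot_j h]
    fun_prop
  have hbd : ∀ θ, (rot i j θ v i ^ 2) ^ k * rot i j θ v j ^ 2 ≤
      (v i ^ 2 + v j ^ 2) ^ (k + 1) := by
    intro θ
    have hsum : rot i j θ v i ^ 2 + rot i j θ v j ^ 2 = v i ^ 2 + v j ^ 2 := by
      rw [rot_i, rot_j h]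
      have := Real.sin_sq_add_cos_sq θ
      linear_combination (v i ^ 2 + v j ^ 2) * this
    rw [pow_succ, ← hsum]
    refine mul_le_mul (pow_le_pow_left₀ (sq_nonneg _) (by linarith [sq_nonneg (rot i j θ v j)]) k)
      (by linarith [sq_nonneg (rot i j θ v i)]) (sq_nonneg _)
      (pow_nonneg (add_nonneg (sq_nonneg _) (sq_nonneg _)) _)
  rw [lintegral_unifAngle hm (fun θ => mul_nonneg (pow_nonneg (sq_nonneg _) _) (sq_nonneg _)) hbd,
    ← ENNReal.ofReal_mul (wk_pos k).le]
  refine ENNReal.ofReal_le_ofReal ?_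
  have e1 : (fun θ => (rot i j θ v i ^ 2) ^ k * rot i j θ v j ^ 2) =
      fun θ => (fun a b : ℝ => a ^ k * b) ((v i * Real.cos θ - v j * Real.sin θ) ^ 2)
        ((v i * Real.sin θ + v j * Real.cos θ) ^ 2) := by
    funext θ
    rw [rot_i, rot_j h]
  rw [e1, avg_rot (fun a b => a ^ k * b)]
  have e2 : (fun φ => (fun a b : ℝ => a ^ k * b) ((v i ^ 2 + v j ^ 2) * Real.cos φ ^ 2)
      ((v i ^ 2 + v j ^ 2) * Real.sin φ ^ 2)) =
      fun φ => (v i ^ 2 + v j ^ 2) ^ (k + 1) * ((Real.cos φ ^ 2) ^ k * Real.sin φ ^ 2) := by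
    funext φ
    simp only
    rw [mul_pow]
    ring
  rw [e2, avg_const_mul, mul_comm]
  refine mul_le_mul_of_nonneg_right ?_ (wk_pos k).le
  exact pow_le_pow_left₀ (sq_nonneg _) (by linarith [sq_nonneg (v j)]) _

theorem Am_succ {n : ℕ} (i : Fin n) (k : ℕ) :
    ((n - 1 : ℕ) : ENNReal) * (ENNReal.ofReal (wk k) * Am i (k + 1)) ≤ Am i k := by
  calc ((n - 1 : ℕ) : ENNReal) * (ENNReal.ofReal (wk k) * Am i (k + 1))
      = ∑ _j ∈ univ.erase i, ENNReal.ofReal (wk k) * Am i (k + 1) := by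
        rw [Finset.sum_const, Finset.card_erase_of_mem (Finset.mem_univ i), Finset.card_univ,
          Fintype.card_fin, nsmul_eq_mul]
    _ ≤ ∑ j ∈ univ.erase i, ∫⁻ v, ENNReal.ofReal ((v i ^ 2) ^ k * v j ^ 2) ∂(unifS n) :=
        Finset.sum_le_sum fun j hj => Am_pair (Finset.ne_of_mem_erase hj).symm k
    _ = ∫⁻ v, ∑ j ∈ univ.erase i, ENNReal.ofReal ((v i ^ 2) ^ k * v j ^ 2) ∂(unifS n) := by
        rw [lintegral_finsetSum]
        intro j _
        exact ENNReal.measurable_ofReal.comp (by fun_prop)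
    _ ≤ Am i k := by
        refine lintegral_mono_ae ?_
        filter_upwards [unifS_ae] with v hv
        rw [← ENNReal.ofReal_sum_of_nonneg fun j _ => by positivity]
        refine ENNReal.ofReal_le_ofReal ?_
        rw [← Finset.mul_sum]
        refine mul_le_of_le_one_right (by positivity) ?_
        have hv' : ∑ k, v k ^ 2 = 1 := hv
        rw [← hv']
        exact Finset.sum_le_sum_of_subset_of_nonneg (Finset.erase_subset _ _)
          fun _ _ _ => sq_nonneg _

/-- Product of the constants. -/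
def Wk (k : ℕ) : ℝ := ∏ l ∈ range k, wk l

theorem Wk_pos (k : ℕ) : 0 < Wk k := Finset.prod_pos fun l _ => wk_pos l

theorem Am_le {n : ℕ} (hn : 2 ≤ n) (i : Fin n) (k : ℕ) :
    Am i k ≤ ENNReal.ofReal (1 / (((n : ℝ) - 1) ^ k * Wk k)) := by
  have hn' : (2 : ℝ) ≤ n := by exact_mod_cast hn
  have h1 : (0 : ℝ) < (n : ℝ) - 1 := by linarith
  induction k with
  | zero =>
    have := isProb_unifS (by omega : 1 ≤ n)
    simp [Am, Wk]
  | succ k ih =>
    have h2 := (Am_succ i k).trans ih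
    have hc : 0 < ((n : ℝ) - 1) * wk k := mul_pos h1 (wk_pos k)
    have e1 : ((n - 1 : ℕ) : ENNReal) = ENNReal.ofReal ((n : ℝ) - 1) := by
      have e3 : (n : ℝ) - 1 = ((n - 1 : ℕ) : ℝ) := by
        rw [Nat.cast_sub (by omega : 1 ≤ n), Nat.cast_one]
      rw [e3, ENNReal.ofReal_natCast]
    rw [e1, ← mul_assoc, ← ENNReal.ofReal_mul h1.le] at h2
    have e2 : 1 / (((n : ℝ) - 1) ^ (k + 1) * Wk (k + 1)) =
        (1 / (((n : ℝ) - 1) ^ k * Wk k)) / (((n : ℝ) - 1) * wk k) := by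
      have hw : Wk (k + 1) = Wk k * wk k := Finset.prod_range_succ _ _
      rw [hw, pow_succ, div_div]
      congr 1
      ring
    rw [e2, ENNReal.ofReal_div_of_pos hc, ENNReal.le_div_iff_mul_le
      (Or.inl (by simpa using hc)) (Or.inl ENNReal.ofReal_ne_top), mul_comm]
    exact h2

/-- Under the uniform measure no coordinate is large. -/
theorem unifS_large {n : ℕ} (hn : 2 ≤ n) {y : ℝ} (hy : 0 < y) (m : ℕ) :
    unifS n {v | ∃ k, y ≤ v k ^ 2} ≤
      ENNReal.ofReal ((n : ℝ) * (1 / (((n : ℝ) - 1) ^ m * Wk m) / y ^ m)) := by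
  have hsub : {v : E n | ∃ k, y ≤ v k ^ 2} ⊆ ⋃ k, {v : E n | y ≤ v k ^ 2} := by
    intro v hv
    obtain ⟨k, hk⟩ := hv
    exact Set.mem_iUnion.2 ⟨k, hk⟩
  have hym : 0 < y ^ m := pow_pos hy m
  have hterm : ∀ k : Fin n, unifS n {v | y ≤ v k ^ 2} ≤
      ENNReal.ofReal (1 / (((n : ℝ) - 1) ^ m * Wk m) / y ^ m) := by
    intro k
    have hs : {v : E n | y ≤ v k ^ 2} ⊆
        {v | ENNReal.ofReal (y ^ m) ≤ ENNReal.ofReal ((v k ^ 2) ^ m)} := by
      intro v hv
      exact ENNReal.ofReal_le_ofReal (pow_le_pow_left₀ hy.le hv m)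
    refine (measure_mono hs).trans ?_
    refine (meas_ge_le_lintegral_div (ENNReal.measurable_ofReal.comp
      (by fun_prop : Measurable fun v : E n => (v k ^ 2) ^ m)).aemeasurable
      (by simpa using hym) ENNReal.ofReal_ne_top).trans ?_
    rw [ENNReal.ofReal_div_of_pos hym]
    exact ENNReal.div_le_div_right (Am_le hn k m) _
  calc unifS n {v | ∃ k, y ≤ v k ^ 2} ≤ ∑ k : Fin n, unifS n {v | y ≤ v k ^ 2} := by
        refine (measure_mono hsub).trans ?_
        exact measure_iUnion_fintype_le _ _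
    _ ≤ ∑ _k : Fin n, ENNReal.ofReal (1 / (((n : ℝ) - 1) ^ m * Wk m) / y ^ m) :=
        Finset.sum_le_sum fun k _ => hterm k
    _ = ENNReal.ofReal ((n : ℝ) * (1 / (((n : ℝ) - 1) ^ m * Wk m) / y ^ m)) := by
        rw [Finset.sum_const, Finset.card_univ, Fintype.card_fin, nsmul_eq_mul,
          ENNReal.ofReal_mul (Nat.cast_nonneg n), ENNReal.ofReal_natCast]

end Pf31f09
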