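import Mathlib
import Pool.Agent.Lib.Pf31f09.Sphere

/-! The lower bound for the mixing time of Kac's walk on the sphere. -/

noncomputable section

namespace Pf31f09

open Finset MeasureTheory Filter Topology

/-- Total variation distance. -/
def tv {n : ℕ} (μ ν : Measure (E n)) : ℝ :=
  sSup {r : ℝ | ∃ A : Set (E n), MeasurableSet A ∧ r = |μ.real A - ν.real A|}

theorem le_tv {n : ℕ} {μ ν : Measure (E n)} [IsProbabilityMeasure μ] [IsProbabilityMeasure ν]
    {A : Set (E n)} (hA : MeasurableSet A) : |μ.real A - ν.real A| ≤ tv μ ν := by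
  refine le_csSup ⟨1, ?_⟩ ⟨A, hA, rfl⟩
  rintro r ⟨B, _, rfl⟩
  have h1 : μ.real B ≤ 1 := measureReal_le_one
  have h2 : ν.real B ≤ 1 := measureReal_le_one
  have h3 : 0 ≤ μ.real B := measureReal_nonneg
  have h4 : 0 ≤ ν.real B := measureReal_nonneg
  rw [abs_le]
  constructor <;> linarith

/-- A coordinate vector. -/
def e0 {n : ℕ} (i : Fin n) : E n := EuclideanSpace.single i 1

theorem e0_sph {n : ℕ} (i : Fin n) : e0 i ∈ sph n := by
  rw [mem_sph_iff, e0, EuclideanSpace.norm_single, norm_one]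

theorem e0_F1 {n : ℕ} (i : Fin n) : F1 (e0 i) = 1 := by
  unfold F1 e0
  rw [Finset.sum_eq_single i]
  · simp
  · intro k _ hk
    simp [hk]
  · simp

/-- Convergence to zero of `C n^(-γ)`. -/
theorem tendsto_rpow_neg_nat {γ : ℝ} (hγ : 0 < γ) (C : ℝ) :
    Tendsto (fun n : ℕ => C * (n : ℝ) ^ (-γ)) atTop (𝓝 0) := by
  have := (tendsto_rpow_neg_atTop hγ).comp tendsto_natCast_atTop_atTop
  simpa using this.const_mul C

/-- The lower bound in terms of the rate function. -/
theorem lower {c c' : ℝ} (hc : 1 ≤ c) (hcc : c < c') (hc' : 2 < c')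
    (H : ∀ q, 1 < q → 0 < (1 / c') * q + kap q) {ε : ℝ} (hε0 : 0 ≤ ε) (hε : ε < 1) :
    ∀ᶠ n : ℕ in atTop, ∀ t : ℕ, (t : ℝ) ≤ c * n * Real.log n →
      ∃ x : E n, ‖x‖ = 1 ∧ ε < tv (law x t) (unifS n) := by
  have hc'0 : 0 < c' := by linarith
  set β := 1 / c' with hβ
  have hβ0 : 0 < β := by positivity
  have hβ1 : β < 1 / 2 := by
    rw [hβ]
    exact one_div_lt_one_div_of_lt (by norm_num) hc'
  set r := c / c' with hr
  have hr1 : r < 1 := (div_lt_one hc'0).2 hcc
  have hβc : β * c = r := by rw [hβ, hr]; ring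
  set δ := (1 - r) / 4 with hδ
  have hδ0 : 0 < δ := by rw [hδ]; linarith
  set ε0 := (1 - r) / (4 * c') with hε0def
  have hε00 : 0 < ε0 := by
    rw [hε0def]
    have : 0 < 1 - r := by linarith
    positivity
  have hε0c : ε0 * c ≤ (1 - r) / 4 := by
    calc ε0 * c ≤ ε0 * c' := mul_le_mul_of_nonneg_left hcc.le hε00.le
      _ = (1 - r) / 4 := by rw [hε0def]; field_simp
  obtain ⟨K, α, hK1, hα0, hα8, hblock⟩ := exists_block hβ0 hβ1 H hε00
  have hK0 : (0 : ℝ) < K := by exact_mod_cast hK1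
  set a := (β + ε0) * K with ha
  have ha0 : 0 ≤ a := by positivity
  set η := α / 2 * Real.exp (-(2 * K)) with hη
  have hη0 : 0 < η := by positivity
  have hηe : η * Real.exp (2 * K) ≤ α / 2 := by
    rw [hη, mul_assoc, ← Real.exp_add]
    simp
  set c0 := η * Real.exp (-(8 * K)) with hc0
  have hc00 : 0 < c0 := by positivity
  have hc01 : c0 < 1 := by
    have e1 : Real.exp (-(8 * (K : ℝ))) ≤ Real.exp (2 * K) := by
      rw [Real.exp_le_exp]; linarith
    have := mul_le_mul_of_nonneg_left e1 hη0.le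
    linarith
  set ε' := 1 - ε with hε'
  have hε'0 : 0 < ε' := by linarith
  have hε'1 : ε' ≤ 1 := by linarith
  obtain ⟨M, hM⟩ := exists_pow_lt_of_lt_one (show 0 < ε' / 4 by linarith)
    (show 1 - c0 < 1 by linarith)
  set ε2 : ℝ := 1 / (4 * (M + 1)) with hε2
  have hε20 : 0 < ε2 := by positivity
  have hMε2 : (M : ℝ) ≤ 1 / (4 * ε2) := by
    rw [hε2]
    have : 1 / (4 * (1 / (4 * ((M : ℝ) + 1)))) = M + 1 := by
      have : (M : ℝ) + 1 ≠ 0 := by positivity
      field_simp
    rw [this]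
    linarith
  -- `K1`
  have hlimK : Tendsto (fun k : ℕ => Real.exp (-((k : ℝ) / 2))) atTop (𝓝 0) := by
    refine Real.tendsto_exp_neg_atTop_nhds_zero.comp ?_
    exact tendsto_natCast_atTop_atTop.atTop_div_const (by norm_num)
  obtain ⟨K1, hK1'⟩ := (hlimK.eventually (gt_mem_nhds
    (show (0 : ℝ) < ε2 * ε' / 16 by positivity))).exists
  set B : ℝ := 16 * Real.exp (2 * K1) / ε' with hB
  have hB0 : 0 < B := by positivity
  set x1 : ℝ := (1 / (2 * B)) ^ 2 with hx1
  have hx10 : 0 < x1 := by positivity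
  have hx1B : √x1 * B ≤ 1 / 2 := by
    rw [hx1, Real.sqrt_sq (by positivity)]
    refine le_of_eq ?_
    field_simp
  set γ := 1 - δ - (β + ε0) * c with hγ
  have hγ0 : 0 < γ := by
    rw [hγ, add_mul, hβc, hδ]
    linarith
  obtain ⟨m, hm⟩ := exists_nat_gt (1 / δ)
  have hmδ : 1 < δ * m := by
    rwa [div_lt_iff₀ hδ0, mul_comm] at hm
  have hδ1 : δ < 1 := by
    rw [hδ]
    have : 0 < r := by rw [hr]; positivity
    linarith
  -- eventual conditions
  have ev1 : ∀ᶠ n : ℕ in atTop, 8 * (n : ℝ) ^ (-δ) < α / 4 :=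
    (tendsto_rpow_neg_nat hδ0 8).eventually (gt_mem_nhds (by positivity))
  have ev2 : ∀ᶠ n : ℕ in atTop, 16 * (n : ℝ) ^ (-(1 : ℝ)) < α / 4 :=
    (tendsto_rpow_neg_nat one_pos 16).eventually (gt_mem_nhds (by positivity))
  have ev3 : ∀ᶠ n : ℕ in atTop, 1 * (n : ℝ) ^ (-γ) < x1 :=
    (tendsto_rpow_neg_nat hγ0 1).eventually (gt_mem_nhds hx10)
  have ev4 : ∀ᶠ n : ℕ in atTop, Real.exp (2 * K1) * (n : ℝ) ^ (-((1 - δ) / 2)) < ε' / 4 :=
    (tendsto_rpow_neg_nat (by linarith : 0 < (1 - δ) / 2) _).eventually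
      (gt_mem_nhds (by positivity))
  have ev5 : ∀ᶠ n : ℕ in atTop, (2 ^ m / Wk m) * (n : ℝ) ^ (-(δ * m - 1)) < ε' / 4 :=
    (tendsto_rpow_neg_nat (by linarith : 0 < δ * m - 1) _).eventually
      (gt_mem_nhds (by positivity))
  have ev6 : ∀ᶠ n : ℕ in atTop, 6 * (n : ℝ) ^ (-(1 : ℝ)) < ε2 * ε' / 16 :=
    (tendsto_rpow_neg_nat one_pos 6).eventually (gt_mem_nhds (by positivity))
  filter_upwards [hblock, ev1, ev2, ev3, ev4, ev5, ev6, eventually_ge_atTop 32] with n hbl h1 h2
    h3 h4 h5 h6 hn t ht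
  have hn' : (32 : ℝ) ≤ n := by exact_mod_cast hn
  have hn0 : (0 : ℝ) < n := by linarith
  have hn1 : (0 : ℝ) < (n : ℝ) - 1 := by linarith
  have hn2 : 2 ≤ n := by omega
  have hinv : (n : ℝ) ^ (-(1 : ℝ)) = 1 / n := by rw [Real.rpow_neg_one, one_div]
  rw [hinv] at h2 h6
  have hhalf : (n : ℝ) / 2 ≤ n - 1 := by linarith
  set y : ℝ := (n : ℝ) ^ (δ - 1) with hy
  have hy0 : 0 < y := Real.rpow_pos_of_pos hn0 _
  set x : E n := e0 ⟨0, by omega⟩ with hx
  have hxs : x ∈ sph n := e0_sph _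
  have hxF : F1 x = 1 := e0_F1 _
  refine ⟨x, (mem_sph_iff x).1 hxs, ?_⟩
  have hPl := isProb_law hn2 x t
  have hPu := isProb_unifS (by omega : 1 ≤ n)
  -- the test event
  set A : Set (E n) := {v | ∃ k, y ≤ v k ^ 2} with hA
  have hAm : MeasurableSet A := by
    rw [hA, Set.ofPred_exists]
    exact MeasurableSet.iUnion fun k => measurableSet_le measurable_const (by fun_prop)
  have hAc : Aᶜ = {v : E n | ∀ k, v k ^ 2 < y} := by
    ext v
    rw [hA]
    simp only [Set.mem_compl_iff, Set.mem_ofPred_eq, not_exists, not_le]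
  -- uniform measure
  have hU : (unifS n).real A ≤ ε' / 4 := by
    have h7 := unifS_large hn2 hy0 m
    have h8 : (n : ℝ) * (1 / (((n : ℝ) - 1) ^ m * Wk m) / y ^ m) ≤
        (2 ^ m / Wk m) * (n : ℝ) ^ (-(δ * m - 1)) := by
      have hW := Wk_pos m
      have e1 : y ^ m = (n : ℝ) ^ ((δ - 1) * m) := by
        rw [hy, ← Real.rpow_natCast, ← Real.rpow_mul hn0.le]
      have e2 : ((n : ℝ) / 2) ^ m ≤ ((n : ℝ) - 1) ^ m :=
        pow_le_pow_left₀ (by positivity) hhalf m
      calc (n : ℝ) * (1 / (((n : ℝ) - 1) ^ m * Wk m) / y ^ m)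
          ≤ (n : ℝ) * (1 / (((n : ℝ) / 2) ^ m * Wk m) / y ^ m) := by
            gcongr
        _ = (2 ^ m / Wk m) * ((n : ℝ) / ((n : ℝ) ^ m * y ^ m)) := by
            rw [div_pow]
            field_simp
        _ = (2 ^ m / Wk m) * (n : ℝ) ^ (-(δ * m - 1)) := by
            congr 1
            rw [e1, ← Real.rpow_natCast (n : ℝ) m, ← Real.rpow_add hn0]
            nth_rewrite 1 [← Real.rpow_one (n : ℝ)]
            rw [← Real.rpow_sub hn0]
            congr 1
            ring
    have h9 : unifS n A ≤ ENNReal.ofReal (ε' / 4) :=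
      h7.trans (ENNReal.ofReal_le_ofReal (h8.trans h5.le))
    exact ENNReal.toReal_le_of_le_ofReal (by positivity) h9
  -- the walk
  have hexp1 : (1 + 2 / (n : ℝ)) ^ (K1 * n) ≤ Real.exp (2 * K1) := pow_le_exp hn le_rfl
  have hL : law x t Aᶜ ≤ ENNReal.ofReal (ε' / 2) := by
    rw [hAc]
    rcases le_total t (K1 * n) with hcase | hcase
    · refine (fail_short hn2 hxs hxF t hy0).trans (ENNReal.ofReal_le_ofReal ?_)
      have e1 : (1 + 2 / (n : ℝ)) ^ t ≤ Real.exp (2 * K1) := pow_le_exp hn hcase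
      have e2 : √y = (n : ℝ) ^ (-((1 - δ) / 2)) := by
        rw [hy, Real.sqrt_eq_rpow, ← Real.rpow_mul hn0.le]
        congr 1
        ring
      rw [e2]
      calc (1 + 2 / (n : ℝ)) ^ t * (n : ℝ) ^ (-((1 - δ) / 2))
          ≤ Real.exp (2 * K1) * (n : ℝ) ^ (-((1 - δ) / 2)) :=
            mul_le_mul_of_nonneg_right e1 (Real.rpow_nonneg hn0.le _)
        _ ≤ ε' / 2 := by linarith
    · obtain ⟨T, rfl⟩ := Nat.exists_eq_add_of_le hcase
      have hT : (T : ℝ) ≤ c * n * Real.log n := by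
        refine le_trans ?_ ht
        push_cast
        have : (0 : ℝ) ≤ K1 * n := by positivity
        linarith
      have hξ : 3 * (1 / y) / ((n : ℝ) - 1) + 16 / n ≤ α / 2 := by
        have e1 : 3 * (1 / y) / ((n : ℝ) - 1) ≤ 8 * (n : ℝ) ^ (-δ) := by
          calc 3 * (1 / y) / ((n : ℝ) - 1) ≤ 3 * (1 / y) / ((n : ℝ) / 2) := by gcongr
            _ = 6 * (1 / (y * n)) := by field_simp; norm_num
            _ = 6 * (n : ℝ) ^ (-δ) := by
                congr 1
                rw [hy]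
                nth_rewrite 2 [← Real.rpow_one (n : ℝ)]
                rw [← Real.rpow_add hn0, one_div, ← Real.rpow_neg hn0.le]
                congr 1
                ring
            _ ≤ 8 * (n : ℝ) ^ (-δ) := by
                have := Real.rpow_nonneg hn0.le (-δ)
                linarith
        have e2 : 16 / (n : ℝ) = 16 * (1 / n) := by ring
        rw [e2]
        linarith
      have hx1' : y * Real.exp (a * (T / (K * n) : ℕ)) ≤ x1 := by
        have e1 : ((T / (K * n) : ℕ) : ℝ) ≤ c * Real.log n / K := by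
          refine Nat.cast_div_le.trans ?_
          rw [div_le_div_iff₀ (by push_cast; positivity) hK0]
          push_cast
          calc (T : ℝ) * K ≤ (c * n * Real.log n) * K := mul_le_mul_of_nonneg_right hT hK0.le
            _ = c * Real.log n * (K * n) := by ring
        have e2 : a * ((T / (K * n) : ℕ) : ℝ) ≤ Real.log n * ((β + ε0) * c) := by
          calc a * ((T / (K * n) : ℕ) : ℝ) ≤ a * (c * Real.log n / K) :=
                mul_le_mul_of_nonneg_left e1 ha0
            _ = Real.log n * ((β + ε0) * c) := by rw [ha]; field_simp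
        calc y * Real.exp (a * (T / (K * n) : ℕ)) ≤
              y * Real.exp (Real.log n * ((β + ε0) * c)) :=
              mul_le_mul_of_nonneg_left (Real.exp_le_exp.2 e2) hy0.le
          _ = (n : ℝ) ^ (-γ) := by
              rw [← Real.rpow_def_of_pos hn0, hy, ← Real.rpow_add hn0]
              congr 1
              rw [hγ]
              ring
          _ ≤ x1 := by linarith
      have hfail := fail_le hn hK1 hα0 hα8 hy0 ha0 hη0.le hηe hbl hξ hxs (K1 * n) T M hx1'
      have hspread := spread hn2 hxs hxF (K1 * n) M hε20 hB0 hx10 hx1B hMε2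
      have p1 : (1 + 2 / (n : ℝ)) ^ (K1 * n) / B ≤ ε' / 16 := by
        rw [div_le_iff₀ hB0, hB]
        refine hexp1.trans (le_of_eq ?_)
        field_simp
      have p2 : ((1 - 1 / (2 * (n : ℝ))) ^ (K1 * n) + 3 / ((n : ℝ) - 1)) / ε2 ≤ ε' / 8 := by
        rw [div_le_iff₀ hε20]
        have q1 : (1 - 1 / (2 * (n : ℝ))) ^ (K1 * n) ≤ Real.exp (-((K1 : ℝ) / 2)) := by
          calc (1 - 1 / (2 * (n : ℝ))) ^ (K1 * n)
              ≤ Real.exp (-(1 / (2 * (n : ℝ)))) ^ (K1 * n) := by
                refine pow_le_pow_left₀ ?_ ?_ _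
                · rw [sub_nonneg, div_le_iff₀ (by positivity)]; linarith
                · have := Real.add_one_le_exp (-(1 / (2 * (n : ℝ))))
                  linarith
            _ = Real.exp (-((K1 : ℝ) / 2)) := by
                rw [← Real.exp_nat_mul]
                congr 1
                push_cast
                field_simp
        have q2 : 3 / ((n : ℝ) - 1) ≤ 6 * (1 / n) := by
          rw [mul_one_div, div_le_div_iff₀ hn1 hn0]
          linarith
        linarith
      have p3 : (1 - η * Real.exp (-(8 * K))) ^ M ≤ ε' / 4 := hM.le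
      calc law x (K1 * n + T) {v | ∀ k, v k ^ 2 < y}
          ≤ (ENNReal.ofReal ((1 + 2 / (n : ℝ)) ^ (K1 * n) / B) +
            ENNReal.ofReal (((1 - 1 / (2 * (n : ℝ))) ^ (K1 * n) + 3 / ((n : ℝ) - 1)) / ε2)) +
            ENNReal.ofReal ((1 - η * Real.exp (-(8 * K))) ^ M) :=
            hfail.trans (add_le_add hspread le_rfl)
        _ ≤ (ENNReal.ofReal (ε' / 16) + ENNReal.ofReal (ε' / 8)) + ENNReal.ofReal (ε' / 4) :=
            add_le_add (add_le_add (ENNReal.ofReal_le_ofReal p1) (ENNReal.ofReal_le_ofReal p2))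
              (ENNReal.ofReal_le_ofReal p3)
        _ = ENNReal.ofReal (ε' / 16 + ε' / 8 + ε' / 4) := by
            rw [← ENNReal.ofReal_add (by positivity) (by positivity),
              ← ENNReal.ofReal_add (by positivity) (by positivity)]
        _ ≤ ENNReal.ofReal (ε' / 2) := ENNReal.ofReal_le_ofReal (by linarith)
  have hLr : (law x t).real Aᶜ ≤ ε' / 2 := ENNReal.toReal_le_of_le_ofReal (by positivity) hL
  have hLA : 1 - ε' / 2 ≤ (law x t).real A := by
    rw [measureReal_compl hAm, probReal_univ] at hLr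
    linarith
  have hfin := le_tv (μ := law x t) (ν := unifS n) hAm
  have := le_abs_self ((law x t).real A - (unifS n).real A)
  linarith

end Pf31f09
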