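import Mathlib
import Pool.Agent.Lib.Pf31f09.Main

/-! The constant `c*` and numerical bounds. -/

noncomputable section

namespace Pf31f09

open Finset MeasureTheory Filter Topology

/-- The constant `c* = inf_{q > 1} q / (2 - 4 m_q)`. -/
def cstar : ℝ := ⨅ q : Set.Ioi (1 : ℝ), (q : ℝ) / (2 - 4 * mom q)

theorem measurable_cosq (q : ℝ) : Measurable fun φ : ℝ => (Real.cos φ ^ 2) ^ q := by
  have := measurable_powc 1 q
  simpa using this

theorem cosq_bdd {q : ℝ} (hq : 0 ≤ q) (φ : ℝ) : |(Real.cos φ ^ 2) ^ q| ≤ 1 := by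
  rw [abs_of_nonneg (Real.rpow_nonneg (sq_nonneg _) _)]
  exact Real.rpow_le_one (sq_nonneg _) (Real.cos_sq_le_one φ) hq

theorem mom_convex {a b u v : ℝ} (ha : 0 < a) (hb : 0 < b) (hu : 0 ≤ u) (hv : 0 ≤ v)
    (huv : u + v = 1) : mom (u * a + v * b) ≤ u * mom a + v * mom b := by
  have hab : 0 < u * a + v * b := by
    rcases hu.eq_or_lt with h | h
    · have : v = 1 := by linarith
      rw [← h, this]; linarith
    · have := mul_pos h ha
      have := mul_nonneg hv hb.le
      linarith
  unfold mom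
  rw [← avg_const_mul, ← avg_const_mul, ← avg_add ((measurable_cosq a).const_mul u)
    ((measurable_cosq b).const_mul v) (C := 1)]
  · refine avg_mono (measurable_cosq _)
      (((measurable_cosq a).const_mul u).add ((measurable_cosq b).const_mul v)) (C := 1)
      (cosq_bdd hab.le) (fun φ => ?_) fun φ => ?_
    · have h1 := cosq_bdd ha.le φ
      have h2 := cosq_bdd hb.le φ
      have h3 := Real.rpow_nonneg (sq_nonneg (Real.cos φ)) a
      have h4 := Real.rpow_nonneg (sq_nonneg (Real.cos φ)) b
      rw [abs_of_nonneg h3] at h1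
      rw [abs_of_nonneg h4] at h2
      rw [abs_of_nonneg (by positivity)]
      nlinarith
    · set c := Real.cos φ ^ 2
      have hc : 0 ≤ c := sq_nonneg _
      have e : c ^ (u * a + v * b) = (c ^ a) ^ u * (c ^ b) ^ v := by
        rw [Real.rpow_add_of_nonneg hc (mul_nonneg hu ha.le) (mul_nonneg hv hb.le),
          mul_comm u a, mul_comm v b, Real.rpow_mul hc, Real.rpow_mul hc]
      rw [e]
      exact Real.geom_mean_le_arith_mean2_weighted hu hv (Real.rpow_nonneg hc _)
        (Real.rpow_nonneg hc _) huv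
  · intro φ
    have h1 := cosq_bdd ha.le φ
    rw [abs_mul, abs_of_nonneg hu]
    nlinarith [abs_nonneg ((Real.cos φ ^ 2) ^ a)]
  · intro φ
    have h1 := cosq_bdd hb.le φ
    rw [abs_mul, abs_of_nonneg hv]
    nlinarith [abs_nonneg ((Real.cos φ ^ 2) ^ b)]

/-- Three points inequality for `κ`. -/
theorem kap_three {a b c : ℝ} (ha : 0 < a) (hab : a < b) (hbc : b < c) :
    (c - a) * kap b ≤ (c - b) * kap a + (b - a) * kap c := by
  have hca : 0 < c - a := by linarith
  have h := mom_convex (a := a) (b := c) (u := (c - b) / (c - a)) (v := (b - a) / (c - a)) ha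
    (by linarith) (div_nonneg (by linarith) hca.le) (div_nonneg (by linarith) hca.le)
    (by field_simp; ring)
  have e : (c - b) / (c - a) * a + (b - a) / (c - a) * c = b := by
    field_simp
    ring
  rw [e] at h
  have h2 := mul_le_mul_of_nonneg_left h hca.le
  have e2 : (c - a) * ((c - b) / (c - a) * mom a + (b - a) / (c - a) * mom c) =
      (c - b) * mom a + (b - a) * mom c := by
    field_simp
  rw [e2] at h2
  unfold kap
  nlinarith

/-- The integral of an odd power of `|cos|` over a period, by recursion. -/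
def J (k : ℕ) : ℝ := (∫ x in (0 : ℝ)..(Real.pi / 2), Real.cos x ^ k) -
  (∫ x in (Real.pi / 2)..(3 * Real.pi / 2), Real.cos x ^ k) +
  ∫ x in (3 * Real.pi / 2)..(2 * Real.pi), Real.cos x ^ k

theorem cos_three_pi_div_two : Real.cos (3 * Real.pi / 2) = 0 := by
  have : 3 * Real.pi / 2 = Real.pi / 2 + Real.pi := by ring
  rw [this, Real.cos_add_pi, Real.cos_pi_div_two, neg_zero]

theorem sin_three_pi_div_two : Real.sin (3 * Real.pi / 2) = -1 := by
  have : 3 * Real.pi / 2 = Real.pi / 2 + Real.pi := by ring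
  rw [this, Real.sin_add_pi, Real.sin_pi_div_two]

theorem J_one : J 1 = 4 := by
  unfold J
  simp only [pow_one, integral_cos, Real.sin_pi_div_two, Real.sin_zero, Real.sin_two_pi,
    sin_three_pi_div_two]
  norm_num

theorem J_succ (k : ℕ) : J (k + 2) = (k + 1) / (k + 2) * J k := by
  unfold J
  rw [integral_cos_pow, integral_cos_pow, integral_cos_pow]
  simp only [Real.cos_pi_div_two, cos_three_pi_div_two, Real.sin_zero, Real.sin_two_pi,
    ne_eq, Nat.add_eq_zero_iff, one_ne_zero, and_false, not_false_eq_true, zero_pow]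
  ring

theorem abs_cos_integral (k : ℕ) (hk : Odd k) :
    ∫ x in (0 : ℝ)..(2 * Real.pi), |Real.cos x| ^ k = J k := by
  have hpi := Real.pi_pos
  have hc : Continuous fun x : ℝ => |Real.cos x| ^ k := by fun_prop
  have hi : ∀ a b : ℝ, IntervalIntegrable (fun x : ℝ => |Real.cos x| ^ k) volume a b :=
    fun a b => hc.intervalIntegrable a b
  rw [← intervalIntegral.integral_add_adjacent_intervals (hi 0 (Real.pi / 2)) (hi _ _),
    ← intervalIntegral.integral_add_adjacent_intervals (hi (Real.pi / 2) (3 * Real.pi / 2))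
      (hi _ _), J]
  have h1 : ∫ x in (0 : ℝ)..(Real.pi / 2), |Real.cos x| ^ k =
      ∫ x in (0 : ℝ)..(Real.pi / 2), Real.cos x ^ k := by
    refine intervalIntegral.integral_congr fun x hx => ?_
    rw [Set.uIcc_of_le (by linarith)] at hx
    rw [abs_of_nonneg (Real.cos_nonneg_of_mem_Icc ⟨by linarith [hx.1], hx.2⟩)]
  have h2 : ∫ x in (Real.pi / 2)..(3 * Real.pi / 2), |Real.cos x| ^ k =
      -∫ x in (Real.pi / 2)..(3 * Real.pi / 2), Real.cos x ^ k := by
    rw [← intervalIntegral.integral_neg]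
    refine intervalIntegral.integral_congr fun x hx => ?_
    rw [Set.uIcc_of_le (by linarith)] at hx
    change |Real.cos x| ^ k = -Real.cos x ^ k
    rw [abs_of_nonpos (Real.cos_nonpos_of_pi_div_two_le_of_le hx.1 (by linarith [hx.2])),
      hk.neg_pow]
  have h3 : ∫ x in (3 * Real.pi / 2)..(2 * Real.pi), |Real.cos x| ^ k =
      ∫ x in (3 * Real.pi / 2)..(2 * Real.pi), Real.cos x ^ k := by
    refine intervalIntegral.integral_congr fun x hx => ?_
    rw [Set.uIcc_of_le (by linarith)] at hx
    have : 0 ≤ Real.cos x := by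
      rw [← Real.cos_sub_two_pi]
      exact Real.cos_nonneg_of_mem_Icc ⟨by linarith [hx.1], by linarith [hx.2]⟩
    rw [abs_of_nonneg this]
  rw [h1, h2, h3]
  ring

theorem mom_half (k : ℕ) (hk : Odd k) : mom ((k : ℝ) / 2) = (2 * Real.pi)⁻¹ * J k := by
  rw [← abs_cos_integral k hk, mom, avg]
  congr 1
  refine intervalIntegral.integral_congr fun x _ => ?_
  rw [← sq_abs, ← Real.rpow_natCast (|Real.cos x|) 2, ← Real.rpow_mul (abs_nonneg _),
    ← Real.rpow_natCast]
  congr 1
  push_cast
  ring

theorem J_three : J 3 = 8 / 3 := by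
  have := J_succ 1
  rw [J_one] at this
  rw [this]; norm_num

theorem J_five : J 5 = 32 / 15 := by
  have := J_succ 3
  rw [J_three] at this
  rw [this]; norm_num

theorem mom_three_half : mom (3 / 2) = 4 / (3 * Real.pi) := by
  have := mom_half 3 (by decide)
  rw [J_three] at this
  push_cast at this
  rw [this]
  have := Real.pi_pos.ne'
  field_simp
  norm_num

theorem mom_five_half : mom (5 / 2) = 16 / (15 * Real.pi) := by
  have := mom_half 5 (by decide)
  rw [J_five] at this
  push_cast at this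
  rw [this]
  have := Real.pi_pos.ne'
  field_simp
  norm_num

theorem mom_three : mom 3 = 5 / 16 := by
  have h := mom_natCast 3
  rw [Nat.cast_ofNat] at h
  rw [h, avg]
  have e : 2 * 3 = (2 + 2) + 2 := rfl
  rw [e, integral_cos_pow (2 + 2), integral_cos_pow 2, integral_cos_sq]
  simp only [Real.sin_two_pi, Real.sin_zero]
  have := Real.pi_pos.ne'
  push_cast
  field_simp
  ring

theorem kap_three_half : -0.3024 < kap (3 / 2) ∧ kap (3 / 2) < -0.3022 := by
  rw [kap, mom_three_half]
  have h1 := Real.pi_gt_d4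
  have h2 := Real.pi_lt_d4
  have h0 := Real.pi_pos
  constructor
  · have : (1.6976 : ℝ) < 4 * (4 / (3 * Real.pi)) := by
      rw [← mul_div_assoc, lt_div_iff₀ (by positivity)]
      nlinarith
    linarith
  · have : 4 * (4 / (3 * Real.pi)) < (1.6978 : ℝ) := by
      rw [← mul_div_assoc, div_lt_iff₀ (by positivity)]
      nlinarith
    linarith

theorem kap_five_half : -0.6419 < kap (5 / 2) ∧ kap (5 / 2) < -0.6418 := by
  rw [kap, mom_five_half]
  have h1 := Real.pi_gt_d4
  have h2 := Real.pi_lt_d4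
  have h0 := Real.pi_pos
  constructor
  · have : (1.3581 : ℝ) < 4 * (16 / (15 * Real.pi)) := by
      rw [← mul_div_assoc, lt_div_iff₀ (by positivity)]
      nlinarith
    linarith
  · have : 4 * (16 / (15 * Real.pi)) < (1.3582 : ℝ) := by
      rw [← mul_div_assoc, div_lt_iff₀ (by positivity)]
      nlinarith
    linarith

theorem kap_three' : kap 3 = -3 / 4 := by rw [kap, mom_three]; norm_num

theorem kap_neg {q : ℝ} (hq : 1 < q) : kap q < 0 := by
  by_cases h : q < 2
  · have := kap_three (a := 1) (b := q) (c := 2) one_pos hq h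
    rw [kap_one, kap_two] at this
    nlinarith
  · rcases (not_lt.1 h).eq_or_lt with h | h
    · rw [← h, kap_two]; norm_num
    · have h2 : mom q ≤ mom 2 := by
        unfold mom
        refine avg_mono (measurable_cosq _) (measurable_cosq _) (C := 1)
          (cosq_bdd (by linarith)) (cosq_bdd (by norm_num)) fun φ => ?_
        rcases (sq_nonneg (Real.cos φ)).eq_or_lt with h0 | h0
        · rw [← h0, Real.zero_rpow (by linarith), Real.zero_rpow (by norm_num)]
        · exact Real.rpow_le_rpow_of_exponent_ge h0 (Real.cos_sq_le_one φ) h.le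
      rw [mom_two] at h2
      rw [kap]
      linarith

/-- The key inequality for `c* ≥ 3.8`. -/
theorem kap_lower {q : ℝ} (hq : 1 < q) : 0 < 5 / 19 * q + kap q := by
  have k32 := kap_three_half
  have k2 := kap_two
  have k52 := kap_five_half
  have k3 := kap_three'
  rcases lt_trichotomy q 2 with h | h | h
  · have h1 := kap_three (a := q) (b := 2) (c := 5 / 2) (by linarith) h (by norm_num)
    rw [k2] at h1
    have h2 : (2 - q) * kap (5 / 2) ≤ (2 - q) * (-0.6418) :=
      mul_le_mul_of_nonneg_left k52.2.le (by linarith)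
    linarith
  · rw [h, k2]; norm_num
  rcases lt_trichotomy q (5 / 2) with h' | h' | h'
  · have h1 := kap_three (a := q) (b := 5 / 2) (c := 3) (by linarith) h' (by norm_num)
    have h2 := kap_three (a := 3 / 2) (b := 2) (c := q) (by norm_num) (by norm_num) h
    rw [k3] at h1
    rw [k2] at h2
    have h3 : (3 - q) * (-0.6419) ≤ (3 - q) * kap (5 / 2) :=
      mul_le_mul_of_nonneg_left k52.1.le (by linarith)
    have h4 : (q - 2) * kap (3 / 2) ≤ (q - 2) * (-0.3022) :=
      mul_le_mul_of_nonneg_left k32.2.le (by linarith)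
    by_cases h5 : q < 2.189
    · linarith
    · linarith
  · rw [h']; linarith
  rcases le_or_gt q 3 with h'' | h''
  · have h1 := kap_three (a := 2) (b := 5 / 2) (c := q) (by norm_num) (by norm_num) h'
    rw [k2] at h1
    have h3 : (q - 2) * (-0.6419) ≤ (q - 2) * kap (5 / 2) :=
      mul_le_mul_of_nonneg_left k52.1.le (by linarith)
    linarith
  · have h1 := kap_three (a := 5 / 2) (b := 3) (c := q) (by norm_num) (by norm_num) h''
    rw [k3] at h1
    have h3 : (q - 3) * kap (5 / 2) ≤ (q - 3) * (-0.6418) :=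
      mul_le_mul_of_nonneg_left k52.2.le (by linarith)
    linarith

theorem cstar_bddBelow : BddBelow (Set.range fun q : Set.Ioi (1 : ℝ) => (q : ℝ) / (2 - 4 * mom q)) := by
  refine ⟨0, ?_⟩
  rintro _ ⟨⟨q, hq⟩, rfl⟩
  have hq' : 1 < q := hq
  have := kap_neg hq'
  rw [kap] at this
  exact div_nonneg (by change 0 ≤ q; linarith) (by change 0 ≤ 2 - 4 * mom q; linarith)

theorem cstar_ge : 3.8 ≤ cstar := by
  have : Nonempty (Set.Ioi (1 : ℝ)) := ⟨⟨2, by norm_num [Set.mem_Ioi]⟩⟩
  refine le_ciInf fun ⟨q, hq⟩ => ?_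
  have hq' : 1 < q := hq
  have h1 := kap_neg hq'
  have h2 := kap_lower hq'
  rw [kap] at h1 h2
  change 3.8 ≤ q / (2 - 4 * mom q)
  rw [le_div_iff₀ (by linarith)]
  linarith

theorem cstar_lt : cstar < 3.9 := by
  have h := ciInf_le cstar_bddBelow (⟨5 / 2, by norm_num [Set.mem_Ioi]⟩ : Set.Ioi (1 : ℝ))
  refine lt_of_le_of_lt h ?_
  change (5 / 2 : ℝ) / (2 - 4 * mom (5 / 2)) < 3.9
  have k := kap_five_half.2
  rw [kap] at k
  rw [div_lt_iff₀ (by linarith)]
  linarith

theorem rate_of_lt {c' : ℝ} (h0 : 0 < c') (h : c' < cstar) {q : ℝ} (hq : 1 < q) :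
    0 < (1 / c') * q + kap q := by
  have h1 := ciInf_le cstar_bddBelow (⟨q, hq⟩ : Set.Ioi (1 : ℝ))
  have h2 : c' < q / (2 - 4 * mom q) := lt_of_lt_of_le h h1
  have h3 := kap_neg hq
  rw [kap] at h3
  rw [lt_div_iff₀ (by linarith)] at h2
  have h4 : 2 - 4 * mom q < q / c' := by
    rw [lt_div_iff₀ h0]
    linarith
  rw [kap]
  have : (1 / c') * q = q / c' := by ring
  rw [this]
  linarith

/-- The lower bound: before time `c n log n`, `c < c*`, the walk is not mixed. -/
theorem lower_cstar {c : ℝ} (hc : c < cstar) {ε : ℝ} (hε : ε < 1) :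
    ∀ᶠ n : ℕ in atTop, ∀ t : ℕ, (t : ℝ) ≤ c * n * Real.log n →
      ∃ x : E n, ‖x‖ = 1 ∧ ε < tv (law x t) (unifS n) := by
  have h38 := cstar_ge
  set c1 := max c 3 with hc1
  have h1 : c1 < cstar := max_lt hc (by norm_num at h38 ⊢; linarith)
  have h2 : 3 ≤ c1 := le_max_right _ _
  set c2 := (c1 + cstar) / 2 with hc2
  have h3 : c1 < c2 := by rw [hc2]; linarith
  have h4 : c2 < cstar := by rw [hc2]; linarith
  have h := lower (c := c1) (c' := c2) (by linarith) h3 (by linarith)
    (fun q hq => rate_of_lt (by linarith) h4 hq) (ε := max ε 0) (le_max_right _ _)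
    (max_lt hε one_pos)
  filter_upwards [h, eventually_ge_atTop 1] with n hn hn1 t ht
  have hn0 : (0 : ℝ) ≤ n := Nat.cast_nonneg n
  have hl : 0 ≤ Real.log n := Real.log_natCast_nonneg n
  obtain ⟨x, hx1, hx2⟩ := hn t (ht.trans (mul_le_mul_of_nonneg_right
    (mul_le_mul_of_nonneg_right (le_max_left _ _) hn0) hl))
  exact ⟨x, hx1, lt_of_le_of_lt (le_max_left _ _) hx2⟩

end Pf31f09
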