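import Mathlib
import Pool.Agent.Lib.Pf31f09.Basic

/-! Kac's walk on the special orthogonal group: definitions and the algebra of rotations. -/

noncomputable section

open Matrix Finset MeasureTheory
open scoped Matrix.Norms.Frobenius

namespace Pf31f09.SO

/-- Square matrices. -/
abbrev Mat (n : ℕ) := Matrix (Fin n) (Fin n) ℝ

/-- Pairs `i < j`. -/
abbrev Pr (n : ℕ) := {p : Fin n × Fin n // p.1 < p.2}

/-- Coordinates on the skew matrices. -/
abbrev V (n : ℕ) := EuclideanSpace ℝ (Pr n)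

variable {n : ℕ}

/-- The generator of the rotations in the plane of the pair `e`. -/
def G (e : Pr n) : Mat n := Matrix.single e.1.2 e.1.1 1 - Matrix.single e.1.1 e.1.2 1

/-- The rotation by the angle `θ` in the plane of the pair `e`. -/
def R (e : Pr n) (θ : ℝ) : Mat n := 1 + Real.sin θ • G e + (1 - Real.cos θ) • (G e * G e)

theorem Pr.ne (e : Pr n) : e.1.1 ≠ e.1.2 := e.2.ne

theorem G_transpose (e : Pr n) : (G e)ᵀ = - G e := by
  simp [G]

theorem G_sq (e : Pr n) :
    G e * G e = - Matrix.single e.1.1 e.1.1 1 - Matrix.single e.1.2 e.1.2 1 := by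
  have h := Pr.ne e
  simp only [G, sub_mul, mul_sub]
  rw [Matrix.single_mul_single_of_ne _ _ _ _ h, Matrix.single_mul_single_same,
    Matrix.single_mul_single_same, Matrix.single_mul_single_of_ne _ _ _ _ h.symm]
  simp only [mul_one]
  abel

theorem G_cube (e : Pr n) : G e * (G e * G e) = - G e := by
  have h := Pr.ne e
  rw [G_sq]
  simp only [G, sub_mul, mul_sub, mul_neg]
  rw [Matrix.single_mul_single_same, Matrix.single_mul_single_of_ne _ _ _ _ h,
    Matrix.single_mul_single_of_ne _ _ _ _ h.symm, Matrix.single_mul_single_same]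
  simp only [mul_one]
  abel

theorem G_cube' (e : Pr n) : G e * G e * G e = - G e := by rw [mul_assoc, G_cube]

theorem R_zero (e : Pr n) : R e 0 = 1 := by simp [R]

theorem R_add (e : Pr n) (a b : ℝ) : R e (a + b) = R e a * R e b := by
  have h4 : G e * G e * (G e * G e) = - (G e * G e) := by
    rw [← mul_assoc, G_cube', neg_mul]
  simp only [R, add_mul, mul_add, one_mul, mul_one, smul_mul_assoc, mul_smul_comm, h4, G_cube,
    G_cube', Real.sin_add, Real.cos_add, smul_neg]
  module

theorem R_comm (e : Pr n) (a b : ℝ) : R e a * R e b = R e b * R e a := by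
  rw [← R_add, add_comm, R_add]

theorem R_transpose (e : Pr n) (θ : ℝ) : (R e θ)ᵀ = R e (-θ) := by
  simp [R, G_transpose]

theorem R_transpose_mul (e : Pr n) (θ : ℝ) : (R e θ)ᵀ * R e θ = 1 := by
  rw [R_transpose, ← R_add]; simp [R_zero]

theorem R_mul_transpose (e : Pr n) (θ : ℝ) : R e θ * (R e θ)ᵀ = 1 := by
  rw [R_transpose, ← R_add]; simp [R_zero]

theorem R_mul_G (e : Pr n) (θ : ℝ) : R e θ * G e = G e * R e θ := by
  simp only [R, add_mul, mul_add, one_mul, mul_one, smul_mul_assoc, mul_smul_comm, G_cube,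
    G_cube']

theorem R_mul_G_eq (e : Pr n) (θ : ℝ) :
    R e θ * G e = Real.cos θ • G e + Real.sin θ • (G e * G e) := by
  simp only [R, add_mul, one_mul, smul_mul_assoc, G_cube']
  module

theorem R_periodic (e : Pr n) : Function.Periodic (R e) (2 * Real.pi) := by
  intro θ
  simp [R]

theorem R_conj_G (e : Pr n) (θ : ℝ) : R e θ * G e * (R e θ)ᵀ = G e := by
  rw [R_mul_G, mul_assoc, R_mul_transpose, mul_one]

theorem hasDerivAt_R (e : Pr n) (θ : ℝ) : HasDerivAt (R e) (R e θ * G e) θ := by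
  rw [R_mul_G_eq]
  have h1 : HasDerivAt (fun θ => Real.sin θ • G e) (Real.cos θ • G e) θ :=
    (Real.hasDerivAt_sin θ).smul_const (G e)
  have h2 : HasDerivAt (fun θ => (1 - Real.cos θ) • (G e * G e)) (Real.sin θ • (G e * G e)) θ := by
    have := ((Real.hasDerivAt_cos θ).const_sub 1).smul_const (G e * G e)
    rw [neg_neg] at this
    exact this
  have h3 := (h1.const_add (1 : Mat n)).add h2
  exact h3

theorem continuous_R (e : Pr n) : Continuous (R e) := by
  unfold R
  fun_prop

theorem norm_sq_eq (A : Mat n) : ‖A‖ ^ 2 = ∑ i, ∑ j, A i j ^ 2 := by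
  rw [Matrix.frobenius_norm_def]
  rw [← Real.sqrt_eq_rpow, Real.sq_sqrt]
  · refine Finset.sum_congr rfl fun i _ => Finset.sum_congr rfl fun j _ => ?_
    rw [Real.norm_eq_abs, Real.rpow_two, sq_abs]
  · exact Finset.sum_nonneg fun i _ => Finset.sum_nonneg fun j _ => by positivity

theorem norm_sq_trace (A : Mat n) : ‖A‖ ^ 2 = (Aᵀ * A).trace := by
  rw [norm_sq_eq, Matrix.trace, Finset.sum_comm]
  refine Finset.sum_congr rfl fun i _ => ?_
  simp only [Matrix.diag_apply, Matrix.mul_apply, Matrix.transpose_apply]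
  exact Finset.sum_congr rfl fun j _ => by ring

theorem norm_mul_left {U : Mat n} (hU : Uᵀ * U = 1) (A : Mat n) : ‖U * A‖ = ‖A‖ := by
  have h : ‖U * A‖ ^ 2 = ‖A‖ ^ 2 := by
    rw [norm_sq_trace, norm_sq_trace, Matrix.transpose_mul]
    rw [Matrix.mul_assoc, ← Matrix.mul_assoc Uᵀ U A, hU, Matrix.one_mul]
  exact (sq_eq_sq₀ (norm_nonneg _) (norm_nonneg _)).1 h

theorem norm_mul_right {U : Mat n} (hU : U * Uᵀ = 1) (A : Mat n) : ‖A * U‖ = ‖A‖ := by
  have h := norm_mul_left (U := Uᵀ) (by simpa using hU) Aᵀ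
  rw [← Matrix.transpose_mul, Matrix.frobenius_norm_transpose,
    Matrix.frobenius_norm_transpose] at h
  exact h

theorem norm_G (e : Pr n) : ‖G e‖ ^ 2 = 2 := by
  rw [norm_sq_trace, G_transpose, neg_mul, G_sq]
  simp
  norm_num

/-- The skew matrix with given coordinates. -/
def iotaL (n : ℕ) : V n →ₗ[ℝ] Mat n where
  toFun a := ∑ e : Pr n, a e • G e
  map_add' a b := by simp [add_smul, Finset.sum_add_distrib]
  map_smul' c a := by simp [smul_smul, Finset.smul_sum]

/-- The skew matrix with given coordinates. -/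
def iota (n : ℕ) : V n →L[ℝ] Mat n := LinearMap.toContinuousLinearMap (iotaL n)

theorem iota_apply (a : V n) : iota n a = ∑ e : Pr n, a e • G e := rfl

/-- The coordinates of the skew part of a matrix. -/
def coL (n : ℕ) : Mat n →ₗ[ℝ] V n where
  toFun A := WithLp.toLp 2 fun e => (A e.1.2 e.1.1 - A e.1.1 e.1.2) / 2
  map_add' A B := by
    ext e
    simp
    ring
  map_smul' c A := by
    ext e
    simp
    ring

/-- The coordinates of the skew part of a matrix. -/
def co (n : ℕ) : Mat n →L[ℝ] V n := LinearMap.toContinuousLinearMap (coL n)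

theorem co_apply (A : Mat n) (e : Pr n) :
    co n A e = (A e.1.2 e.1.1 - A e.1.1 e.1.2) / 2 := rfl

theorem G_apply (e : Pr n) (k l : Fin n) : G e k l =
    (if k = e.1.2 ∧ l = e.1.1 then 1 else 0) - (if k = e.1.1 ∧ l = e.1.2 then 1 else 0) := by
  simp only [G, Matrix.sub_apply, Matrix.single_apply]
  congr 1 <;> congr 1 <;> simp [eq_comm]

theorem iota_entry {k l : Fin n} (h : k < l) (a : V n) : iota n a l k = a ⟨(k, l), h⟩ := by
  rw [iota_apply, Matrix.sum_apply]
  rw [Finset.sum_eq_single ⟨(k, l), h⟩]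
  · simp [G_apply, h.ne]
  · intro e _ he
    rw [Matrix.smul_apply, G_apply]
    have h1 : ¬ (l = e.1.2 ∧ k = e.1.1) := by
      rintro ⟨h1, h2⟩
      apply he
      apply Subtype.ext
      exact Prod.ext h2.symm h1.symm
    have h2 : ¬ (l = e.1.1 ∧ k = e.1.2) := by
      rintro ⟨h1, h2⟩
      have := e.2
      rw [← h1, ← h2] at this
      exact absurd h (not_lt.2 this.le)
    simp [h1, h2]
  · simp

theorem iota_transpose (a : V n) : (iota n a)ᵀ = - iota n a := by
  rw [iota_apply, Matrix.transpose_sum, ← Finset.sum_neg_distrib]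
  refine Finset.sum_congr rfl fun e _ => ?_
  rw [Matrix.transpose_smul, G_transpose, smul_neg]

theorem iota_co (A : Mat n) (hA : Aᵀ = - A) : iota n (co n A) = A := by
  have hs : ∀ i j, A j i = - A i j := fun i j => by
    have := congrFun (congrFun hA i) j
    simpa using this
  have ht : ∀ i j, (iota n (co n A)) j i = - (iota n (co n A)) i j := fun i j => by
    have := congrFun (congrFun (iota_transpose (co n A)) i) j
    simpa using this
  ext i j
  rcases lt_trichotomy i j with h | h | h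
  · have h1 := iota_entry h (co n A)
    rw [ht j i, h1, co_apply, hs i j]
    ring
  · subst h
    have h1 := ht i i
    have h2 := hs i i
    linarith
  · rw [iota_entry h, co_apply, hs j i]
    ring

theorem co_iota (a : V n) : co n (iota n a) = a := by
  ext e
  rw [co_apply]
  have h1 := iota_entry e.2 a
  have h2 : (iota n a) e.1.1 e.1.2 = - (iota n a) e.1.2 e.1.1 := by
    have := congrFun (congrFun (iota_transpose a) e.1.2) e.1.1
    simpa using this
  rw [h2, h1]
  simp

theorem sum_pairs_symm (f : Fin n → Fin n → ℝ) (hf : ∀ i j, f i j = f j i)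
    (hd : ∀ i, f i i = 0) : ∑ i, ∑ j, f i j = 2 * ∑ e : Pr n, f e.1.2 e.1.1 := by
  have h1 : ∑ i, ∑ j, f i j = ∑ p : Fin n × Fin n, f p.1 p.2 :=
    (Fintype.sum_prod_type' f).symm
  have h2 : ∑ p : Fin n × Fin n, f p.1 p.2 =
      (∑ p : Fin n × Fin n with p.1 < p.2, f p.1 p.2) +
      ∑ p : Fin n × Fin n with ¬ p.1 < p.2, f p.1 p.2 :=
    (Finset.sum_filter_add_sum_filter_not _ _ _).symm
  have h3 : ∑ p : Fin n × Fin n with ¬ p.1 < p.2, f p.1 p.2 =
      ∑ p : Fin n × Fin n with p.2 < p.1, f p.1 p.2 := by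
    refine (Finset.sum_subset ?_ ?_).symm
    · intro p hp
      simp only [Finset.mem_filter, Finset.mem_univ, true_and] at hp ⊢
      exact not_lt.2 hp.le
    · intro p hp hp'
      simp only [Finset.mem_filter, Finset.mem_univ, true_and] at hp hp'
      have : p.1 = p.2 := le_antisymm (not_lt.1 hp') (not_lt.1 hp)
      rw [this, hd]
  have h4 : ∑ p : Fin n × Fin n with p.2 < p.1, f p.1 p.2 =
      ∑ p : Fin n × Fin n with p.1 < p.2, f p.1 p.2 := by
    refine Finset.sum_nbij' (fun p => (p.2, p.1)) (fun p => (p.2, p.1)) ?_ ?_ ?_ ?_ ?_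
    · intro p hp; simpa using hp
    · intro p hp; simpa using hp
    · intro p _; rfl
    · intro p _; rfl
    · intro p _; exact hf _ _
  have h5 : ∑ e : Pr n, f e.1.2 e.1.1 = ∑ p : Fin n × Fin n with p.1 < p.2, f p.1 p.2 := by
    rw [← Finset.sum_subtype_eq_sum_filter]
    rw [Finset.subtype_univ]
    exact Finset.sum_congr rfl fun e _ => hf _ _
  rw [h1, h2, h3, h4, h5]
  ring

theorem norm_iota_sq (a : V n) : ‖iota n a‖ ^ 2 = 2 * ‖a‖ ^ 2 := by
  rw [norm_sq_eq, EuclideanSpace.norm_sq_eq]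
  have hs : ∀ i j, (iota n a) j i = - (iota n a) i j := fun i j => by
    have := congrFun (congrFun (iota_transpose a) i) j
    simpa using this
  rw [sum_pairs_symm (fun i j => (iota n a) i j ^ 2) (fun i j => by rw [hs i j]; ring)
    (fun i => by have := hs i i; have h0 : (iota n a) i i = 0 := by linarith
                 simp [h0])]
  congr 1
  refine Finset.sum_congr rfl fun e _ => ?_
  rw [iota_entry e.2 a, Real.norm_eq_abs, sq_abs]

/-- The adjoint action in coordinates. -/
def AdV (U : Mat n) : V n →L[ℝ] V n :=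
  (co n).comp ((((ContinuousLinearMap.mul ℝ (Mat n)) U).comp
    ((ContinuousLinearMap.mul ℝ (Mat n)).flip Uᵀ)).comp (iota n))

theorem AdV_apply (U : Mat n) (a : V n) : AdV U a = co n (U * iota n a * Uᵀ) := by
  rw [mul_assoc]
  rfl

theorem iota_AdV (U : Mat n) (a : V n) : iota n (AdV U a) = U * iota n a * Uᵀ := by
  rw [AdV_apply, iota_co]
  rw [Matrix.transpose_mul, Matrix.transpose_mul, Matrix.transpose_transpose, iota_transpose]
  rw [neg_mul, mul_neg, mul_assoc]

theorem norm_AdV {U : Mat n} (h1 : Uᵀ * U = 1) (a : V n) : ‖AdV U a‖ = ‖a‖ := by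
  have h : 2 * ‖AdV U a‖ ^ 2 = 2 * ‖a‖ ^ 2 := by
    rw [← norm_iota_sq, ← norm_iota_sq, iota_AdV, norm_mul_right (by simpa using h1),
      norm_mul_left h1]
  have h' : ‖AdV U a‖ ^ 2 = ‖a‖ ^ 2 := by linarith
  exact (sq_eq_sq₀ (norm_nonneg _) (norm_nonneg _)).1 h'

/-- The basis vectors. -/
def ev (e : Pr n) : V n := EuclideanSpace.single e 1

theorem iota_ev (e : Pr n) : iota n (ev e) = G e := by
  rw [iota_apply, Finset.sum_eq_single e]
  · simp [ev]
  · intro b _ hb
    simp [ev, hb]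
  · simp

theorem AdV_R_ev (e : Pr n) (θ : ℝ) : AdV (R e θ) (ev e) = ev e := by
  rw [AdV_apply, iota_ev, R_conj_G, ← iota_ev, co_iota]

/-- Put the coordinate `e` to zero. -/
def Pj (e : Pr n) : V n →L[ℝ] V n :=
  ContinuousLinearMap.id ℝ (V n) - (EuclideanSpace.proj e).smulRight (ev e)

theorem Pj_apply (e : Pr n) (a : V n) : Pj e a = a - a e • ev e := by
  simp [Pj]

theorem norm_Pj_sq (e : Pr n) (a : V n) : ‖Pj e a‖ ^ 2 = ‖a‖ ^ 2 - a e ^ 2 := by
  rw [Pj_apply, EuclideanSpace.norm_sq_eq, EuclideanSpace.norm_sq_eq]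
  have h : ∀ i : Pr n, ‖(a - a e • ev e) i‖ ^ 2 = ‖a i‖ ^ 2 - (if i = e then a e ^ 2 else 0) := by
    intro i
    by_cases hi : i = e
    · subst hi
      simp [ev]
    · simp [ev, hi]
  rw [Finset.sum_congr rfl fun i _ => h i, Finset.sum_sub_distrib]
  simp

theorem norm_Pj_le (e : Pr n) (a : V n) : ‖Pj e a‖ ≤ ‖a‖ := by
  have := norm_Pj_sq e a
  exact (sq_le_sq₀ (norm_nonneg _) (norm_nonneg _)).1 (by nlinarith [sq_nonneg (a e)])

/-- Special orthogonal matrices. -/
def IsSO (U : Mat n) : Prop := Uᵀ * U = 1 ∧ U.det = 1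

/-- The law of one noise: a uniform pair and a uniform angle. -/
def nu (n : ℕ) : Measure (Pr n × ℝ) :=
  ((Fintype.card (Pr n) : ENNReal)⁻¹ • Measure.count).prod unifAngle

/-- The operator of the walk. -/
def Pop (f : Mat n → ℝ) (x : Mat n) : ℝ :=
  (Fintype.card (Pr n) : ℝ)⁻¹ * ∑ e : Pr n, ∫ θ, f (R e θ * x) ∂unifAngle

/-- A bound for the gradient on the group, in the left directions. -/
def GradBd (f : Mat n → ℝ) (L : ℝ) : Prop :=
  ∀ x : Mat n, IsSO x → ∀ a : V n, |fderiv ℝ f x (iota n a * x)| ≤ L * ‖a‖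

/-- The space of noises. -/
abbrev Om (n : ℕ) := ℕ → Pr n × ℝ

/-- The product of the first rotations. -/
def B : ℕ → Om n → Mat n
  | 0, _ => 1
  | s + 1, ω => R (ω s).1 (ω s).2 * B s ω

/-- The residual operators, in the moving frame. -/
def N : ℕ → Om n → (V n →L[ℝ] V n)
  | 0, _ => ContinuousLinearMap.id ℝ (V n)
  | s + 1, ω => (AdV (R (ω s).1 (ω s).2)).comp ((Pj (ω s).1).comp (N s ω))

/-- The derivative of `B T` in the angle number `s`. -/
def dB (s : ℕ) : ℕ → Om n → Mat n
  | 0, _ => 0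
  | T + 1, ω => R (ω T).1 (ω T).2 * dB s T ω +
      if T = s then R (ω T).1 (ω T).2 * G (ω T).1 * B T ω else 0

theorem B_succ (s : ℕ) (ω : Om n) : B (s + 1) ω = R (ω s).1 (ω s).2 * B s ω := rfl

theorem N_succ (s : ℕ) (ω : Om n) (a : V n) :
    N (s + 1) ω a = AdV (R (ω s).1 (ω s).2) (Pj (ω s).1 (N s ω a)) := rfl

theorem B_orth (s : ℕ) (ω : Om n) : (B s ω)ᵀ * B s ω = 1 := by
  induction s with
  | zero => simp [B]
  | succ s ih =>
    rw [B_succ, Matrix.transpose_mul, Matrix.mul_assoc, ← Matrix.mul_assoc (R _ _)ᵀ,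
      R_transpose_mul, Matrix.one_mul, ih]

theorem B_orth' (s : ℕ) (ω : Om n) : B s ω * (B s ω)ᵀ = 1 := by
  exact mul_eq_one_comm.1 (B_orth s ω)

theorem norm_N_le (s : ℕ) (ω : Om n) (a : V n) : ‖N s ω a‖ ≤ ‖a‖ := by
  induction s with
  | zero => simp [N]
  | succ s ih =>
    rw [N_succ, norm_AdV (R_transpose_mul _ _)]
    exact (norm_Pj_le _ _).trans ih

/-- The main identity: a motion of the starting point is a motion of the angles, up to the
residual. -/
theorem main_identity (T : ℕ) (ω : Om n) (a : V n) :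
    B T ω * iota n a = (∑ s ∈ Finset.range T, (N s ω a) (ω s).1 • dB s T ω) +
      iota n (N T ω a) * B T ω := by
  induction T with
  | zero => simp [B, N]
  | succ T ih =>
    rw [B_succ, Matrix.mul_assoc, ih, Matrix.mul_add, Finset.sum_range_succ]
    set r := R (ω T).1 (ω T).2 with hr
    have h1 : r * ∑ s ∈ Finset.range T, (N s ω a) (ω s).1 • dB s T ω =
        ∑ s ∈ Finset.range T, (N s ω a) (ω s).1 • dB s (T + 1) ω := by
      rw [Matrix.mul_sum]
      refine Finset.sum_congr rfl fun s hs => ?_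
      have : T ≠ s := (Finset.mem_range.1 hs).ne'
      simp only [dB, if_neg this, add_zero, Matrix.mul_smul, ← hr]
    have h0 : ∀ m, m ≤ T → dB T m ω = 0 := by
      intro m
      induction m with
      | zero => intro _; rfl
      | succ m ihm =>
        intro hm
        simp only [dB]
        rw [ihm (by omega), if_neg (by omega)]
        simp
    have h2 : dB T (T + 1) ω = r * G (ω T).1 * B T ω := by
      simp only [dB, h0 T le_rfl, ← hr]
      simp
    have h3 : iota n (N (T + 1) ω a) = r * iota n (Pj (ω T).1 (N T ω a)) * rᵀ := by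
      rw [N_succ, iota_AdV]
    have h4 : iota n (N T ω a) = iota n (Pj (ω T).1 (N T ω a)) +
        (N T ω a) (ω T).1 • G (ω T).1 := by
      rw [Pj_apply, map_sub, map_smul, iota_ev]
      abel
    have h5 : rᵀ * r = 1 := R_transpose_mul _ _
    rw [h1, h2, h3, h4]
    have h6 : r * iota n (Pj (ω T).1 (N T ω a)) * rᵀ * (r * B T ω) =
        r * (iota n (Pj (ω T).1 (N T ω a)) * B T ω) := by
      rw [Matrix.mul_assoc _ rᵀ, ← Matrix.mul_assoc rᵀ, h5, Matrix.one_mul, Matrix.mul_assoc]
    rw [h6, Matrix.add_mul, Matrix.mul_add, Matrix.smul_mul, Matrix.mul_smul, Matrix.mul_assoc r]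
    abel

theorem det_R (e : Pr n) (θ : ℝ) : (R e θ).det = 1 := by
  have h1 : R e θ = R e (θ / 2) * R e (θ / 2) := by rw [← R_add]; ring_nf
  have h2 : (R e (θ / 2)).det * (R e (θ / 2)).det = 1 := by
    have h3 := congrArg Matrix.det (R_transpose_mul e (θ / 2))
    rw [Matrix.det_mul, Matrix.det_transpose, Matrix.det_one] at h3
    exact h3
  rw [h1, Matrix.det_mul, h2]

theorem isSO_R (e : Pr n) (θ : ℝ) : IsSO (R e θ) := ⟨R_transpose_mul e θ, det_R e θ⟩

theorem IsSO.mul {U W : Mat n} (hU : IsSO U) (hW : IsSO W) : IsSO (U * W) := by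
  refine ⟨?_, ?_⟩
  · rw [Matrix.transpose_mul, Matrix.mul_assoc, ← Matrix.mul_assoc Uᵀ, hU.1, Matrix.one_mul, hW.1]
  · rw [Matrix.det_mul, hU.2, hW.2, one_mul]

theorem isSO_one : IsSO (1 : Mat n) := ⟨by simp, by simp⟩

theorem isSO_B (s : ℕ) (ω : Om n) : IsSO (B s ω) := by
  induction s with
  | zero => exact isSO_one
  | succ s ih => exact (isSO_R _ _).mul ih

theorem IsSO.norm_le {U : Mat n} (hU : IsSO U) : ‖U‖ ^ 2 = n := by
  rw [norm_sq_trace, hU.1]
  simp

end Pf31f09.SO
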