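import Mathlib
import Pool.Agent.Lib.Pf31f09.SODefs

/-! Averages of `C¹` functions and the contraction of the gradient under the operator of the walk.

Proof sketches.
* `contDiff_average`: `hasFDerivAt_integral_of_dominated_of_fderiv_le` on the ball of radius `1`
  around `x₀` (`‖W ω * x‖ ≤ K (‖x₀‖ + 1)`, and `fderiv ℝ f` is bounded on that closed ball, which is
  compact), then continuity of the derivative by `continuous_of_dominated` (locally) and
  `contDiff_one_iff_fderiv`.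
* `gradBd_Pop`: put `Df = fderiv ℝ f`. By `fderiv_Pop`,
  `D (Pop f) x (iota a * x) = avg_{e,θ} Df (R x) (R * iota a * x)`, and
  `R * iota a = iota (AdV R a) * R` (`iota_AdV`, `R_transpose_mul`). Write
  `a = Pj e a + a e • ev e`; `AdV (R e θ) (ev e) = ev e`, and
  `∫ θ, Df (R e θ * x) (G e * R e θ * x) ∂unifAngle = 0` because it is the integral of the
  derivative of the periodic function `θ ↦ f (R e θ * x)` (`hasDerivAt_R`, `R_mul_G`). The rest is
  at most `L * ‖Pj e a‖` (`norm_AdV`), and by Cauchy-Schwarz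
  `avg_e ‖Pj e a‖ ≤ sqrt (avg_e ‖Pj e a‖²) = sqrt (1 - 1 / card) * ‖a‖` (`norm_Pj_sq`). -/

noncomputable section

open Matrix Finset MeasureTheory
open scoped Matrix.Norms.Frobenius

namespace Pf31f09.SO

variable {n : ℕ}

namespace Gen

variable {A : Type*} [NormedRing A] [NormedAlgebra ℝ A] [ProperSpace A]

/-- The derivative of the integrand. -/
def dphi (f : A → ℝ) {Ω : Type*} (χ : Ω → ℝ) (W : Ω → A) (x : A) (ω : Ω) :
    A →L[ℝ] ℝ :=
  χ ω • (fderiv ℝ f (W ω * x)).comp (ContinuousLinearMap.mul ℝ (A) (W ω))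

omit [ProperSpace A] in
theorem dphi_apply (f : A → ℝ) {Ω : Type*} (χ : Ω → ℝ) (W : Ω → A) (x : A) (ω : Ω)
    (H : A) : dphi f χ W x ω H = χ ω * fderiv ℝ f (W ω * x) (W ω * H) := rfl

omit [ProperSpace A] in
theorem hasFDerivAt_phi {f : A → ℝ} (hf : ContDiff ℝ 1 f) {Ω : Type*} (χ : Ω → ℝ)
    (W : Ω → A) (x : A) (ω : Ω) :
    HasFDerivAt (fun x => χ ω * f (W ω * x)) (dphi f χ W x ω) x := by
  have h1 : HasFDerivAt (fun x => W ω * x) (ContinuousLinearMap.mul ℝ (A) (W ω)) x :=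
    (ContinuousLinearMap.mul ℝ (A) (W ω)).hasFDerivAt
  have h2 : HasFDerivAt f (fderiv ℝ f (W ω * x)) (W ω * x) :=
    ((hf.differentiable one_ne_zero) (W ω * x)).hasFDerivAt
  exact (h2.comp x h1).const_mul (χ ω)

theorem exists_bound {f : A → ℝ} (hf : ContDiff ℝ 1 f) (r : ℝ) :
    ∃ M, 0 ≤ M ∧ ∀ y : A, ‖y‖ ≤ r → |f y| ≤ M ∧ ‖fderiv ℝ f y‖ ≤ M := by
  have hc : IsCompact (Metric.closedBall (0 : A) r) := isCompact_closedBall _ _
  have h1 : Continuous f := hf.continuous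
  have h2 : Continuous (fderiv ℝ f) := hf.continuous_fderiv one_ne_zero
  obtain ⟨M1, hM1⟩ := hc.exists_bound_of_continuousOn h1.continuousOn
  obtain ⟨M2, hM2⟩ := hc.exists_bound_of_continuousOn h2.continuousOn
  refine ⟨max (max M1 M2) 0, le_max_right _ _, fun y hy => ?_⟩
  have hy' : y ∈ Metric.closedBall (0 : A) r := by simpa using hy
  refine ⟨?_, ?_⟩
  · exact ((hM1 y hy').trans (le_max_left _ _)).trans (le_max_left _ _)
  · exact ((hM2 y hy').trans (le_max_right _ _)).trans (le_max_left _ _)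

omit [ProperSpace A] in
theorem norm_dphi_le {f : A → ℝ} {Ω : Type*} {χ : Ω → ℝ} {W : Ω → A} {K M : ℝ}
    (hK : 0 ≤ K) (hM0 : 0 ≤ M) (hχ1 : ∀ ω, |χ ω| ≤ 1) (hW1 : ∀ ω, ‖W ω‖ ≤ K) {r : ℝ}
    (hM : ∀ y : A, ‖y‖ ≤ K * r → |f y| ≤ M ∧ ‖fderiv ℝ f y‖ ≤ M) {x : A} (hx : ‖x‖ ≤ r)
    (ω : Ω) : ‖dphi f χ W x ω‖ ≤ M * K := by
  have h1 : ‖W ω * x‖ ≤ K * r :=
    (norm_mul_le _ _).trans (mul_le_mul (hW1 ω) hx (norm_nonneg _) hK)
  have h2 := (hM _ h1).2
  unfold dphi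
  rw [norm_smul]
  have h3 : ‖(fderiv ℝ f (W ω * x)).comp (ContinuousLinearMap.mul ℝ (A) (W ω))‖ ≤ M * K := by
    refine (ContinuousLinearMap.opNorm_comp_le _ _).trans (mul_le_mul h2 ?_ (norm_nonneg _) hM0)
    exact (ContinuousLinearMap.opNorm_mul_apply_le ℝ (A) (W ω)).trans (hW1 ω)
  calc ‖χ ω‖ * _ ≤ 1 * (M * K) :=
        mul_le_mul (hχ1 ω) h3 (norm_nonneg _) zero_le_one
    _ = M * K := one_mul _

omit [ProperSpace A] in
theorem stronglyMeasurable_dphi {f : A → ℝ} (hf : ContDiff ℝ 1 f) {Ω : Type*}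
    [MeasurableSpace Ω] {χ : Ω → ℝ} {W : Ω → A} (hχ : Measurable χ)
    (hW : StronglyMeasurable W) (x : A) : StronglyMeasurable (dphi f χ W x) := by
  have h1 : StronglyMeasurable fun ω => W ω * x := hW.mul stronglyMeasurable_const
  have h2 : StronglyMeasurable fun ω => fderiv ℝ f (W ω * x) :=
    (hf.continuous_fderiv one_ne_zero).comp_stronglyMeasurable h1
  have h3 : StronglyMeasurable fun ω => ContinuousLinearMap.mul ℝ (A) (W ω) :=
    (ContinuousLinearMap.mul ℝ (A)).continuous.comp_stronglyMeasurable hW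
  have h4 : StronglyMeasurable fun ω =>
      (fderiv ℝ f (W ω * x)).comp (ContinuousLinearMap.mul ℝ (A) (W ω)) := by
    have hc : Continuous fun p : (A →L[ℝ] ℝ) × (A →L[ℝ] A) => p.1.comp p.2 :=
      continuous_fst.clm_comp continuous_snd
    exact hc.comp_stronglyMeasurable (h2.prodMk h3)
  exact hχ.stronglyMeasurable.smul h4

omit [ProperSpace A] in
theorem stronglyMeasurable_phi {f : A → ℝ} (hf : ContDiff ℝ 1 f) {Ω : Type*}
    [MeasurableSpace Ω] {χ : Ω → ℝ} {W : Ω → A} (hχ : Measurable χ)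
    (hW : StronglyMeasurable W) (x : A) :
    StronglyMeasurable fun ω => χ ω * f (W ω * x) := by
  have h1 : StronglyMeasurable fun ω => W ω * x := hW.mul stronglyMeasurable_const
  exact hχ.stronglyMeasurable.mul (hf.continuous.comp_stronglyMeasurable h1)

section

variable {Ω : Type*} [MeasurableSpace Ω] (μ : Measure Ω) [IsFiniteMeasure μ]
  {χ : Ω → ℝ} {W : Ω → A} {K : ℝ}

theorem hasFDerivAt_average (hχ : Measurable χ) (hχ1 : ∀ ω, |χ ω| ≤ 1)
    (hW : StronglyMeasurable W) (hW1 : ∀ ω, ‖W ω‖ ≤ K) {f : A → ℝ} (hf : ContDiff ℝ 1 f)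
    (x₀ : A) : Integrable (dphi f χ W x₀) μ ∧
    HasFDerivAt (fun x => ∫ ω, χ ω * f (W ω * x) ∂μ) (∫ ω, dphi f χ W x₀ ω ∂μ) x₀ := by
  have hW2 : ∀ ω, ‖W ω‖ ≤ |K| := fun ω => (hW1 ω).trans (le_abs_self K)
  obtain ⟨M, hM0, hM⟩ := exists_bound hf (|K| * (‖x₀‖ + 1))
  have hb : ∀ x ∈ Metric.ball x₀ 1, ∀ ω, ‖dphi f χ W x ω‖ ≤ M * |K| := by
    intro x hx ω
    refine norm_dphi_le (abs_nonneg K) hM0 hχ1 hW2 hM ?_ ω
    have h1 : ‖x - x₀‖ < 1 := by simpa [dist_eq_norm] using hx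
    have h2 : ‖x‖ ≤ ‖x - x₀‖ + ‖x₀‖ := by simpa using norm_add_le (x - x₀) x₀
    linarith
  have h0 : x₀ ∈ Metric.ball x₀ 1 := Metric.mem_ball_self one_pos
  refine ⟨Integrable.of_bound (stronglyMeasurable_dphi hf hχ hW x₀).aestronglyMeasurable (M * |K|)
    (Filter.Eventually.of_forall (hb x₀ h0)), ?_⟩
  refine hasFDerivAt_integral_of_dominated_of_fderiv_le (F := fun x ω => χ ω * f (W ω * x))
    (F' := fun x ω => dphi f χ W x ω) (bound := fun _ => M * |K|)
    (Metric.ball_mem_nhds x₀ one_pos) ?_ ?_ ?_ ?_ ?_ ?_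
  · exact Filter.Eventually.of_forall fun x =>
      (stronglyMeasurable_phi hf hχ hW x).aestronglyMeasurable
  · refine Integrable.of_bound (stronglyMeasurable_phi hf hχ hW x₀).aestronglyMeasurable M
      (Filter.Eventually.of_forall fun ω => ?_)
    have h1 : ‖W ω * x₀‖ ≤ |K| * (‖x₀‖ + 1) :=
      (norm_mul_le _ _).trans (mul_le_mul (hW2 ω) (by linarith) (norm_nonneg _) (abs_nonneg K))
    have h2 := (hM _ h1).1
    rw [norm_mul]
    calc ‖χ ω‖ * ‖f (W ω * x₀)‖ ≤ 1 * M := mul_le_mul (hχ1 ω) h2 (norm_nonneg _) zero_le_one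
      _ = M := one_mul _
  · exact (stronglyMeasurable_dphi hf hχ hW x₀).aestronglyMeasurable
  · exact Filter.Eventually.of_forall fun ω x hx => hb x hx ω
  · exact integrable_const _
  · exact Filter.Eventually.of_forall fun ω x _ => hasFDerivAt_phi hf χ W x ω

omit [MeasurableSpace Ω] [ProperSpace A] in
theorem continuous_dphi {f : A → ℝ} (hf : ContDiff ℝ 1 f) (ω : Ω) :
    Continuous fun x => dphi f χ W x ω := by
  have h1 : Continuous fun x : A => W ω * x := by fun_prop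
  have h2 : Continuous fun x : A => fderiv ℝ f (W ω * x) :=
    (hf.continuous_fderiv one_ne_zero).comp h1
  exact (h2.clm_comp continuous_const).const_smul (χ ω)

theorem continuous_integral_dphi (hχ : Measurable χ) (hχ1 : ∀ ω, |χ ω| ≤ 1)
    (hW : StronglyMeasurable W) (hW1 : ∀ ω, ‖W ω‖ ≤ K) {f : A → ℝ} (hf : ContDiff ℝ 1 f) :
    Continuous fun x => ∫ ω, dphi f χ W x ω ∂μ := by
  have hW2 : ∀ ω, ‖W ω‖ ≤ |K| := fun ω => (hW1 ω).trans (le_abs_self K)
  rw [continuous_iff_continuousAt]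
  intro x₀
  obtain ⟨M, hM0, hM⟩ := exists_bound hf (|K| * (‖x₀‖ + 1))
  refine continuousAt_of_dominated (bound := fun _ => M * |K|) ?_ ?_ ?_ ?_
  · exact Filter.Eventually.of_forall fun x =>
      (stronglyMeasurable_dphi hf hχ hW x).aestronglyMeasurable
  · filter_upwards [Metric.ball_mem_nhds x₀ one_pos] with x hx
    refine Filter.Eventually.of_forall fun ω => ?_
    refine norm_dphi_le (abs_nonneg K) hM0 hχ1 hW2 hM ?_ ω
    have h1 : ‖x - x₀‖ < 1 := by simpa [dist_eq_norm] using hx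
    have h2 : ‖x‖ ≤ ‖x - x₀‖ + ‖x₀‖ := by simpa using norm_add_le (x - x₀) x₀
    linarith
  · exact integrable_const _
  · exact Filter.Eventually.of_forall fun ω => (continuous_dphi hf ω).continuousAt

end

theorem contDiff_average {Ω : Type*} [MeasurableSpace Ω] (μ : Measure Ω) [IsFiniteMeasure μ]
    {χ : Ω → ℝ} {W : Ω → A} {K : ℝ} (hχ : Measurable χ) (hχ1 : ∀ ω, |χ ω| ≤ 1)
    (hW : StronglyMeasurable W) (hW1 : ∀ ω, ‖W ω‖ ≤ K) {f : A → ℝ} (hf : ContDiff ℝ 1 f) :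
    ContDiff ℝ 1 (fun x => ∫ ω, χ ω * f (W ω * x) ∂μ) := by
  rw [contDiff_one_iff_fderiv]
  have h := fun x => (hasFDerivAt_average μ hχ hχ1 hW hW1 hf x).2
  refine ⟨fun x => (h x).differentiableAt, ?_⟩
  have : fderiv ℝ (fun x => ∫ ω, χ ω * f (W ω * x) ∂μ) = fun x => ∫ ω, dphi f χ W x ω ∂μ :=
    funext fun x => (h x).fderiv
  rw [this]
  exact continuous_integral_dphi μ hχ hχ1 hW hW1 hf

theorem fderiv_average {Ω : Type*} [MeasurableSpace Ω] (μ : Measure Ω) [IsFiniteMeasure μ]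
    {χ : Ω → ℝ} {W : Ω → A} {K : ℝ} (hχ : Measurable χ) (hχ1 : ∀ ω, |χ ω| ≤ 1)
    (hW : StronglyMeasurable W) (hW1 : ∀ ω, ‖W ω‖ ≤ K) {f : A → ℝ} (hf : ContDiff ℝ 1 f)
    (x H : A) :
    fderiv ℝ (fun x => ∫ ω, χ ω * f (W ω * x) ∂μ) x H =
      ∫ ω, χ ω * fderiv ℝ f (W ω * x) (W ω * H) ∂μ := by
  obtain ⟨hi, hd⟩ := hasFDerivAt_average μ hχ hχ1 hW hW1 hf x
  rw [hd.fderiv, ContinuousLinearMap.integral_apply hi]
  rfl

omit [ProperSpace A] in
theorem continuous_fderiv_apply {f : A → ℝ} (hf : ContDiff ℝ 1 f) {c v : ℝ → A}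
    (hc : Continuous c) (hv : Continuous v) : Continuous fun θ => fderiv ℝ f (c θ) (v θ) :=
  ((hf.continuous_fderiv one_ne_zero).comp hc).clm_apply hv

omit [ProperSpace A] in
theorem hasDerivAt_comp {f : A → ℝ} (hf : ContDiff ℝ 1 f) {c : ℝ → A} {v : A} {θ : ℝ}
    (hc : HasDerivAt c v θ) : HasDerivAt (fun θ => f (c θ)) (fderiv ℝ f (c θ) v) θ := by
  have h2 : HasFDerivAt f (fderiv ℝ f (c θ)) (c θ) :=
    ((hf.differentiable one_ne_zero) (c θ)).hasFDerivAt
  exact h2.comp_hasDerivAt θ hc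

omit [ProperSpace A] in
theorem fderiv_const_mul_sum {ι : Type*} [Fintype ι] (c : ℝ) {g : ι → A → ℝ}
    (hg : ∀ i, ContDiff ℝ 1 (g i)) (x H : A) :
    fderiv ℝ (fun x => c * ∑ i, g i x) x H = c * ∑ i, fderiv ℝ (g i) x H := by
  have hd : ∀ i, HasFDerivAt (g i) (fderiv ℝ (g i) x) x := fun i =>
    (((hg i).differentiable one_ne_zero) x).hasFDerivAt
  have h1 : HasFDerivAt (fun x => c * ∑ i, g i x) (c • ∑ i, fderiv ℝ (g i) x) x := by
    have h2 := HasFDerivAt.fun_sum (u := (Finset.univ : Finset ι)) fun i _ => hd i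
    exact h2.const_mul _
  rw [h1.fderiv, _root_.smul_apply, _root_.sum_apply, smul_eq_mul]

omit [NormedAlgebra ℝ A] [ProperSpace A] in
theorem stronglyMeasurable_of_continuous {W : ℝ → A} (h : Continuous W) : StronglyMeasurable W :=
  h.stronglyMeasurable

end Gen

theorem contDiff_average {Ω : Type*} [MeasurableSpace Ω] (μ : Measure Ω) [IsFiniteMeasure μ]
    {χ : Ω → ℝ} {W : Ω → Mat n} {K : ℝ} (hχ : Measurable χ) (hχ1 : ∀ ω, |χ ω| ≤ 1)
    (hW : StronglyMeasurable W) (hW1 : ∀ ω, ‖W ω‖ ≤ K) {f : Mat n → ℝ} (hf : ContDiff ℝ 1 f) :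
    ContDiff ℝ 1 (fun x => ∫ ω, χ ω * f (W ω * x) ∂μ) :=
  Gen.contDiff_average μ hχ hχ1 hW hW1 hf

theorem fderiv_average {Ω : Type*} [MeasurableSpace Ω] (μ : Measure Ω) [IsFiniteMeasure μ]
    {χ : Ω → ℝ} {W : Ω → Mat n} {K : ℝ} (hχ : Measurable χ) (hχ1 : ∀ ω, |χ ω| ≤ 1)
    (hW : StronglyMeasurable W) (hW1 : ∀ ω, ‖W ω‖ ≤ K) {f : Mat n → ℝ} (hf : ContDiff ℝ 1 f)
    (x H : Mat n) :
    fderiv ℝ (fun x => ∫ ω, χ ω * f (W ω * x) ∂μ) x H =
      ∫ ω, χ ω * fderiv ℝ f (W ω * x) (W ω * H) ∂μ :=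
  Gen.fderiv_average μ hχ hχ1 hW hW1 hf x H

theorem norm_R_le (e : Pr n) (θ : ℝ) : ‖R e θ‖ ≤ Real.sqrt n := by
  have h := (isSO_R e θ).norm_le
  rw [← h, Real.sqrt_sq (norm_nonneg _)]

theorem average_R {f : Mat n → ℝ} (hf : ContDiff ℝ 1 f) (e : Pr n) :
    ContDiff ℝ 1 (fun x => ∫ θ, f (R e θ * x) ∂unifAngle) ∧
    ∀ x H : Mat n, fderiv ℝ (fun x => ∫ θ, f (R e θ * x) ∂unifAngle) x H =
      ∫ θ, fderiv ℝ f (R e θ * x) (R e θ * H) ∂unifAngle := by
  have hχ : Measurable fun _ : ℝ => (1 : ℝ) := measurable_const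
  have hχ1 : ∀ ω : ℝ, |(fun _ : ℝ => (1 : ℝ)) ω| ≤ 1 := fun _ => by simp
  have hW : StronglyMeasurable (R e) := Gen.stronglyMeasurable_of_continuous (continuous_R e)
  have h1 := contDiff_average unifAngle hχ hχ1 hW (norm_R_le e) hf
  have h2 := fun x H => fderiv_average unifAngle hχ hχ1 hW (norm_R_le e) hf x H
  simp only [one_mul] at h1 h2
  exact ⟨h1, h2⟩

theorem contDiff_Pop {f : Mat n → ℝ} (hf : ContDiff ℝ 1 f) : ContDiff ℝ 1 (Pop f) := by
  unfold Pop
  exact contDiff_const.mul (ContDiff.sum fun e _ => (average_R hf e).1)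

theorem fderiv_Pop {f : Mat n → ℝ} (hf : ContDiff ℝ 1 f) (x H : Mat n) :
    fderiv ℝ (Pop f) x H = (Fintype.card (Pr n) : ℝ)⁻¹ *
      ∑ e : Pr n, ∫ θ, fderiv ℝ f (R e θ * x) (R e θ * H) ∂unifAngle := by
  have h := Gen.fderiv_const_mul_sum (Fintype.card (Pr n) : ℝ)⁻¹
    (fun e => (average_R hf e).1) x H
  refine h.trans ?_
  congr 1
  exact Finset.sum_congr rfl fun e _ => (average_R hf e).2 x H

theorem hasDerivAt_orbit {f : Mat n → ℝ} (hf : ContDiff ℝ 1 f) (e : Pr n) (x : Mat n) (θ : ℝ) :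
    HasDerivAt (fun θ => f (R e θ * x)) (fderiv ℝ f (R e θ * x) (G e * (R e θ * x))) θ := by
  have h1 : HasDerivAt (fun θ => R e θ * x) (R e θ * G e * x) θ :=
    (hasDerivAt_R e θ).mul_const x
  have h3 : HasDerivAt (fun θ => f (R e θ * x)) (fderiv ℝ f (R e θ * x) (R e θ * G e * x)) θ :=
    Gen.hasDerivAt_comp hf h1
  rw [R_mul_G, mul_assoc] at h3
  exact h3

theorem integral_orbit {f : Mat n → ℝ} (hf : ContDiff ℝ 1 f) (e : Pr n) (x : Mat n) :
    ∫ θ, fderiv ℝ f (R e θ * x) (G e * (R e θ * x)) ∂unifAngle = 0 := by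
  rw [integral_unifAngle, avg]
  have hc : Continuous fun θ => fderiv ℝ f (R e θ * x) (G e * (R e θ * x)) := by
    have h1 : Continuous fun θ => R e θ * x := (continuous_R e).mul continuous_const
    exact Gen.continuous_fderiv_apply hf h1 (continuous_const.mul h1)
  have h := intervalIntegral.integral_eq_sub_of_hasDerivAt
    (f := fun θ => f (R e θ * x)) (a := 0) (b := 2 * Real.pi)
    (fun θ _ => hasDerivAt_orbit hf e x θ) (hc.intervalIntegrable _ _)
  have h2 : R e (2 * Real.pi) = R e 0 := by simpa using R_periodic e 0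
  rw [h, h2]
  simp

theorem ave_norm_Pj_le [Nonempty (Pr n)] (a : V n) :
    (Fintype.card (Pr n) : ℝ)⁻¹ * ∑ e : Pr n, ‖Pj e a‖ ≤
      Real.sqrt (1 - (Fintype.card (Pr n) : ℝ)⁻¹) * ‖a‖ := by
  have hc : (0 : ℝ) < Fintype.card (Pr n) := by exact_mod_cast Fintype.card_pos
  have h1 : (∑ e : Pr n, ‖Pj e a‖) ^ 2 ≤ (Fintype.card (Pr n) : ℝ) * ∑ e : Pr n, ‖Pj e a‖ ^ 2 := by
    have := sq_sum_le_card_mul_sum_sq (s := (Finset.univ : Finset (Pr n)))
      (f := fun e => ‖Pj e a‖)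
    simpa using this
  have h2 : ∑ e : Pr n, ‖Pj e a‖ ^ 2 = ((Fintype.card (Pr n) : ℝ) - 1) * ‖a‖ ^ 2 := by
    rw [Finset.sum_congr rfl fun e _ => norm_Pj_sq e a, Finset.sum_sub_distrib,
      EuclideanSpace.norm_sq_eq a]
    simp only [Finset.sum_const, Finset.card_univ, nsmul_eq_mul, Real.norm_eq_abs, sq_abs]
    ring
  have h3 : 0 ≤ 1 - (Fintype.card (Pr n) : ℝ)⁻¹ := by
    have : (1 : ℝ) ≤ Fintype.card (Pr n) := by exact_mod_cast Fintype.card_pos
    have := inv_le_one_of_one_le₀ this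
    linarith
  refine le_of_sq_le_sq ?_ (by positivity)
  rw [mul_pow, mul_pow, Real.sq_sqrt h3]
  rw [h2] at h1
  have h4 : ((Fintype.card (Pr n) : ℝ)⁻¹) ^ 2 * (∑ e : Pr n, ‖Pj e a‖) ^ 2 ≤
      ((Fintype.card (Pr n) : ℝ)⁻¹) ^ 2 *
        ((Fintype.card (Pr n) : ℝ) * (((Fintype.card (Pr n) : ℝ) - 1) * ‖a‖ ^ 2)) :=
    mul_le_mul_of_nonneg_left h1 (by positivity)
  refine h4.trans (le_of_eq ?_)
  field_simp

theorem gradBd_Pop {f : Mat n → ℝ} (hf : ContDiff ℝ 1 f) {L : ℝ} (hL : 0 ≤ L)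
    (h : GradBd f L) :
    GradBd (Pop f) (Real.sqrt (1 - (Fintype.card (Pr n) : ℝ)⁻¹) * L) := by
  intro x hx a
  rw [fderiv_Pop hf]
  rcases isEmpty_or_nonempty (Pr n) with hE | hE
  · simp only [Finset.univ_eq_empty, Finset.sum_empty, mul_zero, abs_zero]
    positivity
  have hterm : ∀ e : Pr n,
      |∫ θ, fderiv ℝ f (R e θ * x) (R e θ * (iota n a * x)) ∂unifAngle| ≤ L * ‖Pj e a‖ := by
    intro e
    have hcR : Continuous fun θ => R e θ * x := (continuous_R e).mul continuous_const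
    have hsplit : ∀ θ, fderiv ℝ f (R e θ * x) (R e θ * (iota n a * x)) =
        fderiv ℝ f (R e θ * x) (R e θ * (iota n (Pj e a) * x)) +
          a e * fderiv ℝ f (R e θ * x) (G e * (R e θ * x)) := by
      intro θ
      have h1 : iota n a = iota n (Pj e a) + a e • G e := by
        rw [Pj_apply, map_sub, map_smul, iota_ev]
        abel
      have h2 : R e θ * (iota n a * x) =
          R e θ * (iota n (Pj e a) * x) + a e • (G e * (R e θ * x)) := by
        rw [h1, add_mul, mul_add, smul_mul_assoc, mul_smul_comm, ← mul_assoc (R e θ) (G e) x,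
          R_mul_G, mul_assoc]
      rw [h2, map_add, map_smul, smul_eq_mul]
    have hbd : ∀ θ, |fderiv ℝ f (R e θ * x) (R e θ * (iota n (Pj e a) * x))| ≤
        L * ‖Pj e a‖ := by
      intro θ
      have h1 : R e θ * (iota n (Pj e a) * x) =
          iota n (AdV (R e θ) (Pj e a)) * (R e θ * x) := by
        rw [iota_AdV, mul_assoc (R e θ * iota n (Pj e a)), ← mul_assoc (R e θ)ᵀ,
          R_transpose_mul, one_mul, mul_assoc]
      rw [h1]
      refine (h _ ((isSO_R e θ).mul hx) _).trans ?_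
      rw [norm_AdV (R_transpose_mul e θ)]
    have hc1 : Continuous fun θ => fderiv ℝ f (R e θ * x) (R e θ * (iota n (Pj e a) * x)) :=
      Gen.continuous_fderiv_apply hf hcR ((continuous_R e).mul continuous_const)
    have hi1 : Integrable (fun θ => fderiv ℝ f (R e θ * x) (R e θ * (iota n (Pj e a) * x)))
        unifAngle :=
      Integrable.of_bound hc1.aestronglyMeasurable (L * ‖Pj e a‖)
        (Filter.Eventually.of_forall hbd)
    have hc2 : Continuous fun θ => fderiv ℝ f (R e θ * x) (G e * (R e θ * x)) :=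
      Gen.continuous_fderiv_apply hf hcR (continuous_const.mul hcR)
    have hi2 : Integrable (fun θ => a e * fderiv ℝ f (R e θ * x) (G e * (R e θ * x)))
        unifAngle := by
      refine Integrable.const_mul ?_ _
      refine Integrable.of_bound hc2.aestronglyMeasurable (L * ‖ev e‖)
        (Filter.Eventually.of_forall fun θ => ?_)
      have := h _ ((isSO_R e θ).mul hx) (ev e)
      rwa [iota_ev] at this
    rw [integral_congr_ae (Filter.Eventually.of_forall hsplit), integral_add hi1 hi2,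
      integral_const_mul, integral_orbit hf, mul_zero, add_zero]
    have h5 := norm_integral_le_of_norm_le_const (μ := unifAngle)
      (f := fun θ => fderiv ℝ f (R e θ * x) (R e θ * (iota n (Pj e a) * x)))
      (C := L * ‖Pj e a‖) (Filter.Eventually.of_forall hbd)
    simpa using h5
  calc |(Fintype.card (Pr n) : ℝ)⁻¹ *
        ∑ e : Pr n, ∫ θ, fderiv ℝ f (R e θ * x) (R e θ * (iota n a * x)) ∂unifAngle|
      ≤ (Fintype.card (Pr n) : ℝ)⁻¹ * ∑ e : Pr n, L * ‖Pj e a‖ := by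
        rw [abs_mul, abs_of_nonneg (by positivity : (0 : ℝ) ≤ (Fintype.card (Pr n) : ℝ)⁻¹)]
        refine mul_le_mul_of_nonneg_left ?_ (by positivity)
        exact (Finset.abs_sum_le_sum_abs _ _).trans (Finset.sum_le_sum fun e _ => hterm e)
    _ = L * ((Fintype.card (Pr n) : ℝ)⁻¹ * ∑ e : Pr n, ‖Pj e a‖) := by
        rw [← Finset.mul_sum]; ring
    _ ≤ L * (Real.sqrt (1 - (Fintype.card (Pr n) : ℝ)⁻¹) * ‖a‖) :=
        mul_le_mul_of_nonneg_left (ave_norm_Pj_le a) hL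
    _ = Real.sqrt (1 - (Fintype.card (Pr n) : ℝ)⁻¹) * L * ‖a‖ := by ring

theorem gradBd_iterate_Pop {f : Mat n → ℝ} (hf : ContDiff ℝ 1 f) {L : ℝ} (hL : 0 ≤ L)
    (h : GradBd f L) (t : ℕ) :
    ContDiff ℝ 1 (Pop^[t] f) ∧
      GradBd (Pop^[t] f) (Real.sqrt (1 - (Fintype.card (Pr n) : ℝ)⁻¹) ^ t * L) := by
  induction t with
  | zero => simpa using ⟨hf, h⟩
  | succ t ih =>
    rw [Function.iterate_succ_apply']
    refine ⟨contDiff_Pop ih.1, ?_⟩
    have h1 := gradBd_Pop ih.1 (mul_nonneg (pow_nonneg (Real.sqrt_nonneg _) t) hL) ih.2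
    rw [pow_succ']
    rw [mul_assoc]
    exact h1

/-- The gradient bound gives the Lipschitz property along the rotations. -/
theorem abs_sub_le_of_gradBd {f : Mat n → ℝ} (hf : ContDiff ℝ 1 f) {L : ℝ}
    (h : GradBd f L) (e : Pr n) (φ : ℝ) (x : Mat n) (hx : IsSO x) :
    |f (R e φ * x) - f x| ≤ L * |φ| := by
  have h1 := Convex.norm_image_sub_le_of_norm_hasDerivWithin_le (s := Set.univ)
    (f := fun θ => f (R e θ * x)) (f' := fun θ => fderiv ℝ f (R e θ * x) (G e * (R e θ * x)))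
    (C := L) (x := 0) (y := φ) (fun θ _ => (hasDerivAt_orbit hf e x θ).hasDerivWithinAt)
    (fun θ _ => by
      have := h _ ((isSO_R e θ).mul hx) (ev e)
      rw [iota_ev] at this
      have hev : ‖ev e‖ = 1 := by simp [ev]
      rw [hev, mul_one] at this
      exact this) convex_univ (Set.mem_univ _) (Set.mem_univ _)
  simpa [R_zero] using h1

end Pf31f09.SO
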