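import Mathlib
import Pool.Agent.Lib.Pf31f09.SODefs

/-! Every special orthogonal matrix is a product of at most `n (n - 1) / 2` plane rotations, with
angles of absolute value at most `π`; the oscillation of a function on the group.

Proof sketch. By induction on `k ≤ n`: for `g` special orthogonal with `g e_j = e_j` for all
`j ≥ k` (as `Fin n` values), `|F (g * x) - F x| ≤ π * (k (k - 1) / 2) * L` for all special
orthogonal `x`. Step `k → k + 1`: the column `v` of `g` with index `k` vanishes at the indices
`> k` (columns `j > k` of `g` are `e_j` and `g` is orthogonal); apply successively rotations in the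
planes `(i, k)`, `i < k`, that put the coordinate `i` of `v` to `0` and the coordinate `k` to
`sqrt (v_i² + v_k²)`; the product `h` of these `k` rotations has `h v = e_k` (for `k ≥ 1`) and
`h e_j = e_j` for `j > k`, so `h g` is in the class `k`. For `k ≤ 1` the matrix `g` is `1`
(its diagonal entry `0` is `± 1` and the determinant is `1`). -/

noncomputable section

open Matrix Finset MeasureTheory
open scoped Matrix.Norms.Frobenius

namespace Pf31f09.SO

variable {n : ℕ}

theorem givens_G_mul (e : Pr n) (g : Mat n) (a b : Fin n) : (G e * g) a b =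
    (if a = e.1.2 then g e.1.1 b else 0) - (if a = e.1.1 then g e.1.2 b else 0) := by
  rw [G, Matrix.sub_mul, Matrix.sub_apply]
  congr 1
  · by_cases h : a = e.1.2
    · rw [if_pos h, h, Matrix.single_mul_apply_same, one_mul]
    · rw [if_neg h, Matrix.single_mul_apply_of_ne _ _ _ _ _ h]
  · by_cases h : a = e.1.1
    · rw [if_pos h, h, Matrix.single_mul_apply_same, one_mul]
    · rw [if_neg h, Matrix.single_mul_apply_of_ne _ _ _ _ _ h]

theorem givens_R_mul (e : Pr n) (θ : ℝ) (g : Mat n) (a b : Fin n) : (R e θ * g) a b =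
    g a b + Real.sin θ * (G e * g) a b + (1 - Real.cos θ) * (G e * (G e * g)) a b := by
  rw [R, Matrix.add_mul, Matrix.add_mul, Matrix.add_apply, Matrix.add_apply, Matrix.one_mul,
    Matrix.smul_mul, Matrix.smul_mul, Matrix.smul_apply, Matrix.smul_apply, Matrix.mul_assoc,
    smul_eq_mul, smul_eq_mul]

theorem givens_R_fst (e : Pr n) (θ : ℝ) (g : Mat n) (b : Fin n) : (R e θ * g) e.1.1 b =
    Real.cos θ * g e.1.1 b - Real.sin θ * g e.1.2 b := by
  have h := Pr.ne e
  rw [givens_R_mul]
  simp only [givens_G_mul, h, h.symm, if_true, if_false]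
  ring

theorem givens_R_snd (e : Pr n) (θ : ℝ) (g : Mat n) (b : Fin n) : (R e θ * g) e.1.2 b =
    Real.sin θ * g e.1.1 b + Real.cos θ * g e.1.2 b := by
  have h := Pr.ne e
  rw [givens_R_mul]
  simp only [givens_G_mul, h, h.symm, if_true, if_false]
  ring

theorem givens_R_other (e : Pr n) (θ : ℝ) (g : Mat n) (a b : Fin n) (h1 : a ≠ e.1.1)
    (h2 : a ≠ e.1.2) : (R e θ * g) a b = g a b := by
  rw [givens_R_mul, givens_G_mul, givens_G_mul]
  simp only [h1, h2, if_false]
  ring

/-- The columns with index at least `k` are the basis vectors. -/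
def GFix (k : ℕ) (g : Mat n) : Prop :=
  ∀ j : Fin n, k ≤ (j : ℕ) → ∀ a, g a j = if a = j then 1 else 0

theorem givens_entry_zero {k : ℕ} {g : Mat n} (hg : IsSO g) (hk : GFix k g) {j b : Fin n}
    (hj : k ≤ (j : ℕ)) (hb : b ≠ j) : g j b = 0 := by
  have h1 := congrFun (congrFun hg.1 j) b
  rw [Matrix.mul_apply] at h1
  rw [Matrix.one_apply_ne hb.symm] at h1
  rw [Finset.sum_eq_single j] at h1
  · rw [Matrix.transpose_apply, hk j hj j, if_pos rfl, one_mul] at h1
    exact h1
  · intro a _ ha
    rw [Matrix.transpose_apply, hk j hj a, if_neg ha, zero_mul]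
  · simp

theorem givens_base {g : Mat n} (hg : IsSO g) (hk : GFix 1 g) : g = 1 := by
  rcases Nat.eq_zero_or_pos n with h0 | h0
  · subst h0
    exact Subsingleton.elim _ _
  · set z : Fin n := ⟨0, h0⟩ with hz
    have hz' : ∀ a : Fin n, a ≠ z → 1 ≤ (a : ℕ) := by
      intro a ha
      rcases Nat.eq_zero_or_pos (a : ℕ) with h | h
      · exact absurd (Fin.ext h) ha
      · exact h
    have hd : g = Matrix.diagonal (fun a => if a = z then g z z else 1) := by
      ext a b
      by_cases hab : a = b
      · subst hab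
        rw [Matrix.diagonal_apply_eq]
        by_cases ha : a = z
        · rw [if_pos ha, ha]
        · rw [if_neg ha, hk a (hz' a ha) a, if_pos rfl]
      · rw [Matrix.diagonal_apply_ne _ hab]
        by_cases hb : b = z
        · have ha : a ≠ z := fun h => hab (h.trans hb.symm)
          exact givens_entry_zero hg hk (hz' a ha) (fun h => hab h.symm)
        · rw [hk b (hz' b hb) a, if_neg hab]
    have hdet := hg.2
    rw [hd, Matrix.det_diagonal, Finset.prod_ite_eq' Finset.univ z (fun _ => g z z)] at hdet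
    simp only [Finset.mem_univ, if_true] at hdet
    rw [hd, hdet]
    have : (fun a : Fin n => if a = z then (1 : ℝ) else 1) = fun _ => 1 := by
      ext a; simp
    rw [this, Matrix.diagonal_one]

theorem givens_inner {F : Mat n → ℝ} {L : ℝ} (hL : 0 ≤ L)
    (hF : ∀ (e : Pr n) (φ : ℝ) (x : Mat n), IsSO x → |F (R e φ * x) - F x| ≤ L * |φ|)
    {k : ℕ} (hk : k < n) {g : Mat n} (hg : IsSO g) (hfix : GFix (k + 1) g) (m : ℕ) (hm : m ≤ k) :
    ∃ g' : Mat n, IsSO g' ∧ GFix (k + 1) g' ∧
      (∀ i : Fin n, (i : ℕ) < m → g' i ⟨k, hk⟩ = 0) ∧ (1 ≤ m → 0 ≤ g' ⟨k, hk⟩ ⟨k, hk⟩) ∧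
      ∀ x : Mat n, IsSO x → |F (g * x) - F (g' * x)| ≤ m * (Real.pi * L) := by
  induction m with
  | zero =>
    refine ⟨g, hg, hfix, fun i hi => absurd hi (Nat.not_lt_zero _),
      fun h => absurd h (by omega), fun x _ => by simp⟩
  | succ m ih =>
    obtain ⟨g', hg', hfix', hz, _, hest⟩ := ih (by omega)
    have hmk : m < k := hm
    set kk : Fin n := ⟨k, hk⟩ with hkk
    set mm : Fin n := ⟨m, hmk.trans hk⟩ with hmm
    have hlt : mm < kk := Fin.mk_lt_mk.2 hmk
    set e : Pr n := ⟨(mm, kk), hlt⟩ with he
    have he1 : e.1.1 = mm := rfl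
    have he2 : e.1.2 = kk := rfl
    set z : ℂ := ⟨g' kk kk, g' mm kk⟩ with hzdef
    set θ : ℝ := Complex.arg z with hθ
    have hre : ‖z‖ * Real.cos θ = g' kk kk := Complex.norm_mul_cos_arg z
    have him : ‖z‖ * Real.sin θ = g' mm kk := Complex.norm_mul_sin_arg z
    refine ⟨R e θ * g', (isSO_R e θ).mul hg', ?_, ?_, ?_, ?_⟩
    · intro j hj a
      have hjm : mm ≠ j := by
        intro h
        have : (j : ℕ) = m := by rw [← h]
        omega
      have hjk : kk ≠ j := by
        intro h
        have : (j : ℕ) = k := by rw [← h]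
        omega
      by_cases ha1 : a = mm
      · rw [ha1]
        have h := givens_R_fst e θ g' j
        rw [he1, he2] at h
        rw [h, hfix' j hj mm, hfix' j hj kk, if_neg hjm, if_neg hjk]
        ring
      · by_cases ha2 : a = kk
        · rw [ha2]
          have h := givens_R_snd e θ g' j
          rw [he1, he2] at h
          rw [h, hfix' j hj mm, hfix' j hj kk, if_neg hjm, if_neg hjk]
          ring
        · rw [givens_R_other e θ g' a j ha1 ha2, hfix' j hj a]
    · intro i hi
      by_cases him' : i = mm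
      · rw [him']
        have h := givens_R_fst e θ g' kk
        rw [he1, he2] at h
        rw [h, ← hre, ← him]
        ring
      · have hi' : (i : ℕ) < m := by
          have : (i : ℕ) ≠ m := fun h => him' (Fin.ext h)
          omega
        have hik : i ≠ kk := by
          intro h
          have : (i : ℕ) = k := by rw [h]
          omega
        rw [givens_R_other e θ g' i kk him' hik, hz i hi']
    · intro _
      have h := givens_R_snd e θ g' kk
      rw [he1, he2] at h
      rw [h, ← hre, ← him]
      have : Real.sin θ * (‖z‖ * Real.sin θ) + Real.cos θ * (‖z‖ * Real.cos θ) = ‖z‖ := by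
        linear_combination ‖z‖ * Real.sin_sq_add_cos_sq θ
      rw [this]
      exact norm_nonneg _
    · intro x hx
      have h1 := hest x hx
      have h2 := hF e θ (g' * x) (hg'.mul hx)
      rw [← Matrix.mul_assoc] at h2
      have h3 : |θ| ≤ Real.pi := Complex.abs_arg_le_pi z
      have h4 : L * |θ| ≤ Real.pi * L := by
        rw [mul_comm]
        exact mul_le_mul_of_nonneg_right h3 hL
      have h5 : |F (g * x) - F (R e θ * g' * x)| ≤
          |F (g * x) - F (g' * x)| + |F (R e θ * g' * x) - F (g' * x)| := by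
        rw [abs_sub_comm (F (R e θ * g' * x))]
        exact abs_sub_le _ _ _
      push_cast
      linarith

theorem givens_main {F : Mat n → ℝ} {L : ℝ} (hL : 0 ≤ L)
    (hF : ∀ (e : Pr n) (φ : ℝ) (x : Mat n), IsSO x → |F (R e φ * x) - F x| ≤ L * |φ|)
    (k : ℕ) : k + 1 ≤ n → ∀ g : Mat n, IsSO g → GFix (k + 1) g → ∀ x : Mat n, IsSO x →
      |F (g * x) - F x| ≤ Real.pi * (((k : ℝ) + 1) * k / 2) * L := by
  induction k with
  | zero =>
    intro _ g hg hfix x _
    rw [givens_base hg hfix, Matrix.one_mul]
    simp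
  | succ k ih =>
    intro hk g hg hfix x hx
    have hk' : k + 1 < n := hk
    obtain ⟨g', hg', hfix', hz, hpos, hest⟩ :=
      givens_inner hL hF hk' hg hfix (k + 1) le_rfl
    have hpos' := hpos (by omega)
    set kk : Fin n := ⟨k + 1, hk'⟩ with hkk
    have hoff : ∀ a : Fin n, a ≠ kk → g' a kk = 0 := by
      intro a ha
      have hne : (a : ℕ) ≠ k + 1 := fun h => ha (Fin.ext h)
      rcases Nat.lt_or_gt_of_ne hne with h | h
      · exact hz a h
      · exact givens_entry_zero hg' hfix' (by omega) (Ne.symm ha)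
    have hsq : g' kk kk * g' kk kk = 1 := by
      have h1 := congrFun (congrFun hg'.1 kk) kk
      rw [Matrix.mul_apply, Matrix.one_apply_eq, Finset.sum_eq_single kk] at h1
      · rwa [Matrix.transpose_apply] at h1
      · intro a _ ha
        rw [hoff a ha, mul_zero]
      · simp
    have hone : g' kk kk = 1 := by nlinarith
    have hfix1 : GFix (k + 1) g' := by
      intro j hj a
      by_cases hjk : j = kk
      · rw [hjk]
        by_cases ha : a = kk
        · rw [if_pos ha, ha, hone]
        · rw [if_neg ha, hoff a ha]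
      · have : (j : ℕ) ≠ k + 1 := fun h => hjk (Fin.ext h)
        exact hfix' j (by omega) a
    have h1 := ih (by omega) g' hg' hfix1 x hx
    have h2 := hest x hx
    have h3 : |F (g * x) - F x| ≤ |F (g * x) - F (g' * x)| + |F (g' * x) - F x| :=
      abs_sub_le _ _ _
    push_cast at h2 ⊢
    nlinarith

theorem osc_le {F : Mat n → ℝ} {L : ℝ} (hL : 0 ≤ L)
    (hF : ∀ (e : Pr n) (φ : ℝ) (x : Mat n), IsSO x → |F (R e φ * x) - F x| ≤ L * |φ|)
    {x y : Mat n} (hx : IsSO x) (hy : IsSO y) :
    |F x - F y| ≤ Real.pi * ((n : ℝ) * (n - 1) / 2) * L := by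
  rcases Nat.eq_zero_or_pos n with h0 | h0
  · subst h0
    rw [Subsingleton.elim x y]
    simp
  · have hyT : IsSO yᵀ := by
      refine ⟨?_, by rw [Matrix.det_transpose, hy.2]⟩
      rw [Matrix.transpose_transpose]
      exact mul_eq_one_comm.1 hy.1
    obtain ⟨k, hk⟩ : ∃ k, n = k + 1 := ⟨n - 1, by omega⟩
    have h := givens_main hL hF k hk.ge (x * yᵀ) (hx.mul hyT)
      (fun j hj => absurd hj (by have := j.2; omega)) y hy
    rw [Matrix.mul_assoc, hy.1, Matrix.mul_one] at h
    have hn : (n : ℝ) = k + 1 := by rw [hk]; push_cast; ring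
    rw [hn]
    have : ((k : ℝ) + 1) * (k + 1 - 1) / 2 = ((k : ℝ) + 1) * k / 2 := by ring
    rw [this]
    exact h

end Pf31f09.SO
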