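import Mathlib
import Pool.Agent.Lib.Pf31f09.SODefs
import Pool.Agent.Lib.Pf31f09.SOContract

/-! The infinite product measure of the noises; the operator of the walk as an expectation and the
expectation of the squared Hilbert-Schmidt norm of the residual operator. -/

noncomputable section

open Matrix Finset MeasureTheory
open scoped Matrix.Norms.Frobenius

namespace Pf31f09.SO

variable {n : ℕ}

theorem card_Pr_pos (hn : 2 ≤ n) : 0 < Fintype.card (Pr n) := by
  rw [Fintype.card_pos_iff]
  exact ⟨⟨(⟨0, by omega⟩, ⟨1, by omega⟩), by simp⟩⟩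

theorem isProb_nu (hn : 2 ≤ n) : IsProbabilityMeasure (nu n) := by
  have h0 : (Fintype.card (Pr n) : ENNReal) ≠ 0 := by
    exact_mod_cast (card_Pr_pos hn).ne'
  have h1 : IsProbabilityMeasure
      ((Fintype.card (Pr n) : ENNReal)⁻¹ • (Measure.count : Measure (Pr n))) := by
    constructor
    rw [Measure.smul_apply, Measure.count_univ, smul_eq_mul]
    simp only [ENat.card_eq_coe_fintype_card, ENat.toENNReal_coe]
    exact ENNReal.inv_mul_cancel h0 (ENNReal.natCast_ne_top _)
  unfold nu
  infer_instance

instance isFinite_nu : IsFiniteMeasure (nu n) := by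
  by_cases h : Fintype.card (Pr n) = 0
  · have : IsEmpty (Pr n) := Fintype.card_eq_zero_iff.1 h
    have h2 : IsEmpty (Pr n × ℝ) := inferInstance
    constructor
    rw [Measure.eq_zero_of_isEmpty (nu n)]
    simp
  · have h0 : (Fintype.card (Pr n) : ENNReal) ≠ 0 := by exact_mod_cast h
    have h1 : IsFiniteMeasure
        ((Fintype.card (Pr n) : ENNReal)⁻¹ • (Measure.count : Measure (Pr n))) := by
      constructor
      rw [Measure.smul_apply, Measure.count_univ, smul_eq_mul]
      simp only [ENat.card_eq_coe_fintype_card, ENat.toENNReal_coe]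
      rw [ENNReal.inv_mul_cancel h0 (ENNReal.natCast_ne_top _)]
      exact ENNReal.one_lt_top
    unfold nu
    infer_instance

theorem integral_nu {g : Pr n × ℝ → ℝ} (hg : Integrable g (nu n)) :
    ∫ a, g a ∂(nu n) = (Fintype.card (Pr n) : ℝ)⁻¹ * ∑ e : Pr n, ∫ θ, g (e, θ) ∂unifAngle := by
  unfold nu at hg ⊢
  by_cases h : Fintype.card (Pr n) = 0
  · have : IsEmpty (Pr n) := Fintype.card_eq_zero_iff.1 h
    have h2 : IsEmpty (Pr n × ℝ) := inferInstance
    rw [Measure.eq_zero_of_isEmpty (((Fintype.card (Pr n) : ENNReal)⁻¹ •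
      (Measure.count : Measure (Pr n))).prod unifAngle)]
    simp
  have h0 : (Fintype.card (Pr n) : ENNReal) ≠ 0 := by exact_mod_cast h
  have h1 : IsFiniteMeasure
      ((Fintype.card (Pr n) : ENNReal)⁻¹ • (Measure.count : Measure (Pr n))) := by
    constructor
    rw [Measure.smul_apply, Measure.count_univ, smul_eq_mul]
    simp only [ENat.card_eq_coe_fintype_card, ENat.toENNReal_coe]
    rw [ENNReal.inv_mul_cancel h0 (ENNReal.natCast_ne_top _)]
    exact ENNReal.one_lt_top
  rw [integral_prod _ hg, integral_smul_measure, integral_count]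
  simp

/-- The law of the noises. -/
def mu (n : ℕ) : Measure (Om n) := Measure.infinitePi (fun _ : ℕ => nu n)

theorem isProb_mu (hn : 2 ≤ n) : IsProbabilityMeasure (mu n) := by
  have := isProb_nu hn
  unfold mu
  infer_instance

theorem measurePreserving_update (hn : 2 ≤ n) (s : ℕ) :
    MeasurePreserving (fun p : Om n × (Pr n × ℝ) => Function.update p.1 s p.2)
      ((mu n).prod (nu n)) (mu n) := by
  have h1 := isProb_nu hn
  have h2 := isProb_mu hn
  have hm : Measurable (fun p : Om n × (Pr n × ℝ) => Function.update p.1 s p.2) := by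
    rw [measurable_pi_iff]
    intro i
    by_cases hi : i = s
    · subst hi
      simpa using measurable_snd
    · simp only [Function.update_of_ne hi]
      exact (measurable_pi_apply i).comp measurable_fst
  refine ⟨hm, ?_⟩
  unfold mu
  refine Measure.eq_infinitePi _ fun J t ht => ?_
  have hJ : MeasurableSet (Set.pi (J : Set ℕ) t) :=
    MeasurableSet.pi J.countable_toSet fun i _ => ht i
  rw [Measure.map_apply hm hJ]
  by_cases hs : s ∈ J
  · have hset : (fun p : Om n × (Pr n × ℝ) => Function.update p.1 s p.2) ⁻¹'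
        (Set.pi (J : Set ℕ) t) = (Set.pi ((J.erase s : Finset ℕ) : Set ℕ) t) ×ˢ (t s) := by
      ext ⟨ω, a⟩
      simp only [Set.mem_preimage, Set.mem_pi, Finset.mem_coe, Set.mem_prod, Finset.mem_erase]
      constructor
      · intro h
        refine ⟨fun i hi => ?_, ?_⟩
        · have := h i hi.2
          rwa [Function.update_of_ne hi.1] at this
        · have := h s hs
          rwa [Function.update_self] at this
      · rintro ⟨ha, hb⟩ i hi
        by_cases his : i = s
        · subst his; rwa [Function.update_self]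
        · rw [Function.update_of_ne his]
          exact ha i ⟨his, hi⟩
    rw [hset, Measure.prod_prod, Measure.infinitePi_pi _ (fun i _ => ht i), mul_comm]
    exact Finset.mul_prod_erase J (fun i => nu n (t i)) hs
  · have hset : (fun p : Om n × (Pr n × ℝ) => Function.update p.1 s p.2) ⁻¹'
        (Set.pi (J : Set ℕ) t) = (Set.pi (J : Set ℕ) t) ×ˢ Set.univ := by
      ext ⟨ω, a⟩
      simp only [Set.mem_preimage, Set.mem_pi, Finset.mem_coe, Set.mem_prod, Set.mem_univ,
        and_true]
      refine forall_congr' fun i => forall_congr' fun hi => ?_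
      have his : i ≠ s := fun h => hs (h ▸ hi)
      rw [Function.update_of_ne his]
    rw [hset, Measure.prod_prod, Measure.infinitePi_pi _ (fun i _ => ht i)]
    simp

/-- Integrate out the coordinate `s`. -/
theorem integral_update (hn : 2 ≤ n) (s : ℕ) {g : Om n → ℝ} (hg : Measurable g) {C : ℝ}
    (hC : ∀ ω, |g ω| ≤ C) :
    ∫ ω, g ω ∂(mu n) = ∫ ω, ∫ a, g (Function.update ω s a) ∂(nu n) ∂(mu n) := by
  have h1 := isProb_nu hn
  have h2 := isProb_mu hn
  have hmp := measurePreserving_update hn s
  have hint : Integrable g (mu n) :=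
    Integrable.of_bound hg.aestronglyMeasurable C (Filter.Eventually.of_forall fun ω => hC ω)
  rw [← hmp.map_eq, integral_map hmp.measurable.aemeasurable
    (by rw [hmp.map_eq]; exact hg.aestronglyMeasurable), integral_prod]
  · rw [hmp.map_eq]
  · exact Integrable.of_bound (hg.comp hmp.measurable).aestronglyMeasurable C
      (Filter.Eventually.of_forall fun p => hC _)

theorem continuous_iff_of_Pr {X : Type*} [TopologicalSpace X] (g : Pr n × ℝ → X) :
    Continuous g ↔ ∀ e, Continuous fun θ => g (e, θ) :=
  continuous_prod_of_discrete_left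

theorem continuous_R' : Continuous fun a : Pr n × ℝ => R a.1 a.2 := by
  rw [continuous_iff_of_Pr]
  exact fun e => continuous_R e

theorem continuous_AdV : Continuous (AdV : Mat n → (V n →L[ℝ] V n)) := by
  unfold AdV
  fun_prop

theorem continuous_B (s : ℕ) : Continuous (B s : Om n → Mat n) := by
  induction s with
  | zero => exact continuous_const
  | succ s ih =>
    have h : (B (s + 1) : Om n → Mat n) = fun ω => R (ω s).1 (ω s).2 * B s ω := rfl
    rw [h]
    exact (continuous_R'.comp (continuous_apply s)).mul ih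

theorem continuous_N (s : ℕ) : Continuous (N s : Om n → (V n →L[ℝ] V n)) := by
  induction s with
  | zero => exact continuous_const
  | succ s ih =>
    have h : (N (s + 1) : Om n → _) = fun ω =>
        (AdV (R (ω s).1 (ω s).2)).comp ((Pj (ω s).1).comp (N s ω)) := rfl
    rw [h]
    have h1 : Continuous fun ω : Om n => AdV (R (ω s).1 (ω s).2) :=
      continuous_AdV.comp (continuous_R'.comp (continuous_apply s))
    have h3 : Continuous (Pj : Pr n → (V n →L[ℝ] V n)) := continuous_of_discreteTopology
    have h2 : Continuous fun ω : Om n => Pj (ω s).1 :=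
      h3.comp (continuous_fst.comp (continuous_apply s))
    exact h1.clm_comp (h2.clm_comp ih)

theorem B_update {s T : ℕ} (h : T ≤ s) (ω : Om n) (a : Pr n × ℝ) :
    B T (Function.update ω s a) = B T ω := by
  induction T with
  | zero => rfl
  | succ T ih =>
    rw [B_succ, B_succ, ih (by omega), Function.update_of_ne (by omega)]

theorem N_update {s T : ℕ} (h : T ≤ s) (ω : Om n) (a : Pr n × ℝ) :
    N T (Function.update ω s a) = N T ω := by
  induction T with
  | zero => rfl
  | succ T ih =>
    unfold N
    rw [ih (by omega), Function.update_of_ne (by omega)]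

theorem isSO_norm {U : Mat n} (hU : IsSO U) : ‖U‖ = Real.sqrt n := by
  rw [← hU.norm_le, Real.sqrt_sq (norm_nonneg _)]

/-- Continuous functions are bounded on the orbits. -/
theorem exists_bound_cb {f : Mat n → ℝ} (hf : Continuous f) (x : Mat n) :
    ∃ C, ∀ U : Mat n, IsSO U → |f (U * x)| ≤ C := by
  have hc : IsCompact (Metric.closedBall (0 : Mat n) (Real.sqrt n * ‖x‖)) :=
    isCompact_closedBall _ _
  obtain ⟨C, hC⟩ := hc.exists_bound_of_continuousOn hf.continuousOn
  refine ⟨C, fun U hU => ?_⟩
  refine hC _ ?_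
  rw [mem_closedBall_zero_iff]
  refine (norm_mul_le _ _).trans ?_
  rw [isSO_norm hU]

theorem integrable_nu_of_continuous {g : Pr n × ℝ → ℝ} (hg : Continuous g) {C : ℝ}
    (hC : ∀ a, |g a| ≤ C) : Integrable g (nu n) :=
  Integrable.of_bound hg.measurable.aestronglyMeasurable C (Filter.Eventually.of_forall hC)

theorem Pop_eq_nu {f : Mat n → ℝ} (hf : Continuous f) (x : Mat n) :
    Pop f x = ∫ a, f (R a.1 a.2 * x) ∂(nu n) := by
  obtain ⟨C, hC⟩ := exists_bound_cb hf x
  have hc : Continuous fun a : Pr n × ℝ => f (R a.1 a.2 * x) :=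
    hf.comp (continuous_R'.mul continuous_const)
  rw [integral_nu (integrable_nu_of_continuous hc fun a => hC _ (isSO_R _ _))]
  rfl

/-- The iterates of the operator of the walk as expectations. -/
theorem iterate_Pop_eq (hn : 2 ≤ n) (T : ℕ) : ∀ {f : Mat n → ℝ}, ContDiff ℝ 1 f →
    ∀ x : Mat n, (Pop^[T] f) x = ∫ ω, f (B T ω * x) ∂(mu n) := by
  have h2 := isProb_mu hn
  induction T with
  | zero =>
    intro f _ x
    simp [B]
  | succ T ih =>
    intro f hf x
    rw [Function.iterate_succ_apply, ih (contDiff_Pop hf) x]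
    obtain ⟨C, hC⟩ := exists_bound_cb hf.continuous x
    rw [integral_update hn T (g := fun ω => f (B (T + 1) ω * x))
      ((hf.continuous.comp ((continuous_B (T + 1)).mul continuous_const)).measurable)
      (fun ω => hC _ (isSO_B _ _))]
    refine integral_congr_ae (Filter.Eventually.of_forall fun ω => ?_)
    change Pop f (B T ω * x) = ∫ a, f (B (T + 1) (Function.update ω T a) * x) ∂(nu n)
    rw [Pop_eq_nu hf.continuous]
    refine integral_congr_ae (Filter.Eventually.of_forall fun a => ?_)
    change f (R a.1 a.2 * (B T ω * x)) = f (B (T + 1) (Function.update ω T a) * x)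
    rw [B_succ, Function.update_self, B_update le_rfl, Matrix.mul_assoc]

/-- The squared Hilbert-Schmidt norm of the residual operator. -/
def hs (T : ℕ) (ω : Om n) : ℝ := ∑ e : Pr n, ‖N T ω (ev e)‖ ^ 2

theorem norm_ev (e : Pr n) : ‖ev e‖ = 1 := by simp [ev]

theorem hs_nonneg (T : ℕ) (ω : Om n) : 0 ≤ hs T ω := Finset.sum_nonneg fun _ _ => sq_nonneg _

theorem hs_le (T : ℕ) (ω : Om n) : hs T ω ≤ Fintype.card (Pr n) := by
  unfold hs
  calc ∑ e : Pr n, ‖N T ω (ev e)‖ ^ 2 ≤ ∑ _e : Pr n, (1 : ℝ) := by
        refine Finset.sum_le_sum fun e _ => ?_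
        have h := norm_N_le T ω (ev e)
        rw [norm_ev] at h
        nlinarith [norm_nonneg (N T ω (ev e))]
    _ = Fintype.card (Pr n) := by simp

theorem continuous_hs (T : ℕ) : Continuous (hs T : Om n → ℝ) := by
  unfold hs
  refine continuous_finsetSum _ fun e _ => ?_
  exact (((continuous_N T).clm_apply continuous_const).norm).pow 2

theorem hs_succ_update (T : ℕ) (ω : Om n) (a : Pr n × ℝ) :
    hs (T + 1) (Function.update ω T a) = hs T ω - ∑ e : Pr n, (N T ω (ev e)) a.1 ^ 2 := by
  unfold hs
  rw [← Finset.sum_sub_distrib]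
  refine Finset.sum_congr rfl fun e _ => ?_
  rw [N_succ, norm_AdV (R_transpose_mul _ _), norm_Pj_sq, Function.update_self,
    N_update le_rfl]

theorem integral_hs (hn : 2 ≤ n) (T : ℕ) :
    ∫ ω, hs T ω ∂(mu n) =
      (Fintype.card (Pr n) : ℝ) * (1 - (Fintype.card (Pr n) : ℝ)⁻¹) ^ T := by
  have h1 := isProb_nu hn
  have h2 := isProb_mu hn
  have hc : (Fintype.card (Pr n) : ℝ) ≠ 0 := by exact_mod_cast (card_Pr_pos hn).ne'
  induction T with
  | zero =>
    have h : ∀ ω : Om n, hs 0 ω = Fintype.card (Pr n) := by
      intro ω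
      simp [hs, N, norm_ev]
    simp [h]
  | succ T ih =>
    rw [integral_update hn T (continuous_hs (T + 1)).measurable
      (fun ω => by rw [abs_of_nonneg (hs_nonneg _ _)]; exact hs_le _ _)]
    have h3 : ∀ ω : Om n, ∫ a, hs (T + 1) (Function.update ω T a) ∂(nu n) =
        (1 - (Fintype.card (Pr n) : ℝ)⁻¹) * hs T ω := by
      intro ω
      have hcont : Continuous fun a : Pr n × ℝ => hs (T + 1) (Function.update ω T a) :=
        (continuous_hs (T + 1)).comp (continuous_const.update T continuous_id)
      rw [integral_nu (integrable_nu_of_continuous hcont (fun a => by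
        rw [abs_of_nonneg (hs_nonneg _ _)]; exact hs_le _ _))]
      have h4 : ∀ e : Pr n, ∫ θ, hs (T + 1) (Function.update ω T (e, θ)) ∂unifAngle =
          hs T ω - ∑ e' : Pr n, (N T ω (ev e')) e ^ 2 := by
        intro e
        simp only [hs_succ_update]
        simp
      rw [Finset.sum_congr rfl fun e _ => h4 e, Finset.sum_sub_distrib, Finset.sum_comm]
      have h5 : ∑ e' : Pr n, ∑ e : Pr n, (N T ω (ev e')) e ^ 2 = hs T ω := by
        unfold hs
        refine Finset.sum_congr rfl fun e' _ => ?_
        rw [EuclideanSpace.norm_sq_eq]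
        refine Finset.sum_congr rfl fun e _ => ?_
        rw [Real.norm_eq_abs, sq_abs]
      rw [h5]
      simp only [Finset.sum_const, Finset.card_univ, nsmul_eq_mul]
      field_simp
    rw [integral_congr_ae (Filter.Eventually.of_forall h3), integral_const_mul, ih]
    ring

end Pf31f09.SO
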