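import Mathlib
import Pool.Agent.Lib.Pf31f09.SOProd

/-! Integration by parts in one angle. -/

noncomputable section

open Matrix Finset MeasureTheory Filter Topology
open scoped Matrix.Norms.Frobenius

namespace Pf31f09.SO

variable {n : ℕ}

theorem avg_abs_le {g : ℝ → ℝ} {K : ℝ} (hK : ∀ θ, |g θ| ≤ K) : |avg g| ≤ K := by
  unfold avg
  have h := intervalIntegral.norm_integral_le_of_norm_le_const (a := 0) (b := 2 * Real.pi)
    (f := g) (C := K) (fun θ _ => hK θ)
  rw [Real.norm_eq_abs, sub_zero, abs_of_pos two_pi_pos] at h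
  rw [abs_mul, abs_of_pos (inv_pos.2 two_pi_pos)]
  calc (2 * Real.pi)⁻¹ * |∫ θ in (0 : ℝ)..(2 * Real.pi), g θ|
      ≤ (2 * Real.pi)⁻¹ * (K * (2 * Real.pi)) :=
        mul_le_mul_of_nonneg_left h (inv_pos.2 two_pi_pos).le
    _ = K := by field_simp

/-- Integration by parts for a Lipschitz weight. -/
theorem ibp_bound {u v v' : ℝ → ℝ} {K : ℝ} (hu : ∀ a b, |u a - u b| ≤ K * |a - b|)
    (hup : Function.Periodic u (2 * Real.pi)) (hv : ∀ θ, HasDerivAt v (v' θ) θ)
    (hv' : Continuous v') (hvp : Function.Periodic v (2 * Real.pi)) (hv1 : ∀ θ, |v θ| ≤ 1) :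
    |avg fun θ => u θ * v' θ| ≤ K := by
  have hK : 0 ≤ K := by
    have := (abs_nonneg _).trans (hu 1 0)
    simpa using this
  have huc : Continuous u := by
    refine LipschitzWith.continuous (K := ⟨K, hK⟩) (LipschitzWith.of_dist_le_mul fun a b => ?_)
    rw [Real.dist_eq, Real.dist_eq]
    exact hu a b
  have hvc : Continuous v := continuous_iff_continuousAt.2 fun θ => (hv θ).continuousAt
  -- the approximations
  have hbound : ∀ k : ℕ, |avg fun θ => u θ * ((v (θ + 1 / ((k : ℝ) + 1)) - v θ) /
      (1 / ((k : ℝ) + 1)))| ≤ K := by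
    intro k
    set ε : ℝ := 1 / ((k : ℝ) + 1) with hε
    have hε0 : 0 < ε := by positivity
    have h1 : avg (fun θ => u θ * ((v (θ + ε) - v θ) / ε)) =
        avg (fun θ => (u (θ - ε) - u θ) / ε * v θ) := by
      unfold avg
      congr 1
      have h2 : (fun θ => u θ * ((v (θ + ε) - v θ) / ε)) =
          fun θ => (u θ * v (θ + ε)) / ε - (u θ * v θ) / ε := by
        ext θ; ring
      have h3 : (fun θ => (u (θ - ε) - u θ) / ε * v θ) =
          fun θ => (u (θ - ε) * v θ) / ε - (u θ * v θ) / ε := by
        ext θ; ring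
      rw [h2, h3, intervalIntegral.integral_sub, intervalIntegral.integral_sub]
      · congr 1
        rw [intervalIntegral.integral_div, intervalIntegral.integral_div]
        congr 1
        have h4 : (fun θ => u θ * v (θ + ε)) = fun θ => (fun φ => u (φ - ε) * v φ) (θ + ε) := by
          ext θ; simp
        rw [h4, intervalIntegral.integral_comp_add_right (fun φ => u (φ - ε) * v φ)]
        have hper : Function.Periodic (fun φ => u (φ - ε) * v φ) (2 * Real.pi) := by
          intro φ
          have e1 : φ + 2 * Real.pi - ε = φ - ε + 2 * Real.pi := by ring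
          simp only [e1, hup _, hvp _]
        have := hper.intervalIntegral_add_eq (0 + ε) 0
        rw [zero_add, zero_add] at this
        rw [zero_add, add_comm (2 * Real.pi) ε]
        exact this
      · exact (by fun_prop : Continuous fun θ => u (θ - ε) * v θ / ε).intervalIntegrable _ _
      · exact (by fun_prop : Continuous fun θ => u θ * v θ / ε).intervalIntegrable _ _
      · exact (by fun_prop : Continuous fun θ => u θ * v (θ + ε) / ε).intervalIntegrable _ _
      · exact (by fun_prop : Continuous fun θ => u θ * v θ / ε).intervalIntegrable _ _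
    rw [h1]
    refine avg_abs_le fun θ => ?_
    rw [abs_mul, abs_div, abs_of_pos hε0]
    have h5 : |u (θ - ε) - u θ| ≤ K * ε := by
      have := hu (θ - ε) θ
      rwa [show θ - ε - θ = -ε by ring, abs_neg, abs_of_pos hε0] at this
    calc |u (θ - ε) - u θ| / ε * |v θ| ≤ K * 1 := by
          refine mul_le_mul ?_ (hv1 θ) (abs_nonneg _) hK
          rw [div_le_iff₀ hε0]
          exact h5
      _ = K := mul_one K
  have hε : Tendsto (fun k : ℕ => 1 / ((k : ℝ) + 1)) atTop (𝓝 0) :=
    tendsto_one_div_add_atTop_nhds_zero_nat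
  have hlim : Tendsto (fun k : ℕ => avg fun θ => u θ * ((v (θ + 1 / ((k : ℝ) + 1)) - v θ) /
      (1 / ((k : ℝ) + 1)))) atTop (𝓝 (avg fun θ => u θ * v' θ)) := by
    unfold avg
    refine Tendsto.const_mul _ ?_
    obtain ⟨M, hM⟩ := (isCompact_Icc (a := (0 : ℝ)) (b := 2 * Real.pi + 1)).exists_bound_of_continuousOn
      hv'.continuousOn
    obtain ⟨M', hM'⟩ := (isCompact_Icc (a := (0 : ℝ)) (b := 2 * Real.pi + 1)).exists_bound_of_continuousOn
      huc.continuousOn
    refine intervalIntegral.tendsto_integral_filter_of_dominated_convergence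
      (fun _ => M' * M) ?_ ?_ ?_ ?_
    · refine Eventually.of_forall fun k => ?_
      exact (by fun_prop : Continuous fun θ => u θ * ((v (θ + 1 / ((k : ℝ) + 1)) - v θ) /
        (1 / ((k : ℝ) + 1)))).aestronglyMeasurable
    · refine Eventually.of_forall fun k => Eventually.of_forall fun θ hθ => ?_
      rw [Set.uIoc_of_le two_pi_pos.le] at hθ
      set ε : ℝ := 1 / ((k : ℝ) + 1) with hε
      have hε0 : 0 < ε := by positivity
      have hε1 : ε ≤ 1 := by
        rw [hε, div_le_one (by positivity)]
        have : (0 : ℝ) ≤ k := Nat.cast_nonneg k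
        linarith
      have hθm : θ ∈ Set.Icc (0 : ℝ) (2 * Real.pi + 1) := ⟨hθ.1.le, by linarith [hθ.2]⟩
      have hθm' : θ + ε ∈ Set.Icc (0 : ℝ) (2 * Real.pi + 1) :=
        ⟨by linarith [hθ.1], by linarith [hθ.2]⟩
      have h6 : ‖v (θ + ε) - v θ‖ ≤ M * ‖θ + ε - θ‖ :=
        Convex.norm_image_sub_le_of_norm_hasDerivWithin_le (𝕜 := ℝ) (f := v) (f' := v')
          (fun z _ => (hv z).hasDerivWithinAt) (fun z hz => hM z hz)
          (convex_Icc _ _) hθm hθm'
      rw [add_sub_cancel_left, Real.norm_eq_abs ε, abs_of_pos hε0] at h6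
      rw [norm_mul, norm_div, Real.norm_eq_abs ε, abs_of_pos hε0]
      refine mul_le_mul (hM' θ hθm) ?_ (by positivity) ((norm_nonneg _).trans (hM' θ hθm))
      rw [div_le_iff₀ hε0]
      exact h6
    · exact intervalIntegrable_const
    · refine Eventually.of_forall fun θ _ => ?_
      refine Tendsto.const_mul _ ?_
      have h7 := (hasDerivAt_iff_tendsto_slope_zero.1 (hv θ))
      have h8 : Tendsto (fun k : ℕ => 1 / ((k : ℝ) + 1)) atTop (𝓝[≠] 0) := by
        rw [tendsto_nhdsWithin_iff]
        refine ⟨hε, Eventually.of_forall fun k => ?_⟩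
        have : (0 : ℝ) < 1 / ((k : ℝ) + 1) := by positivity
        exact this.ne'
      refine (h7.comp h8).congr fun k => ?_
      simp only [Function.comp_apply, smul_eq_mul]
      ring
  exact le_of_tendsto hlim.abs (Eventually.of_forall hbound)

end Pf31f09.SO
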