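import Mathlib
import Pool.Agent.Lib.Pf31f09.SOIbp

/-! Lipschitz estimates in one angle. -/

noncomputable section

open Matrix Finset MeasureTheory Filter Topology
open scoped Matrix.Norms.Frobenius

namespace Pf31f09.SO

variable {n : ℕ}

theorem norm_G_le (e : Pr n) : ‖G e‖ ≤ 3 / 2 := by
  have h := norm_G e
  nlinarith [norm_nonneg (G e)]

theorem norm_GG_le (e : Pr n) : ‖G e * G e‖ ≤ 3 / 2 := by
  have h : ‖G e * G e‖ ^ 2 = 2 := by
    have h1 : (G e * G e)ᵀ = G e * G e := by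
      rw [Matrix.transpose_mul, G_transpose, neg_mul_neg]
    have h2 : G e * G e * (G e * G e) = - (G e * G e) := by
      rw [← mul_assoc, G_cube', neg_mul]
    rw [norm_sq_trace, h1, h2, G_sq]
    simp
    norm_num
  nlinarith [norm_nonneg (G e * G e)]

theorem norm_R_sub_le (e : Pr n) (a b : ℝ) : ‖R e a - R e b‖ ≤ 3 * |a - b| := by
  have h1 : R e a - R e b = (Real.sin a - Real.sin b) • G e +
      (Real.cos b - Real.cos a) • (G e * G e) := by
    unfold R
    module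
  have h2 : |Real.sin a - Real.sin b| ≤ |a - b| := Real.abs_sin_sub_sin_le a b
  have h3 : |Real.cos b - Real.cos a| ≤ |a - b| := by
    rw [abs_sub_comm a b]
    exact Real.abs_cos_sub_cos_le b a
  rw [h1]
  calc ‖(Real.sin a - Real.sin b) • G e + (Real.cos b - Real.cos a) • (G e * G e)‖
      ≤ ‖(Real.sin a - Real.sin b) • G e‖ + ‖(Real.cos b - Real.cos a) • (G e * G e)‖ :=
        norm_add_le _ _
    _ = |Real.sin a - Real.sin b| * ‖G e‖ + |Real.cos b - Real.cos a| * ‖G e * G e‖ := by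
        rw [norm_smul, norm_smul, Real.norm_eq_abs, Real.norm_eq_abs]
    _ ≤ |a - b| * (3 / 2) + |a - b| * (3 / 2) :=
        add_le_add (mul_le_mul h2 (norm_G_le e) (norm_nonneg _) (abs_nonneg _))
          (mul_le_mul h3 (norm_GG_le e) (norm_nonneg _) (abs_nonneg _))
    _ = 3 * |a - b| := by ring

theorem orth_comm {U : Mat n} (h : Uᵀ * U = 1) : U * Uᵀ = 1 := mul_eq_one_comm.1 h

theorem norm_AdV_sub_le {U W : Mat n} (hU : Uᵀ * U = 1) (hW : Wᵀ * W = 1) (c : V n) :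
    ‖AdV U c - AdV W c‖ ≤ 2 * ‖U - W‖ * ‖c‖ := by
  have h1 : iota n (AdV U c - AdV W c) =
      (U - W) * iota n c * Uᵀ + W * (iota n c * (U - W)ᵀ) := by
    rw [map_sub, iota_AdV, iota_AdV, Matrix.transpose_sub]
    noncomm_ring
  have h2 : ‖iota n (AdV U c - AdV W c)‖ ≤ 2 * ‖U - W‖ * ‖iota n c‖ := by
    rw [h1]
    calc ‖(U - W) * iota n c * Uᵀ + W * (iota n c * (U - W)ᵀ)‖
        ≤ ‖(U - W) * iota n c * Uᵀ‖ + ‖W * (iota n c * (U - W)ᵀ)‖ := norm_add_le _ _
      _ = ‖(U - W) * iota n c‖ + ‖iota n c * (U - W)ᵀ‖ := by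
          rw [norm_mul_right (by simpa using hU), norm_mul_left hW]
      _ ≤ ‖U - W‖ * ‖iota n c‖ + ‖iota n c‖ * ‖(U - W)ᵀ‖ :=
          add_le_add (norm_mul_le _ _) (norm_mul_le _ _)
      _ = 2 * ‖U - W‖ * ‖iota n c‖ := by rw [Matrix.frobenius_norm_transpose]; ring
  have h3 : ∀ d : V n, ‖iota n d‖ = Real.sqrt 2 * ‖d‖ := by
    intro d
    rw [← Real.sqrt_sq (norm_nonneg (iota n d)), norm_iota_sq, Real.sqrt_mul (by norm_num),
      Real.sqrt_sq (norm_nonneg _)]
  rw [h3, h3] at h2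
  have h4 : 0 < Real.sqrt 2 := by positivity
  have h5 : Real.sqrt 2 * ‖AdV U c - AdV W c‖ ≤ Real.sqrt 2 * (2 * ‖U - W‖ * ‖c‖) := by
    linarith
  exact le_of_mul_le_mul_left h5 h4

theorem norm_B_sub_le (s T : ℕ) (ω : Om n) (e : Pr n) (a b : ℝ) :
    ‖B T (Function.update ω s (e, a)) - B T (Function.update ω s (e, b))‖ ≤ 3 * |a - b| := by
  induction T with
  | zero => simp [B]
  | succ T ih =>
    by_cases h : T = s
    · subst h
      rw [B_succ, B_succ, B_update le_rfl, B_update le_rfl, Function.update_self,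
        Function.update_self, ← Matrix.sub_mul, norm_mul_right (B_orth' _ _)]
      exact norm_R_sub_le e a b
    · rw [B_succ, B_succ, Function.update_of_ne h, Function.update_of_ne h, ← Matrix.mul_sub,
        norm_mul_left (R_transpose_mul _ _)]
      exact ih

theorem norm_N_sub_le (s T : ℕ) (ω : Om n) (e : Pr n) (a b : ℝ) (c : V n) :
    ‖N T (Function.update ω s (e, a)) c - N T (Function.update ω s (e, b)) c‖ ≤
      6 * |a - b| * ‖c‖ := by
  induction T with
  | zero => simp [N]; positivity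
  | succ T ih =>
    by_cases h : T = s
    · subst h
      rw [N_succ, N_succ, N_update le_rfl, N_update le_rfl, Function.update_self,
        Function.update_self]
      refine (norm_AdV_sub_le (R_transpose_mul _ _) (R_transpose_mul _ _) _).trans ?_
      have h1 := norm_R_sub_le e a b
      have h2 : ‖Pj e (N T ω c)‖ ≤ ‖c‖ := (norm_Pj_le _ _).trans (norm_N_le _ _ _)
      calc 2 * ‖R e a - R e b‖ * ‖Pj e (N T ω c)‖ ≤ 2 * (3 * |a - b|) * ‖c‖ := by
            gcongr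
        _ = 6 * |a - b| * ‖c‖ := by ring
    · rw [N_succ, N_succ, Function.update_of_ne h, Function.update_of_ne h, ← map_sub,
        ← map_sub, norm_AdV (R_transpose_mul _ _)]
      exact (norm_Pj_le _ _).trans ih

/-- The residual operator, pulled back to the starting frame. -/
def Kop (T : ℕ) (ω : Om n) : V n →L[ℝ] V n := (AdV (B T ω)ᵀ).comp (N T ω)

theorem Kop_apply (T : ℕ) (ω : Om n) (c : V n) : Kop T ω c = AdV (B T ω)ᵀ (N T ω c) := rfl

theorem B_t_orth (s : ℕ) (ω : Om n) : ((B s ω)ᵀ)ᵀ * (B s ω)ᵀ = 1 := by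
  rw [Matrix.transpose_transpose, B_orth']

theorem norm_Kop (T : ℕ) (ω : Om n) (c : V n) : ‖Kop T ω c‖ = ‖N T ω c‖ := by
  rw [Kop_apply, norm_AdV (B_t_orth T ω)]

theorem norm_Kop_sub_le (s T : ℕ) (ω : Om n) (e : Pr n) (a b : ℝ) (c : V n) :
    ‖Kop T (Function.update ω s (e, a)) c - Kop T (Function.update ω s (e, b)) c‖ ≤
      12 * |a - b| * ‖c‖ := by
  set ωa := Function.update ω s (e, a)
  set ωb := Function.update ω s (e, b)
  have h1 : Kop T ωa c - Kop T ωb c = AdV (B T ωa)ᵀ (N T ωa c - N T ωb c) +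
      (AdV (B T ωa)ᵀ (N T ωb c) - AdV (B T ωb)ᵀ (N T ωb c)) := by
    rw [Kop_apply, Kop_apply, map_sub]
    abel
  have h2 : ‖AdV (B T ωa)ᵀ (N T ωa c - N T ωb c)‖ ≤ 6 * |a - b| * ‖c‖ := by
    rw [norm_AdV (B_t_orth T ωa)]
    exact norm_N_sub_le s T ω e a b c
  have h3 : ‖AdV (B T ωa)ᵀ (N T ωb c) - AdV (B T ωb)ᵀ (N T ωb c)‖ ≤ 6 * |a - b| * ‖c‖ := by
    refine (norm_AdV_sub_le (B_t_orth T ωa) (B_t_orth T ωb) _).trans ?_
    have h4 := norm_B_sub_le s T ω e a b
    have h5 := norm_N_le T ωb c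
    rw [← Matrix.transpose_sub, Matrix.frobenius_norm_transpose]
    calc 2 * ‖B T ωa - B T ωb‖ * ‖N T ωb c‖ ≤ 2 * (3 * |a - b|) * ‖c‖ := by
          gcongr
      _ = 6 * |a - b| * ‖c‖ := by ring
  rw [h1]
  linarith [norm_add_le (AdV (B T ωa)ᵀ (N T ωa c - N T ωb c))
    (AdV (B T ωa)ᵀ (N T ωb c) - AdV (B T ωb)ᵀ (N T ωb c))]

theorem norm_N_le_hs (T : ℕ) (ω : Om n) (c : V n) : ‖N T ω c‖ ≤ Real.sqrt (hs T ω) * ‖c‖ := by
  have h1 : c = ∑ e : Pr n, c e • ev e := by
    ext e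
    simp [ev, Finset.sum_apply, Pi.single_apply]
  have h2 : ‖N T ω c‖ ≤ ∑ e : Pr n, |c e| * ‖N T ω (ev e)‖ := by
    conv_lhs => rw [h1, map_sum]
    refine (norm_sum_le _ _).trans (Finset.sum_le_sum fun e _ => ?_)
    rw [map_smul, norm_smul, Real.norm_eq_abs]
  refine h2.trans ?_
  have h3 := Real.sum_mul_le_sqrt_mul_sqrt Finset.univ (fun e => |c e|)
    (fun e => ‖N T ω (ev e)‖)
  refine h3.trans ?_
  have h4 : Real.sqrt (∑ e : Pr n, |c e| ^ 2) = ‖c‖ := by
    rw [EuclideanSpace.norm_eq]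
    rfl
  rw [h4, mul_comm]
  rfl

theorem sqrt_hs_sub_le (s T : ℕ) (ω : Om n) (e : Pr n) (a b : ℝ) :
    |Real.sqrt (hs T (Function.update ω s (e, a))) -
      Real.sqrt (hs T (Function.update ω s (e, b)))| ≤
      6 * Real.sqrt (Fintype.card (Pr n)) * |a - b| := by
  set ωa := Function.update ω s (e, a) with hωa
  set ωb := Function.update ω s (e, b) with hωb
  let Z : Om n → PiLp 2 (fun _ : Pr n => V n) := fun ω => WithLp.toLp 2 fun e => N T ω (ev e)
  have hZ : ∀ ω, ‖Z ω‖ = Real.sqrt (hs T ω) := by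
    intro ω
    rw [PiLp.norm_eq_of_L2]
    rfl
  rw [← hZ, ← hZ]
  refine (abs_norm_sub_norm_le _ _).trans ?_
  rw [PiLp.norm_eq_of_L2]
  have h1 : ∑ i : Pr n, ‖(Z ωa - Z ωb) i‖ ^ 2 ≤
      (6 * Real.sqrt (Fintype.card (Pr n)) * |a - b|) ^ 2 := by
    have h2 : ∀ i : Pr n, ‖(Z ωa - Z ωb) i‖ ^ 2 ≤ (6 * |a - b|) ^ 2 := by
      intro i
      have h3 : ‖(Z ωa - Z ωb) i‖ ≤ 6 * |a - b| := by
        have := norm_N_sub_le s T ω e a b (ev i)
        rw [norm_ev, mul_one] at this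
        exact this
      exact pow_le_pow_left₀ (norm_nonneg _) h3 2
    calc ∑ i : Pr n, ‖(Z ωa - Z ωb) i‖ ^ 2 ≤ ∑ _i : Pr n, (6 * |a - b|) ^ 2 :=
          Finset.sum_le_sum fun i _ => h2 i
      _ = (Fintype.card (Pr n) : ℝ) * (6 * |a - b|) ^ 2 := by simp
      _ = (6 * Real.sqrt (Fintype.card (Pr n)) * |a - b|) ^ 2 := by
          rw [mul_pow, mul_pow, mul_pow, Real.sq_sqrt (Nat.cast_nonneg _)]
          ring
  calc Real.sqrt (∑ i : Pr n, ‖(Z ωa - Z ωb) i‖ ^ 2)
      ≤ Real.sqrt ((6 * Real.sqrt (Fintype.card (Pr n)) * |a - b|) ^ 2) := Real.sqrt_le_sqrt h1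
    _ = 6 * Real.sqrt (Fintype.card (Pr n)) * |a - b| := Real.sqrt_sq (by positivity)

/-- The solution of `c - K c = a`. -/
def A0 (T : ℕ) (ω : Om n) (a : V n) : V n := Ring.inverse (1 - Kop T ω) a

theorem norm_Kop_lt {T : ℕ} {ω : Om n} (h : hs T ω < 1) : ‖Kop T ω‖ < 1 := by
  have h1 : ‖Kop T ω‖ ≤ Real.sqrt (hs T ω) :=
    ContinuousLinearMap.opNorm_le_bound _ (Real.sqrt_nonneg _) fun c => by
      rw [norm_Kop]
      exact norm_N_le_hs T ω c
  refine h1.trans_lt ?_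
  rw [Real.sqrt_lt' one_pos]
  simpa using h

theorem isUnit_one_sub_Kop {T : ℕ} {ω : Om n} (h : hs T ω < 1) : IsUnit (1 - Kop T ω) :=
  ⟨Units.oneSub (Kop T ω) (norm_Kop_lt h), rfl⟩

theorem A0_spec {T : ℕ} {ω : Om n} (h : hs T ω < 1) (a : V n) :
    A0 T ω a = a + Kop T ω (A0 T ω a) := by
  have h1 := Ring.mul_inverse_cancel _ (isUnit_one_sub_Kop h)
  have h2 : (1 - Kop T ω) (A0 T ω a) = a := by
    have := congrArg (fun L : V n →L[ℝ] V n => L a) h1
    exact this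
  have h3 : A0 T ω a - Kop T ω (A0 T ω a) = a := h2
  exact eq_add_of_sub_eq h3

theorem sqrt_hs_le {T : ℕ} {ω : Om n} (h : hs T ω ≤ 1 / 4) : Real.sqrt (hs T ω) ≤ 1 / 2 := by
  rw [Real.sqrt_le_left (by norm_num)]
  norm_num
  linarith

theorem norm_A0_le {T : ℕ} {ω : Om n} (h : hs T ω ≤ 1 / 4) (a : V n) :
    ‖A0 T ω a‖ ≤ 2 * ‖a‖ := by
  have h1 := A0_spec (by linarith : hs T ω < 1) a
  have h2 : ‖Kop T ω (A0 T ω a)‖ ≤ 1 / 2 * ‖A0 T ω a‖ := by
    rw [norm_Kop]
    exact (norm_N_le_hs T ω _).trans (mul_le_mul_of_nonneg_right (sqrt_hs_le h) (norm_nonneg _))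
  have h3 : ‖A0 T ω a‖ ≤ ‖a‖ + ‖Kop T ω (A0 T ω a)‖ := by
    conv_lhs => rw [h1]
    exact norm_add_le _ _
  linarith

theorem norm_A0_sub_le (s T : ℕ) (ω : Om n) (e : Pr n) (a b : ℝ) (c : V n)
    (ha : hs T (Function.update ω s (e, a)) ≤ 1 / 4)
    (hb : hs T (Function.update ω s (e, b)) ≤ 1 / 4) :
    ‖A0 T (Function.update ω s (e, a)) c - A0 T (Function.update ω s (e, b)) c‖ ≤
      48 * |a - b| * ‖c‖ := by
  have h0 := fun d => norm_Kop_sub_le s T ω e a b d
  set ωa := Function.update ω s (e, a)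
  set ωb := Function.update ω s (e, b)
  have h1 := A0_spec (by linarith : hs T ωa < 1) c
  have h2 := A0_spec (by linarith : hs T ωb < 1) c
  have h3 : A0 T ωa c - A0 T ωb c = Kop T ωa (A0 T ωa c - A0 T ωb c) +
      (Kop T ωa (A0 T ωb c) - Kop T ωb (A0 T ωb c)) := by
    conv_lhs => rw [h1, h2]
    rw [map_sub]
    abel
  have h4 : ‖Kop T ωa (A0 T ωa c - A0 T ωb c)‖ ≤ 1 / 2 * ‖A0 T ωa c - A0 T ωb c‖ := by
    rw [norm_Kop]
    exact (norm_N_le_hs T ωa _).trans (mul_le_mul_of_nonneg_right (sqrt_hs_le ha) (norm_nonneg _))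
  have h5 : ‖Kop T ωa (A0 T ωb c) - Kop T ωb (A0 T ωb c)‖ ≤ 24 * |a - b| * ‖c‖ := by
    refine (h0 _).trans ?_
    have := norm_A0_le hb c
    calc 12 * |a - b| * ‖A0 T ωb c‖ ≤ 12 * |a - b| * (2 * ‖c‖) := by gcongr
      _ = 24 * |a - b| * ‖c‖ := by ring
  have h6 : ‖A0 T ωa c - A0 T ωb c‖ ≤ ‖Kop T ωa (A0 T ωa c - A0 T ωb c)‖ +
      ‖Kop T ωa (A0 T ωb c) - Kop T ωb (A0 T ωb c)‖ := by
    conv_lhs => rw [h3]
    exact norm_add_le _ _
  linarith

/-- The cutoff. -/
def chi (T : ℕ) (ω : Om n) : ℝ := max 0 (1 - 4 * hs T ω)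

theorem chi_nonneg (T : ℕ) (ω : Om n) : 0 ≤ chi T ω := le_max_left _ _

theorem chi_le_one (T : ℕ) (ω : Om n) : chi T ω ≤ 1 :=
  max_le zero_le_one (by linarith [hs_nonneg T ω])

theorem one_sub_chi_le (T : ℕ) (ω : Om n) : 1 - chi T ω ≤ 4 * hs T ω := by
  have := le_max_right 0 (1 - 4 * hs T ω)
  unfold chi
  linarith

theorem chi_eq_zero {T : ℕ} {ω : Om n} (h : 1 / 4 ≤ hs T ω) : chi T ω = 0 :=
  max_eq_left (by linarith)

theorem chi_eq {T : ℕ} {ω : Om n} (h : hs T ω ≤ 1 / 4) : chi T ω = 1 - 4 * hs T ω :=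
  max_eq_right (by linarith)

theorem continuous_chi (T : ℕ) : Continuous (chi T : Om n → ℝ) := by
  unfold chi
  exact continuous_const.max (continuous_const.sub (continuous_const.mul (continuous_hs T)))

/-- The weight of the derivative in the angle `s`. -/
def us (s T : ℕ) (ω : Om n) (a : V n) : ℝ := chi T ω * (N s ω (A0 T ω a)) (ω s).1

theorem coord_le (c : V n) (e : Pr n) : |c e| ≤ ‖c‖ := by
  have h := PiLp.norm_apply_le c e
  rwa [Real.norm_eq_abs] at h

theorem abs_us_le (s T : ℕ) (ω : Om n) (a : V n) : |us s T ω a| ≤ 2 * ‖a‖ := by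
  unfold us
  by_cases h : hs T ω ≤ 1 / 4
  · rw [abs_mul, abs_of_nonneg (chi_nonneg T ω)]
    have h1 : |(N s ω (A0 T ω a)) (ω s).1| ≤ 2 * ‖a‖ :=
      (coord_le _ _).trans ((norm_N_le _ _ _).trans (norm_A0_le h a))
    calc chi T ω * |(N s ω (A0 T ω a)) (ω s).1| ≤ 1 * (2 * ‖a‖) :=
          mul_le_mul (chi_le_one T ω) h1 (abs_nonneg _) zero_le_one
      _ = 2 * ‖a‖ := one_mul _
  · rw [chi_eq_zero (by linarith), zero_mul, abs_zero]
    positivity

theorem us_lipschitz {s T : ℕ} (ω : Om n) (e : Pr n) (a b : ℝ) (c : V n) :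
    |us s T (Function.update ω s (e, a)) c - us s T (Function.update ω s (e, b)) c| ≤
      (96 * Real.sqrt (Fintype.card (Pr n)) * ‖c‖) * |a - b| := by
  have hD : (1 : ℝ) ≤ Real.sqrt (Fintype.card (Pr n)) := by
    rw [Real.one_le_sqrt]
    have : 0 < Fintype.card (Pr n) := Fintype.card_pos_iff.2 ⟨e⟩
    exact_mod_cast this
  set D : ℝ := Real.sqrt (Fintype.card (Pr n)) with hDdef
  -- a symmetric statement with the case `hs ≤ 1/4` at the first point
  have key : ∀ a b : ℝ, hs T (Function.update ω s (e, a)) ≤ 1 / 4 →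
      |us s T (Function.update ω s (e, a)) c - us s T (Function.update ω s (e, b)) c| ≤
      (96 * D * ‖c‖) * |a - b| := by
    intro a b ha
    have hS := sqrt_hs_sub_le s T ω e a b
    rw [← hDdef] at hS
    have hNa : N s (Function.update ω s (e, a)) = N s ω := N_update le_rfl _ _
    have hNb : N s (Function.update ω s (e, b)) = N s ω := N_update le_rfl _ _
    have hea : (Function.update ω s (e, a) s).1 = e := by rw [Function.update_self]
    have heb : (Function.update ω s (e, b) s).1 = e := by rw [Function.update_self]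
    unfold us
    rw [hNa, hNb, hea, heb]
    have hA := norm_A0_sub_le s T ω e a b c ha
    set ωa := Function.update ω s (e, a)
    set ωb := Function.update ω s (e, b)
    have hsa : hs T ωa = Real.sqrt (hs T ωa) ^ 2 := (Real.sq_sqrt (hs_nonneg _ _)).symm
    have hsb : hs T ωb = Real.sqrt (hs T ωb) ^ 2 := (Real.sq_sqrt (hs_nonneg _ _)).symm
    have hra := sqrt_hs_le ha
    have hra0 := Real.sqrt_nonneg (hs T ωa)
    have hrb0 := Real.sqrt_nonneg (hs T ωb)
    have hya : |(N s ω (A0 T ωa c)) e| ≤ 2 * ‖c‖ :=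
      (coord_le _ _).trans ((norm_N_le _ _ _).trans (norm_A0_le ha c))
    have hab : 0 ≤ |a - b| := abs_nonneg _
    have hc0 : 0 ≤ ‖c‖ := norm_nonneg c
    by_cases hb : hs T ωb ≤ 1 / 4
    · have hrb := sqrt_hs_le hb
      have hAb := hA hb
      have h1 : |(N s ω (A0 T ωa c)) e - (N s ω (A0 T ωb c)) e| ≤ 48 * |a - b| * ‖c‖ := by
        have h2 : (N s ω (A0 T ωa c)) e - (N s ω (A0 T ωb c)) e =
            (N s ω (A0 T ωa c - A0 T ωb c)) e := by
          rw [map_sub]; rfl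
        rw [h2]
        exact (coord_le _ _).trans ((norm_N_le _ _ _).trans hAb)
      have h3 : |chi T ωa - chi T ωb| ≤ 24 * D * |a - b| := by
        rw [chi_eq ha, chi_eq hb]
        have h4 : 1 - 4 * hs T ωa - (1 - 4 * hs T ωb) =
            -4 * ((Real.sqrt (hs T ωa) - Real.sqrt (hs T ωb)) *
              (Real.sqrt (hs T ωa) + Real.sqrt (hs T ωb))) := by
          rw [hsa, hsb]
          simp only [Real.sqrt_sq hra0, Real.sqrt_sq hrb0]
          ring
        rw [h4, abs_mul, abs_mul, abs_of_nonneg (add_nonneg hra0 hrb0)]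
        have h5 : |(-4 : ℝ)| = 4 := by norm_num
        rw [h5]
        calc 4 * (|Real.sqrt (hs T ωa) - Real.sqrt (hs T ωb)| *
              (Real.sqrt (hs T ωa) + Real.sqrt (hs T ωb)))
            ≤ 4 * ((6 * D * |a - b|) * 1) := by
              refine mul_le_mul_of_nonneg_left ?_ (by norm_num)
              exact mul_le_mul hS (by linarith) (add_nonneg hra0 hrb0) (by positivity)
          _ = 24 * D * |a - b| := by ring
      have h6 : chi T ωa * (N s ω (A0 T ωa c)) e - chi T ωb * (N s ω (A0 T ωb c)) e =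
          (chi T ωa - chi T ωb) * (N s ω (A0 T ωa c)) e +
          chi T ωb * ((N s ω (A0 T ωa c)) e - (N s ω (A0 T ωb c)) e) := by ring
      rw [h6]
      refine (abs_add_le _ _).trans ?_
      rw [abs_mul, abs_mul, abs_of_nonneg (chi_nonneg T ωb)]
      have h7 : |chi T ωa - chi T ωb| * |(N s ω (A0 T ωa c)) e| ≤
          (24 * D * |a - b|) * (2 * ‖c‖) :=
        mul_le_mul h3 hya (abs_nonneg _) (by positivity)
      have h8 : chi T ωb * |(N s ω (A0 T ωa c)) e - (N s ω (A0 T ωb c)) e| ≤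
          1 * (48 * |a - b| * ‖c‖) :=
        mul_le_mul (chi_le_one _ _) h1 (abs_nonneg _) zero_le_one
      have h9 : |a - b| * ‖c‖ ≤ D * (|a - b| * ‖c‖) := by
        have : 0 ≤ |a - b| * ‖c‖ := by positivity
        nlinarith
      nlinarith
    · push Not at hb
      have hrb : 1 / 2 < Real.sqrt (hs T ωb) := by
        rw [Real.lt_sqrt (by norm_num)]
        norm_num
        linarith
      rw [chi_eq_zero hb.le, zero_mul, sub_zero, abs_mul, abs_of_nonneg (chi_nonneg _ _)]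
      have h3 : chi T ωa ≤ 24 * D * |a - b| := by
        rw [chi_eq ha, hsa]
        have h4 : Real.sqrt (hs T ωb) - Real.sqrt (hs T ωa) ≤ 6 * D * |a - b| := by
          have := abs_sub_comm (Real.sqrt (hs T ωa)) (Real.sqrt (hs T ωb))
          have h5 := le_abs_self (Real.sqrt (hs T ωb) - Real.sqrt (hs T ωa))
          linarith
        nlinarith
      calc chi T ωa * |(N s ω (A0 T ωa c)) e| ≤ (24 * D * |a - b|) * (2 * ‖c‖) :=
            mul_le_mul h3 hya (abs_nonneg _) (by positivity)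
        _ ≤ (96 * D * ‖c‖) * |a - b| := by
            have : 0 ≤ D * |a - b| * ‖c‖ := by positivity
            nlinarith
  by_cases ha : hs T (Function.update ω s (e, a)) ≤ 1 / 4
  · exact key a b ha
  · by_cases hb : hs T (Function.update ω s (e, b)) ≤ 1 / 4
    · rw [abs_sub_comm, abs_sub_comm a b]
      exact key b a hb
    · push Not at ha hb
      unfold us
      rw [chi_eq_zero ha.le, chi_eq_zero hb.le, zero_mul, zero_mul, sub_zero, abs_zero]
      positivity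

end Pf31f09.SO
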