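import Mathlib
import Pool.Agent.Lib.Pf31f09.SOLip

/-! The gradient bound of the regular part of the walk. -/

noncomputable section

open Matrix Finset MeasureTheory Filter Topology
open scoped Matrix.Norms.Frobenius

namespace Pf31f09.SO

variable {n : ℕ}

theorem continuous_Kop (T : ℕ) : Continuous (Kop T : Om n → (V n →L[ℝ] V n)) := by
  have h : (Kop T : Om n → (V n →L[ℝ] V n)) = fun ω => (AdV (B T ω)ᵀ).comp (N T ω) := rfl
  rw [h]
  exact (continuous_AdV.comp (continuous_B T).matrix_transpose).clm_comp (continuous_N T)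

theorem continuous_us (s T : ℕ) (a : V n) : Continuous (fun ω : Om n => us s T ω a) := by
  rw [continuous_iff_continuousAt]
  intro ω
  by_cases h : hs T ω < 1
  · have h1 : ContinuousAt (fun ω => Ring.inverse (1 - Kop T ω)) ω := by
      have h2 : ContinuousAt Ring.inverse (1 - Kop T ω) := by
        obtain ⟨u, hu⟩ := isUnit_one_sub_Kop h
        rw [← hu]
        exact NormedRing.inverse_continuousAt u
      exact ContinuousAt.comp (f := fun ω => 1 - Kop T ω) h2
        (continuous_const.sub (continuous_Kop T)).continuousAt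
    have h2 : ContinuousAt (fun ω => A0 T ω a) ω := h1.clm_apply continuousAt_const
    have h3 : ContinuousAt (fun ω => N s ω (A0 T ω a)) ω :=
      (continuous_N s).continuousAt.clm_apply h2
    have h4 : ContinuousAt (fun ω : Om n => (N s ω (A0 T ω a)) (ω s).1) ω := by
      have h5 : Continuous fun p : V n × Pr n => p.1 p.2 := by
        have h6 : Continuous fun p : Pr n × V n => p.2 p.1 := by
          rw [continuous_prod_of_discrete_left]
          intro e
          exact (EuclideanSpace.proj e : V n →L[ℝ] ℝ).continuous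
        exact h6.comp continuous_swap
      have h7 : ContinuousAt (fun ω : Om n => (N s ω (A0 T ω a), (ω s).1)) ω :=
        h3.prodMk (continuous_fst.comp (continuous_apply s)).continuousAt
      exact ContinuousAt.comp (f := fun ω : Om n => (N s ω (A0 T ω a), (ω s).1))
        h5.continuousAt h7
    exact (continuous_chi T).continuousAt.mul h4
  · have h1 : ∀ᶠ ω' in 𝓝 ω, 1 / 4 < hs T ω' :=
      (continuous_hs T).continuousAt.eventually (lt_mem_nhds (by linarith))
    have h2 : (fun ω' : Om n => us s T ω' a) =ᶠ[𝓝 ω] fun _ => 0 := by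
      filter_upwards [h1] with ω' hω'
      unfold us
      rw [chi_eq_zero hω'.le, zero_mul]
    exact (continuousAt_const).congr h2.symm

theorem dB_zero {s : ℕ} (ω : Om n) : ∀ m, m ≤ s → dB s m ω = 0 := by
  intro m
  induction m with
  | zero => intro _; rfl
  | succ m ihm =>
    intro hm
    simp only [dB]
    rw [ihm (by omega), if_neg (by omega)]
    simp

theorem hasDerivAt_B (s T : ℕ) (ω : Om n) (e : Pr n) (θ : ℝ) :
    HasDerivAt (fun a => B T (Function.update ω s (e, a)))
      (dB s T (Function.update ω s (e, θ))) θ := by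
  induction T with
  | zero =>
    exact hasDerivAt_const θ _
  | succ T ih =>
    by_cases h : T = s
    · subst h
      have h1 : (fun a => B (T + 1) (Function.update ω T (e, a))) =
          fun a => R e a * B T ω := by
        ext1 a
        rw [B_succ, B_update le_rfl, Function.update_self]
      have h2 : dB T (T + 1) (Function.update ω T (e, θ)) = R e θ * G e * B T ω := by
        simp only [dB, dB_zero _ T le_rfl]
        rw [if_pos trivial, B_update le_rfl, Function.update_self, mul_zero, zero_add]
      rw [h1, h2]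
      exact (hasDerivAt_R e θ).mul_const (B T ω)
    · have h1 : (fun a => B (T + 1) (Function.update ω s (e, a))) =
          fun a => R (ω T).1 (ω T).2 * B T (Function.update ω s (e, a)) := by
        ext1 a
        rw [B_succ, Function.update_of_ne h]
      have h2 : dB s (T + 1) (Function.update ω s (e, θ)) =
          R (ω T).1 (ω T).2 * dB s T (Function.update ω s (e, θ)) := by
        simp only [dB]
        rw [if_neg h, add_zero, Function.update_of_ne h]
      rw [h1, h2]
      exact ih.const_mul (R (ω T).1 (ω T).2)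

theorem continuous_dB (s T : ℕ) : Continuous (dB s T : Om n → Mat n) := by
  induction T with
  | zero => exact continuous_const
  | succ T ih =>
    have h1 : Continuous fun ω : Om n => R (ω T).1 (ω T).2 :=
      continuous_R'.comp (continuous_apply T)
    have h2 : Continuous fun ω : Om n => G (ω T).1 :=
      (continuous_of_discreteTopology (f := (G : Pr n → Mat n))).comp
        (continuous_fst.comp (continuous_apply T))
    by_cases h : T = s
    · have h3 : (dB s (T + 1) : Om n → Mat n) = fun ω => R (ω T).1 (ω T).2 * dB s T ω +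
          R (ω T).1 (ω T).2 * G (ω T).1 * B T ω := by
        ext1 ω
        simp only [dB]
        rw [if_pos h]
      rw [h3]
      exact (h1.mul ih).add ((h1.mul h2).mul (continuous_B T))
    · have h3 : (dB s (T + 1) : Om n → Mat n) = fun ω => R (ω T).1 (ω T).2 * dB s T ω := by
        ext1 ω
        simp only [dB]
        rw [if_neg h, add_zero]
      rw [h3]
      exact h1.mul ih

/-- The representation of the derivative. -/
theorem chi_smul_eq (T : ℕ) (ω : Om n) (a : V n) :
    chi T ω • (B T ω * iota n a) = ∑ s ∈ Finset.range T, us s T ω a • dB s T ω := by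
  by_cases h : hs T ω ≤ 1 / 4
  · have h1 := A0_spec (by linarith : hs T ω < 1) a
    have h2 : B T ω * iota n a = ∑ s ∈ Finset.range T,
        (N s ω (A0 T ω a)) (ω s).1 • dB s T ω := by
      have h3 : a = A0 T ω a - Kop T ω (A0 T ω a) := eq_sub_of_add_eq h1.symm
      have h4 : B T ω * iota n (Kop T ω (A0 T ω a)) = iota n (N T ω (A0 T ω a)) * B T ω := by
        rw [Kop_apply, iota_AdV, Matrix.transpose_transpose, ← Matrix.mul_assoc,
          ← Matrix.mul_assoc, B_orth', Matrix.one_mul]
      conv_lhs => rw [h3]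
      rw [map_sub, Matrix.mul_sub, h4, main_identity]
      abel
    rw [h2, Finset.smul_sum]
    refine Finset.sum_congr rfl fun s _ => ?_
    rw [smul_smul]
    rfl
  · push Not at h
    have h1 : ∀ s, us s T ω a = 0 := fun s => by
      unfold us
      rw [chi_eq_zero h.le, zero_mul]
    rw [chi_eq_zero h.le, zero_smul, Finset.sum_eq_zero]
    intro s _
    rw [h1 s, zero_smul]

theorem B_periodic (s T : ℕ) (ω : Om n) (e : Pr n) (θ : ℝ) :
    B T (Function.update ω s (e, θ + 2 * Real.pi)) = B T (Function.update ω s (e, θ)) := by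
  induction T with
  | zero => rfl
  | succ T ih =>
    rw [B_succ, B_succ, ih]
    by_cases h : T = s
    · subst h
      rw [Function.update_self, Function.update_self]
      simp only
      rw [R_periodic e θ]
    · rw [Function.update_of_ne h, Function.update_of_ne h]

theorem N_periodic (s T : ℕ) (ω : Om n) (e : Pr n) (θ : ℝ) :
    N T (Function.update ω s (e, θ + 2 * Real.pi)) = N T (Function.update ω s (e, θ)) := by
  induction T with
  | zero => rfl
  | succ T ih =>
    unfold N
    rw [ih]
    by_cases h : T = s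
    · subst h
      rw [Function.update_self, Function.update_self]
      simp only
      rw [R_periodic e θ]
    · rw [Function.update_of_ne h, Function.update_of_ne h]

theorem us_periodic (s T : ℕ) (ω : Om n) (e : Pr n) (a : V n) :
    Function.Periodic (fun θ => us s T (Function.update ω s (e, θ)) a) (2 * Real.pi) := by
  intro θ
  unfold us chi A0 Kop hs
  simp only [B_periodic, N_periodic, Function.update_self]

theorem stronglyMeasurable_B (T : ℕ) : StronglyMeasurable (B T : Om n → Mat n) := by
  have h1 : TopologicalSpace.PseudoMetrizableSpace (Mat n) :=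
    inferInstanceAs (TopologicalSpace.PseudoMetrizableSpace (Fin n → Fin n → ℝ))
  exact (continuous_B T).stronglyMeasurable

/-- The regular part. -/
def F1 (T : ℕ) (f : Mat n → ℝ) (x : Mat n) : ℝ := ∫ ω, chi T ω * f (B T ω * x) ∂(mu n)

theorem contDiff_F1 (hn : 2 ≤ n) (T : ℕ) {f : Mat n → ℝ} (hf : ContDiff ℝ 1 f) :
    ContDiff ℝ 1 (F1 T f) := by
  have h2 := isProb_mu hn
  refine contDiff_average (mu n) (K := Real.sqrt n) (continuous_chi T).measurable (fun ω => ?_)
    (stronglyMeasurable_B T) (fun ω => (isSO_norm (isSO_B T ω)).le) hf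
  rw [abs_of_nonneg (chi_nonneg _ _)]
  exact chi_le_one _ _

theorem fderiv_F1 (hn : 2 ≤ n) (T : ℕ) {f : Mat n → ℝ} (hf : ContDiff ℝ 1 f) (x H : Mat n) :
    fderiv ℝ (F1 T f) x H = ∫ ω, chi T ω * fderiv ℝ f (B T ω * x) (B T ω * H) ∂(mu n) := by
  have h2 := isProb_mu hn
  refine fderiv_average (mu n) (K := Real.sqrt n) (continuous_chi T).measurable (fun ω => ?_)
    (stronglyMeasurable_B T) (fun ω => (isSO_norm (isSO_B T ω)).le) hf x H
  rw [abs_of_nonneg (chi_nonneg _ _)]
  exact chi_le_one _ _

theorem hasDerivAt_fB {f : Mat n → ℝ} (hf : ContDiff ℝ 1 f) (s T : ℕ) (ω : Om n) (e : Pr n)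
    (x : Mat n) (θ : ℝ) :
    HasDerivAt (fun a => f (B T (Function.update ω s (e, a)) * x))
      (fderiv ℝ f (B T (Function.update ω s (e, θ)) * x)
        (dB s T (Function.update ω s (e, θ)) * x)) θ := by
  have h1 : HasFDerivAt f (fderiv ℝ f (B T (Function.update ω s (e, θ)) * x))
      (B T (Function.update ω s (e, θ)) * x) :=
    (hf.differentiable one_ne_zero _).hasFDerivAt
  have h2 := (hasDerivAt_B s T ω e θ).mul_const x
  exact h1.comp_hasDerivAt θ h2

theorem continuous_dfB {f : Mat n → ℝ} (hf : ContDiff ℝ 1 f) (s T : ℕ) (x : Mat n) :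
    Continuous fun ω : Om n => fderiv ℝ f (B T ω * x) (dB s T ω * x) := by
  have h1 : Continuous (fderiv ℝ f) := hf.continuous_fderiv one_ne_zero
  exact (h1.comp ((continuous_B T).mul continuous_const)).clm_apply
    ((continuous_dB s T).mul continuous_const)

theorem norm_dB_le (s T : ℕ) (ω : Om n) : ‖dB s T ω‖ ≤ 3 / 2 := by
  induction T with
  | zero => simp [dB]; norm_num
  | succ T ih =>
    simp only [dB]
    by_cases h : T = s
    · subst h
      rw [dB_zero ω T le_rfl, if_pos rfl, mul_zero, zero_add, Matrix.mul_assoc,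
        norm_mul_left (R_transpose_mul _ _), norm_mul_right (B_orth' _ _)]
      exact norm_G_le _
    · rw [if_neg h, add_zero, norm_mul_left (R_transpose_mul _ _)]
      exact ih

theorem exists_bound_df {f : Mat n → ℝ} (hf : ContDiff ℝ 1 f) (x : Mat n) :
    ∃ C, 0 ≤ C ∧ ∀ (T : ℕ) (ω : Om n) (H : Mat n), |fderiv ℝ f (B T ω * x) H| ≤ C * ‖H‖ := by
  have hc : IsCompact (Metric.closedBall (0 : Mat n) (Real.sqrt n * ‖x‖)) :=
    isCompact_closedBall _ _
  obtain ⟨C, hC⟩ := hc.exists_bound_of_continuousOn (hf.continuous_fderiv one_ne_zero).continuousOn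
  refine ⟨max C 0, le_max_right _ _, fun T ω H => ?_⟩
  have h1 : B T ω * x ∈ Metric.closedBall (0 : Mat n) (Real.sqrt n * ‖x‖) := by
    rw [mem_closedBall_zero_iff]
    refine (norm_mul_le _ _).trans ?_
    rw [isSO_norm (isSO_B T ω)]
  have h2 := (fderiv ℝ f (B T ω * x)).le_opNorm H
  rw [Real.norm_eq_abs] at h2
  refine h2.trans (mul_le_mul_of_nonneg_right ((hC _ h1).trans (le_max_left _ _)) (norm_nonneg _))

theorem gradBd_F1 (hn : 2 ≤ n) (T : ℕ) {f : Mat n → ℝ} (hf : ContDiff ℝ 1 f)
    (hf1 : ∀ x, IsSO x → |f x| ≤ 1) :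
    GradBd (F1 T f) (96 * T * Real.sqrt (Fintype.card (Pr n))) := by
  have hp1 := isProb_nu hn
  have hp2 := isProb_mu hn
  intro x hx a
  rw [fderiv_F1 hn T hf]
  obtain ⟨C, hC0, hC⟩ := exists_bound_df hf x
  have h1 : ∀ ω : Om n, chi T ω * fderiv ℝ f (B T ω * x) (B T ω * (iota n a * x)) =
      ∑ s ∈ Finset.range T, us s T ω a * fderiv ℝ f (B T ω * x) (dB s T ω * x) := by
    intro ω
    have h2 : chi T ω • (B T ω * (iota n a * x)) =
        ∑ s ∈ Finset.range T, us s T ω a • (dB s T ω * x) := by
      rw [← Matrix.mul_assoc, ← Matrix.smul_mul, chi_smul_eq, Finset.sum_mul]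
      exact Finset.sum_congr rfl fun s _ => Matrix.smul_mul _ _ _
    rw [← smul_eq_mul, ← map_smul, h2, map_sum]
    refine Finset.sum_congr rfl fun s _ => ?_
    rw [map_smul, smul_eq_mul]
  have hint : ∀ s, Continuous fun ω : Om n =>
      us s T ω a * fderiv ℝ f (B T ω * x) (dB s T ω * x) :=
    fun s => (continuous_us s T a).mul (continuous_dfB hf s T x)
  have hbd : ∀ s (ω : Om n), |us s T ω a * fderiv ℝ f (B T ω * x) (dB s T ω * x)| ≤
      2 * ‖a‖ * (C * (3 / 2 * ‖x‖)) := by
    intro s ω
    rw [abs_mul]
    refine mul_le_mul (abs_us_le _ _ _ _) ?_ (abs_nonneg _) (by positivity)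
    refine (hC T ω _).trans (mul_le_mul_of_nonneg_left ?_ hC0)
    exact (norm_mul_le _ _).trans (mul_le_mul_of_nonneg_right (norm_dB_le _ _ _) (norm_nonneg _))
  rw [integral_congr_ae (Eventually.of_forall h1), integral_finsetSum]
  swap
  · intro s _
    exact Integrable.of_bound (hint s).measurable.aestronglyMeasurable _
      (Eventually.of_forall fun ω => hbd s ω)
  refine (Finset.abs_sum_le_sum_abs _ _).trans ?_
  have h3 : ∀ s ∈ Finset.range T,
      |∫ ω, us s T ω a * fderiv ℝ f (B T ω * x) (dB s T ω * x) ∂(mu n)| ≤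
      96 * Real.sqrt (Fintype.card (Pr n)) * ‖a‖ := by
    intro s _
    rw [integral_update hn s (hint s).measurable (fun ω => hbd s ω)]
    have h4 : ∀ ω : Om n, ‖∫ b, us s T (Function.update ω s b) a *
        fderiv ℝ f (B T (Function.update ω s b) * x) (dB s T (Function.update ω s b) * x)
          ∂(nu n)‖ ≤ 96 * Real.sqrt (Fintype.card (Pr n)) * ‖a‖ := by
      intro ω
      have hc : Continuous fun b : Pr n × ℝ => us s T (Function.update ω s b) a *
          fderiv ℝ f (B T (Function.update ω s b) * x) (dB s T (Function.update ω s b) * x) :=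
        (hint s).comp (continuous_const.update s continuous_id)
      rw [integral_nu (integrable_nu_of_continuous hc fun b => hbd s _), Real.norm_eq_abs,
        abs_mul, abs_of_nonneg (by positivity : (0 : ℝ) ≤ (Fintype.card (Pr n) : ℝ)⁻¹)]
      have hcard : (0 : ℝ) < Fintype.card (Pr n) := by exact_mod_cast card_Pr_pos hn
      rw [inv_mul_le_iff₀ hcard]
      refine (Finset.abs_sum_le_sum_abs _ _).trans ?_
      have h5 : ∀ e : Pr n, |∫ θ, us s T (Function.update ω s (e, θ)) a *
          fderiv ℝ f (B T (Function.update ω s (e, θ)) * x)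
            (dB s T (Function.update ω s (e, θ)) * x) ∂unifAngle| ≤
          96 * Real.sqrt (Fintype.card (Pr n)) * ‖a‖ := by
        intro e
        rw [integral_unifAngle]
        refine ibp_bound (v := fun θ => f (B T (Function.update ω s (e, θ)) * x))
          (fun b c => us_lipschitz ω e b c a) (us_periodic s T ω e a)
          (fun θ => hasDerivAt_fB hf s T ω e x θ) ?_ ?_ ?_
        · have h6 : Continuous fun θ : ℝ => Function.update ω s (e, θ) :=
            continuous_const.update s (continuous_const.prodMk continuous_id)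
          exact (continuous_dfB hf s T x).comp h6
        · intro θ
          simp only [B_periodic]
        · intro θ
          exact hf1 _ ((isSO_B _ _).mul hx)
      calc ∑ e : Pr n, |∫ θ, us s T (Function.update ω s (e, θ)) a *
          fderiv ℝ f (B T (Function.update ω s (e, θ)) * x)
            (dB s T (Function.update ω s (e, θ)) * x) ∂unifAngle|
          ≤ ∑ _e : Pr n, 96 * Real.sqrt (Fintype.card (Pr n)) * ‖a‖ :=
            Finset.sum_le_sum fun e _ => h5 e
        _ = _ := by simp
    have h7 := norm_integral_le_of_norm_le_const (μ := mu n) (Eventually.of_forall h4)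
    rw [Real.norm_eq_abs] at h7
    simpa using h7
  refine (Finset.sum_le_sum h3).trans (le_of_eq ?_)
  simp only [Finset.sum_const, Finset.card_range, nsmul_eq_mul]
  ring

theorem abs_iterate_sub_F1_le (hn : 2 ≤ n) (T : ℕ) {f : Mat n → ℝ} (hf : ContDiff ℝ 1 f)
    (hf1 : ∀ x, IsSO x → |f x| ≤ 1) (x : Mat n) (hx : IsSO x) :
    |(Pop^[T] f) x - F1 T f x| ≤
      4 * ((Fintype.card (Pr n) : ℝ) * (1 - (Fintype.card (Pr n) : ℝ)⁻¹) ^ T) := by
  have hp2 := isProb_mu hn
  rw [iterate_Pop_eq hn T hf x, F1]
  have hB : Continuous fun ω : Om n => f (B T ω * x) :=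
    hf.continuous.comp ((continuous_B T).mul continuous_const)
  have hb1 : ∀ ω : Om n, |f (B T ω * x)| ≤ 1 := fun ω => hf1 _ ((isSO_B _ _).mul hx)
  have i1 : Integrable (fun ω : Om n => f (B T ω * x)) (mu n) :=
    Integrable.of_bound hB.measurable.aestronglyMeasurable 1 (Eventually.of_forall hb1)
  have i2 : Integrable (fun ω : Om n => chi T ω * f (B T ω * x)) (mu n) := by
    refine Integrable.of_bound ((continuous_chi T).mul hB).measurable.aestronglyMeasurable 1
      (Eventually.of_forall fun ω => ?_)
    rw [Real.norm_eq_abs, abs_mul, abs_of_nonneg (chi_nonneg _ _)]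
    calc chi T ω * |f (B T ω * x)| ≤ 1 * 1 :=
          mul_le_mul (chi_le_one _ _) (hb1 ω) (abs_nonneg _) zero_le_one
      _ = 1 := one_mul 1
  have i3 : Integrable (fun ω : Om n => hs T ω) (mu n) := by
    refine Integrable.of_bound (continuous_hs T).measurable.aestronglyMeasurable
      (Fintype.card (Pr n)) (Eventually.of_forall fun ω => ?_)
    rw [Real.norm_eq_abs, abs_of_nonneg (hs_nonneg _ _)]
    exact hs_le _ _
  rw [← integral_sub i1 i2, ← integral_hs hn T, ← integral_const_mul]
  refine (abs_integral_le_integral_abs).trans ?_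
  refine integral_mono (i1.sub i2).abs (i3.const_mul 4) fun ω => ?_
  have h1 : f (B T ω * x) - chi T ω * f (B T ω * x) = (1 - chi T ω) * f (B T ω * x) := by ring
  change |f (B T ω * x) - chi T ω * f (B T ω * x)| ≤ 4 * hs T ω
  rw [h1, abs_mul, abs_of_nonneg (by linarith [chi_le_one T ω] : 0 ≤ 1 - chi T ω)]
  have h2 := one_sub_chi_le T ω
  have h3 := hb1 ω
  have h4 : 0 ≤ 1 - chi T ω := by linarith [chi_le_one T ω]
  nlinarith

end Pf31f09.SO
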