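import Mathlib
import Pool.Agent.Lib.Pf31f09.SODefs

/-! The walk as a Markov chain on the compact group `SO(n)`, its Haar measure and the total
variation distance in terms of `C¹` functions. -/

noncomputable section

open Matrix Finset MeasureTheory
open scoped Matrix.Norms.Frobenius

namespace Pf31f09.SO

/-- The special orthogonal group. -/
abbrev SOn (n : ℕ) := Matrix.specialOrthogonalGroup (Fin n) ℝ

theorem coe_isSO {n : ℕ} (z : SOn n) : IsSO (z : Mat n) :=
  ⟨(Matrix.mem_orthogonalGroup_iff' (Fin n) ℝ).1 (Matrix.mem_specialOrthogonalGroup_iff.1 z.2).1,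
    (Matrix.mem_specialOrthogonalGroup_iff.1 z.2).2⟩

theorem isSO_mem {n : ℕ} {U : Mat n} (h : IsSO U) : U ∈ Matrix.specialOrthogonalGroup (Fin n) ℝ :=
  Matrix.mem_specialOrthogonalGroup_iff.2 ⟨(Matrix.mem_orthogonalGroup_iff' (Fin n) ℝ).2 h.1, h.2⟩

theorem coe_inv' {n : ℕ} (z : SOn n) : ((z⁻¹ : SOn n) : Mat n) = (z : Mat n)ᵀ := by
  have h1 : ((z⁻¹ : SOn n) : Mat n) * (z : Mat n) = 1 := by
    have := congrArg (Subtype.val) (inv_mul_cancel z)
    exact this
  have h2 : (z : Mat n) * (z : Mat n)ᵀ = 1 := mul_eq_one_comm.1 (coe_isSO z).1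
  calc ((z⁻¹ : SOn n) : Mat n) = ((z⁻¹ : SOn n) : Mat n) * ((z : Mat n) * (z : Mat n)ᵀ) := by
        rw [h2, Matrix.mul_one]
    _ = (z : Mat n)ᵀ := by rw [← Matrix.mul_assoc, h1, Matrix.one_mul]

instance instTopGroupSO (n : ℕ) : IsTopologicalGroup (SOn n) where
  continuous_mul := by
    refine Continuous.subtype_mk ?_ _
    exact (continuous_subtype_val.comp continuous_fst).matrix_mul
      (continuous_subtype_val.comp continuous_snd)
  continuous_inv := by
    refine continuous_induced_rng.2 ?_
    have : (Subtype.val ∘ fun a : SOn n => a⁻¹) = fun a : SOn n => (a : Mat n)ᵀ := by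
      funext a
      exact coe_inv' a
    rw [this]
    exact continuous_subtype_val.matrix_transpose

instance instCompactSO (n : ℕ) : CompactSpace (SOn n) := by
  refine isCompact_iff_compactSpace.1 ?_
  have hset : ((Matrix.specialOrthogonalGroup (Fin n) ℝ : Submonoid (Mat n)) : Set (Mat n)) =
      {U : Mat n | Uᵀ * U = 1 ∧ U.det = 1} := by
    ext U
    exact ⟨fun h => coe_isSO ⟨U, h⟩, fun h => isSO_mem h⟩
  rw [hset]
  refine Metric.isCompact_of_isClosed_isBounded ?_ ?_
  · refine IsClosed.inter ?_ ?_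
    · exact isClosed_eq ((continuous_id.matrix_transpose).matrix_mul continuous_id)
        continuous_const
    · exact isClosed_eq (continuous_id.matrix_det) continuous_const
  · refine (Metric.isBounded_closedBall (x := (0 : Mat n)) (r := Real.sqrt n)).subset ?_
    intro U hU
    have h := IsSO.norm_le (n := n) (U := U) hU
    rw [Metric.mem_closedBall, dist_zero_right]
    rw [← h]
    exact le_of_eq (Real.sqrt_sq (norm_nonneg _)).symm


instance instMeasSO (n : ℕ) : MeasurableSpace (SOn n) := borel _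

instance instBorelSO (n : ℕ) : BorelSpace (SOn n) := ⟨rfl⟩

instance instSecondCountableMat (n : ℕ) : SecondCountableTopology (Mat n) :=
  inferInstanceAs (SecondCountableTopology (Fin n → Fin n → ℝ))

instance instPseudoMetrizableMat (n : ℕ) : TopologicalSpace.PseudoMetrizableSpace (Mat n) :=
  inferInstanceAs (TopologicalSpace.PseudoMetrizableSpace (Fin n → Fin n → ℝ))

instance instSecondCountableSO (n : ℕ) : SecondCountableTopology (SOn n) :=
  TopologicalSpace.Subtype.secondCountableTopology _

variable {n : ℕ}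

/-- The rotation as an element of the group. -/
def rotSO (e : Pr n) (θ : ℝ) : SOn n :=
  ⟨R e θ, Matrix.mem_specialOrthogonalGroup_iff.2
    ⟨(Matrix.mem_orthogonalGroup_iff' (Fin n) ℝ).2 (R_transpose_mul e θ), det_R e θ⟩⟩

/-- The kernel of Kac's walk on `SO(n)`. -/
def step (x : SOn n) : Measure (SOn n) :=
  (Fintype.card (Pr n) : ENNReal)⁻¹ • ∑ e : Pr n, unifAngle.map fun θ => rotSO e θ * x

/-- The law at time `t` of Kac's walk on `SO(n)` started at `x`. -/
def law (x : SOn n) : ℕ → Measure (SOn n)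
  | 0 => Measure.dirac x
  | t + 1 => (law x t).bind step

/-- The Haar probability measure. -/
def haar (n : ℕ) : Measure (SOn n) := Measure.haarMeasure ⊤

/-- Total variation distance. -/
def tv (μ ν : Measure (SOn n)) : ℝ :=
  sSup {r : ℝ | ∃ A : Set (SOn n), MeasurableSet A ∧ r = |μ.real A - ν.real A|}

theorem continuous_rotSO (e : Pr n) : Continuous fun θ => rotSO e θ :=
  Continuous.subtype_mk (continuous_R e) _

theorem continuous_rotSO_mul (e : Pr n) :
    Continuous fun p : SOn n × ℝ => rotSO e p.2 * p.1 :=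
  ((continuous_rotSO e).comp continuous_snd).mul continuous_fst

theorem continuous_rotSO_mul_left (e : Pr n) (x : SOn n) :
    Continuous fun θ : ℝ => rotSO e θ * x :=
  (continuous_rotSO e).mul continuous_const

theorem measurable_rotSO_mul (e : Pr n) :
    Measurable fun p : SOn n × ℝ => rotSO e p.2 * p.1 :=
  (continuous_rotSO_mul e).measurable

theorem measurable_step : Measurable (step (n := n)) := by
  refine Measure.measurable_of_measurable_coe _ fun s hs => ?_
  have h : ∀ v : SOn n, step v s = (Fintype.card (Pr n) : ENNReal)⁻¹ *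
      ∑ e : Pr n, unifAngle {θ | rotSO e θ * v ∈ s} := by
    intro v
    rw [step, Measure.smul_apply, Measure.finsetSum_apply, smul_eq_mul]
    congr 1
    refine Finset.sum_congr rfl fun p _ => ?_
    rw [Measure.map_apply (continuous_rotSO_mul_left _ _).measurable hs]
    rfl
  simp only [h]
  refine Measurable.const_mul ?_ _
  refine Finset.measurable_sum _ fun e _ => ?_
  have hms : MeasurableSet {q : SOn n × ℝ | rotSO e q.2 * q.1 ∈ s} :=
    (measurable_rotSO_mul e) hs
  exact measurable_measure_prodMk_left hms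

theorem card_pos (hn : 2 ≤ n) : 0 < Fintype.card (Pr n) :=
  Fintype.card_pos_iff.2 ⟨⟨(⟨0, by omega⟩, ⟨1, by omega⟩), by simp [Fin.lt_def]⟩⟩

theorem isProb_step (hn : 2 ≤ n) (v : SOn n) : IsProbabilityMeasure (step v) := by
  constructor
  rw [step, Measure.smul_apply, Measure.finsetSum_apply, smul_eq_mul]
  have : ∀ e ∈ (Finset.univ : Finset (Pr n)),
      (unifAngle.map fun θ => rotSO e θ * v) Set.univ = 1 := by
    intro p _
    rw [Measure.map_apply (continuous_rotSO_mul_left _ _).measurable MeasurableSet.univ,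
      Set.preimage_univ, measure_univ]
  rw [Finset.sum_congr rfl this, Finset.sum_const, nsmul_eq_mul, mul_one, Finset.card_univ,
    ENNReal.inv_mul_cancel]
  · exact_mod_cast (card_pos hn).ne'
  · exact ENNReal.natCast_ne_top _

theorem isProb_law (hn : 2 ≤ n) (x : SOn n) (t : ℕ) : IsProbabilityMeasure (law x t) := by
  induction t with
  | zero => rw [law]; infer_instance
  | succ t ih =>
    rw [law]
    constructor
    rw [Measure.bind_apply MeasurableSet.univ measurable_step.aemeasurable]
    have : ∀ v : SOn n, step v Set.univ = 1 := fun v => (isProb_step hn v).measure_univ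
    simp [this]

/-- The operator on functions on the group. -/
def PS (F : SOn n → ℝ) (z : SOn n) : ℝ :=
  (Fintype.card (Pr n) : ℝ)⁻¹ * ∑ e : Pr n, ∫ θ, F (rotSO e θ * z) ∂unifAngle

theorem exists_bound {F : SOn n → ℝ} (hF : Continuous F) : ∃ C : ℝ, ∀ z, ‖F z‖ ≤ C := by
  obtain ⟨C, hC⟩ := isCompact_univ.exists_bound_of_continuousOn (f := F) hF.continuousOn
  exact ⟨C, fun z => hC z (Set.mem_univ z)⟩

theorem continuous_PS {F : SOn n → ℝ} (hF : Continuous F) : Continuous (PS F) := by
  obtain ⟨C, hC⟩ := exists_bound hF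
  unfold PS
  refine continuous_const.mul (continuous_finsetSum _ fun e _ => ?_)
  refine continuous_of_dominated (bound := fun _ => C) ?_ ?_ (integrable_const _) ?_
  · intro z
    exact (hF.comp (continuous_rotSO_mul_left e z)).aestronglyMeasurable
  · intro z
    exact Filter.Eventually.of_forall fun θ => hC _
  · refine Filter.Eventually.of_forall fun θ => ?_
    exact hF.comp ((continuous_const_mul _))

theorem integrable_of_continuous {μ : Measure (SOn n)} [IsFiniteMeasure μ] {F : SOn n → ℝ}
    (hF : Continuous F) : Integrable F μ := by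
  obtain ⟨C, hC⟩ := exists_bound hF
  exact Integrable.of_bound hF.aestronglyMeasurable C (Filter.Eventually.of_forall hC)

theorem integral_step {F : SOn n → ℝ} (hF : Continuous F) (v : SOn n) :
    ∫ w, F w ∂(step v) = PS F v := by
  rw [step, integral_smul_measure, integral_finsetSum_measure, PS, smul_eq_mul]
  · congr 1
    · simp
    · refine Finset.sum_congr rfl fun e _ => ?_
      rw [integral_map (continuous_rotSO_mul_left e v).measurable.aemeasurable
        hF.aestronglyMeasurable]
  · intro e _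
    have : IsProbabilityMeasure (unifAngle.map fun θ => rotSO e θ * v) :=
      Measure.isProbabilityMeasure_map (continuous_rotSO_mul_left e v).measurable.aemeasurable
    exact integrable_of_continuous hF

theorem integral_law_succ (hn : 2 ≤ n) {F : SOn n → ℝ} (hF : Continuous F) (x : SOn n) (t : ℕ) :
    ∫ w, F w ∂(law x (t + 1)) = ∫ v, PS F v ∂(law x t) := by
  have := isProb_law hn x t
  have := isProb_law hn x (t + 1)
  let κ : ProbabilityTheory.Kernel Unit (SOn n) := ProbabilityTheory.Kernel.const Unit (law x t)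
  let η : ProbabilityTheory.Kernel (SOn n) (SOn n) := ⟨step, measurable_step⟩
  have h1 : (ProbabilityTheory.Kernel.comp η κ) () = law x (t + 1) := rfl
  have hi : Integrable F ((ProbabilityTheory.Kernel.comp η κ) ()) := by
    rw [h1]
    exact integrable_of_continuous hF
  have h2 := ProbabilityTheory.Kernel.integral_comp hi
  rw [h1] at h2
  rw [h2]
  refine integral_congr_ae (Filter.Eventually.of_forall fun v => ?_)
  exact integral_step hF v

theorem integral_law (hn : 2 ≤ n) (x : SOn n) (t : ℕ) : ∀ {F : SOn n → ℝ}, Continuous F →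
    ∫ w, F w ∂(law x t) = (PS^[t] F) x := by
  induction t with
  | zero =>
    intro F hF
    rw [law, integral_dirac]
    rfl
  | succ t ih =>
    intro F hF
    rw [integral_law_succ hn hF, ih (continuous_PS hF), Function.iterate_succ_apply]

instance isProb_haar : IsProbabilityMeasure (haar n) := by
  constructor
  have := Measure.haarMeasure_self (G := SOn n) (K₀ := ⊤)
  simpa [haar] using this

instance isHaar_haar : (haar n).IsHaarMeasure := by
  unfold haar
  infer_instance

theorem integral_haar_PS (hn : 2 ≤ n) {F : SOn n → ℝ} (hF : Continuous F) :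
    ∫ z, PS F z ∂(haar n) = ∫ z, F z ∂(haar n) := by
  have hc : (Fintype.card (Pr n) : ℝ) ≠ 0 := by exact_mod_cast (card_pos hn).ne'
  unfold PS
  obtain ⟨C, hC⟩ := exists_bound hF
  rw [integral_const_mul, integral_finsetSum]
  · have h : ∀ e ∈ (Finset.univ : Finset (Pr n)),
        ∫ z, (∫ θ, F (rotSO e θ * z) ∂unifAngle) ∂(haar n) = ∫ z, F z ∂(haar n) := by
      intro e _
      rw [integral_integral_swap]
      · have h1 : ∀ θ, ∫ z, F (rotSO e θ * z) ∂(haar n) = ∫ z, F z ∂(haar n) := fun θ =>
          integral_mul_left_eq_self F (rotSO e θ)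
        simp only [h1, integral_const]
        simp
      · refine Integrable.of_bound ?_ C (Filter.Eventually.of_forall fun p => hC _)
        exact (hF.comp (continuous_rotSO_mul e)).aestronglyMeasurable
    rw [Finset.sum_congr rfl h, Finset.sum_const, nsmul_eq_mul, Finset.card_univ, ← mul_assoc,
      inv_mul_cancel₀ hc, one_mul]
  · intro e _
    refine integrable_of_continuous ?_
    refine continuous_of_dominated (bound := fun _ => C) ?_ ?_ (integrable_const _) ?_
    · intro z
      exact (hF.comp (continuous_rotSO_mul_left e z)).aestronglyMeasurable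
    · intro z
      exact Filter.Eventually.of_forall fun θ => hC _
    · refine Filter.Eventually.of_forall fun θ => ?_
      exact hF.comp ((continuous_const_mul _))

theorem continuous_PS_iter (t : ℕ) : ∀ {F : SOn n → ℝ}, Continuous F → Continuous (PS^[t] F) := by
  induction t with
  | zero => intro F hF; exact hF
  | succ t ih => intro F hF; rw [Function.iterate_succ_apply]; exact ih (continuous_PS hF)

theorem integral_haar_iter (hn : 2 ≤ n) (t : ℕ) : ∀ {F : SOn n → ℝ}, Continuous F →
    ∫ z, (PS^[t] F) z ∂(haar n) = ∫ z, F z ∂(haar n) := by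
  induction t with
  | zero => intro F hF; rfl
  | succ t ih =>
    intro F hF
    rw [Function.iterate_succ_apply, ih (continuous_PS hF), integral_haar_PS hn hF]

theorem PS_iter_coe (t : ℕ) : ∀ (f : Mat n → ℝ),
    PS^[t] (fun z : SOn n => f (z : Mat n)) = fun z : SOn n => (Pop^[t] f) (z : Mat n) := by
  induction t with
  | zero => intro f; rfl
  | succ t ih =>
    intro f
    rw [Function.iterate_succ_apply, Function.iterate_succ_apply, ← ih (Pop f)]
    rfl

theorem integral_diff_le (hn : 2 ≤ n) {t : ℕ} {β : ℝ} {f : Mat n → ℝ} (hf : Continuous f)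
    (h : ∀ x y, IsSO x → IsSO y → |(Pop^[t] f) x - (Pop^[t] f) y| ≤ β) (x : SOn n) :
    |∫ z, f (z : Mat n) ∂(law x t) - ∫ z, f (z : Mat n) ∂(haar n)| ≤ β := by
  have hF : Continuous fun z : SOn n => f (z : Mat n) := hf.comp continuous_subtype_val
  rw [integral_law hn x t hF, ← integral_haar_iter hn t hF, PS_iter_coe]
  have hc : Continuous fun z : SOn n => (Pop^[t] f) (z : Mat n) := by
    rw [← PS_iter_coe]
    exact continuous_PS_iter t hF
  have h1 : (Pop^[t] f) (x : Mat n) - ∫ z : SOn n, (Pop^[t] f) (z : Mat n) ∂(haar n) =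
      ∫ z : SOn n, ((Pop^[t] f) (x : Mat n) - (Pop^[t] f) (z : Mat n)) ∂(haar n) := by
    rw [integral_sub (integrable_const _) (integrable_of_continuous hc), integral_const]
    simp
  rw [h1]
  have h2 := norm_integral_le_of_norm_le_const (μ := haar n) (C := β)
    (f := fun z : SOn n => (Pop^[t] f) (x : Mat n) - (Pop^[t] f) (z : Mat n))
    (Filter.Eventually.of_forall fun z => by
      rw [Real.norm_eq_abs]
      exact h _ _ (coe_isSO x) (coe_isSO z))
  rw [Real.norm_eq_abs] at h2
  simpa using h2

theorem real_le_add {μ σ : Measure (SOn n)} [IsProbabilityMeasure μ] (hμσ : μ ≤ σ)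
    {A B : Set (SOn n)} {ε : ℝ} (hε : 0 ≤ ε) (hlt : σ (B \ A) < ENNReal.ofReal ε) :
    μ.real B ≤ μ.real A + ε := by
  have h1 : μ.real B ≤ μ.real (A ∪ B \ A) := by
    refine measureReal_mono ?_
    rw [Set.union_sdiff_self]
    exact Set.subset_union_right
  have h2 : μ.real (A ∪ B \ A) ≤ μ.real A + μ.real (B \ A) := measureReal_union_le _ _
  have h3 : μ.real (B \ A) ≤ ε := by
    refine ENNReal.toReal_le_of_le_ofReal hε ?_
    exact (hμσ _).trans hlt.le
  linarith

theorem integral_ge_real {μ : Measure (SOn n)} [IsProbabilityMeasure μ] {g : SOn n → ℝ}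
    (hg : Continuous g) (h0 : ∀ z, 0 ≤ g z) {K : Set (SOn n)} (hK : MeasurableSet K)
    (h1 : ∀ z ∈ K, g z = 1) : μ.real K ≤ ∫ z, g z ∂μ := by
  have h2 : ∫ z, K.indicator (fun _ => (1 : ℝ)) z ∂μ = μ.real K := by
    rw [integral_indicator hK]
    simp
  rw [← h2]
  refine integral_mono ((integrable_const _).indicator hK) (integrable_of_continuous hg) ?_
  intro z
  by_cases hz : z ∈ K
  · simp [hz, h1 z hz]
  · simp [hz, h0 z]

theorem integral_le_real {μ : Measure (SOn n)} [IsProbabilityMeasure μ] {g : SOn n → ℝ}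
    (hg : Continuous g) (h0 : ∀ z, g z ≤ 1) {U : Set (SOn n)} (hU : MeasurableSet U)
    (h1 : ∀ z ∉ U, g z = 0) : ∫ z, g z ∂μ ≤ μ.real U := by
  have h2 : ∫ z, U.indicator (fun _ => (1 : ℝ)) z ∂μ = μ.real U := by
    rw [integral_indicator hU]
    simp
  rw [← h2]
  refine integral_mono (integrable_of_continuous hg) ((integrable_const _).indicator hU) ?_
  intro z
  by_cases hz : z ∈ U
  · simp [hz, h0 z]
  · simp [hz, h1 z hz]

theorem exists_smooth_aux {E : Type*} [NormedAddCommGroup E] [NormedSpace ℝ E]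
    [FiniteDimensional ℝ E] {s t : Set E} (hs : IsClosed s) (ht : IsClosed t)
    (hd : Disjoint s t) : ∃ g : E → ℝ, ContDiff ℝ 1 g ∧ (∀ x ∈ s, g x = 0) ∧
      (∀ x ∈ t, g x = 1) ∧ ∀ x, 0 ≤ g x ∧ g x ≤ 1 := by
  obtain ⟨g, h0, h1, h2⟩ := exists_contMDiffMap_zero_one_of_isClosed (n := (1 : ℕ∞))
    (modelWithCornersSelf ℝ E) hs ht hd
  refine ⟨g, ?_, fun x hx => h0 hx, fun x hx => h1 hx, fun x => h2 x⟩
  exact g.contMDiff.contDiff

theorem exists_smooth {s t : Set (Mat n)} (hs : IsClosed s) (ht : IsClosed t)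
    (hd : Disjoint s t) : ∃ g : Mat n → ℝ, ContDiff ℝ 1 g ∧ (∀ x ∈ s, g x = 0) ∧
      (∀ x ∈ t, g x = 1) ∧ ∀ x, 0 ≤ g x ∧ g x ≤ 1 :=
  exists_smooth_aux (E := Mat n) hs ht hd

theorem tv_le (hn : 2 ≤ n) {t : ℕ} {β : ℝ}
    (h : ∀ f : Mat n → ℝ, ContDiff ℝ 1 f → (∀ x, IsSO x → |f x| ≤ 1) →
      ∀ x y, IsSO x → IsSO y → |(Pop^[t] f) x - (Pop^[t] f) y| ≤ β) (x : SOn n) :
    tv (law x t) (haar n) ≤ β := by
  have hβ : 0 ≤ β := by
    have h1 := h (fun _ => 0) contDiff_const (by simp) 1 1 isSO_one isSO_one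
    exact (abs_nonneg _).trans h1
  have hP := isProb_law hn x t
  refine csSup_le ⟨_, ∅, MeasurableSet.empty, rfl⟩ ?_
  rintro r ⟨A, hA, rfl⟩
  refine le_of_forall_pos_le_add fun ε hε => ?_
  set σ : Measure (SOn n) := law x t + haar n with hσ
  have hσ1 : law x t ≤ σ := Measure.le_add_right le_rfl
  have hσ2 : haar n ≤ σ := Measure.le_add_left le_rfl
  have hε2 : ENNReal.ofReal (ε / 4) ≠ 0 := by
    rw [Ne, ENNReal.ofReal_eq_zero, not_le]
    positivity
  obtain ⟨K, hKA, hK, hKlt⟩ := hA.exists_isClosed_sdiff_lt (μ := σ) (measure_ne_top _ _) hε2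
  obtain ⟨U, hAU, hU, -, hUlt⟩ := hA.exists_isOpen_sdiff_lt (μ := σ) (measure_ne_top _ _) hε2
  have hs : IsClosed ((fun z : SOn n => (z : Mat n)) '' Uᶜ) :=
    (hU.isClosed_compl.isCompact.image continuous_subtype_val).isClosed
  have ht : IsClosed ((fun z : SOn n => (z : Mat n)) '' K) :=
    (hK.isCompact.image continuous_subtype_val).isClosed
  have hd : Disjoint ((fun z : SOn n => (z : Mat n)) '' Uᶜ)
      ((fun z : SOn n => (z : Mat n)) '' K) := by
    rw [Set.disjoint_image_iff Subtype.val_injective]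
    exact Set.disjoint_left.2 fun z hz hz' => hz (hAU (hKA hz'))
  obtain ⟨g, hg, hg0, hg1, hgr⟩ := exists_smooth hs ht hd
  have hgc : Continuous fun z : SOn n => g (z : Mat n) :=
    hg.continuous.comp continuous_subtype_val
  have hmain := integral_diff_le hn (t := t) (β := β) (f := fun X => 2 * g X - 1)
    ((continuous_const.mul hg.continuous).sub continuous_const)
    (h (fun X => 2 * g X - 1) ((contDiff_const.mul hg).sub contDiff_const) (by
      intro X _
      rw [abs_le]
      constructor <;> linarith [(hgr X).1, (hgr X).2])) x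
  have hI : ∀ (μ : Measure (SOn n)) [IsProbabilityMeasure μ],
      ∫ z : SOn n, (2 * g (z : Mat n) - 1) ∂μ = 2 * ∫ z : SOn n, g (z : Mat n) ∂μ - 1 := by
    intro μ _
    rw [integral_sub ((integrable_of_continuous hgc).const_mul 2) (integrable_const _),
      integral_const_mul, integral_const]
    simp
  rw [hI, hI] at hmain
  have hm := abs_le.1 hmain
  have k1 : ∀ (μ : Measure (SOn n)) [IsProbabilityMeasure μ], μ ≤ σ →
      μ.real A ≤ ∫ z : SOn n, g (z : Mat n) ∂μ + ε / 4 := by
    intro μ _ hμ
    have e1 := real_le_add hμ (by positivity) hKlt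
    have e2 := integral_ge_real (μ := μ) hgc (fun z => (hgr _).1) hK.measurableSet
      (fun z hz => hg1 _ ⟨z, hz, rfl⟩)
    linarith
  have k2 : ∀ (μ : Measure (SOn n)) [IsProbabilityMeasure μ], μ ≤ σ →
      ∫ z : SOn n, g (z : Mat n) ∂μ ≤ μ.real A + ε / 4 := by
    intro μ _ hμ
    have e1 := real_le_add hμ (by positivity) hUlt
    have e2 := integral_le_real (μ := μ) hgc (fun z => (hgr _).2) hU.measurableSet
      (fun z hz => hg0 _ ⟨z, hz, rfl⟩)
    linarith
  have a1 := k1 (law x t) hσ1
  have a2 := k2 (law x t) hσ1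
  have b1 := k1 (haar n) hσ2
  have b2 := k2 (haar n) hσ2
  rw [abs_le]
  constructor <;> linarith [hm.1, hm.2]

end Pf31f09.SO
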