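import Mathlib
import Pool.Agent.Lib.Pf31f09.SOGrad
import Pool.Agent.Lib.Pf31f09.SOGivens
import Pool.Agent.Lib.Pf31f09.SOTv

/-! The mixing time of Kac's walk on the special orthogonal group. -/

noncomputable section

open Matrix Finset MeasureTheory Filter Topology
open scoped Matrix.Norms.Frobenius

namespace Pf31f09.SO

variable {n : ℕ}

theorem card_Pr (n : ℕ) : (Fintype.card (Pr n) : ℝ) = (n : ℝ) * (n - 1) / 2 := by
  rw [← card_pairs n]
  congr 1
  rw [Fintype.card_subtype]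
  rfl

theorem Pop_sub_le (hn : 2 ≤ n) {g h : Mat n → ℝ} (hg : Continuous g) (hh : Continuous h) {η : ℝ}
    (hη : ∀ x, IsSO x → |g x - h x| ≤ η) (x : Mat n) (hx : IsSO x) :
    |Pop g x - Pop h x| ≤ η := by
  have hcard : (0 : ℝ) < Fintype.card (Pr n) := by exact_mod_cast card_Pr_pos hn
  unfold Pop
  rw [← mul_sub, ← Finset.sum_sub_distrib, abs_mul, abs_of_pos (inv_pos.2 hcard),
    inv_mul_le_iff₀ hcard]
  refine (Finset.abs_sum_le_sum_abs _ _).trans ?_
  have h1 : ∀ e : Pr n, |∫ θ, g (R e θ * x) ∂unifAngle - ∫ θ, h (R e θ * x) ∂unifAngle| ≤ η := by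
    intro e
    have hi : ∀ {k : Mat n → ℝ}, Continuous k →
        Integrable (fun θ => k (R e θ * x)) unifAngle := by
      intro k hk
      obtain ⟨C, hC⟩ := exists_bound_cb hk x
      have hc : Continuous fun θ => k (R e θ * x) :=
        hk.comp ((continuous_R e).mul continuous_const)
      exact Integrable.of_bound hc.measurable.aestronglyMeasurable C
        (Eventually.of_forall fun θ => hC _ (isSO_R _ _))
    rw [← integral_sub (hi hg) (hi hh)]
    have h2 := norm_integral_le_of_norm_le_const (μ := unifAngle)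
      (f := fun θ => g (R e θ * x) - h (R e θ * x)) (C := η)
      (Eventually.of_forall fun θ => hη _ ((isSO_R _ _).mul hx))
    rw [Real.norm_eq_abs] at h2
    simpa using h2
  calc ∑ e : Pr n, |∫ θ, g (R e θ * x) ∂unifAngle - ∫ θ, h (R e θ * x) ∂unifAngle|
      ≤ ∑ _e : Pr n, η := Finset.sum_le_sum fun e _ => h1 e
    _ = (Fintype.card (Pr n) : ℝ) * η := by simp

theorem iterate_Pop_sub_le (hn : 2 ≤ n) (t : ℕ) {g h : Mat n → ℝ} (hg : ContDiff ℝ 1 g)
    (hh : ContDiff ℝ 1 h) {η : ℝ} (hη : ∀ x, IsSO x → |g x - h x| ≤ η) (x : Mat n)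
    (hx : IsSO x) : |(Pop^[t] g) x - (Pop^[t] h) x| ≤ η := by
  induction t generalizing g h with
  | zero => exact hη x hx
  | succ t ih =>
    rw [Function.iterate_succ_apply, Function.iterate_succ_apply]
    exact ih (contDiff_Pop hg) (contDiff_Pop hh)
      (fun y hy => Pop_sub_le hn hg.continuous hh.continuous hη y hy)

/-- The oscillation of the iterates of the operator. -/
theorem osc_iterate_le (hn : 2 ≤ n) (t T : ℕ) {f : Mat n → ℝ} (hf : ContDiff ℝ 1 f)
    (hf1 : ∀ x, IsSO x → |f x| ≤ 1) {x y : Mat n} (hx : IsSO x) (hy : IsSO y) :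
    |(Pop^[t + T] f) x - (Pop^[t + T] f) y| ≤
      Real.pi * (Fintype.card (Pr n) : ℝ) *
        (Real.sqrt (1 - (Fintype.card (Pr n) : ℝ)⁻¹) ^ t *
          (96 * T * Real.sqrt (Fintype.card (Pr n)))) +
      8 * ((Fintype.card (Pr n) : ℝ) * (1 - (Fintype.card (Pr n) : ℝ)⁻¹) ^ T) := by
  set D : ℝ := (Fintype.card (Pr n) : ℝ) with hD
  have hF := contDiff_F1 hn T hf
  have hG := gradBd_F1 hn T hf hf1
  obtain ⟨hc, hgr⟩ := gradBd_iterate_Pop hF (by positivity) hG t
  have h1 : |(Pop^[t] (F1 T f)) x - (Pop^[t] (F1 T f)) y| ≤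
      Real.pi * D * (Real.sqrt (1 - D⁻¹) ^ t * (96 * T * Real.sqrt D)) := by
    have h2 := osc_le (F := Pop^[t] (F1 T f)) (by positivity)
      (fun e φ z hz => abs_sub_le_of_gradBd hc hgr e φ z hz) hx hy
    rw [← card_Pr n] at h2
    exact h2
  have hP : ContDiff ℝ 1 (Pop^[T] f) := by
    clear hgr hc hG hF h1 hf1
    induction T generalizing f with
    | zero => exact hf
    | succ T ih =>
      rw [Function.iterate_succ]
      exact ih (contDiff_Pop hf)
  have h3 : ∀ z, IsSO z → |(Pop^[t] (Pop^[T] f)) z - (Pop^[t] (F1 T f)) z| ≤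
      4 * (D * (1 - D⁻¹) ^ T) := fun z hz =>
    iterate_Pop_sub_le hn t hP hF (fun w hw => abs_iterate_sub_F1_le hn T hf hf1 w hw) z hz
  have h4 := h3 x hx
  have h5 := h3 y hy
  rw [Function.iterate_add_apply]
  rw [abs_le] at h1 h4 h5 ⊢
  constructor
  · linarith [h1.1, h1.2, h4.1, h4.2, h5.1, h5.2]
  · linarith [h1.1, h1.2, h4.1, h4.2, h5.1, h5.2]

theorem one_sub_inv_pow_le {D : ℝ} (hD : 1 ≤ D) (T : ℕ) :
    (1 - D⁻¹) ^ T ≤ Real.exp (-(T / D)) := by
  have h0 : 0 < D := by linarith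
  have h1 : 0 ≤ 1 - D⁻¹ := by
    have := inv_le_one_of_one_le₀ hD
    linarith
  have h2 : 1 - D⁻¹ ≤ Real.exp (-D⁻¹) := by
    have := Real.add_one_le_exp (-D⁻¹)
    linarith
  calc (1 - D⁻¹) ^ T ≤ Real.exp (-D⁻¹) ^ T := pow_le_pow_left₀ h1 h2 T
    _ = Real.exp (-(T / D)) := by
        rw [← Real.exp_nat_mul]
        congr 1
        ring

theorem sqrt_one_sub_inv_pow_le {D : ℝ} (hD : 1 ≤ D) (t : ℕ) :
    Real.sqrt (1 - D⁻¹) ^ t ≤ Real.exp (-(t / (2 * D))) := by
  have h0 : 0 < D := by linarith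
  have h2 : 1 - D⁻¹ ≤ Real.exp (-D⁻¹) := by
    have := Real.add_one_le_exp (-D⁻¹)
    linarith
  have h3 : Real.sqrt (1 - D⁻¹) ≤ Real.exp (-(1 / (2 * D))) := by
    rw [Real.sqrt_le_left (Real.exp_pos _).le, ← Real.exp_nat_mul]
    refine h2.trans (le_of_eq ?_)
    congr 1
    field_simp
    norm_num
  calc Real.sqrt (1 - D⁻¹) ^ t ≤ Real.exp (-(1 / (2 * D))) ^ t :=
        pow_le_pow_left₀ (Real.sqrt_nonneg _) h3 t
    _ = Real.exp (-(t / (2 * D))) := by
        rw [← Real.exp_nat_mul]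
        congr 1
        ring

/-- Numerical choice of the times. -/
theorem numeric {N ε : ℝ} (hN : 2 ≤ N) (hε : 0 < ε) (hε1 : ε < 1) {τ : ℕ}
    (hτ : 20 * N ^ 2 * (Real.log N + Real.log (1 / ε)) ≤ τ) :
    ∃ t T : ℕ, τ = t + T ∧
      Real.pi * (N * (N - 1) / 2) * (Real.exp (-(t / (2 * (N * (N - 1) / 2)))) *
        (96 * T * Real.sqrt (N * (N - 1) / 2))) +
      8 * ((N * (N - 1) / 2) * Real.exp (-(T / (N * (N - 1) / 2)))) ≤ ε := by
  set D : ℝ := N * (N - 1) / 2 with hD
  set L : ℝ := Real.log N + Real.log (1 / ε) with hL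
  have hD1 : 1 ≤ D := by rw [hD]; nlinarith
  have hDN : D ≤ N ^ 2 / 2 := by rw [hD]; nlinarith
  have hD0 : 0 < D := by linarith
  have hlogN : Real.log 2 ≤ Real.log N := Real.log_le_log (by norm_num) hN
  have hlog2 : 0.693 < Real.log 2 := by have := Real.log_two_gt_d9; linarith
  have hle : 0 ≤ Real.log (1 / ε) := Real.log_nonneg (by rw [le_div_iff₀ hε]; linarith)
  have hL1 : 0.693 < L := by rw [hL]; linarith
  have hlogD : Real.log D ≤ 2 * Real.log N - Real.log 2 := by
    have h1 : Real.log D ≤ Real.log (N ^ 2 / 2) := Real.log_le_log hD0 hDN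
    have h2 : Real.log (N ^ 2 / 2) = 2 * Real.log N - Real.log 2 := by
      rw [Real.log_div (by positivity) (by norm_num), Real.log_pow]
      norm_num
    rw [h2] at h1
    exact h1
  have hlogD0 : 0 ≤ Real.log D := Real.log_nonneg hD1
  -- the time `T`
  set A : ℝ := Real.log D + Real.log (16 / ε) with hA
  have hlog16 : Real.log (16 / ε) = 4 * Real.log 2 + Real.log (1 / ε) := by
    have h1 : (16 : ℝ) / ε = 2 ^ 4 * (1 / ε) := by ring
    rw [h1, Real.log_mul (by norm_num) (by positivity), Real.log_pow]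
    norm_num
  have hlog2' : Real.log 2 < 0.6932 := by have := Real.log_two_lt_d9; linarith
  have hA0 : 0 ≤ A := by rw [hA, hlog16]; linarith
  have hAL : A ≤ 2 * L + 3 * Real.log 2 := by rw [hA, hlog16, hL]; linarith
  have hAL' : A ≤ 5.1 * L := by nlinarith
  set T : ℕ := ⌈D * A⌉₊ with hT
  have hT1 : D * A ≤ T := Nat.le_ceil _
  have hT2 : (T : ℝ) < D * A + 1 := Nat.ceil_lt_add_one (by positivity)
  have hT3 : (T : ℝ) ≤ 7 * D * L := by nlinarith
  -- the rest
  have hN2 : (4 : ℝ) ≤ N ^ 2 := by nlinarith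
  have hTτ : (T : ℝ) ≤ τ := by
    have h1 : 7 * D * L ≤ 20 * N ^ 2 * L := by nlinarith
    linarith
  have hTτ' : T ≤ τ := by exact_mod_cast hTτ
  refine ⟨τ - T, T, by omega, ?_⟩
  have hcast : ((τ - T : ℕ) : ℝ) = τ - T := by
    rw [Nat.cast_sub hTτ']
  have ht : 33 * D * L ≤ ((τ - T : ℕ) : ℝ) := by
    rw [hcast]
    have h1 : 40 * D * L ≤ 20 * N ^ 2 * L := by nlinarith
    linarith
  -- first part
  have hsecond : 8 * (D * Real.exp (-(T / D))) ≤ ε / 2 := by
    have h1 : A ≤ T / D := by rw [le_div_iff₀ hD0]; linarith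
    have h2 : Real.exp (-(T / D)) ≤ Real.exp (-A) := Real.exp_le_exp.2 (by linarith)
    have h3 : Real.exp (-A) = ε / (16 * D) := by
      rw [hA, neg_add, Real.exp_add, Real.exp_neg, Real.exp_neg, Real.exp_log hD0,
        Real.exp_log (by positivity)]
      field_simp
    rw [h3] at h2
    calc 8 * (D * Real.exp (-(T / D))) ≤ 8 * (D * (ε / (16 * D))) := by gcongr
      _ = ε / 2 := by field_simp; norm_num
  have hfirst : Real.pi * D * (Real.exp (-(((τ - T : ℕ) : ℝ) / (2 * D))) *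
      (96 * T * Real.sqrt D)) ≤ ε / 2 := by
    have h1 : (16.5 : ℝ) * L ≤ ((τ - T : ℕ) : ℝ) / (2 * D) := by
      rw [le_div_iff₀ (by positivity)]
      nlinarith
    have h2 : Real.exp (-(((τ - T : ℕ) : ℝ) / (2 * D))) ≤ Real.exp (-(16.5 * L)) :=
      Real.exp_le_exp.2 (by linarith)
    have h4 : D ≤ Real.exp (2 * L) / 2 := by
      calc D = Real.exp (Real.log D) := (Real.exp_log hD0).symm
        _ ≤ Real.exp (2 * L - Real.log 2) := Real.exp_le_exp.2 (by rw [hL]; linarith)
        _ = Real.exp (2 * L) / 2 := by rw [Real.exp_sub, Real.exp_log (by norm_num)]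
    have hsq : Real.sqrt D ≤ Real.exp L / 1.4 := by
      rw [Real.sqrt_le_left (by positivity)]
      refine h4.trans ?_
      have : Real.exp (2 * L) = Real.exp L ^ 2 := by
        rw [← Real.exp_nat_mul]; norm_num
      rw [this, div_pow]
      have h0 : 0 < Real.exp L ^ 2 := by positivity
      rw [div_le_div_iff₀ (by norm_num) (by norm_num)]
      nlinarith
    have hL0 : 0 ≤ L := by linarith
    have h3 : Real.pi * D * (Real.exp (-(((τ - T : ℕ) : ℝ) / (2 * D))) *
        (96 * T * Real.sqrt D)) ≤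
        4 * (Real.exp (2 * L) / 2) * (Real.exp (-(16.5 * L)) *
          (96 * (7 * (Real.exp (2 * L) / 2) * L) * (Real.exp L / 1.4))) := by
      have hpi : Real.pi ≤ 4 := Real.pi_le_four
      have hT4 : (T : ℝ) ≤ 7 * (Real.exp (2 * L) / 2) * L := hT3.trans (by gcongr)
      gcongr
    refine h3.trans ?_
    have h5 : 2 * L ≤ Real.exp L := by
      have h50 := Real.add_one_le_exp (L - Real.log 2)
      rw [Real.exp_sub, Real.exp_log (by norm_num)] at h50
      linarith
    have h7 : Real.exp (-L) ≤ ε := by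
      have : Real.exp (-L) = ε / N := by
        rw [hL, neg_add, Real.exp_add, Real.exp_neg, Real.exp_neg, Real.exp_log (by linarith),
          Real.exp_log (by positivity)]
        field_simp
      rw [this, div_le_iff₀ (by linarith)]
      nlinarith
    have h8 : Real.exp (-(9 * L)) ≤ 1 / 512 := by
      calc Real.exp (-(9 * L)) ≤ Real.exp (-(9 * Real.log 2)) :=
            Real.exp_le_exp.2 (by rw [hL]; linarith)
        _ = 1 / 512 := by
            rw [Real.exp_neg, show (9 : ℝ) * Real.log 2 = ((9 : ℕ) : ℝ) * Real.log 2 by norm_num,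
              Real.exp_nat_mul, Real.exp_log (by norm_num)]
            norm_num
    have h9 : Real.exp (2 * L) * Real.exp (2 * L) * Real.exp L * Real.exp L *
        Real.exp (-(16.5 * L)) ≤ Real.exp (-(9 * L)) * Real.exp (-L) := by
      rw [← Real.exp_add, ← Real.exp_add, ← Real.exp_add, ← Real.exp_add, ← Real.exp_add]
      exact Real.exp_le_exp.2 (by linarith)
    calc 4 * (Real.exp (2 * L) / 2) * (Real.exp (-(16.5 * L)) *
          (96 * (7 * (Real.exp (2 * L) / 2) * L) * (Real.exp L / 1.4)))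
        = 240 * (Real.exp (2 * L) * Real.exp (2 * L) * (2 * L) * Real.exp L *
            Real.exp (-(16.5 * L))) := by ring
      _ ≤ 240 * (Real.exp (2 * L) * Real.exp (2 * L) * Real.exp L * Real.exp L *
            Real.exp (-(16.5 * L))) := by gcongr
      _ ≤ 240 * (Real.exp (-(9 * L)) * Real.exp (-L)) := by gcongr
      _ ≤ 240 * (1 / 512 * ε) := by gcongr
      _ ≤ ε / 2 := by nlinarith
  linarith

/-- The main estimate. -/
theorem main (hn : 2 ≤ n) {ε : ℝ} (hε : 0 < ε) (hε1 : ε < 1) {τ : ℕ}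
    (hτ : 20 * (n : ℝ) ^ 2 * (Real.log n + Real.log (1 / ε)) ≤ τ) (x : SOn n) :
    tv (law x τ) (haar n) ≤ ε := by
  obtain ⟨t, T, hsum, hb⟩ := numeric (N := (n : ℝ)) (by exact_mod_cast hn) hε hε1 hτ
  refine tv_le hn (fun f hf hf1 x y hx hy => ?_) x
  rw [hsum]
  refine (osc_iterate_le hn t T hf hf1 hx hy).trans ?_
  rw [card_Pr]
  refine le_trans ?_ hb
  have hD1 : (1 : ℝ) ≤ (n : ℝ) * (n - 1) / 2 := by
    have : (2 : ℝ) ≤ n := by exact_mod_cast hn
    nlinarith
  have h1 := one_sub_inv_pow_le hD1 T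
  have h2 := sqrt_one_sub_inv_pow_le hD1 t
  gcongr

end Pf31f09.SO
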