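import Mathlib
import Pool.Agent.Lib.Pf31f09.Main

/-! Definitions for the representation of the walk by averaged rows. -/

noncomputable section

namespace Pf31f09

open Finset MeasureTheory ProbabilityTheory

/-- Matrices `M i k`: `i` a site, `k` a type. -/
abbrev Mat (n : ℕ) := Fin n → Fin n → ℝ

/-- Rows `i` and `j` are both replaced by `b * row i + (1 - b) * row j`. -/
def Tm {n : ℕ} (i j : Fin n) (b : ℝ) (M : Mat n) : Mat n := fun l k =>
  if l = i ∨ l = j then b * M i k + (1 - b) * M j k else M l k

/-- The coordinates `i`, `j` are replaced by `r * p.1`, `r * p.2`, `r` their joint radius. -/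
def Rv {n : ℕ} (i j : Fin n) (p : ℝ × ℝ) (v : E n) : E n :=
  WithLp.toLp 2 fun k => if k = i then Real.sqrt (v i ^ 2 + v j ^ 2) * p.1
    else if k = j then Real.sqrt (v i ^ 2 + v j ^ 2) * p.2 else v k

/-- The coordinates `i`, `j` are put at the angle `φ`, keeping their joint radius. -/
def Rm {n : ℕ} (i j : Fin n) (φ : ℝ) (v : E n) : E n := Rv i j (Real.cos φ, Real.sin φ) v

/-- The share of the energy at `i` among `i`, `j`. -/
def Bg {n : ℕ} (i j : Fin n) (g : E n) : ℝ := g i ^ 2 / (g i ^ 2 + g j ^ 2)

/-- The standard Gaussian measure. -/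
def gam (n : ℕ) : Measure (E n) := stdGaussian (E n)

/-- One step of the matrix chain. -/
def stepM {n : ℕ} (M : Mat n) : Measure (Mat n) :=
  ((pairs n).card : ENNReal)⁻¹ • ∑ p ∈ pairs n,
    unifAngle.map fun β => Tm p.1 p.2 (Real.cos β ^ 2) M

/-- The law of the matrix chain started from the identity. -/
def lawM (n : ℕ) : ℕ → Measure (Mat n)
  | 0 => Measure.dirac fun i k => if i = k then 1 else 0
  | t + 1 => (lawM n t).bind stepM

/-- The total energy of type `k`. -/
def cM {n : ℕ} (M : Mat n) (g : E n) (k : Fin n) : ℝ := ∑ j, M j k * g j ^ 2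

/-- The multiplier at the site `i` for the weights `a`. -/
def lamM {n : ℕ} (a : Fin n → ℝ) (M : Mat n) (g : E n) (i : Fin n) : ℝ :=
  ∑ k, a k * (M i k / cM M g k)

/-- The position of the walk from `x` (up to signs) as a function of `M` and `g`. -/
def Wf {n : ℕ} (x : E n) (M : Mat n) (g : E n) : E n :=
  WithLp.toLp 2 fun i => g i * Real.sqrt (lamM (fun k => x k ^ 2) M g i)

/-- The difference of the energies of the walk from `e_k` and of the stationary walk. -/
def Dk {n : ℕ} (M : Mat n) (g : E n) (k : Fin n) : Fin n → ℝ := fun i =>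
  g i ^ 2 * M i k / cM M g k - g i ^ 2 / ∑ j, g j ^ 2

/-- The linear update of differences of energies. -/
def updD {n : ℕ} (i j : Fin n) (φ : ℝ) (d : Fin n → ℝ) : Fin n → ℝ := fun l =>
  if l = i then (d i + d j) * Real.cos φ ^ 2
    else if l = j then (d i + d j) * Real.sin φ ^ 2 else d l

end Pf31f09
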