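import Mathlib
import Pool.Agent.Lib.Pf31f09.Tdefs

/-! The Gaussian polar identity. -/

noncomputable section

namespace Pf31f09

open Finset MeasureTheory ProbabilityTheory Filter

theorem measurable_cs (α : ℝ) :
    Measurable fun θ : ℝ => ((Real.cos (θ + α), Real.sin (θ + α)) : ℝ × ℝ) := by fun_prop

theorem circ_shift (α : ℝ) :
    unifAngle.map (fun θ => ((Real.cos (θ + α), Real.sin (θ + α)) : ℝ × ℝ)) =
      unifAngle.map (fun θ => ((Real.cos θ, Real.sin θ) : ℝ × ℝ)) := by
  have hm0 : Measurable fun θ : ℝ => ((Real.cos θ, Real.sin θ) : ℝ × ℝ) := by fun_prop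
  have := Measure.isProbabilityMeasure_map (μ := unifAngle) (measurable_cs α).aemeasurable
  have := Measure.isProbabilityMeasure_map (μ := unifAngle) hm0.aemeasurable
  refine ext_of_forall_integral_eq_of_IsFiniteMeasure fun f => ?_
  rw [integral_map (measurable_cs α).aemeasurable
      f.continuous.measurable.stronglyMeasurable.aestronglyMeasurable,
    integral_map hm0.aemeasurable f.continuous.measurable.stronglyMeasurable.aestronglyMeasurable,
    integral_unifAngle, integral_unifAngle]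
  have hper : Function.Periodic (fun φ => f ((Real.cos φ, Real.sin φ) : ℝ × ℝ)) (2 * Real.pi) := by
    intro φ
    simp only [Real.cos_add_two_pi, Real.sin_add_two_pi]
  exact avg_shift hper α

theorem lintegral_circ_shift (α : ℝ) {H : ℝ × ℝ → ENNReal} (hH : Measurable H) :
    ∫⁻ θ, H (Real.cos (θ + α), Real.sin (θ + α)) ∂unifAngle =
      ∫⁻ θ, H (Real.cos θ, Real.sin θ) ∂unifAngle := by
  have hm0 : Measurable fun θ : ℝ => ((Real.cos θ, Real.sin θ) : ℝ × ℝ) := by fun_prop
  rw [← lintegral_map hH hm0, ← circ_shift α, lintegral_map hH (measurable_cs α)]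

variable {n : ℕ}

theorem Rv_i {i j : Fin n} (p : ℝ × ℝ) (v : E n) :
    Rv i j p v i = Real.sqrt (v i ^ 2 + v j ^ 2) * p.1 := by simp [Rv]

theorem Rv_j {i j : Fin n} (h : i ≠ j) (p : ℝ × ℝ) (v : E n) :
    Rv i j p v j = Real.sqrt (v i ^ 2 + v j ^ 2) * p.2 := by simp [Rv, h.symm]

theorem Rv_k {i j k : Fin n} (hi : k ≠ i) (hj : k ≠ j) (p : ℝ × ℝ) (v : E n) :
    Rv i j p v k = v k := by simp [Rv, hi, hj]

theorem measurable_Rv (i j : Fin n) : Measurable fun p : (ℝ × ℝ) × E n => Rv i j p.1 p.2 := by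
  unfold Rv
  refine (PiLp.continuous_toLp 2 _).measurable.comp ?_
  refine measurable_pi_lambda _ fun k => ?_
  by_cases hi : k = i
  · simp only [hi, if_true]
    fun_prop
  · by_cases hj : k = j
    · simp only [hj, if_true]
      have : j ≠ i := hj ▸ hi
      simp only [this, if_false]
      fun_prop
    · simp only [hi, hj, if_false]
      fun_prop

theorem measurable_Rm (i j : Fin n) : Measurable fun p : ℝ × E n => Rm i j p.1 p.2 := by
  have : Measurable fun p : ℝ × E n => (((Real.cos p.1, Real.sin p.1) : ℝ × ℝ), p.2) := by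
    fun_prop
  exact (measurable_Rv i j).comp this

theorem rot_eq_Rv {i j : Fin n} (h : i ≠ j) (v : E n) : ∃ α : ℝ,
    (v i = Real.sqrt (v i ^ 2 + v j ^ 2) * Real.cos α ∧
      v j = Real.sqrt (v i ^ 2 + v j ^ 2) * Real.sin α) ∧
    ∀ θ, rot i j θ v = Rv i j (Real.cos (θ + α), Real.sin (θ + α)) v := by
  obtain ⟨α, h1, h2⟩ := exists_polar (v i) (v j)
  refine ⟨α, ⟨h1, h2⟩, fun θ => ?_⟩
  ext k
  by_cases hi : k = i
  · rw [hi, rot_i, Rv_i, Real.cos_add]
    set r := Real.sqrt (v i ^ 2 + v j ^ 2)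
    calc v i * Real.cos θ - v j * Real.sin θ = r * Real.cos α * Real.cos θ -
        r * Real.sin α * Real.sin θ := by rw [← h1, ← h2]
      _ = _ := by ring
  · by_cases hj : k = j
    · rw [hj, rot_j h, Rv_j h, Real.sin_add]
      set r := Real.sqrt (v i ^ 2 + v j ^ 2)
      calc v i * Real.sin θ + v j * Real.cos θ = r * Real.cos α * Real.sin θ +
          r * Real.sin α * Real.cos θ := by rw [← h1, ← h2]
        _ = _ := by ring
    · rw [rot_k hi hj, Rv_k hi hj]

theorem lintegral_rot_Rm {i j : Fin n} (h : i ≠ j) (v : E n) {f : E n → ENNReal}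
    (hf : Measurable f) :
    ∫⁻ θ, f (rot i j θ v) ∂unifAngle = ∫⁻ φ, f (Rm i j φ v) ∂unifAngle := by
  obtain ⟨α, _, hα⟩ := rot_eq_Rv h v
  simp only [hα, Rm]
  have hH : Measurable fun p : ℝ × ℝ => f (Rv i j p v) :=
    hf.comp ((measurable_Rv i j).comp (measurable_id.prodMk measurable_const))
  exact lintegral_circ_shift α hH

instance : IsProbabilityMeasure (gam n) := by unfold gam; infer_instance

theorem lintegral_gam_rot {i j : Fin n} (h : i ≠ j) (θ : ℝ) {f : E n → ENNReal}
    (hf : Measurable f) : ∫⁻ v, f (rot i j θ v) ∂(gam n) = ∫⁻ v, f v ∂(gam n) := by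
  set g : E n ≃ₗᵢ[ℝ] E n := (rotL h θ).toLinearIsometryEquiv rfl with hg
  have h1 : (gam n).map g = gam n := by
    unfold gam
    exact stdGaussian_map g
  conv_rhs => rw [← h1]
  rw [lintegral_map hf g.continuous.measurable]
  rfl

theorem gam_ae_ne (i : Fin n) : ∀ᵐ g ∂(gam n), g i ≠ 0 := by
  rw [gam, ← map_pi_eq_stdGaussian, ae_map_iff (by fun_prop) (by
    have : Measurable fun g : E n => g i := by fun_prop
    exact (this (measurableSet_singleton 0)).compl)]
  have hp : MeasurePreserving (Function.eval i)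
      (Measure.pi fun _ : Fin n => gaussianReal 0 1) (gaussianReal 0 1) :=
    measurePreserving_eval (fun _ : Fin n => gaussianReal 0 1) i
  have h0 : ∀ᵐ y ∂(gaussianReal 0 1), y ≠ 0 := by
    rw [ae_iff]
    simp only [ne_eq, not_not, Set.ofPred_eq_eq_singleton]
    have := nullSingletonClass_gaussianReal (μ := 0) (v := 1) one_ne_zero
    exact measure_singleton 0
  exact hp.quasiMeasurePreserving.ae h0

theorem rot_radius {i j : Fin n} (h : i ≠ j) (θ : ℝ) (v : E n) :
    rot i j θ v i ^ 2 + rot i j θ v j ^ 2 = v i ^ 2 + v j ^ 2 := by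
  rw [rot_i, rot_j h]
  have := Real.sin_sq_add_cos_sq θ
  linear_combination (v i ^ 2 + v j ^ 2) * this

theorem Rm_rot {i j : Fin n} (h : i ≠ j) (φ θ : ℝ) (v : E n) :
    Rm i j φ (rot i j θ v) = Rm i j φ v := by
  ext k
  unfold Rm
  by_cases hi : k = i
  · rw [hi, Rv_i, Rv_i, rot_radius h]
  · by_cases hj : k = j
    · rw [hj, Rv_j h, Rv_j h, rot_radius h]
    · rw [Rv_k hi hj, Rv_k hi hj, rot_k hi hj]

/-- The polar identity: the angle, the new angle and the rest are independent. -/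
theorem lintegral_polar {i j : Fin n} (h : i ≠ j) {G : ℝ → E n → ENNReal}
    (hG : Measurable (Function.uncurry G)) :
    ∫⁻ g, ∫⁻ φ, G (Bg i j g) (Rm i j φ g) ∂unifAngle ∂(gam n) =
      ∫⁻ β, ∫⁻ g, G (Real.cos β ^ 2) g ∂(gam n) ∂unifAngle := by
  have hBg : Measurable fun g : E n => Bg i j g := by unfold Bg; fun_prop
  have hRm := measurable_Rm i j
  -- the function of `g`
  set H : E n → ENNReal := fun g => ∫⁻ φ, G (Bg i j g) (Rm i j φ g) ∂unifAngle with hH
  have hHm : Measurable H := by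
    have : Measurable fun p : E n × ℝ => G (Bg i j p.1) (Rm i j p.2 p.1) :=
      hG.comp ((hBg.comp measurable_fst).prodMk (hRm.comp measurable_swap))
    exact this.lintegral_prod_right'
  have e1 : ∫⁻ g, H g ∂(gam n) = ∫⁻ α, ∫⁻ g, H (rot i j α g) ∂(gam n) ∂unifAngle := by
    simp only [lintegral_gam_rot h _ hHm, lintegral_const, measure_univ, mul_one]
  have hHrot : Measurable fun p : ℝ × E n => H (rot i j p.1 p.2) := hHm.comp (measurable_rot i j)
  rw [e1, lintegral_lintegral_swap hHrot.aemeasurable]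
  -- inner: for a.e. `g`
  have e2 : ∀ g : E n, g i ≠ 0 → ∫⁻ α, H (rot i j α g) ∂unifAngle =
      ∫⁻ φ, ∫⁻ α, G (Real.cos α ^ 2) (Rm i j φ g) ∂unifAngle ∂unifAngle := by
    intro g hgi
    obtain ⟨α0, ⟨h1, h2⟩, _⟩ := rot_eq_Rv h g
    set r := Real.sqrt (g i ^ 2 + g j ^ 2) with hr
    have hr2 : r ^ 2 = g i ^ 2 + g j ^ 2 := Real.sq_sqrt (by positivity)
    have hpos : 0 < g i ^ 2 + g j ^ 2 := by positivity
    have hB : ∀ α, Bg i j (rot i j α g) = Real.cos (α + α0) ^ 2 := by
      intro α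
      unfold Bg
      rw [rot_radius h, rot_i, div_eq_iff hpos.ne', ← hr2, Real.cos_add]
      calc (g i * Real.cos α - g j * Real.sin α) ^ 2 = (r * Real.cos α0 * Real.cos α -
          r * Real.sin α0 * Real.sin α) ^ 2 := by rw [← h1, ← h2]
        _ = _ := by ring
    have hK : Measurable fun p : ℝ × ℝ => G (Real.cos p.1 ^ 2) (Rm i j p.2 g) := by
      refine hG.comp (Measurable.prodMk (by fun_prop) ?_)
      exact hRm.comp (measurable_snd.prodMk measurable_const)
    calc ∫⁻ α, H (rot i j α g) ∂unifAngle =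
        ∫⁻ α, ∫⁻ φ, G (Real.cos (α + α0) ^ 2) (Rm i j φ g) ∂unifAngle ∂unifAngle := by
          refine lintegral_congr fun α => ?_
          rw [hH]
          simp only [Rm_rot h, hB]
      _ = ∫⁻ φ, ∫⁻ α, G (Real.cos (α + α0) ^ 2) (Rm i j φ g) ∂unifAngle ∂unifAngle := by
          refine lintegral_lintegral_swap ?_
          have : Measurable fun p : ℝ × ℝ => ((p.1 + α0, p.2) : ℝ × ℝ) := by fun_prop
          exact (hK.comp this).aemeasurable
      _ = _ := by
          refine lintegral_congr fun φ => ?_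
          have hH2 : Measurable fun p : ℝ × ℝ => G (p.1 ^ 2) (Rm i j φ g) := by
            refine hG.comp (Measurable.prodMk (by fun_prop) measurable_const)
          exact lintegral_circ_shift α0 hH2
  have e3 : ∫⁻ g, ∫⁻ α, H (rot i j α g) ∂unifAngle ∂(gam n) =
      ∫⁻ g, ∫⁻ φ, ∫⁻ α, G (Real.cos α ^ 2) (Rm i j φ g) ∂unifAngle ∂unifAngle ∂(gam n) := by
    refine lintegral_congr_ae ?_
    filter_upwards [gam_ae_ne i] with g hg
    exact e2 g hg
  rw [e3]
  have hL : Measurable fun g : E n => ∫⁻ α, G (Real.cos α ^ 2) g ∂unifAngle := by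
    have : Measurable fun p : E n × ℝ => G (Real.cos p.2 ^ 2) p.1 :=
      hG.comp (Measurable.prodMk (by fun_prop) measurable_fst)
    exact this.lintegral_prod_right'
  have e4 : ∀ g : E n, ∫⁻ φ, ∫⁻ α, G (Real.cos α ^ 2) (Rm i j φ g) ∂unifAngle ∂unifAngle =
      ∫⁻ θ, ∫⁻ α, G (Real.cos α ^ 2) (rot i j θ g) ∂unifAngle ∂unifAngle :=
    fun g => (lintegral_rot_Rm h g hL).symm
  simp only [e4]
  have hL2 : Measurable fun p : E n × ℝ => ∫⁻ α, G (Real.cos α ^ 2) (rot i j p.2 p.1)
      ∂unifAngle := hL.comp ((measurable_rot i j).comp measurable_swap)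
  rw [lintegral_lintegral_swap hL2.aemeasurable]
  simp only [lintegral_gam_rot h _ hL, lintegral_const, measure_univ, mul_one]
  have hL3 : Measurable fun p : E n × ℝ => G (Real.cos p.2 ^ 2) p.1 :=
    hG.comp (Measurable.prodMk (by fun_prop) measurable_fst)
  exact lintegral_lintegral_swap hL3.aemeasurable

end Pf31f09
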