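import Mathlib
import Pool.Agent.Lib.Pf31f09.Tgauss

/-! The matrix chain and the step identity. -/

noncomputable section

namespace Pf31f09

open Finset MeasureTheory ProbabilityTheory Filter

variable {n : ℕ}

theorem measurable_Tm (i j : Fin n) : Measurable fun p : ℝ × Mat n => Tm i j p.1 p.2 := by
  unfold Tm
  refine measurable_pi_lambda _ fun l => measurable_pi_lambda _ fun k => ?_
  by_cases h : l = i ∨ l = j
  · simp only [h, if_true]
    fun_prop
  · simp only [h, if_false]
    fun_prop

theorem measurable_Tm_left (i j : Fin n) (M : Mat n) :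
    Measurable fun β : ℝ => Tm i j (Real.cos β ^ 2) M := by
  have : Measurable fun β : ℝ => ((Real.cos β ^ 2, M) : ℝ × Mat n) :=
    Measurable.prodMk (by fun_prop) measurable_const
  exact (measurable_Tm i j).comp this

theorem measurable_stepM : Measurable (stepM (n := n)) := by
  refine Measure.measurable_of_measurable_coe _ fun s hs => ?_
  have h : ∀ M : Mat n, stepM M s = ((pairs n).card : ENNReal)⁻¹ *
      ∑ p ∈ pairs n, unifAngle {β | Tm p.1 p.2 (Real.cos β ^ 2) M ∈ s} := by
    intro M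
    rw [stepM, Measure.smul_apply, Measure.finsetSum_apply, smul_eq_mul]
    congr 1
    refine Finset.sum_congr rfl fun p _ => ?_
    rw [Measure.map_apply (measurable_Tm_left _ _ _) hs]
    rfl
  simp only [h]
  refine Measurable.const_mul ?_ _
  refine Finset.measurable_sum _ fun p _ => ?_
  have hc : Measurable fun q : Mat n × ℝ => ((Real.cos q.2 ^ 2, q.1) : ℝ × Mat n) :=
    Measurable.prodMk (by fun_prop) measurable_fst
  have hms : MeasurableSet {q : Mat n × ℝ | Tm p.1 p.2 (Real.cos q.2 ^ 2) q.1 ∈ s} :=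
    ((measurable_Tm p.1 p.2).comp hc) hs
  exact measurable_measure_prodMk_left hms

theorem isProb_stepM (hn : 2 ≤ n) (M : Mat n) : IsProbabilityMeasure (stepM M) := by
  constructor
  rw [stepM, Measure.smul_apply, Measure.finsetSum_apply, smul_eq_mul]
  have : ∀ p ∈ pairs n, (unifAngle.map fun β => Tm p.1 p.2 (Real.cos β ^ 2) M) Set.univ = 1 := by
    intro p _
    rw [Measure.map_apply (measurable_Tm_left _ _ _) MeasurableSet.univ, Set.preimage_univ,
      measure_univ]
  rw [Finset.sum_congr rfl this, Finset.sum_const, nsmul_eq_mul, mul_one,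
    ENNReal.inv_mul_cancel]
  · exact_mod_cast (pairs_card_pos hn).ne'
  · exact ENNReal.natCast_ne_top _

theorem isProb_lawM (hn : 2 ≤ n) (t : ℕ) : IsProbabilityMeasure (lawM n t) := by
  induction t with
  | zero => rw [lawM]; infer_instance
  | succ t ih =>
    rw [lawM]
    constructor
    rw [Measure.bind_apply MeasurableSet.univ measurable_stepM.aemeasurable]
    have : ∀ M : Mat n, stepM M Set.univ = 1 := fun M => (isProb_stepM hn M).measure_univ
    simp [this]

theorem lintegral_stepM (M : Mat n) {f : Mat n → ENNReal} (hf : Measurable f) :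
    ∫⁻ w, f w ∂(stepM M) = ((pairs n).card : ENNReal)⁻¹ *
      ∑ p ∈ pairs n, ∫⁻ β, f (Tm p.1 p.2 (Real.cos β ^ 2) M) ∂unifAngle := by
  rw [stepM, lintegral_smul_measure, lintegral_finsetSum_measure, smul_eq_mul]
  congr 1
  refine Finset.sum_congr rfl fun p _ => ?_
  rw [lintegral_map hf (measurable_Tm_left _ _ _)]

theorem lintegral_lawM_bind (t : ℕ) {f : Mat n → ENNReal} (hf : Measurable f) :
    ∫⁻ M, f M ∂(lawM n (t + 1)) = ∫⁻ M, (∫⁻ w, f w ∂(stepM M)) ∂(lawM n t) := by
  rw [lawM, Measure.lintegral_bind measurable_stepM.aemeasurable hf.aemeasurable]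

theorem ne_of_mem_pairs {p : Fin n × Fin n} (hp : p ∈ pairs n) : p.1 ≠ p.2 :=
  (mem_pairs.1 hp).ne

/-- The step identity: the pair (matrix, Gaussian) evolves jointly. -/
theorem lintegral_lawM_succ (t : ℕ) {F : Mat n × E n → ENNReal} (hF : Measurable F) :
    ∫⁻ M, ∫⁻ g, F (M, g) ∂(gam n) ∂(lawM n (t + 1)) =
      ∫⁻ M, ∫⁻ g, ((pairs n).card : ENNReal)⁻¹ * ∑ p ∈ pairs n,
        ∫⁻ φ, F (Tm p.1 p.2 (Bg p.1 p.2 g) M, Rm p.1 p.2 φ g) ∂unifAngle
          ∂(gam n) ∂(lawM n t) := by
  have hF1 : Measurable fun M : Mat n => ∫⁻ g, F (M, g) ∂(gam n) := hF.lintegral_prod_right'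
  rw [lintegral_lawM_bind t hF1]
  refine lintegral_congr fun M => ?_
  rw [lintegral_stepM M hF1]
  have hBg : ∀ i j : Fin n, Measurable fun g : E n => Bg i j g := by
    intro i j; unfold Bg; fun_prop
  have hG : ∀ p : Fin n × Fin n,
      Measurable fun q : E n × ℝ => F (Tm p.1 p.2 (Bg p.1 p.2 q.1) M, Rm p.1 p.2 q.2 q.1) := by
    intro p
    refine hF.comp (Measurable.prodMk ?_ ?_)
    · exact (measurable_Tm p.1 p.2).comp
        (((hBg _ _).comp measurable_fst).prodMk measurable_const)
    · exact (measurable_Rm p.1 p.2).comp measurable_swap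
  rw [lintegral_const_mul _ (Finset.measurable_sum _ fun p _ => (hG p).lintegral_prod_right'),
    lintegral_finsetSum _ fun p _ => (hG p).lintegral_prod_right']
  congr 1
  refine Finset.sum_congr rfl fun p hp => ?_
  have hU : Measurable (Function.uncurry fun (b : ℝ) (g : E n) => F (Tm p.1 p.2 b M, g)) := by
    refine hF.comp (Measurable.prodMk ?_ measurable_snd)
    exact (measurable_Tm p.1 p.2).comp (measurable_fst.prodMk measurable_const)
  exact (lintegral_polar (ne_of_mem_pairs hp) hU).symm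

/-- Nonnegative matrices. -/
def Nonneg (M : Mat n) : Prop := ∀ i k, 0 ≤ M i k

theorem Tm_nonneg {i j : Fin n} {b : ℝ} (h0 : 0 ≤ b) (h1 : b ≤ 1) {M : Mat n} (hM : Nonneg M) :
    Nonneg (Tm i j b M) := by
  intro l k
  unfold Tm
  split_ifs
  · have := hM i k
    have := hM j k
    have : 0 ≤ 1 - b := by linarith
    positivity
  · exact hM l k

theorem Bg_nonneg (i j : Fin n) (g : E n) : 0 ≤ Bg i j g := by unfold Bg; positivity

theorem Bg_le_one (i j : Fin n) (g : E n) : Bg i j g ≤ 1 := by
  unfold Bg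
  exact div_le_one_of_le₀ (by nlinarith [sq_nonneg (g j)]) (by positivity)

theorem ae_stepM {P : Mat n → Prop} (hP : MeasurableSet {M | P M}) {M : Mat n}
    (h : ∀ p ∈ pairs n, ∀ᵐ β ∂unifAngle, P (Tm p.1 p.2 (Real.cos β ^ 2) M)) :
    ∀ᵐ M' ∂(stepM M), P M' := by
  have hPc : MeasurableSet {a | ¬ P a} := hP.compl
  rw [ae_iff, stepM, Measure.smul_apply, Measure.finsetSum_apply, smul_eq_mul]
  have : ∀ p ∈ pairs n, (unifAngle.map fun β => Tm p.1 p.2 (Real.cos β ^ 2) M)
      {a | ¬ P a} = 0 := by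
    intro p hp
    rw [Measure.map_apply (measurable_Tm_left _ _ _) hPc]
    exact h p hp
  rw [Finset.sum_congr rfl this, Finset.sum_const_zero, mul_zero]

theorem ae_lawM {P : Mat n → Prop} (hP : MeasurableSet {M | P M})
    (h0 : P fun i k => if i = k then 1 else 0)
    (h : ∀ M, P M → ∀ p ∈ pairs n, ∀ᵐ β ∂unifAngle, P (Tm p.1 p.2 (Real.cos β ^ 2) M)) (t : ℕ) :
    ∀ᵐ M ∂(lawM n t), P M := by
  have hPc : MeasurableSet {a | ¬ P a} := hP.compl
  induction t with
  | zero =>
    rw [lawM, ae_iff]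
    rw [Measure.dirac_apply' _ hPc, Set.indicator_of_notMem]
    exact fun hc => hc h0
  | succ t ih =>
    rw [lawM, ae_iff, Measure.bind_apply hPc measurable_stepM.aemeasurable]
    rw [lintegral_eq_zero_iff' ]
    · filter_upwards [ih] with M hM
      exact ae_stepM hP (h M hM)
    · exact ((Measure.measurable_coe hPc).comp measurable_stepM).aemeasurable

theorem measurableSet_nonneg : MeasurableSet {M : Mat n | Nonneg M} := by
  unfold Nonneg
  simp only [Set.ofPred_forall]
  refine MeasurableSet.iInter fun i => MeasurableSet.iInter fun k => ?_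
  exact measurableSet_le measurable_const (by fun_prop)

theorem lawM_nonneg (t : ℕ) : ∀ᵐ M ∂(lawM n t), Nonneg M := by
  refine ae_lawM measurableSet_nonneg ?_ (fun M hM p _ => ?_) t
  · intro i k
    change (0 : ℝ) ≤ if i = k then 1 else 0
    split_ifs <;> norm_num
  · exact Eventually.of_forall fun β => Tm_nonneg (sq_nonneg _) (Real.cos_sq_le_one β) hM

theorem lawM_rows (t : ℕ) : ∀ᵐ M ∂(lawM n t), ∀ i, ∑ k, M i k = 1 := by
  refine ae_lawM ?_ ?_ (fun M hM p _ => ?_) t
  · simp only [Set.ofPred_forall]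
    refine MeasurableSet.iInter fun i => ?_
    exact measurableSet_eq_fun (by fun_prop) measurable_const
  · intro i
    simp
  · refine Eventually.of_forall fun β l => ?_
    unfold Tm
    split_ifs
    · rw [Finset.sum_add_distrib, ← Finset.mul_sum, ← Finset.mul_sum, hM, hM]
      ring
    · exact hM l

theorem lawM_cols (t : ℕ) : ∀ᵐ M ∂(lawM n t), Nonneg M ∧ ∀ k, 0 < ∑ i, M i k := by
  have hmeas : MeasurableSet {M : Mat n | Nonneg M ∧ ∀ k, 0 < ∑ i, M i k} := by
    have e : {M : Mat n | Nonneg M ∧ ∀ k, 0 < ∑ i, M i k} =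
        {M | Nonneg M} ∩ ⋂ k, {M | 0 < ∑ i, M i k} := by
      ext M
      simp
    rw [e]
    refine measurableSet_nonneg.inter (MeasurableSet.iInter fun k => ?_)
    exact measurableSet_lt measurable_const (by fun_prop)
  refine ae_lawM hmeas ⟨?_, ?_⟩ (fun M hM p hp => ?_) t
  · intro i k
    change (0 : ℝ) ≤ if i = k then 1 else 0
    split_ifs <;> norm_num
  · intro k
    simp
  · have hs : ∀ᵐ β ∂unifAngle, Real.sin β ≠ 0 := by
      have h : ∀ᵐ φ ∂(volume : Measure ℝ), Real.sin φ ≠ 0 := by
        rw [ae_iff]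
        have : {φ : ℝ | ¬ Real.sin φ ≠ 0} ⊆ Set.range fun k : ℤ => (k : ℝ) * Real.pi := by
          intro φ hφ
          simp only [ne_eq, not_not, Set.mem_ofPred_eq] at hφ
          obtain ⟨k, hk⟩ := Real.sin_eq_zero_iff.1 hφ
          exact ⟨k, hk⟩
        exact measure_mono_null this ((Set.countable_range _).measure_zero _)
      rw [unifAngle]
      exact (Measure.ae_smul_measure_le _) (ae_restrict_of_ae (s := Set.Ico 0 (2 * Real.pi)) h)
    filter_upwards [cos_ne_ae, hs] with β hc hs
    refine ⟨Tm_nonneg (sq_nonneg _) (Real.cos_sq_le_one β) hM.1, fun k => ?_⟩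
    have hTn : Nonneg (Tm p.1 p.2 (Real.cos β ^ 2) M) :=
      Tm_nonneg (sq_nonneg _) (Real.cos_sq_le_one β) hM.1
    obtain ⟨l, _, hl⟩ : ∃ l ∈ (univ : Finset (Fin n)), 0 < M l k := by
      by_contra hcon
      push Not at hcon
      have := Finset.sum_nonpos hcon
      linarith [hM.2 k]
    refine Finset.sum_pos' (fun i _ => hTn i k) ⟨l, mem_univ _, ?_⟩
    have hc2 : 0 < Real.cos β ^ 2 := by positivity
    have hs2 : 0 < 1 - Real.cos β ^ 2 := by
      have := Real.sin_sq_add_cos_sq β
      have : 0 < Real.sin β ^ 2 := by positivity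
      linarith
    unfold Tm
    split_ifs with h
    · have h1 := hM.1 p.1 k
      have h2 := hM.1 p.2 k
      rcases h with h | h
      · rw [h] at hl
        have := mul_pos hc2 hl
        have := mul_nonneg hs2.le h2
        linarith
      · rw [h] at hl
        have := mul_pos hs2 hl
        have := mul_nonneg hc2.le h1
        linarith
    · exact hl

end Pf31f09
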