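import Mathlib
import Pool.Agent.Lib.Pf31f09.Tstep

/-! The law of the walk as a mixture over the matrix chain. -/

noncomputable section

namespace Pf31f09

open Finset MeasureTheory ProbabilityTheory Filter

variable {n : ℕ}

theorem sum_split {i j : Fin n} (h : i ≠ j) (f : Fin n → ℝ) :
    ∑ l, f l = f i + f j + ∑ l ∈ (univ.erase i).erase j, f l := by
  rw [← Finset.add_sum_erase univ f (mem_univ i),
    ← Finset.add_sum_erase (univ.erase i) f (mem_erase.2 ⟨h.symm, mem_univ j⟩)]
  ring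

theorem Rm_sq {i j : Fin n} (h : i ≠ j) (φ : ℝ) (g : E n) :
    Rm i j φ g i ^ 2 = (g i ^ 2 + g j ^ 2) * Real.cos φ ^ 2 ∧
      Rm i j φ g j ^ 2 = (g i ^ 2 + g j ^ 2) * Real.sin φ ^ 2 := by
  unfold Rm
  rw [Rv_i, Rv_j h, mul_pow, mul_pow, Real.sq_sqrt (by positivity)]
  exact ⟨rfl, rfl⟩

theorem Bg_mul {i j : Fin n} (g : E n) (a b : ℝ) :
    (g i ^ 2 + g j ^ 2) * (Bg i j g * a + (1 - Bg i j g) * b) = g i ^ 2 * a + g j ^ 2 * b := by
  by_cases hr : g i ^ 2 + g j ^ 2 = 0
  · have h1 : g i ^ 2 = 0 := by nlinarith [sq_nonneg (g i), sq_nonneg (g j)]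
    have h2 : g j ^ 2 = 0 := by nlinarith [sq_nonneg (g i), sq_nonneg (g j)]
    rw [hr, h1, h2]
    ring
  · unfold Bg
    field_simp
    ring

theorem Tm_i (i j : Fin n) (b : ℝ) (M : Mat n) (k : Fin n) :
    Tm i j b M i k = b * M i k + (1 - b) * M j k := by simp [Tm]

theorem Tm_j (i j : Fin n) (b : ℝ) (M : Mat n) (k : Fin n) :
    Tm i j b M j k = b * M i k + (1 - b) * M j k := by simp [Tm]

theorem Tm_l {i j l : Fin n} (hi : l ≠ i) (hj : l ≠ j) (b : ℝ) (M : Mat n) (k : Fin n) :
    Tm i j b M l k = M l k := by simp [Tm, hi, hj]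

theorem cM_step {i j : Fin n} (h : i ≠ j) (M : Mat n) (g : E n) (φ : ℝ) (k : Fin n) :
    cM (Tm i j (Bg i j g) M) (Rm i j φ g) k = cM M g k := by
  unfold cM
  rw [sum_split h, sum_split h]
  congr 1
  · rw [Tm_i, Tm_j, (Rm_sq h φ g).1, (Rm_sq h φ g).2]
    have h1 := Bg_mul g (i := i) (j := j) (M i k) (M j k)
    have h2 := Real.sin_sq_add_cos_sq φ
    linear_combination h1 + (Bg i j g * M i k + (1 - Bg i j g) * M j k) *
      (g i ^ 2 + g j ^ 2) * h2
  · refine Finset.sum_congr rfl fun l hl => ?_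
    have hj : l ≠ j := ne_of_mem_erase hl
    have hi : l ≠ i := ne_of_mem_erase (mem_of_mem_erase hl)
    rw [Tm_l hi hj]
    unfold Rm
    rw [Rv_k hi hj]

theorem lamM_step_i {i j : Fin n} (h : i ≠ j) (a : Fin n → ℝ) (M : Mat n) (g : E n) (φ : ℝ)
    {l : Fin n} (hl : l = i ∨ l = j) :
    (g i ^ 2 + g j ^ 2) * lamM a (Tm i j (Bg i j g) M) (Rm i j φ g) l =
      g i ^ 2 * lamM a M g i + g j ^ 2 * lamM a M g j := by
  unfold lamM
  rw [Finset.mul_sum, Finset.mul_sum, Finset.mul_sum, ← Finset.sum_add_distrib]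
  refine Finset.sum_congr rfl fun k _ => ?_
  rw [cM_step h]
  have hT : Tm i j (Bg i j g) M l k = Bg i j g * M i k + (1 - Bg i j g) * M j k := by
    simp [Tm, hl]
  rw [hT]
  have h1 := Bg_mul g (i := i) (j := j) (M i k) (M j k)
  calc (g i ^ 2 + g j ^ 2) * (a k * ((Bg i j g * M i k + (1 - Bg i j g) * M j k) / cM M g k)) =
      a k * (((g i ^ 2 + g j ^ 2) * (Bg i j g * M i k + (1 - Bg i j g) * M j k)) /
        cM M g k) := by ring
    _ = _ := by rw [h1]; ring

theorem lamM_step_l {i j l : Fin n} (h : i ≠ j) (hi : l ≠ i) (hj : l ≠ j) (a : Fin n → ℝ)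
    (M : Mat n) (g : E n) (φ : ℝ) :
    lamM a (Tm i j (Bg i j g) M) (Rm i j φ g) l = lamM a M g l := by
  unfold lamM
  refine Finset.sum_congr rfl fun k _ => ?_
  rw [cM_step h, Tm_l hi hj]

theorem cM_nonneg {M : Mat n} (hM : Nonneg M) (g : E n) (k : Fin n) : 0 ≤ cM M g k :=
  Finset.sum_nonneg fun j _ => mul_nonneg (hM j k) (sq_nonneg _)

theorem lamM_nonneg {M : Mat n} (hM : Nonneg M) {a : Fin n → ℝ} (ha : ∀ k, 0 ≤ a k) (g : E n)
    (i : Fin n) : 0 ≤ lamM a M g i :=
  Finset.sum_nonneg fun k _ => mul_nonneg (ha k) (div_nonneg (hM i k) (cM_nonneg hM g k))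

theorem Wf_apply (x : E n) (M : Mat n) (g : E n) (i : Fin n) :
    Wf x M g i = g i * Real.sqrt (lamM (fun k => x k ^ 2) M g i) := rfl

/-- Equivariance of the position. -/
theorem Wf_step {i j : Fin n} (h : i ≠ j) (x : E n) {M : Mat n} (hM : Nonneg M) (g : E n)
    (φ : ℝ) : Wf x (Tm i j (Bg i j g) M) (Rm i j φ g) = Rm i j φ (Wf x M g) := by
  set a : Fin n → ℝ := fun k => x k ^ 2 with ha
  have ha0 : ∀ k, 0 ≤ a k := fun k => sq_nonneg _
  have hr : 0 ≤ g i ^ 2 + g j ^ 2 := by positivity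
  have hrad : Wf x M g i ^ 2 + Wf x M g j ^ 2 = g i ^ 2 * lamM a M g i + g j ^ 2 * lamM a M g j := by
    rw [Wf_apply, Wf_apply, mul_pow, mul_pow, Real.sq_sqrt (lamM_nonneg hM ha0 g i),
      Real.sq_sqrt (lamM_nonneg hM ha0 g j)]
  ext l
  rw [Wf_apply]
  by_cases hi : l = i
  · subst hi
    have e := lamM_step_i h a M g φ (l := l) (Or.inl rfl)
    unfold Rm
    rw [Rv_i, Rv_i, hrad, ← e]
    rw [Real.sqrt_mul hr]
    unfold Rm
    ring
  · by_cases hj : l = j
    · subst hj
      have e := lamM_step_i h a M g φ (l := l) (Or.inr rfl)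
      unfold Rm
      rw [Rv_j h, Rv_j h, hrad, ← e]
      rw [Real.sqrt_mul hr]
      unfold Rm
      ring
    · rw [lamM_step_l h hi hj]
      unfold Rm
      rw [Rv_k hi hj, Rv_k hi hj, Wf_apply]

theorem measurable_lamM (a : Fin n → ℝ) (i : Fin n) :
    Measurable fun p : Mat n × E n => lamM a p.1 p.2 i := by
  unfold lamM cM
  fun_prop

theorem measurable_Wf (x : E n) : Measurable fun p : Mat n × E n => Wf x p.1 p.2 := by
  unfold Wf
  refine (PiLp.continuous_toLp 2 _).measurable.comp ?_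
  refine measurable_pi_lambda _ fun k => ?_
  refine Measurable.mul (by fun_prop) ?_
  exact Real.continuous_sqrt.measurable.comp (measurable_lamM _ k)

/-- The transition operator. -/
def Kop (F : E n → ENNReal) (v : E n) : ENNReal := ∫⁻ w, F w ∂(step v)

theorem measurable_Kop {F : E n → ENNReal} (hF : Measurable F) : Measurable (Kop F) :=
  (Measure.measurable_lintegral hF).comp measurable_step

theorem measurable_Kit {F : E n → ENNReal} (hF : Measurable F) (t : ℕ) :
    Measurable (Kop^[t] F) := by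
  induction t generalizing F with
  | zero => exact hF
  | succ t ih => exact ih (measurable_Kop hF)

theorem Kop_eq {F : E n → ENNReal} (hF : Measurable F) (v : E n) :
    Kop F v = ((pairs n).card : ENNReal)⁻¹ *
      ∑ p ∈ pairs n, ∫⁻ φ, F (Rm p.1 p.2 φ v) ∂unifAngle := by
  rw [Kop, lintegral_step v hF]
  congr 1
  refine Finset.sum_congr rfl fun p hp => ?_
  exact lintegral_rot_Rm (ne_of_mem_pairs hp) v hF

theorem lintegral_law (x : E n) (t : ℕ) {F : E n → ENNReal} (hF : Measurable F) :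
    ∫⁻ w, F w ∂(law x t) = (Kop^[t] F) x := by
  induction t generalizing F with
  | zero => rw [law, lintegral_dirac' _ hF]; rfl
  | succ t ih =>
    rw [lintegral_law_succ x t hF, Function.iterate_succ_apply]
    exact ih (measurable_Kop hF)

theorem lintegral_Wf_succ (x : E n) (t : ℕ) {F : E n → ENNReal} (hF : Measurable F) :
    ∫⁻ M, ∫⁻ g, F (Wf x M g) ∂(gam n) ∂(lawM n (t + 1)) =
      ∫⁻ M, ∫⁻ g, Kop F (Wf x M g) ∂(gam n) ∂(lawM n t) := by
  have h1 := lintegral_lawM_succ t (F := fun p => F (Wf x p.1 p.2)) (hF.comp (measurable_Wf x))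
  rw [h1]
  refine lintegral_congr_ae ?_
  filter_upwards [lawM_nonneg t] with M hM
  refine lintegral_congr fun g => ?_
  rw [Kop_eq hF]
  congr 1
  refine Finset.sum_congr rfl fun p hp => ?_
  refine lintegral_congr fun φ => ?_
  rw [Wf_step (ne_of_mem_pairs hp) x hM]

/-- The identity matrix. -/
def idM (n : ℕ) : Mat n := fun i k => if i = k then 1 else 0

theorem lintegral_Wf (x : E n) (t : ℕ) {F : E n → ENNReal} (hF : Measurable F) :
    ∫⁻ M, ∫⁻ g, F (Wf x M g) ∂(gam n) ∂(lawM n t) =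
      ∫⁻ g, (Kop^[t] F) (Wf x (idM n) g) ∂(gam n) := by
  induction t generalizing F with
  | zero =>
    have hm : Measurable fun M : Mat n => ∫⁻ g, F (Wf x M g) ∂(gam n) :=
      (hF.comp (measurable_Wf x)).lintegral_prod_right'
    rw [lawM, lintegral_dirac' _ hm]
    rfl
  | succ t ih =>
    rw [lintegral_Wf_succ x t hF, Function.iterate_succ_apply]
    exact ih (measurable_Kop hF)

/-- Sign flips on a set of coordinates. -/
def flipS (S : Finset (Fin n)) (v : E n) : E n :=
  WithLp.toLp 2 fun l => if l ∈ S then -v l else v l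

theorem flipS_apply (S : Finset (Fin n)) (v : E n) (l : Fin n) :
    flipS S v l = if l ∈ S then -v l else v l := rfl

theorem flipS_empty (v : E n) : flipS ∅ v = v := by
  ext l
  simp [flipS_apply]

theorem flipS_sq (S : Finset (Fin n)) (v : E n) (l : Fin n) : flipS S v l ^ 2 = v l ^ 2 := by
  rw [flipS_apply]
  split_ifs <;> ring

theorem Rm_flip_mem {i j k : Fin n} (hk : k = i ∨ k = j) (φ : ℝ) (v : E n) :
    Rm i j φ (flipS {k} v) = Rm i j φ v := by
  ext l
  unfold Rm Rv
  simp only [flipS_sq]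
  by_cases hi : l = i
  · simp [hi]
  · by_cases hj : l = j
    · simp [hj]
    · simp only [hi, hj, if_false]
      rw [flipS_apply, if_neg]
      rw [mem_singleton]
      rintro rfl
      tauto

theorem Rm_flip_notMem {i j k : Fin n} (h : i ≠ j) (hi : k ≠ i) (hj : k ≠ j) (φ : ℝ) (v : E n) :
    Rm i j φ (flipS {k} v) = flipS {k} (Rm i j φ v) := by
  ext l
  rw [flipS_apply]
  unfold Rm
  by_cases h1 : l = i
  · subst h1
    rw [Rv_i, Rv_i, flipS_sq, flipS_sq, if_neg]
    rw [mem_singleton]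
    exact fun hc => hi hc.symm
  · by_cases h2 : l = j
    · subst h2
      rw [Rv_j h, Rv_j h, flipS_sq, flipS_sq, if_neg]
      rw [mem_singleton]
      exact fun hc => hj hc.symm
    · rw [Rv_k h1 h2, Rv_k h1 h2, flipS_apply]

/-- The proportion of the pairs which avoid `k`. -/
def avoid (n : ℕ) (k : Fin n) : ENNReal :=
  ((pairs n).card : ENNReal)⁻¹ * (((pairs n).filter fun p => k ≠ p.1 ∧ k ≠ p.2).card : ENNReal)

theorem Kop_flip {F : E n → ENNReal} (hF : Measurable F) {k : Fin n} {δ : ENNReal}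
    (h : ∀ v, F (flipS {k} v) ≤ F v + δ) (v : E n) :
    Kop F (flipS {k} v) ≤ Kop F v + avoid n k * δ := by
  rw [Kop_eq hF, Kop_eq hF, avoid, mul_assoc, ← mul_add]
  refine mul_le_mul_right ?_ _
  rw [← nsmul_eq_mul, ← Finset.sum_const, Finset.sum_filter, ← Finset.sum_add_distrib]
  refine Finset.sum_le_sum fun p hp => ?_
  by_cases hk : k ≠ p.1 ∧ k ≠ p.2
  · rw [if_pos hk]
    have hm : Measurable fun φ => F (Rm p.1 p.2 φ v) :=
      hF.comp ((measurable_Rm p.1 p.2).comp (measurable_id.prodMk measurable_const))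
    calc ∫⁻ φ, F (Rm p.1 p.2 φ (flipS {k} v)) ∂unifAngle ≤
        ∫⁻ φ, (F (Rm p.1 p.2 φ v) + δ) ∂unifAngle := by
          refine lintegral_mono fun φ => ?_
          rw [Rm_flip_notMem (ne_of_mem_pairs hp) hk.1 hk.2]
          exact h _
      _ = _ := by
          rw [lintegral_add_left hm, lintegral_const, measure_univ, mul_one]
  · rw [if_neg hk, add_zero]
    have hk' : k = p.1 ∨ k = p.2 := by tauto
    simp only [Rm_flip_mem hk']
    exact le_rfl

theorem Kit_flip {F : E n → ENNReal} (hF : Measurable F) {k : Fin n} {δ : ENNReal}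
    (h : ∀ v, F (flipS {k} v) ≤ F v + δ) (t : ℕ) (v : E n) :
    (Kop^[t] F) (flipS {k} v) ≤ (Kop^[t] F) v + avoid n k ^ t * δ := by
  induction t generalizing F δ with
  | zero => simpa using h v
  | succ t ih =>
    rw [Function.iterate_succ_apply, pow_succ, mul_assoc]
    exact ih (measurable_Kop hF) (fun v => Kop_flip hF h v)

theorem flipS_insert {S : Finset (Fin n)} {k : Fin n} (hk : k ∉ S) (v : E n) :
    flipS (insert k S) v = flipS {k} (flipS S v) := by
  ext l
  simp only [flipS_apply, mem_insert, mem_singleton]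
  by_cases h : l = k
  · subst h
    simp [hk]
  · simp [h]

theorem pairs_filter_compl (k : Fin n) :
    ((pairs n).filter fun p => ¬ (k ≠ p.1 ∧ k ≠ p.2)).card = n - 1 := by
  have e : ((pairs n).filter fun p => ¬ (k ≠ p.1 ∧ k ≠ p.2)) =
      (univ.erase k).image fun l => if k < l then (k, l) else (l, k) := by
    ext ⟨a, b⟩
    simp only [mem_filter, mem_pairs, mem_image, mem_erase, mem_univ, and_true]
    constructor
    · rintro ⟨hab, hk⟩
      by_cases h : k = a
      · subst h
        exact ⟨b, hab.ne', by simp [hab]⟩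
      · have h2 : k = b := by tauto
        subst h2
        exact ⟨a, hab.ne, by simp [not_lt.2 hab.le]⟩
    · rintro ⟨l, hl, he⟩
      split_ifs at he with hlt
      · obtain ⟨rfl, rfl⟩ := Prod.mk.inj he
        exact ⟨hlt, by simp⟩
      · obtain ⟨rfl, rfl⟩ := Prod.mk.inj he
        exact ⟨lt_of_le_of_ne (not_lt.1 hlt) hl, by simp⟩
  rw [e, Finset.card_image_of_injOn, Finset.card_erase_of_mem (mem_univ k), Finset.card_univ,
    Fintype.card_fin]
  intro a ha b hb hab
  have ha' : a ≠ k := by simpa using ha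
  have hb' : b ≠ k := by simpa using hb
  dsimp only at hab
  split_ifs at hab with h1 h2 h2
  · exact (Prod.mk.inj hab).2
  · exact absurd (Prod.mk.inj hab).1.symm hb'
  · exact absurd (Prod.mk.inj hab).1 ha'
  · exact (Prod.mk.inj hab).1

theorem pairs_card (n : ℕ) : 2 * (pairs n).card = n * (n - 1) := by
  have h1 : ∑ k : Fin n, ((pairs n).filter fun p => ¬ (k ≠ p.1 ∧ k ≠ p.2)).card =
      n * (n - 1) := by
    simp only [pairs_filter_compl, Finset.sum_const, Finset.card_univ, Fintype.card_fin,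
      smul_eq_mul]
  rw [← h1]
  simp only [Finset.card_filter]
  rw [Finset.sum_comm]
  have : ∀ p ∈ pairs n, (∑ k : Fin n, if ¬ (k ≠ p.1 ∧ k ≠ p.2) then 1 else 0) = 2 := by
    intro p hp
    have hne := ne_of_mem_pairs hp
    rw [← Finset.card_filter]
    have : (univ.filter fun k : Fin n => ¬ (k ≠ p.1 ∧ k ≠ p.2)) = {p.1, p.2} := by
      ext k
      simp only [mem_filter, mem_univ, true_and, mem_insert, mem_singleton]
      tauto
    rw [this, Finset.card_pair hne]
  rw [Finset.sum_congr rfl this, Finset.sum_const, smul_eq_mul, mul_comm]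

theorem avoid_eq (hn : 2 ≤ n) (k : Fin n) : avoid n k = ENNReal.ofReal (1 - 2 / n) := by
  have h1 := Finset.card_filter_add_card_filter_not (s := pairs n)
    (p := fun p => k ≠ p.1 ∧ k ≠ p.2)
  rw [pairs_filter_compl] at h1
  have h2 := pairs_card n
  set A := ((pairs n).filter fun p => k ≠ p.1 ∧ k ≠ p.2).card with hA
  set N := (pairs n).card with hN
  have hNpos : 0 < N := pairs_card_pos hn
  have hnR : (2 : ℝ) ≤ n := by exact_mod_cast hn
  have h1' : (A : ℝ) = N - (n - 1) := by
    have : (A : ℝ) + ((n - 1 : ℕ) : ℝ) = N := by exact_mod_cast h1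
    rw [Nat.cast_sub (by omega)] at this
    push_cast at this
    linarith
  have h2' : 2 * (N : ℝ) = n * (n - 1) := by
    have : ((2 * N : ℕ) : ℝ) = ((n * (n - 1) : ℕ) : ℝ) := by exact_mod_cast h2
    rw [Nat.cast_mul, Nat.cast_mul, Nat.cast_sub (by omega)] at this
    push_cast at this
    exact this
  have hNR : (0 : ℝ) < N := by exact_mod_cast hNpos
  rw [avoid, ← hA, ← hN]
  have e1 : (N : ENNReal) = ENNReal.ofReal N := (ENNReal.ofReal_natCast N).symm
  have e2 : (A : ENNReal) = ENNReal.ofReal A := (ENNReal.ofReal_natCast A).symm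
  rw [e1, e2, ← ENNReal.ofReal_inv_of_pos hNR, ← ENNReal.ofReal_mul (inv_nonneg.2 hNR.le)]
  congr 1
  rw [h1']
  have hn0 : (n : ℝ) ≠ 0 := by linarith
  field_simp
  linear_combination h2'

theorem Kit_flipS (hn : 2 ≤ n) {F : E n → ENNReal} (hF : Measurable F) (h1 : ∀ v, F v ≤ 1) (t : ℕ)
    (S : Finset (Fin n)) (v : E n) :
    (Kop^[t] F) (flipS S v) ≤ (Kop^[t] F) v + S.card * ENNReal.ofReal (1 - 2 / n) ^ t := by
  induction S using Finset.induction_on with
  | empty => simp [flipS_empty]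
  | insert k S hk ih =>
    rw [flipS_insert hk, Finset.card_insert_of_notMem hk]
    have h := Kit_flip hF (k := k) (δ := 1) (fun v => (h1 _).trans le_add_self) t (flipS S v)
    rw [avoid_eq hn, mul_one] at h
    refine h.trans ?_
    push_cast
    rw [add_mul, one_mul, ← add_assoc]
    gcongr

theorem flipS_flipS (S : Finset (Fin n)) (v : E n) : flipS S (flipS S v) = v := by
  ext l
  rw [flipS_apply, flipS_apply]
  split_ifs <;> ring

theorem Wf_id {x g : E n} (hg : ∀ k, g k ≠ 0) : ∃ S, Wf x (idM n) g = flipS S x := by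
  classical
  have hl : ∀ l, Wf x (idM n) g l = x l ∨ Wf x (idM n) g l = - x l := by
    intro l
    have hc : ∀ k, cM (idM n) g k = g k ^ 2 := by
      intro k
      unfold cM idM
      simp
    have hlam : lamM (fun k => x k ^ 2) (idM n) g l = x l ^ 2 / g l ^ 2 := by
      unfold lamM
      simp only [hc]
      unfold idM
      rw [Finset.sum_eq_single l]
      · simp; ring
      · intro k _ hk
        simp [hk.symm]
      · simp
    have hsq : Wf x (idM n) g l ^ 2 = x l ^ 2 := by
      rw [Wf_apply, hlam, mul_pow, Real.sq_sqrt (by positivity)]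
      have := hg l
      field_simp
    exact sq_eq_sq_iff_eq_or_eq_neg.1 hsq
  refine ⟨univ.filter fun l => Wf x (idM n) g l ≠ x l, ?_⟩
  ext l
  rw [flipS_apply]
  by_cases h : Wf x (idM n) g l = x l
  · simp [h]
  · rw [if_pos (by simp [h])]
    rcases hl l with h' | h'
    · exact absurd h' h
    · exact h'

theorem gam_ae_ne_all (n : ℕ) : ∀ᵐ g ∂(gam n), ∀ k, g k ≠ 0 :=
  ae_all_iff.2 fun k => gam_ae_ne k

/-- The mixture law. -/
def mixLaw (x : E n) (t : ℕ) : Measure (E n) :=
  ((lawM n t).prod (gam n)).map fun p => Wf x p.1 p.2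

theorem mixLaw_lintegral (hn : 2 ≤ n) (x : E n) (t : ℕ) {F : E n → ENNReal} (hF : Measurable F) :
    ∫⁻ w, F w ∂(mixLaw x t) = ∫⁻ M, ∫⁻ g, F (Wf x M g) ∂(gam n) ∂(lawM n t) := by
  have := isProb_lawM hn t
  rw [mixLaw, lintegral_map hF (measurable_Wf x)]
  exact lintegral_prod _ (hF.comp (measurable_Wf x)).aemeasurable

theorem isProb_mixLaw (hn : 2 ≤ n) (x : E n) (t : ℕ) : IsProbabilityMeasure (mixLaw x t) := by
  have := isProb_lawM hn t
  exact Measure.isProbabilityMeasure_map (measurable_Wf x).aemeasurable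

/-- The law of the walk is close to the mixture. -/
theorem law_close (hn : 2 ≤ n) (x : E n) (t : ℕ) {A : Set (E n)} (hA : MeasurableSet A) :
    |(law x t).real A - (mixLaw x t).real A| ≤ n * (1 - 2 / n) ^ t := by
  have := isProb_law hn x t
  have := isProb_mixLaw hn x t
  set F : E n → ENNReal := A.indicator 1 with hFdef
  have hF : Measurable F := measurable_one.indicator hA
  have hF1 : ∀ v, F v ≤ 1 := by
    intro v
    rw [hFdef]
    exact Set.indicator_le_self' (fun _ _ => by simp) v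
  have e1 : law x t A = (Kop^[t] F) x := by
    rw [← lintegral_law x t hF, hFdef, lintegral_indicator_one hA]
  have e2 : mixLaw x t A = ∫⁻ g, (Kop^[t] F) (Wf x (idM n) g) ∂(gam n) := by
    rw [← lintegral_Wf x t hF, ← mixLaw_lintegral hn x t hF, hFdef, lintegral_indicator_one hA]
  set δ : ENNReal := n * ENNReal.ofReal (1 - 2 / n) ^ t with hδ
  have hcard : ∀ S : Finset (Fin n), (S.card : ENNReal) * ENNReal.ofReal (1 - 2 / n) ^ t ≤ δ := by
    intro S
    rw [hδ]
    gcongr
    have := Finset.card_le_univ S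
    rwa [Fintype.card_fin] at this
  have b1 : mixLaw x t A ≤ law x t A + δ := by
    rw [e1, e2]
    calc ∫⁻ g, (Kop^[t] F) (Wf x (idM n) g) ∂(gam n) ≤
        ∫⁻ _, ((Kop^[t] F) x + δ) ∂(gam n) := by
          refine lintegral_mono_ae ?_
          filter_upwards [gam_ae_ne_all n] with g hg
          obtain ⟨S, hS⟩ := Wf_id (x := x) hg
          rw [hS]
          exact (Kit_flipS hn hF hF1 t S x).trans (by gcongr; exact hcard S)
      _ = _ := by rw [lintegral_const, measure_univ, mul_one]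
  have b2 : law x t A ≤ mixLaw x t A + δ := by
    rw [e1, e2]
    have hm : Measurable fun g => (Kop^[t] F) (Wf x (idM n) g) := by
      refine (measurable_Kit hF t).comp ?_
      exact (measurable_Wf x).comp (measurable_const.prodMk measurable_id)
    calc (Kop^[t] F) x = ∫⁻ _, (Kop^[t] F) x ∂(gam n) := by
          rw [lintegral_const, measure_univ, mul_one]
      _ ≤ ∫⁻ g, ((Kop^[t] F) (Wf x (idM n) g) + δ) ∂(gam n) := by
          refine lintegral_mono_ae ?_
          filter_upwards [gam_ae_ne_all n] with g hg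
          obtain ⟨S, hS⟩ := Wf_id (x := x) hg
          rw [hS]
          have := Kit_flipS hn hF hF1 t S (flipS S x)
          rw [flipS_flipS] at this
          exact this.trans (by gcongr; exact hcard S)
      _ = _ := by
          rw [lintegral_add_left hm, lintegral_const, measure_univ, mul_one]
  have hδt : δ ≠ ⊤ := ENNReal.mul_ne_top (ENNReal.natCast_ne_top n)
    (ENNReal.pow_ne_top ENNReal.ofReal_ne_top)
  have hδr : δ.toReal = n * (1 - 2 / n) ^ t := by
    have hnR : (2 : ℝ) ≤ n := by exact_mod_cast hn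
    have h0 : (0 : ℝ) ≤ 1 - 2 / n := by
      have : (2 : ℝ) / n ≤ 1 := div_le_one_of_le₀ hnR (by linarith)
      linarith
    rw [hδ, ENNReal.toReal_mul, ENNReal.toReal_pow, ENNReal.toReal_ofReal h0,
      ENNReal.toReal_natCast]
  rw [abs_le]
  constructor
  · have h := ENNReal.toReal_mono (ENNReal.add_ne_top.2 ⟨measure_ne_top _ _, hδt⟩) b1
    rw [ENNReal.toReal_add (measure_ne_top _ _) hδt, hδr] at h
    change -(n * (1 - 2 / n) ^ t) ≤ (law x t A).toReal - (mixLaw x t A).toReal
    linarith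
  · have h := ENNReal.toReal_mono (ENNReal.add_ne_top.2 ⟨measure_ne_top _ _, hδt⟩) b2
    rw [ENNReal.toReal_add (measure_ne_top _ _) hδt, hδr] at h
    change (law x t A).toReal - (mixLaw x t A).toReal ≤ n * (1 - 2 / n) ^ t
    linarith

end Pf31f09
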