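import Mathlib
import Pool.Agent.Lib.Pf31f09.Tlaw

/-! The evolution of the difference of energies, and its second moment. -/

noncomputable section

namespace Pf31f09

open Finset MeasureTheory ProbabilityTheory Filter

variable {n : ℕ}

theorem sum_sq_Rm {i j : Fin n} (h : i ≠ j) (φ : ℝ) (g : E n) :
    ∑ l, Rm i j φ g l ^ 2 = ∑ l, g l ^ 2 := by
  rw [sum_split h, sum_split h (fun l => g l ^ 2), (Rm_sq h φ g).1, (Rm_sq h φ g).2]
  congr 1
  · have := Real.sin_sq_add_cos_sq φ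
    linear_combination (g i ^ 2 + g j ^ 2) * this
  · refine Finset.sum_congr rfl fun l hl => ?_
    have hj : l ≠ j := ne_of_mem_erase hl
    have hi : l ≠ i := ne_of_mem_erase (mem_of_mem_erase hl)
    unfold Rm
    rw [Rv_k hi hj]

/-- The difference of energies evolves linearly. -/
theorem Dk_step {i j : Fin n} (h : i ≠ j) (M : Mat n) (g : E n) (φ : ℝ) (k : Fin n) :
    Dk (Tm i j (Bg i j g) M) (Rm i j φ g) k = updD i j φ (Dk M g k) := by
  funext l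
  have hT := Bg_mul g (i := i) (j := j) (M i k) (M j k)
  unfold Dk updD
  rw [cM_step h, sum_sq_Rm h]
  by_cases hi : l = i
  · subst hi
    rw [if_pos rfl, (Rm_sq h φ g).1, Tm_i]
    calc (g l ^ 2 + g j ^ 2) * Real.cos φ ^ 2 * (Bg l j g * M l k + (1 - Bg l j g) * M j k) /
        cM M g k - (g l ^ 2 + g j ^ 2) * Real.cos φ ^ 2 / ∑ l, g l ^ 2 =
        Real.cos φ ^ 2 * (((g l ^ 2 + g j ^ 2) * (Bg l j g * M l k + (1 - Bg l j g) * M j k)) /
          cM M g k) - (g l ^ 2 + g j ^ 2) * Real.cos φ ^ 2 / ∑ l, g l ^ 2 := by ring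
      _ = _ := by rw [hT]; ring
  · rw [if_neg hi]
    by_cases hj : l = j
    · subst hj
      rw [if_pos rfl, (Rm_sq h φ g).2, Tm_j]
      calc (g i ^ 2 + g l ^ 2) * Real.sin φ ^ 2 * (Bg i l g * M i k + (1 - Bg i l g) * M l k) /
          cM M g k - (g i ^ 2 + g l ^ 2) * Real.sin φ ^ 2 / ∑ l, g l ^ 2 =
          Real.sin φ ^ 2 * (((g i ^ 2 + g l ^ 2) * (Bg i l g * M i k + (1 - Bg i l g) * M l k)) /
            cM M g k) - (g i ^ 2 + g l ^ 2) * Real.sin φ ^ 2 / ∑ l, g l ^ 2 := by ring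
        _ = _ := by rw [hT]; ring
    · rw [if_neg hj, Tm_l hi hj]
      unfold Rm
      rw [Rv_k hi hj]

theorem measurable_Dk (k : Fin n) : Measurable fun p : Mat n × E n => Dk p.1 p.2 k := by
  unfold Dk cM
  refine measurable_pi_lambda _ fun l => ?_
  fun_prop

theorem lintegral_Dk_succ (t : ℕ) (k : Fin n) {Ψ : (Fin n → ℝ) → ENNReal} (hΨ : Measurable Ψ) :
    ∫⁻ M, ∫⁻ g, Ψ (Dk M g k) ∂(gam n) ∂(lawM n (t + 1)) =
      ∫⁻ M, ∫⁻ g, ((pairs n).card : ENNReal)⁻¹ * ∑ p ∈ pairs n,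
        ∫⁻ φ, Ψ (updD p.1 p.2 φ (Dk M g k)) ∂unifAngle ∂(gam n) ∂(lawM n t) := by
  have h1 := lintegral_lawM_succ t (F := fun p => Ψ (Dk p.1 p.2 k)) (hΨ.comp (measurable_Dk k))
  rw [h1]
  refine lintegral_congr fun M => lintegral_congr fun g => ?_
  congr 1
  refine Finset.sum_congr rfl fun p hp => ?_
  refine lintegral_congr fun φ => ?_
  rw [Dk_step (ne_of_mem_pairs hp)]

theorem cM_pos {M : Mat n} (hM : Nonneg M) {k : Fin n} (hk : 0 < ∑ i, M i k) {g : E n}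
    (hg : ∀ l, g l ≠ 0) : 0 < cM M g k := by
  obtain ⟨l, _, hl⟩ : ∃ l ∈ (univ : Finset (Fin n)), 0 < M l k := by
    by_contra hcon
    push Not at hcon
    have := Finset.sum_nonpos hcon
    linarith
  have hgl := hg l
  exact Finset.sum_pos' (fun j _ => mul_nonneg (hM j k) (sq_nonneg _))
    ⟨l, mem_univ _, by positivity⟩

theorem sum_Dk {M : Mat n} {g : E n} {k : Fin n} (hc : cM M g k ≠ 0)
    (hg : ∑ l, g l ^ 2 ≠ 0) : ∑ i, Dk M g k i = 0 := by
  unfold Dk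
  rw [Finset.sum_sub_distrib, ← Finset.sum_div, ← Finset.sum_div, div_self hg]
  have : ∑ i, g i ^ 2 * M i k = cM M g k := by
    unfold cM
    exact Finset.sum_congr rfl fun _ _ => mul_comm _ _
  rw [this, div_self hc, sub_self]

theorem sum_g_pos {g : E n} (k : Fin n) (hg : ∀ l, g l ≠ 0) : 0 < ∑ l, g l ^ 2 := by
  have := hg k
  exact Finset.sum_pos' (fun j _ => sq_nonneg _) ⟨k, mem_univ _, by positivity⟩

theorem ae_sum_Dk (t : ℕ) (k : Fin n) : ∀ᵐ M ∂(lawM n t), ∀ᵐ g ∂(gam n),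
    ∑ i, Dk M g k i = 0 := by
  filter_upwards [lawM_cols t] with M hM
  filter_upwards [gam_ae_ne_all n] with g hg
  exact sum_Dk (cM_pos hM.1 (hM.2 k) hg).ne' (sum_g_pos k hg).ne'

theorem Dk_id {g : E n} (hg : ∀ l, g l ≠ 0) (k : Fin n) :
    Dk (idM n) g k = fun i => (if i = k then 1 else 0) - g i ^ 2 / ∑ j, g j ^ 2 := by
  funext i
  unfold Dk cM idM
  have := hg k
  by_cases h : i = k
  · subst h
    simp [this]
  · simp [h]

theorem integral_updD_sq {i j : Fin n} (h : i ≠ j) (d : Fin n → ℝ) :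
    avg (fun φ => ∑ l, updD i j φ d l ^ 2) =
      ∑ l, d l ^ 2 - d i ^ 2 - d j ^ 2 + 3 / 4 * (d i + d j) ^ 2 := by
  have e : (fun φ => ∑ l, updD i j φ d l ^ 2) = fun φ =>
      ((d i + d j) ^ 2 * (Real.cos φ ^ 2) ^ 2 + (d i + d j) ^ 2 * (Real.sin φ ^ 2) ^ 2) +
        (∑ l, d l ^ 2 - d i ^ 2 - d j ^ 2) := by
    funext φ
    rw [sum_split h, sum_split h (fun l => d l ^ 2)]
    have e1 : updD i j φ d i = (d i + d j) * Real.cos φ ^ 2 := by simp [updD]
    have e2 : updD i j φ d j = (d i + d j) * Real.sin φ ^ 2 := by simp [updD, h.symm]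
    have e3 : ∑ l ∈ (univ.erase i).erase j, updD i j φ d l ^ 2 =
        ∑ l ∈ (univ.erase i).erase j, d l ^ 2 := by
      refine Finset.sum_congr rfl fun l hl => ?_
      have hj : l ≠ j := ne_of_mem_erase hl
      have hi : l ≠ i := ne_of_mem_erase (mem_of_mem_erase hl)
      simp [updD, hi, hj]
    rw [e1, e2, e3]
    ring
  have hb1 : ∀ φ : ℝ, |(Real.cos φ ^ 2) ^ 2| ≤ 1 := by
    intro φ
    have h1 := Real.cos_sq_le_one φ
    have h0 := sq_nonneg (Real.cos φ)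
    rw [abs_of_nonneg (by positivity)]
    nlinarith
  have hb2 : ∀ φ : ℝ, |(Real.sin φ ^ 2) ^ 2| ≤ 1 := by
    intro φ
    have h1 := Real.sin_sq_le_one φ
    have h0 := sq_nonneg (Real.sin φ)
    rw [abs_of_nonneg (by positivity)]
    nlinarith
  have h2 := avg_two (R := 1) zero_le_one
  rw [one_pow, mul_one] at h2
  have h3 : avg (fun φ => (d i + d j) ^ 2 * (Real.cos φ ^ 2) ^ 2 +
      (d i + d j) ^ 2 * (Real.sin φ ^ 2) ^ 2) = (d i + d j) ^ 2 * (3 / 4) := by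
    rw [← h2, ← avg_const_mul]
    congr 1
    funext φ
    ring
  set R := (d i + d j) ^ 2 with hR
  have hR0 : 0 ≤ R := sq_nonneg _
  set c := ∑ l, d l ^ 2 - d i ^ 2 - d j ^ 2 with hc
  rw [e, avg_add (by fun_prop) measurable_const (C := 2 * R + |c|), h3, avg_const]
  · ring
  · intro φ
    have := hb1 φ
    have := hb2 φ
    rw [abs_le] at *
    have := abs_nonneg c
    constructor <;> nlinarith
  · intro φ
    linarith

/-- One step for the sum of squares of a difference. -/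
theorem sum_pairs_sq (d : Fin n → ℝ) (hd : ∑ l, d l = 0) :
    ∑ p ∈ pairs n, (∑ l, d l ^ 2 - d p.1 ^ 2 - d p.2 ^ 2 + 3 / 4 * (d p.1 + d p.2) ^ 2) =
      ((pairs n).card - (n + 2) / 4) * ∑ l, d l ^ 2 := by
  have h1 := sum_pairs (n := n) fun i j => 1 / 2 * ((-1 / 4) * (d i ^ 2 + d j ^ 2) +
    3 / 2 * (d i * d j))
  have h2 : ∑ i, ∑ j ∈ univ.erase i, (1 / 2 * ((-1 / 4) * (d i ^ 2 + d j ^ 2) +
      3 / 2 * (d i * d j))) = -((n + 2) / 4) * ∑ l, d l ^ 2 := by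
    have h3 : ∀ i : Fin n, ∑ j ∈ univ.erase i, (1 / 2 * ((-1 / 4) * (d i ^ 2 + d j ^ 2) +
        3 / 2 * (d i * d j))) = (-1 / 8) * n * d i ^ 2 - 1 / 8 * ∑ l, d l ^ 2 -
          1 / 2 * d i ^ 2 := by
      intro i
      have h4 : ∑ j ∈ univ.erase i, (1 / 2 * ((-1 / 4) * (d i ^ 2 + d j ^ 2) +
          3 / 2 * (d i * d j))) = ∑ j, (1 / 2 * ((-1 / 4) * (d i ^ 2 + d j ^ 2) +
          3 / 2 * (d i * d j))) - (1 / 2 * ((-1 / 4) * (d i ^ 2 + d i ^ 2) +
          3 / 2 * (d i * d i))) := by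
        rw [← Finset.add_sum_erase univ _ (mem_univ i)]
        ring
      rw [h4, ← Finset.mul_sum, Finset.sum_add_distrib, ← Finset.mul_sum, ← Finset.mul_sum,
        Finset.sum_add_distrib, ← Finset.mul_sum, hd, Finset.sum_const, Finset.card_univ,
        Fintype.card_fin, nsmul_eq_mul]
      ring
    rw [Finset.sum_congr rfl fun i _ => h3 i]
    simp only [Finset.sum_sub_distrib, ← Finset.mul_sum, Finset.sum_const, Finset.card_univ,
      Fintype.card_fin, nsmul_eq_mul]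
    ring
  rw [h2] at h1
  have h5 : ∑ p ∈ pairs n, (∑ l, d l ^ 2 - d p.1 ^ 2 - d p.2 ^ 2 + 3 / 4 * (d p.1 + d p.2) ^ 2) =
      ∑ p ∈ pairs n, (∑ l, d l ^ 2) + ∑ p ∈ pairs n, (1 / 2 * ((-1 / 4) * (d p.1 ^ 2 + d p.2 ^ 2) +
    3 / 2 * (d p.1 * d p.2)) + 1 / 2 * ((-1 / 4) * (d p.2 ^ 2 + d p.1 ^ 2) +
    3 / 2 * (d p.2 * d p.1))) := by
    rw [← Finset.sum_add_distrib]
    refine Finset.sum_congr rfl fun p _ => ?_
    ring
  rw [h5, h1, Finset.sum_const, nsmul_eq_mul]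
  ring

end Pf31f09
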