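import Mathlib
import Pool.Agent.Lib.Pf31f09.Tstep

/-! Invariance of the matrix chain under permutations. -/

noncomputable section

namespace Pf31f09

open Finset MeasureTheory ProbabilityTheory Filter

variable {n : ℕ}

/-- Simultaneous relabelling of sites and types. -/
def permM (σ : Equiv.Perm (Fin n)) (M : Mat n) : Mat n := fun i k => M (σ i) (σ k)

theorem measurable_permM (σ : Equiv.Perm (Fin n)) : Measurable (permM σ) := by
  unfold permM
  refine measurable_pi_lambda _ fun l => measurable_pi_lambda _ fun k => ?_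
  fun_prop

theorem Tm_permM (σ : Equiv.Perm (Fin n)) (i j : Fin n) (b : ℝ) (M : Mat n) :
    Tm i j b (permM σ M) = permM σ (Tm (σ i) (σ j) b M) := by
  funext l k
  unfold Tm permM
  simp only [EmbeddingLike.apply_eq_iff_eq]

theorem Tm_symm (i j : Fin n) (β : ℝ) (M : Mat n) :
    Tm j i (Real.cos β ^ 2) M = Tm i j (Real.sin β ^ 2) M := by
  funext l k
  unfold Tm
  by_cases h : l = i ∨ l = j
  · rw [if_pos h, if_pos (by tauto)]
    have := Real.sin_sq_add_cos_sq β
    linear_combination (M i k - M j k) * (-this)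
  · rw [if_neg h, if_neg (by tauto)]

theorem lintegral_cos_sin {H : ℝ → ENNReal} (hH : Measurable H) :
    ∫⁻ β, H (Real.sin β ^ 2) ∂unifAngle = ∫⁻ β, H (Real.cos β ^ 2) ∂unifAngle := by
  have h := lintegral_circ_shift (-(Real.pi / 2)) (H := fun p => H (p.1 ^ 2))
    (hH.comp (by fun_prop))
  rw [← h]
  refine lintegral_congr fun β => ?_
  have : Real.cos (β + -(Real.pi / 2)) = Real.sin β := by
    rw [← sub_eq_add_neg, Real.cos_sub_pi_div_two]
  simp only [this]

theorem sum_pairs_perm (σ : Equiv.Perm (Fin n)) {h : Fin n → Fin n → ENNReal}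
    (hs : ∀ i j, h i j = h j i) :
    ∑ p ∈ pairs n, h (σ p.1) (σ p.2) = ∑ p ∈ pairs n, h p.1 p.2 := by
  refine Finset.sum_bij' (fun p _ => if σ p.1 < σ p.2 then (σ p.1, σ p.2) else (σ p.2, σ p.1))
    (fun p _ => if σ.symm p.1 < σ.symm p.2 then (σ.symm p.1, σ.symm p.2)
      else (σ.symm p.2, σ.symm p.1)) ?_ ?_ ?_ ?_ ?_
  · intro p hp
    rw [mem_pairs]
    split_ifs with h1
    · exact h1
    · exact lt_of_le_of_ne (not_lt.1 h1) fun hc => ne_of_mem_pairs hp (σ.injective hc).symm
  · intro p hp
    rw [mem_pairs]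
    split_ifs with h1
    · exact h1
    · exact lt_of_le_of_ne (not_lt.1 h1) fun hc => ne_of_mem_pairs hp (σ.symm.injective hc).symm
  · intro p hp
    have hlt := mem_pairs.1 hp
    by_cases h1 : σ p.1 < σ p.2
    · simp [h1, hlt]
    · simp [h1, not_lt.2 hlt.le]
  · intro p hp
    have hlt := mem_pairs.1 hp
    by_cases h1 : σ.symm p.1 < σ.symm p.2
    · simp [h1, hlt]
    · simp [h1, not_lt.2 hlt.le]
  · intro p hp
    split_ifs with h1
    · rfl
    · exact hs _ _

theorem lintegral_stepM_permM (σ : Equiv.Perm (Fin n)) (M : Mat n) {f : Mat n → ENNReal}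
    (hf : Measurable f) :
    ∫⁻ w, f w ∂(stepM (permM σ M)) = ∫⁻ w, f (permM σ w) ∂(stepM M) := by
  have hfc : Measurable fun w : Mat n => f (permM σ w) := hf.comp (measurable_permM σ)
  rw [lintegral_stepM _ hf, lintegral_stepM _ hfc]
  congr 1
  simp only [Tm_permM]
  refine sum_pairs_perm σ (h := fun i j =>
    ∫⁻ β, f (permM σ (Tm i j (Real.cos β ^ 2) M)) ∂unifAngle) fun i j => ?_
  simp only [Tm_symm i j]
  have hH : Measurable fun b : ℝ => f (permM σ (Tm i j b M)) := by
    refine (hf.comp (measurable_permM σ)).comp ?_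
    exact (measurable_Tm i j).comp (measurable_id.prodMk measurable_const)
  exact (lintegral_cos_sin hH).symm

theorem lintegral_lawM_permM (σ : Equiv.Perm (Fin n)) (t : ℕ) {f : Mat n → ENNReal}
    (hf : Measurable f) :
    ∫⁻ M, f (permM σ M) ∂(lawM n t) = ∫⁻ M, f M ∂(lawM n t) := by
  have hfc : Measurable fun w : Mat n => f (permM σ w) := hf.comp (measurable_permM σ)
  induction t generalizing f with
  | zero =>
    rw [lawM, lintegral_dirac' _ hfc, lintegral_dirac' _ hf]
    congr 1
    funext i k
    simp [permM]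
  | succ t ih =>
    rw [lintegral_lawM_bind t hfc, lintegral_lawM_bind t hf]
    have hm : Measurable fun M : Mat n => ∫⁻ w, f w ∂(stepM M) :=
      (Measure.measurable_lintegral hf).comp measurable_stepM
    rw [← ih hm (hm.comp (measurable_permM σ))]
    refine lintegral_congr fun M => ?_
    exact (lintegral_stepM_permM σ M hf).symm

/-- The law of the matrix chain is invariant under simultaneous permutations. -/
theorem lawM_perm (σ : Equiv.Perm (Fin n)) (t : ℕ) :
    (lawM n t).map (permM σ) = lawM n t := by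
  refine Measure.ext_of_lintegral _ fun f hf => ?_
  rw [lintegral_map hf (measurable_permM σ)]
  exact lintegral_lawM_permM σ t hf

end Pf31f09
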