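import Mathlib
import Pool.Agent.Lib.Pf31f09.Tdiff

/-! Bounds on the difference of energies, almost everywhere statements. -/

noncomputable section

namespace Pf31f09

open Finset MeasureTheory ProbabilityTheory Filter

variable {n : ℕ}

theorem Dk_bounds {M : Mat n} (hM : Nonneg M) (g : E n) (k i : Fin n) :
    |Dk M g k i| ≤ 1 := by
  have h1 : 0 ≤ g i ^ 2 * M i k / cM M g k :=
    div_nonneg (mul_nonneg (sq_nonneg _) (hM i k)) (cM_nonneg hM g k)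
  have h2 : g i ^ 2 * M i k / cM M g k ≤ 1 := by
    refine div_le_one_of_le₀ ?_ (cM_nonneg hM g k)
    rw [mul_comm]
    exact Finset.single_le_sum (f := fun j => M j k * g j ^ 2)
      (fun j _ => mul_nonneg (hM j k) (sq_nonneg _)) (mem_univ i)
  have h3 : 0 ≤ g i ^ 2 / ∑ j, g j ^ 2 :=
    div_nonneg (sq_nonneg _) (Finset.sum_nonneg fun _ _ => sq_nonneg _)
  have h4 : g i ^ 2 / ∑ j, g j ^ 2 ≤ 1 := by
    refine div_le_one_of_le₀ ?_ (Finset.sum_nonneg fun _ _ => sq_nonneg _)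
    exact Finset.single_le_sum (f := fun j => g j ^ 2) (fun j _ => sq_nonneg _) (mem_univ i)
  unfold Dk
  rw [abs_le]
  constructor <;> linarith

/-- Facts which hold almost surely for the pair (matrix, Gaussian). -/
theorem ae_prod (hn : 2 ≤ n) (t : ℕ) : ∀ᵐ p ∂((lawM n t).prod (gam n)),
    (∀ i k, 0 ≤ p.1 i k) ∧ (∀ i, ∑ k, p.1 i k = 1) ∧ (∀ k, 0 < ∑ i, p.1 i k) ∧
      (∀ k, p.2 k ≠ 0) ∧ (∀ k, 0 < cM p.1 p.2 k) ∧ (∀ k, ∑ i, Dk p.1 p.2 k i = 0) ∧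
      ∀ k i, |Dk p.1 p.2 k i| ≤ 1 := by
  have := isProb_lawM hn t
  have h1 : ∀ᵐ p ∂((lawM n t).prod (gam n)), (Nonneg p.1 ∧ ∀ k, 0 < ∑ i, p.1 i k) ∧
      ∀ i, ∑ k, p.1 i k = 1 :=
    Measure.quasiMeasurePreserving_fst.ae ((lawM_cols t).and (lawM_rows t))
  have h2 : ∀ᵐ p ∂((lawM n t).prod (gam n)), ∀ k, p.2 k ≠ 0 :=
    Measure.quasiMeasurePreserving_snd.ae (gam_ae_ne_all n)
  filter_upwards [h1, h2] with p hp1 hp2
  have hc : ∀ k, 0 < cM p.1 p.2 k := fun k => cM_pos hp1.1.1 (hp1.1.2 k) hp2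
  exact ⟨hp1.1.1, hp1.2, hp1.1.2, hp2, hc,
    fun k => sum_Dk (hc k).ne' (sum_g_pos k hp2).ne', fun k i => Dk_bounds hp1.1.1 _ _ _⟩

end Pf31f09
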