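import Mathlib
import Pool.Agent.Lib.Pf31f09.Tdiff

/-! The second moment of the difference of energies. -/

noncomputable section

namespace Pf31f09

open Finset MeasureTheory ProbabilityTheory Filter

variable {n : ℕ}

theorem updD_sq_eq {i j : Fin n} (h : i ≠ j) (d : Fin n → ℝ) (φ : ℝ) :
    ∑ l, updD i j φ d l ^ 2 =
      (d i + d j) ^ 2 * ((Real.cos φ ^ 2) ^ 2 + (Real.sin φ ^ 2) ^ 2) +
        ∑ l ∈ (univ.erase i).erase j, d l ^ 2 := by
  rw [sum_split h]
  have e1 : updD i j φ d i = (d i + d j) * Real.cos φ ^ 2 := by simp [updD]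
  have e2 : updD i j φ d j = (d i + d j) * Real.sin φ ^ 2 := by simp [updD, h.symm]
  have e3 : ∑ l ∈ (univ.erase i).erase j, updD i j φ d l ^ 2 =
      ∑ l ∈ (univ.erase i).erase j, d l ^ 2 := by
    refine Finset.sum_congr rfl fun l hl => ?_
    have hj : l ≠ j := ne_of_mem_erase hl
    have hi : l ≠ i := ne_of_mem_erase (mem_of_mem_erase hl)
    simp [updD, hi, hj]
  rw [e1, e2, e3]
  ring

theorem cos_four_add (φ : ℝ) : (Real.cos φ ^ 2) ^ 2 + (Real.sin φ ^ 2) ^ 2 ≤ 1 := by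
  have h := Real.sin_sq_add_cos_sq φ
  have h0 := sq_nonneg (Real.cos φ)
  have h1 := sq_nonneg (Real.sin φ)
  nlinarith

theorem card_pairs_real (hn : 2 ≤ n) : 2 * ((pairs n).card : ℝ) = n * (n - 1) := by
  have h2 := pairs_card n
  have : ((2 * (pairs n).card : ℕ) : ℝ) = ((n * (n - 1) : ℕ) : ℝ) := by exact_mod_cast h2
  rw [Nat.cast_mul, Nat.cast_mul, Nat.cast_sub (by omega)] at this
  push_cast at this
  exact this

/-- One step of the second moment. -/
theorem step_sq (hn : 2 ≤ n) (d : Fin n → ℝ) (hd : ∑ l, d l = 0) :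
    ((pairs n).card : ENNReal)⁻¹ * ∑ p ∈ pairs n,
        ∫⁻ φ, ENNReal.ofReal (∑ l, updD p.1 p.2 φ d l ^ 2) ∂unifAngle =
      ENNReal.ofReal ((1 - (n + 2) / (4 * (pairs n).card)) * ∑ l, d l ^ 2) := by
  have hN : (0 : ℝ) < (pairs n).card := by exact_mod_cast pairs_card_pos hn
  have h1 : ∀ p ∈ pairs n, ∫⁻ φ, ENNReal.ofReal (∑ l, updD p.1 p.2 φ d l ^ 2) ∂unifAngle =
      ENNReal.ofReal (∑ l, d l ^ 2 - d p.1 ^ 2 - d p.2 ^ 2 + 3 / 4 * (d p.1 + d p.2) ^ 2) := by
    intro p hp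
    have hne := ne_of_mem_pairs hp
    rw [← integral_updD_sq hne d]
    simp only [updD_sq_eq hne d]
    refine lintegral_unifAngle (by fun_prop) (fun φ => by positivity)
      (C := (d p.1 + d p.2) ^ 2 * 1 + ∑ l ∈ (univ.erase p.1).erase p.2, d l ^ 2) fun φ => ?_
    have := cos_four_add φ
    gcongr
  rw [Finset.sum_congr rfl h1, ← ENNReal.ofReal_sum_of_nonneg, sum_pairs_sq d hd]
  · have e1 : ((pairs n).card : ENNReal) = ENNReal.ofReal (pairs n).card :=
      (ENNReal.ofReal_natCast _).symm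
    rw [e1, ← ENNReal.ofReal_inv_of_pos hN, ← ENNReal.ofReal_mul (inv_nonneg.2 hN.le)]
    congr 1
    field_simp
  · intro p hp
    have hne := ne_of_mem_pairs hp
    rw [sum_split hne (fun l => d l ^ 2)]
    have : 0 ≤ ∑ l ∈ (univ.erase p.1).erase p.2, d l ^ 2 := Finset.sum_nonneg fun _ _ => sq_nonneg _
    nlinarith [sq_nonneg (d p.1 + d p.2)]

theorem contr_bounds (hn : 2 ≤ n) :
    0 ≤ 1 - ((n : ℝ) + 2) / (4 * (pairs n).card) ∧
      1 - ((n : ℝ) + 2) / (4 * (pairs n).card) ≤ 1 - 1 / (2 * n) := by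
  have hN : (0 : ℝ) < (pairs n).card := by exact_mod_cast pairs_card_pos hn
  have h2 := card_pairs_real hn
  have hnR : (2 : ℝ) ≤ n := by exact_mod_cast hn
  have h3 : 4 * ((pairs n).card : ℝ) = 2 * (n * (n - 1)) := by linarith
  rw [h3]
  have hpos : (0 : ℝ) < 2 * (n * (n - 1)) := by
    have : (0 : ℝ) < n - 1 := by linarith
    have : (0 : ℝ) < n := by linarith
    positivity
  constructor
  · rw [sub_nonneg, div_le_one hpos]
    nlinarith
  · have : 1 / (2 * (n : ℝ)) ≤ (n + 2) / (2 * (n * (n - 1))) := by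
      rw [div_le_div_iff₀ (by linarith) hpos]
      nlinarith
    linarith

theorem measurable_sumsq : Measurable fun d : Fin n → ℝ => ENNReal.ofReal (∑ l, d l ^ 2) := by
  fun_prop

theorem second_pt (hn : 2 ≤ n) (d : Fin n → ℝ) (hd : ∑ i, d i = 0) :
    ((pairs n).card : ENNReal)⁻¹ * ∑ p ∈ pairs n,
        ∫⁻ φ, ENNReal.ofReal (∑ l, updD p.1 p.2 φ d l ^ 2) ∂unifAngle =
      ENNReal.ofReal (1 - (n + 2) / (4 * (pairs n).card)) * ENNReal.ofReal (∑ l, d l ^ 2) := by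
  rw [step_sq hn _ hd, ENNReal.ofReal_mul (contr_bounds hn).1]

theorem second_inner (hn : 2 ≤ n) (M : Mat n) (k : Fin n)
    (hM : ∀ᵐ g ∂(gam n), ∑ i, Dk M g k i = 0) :
    ∫⁻ g, ((pairs n).card : ENNReal)⁻¹ * ∑ p ∈ pairs n,
        ∫⁻ φ, ENNReal.ofReal (∑ l, updD p.1 p.2 φ (Dk M g k) l ^ 2) ∂unifAngle ∂(gam n) =
      ENNReal.ofReal (1 - (n + 2) / (4 * (pairs n).card)) *
        ∫⁻ g, ENNReal.ofReal (∑ l, Dk M g k l ^ 2) ∂(gam n) := by
  have hm2 : Measurable fun g : E n => ENNReal.ofReal (∑ l, Dk M g k l ^ 2) := by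
    have h := (measurable_Dk k).comp (measurable_prodMk_left (x := M) (β := E n))
    exact measurable_sumsq.comp h
  have h4 : (fun g : E n => ((pairs n).card : ENNReal)⁻¹ * ∑ p ∈ pairs n,
        ∫⁻ φ, ENNReal.ofReal (∑ l, updD p.1 p.2 φ (Dk M g k) l ^ 2) ∂unifAngle) =ᵐ[gam n] fun g =>
        ENNReal.ofReal (1 - (n + 2) / (4 * (pairs n).card)) *
        ENNReal.ofReal (∑ l, Dk M g k l ^ 2) := by
    filter_upwards [hM] with g hg
    exact second_pt hn _ hg
  rw [lintegral_congr_ae h4]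
  exact lintegral_const_mul _ hm2

/-- Exact evolution of the second moment. -/
theorem second_succ (hn : 2 ≤ n) (t : ℕ) (k : Fin n) :
    ∫⁻ M, ∫⁻ g, ENNReal.ofReal (∑ l, Dk M g k l ^ 2) ∂(gam n) ∂(lawM n (t + 1)) =
      ENNReal.ofReal (1 - (n + 2) / (4 * (pairs n).card)) *
        ∫⁻ M, ∫⁻ g, ENNReal.ofReal (∑ l, Dk M g k l ^ 2) ∂(gam n) ∂(lawM n t) := by
  have hm1 : Measurable fun p : Mat n × E n => ENNReal.ofReal (∑ l, Dk p.1 p.2 k l ^ 2) :=
    measurable_sumsq.comp (measurable_Dk k)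
  have hI : Measurable fun M : Mat n => ∫⁻ g, ENNReal.ofReal (∑ l, Dk M g k l ^ 2) ∂(gam n) :=
    hm1.lintegral_prod_right'
  have h1 := lintegral_Dk_succ t k measurable_sumsq
  rw [h1]
  rw [← lintegral_const_mul _ hI]
  refine lintegral_congr_ae ?_
  filter_upwards [ae_sum_Dk t k] with M hM
  exact second_inner hn M k hM

theorem second_zero (k : Fin n) :
    ∫⁻ M, ∫⁻ g, ENNReal.ofReal (∑ l, Dk M g k l ^ 2) ∂(gam n) ∂(lawM n 0) ≤ 2 := by
  have hm1 : Measurable fun p : Mat n × E n => ENNReal.ofReal (∑ l, Dk p.1 p.2 k l ^ 2) :=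
    measurable_sumsq.comp (measurable_Dk k)
  rw [lawM, lintegral_dirac' _ hm1.lintegral_prod_right']
  have hb : ∀ᵐ g ∂(gam n), ENNReal.ofReal (∑ l, Dk (idM n) g k l ^ 2) ≤ 2 := by
    filter_upwards [gam_ae_ne_all n] with g hg
    rw [Dk_id hg]
    have hS := sum_g_pos k hg
    set S := ∑ l, g l ^ 2 with hSdef
    have h2 : ENNReal.ofReal 2 = (2 : ENNReal) := by norm_num
    refine le_trans (ENNReal.ofReal_le_ofReal ?_) h2.le
    have hz : ∀ l, 0 ≤ g l ^ 2 / S := fun l => by positivity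
    have hzs : ∑ l, g l ^ 2 / S = 1 := by
      rw [← Finset.sum_div, div_self hS.ne']
    have hz1 : ∀ l, g l ^ 2 / S ≤ 1 := by
      intro l
      rw [← hzs]
      exact Finset.single_le_sum (f := fun l => g l ^ 2 / S) (fun l _ => hz l) (mem_univ l)
    calc ∑ l, ((if l = k then (1 : ℝ) else 0) - g l ^ 2 / S) ^ 2 ≤
        ∑ l, ((if l = k then (1 : ℝ) else 0) + g l ^ 2 / S) := by
          refine Finset.sum_le_sum fun l _ => ?_
          have := hz l
          have := hz1 l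
          split_ifs <;> nlinarith
      _ = 2 := by
          rw [Finset.sum_add_distrib, hzs]
          simp
          norm_num
  calc ∫⁻ g, ENNReal.ofReal (∑ l, Dk (idM n) g k l ^ 2) ∂(gam n) ≤ ∫⁻ _, 2 ∂(gam n) :=
        lintegral_mono_ae hb
    _ = 2 := by rw [lintegral_const, measure_univ, mul_one]

/-- The second moment at time `t`. -/
theorem second_moment (hn : 2 ≤ n) (t : ℕ) (k : Fin n) :
    ∫⁻ M, ∫⁻ g, ENNReal.ofReal (∑ l, Dk M g k l ^ 2) ∂(gam n) ∂(lawM n t) ≤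
      ENNReal.ofReal (2 * (1 - 1 / (2 * n)) ^ t) := by
  have hb := contr_bounds hn
  have h0 : (0 : ℝ) ≤ 1 - 1 / (2 * n) := hb.1.trans hb.2
  induction t with
  | zero => simpa using second_zero k
  | succ t ih =>
    rw [second_succ hn t k]
    calc _ ≤ ENNReal.ofReal (1 - 1 / (2 * n)) * ENNReal.ofReal (2 * (1 - 1 / (2 * n)) ^ t) := by
          exact mul_le_mul' (ENNReal.ofReal_le_ofReal hb.2) ih
      _ = _ := by
          rw [← ENNReal.ofReal_mul h0]
          congr 1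
          ring

end Pf31f09
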