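import Mathlib
import Pool.Agent.Lib.Pf31f09.Numeric

/-! Mixing time and cutoff: the definitional layer. -/

noncomputable section

namespace Pf31f09

open Finset MeasureTheory Filter Topology

/-- The mixing time at level `ε`: the least `t` such that the total variation distance to the
uniform measure is at most `ε` for every starting point on the sphere. -/
def tmix (n : ℕ) (ε : ℝ) : ℕ :=
  sInf {t : ℕ | ∀ x : E n, ‖x‖ = 1 → tv (law x t) (unifS n) ≤ ε}

/-- The upper bound hypothesis. -/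
def Upper : Prop := ∀ s : ℝ, cstar < s → ∀ ε : ℝ, 0 < ε → ∀ᶠ n : ℕ in atTop, ∃ t : ℕ,
  (t : ℝ) ≤ s * n * Real.log n ∧ ∀ x : E n, ‖x‖ = 1 → tv (law x t) (unifS n) ≤ ε

theorem nlogn_pos {n : ℕ} (hn : 2 ≤ n) : 0 < (n : ℝ) * Real.log n := by
  have h1 : (1 : ℝ) < n := by exact_mod_cast hn
  have := Real.log_pos h1
  positivity

theorem tmix_le (HU : Upper) {s : ℝ} (hs : cstar < s) {ε : ℝ} (hε : 0 < ε) :
    ∀ᶠ n : ℕ in atTop, (tmix n ε : ℝ) ≤ s * n * Real.log n := by
  filter_upwards [HU s hs ε hε] with n hn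
  obtain ⟨t, ht, h⟩ := hn
  have : tmix n ε ≤ t := Nat.sInf_le h
  have : (tmix n ε : ℝ) ≤ t := by exact_mod_cast this
  linarith

theorem lt_tmix (HU : Upper) {c : ℝ} (hc : c < cstar) {ε : ℝ} (hε : 0 < ε) (hε1 : ε < 1) :
    ∀ᶠ n : ℕ in atTop, c * n * Real.log n < tmix n ε := by
  filter_upwards [HU (cstar + 1) (by linarith) ε hε, lower_cstar hc hε1] with n h1 h2
  obtain ⟨t, _, ht⟩ := h1
  have hmem : tmix n ε ∈ {t : ℕ | ∀ x : E n, ‖x‖ = 1 → tv (law x t) (unifS n) ≤ ε} :=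
    Nat.sInf_mem ⟨t, ht⟩
  by_contra hcon
  obtain ⟨x, hx, hx2⟩ := h2 _ (not_lt.1 hcon)
  exact absurd (hmem x hx) (not_le.2 hx2)

theorem tmix_tendsto (HU : Upper) {ε : ℝ} (hε : 0 < ε) (hε1 : ε < 1) :
    Tendsto (fun n : ℕ => (tmix n ε : ℝ) / (n * Real.log n)) atTop (𝓝 cstar) := by
  rw [tendsto_order]
  constructor
  · intro a ha
    filter_upwards [lt_tmix HU ha hε hε1, eventually_ge_atTop 2] with n hn hn2
    rw [lt_div_iff₀ (nlogn_pos hn2)]
    linarith
  · intro b hb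
    obtain ⟨s, hs1, hs2⟩ := exists_between hb
    filter_upwards [tmix_le HU hs1 hε, eventually_ge_atTop 2] with n hn hn2
    rw [div_lt_iff₀ (nlogn_pos hn2)]
    have := nlogn_pos hn2
    nlinarith

theorem tmix_ratio (HU : Upper) {ε : ℝ} (hε : 0 < ε) (hε1 : ε < 1) :
    Tendsto (fun n : ℕ => (tmix n ε : ℝ) / tmix n (1 / 4)) atTop (𝓝 1) := by
  have hc : cstar ≠ 0 := by
    have := cstar_ge
    norm_num at this
    linarith
  have h1 := tmix_tendsto HU hε hε1
  have h2 := tmix_tendsto HU (ε := 1 / 4) (by norm_num) (by norm_num)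
  have h3 := h1.div h2 hc
  rw [div_self hc] at h3
  refine h3.congr' ?_
  filter_upwards [eventually_ge_atTop 2] with n hn
  have := (nlogn_pos hn).ne'
  simp only [Pi.div_apply]
  rw [div_div_div_cancel_right₀ this]

end Pf31f09
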