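import Pool.Agent.Lib.Pf31f09.UTv
import Pool.Agent.Lib.Pf31f09.UTmix

/-!
The asymptotic step: the moment bounds imply the upper bound for the mixing time.
-/

open MeasureTheory ProbabilityTheory Finset Filter Topology

noncomputable section

namespace Pf31f09

/-- The moment bounds. -/
def MomHyp : Prop := ∀ s : ℝ, cstar < s → ∃ q : ℝ, 1 < q ∧ ∃ δ : ℝ, 0 < δ ∧ ∃ C : ℝ,
  ∀ᶠ n : ℕ in atTop, ∃ t : ℕ, (t : ℝ) ≤ s * n * Real.log n ∧ (n : ℝ) * Real.log n ≤ t ∧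
    (∀ k : Fin n, ∫ M, ∑ i, |rr k M i| ^ q ∂(lawM n t) ≤ C * (n : ℝ) ^ (-δ)) ∧
    (∀ k : Fin n, ∫ M, ∑ i, rr k M i ^ 2 ∂(lawM n t) ≤ C * (n : ℝ) ^ (9 / 40 - δ))

theorem tendsto_rpow_neg_nat' {γ : ℝ} (hγ : 0 < γ) :
    Tendsto (fun n : ℕ => (n : ℝ) ^ (-γ)) atTop (𝓝 0) := by
  have := tendsto_rpow_neg_nat hγ 1
  simpa using this

/-- The error term. -/
def Gerr (q δ C : ℝ) (n : ℕ) : ℝ :=
  1 / n + (2 * (8 / n + 112 * (C * (n:ℝ) ^ (9 / 40 - δ)) / n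
      + 8 * √((C * (n:ℝ) ^ (9 / 40 - δ)) / n)) + 2 ^ (q + 1) * (C * (n:ℝ) ^ (-δ))
    + 6 * (((n:ℝ) ^ (-(δ / (2 * (q - 1))))) ^ (1 - q) * (C * (n:ℝ) ^ (-δ))
      + (C * (n:ℝ) ^ (9 / 40 - δ)) / √((n:ℝ) ^ (9 / 20 : ℝ)))
    + √(Real.exp (8 * ((n:ℝ) ^ (-(δ / (2 * (q - 1))))) ^ 2
      + ((n:ℝ) ^ (9 / 20 : ℝ)) ^ 2 / ((n:ℝ) - 1)) - 1))

theorem Gerr_tendsto {q δ C : ℝ} (hq : 1 < q) (hδ : 0 < δ) :
    Tendsto (Gerr q δ C) atTop (𝓝 0) := by
  have hq1 : 0 < q - 1 := by linarith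
  have p1 : Tendsto (fun n : ℕ => (1:ℝ) / n) atTop (𝓝 0) := tendsto_const_div_atTop_nhds_zero_nat 1
  have p2 : Tendsto (fun n : ℕ => (8:ℝ) / n) atTop (𝓝 0) := tendsto_const_div_atTop_nhds_zero_nat 8
  have hpos : ∀ᶠ n : ℕ in atTop, (0:ℝ) < n := by
    filter_upwards [eventually_gt_atTop 0] with n hn
    exact_mod_cast hn
  have p3a : Tendsto (fun n : ℕ => C * (n:ℝ) ^ (9 / 40 - δ) / n) atTop (𝓝 0) := by
    have h := (tendsto_rpow_neg_nat' (γ := 31 / 40 + δ) (by linarith)).const_mul C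
    rw [mul_zero] at h
    refine h.congr' ?_
    filter_upwards [hpos] with n hn
    rw [show -(31 / 40 + δ) = (9 / 40 - δ) - 1 by ring, Real.rpow_sub_one hn.ne']
    ring
  have p3 : Tendsto (fun n : ℕ => 112 * (C * (n:ℝ) ^ (9 / 40 - δ)) / n) atTop (𝓝 0) := by
    have h := p3a.const_mul 112
    rw [mul_zero] at h
    refine h.congr fun n => ?_
    ring
  have p4 : Tendsto (fun n : ℕ => 8 * √((C * (n:ℝ) ^ (9 / 40 - δ)) / n)) atTop (𝓝 0) := by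
    have h := (p3a.sqrt).const_mul 8
    rwa [Real.sqrt_zero, mul_zero] at h
  have p5 : Tendsto (fun n : ℕ => (2:ℝ) ^ (q + 1) * (C * (n:ℝ) ^ (-δ))) atTop (𝓝 0) := by
    have h := ((tendsto_rpow_neg_nat' hδ).const_mul C).const_mul ((2:ℝ) ^ (q + 1))
    rwa [mul_zero, mul_zero] at h
  have p6 : Tendsto (fun n : ℕ => ((n:ℝ) ^ (-(δ / (2 * (q - 1))))) ^ (1 - q)
      * (C * (n:ℝ) ^ (-δ))) atTop (𝓝 0) := by
    have h := (tendsto_rpow_neg_nat' (γ := δ / 2) (by linarith)).const_mul C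
    rw [mul_zero] at h
    refine h.congr' ?_
    filter_upwards [hpos] with n hn
    rw [← Real.rpow_mul hn.le]
    have e : -(δ / (2 * (q - 1))) * (1 - q) = δ / 2 := by
      field_simp
      ring
    rw [e, mul_left_comm, ← Real.rpow_add hn]
    congr 2
    ring
  have p7 : Tendsto (fun n : ℕ => (C * (n:ℝ) ^ (9 / 40 - δ)) / √((n:ℝ) ^ (9 / 20 : ℝ)))
      atTop (𝓝 0) := by
    have h := (tendsto_rpow_neg_nat' hδ).const_mul C
    rw [mul_zero] at h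
    refine h.congr' ?_
    filter_upwards [hpos] with n hn
    rw [Real.sqrt_eq_rpow, ← Real.rpow_mul hn.le, mul_div_assoc, ← Real.rpow_sub hn]
    congr 2
    ring
  have p8a : Tendsto (fun n : ℕ => 8 * ((n:ℝ) ^ (-(δ / (2 * (q - 1))))) ^ 2) atTop (𝓝 0) := by
    have h := ((tendsto_rpow_neg_nat' (γ := δ / (2 * (q - 1))) (by positivity)).pow 2).const_mul 8
    simpa using h
  have p8b : Tendsto (fun n : ℕ => ((n:ℝ) ^ (9 / 20 : ℝ)) ^ 2 / ((n:ℝ) - 1)) atTop (𝓝 0) := by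
    have h := (tendsto_rpow_neg_nat' (γ := 1 / 10) (by norm_num)).const_mul 2
    rw [mul_zero] at h
    refine squeeze_zero' ?_ ?_ h
    · filter_upwards [eventually_ge_atTop 2] with n hn
      have : (2:ℝ) ≤ n := by exact_mod_cast hn
      exact div_nonneg (by positivity) (by linarith)
    · filter_upwards [eventually_ge_atTop 2] with n hn
      have h2 : (2:ℝ) ≤ n := by exact_mod_cast hn
      have h0 : (0:ℝ) < n := by linarith
      rw [div_le_iff₀ (by linarith), ← Real.rpow_natCast, ← Real.rpow_mul h0.le]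
      have e : (n:ℝ) ^ ((9 / 20 : ℝ) * ((2:ℕ):ℝ)) = (n:ℝ) ^ (-(1/10) : ℝ) * n := by
        rw [← Real.rpow_add_one h0.ne']
        congr 1
        norm_num
      rw [e]
      have h3 : 0 < (n:ℝ) ^ (-(1/10) : ℝ) := Real.rpow_pos_of_pos h0 _
      nlinarith
  have p8 : Tendsto (fun n : ℕ => √(Real.exp (8 * ((n:ℝ) ^ (-(δ / (2 * (q - 1))))) ^ 2
      + ((n:ℝ) ^ (9 / 20 : ℝ)) ^ 2 / ((n:ℝ) - 1)) - 1)) atTop (𝓝 0) := by
    have h := (((p8a.add p8b).rexp).sub_const 1).sqrt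
    simpa using h
  have hall := p1.add ((((((p2.add p3).add p4).const_mul 2).add p5).add
    ((p6.add p7).const_mul 6)).add p8)
  simp only [add_zero, mul_zero] at hall
  exact hall

theorem upper_of_mom (H : MomHyp) : Upper := by
  intro s hs ε hε
  obtain ⟨q, hq, δ, hδ, C, hC⟩ := H s hs
  have hG := Gerr_tendsto (C := C) hq hδ
  have hsmall : ∀ᶠ n : ℕ in atTop, Gerr q δ C n ≤ ε := hG.eventually_le_const hε
  have hρ : ∀ᶠ n : ℕ in atTop, (n:ℝ) ^ (-(δ / (2 * (q - 1)))) ≤ 1 / 4 :=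
    (tendsto_rpow_neg_nat' (γ := δ / (2 * (q - 1)))
      (div_pos hδ (by linarith))).eventually_le_const (by norm_num)
  filter_upwards [hC, hsmall, hρ, eventually_ge_atTop 2] with n hn h1 h2 hn2
  obtain ⟨t, ht1, ht2, hε', hV'⟩ := hn
  refine ⟨t, ht1, fun x hx => ?_⟩
  have h2n : (2:ℝ) ≤ n := by exact_mod_cast hn2
  have h0 : (0:ℝ) < n := by linarith
  have hb := tv_bound hn2 hx t hq.le hε' hV' (Real.rpow_pos_of_pos h0 _) h2
    (R := (n:ℝ) ^ (9 / 20 : ℝ)) (Real.rpow_pos_of_pos h0 _)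
  refine hb.trans (le_trans ?_ h1)
  unfold Gerr
  have h3 : (n:ℝ) * (1 - 2 / n) ^ t ≤ 1 / n := by
    have h4 : (1:ℝ) - 2 / n ≤ Real.exp (-(2 / n)) := by
      have := Real.add_one_le_exp (-(2 / (n:ℝ)))
      linarith
    have h5 : (0:ℝ) ≤ 1 - 2 / n := by
      rw [sub_nonneg, div_le_one h0]
      exact h2n
    have h6 : ((1:ℝ) - 2 / n) ^ t ≤ Real.exp (-(2 / n)) ^ t := pow_le_pow_left₀ h5 h4 t
    have h7 : Real.exp (-(2 / (n:ℝ))) ^ t ≤ ((n:ℝ) ^ 2)⁻¹ := by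
      rw [← Real.exp_nat_mul]
      have h8 : (t:ℝ) * -(2 / n) ≤ -(2 * Real.log n) := by
        have : (t:ℝ) * (2 / n) ≥ (n * Real.log n) * (2 / n) :=
          mul_le_mul_of_nonneg_right ht2 (by positivity)
        have e : (n * Real.log n) * (2 / (n:ℝ)) = 2 * Real.log n := by field_simp
        linarith
      refine (Real.exp_le_exp.2 h8).trans (le_of_eq ?_)
      rw [Real.exp_neg, two_mul, Real.exp_add, Real.exp_log h0, sq]
    calc (n:ℝ) * (1 - 2 / n) ^ t ≤ n * ((n:ℝ) ^ 2)⁻¹ :=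
          mul_le_mul_of_nonneg_left (h6.trans h7) h0.le
      _ = 1 / n := by field_simp
  linarith

end Pf31f09
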