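import Mathlib
import Pool.Agent.Lib.Pf31f09.Tpos
import Pool.Agent.Lib.Pf31f09.JacTV

/-! From the mixture representation to Gaussian vectors on `Fin n → ℝ`. -/

noncomputable section

namespace Pf31f09

open Finset MeasureTheory ProbabilityTheory Filter

variable {n : ℕ}

/-- The radial density of the standard Gaussian. -/
def phiR (n : ℕ) (r : ℝ) : ℝ := (Real.sqrt (2 * Real.pi))⁻¹ ^ n * Real.exp (-(r ^ 2 / 2))

theorem norm_sq_E (x : E n) : ‖x‖ ^ 2 = ∑ k, x k ^ 2 := by
  rw [EuclideanSpace.norm_sq_eq]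
  simp [Real.norm_eq_abs, sq_abs]

theorem psi_eq (x : E n) : psi (WithLp.ofLp x) = phiR n ‖x‖ := by
  unfold psi phiR gaussianPDFReal
  rw [norm_sq_E, Finset.prod_mul_distrib, Finset.prod_const, Finset.card_univ, Fintype.card_fin,
    ← Real.exp_sum]
  congr 2
  · simp
  · rw [← Finset.sum_div]
    simp only [sub_zero, Finset.sum_neg_distrib, NNReal.coe_one, mul_one, neg_div]

theorem lintegral_gam_pi {F : E n → ENNReal} (hF : Measurable F) :
    ∫⁻ g, F g ∂(gam n) = ∫⁻ y, F (WithLp.toLp 2 y) ∂(gpi (Fin n)) := by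
  rw [gam, ← map_pi_eq_stdGaussian, lintegral_map hF (by fun_prop)]

theorem measurable_phiR : Measurable (phiR n) := by
  unfold phiR
  fun_prop

theorem lintegral_gam_vol {F : E n → ENNReal} (hF : Measurable F) :
    ∫⁻ g, F g ∂(gam n) = ∫⁻ x, ENNReal.ofReal (phiR n ‖x‖) * F x ∂(volume : Measure (E n)) := by
  rw [lintegral_gam_pi hF, gpi_eq]
  have hFt : Measurable fun y : Fin n → ℝ => F (WithLp.toLp 2 y) := hF.comp (by fun_prop)
  rw [lintegral_withDensity_eq_lintegral_mul _ (measurable_psi.ennreal_ofReal) hFt]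
  have h := (PiLp.volume_preserving_toLp (Fin n)).lintegral_comp
    (f := fun x : E n => ENNReal.ofReal (phiR n ‖x‖) * F x)
    ((measurable_phiR.comp measurable_norm).ennreal_ofReal.mul hF)
  rw [← h]
  refine lintegral_congr fun y => ?_
  simp only [Pi.mul_apply]
  rw [← psi_eq]

theorem measurable_dir : Measurable fun g : E n => ‖g‖⁻¹ • g :=
  measurable_norm.inv.smul measurable_id

theorem gam_dir_aux (hn : 1 ≤ n) {A : Set (E n)} (hA : MeasurableSet A) :
    gam n {g | ‖g‖⁻¹ • g ∈ A} = ((volume : Measure (E n)).toSphere.map Subtype.val) A *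
      ∫⁻ r, ENNReal.ofReal (phiR n (r : ℝ))
        ∂(Measure.volumeIoiPow (Module.finrank ℝ (E n) - 1)) := by
  have : Nonempty (Fin n) := ⟨⟨0, by omega⟩⟩
  have hS : MeasurableSet {g : E n | ‖g‖⁻¹ • g ∈ A} := measurable_dir hA
  have hAm : Measurable (A.indicator (1 : E n → ENNReal)) := measurable_one.indicator hA
  have e1 : gam n {g | ‖g‖⁻¹ • g ∈ A} = ∫⁻ g, A.indicator 1 (‖g‖⁻¹ • g) ∂(gam n) := by
    rw [← lintegral_indicator_one hS]
    rfl
  have hAd : Measurable fun g : E n => A.indicator (1 : E n → ENNReal) (‖g‖⁻¹ • g) :=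
    hAm.comp measurable_dir
  rw [e1, lintegral_gam_vol hAd]
  have e2 : ∫⁻ x, ENNReal.ofReal (phiR n ‖x‖) * A.indicator 1 (‖x‖⁻¹ • x)
      ∂(volume : Measure (E n)) = ∫⁻ x in ({0}ᶜ : Set (E n)), ENNReal.ofReal (phiR n ‖x‖) *
        A.indicator 1 (‖x‖⁻¹ • x) ∂(volume : Measure (E n)) := by
    rw [restrict_compl_singleton]
  rw [e2, ← lintegral_subtype_comap (measurableSet_singleton (0 : E n)).compl]
  have hg : Measurable fun p : Metric.sphere (0 : E n) 1 × Set.Ioi (0 : ℝ) =>
      A.indicator (1 : E n → ENNReal) (p.1 : E n) * ENNReal.ofReal (phiR n (p.2 : ℝ)) := by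
    refine Measurable.mul (hAm.comp (measurable_subtype_coe.comp measurable_fst)) ?_
    exact (measurable_phiR.comp (measurable_subtype_coe.comp measurable_snd)).ennreal_ofReal
  have h := (Measure.measurePreserving_homeomorphUnitSphereProd
    (volume : Measure (E n))).lintegral_comp hg
  have e3 : ∀ x : ({0}ᶜ : Set (E n)), ENNReal.ofReal (phiR n ‖(x : E n)‖) *
      A.indicator 1 (‖(x : E n)‖⁻¹ • (x : E n)) =
      A.indicator (1 : E n → ENNReal) ((homeomorphUnitSphereProd (E n) x).1 : E n) *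
        ENNReal.ofReal (phiR n ((homeomorphUnitSphereProd (E n) x).2 : ℝ)) := by
    intro x
    rw [homeomorphUnitSphereProd_apply_snd_coe, homeomorphUnitSphereProd_apply_fst_coe, mul_comm]
  rw [lintegral_congr e3, h]
  have hf1 : Measurable fun u : Metric.sphere (0 : E n) 1 =>
      A.indicator (1 : E n → ENNReal) (u : E n) := hAm.comp measurable_subtype_coe
  have hf2 : Measurable fun r : Set.Ioi (0 : ℝ) => ENNReal.ofReal (phiR n (r : ℝ)) :=
    (measurable_phiR.comp measurable_subtype_coe).ennreal_ofReal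
  have h5 := lintegral_prod_mul (μ := (volume : Measure (E n)).toSphere)
    (ν := Measure.volumeIoiPow (Module.finrank ℝ (E n) - 1)) hf1.aemeasurable hf2.aemeasurable
  refine h5.trans ?_
  congr 1
  rw [Measure.map_apply measurable_subtype_coe hA,
    ← lintegral_indicator_one (measurable_subtype_coe hA)]
  rfl

/-- The direction of a standard Gaussian vector is uniform. -/
theorem gam_dir (hn : 1 ≤ n) : (gam n).map (fun g => ‖g‖⁻¹ • g) = unifS n := by
  refine Measure.ext fun A hA => ?_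
  rw [Measure.map_apply measurable_dir hA]
  have h1 := gam_dir_aux hn hA
  have h2 := gam_dir_aux hn (A := (Set.univ : Set (E n))) MeasurableSet.univ
  simp only [Set.mem_univ, Set.ofPred_true, measure_univ] at h2
  rw [Measure.map_apply measurable_subtype_coe MeasurableSet.univ, Set.preimage_univ] at h2
  have h3 := ENNReal.eq_inv_of_mul_eq_one_left (a := ∫⁻ r, ENNReal.ofReal (phiR n (r : ℝ))
        ∂(Measure.volumeIoiPow (Module.finrank ℝ (E n) - 1))) (b := (volume : Measure (E n)).toSphere Set.univ)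
    (by rw [mul_comm]; exact h2.symm)
  change gam n {g | ‖g‖⁻¹ • g ∈ A} = _
  rw [h1, h3, unifS, Measure.smul_apply, smul_eq_mul, mul_comm]

/-- The matrix normalised to have column means one, with the type as first index. -/
def bT (M : Mat n) (k i : Fin n) : ℝ := M i k / ((∑ l, M l k) / n)

/-- The indicator of a set of directions. -/
def dirF (A : Set (E n)) (y : Fin n → ℝ) : ℝ :=
  A.indicator (fun _ => (1 : ℝ)) (‖(WithLp.toLp 2 y : E n)‖⁻¹ • (WithLp.toLp 2 y : E n))

theorem measurable_dirF {A : Set (E n)} (hA : MeasurableSet A) : Measurable (dirF A) := by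
  have h1 : Measurable (A.indicator (fun _ => (1 : ℝ))) := measurable_const.indicator hA
  have h2 : Measurable fun y : Fin n → ℝ => (WithLp.toLp 2 y : E n) := by fun_prop
  exact h1.comp (measurable_dir.comp h2)

theorem dirF_bdd (A : Set (E n)) (y : Fin n → ℝ) : 0 ≤ dirF A y ∧ dirF A y ≤ 1 := by
  unfold dirF
  by_cases h : (‖(WithLp.toLp 2 y : E n)‖⁻¹ • (WithLp.toLp 2 y : E n)) ∈ A
  · rw [Set.indicator_of_mem h]
    norm_num
  · rw [Set.indicator_of_notMem h]
    norm_num

theorem dirF_abs (A : Set (E n)) (y : Fin n → ℝ) : |dirF A y| ≤ 1 := by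
  have := dirF_bdd A y
  rw [abs_of_nonneg this.1]
  exact this.2

theorem lamJ_eq {M : Mat n} {g : E n} (w : Fin n → ℝ) (hk : ∀ k, 0 < ∑ i, M i k) (hn : 1 ≤ n)
    (i : Fin n) : lamJ w (bT M) (WithLp.ofLp g) i = ‖g‖ ^ 2 * lamM w M g i := by
  unfold lamJ lamM en1
  rw [norm_sq_E]
  congr 1
  refine Finset.sum_congr rfl fun k _ => ?_
  congr 1
  have hn0 : (0 : ℝ) < n := by exact_mod_cast hn
  have hm : 0 < (∑ l, M l k) / n := div_pos (hk k) hn0
  have he : en (bT M k) (WithLp.ofLp g) = cM M g k / ((∑ l, M l k) / n) := by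
    unfold en cM bT
    rw [Finset.sum_div univ (fun j => M j k * g j ^ 2) ((∑ l, M l k) / n)]
    refine Finset.sum_congr rfl fun j _ => ?_
    ring
  rw [he]
  unfold bT
  rw [div_div_div_cancel_right₀ hm.ne']

theorem norm_Wf {x : E n} (hx : ‖x‖ = 1) {M : Mat n} (hM : Nonneg M) {g : E n}
    (hc : ∀ k, cM M g k ≠ 0) : ‖Wf x M g‖ = 1 := by
  have h1 : ‖Wf x M g‖ ^ 2 = 1 := by
    rw [norm_sq_E]
    have h2 : ∀ i, Wf x M g i ^ 2 = ∑ k, x k ^ 2 * (M i k * g i ^ 2 / cM M g k) := by
      intro i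
      rw [Wf_apply, mul_pow, Real.sq_sqrt (lamM_nonneg hM (fun k => sq_nonneg _) g i)]
      unfold lamM
      rw [Finset.mul_sum]
      refine Finset.sum_congr rfl fun k _ => ?_
      ring
    simp only [h2]
    rw [Finset.sum_comm]
    have h3 : ∀ k : Fin n, ∑ i : Fin n, x k ^ 2 * (M i k * g i ^ 2 / cM M g k) = x k ^ 2 := by
      intro k
      rw [← Finset.mul_sum, ← Finset.sum_div]
      change x k ^ 2 * (cM M g k / cM M g k) = x k ^ 2
      rw [div_self (hc k), mul_one]
    rw [Finset.sum_congr rfl fun k _ => h3 k, ← norm_sq_E, hx, one_pow]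
  nlinarith [norm_nonneg (Wf x M g)]

theorem Th_dir {x : E n} (hx : ‖x‖ = 1) {M : Mat n} (hM : Nonneg M) {g : E n}
    (hk : ∀ k, 0 < ∑ i, M i k) (hc : ∀ k, cM M g k ≠ 0) (hn : 1 ≤ n) (hg : g ≠ 0)
    (A : Set (E n)) :
    dirF A (Th (fun k => x k ^ 2) (bT M) (WithLp.ofLp g)) =
      A.indicator (fun _ => (1 : ℝ)) (Wf x M g) := by
  unfold dirF
  congr 1
  have e1 : (WithLp.toLp 2 (Th (fun k => x k ^ 2) (bT M) (WithLp.ofLp g)) : E n) =
      ‖g‖ • Wf x M g := by
    ext i
    change Th (fun k => x k ^ 2) (bT M) (WithLp.ofLp g) i = ‖g‖ • Wf x M g i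
    unfold Th
    rw [lamJ_eq _ hk hn, Wf_apply, Real.sqrt_mul (sq_nonneg _), Real.sqrt_sq (norm_nonneg _),
      smul_eq_mul]
    ring
  have hgn : ‖g‖ ≠ 0 := norm_ne_zero_iff.2 hg
  rw [e1, norm_smul, norm_Wf hx hM hc, mul_one, norm_norm, smul_smul, inv_mul_cancel₀ hgn,
    one_smul]

theorem integral_gam_pi {F : E n → ℝ} (hF : Measurable F) :
    ∫ g, F g ∂(gam n) = ∫ y, F (WithLp.toLp 2 y) ∂(gpi (Fin n)) := by
  rw [gam, ← map_pi_eq_stdGaussian, integral_map (by fun_prop)
    hF.stronglyMeasurable.aestronglyMeasurable]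

theorem unifS_real (hn : 1 ≤ n) {A : Set (E n)} (hA : MeasurableSet A) :
    (unifS n).real A = ∫ y, dirF A y ∂(gpi (Fin n)) := by
  have h1 : Measurable (A.indicator (fun _ => (1 : ℝ))) := measurable_const.indicator hA
  have h2 := integral_gam_pi (F := fun g : E n => A.indicator (fun _ => (1 : ℝ)) (‖g‖⁻¹ • g))
    (h1.comp measurable_dir)
  change _ = ∫ y, A.indicator (fun _ => (1 : ℝ)) (‖(WithLp.toLp 2 y : E n)‖⁻¹ •
    (WithLp.toLp 2 y : E n)) ∂(gpi (Fin n))
  rw [← h2, ← integral_map measurable_dir.aemeasurable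
    h1.stronglyMeasurable.aestronglyMeasurable, gam_dir hn]
  exact (integral_indicator_one hA).symm

theorem mixLaw_real (hn : 2 ≤ n) {x : E n} (hx : ‖x‖ = 1) (t : ℕ) {A : Set (E n)}
    (hA : MeasurableSet A) : (mixLaw x t).real A =
      ∫ M, ∫ y, dirF A (Th (fun k => x k ^ 2) (bT M) y) ∂(gpi (Fin n)) ∂(lawM n t) := by
  have := isProb_lawM hn t
  have := isProb_mixLaw hn x t
  have h1 : Measurable (A.indicator (fun _ => (1 : ℝ))) := measurable_const.indicator hA
  have hp : Measurable fun p : Mat n × E n => A.indicator (fun _ => (1 : ℝ)) (Wf x p.1 p.2) :=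
    h1.comp (measurable_Wf x)
  have hi : Integrable (fun p : Mat n × E n => A.indicator (fun _ => (1 : ℝ)) (Wf x p.1 p.2))
      ((lawM n t).prod (gam n)) := by
    refine Integrable.of_bound hp.aestronglyMeasurable 1 (Eventually.of_forall fun p => ?_)
    rw [Real.norm_eq_abs]
    by_cases h : Wf x p.1 p.2 ∈ A
    · rw [Set.indicator_of_mem h]; norm_num
    · rw [Set.indicator_of_notMem h]; norm_num
  have e1 : (mixLaw x t).real A = ∫ p, A.indicator (fun _ => (1 : ℝ)) (Wf x p.1 p.2)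
      ∂((lawM n t).prod (gam n)) := by
    rw [← integral_indicator_one hA, mixLaw, integral_map (measurable_Wf x).aemeasurable
      (measurable_one.indicator hA).stronglyMeasurable.aestronglyMeasurable]
    rfl
  rw [e1, integral_prod _ hi]
  refine integral_congr_ae ?_
  filter_upwards [lawM_cols t] with M hM
  have hFm : Measurable fun g : E n =>
      dirF A (Th (fun k => x k ^ 2) (bT M) (WithLp.ofLp g)) :=
    (measurable_dirF hA).comp ((measurable_Th _ _).comp (by fun_prop))
  have e2 := integral_gam_pi hFm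
  have e3 : ∫ g, A.indicator (fun _ => (1 : ℝ)) (Wf x M g) ∂(gam n) =
      ∫ g, dirF A (Th (fun k => x k ^ 2) (bT M) (WithLp.ofLp g)) ∂(gam n) := by
    refine integral_congr_ae ?_
    filter_upwards [gam_ae_ne_all n] with g hg
    have hg0 : g ≠ 0 := by
      rintro rfl
      exact hg ⟨0, by omega⟩ rfl
    exact (Th_dir hx hM.1 hM.2 (fun k => (cM_pos hM.1 (hM.2 k) hg).ne') (by omega) hg0 A).symm
  exact e3.trans e2

/-- The bridge: it remains to compare Gaussian functionals. -/
theorem bridge (hn : 2 ≤ n) {x : E n} (hx : ‖x‖ = 1) (t : ℕ) {A : Set (E n)}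
    (hA : MeasurableSet A) :
    |(law x t).real A - (unifS n).real A| ≤ n * (1 - 2 / n) ^ t +
      |∫ M, ∫ y, dirF A (Th (fun k => x k ^ 2) (bT M) y) ∂(gpi (Fin n)) ∂(lawM n t) -
        ∫ y, dirF A y ∂(gpi (Fin n))| := by
  rw [← mixLaw_real hn hx t hA, ← unifS_real (by omega) hA]
  have h := law_close hn x t hA
  calc |(law x t).real A - (unifS n).real A| =
      |((law x t).real A - (mixLaw x t).real A) + ((mixLaw x t).real A - (unifS n).real A)| := by
        congr 1; ring
    _ ≤ _ := (abs_add_le _ _).trans (by linarith)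

end Pf31f09
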