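import Pool.Agent.Lib.Pf31f09.JacEst
import Pool.Agent.Lib.Pf31f09.GMix

/-!
Combination of the Jacobian lemma, truncation and the exchangeable mixture bound.
-/

open MeasureTheory ProbabilityTheory Finset

noncomputable section

namespace Pf31f09

/-- Hard truncation. -/
def hth (ρ x : ℝ) : ℝ := if |x| ≤ ρ then x else 0

theorem measurable_hth (ρ : ℝ) : Measurable (hth ρ) := by
  unfold hth
  exact Measurable.ite (measurableSet_le (by fun_prop) measurable_const) measurable_id
    measurable_const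

theorem hth_abs {ρ : ℝ} (hρ : 0 ≤ ρ) (x : ℝ) : |hth ρ x| ≤ ρ := by
  unfold hth
  split_ifs with h
  · exact h
  · simpa using hρ

theorem hth_sq_le (ρ x : ℝ) : hth ρ x ^ 2 ≤ x ^ 2 := by
  unfold hth
  split_ifs with h
  · exact le_rfl
  · simpa using sq_nonneg x

theorem sub_hth_abs {ρ q : ℝ} (hρ : 0 < ρ) (hq : 1 ≤ q) (x : ℝ) :
    |x - hth ρ x| ≤ ρ ^ (1 - q) * |x| ^ q := by
  unfold hth
  split_ifs with h
  · simp only [sub_self, abs_zero]
    positivity
  · push Not at h
    have hx : 0 < |x| := hρ.trans h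
    rw [sub_zero]
    calc |x| = |x| ^ (1 - q) * |x| ^ q := by
          rw [← Real.rpow_add hx]; simp
      _ ≤ ρ ^ (1 - q) * |x| ^ q := by
          refine mul_le_mul_of_nonneg_right ?_ (by positivity)
          exact Real.rpow_le_rpow_of_nonpos hρ h.le (by linarith)

variable {n : ℕ}

/-- Truncation, recentering, and cut-off of the energy. -/
def trc (ρ R : ℝ) (r : Fin n → ℝ) : Fin n → ℝ := fun i =>
  if ∑ j, r j ^ 2 ≤ R then hth ρ (r i) - (∑ j, hth ρ (r j)) / n else 0

theorem measurable_trc (ρ R : ℝ) : Measurable (trc ρ R : (Fin n → ℝ) → (Fin n → ℝ)) := by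
  refine measurable_pi_lambda _ fun i => ?_
  unfold trc
  refine Measurable.ite (measurableSet_le (by fun_prop) measurable_const) ?_ measurable_const
  exact ((measurable_hth ρ).comp (measurable_pi_apply i)).sub
    ((Finset.measurable_sum _ fun j _ => (measurable_hth ρ).comp (measurable_pi_apply j)).div_const _)

theorem trc_perm (ρ R : ℝ) (r : Fin n → ℝ) (σ : Equiv.Perm (Fin n)) :
    trc ρ R (fun i => r (σ i)) = fun i => trc ρ R r (σ i) := by
  funext i
  unfold trc
  rw [Equiv.sum_comp σ (fun j => r j ^ 2), Equiv.sum_comp σ (fun j => hth ρ (r j))]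

theorem trc_abs {ρ : ℝ} (hρ : 0 ≤ ρ) (R : ℝ) (r : Fin n → ℝ) (i : Fin n) :
    |trc ρ R r i| ≤ 2 * ρ := by
  have hn : (0:ℝ) < n := by
    have : 0 < n := Fin.pos i
    exact_mod_cast this
  unfold trc
  split_ifs
  · have h1 := hth_abs hρ (r i)
    have h2 : |(∑ j, hth ρ (r j)) / n| ≤ ρ := by
      rw [abs_div, abs_of_pos hn, div_le_iff₀ hn]
      refine (Finset.abs_sum_le_sum_abs _ _).trans ?_
      have : ∑ j : Fin n, |hth ρ (r j)| ≤ ∑ _j : Fin n, ρ :=
        Finset.sum_le_sum fun j _ => hth_abs hρ _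
      simp only [Finset.sum_const, Finset.card_univ, Fintype.card_fin, nsmul_eq_mul] at this
      linarith
    refine (abs_sub _ _).trans ?_
    linarith
  · simp only [abs_zero]
    linarith

theorem trc_sum (ρ R : ℝ) (r : Fin n → ℝ) : ∑ i, trc ρ R r i = 0 := by
  unfold trc
  split_ifs
  · rw [Finset.sum_sub_distrib]
    simp only [Finset.sum_const, Finset.card_univ, Fintype.card_fin, nsmul_eq_mul]
    rcases Nat.eq_zero_or_pos n with hn | hn
    · subst hn; simp
    · have : (n:ℝ) ≠ 0 := by positivity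
      field_simp
      ring
  · simp

theorem sum_sub_mean_sq (x : Fin n → ℝ) :
    ∑ i, (x i - (∑ j, x j) / n) ^ 2 ≤ ∑ i, x i ^ 2 := by
  rcases Nat.eq_zero_or_pos n with hn | hn
  · subst hn; simp
  · have hn' : (n:ℝ) ≠ 0 := by positivity
    have e : ∀ i, (x i - (∑ j, x j) / n) ^ 2
        = x i ^ 2 - (2 * ((∑ j, x j) / n) * x i - ((∑ j, x j) / n) ^ 2) := by
      intro i; ring
    simp only [e]
    rw [Finset.sum_sub_distrib, Finset.sum_sub_distrib, ← Finset.mul_sum]
    simp only [Finset.sum_const, Finset.card_univ, Fintype.card_fin, nsmul_eq_mul]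
    have h1 : 2 * ((∑ j, x j) / n) * (∑ j, x j) - n * ((∑ j, x j) / n) ^ 2
        = (∑ j, x j) ^ 2 / n := by
      field_simp
      ring
    rw [h1]
    have h2 : 0 ≤ (∑ j, x j) ^ 2 / n := by positivity
    linarith

theorem trc_sq {ρ R : ℝ} (hR : 0 ≤ R) (r : Fin n → ℝ) : ∑ i, trc ρ R r i ^ 2 ≤ R := by
  unfold trc
  split_ifs with h
  · refine (sum_sub_mean_sq fun i => hth ρ (r i)).trans (le_trans ?_ h)
    exact Finset.sum_le_sum fun i _ => hth_sq_le _ _
  · simpa using hR

theorem sqrt_sum_sq_le (x : Fin n → ℝ) : √(∑ i, x i ^ 2) ≤ ∑ i, |x i| := by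
  rw [Real.sqrt_le_left (Finset.sum_nonneg fun i _ => abs_nonneg _)]
  have h : ∑ i, x i ^ 2 = ∑ i, |x i| ^ 2 := Finset.sum_congr rfl fun i _ => (sq_abs _).symm
  rw [h]
  exact Finset.sum_sq_le_sq_sum_of_nonneg fun i _ => abs_nonneg _

theorem trc_diff {ρ R q : ℝ} (hρ : 0 < ρ) (hR : 0 < R) (hq : 1 ≤ q) {r : Fin n → ℝ}
    (hr : ∑ i, r i = 0) : √(∑ i, (r i - trc ρ R r i) ^ 2) ≤
      ρ ^ (1 - q) * ∑ i, |r i| ^ q + (∑ i, r i ^ 2) / √R := by
  have hA : 0 ≤ ρ ^ (1 - q) * ∑ i, |r i| ^ q :=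
    mul_nonneg (by positivity) (Finset.sum_nonneg fun i _ => by positivity)
  have hB : 0 ≤ (∑ i, r i ^ 2) / √R :=
    div_nonneg (Finset.sum_nonneg fun i _ => sq_nonneg _) (Real.sqrt_nonneg _)
  by_cases h : ∑ j, r j ^ 2 ≤ R
  · have e : ∀ i, r i - trc ρ R r i
        = (r i - hth ρ (r i)) - (∑ j, (r j - hth ρ (r j))) / n := by
      intro i
      unfold trc
      rw [if_pos h, Finset.sum_sub_distrib, hr]
      ring
    simp only [e]
    have h1 : √(∑ i, ((r i - hth ρ (r i)) - (∑ j, (r j - hth ρ (r j))) / n) ^ 2)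
        ≤ √(∑ i, (r i - hth ρ (r i)) ^ 2) :=
      Real.sqrt_le_sqrt (sum_sub_mean_sq fun i => r i - hth ρ (r i))
    have h2 : ∑ i, |r i - hth ρ (r i)| ≤ ρ ^ (1 - q) * ∑ i, |r i| ^ q := by
      rw [Finset.mul_sum]
      exact Finset.sum_le_sum fun i _ => sub_hth_abs hρ hq _
    have h3 := sqrt_sum_sq_le (fun i => r i - hth ρ (r i))
    linarith
  · have e : ∀ i, r i - trc ρ R r i = r i := by
      intro i
      unfold trc
      rw [if_neg h, sub_zero]
    simp only [e]
    push Not at h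
    have hs : 0 < √R := Real.sqrt_pos.2 hR
    have h1 : √(∑ i, r i ^ 2) ≤ (∑ i, r i ^ 2) / √R := by
      rw [le_div_iff₀ hs]
      have h2 : √R ≤ √(∑ i, r i ^ 2) := Real.sqrt_le_sqrt h.le
      have h3 : √(∑ i, r i ^ 2) * √(∑ i, r i ^ 2) = ∑ i, r i ^ 2 :=
        Real.mul_self_sqrt (by linarith)
      calc √(∑ i, r i ^ 2) * √R ≤ √(∑ i, r i ^ 2) * √(∑ i, r i ^ 2) :=
            mul_le_mul_of_nonneg_left h2 (Real.sqrt_nonneg _)
        _ = _ := h3
    linarith

/-- Minkowski for a weighted average. -/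
theorem sqrt_sum_avg_le {κ : Type*} [Fintype κ] {w : κ → ℝ} (hw : ∀ k, 0 ≤ w k)
    (x : κ → Fin n → ℝ) :
    √(∑ i, (∑ k, w k * x k i) ^ 2) ≤ ∑ k, w k * √(∑ i, x k i ^ 2) := by
  have h1 : ∀ v : Fin n → ℝ, √(∑ i, v i ^ 2) = ‖(WithLp.toLp 2 v : EuclideanSpace ℝ (Fin n))‖ := by
    intro v
    rw [EuclideanSpace.norm_eq]
    congr 1
    exact Finset.sum_congr rfl fun i _ => by simp
  rw [h1]
  simp only [h1]
  have h2 : (WithLp.toLp 2 (fun i => ∑ k, w k * x k i) : EuclideanSpace ℝ (Fin n))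
      = ∑ k, w k • (WithLp.toLp 2 (x k) : EuclideanSpace ℝ (Fin n)) := by
    ext i
    simp
  rw [h2]
  refine (norm_sum_le _ _).trans ?_
  refine Finset.sum_le_sum fun k _ => ?_
  rw [norm_smul, Real.norm_of_nonneg (hw k)]

/-- The hypotheses of the Jacobian lemma hold off a small event. -/
theorem jh_of_small {n : ℕ} {w : Fin n → ℝ} (hw : ∀ k, 0 ≤ w k) (hw1 : ∑ k, w k = 1)
    {r : Fin n → Fin n → ℝ} (hr1 : ∀ k i, -1 ≤ r k i) (hsum : ∀ k, ∑ i, r k i = 0) {q : ℝ}
    (hq : 1 ≤ q) (hY : 2 ^ q * ∑ k, w k * ∑ i, |r k i| ^ q < 1) :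
    JH w (fun k i => 1 + r k i) := by
  have hq0 : 0 < q := by linarith
  have h2q : (1:ℝ) ≤ 2 ^ q := Real.one_le_rpow (by norm_num) hq0.le
  have hY0 : ∀ k, 0 ≤ ∑ i, |r k i| ^ q := fun k => Finset.sum_nonneg fun i _ => by positivity
  refine ⟨hw, hw1, fun k i => by linarith [hr1 k i], fun k => ?_, ?_, fun i => ?_⟩
  · rw [Finset.sum_add_distrib, hsum]
    simp
  · by_contra hcon
    push Not at hcon
    have h1 : ∀ k, w k ≤ w k * ∑ i, |r k i| ^ q := by
      intro k
      rcases (hw k).eq_or_lt with h0 | h0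
      · rw [← h0]; simp
      · obtain ⟨i, hi⟩ := hcon k h0
        have h2 : 1 ≤ |r k i| := by
          rw [le_abs]; right; linarith
        have h3 : (1:ℝ) ≤ |r k i| ^ q := Real.one_le_rpow h2 hq0.le
        have h4 : |r k i| ^ q ≤ ∑ i, |r k i| ^ q :=
          Finset.single_le_sum (f := fun i => |r k i| ^ q) (fun j _ => by positivity)
            (Finset.mem_univ i)
        nlinarith
    have h2 : 1 ≤ ∑ k, w k * ∑ i, |r k i| ^ q := by
      rw [← hw1]
      exact Finset.sum_le_sum fun k _ => h1 k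
    nlinarith
  · have e : ∑ k, w k * (1 + r k i) = 1 + ∑ k, w k * r k i := by
      simp only [mul_add, mul_one]
      rw [Finset.sum_add_distrib, hw1]
    rw [e]
    have h1 : |∑ k, w k * r k i| ≤ ∑ k, w k * |r k i| := by
      refine (Finset.abs_sum_le_sum_abs _ _).trans (le_of_eq ?_)
      exact Finset.sum_congr rfl fun k _ => by rw [abs_mul, abs_of_nonneg (hw k)]
    have h2 : (∑ k, w k * |r k i|) ^ q ≤ ∑ k, w k * |r k i| ^ q :=
      Real.rpow_arith_mean_le_arith_mean_rpow _ _ _ (fun k _ => hw k) hw1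
        (fun k _ => abs_nonneg _) hq
    have h3 : ∑ k, w k * |r k i| ^ q ≤ ∑ k, w k * ∑ i, |r k i| ^ q := by
      refine Finset.sum_le_sum fun k _ => mul_le_mul_of_nonneg_left ?_ (hw k)
      exact Finset.single_le_sum (f := fun i => |r k i| ^ q) (fun j _ => by positivity)
            (Finset.mem_univ i)
    have h4 : 0 ≤ ∑ k, w k * |r k i| :=
      Finset.sum_nonneg fun k _ => mul_nonneg (hw k) (abs_nonneg _)
    have h5 : ∑ k, w k * |r k i| ≤ 1 / 2 := by
      by_contra hcon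
      push Not at hcon
      have h6 : (2 * ∑ k, w k * |r k i|) ^ q < 1 := by
        rw [Real.mul_rpow (by norm_num) h4]
        have : (0:ℝ) ≤ 2 ^ q := by positivity
        nlinarith
      have h7 : 1 ≤ (2 * ∑ k, w k * |r k i|) ^ q := Real.one_le_rpow (by linarith) hq0.le
      linarith
    have h6 := (abs_le.1 (h1.trans h5)).1
    linarith

theorem abs_sub_integral_le_two {X : Type*} [MeasurableSpace X] (μ : Measure X)
    [IsProbabilityMeasure μ] {f g : X → ℝ} (hf : ∀ x, |f x| ≤ 1) (hg : ∀ x, |g x| ≤ 1) :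
    |∫ x, f x ∂μ - ∫ x, g x ∂μ| ≤ 2 := by
  have h1 : ∀ {h : X → ℝ}, (∀ x, |h x| ≤ 1) → |∫ x, h x ∂μ| ≤ 1 := by
    intro h hh
    have := norm_integral_le_of_norm_le_const (μ := μ) (f := h) (C := 1)
      (Filter.Eventually.of_forall fun x => by simpa using hh x)
    simpa using this
  refine (abs_sub _ _).trans ?_
  have h2 := h1 hf
  have h3 := h1 hg
  linarith

theorem upper_comb {n : ℕ} (hn : 2 ≤ n) {Ω : Type*} [MeasurableSpace Ω] (P : Measure Ω)
    [IsProbabilityMeasure P] {w : Fin n → ℝ} (hw : ∀ k, 0 ≤ w k) (hw1 : ∑ k, w k = 1)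
    {r : Fin n → Ω → Fin n → ℝ} (hr : ∀ k, Measurable (r k))
    (hr1 : ∀ k, ∀ᵐ ω ∂P, ∀ i, -1 ≤ r k ω i) (hsum : ∀ k, ∀ᵐ ω ∂P, ∑ i, r k ω i = 0)
    (hexch : ∀ k (σ : Equiv.Perm (Fin n)), σ k = k →
      P.map (fun ω i => r k ω (σ i)) = P.map (r k))
    {q ε V ρ R : ℝ} (hq : 1 ≤ q) (hε : ∀ k, ∫ ω, ∑ i, |r k ω i| ^ q ∂P ≤ ε)
    (hV : ∀ k, ∫ ω, ∑ i, r k ω i ^ 2 ∂P ≤ V) (hρ : 0 < ρ) (hρ4 : ρ ≤ 1 / 4) (hR : 0 < R)
    {F : (Fin n → ℝ) → ℝ} (hF : Measurable F) (hF1 : ∀ x, |F x| ≤ 1) :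
    |∫ ω, ∫ y, F (Th w (fun k i => 1 + r k ω i) y) ∂(gpi (Fin n)) ∂P
        - ∫ x, F x ∂(gpi (Fin n))| ≤
      2 * (8 / n + 112 * V / n + 8 * √(V / n)) + 2 ^ (q + 1) * ε
        + 6 * (ρ ^ (1 - q) * ε + V / √R)
        + √(Real.exp (8 * ρ ^ 2 + R ^ 2 / ((n : ℝ) - 1)) - 1) := by
  have hq0 : 0 < q := by linarith
  have hn0 : (0:ℝ) < n := by
    have : 0 < n := by omega
    exact_mod_cast this
  have : Nonempty (Fin n) := ⟨⟨0, by omega⟩⟩
  have hw1' : ∀ k, w k ≤ 1 := fun k => by
    rw [← hw1]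
    exact Finset.single_le_sum (fun j _ => hw j) (Finset.mem_univ k)
  -- a.e. bound of r
  have hbd : ∀ k, ∀ᵐ ω ∂P, ∀ i, |r k ω i| ≤ n := by
    intro k
    filter_upwards [hr1 k, hsum k] with ω h1 h2 i
    have h3 : ∑ j, (r k ω j + 1) = n := by
      rw [Finset.sum_add_distrib, h2]
      simp
    have h4 : r k ω i + 1 ≤ ∑ j, (r k ω j + 1) :=
      Finset.single_le_sum (f := fun j => r k ω j + 1) (fun j _ => by linarith [h1 j])
        (Finset.mem_univ i)
    have h5 : (1:ℝ) ≤ n := by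
      have : 1 ≤ n := by omega
      exact_mod_cast this
    rw [abs_le]
    constructor <;> linarith [h1 i]
  have hri : ∀ k i, Measurable fun ω => r k ω i := fun k i => (measurable_pi_apply i).comp (hr k)
  set Y : Fin n → Ω → ℝ := fun k ω => ∑ i, |r k ω i| ^ q with hY
  set S : Fin n → Ω → ℝ := fun k ω => ∑ i, r k ω i ^ 2 with hS
  have hYm : ∀ k, Measurable (Y k) := by
    intro k
    refine Finset.measurable_sum _ fun i _ => ?_
    exact (continuous_abs.measurable.comp (hri k i)).pow_const q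
  have hSm : ∀ k, Measurable (S k) := by
    intro k
    exact Finset.measurable_sum _ fun i _ => (hri k i).pow_const 2
  have hY0 : ∀ k ω, 0 ≤ Y k ω := fun k ω => Finset.sum_nonneg fun i _ => by positivity
  have hS0 : ∀ k ω, 0 ≤ S k ω := fun k ω => Finset.sum_nonneg fun i _ => by positivity
  have hYi : ∀ k, Integrable (Y k) P := by
    intro k
    refine Integrable.of_bound (C := ∑ _i : Fin n, (n:ℝ) ^ q) (hYm k).aestronglyMeasurable ?_
    filter_upwards [hbd k] with ω h
    rw [Real.norm_of_nonneg (hY0 k ω)]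
    exact Finset.sum_le_sum fun i _ => Real.rpow_le_rpow (abs_nonneg _) (h i) hq0.le
  have hSi : ∀ k, Integrable (S k) P := by
    intro k
    refine Integrable.of_bound (C := ∑ _i : Fin n, (n:ℝ) ^ 2) (hSm k).aestronglyMeasurable ?_
    filter_upwards [hbd k] with ω h
    rw [Real.norm_of_nonneg (hS0 k ω)]
    refine Finset.sum_le_sum fun i _ => ?_
    rw [← sq_abs]
    exact pow_le_pow_left₀ (abs_nonneg _) (h i) 2
  -- the three functions
  set A : Ω → ℝ := fun ω => ∫ y, F (Th w (fun k i => 1 + r k ω i) y) ∂(gpi (Fin n)) with hA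
  set B : Ω → ℝ := fun ω => ∫ y, F (scl (fun i => ∑ k, w k * r k ω i) y) ∂(gpi (Fin n)) with hB
  set C : Ω → ℝ := fun ω => ∫ y, F (scl (fun i => ∑ k, w k * trc ρ R (r k ω) i) y)
    ∂(gpi (Fin n)) with hC
  have hAm : StronglyMeasurable A := by
    have h : Measurable (fun p : Ω × (Fin n → ℝ) => F (Th w (fun k i => 1 + r k p.1 i) p.2)) := by
      refine hF.comp (measurable_pi_lambda _ fun i => ?_)
      unfold Th lamJ en1 en
      have h1 : ∀ k i, Measurable fun p : Ω × (Fin n → ℝ) => 1 + r k p.1 i := fun k i =>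
        measurable_const.add ((hri k i).comp measurable_fst)
      have h2 : ∀ i, Measurable fun p : Ω × (Fin n → ℝ) => p.2 i := fun i =>
        (measurable_pi_apply i).comp measurable_snd
      refine (h2 i).mul (Measurable.sqrt ?_)
      refine (Finset.measurable_sum _ fun j _ => (h2 j).pow_const 2).mul ?_
      refine Finset.measurable_sum _ fun k _ => ((h1 k i).div ?_).const_mul _
      exact Finset.measurable_sum _ fun j _ => (h1 k j).mul ((h2 j).pow_const 2)
    exact h.stronglyMeasurable.integral_prod_right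
  have hBm : StronglyMeasurable B := by
    have h : Measurable (fun p : Ω × (Fin n → ℝ) =>
        F (scl (fun i => ∑ k, w k * r k p.1 i) p.2)) := by
      have hg : ∀ i, Measurable fun p : Ω × (Fin n → ℝ) => ∑ k, w k * r k p.1 i := fun i =>
        Finset.measurable_sum _ fun k _ => ((hri k i).comp measurable_fst).const_mul _
      exact hF.comp (measurable_scl.comp
        (Measurable.prodMk (measurable_pi_lambda _ hg) measurable_snd))
    exact h.stronglyMeasurable.integral_prod_right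
  have htm : ∀ k, Measurable fun ω => trc ρ R (r k ω) := fun k => (measurable_trc ρ R).comp (hr k)
  have hCm : StronglyMeasurable C := by
    have h : Measurable (fun p : Ω × (Fin n → ℝ) =>
        F (scl (fun i => ∑ k, w k * trc ρ R (r k p.1) i) p.2)) := by
      have hg : ∀ i, Measurable fun p : Ω × (Fin n → ℝ) => ∑ k, w k * trc ρ R (r k p.1) i :=
        fun i => Finset.measurable_sum _ fun k _ =>
          ((measurable_pi_apply i).comp ((htm k).comp measurable_fst)).const_mul _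
      exact hF.comp (measurable_scl.comp
        (Measurable.prodMk (measurable_pi_lambda _ hg) measurable_snd))
    exact h.stronglyMeasurable.integral_prod_right
  have hbd1 : ∀ g : (Fin n → ℝ) → (Fin n → ℝ), |∫ y, F (g y) ∂(gpi (Fin n))| ≤ 1 := by
    intro g
    have := norm_integral_le_of_norm_le_const (μ := gpi (Fin n)) (f := fun y => F (g y)) (C := 1)
      (Filter.Eventually.of_forall fun x => by simpa using hF1 _)
    simpa using this
  have hAi : Integrable A P := Integrable.of_bound (C := 1) hAm.aestronglyMeasurable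
    (Filter.Eventually.of_forall fun ω => hbd1 _)
  have hBi : Integrable B P := Integrable.of_bound (C := 1) hBm.aestronglyMeasurable
    (Filter.Eventually.of_forall fun ω => hbd1 _)
  have hCi : Integrable C P := Integrable.of_bound (C := 1) hCm.aestronglyMeasurable
    (Filter.Eventually.of_forall fun ω => hbd1 _)
  -- step 1: the Jacobian lemma
  set Pw : Ω → ℝ := fun ω => ∑ k, w k * S k ω with hPw
  set Qw : Ω → ℝ := fun ω => ∑ k, S k ω with hQw
  set Yw : Ω → ℝ := fun ω => ∑ k, w k * Y k ω with hYw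
  have hPw0 : ∀ ω, 0 ≤ Pw ω := fun ω => Finset.sum_nonneg fun k _ => mul_nonneg (hw k) (hS0 k ω)
  have hQw0 : ∀ ω, 0 ≤ Qw ω := fun ω => Finset.sum_nonneg fun k _ => hS0 k ω
  have hYw0 : ∀ ω, 0 ≤ Yw ω := fun ω => Finset.sum_nonneg fun k _ => mul_nonneg (hw k) (hY0 k ω)
  have hAB : ∀ᵐ ω ∂P, |A ω - B ω| ≤
      2 * (8 / n + 32 * Qw ω / n ^ 2 + 80 * Pw ω / n + 8 * √(Pw ω / n)) + 2 * (2 ^ q * Yw ω) := by
    filter_upwards [ae_all_iff.2 hr1, ae_all_iff.2 hsum] with ω h1 h2
    have hnn : 0 ≤ 2 * (8 / n + 32 * Qw ω / n ^ 2 + 80 * Pw ω / n + 8 * √(Pw ω / n)) := by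
      have := hPw0 ω
      have := hQw0 ω
      positivity
    have hnn2 : 0 ≤ 2 * (2 ^ q * Yw ω) := by
      have := hYw0 ω
      positivity
    by_cases hsmall : 2 ^ q * Yw ω < 1
    · have H := jh_of_small hw hw1 h1 h2 hq hsmall
      have h3 := H.tv_main (n := n) (P := Pw ω) (Q := Qw ω) (by simp)
        (by simp only [add_sub_cancel_left]; exact le_rfl)
        (by simp only [add_sub_cancel_left]; exact le_rfl) hF hF1
      have h4 : (fun i => wtJ w (fun k i => 1 + r k ω i) i - 1) = fun i => ∑ k, w k * r k ω i := by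
        funext i
        unfold wtJ
        simp only [mul_add, mul_one]
        rw [Finset.sum_add_distrib, hw1]
        ring
      rw [h4] at h3
      exact h3.trans (by linarith)
    · push Not at hsmall
      have h3 : |A ω - B ω| ≤ 2 := abs_sub_integral_le_two _ (fun x => hF1 _) (fun x => hF1 _)
      linarith
  have hPwi : Integrable Pw P := integrable_finsetSum _ fun k _ => (hSi k).const_mul _
  have hQwi : Integrable Qw P := integrable_finsetSum _ fun k _ => hSi k
  have hYwi : Integrable Yw P := integrable_finsetSum _ fun k _ => (hYi k).const_mul _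
  have hEP : ∫ ω, Pw ω ∂P ≤ V := by
    rw [hPw, integral_finsetSum _ fun k _ => (hSi k).const_mul _]
    simp only [integral_const_mul]
    calc ∑ k, w k * ∫ ω, S k ω ∂P ≤ ∑ k, w k * V :=
          Finset.sum_le_sum fun k _ => mul_le_mul_of_nonneg_left (hV k) (hw k)
      _ = V := by rw [← Finset.sum_mul, hw1, one_mul]
  have hEQ : ∫ ω, Qw ω ∂P ≤ n * V := by
    rw [hQw, integral_finsetSum _ fun k _ => hSi k]
    calc ∑ k, ∫ ω, S k ω ∂P ≤ ∑ _k : Fin n, V := Finset.sum_le_sum fun k _ => hV k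
      _ = n * V := by simp
  have hEY : ∫ ω, Yw ω ∂P ≤ ε := by
    rw [hYw, integral_finsetSum _ fun k _ => (hYi k).const_mul _]
    simp only [integral_const_mul]
    calc ∑ k, w k * ∫ ω, Y k ω ∂P ≤ ∑ k, w k * ε :=
          Finset.sum_le_sum fun k _ => mul_le_mul_of_nonneg_left (hε k) (hw k)
      _ = ε := by rw [← Finset.sum_mul, hw1, one_mul]
  have hPnm : Measurable fun ω => √(Pw ω / n) := by
    have : Measurable Pw := Finset.measurable_sum _ fun k _ => (hSm k).const_mul _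
    exact (this.div_const _).sqrt
  have hPni2 : Integrable (fun ω => √(Pw ω / n) ^ 2) P := by
    have : (fun ω => √(Pw ω / n) ^ 2) = fun ω => Pw ω / n := by
      funext ω
      exact Real.sq_sqrt (div_nonneg (hPw0 ω) hn0.le)
    rw [this]
    exact hPwi.div_const _
  have hPni : Integrable (fun ω => √(Pw ω / n)) P := by
    have h := (memLp_two_iff_integrable_sq hPnm.aestronglyMeasurable).2 hPni2
    exact h.integrable (by norm_num)
  have hEsq : ∫ ω, √(Pw ω / n) ∂P ≤ √(V / n) := by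
    have h1 := abs_integral_le_sqrt P hPni hPni2
    have h2 : ∫ ω, |√(Pw ω / n)| ∂P = ∫ ω, √(Pw ω / n) ∂P := by
      congr 1
      funext ω
      exact abs_of_nonneg (Real.sqrt_nonneg _)
    rw [h2] at h1
    refine h1.trans (Real.sqrt_le_sqrt ?_)
    have h3 : ∫ ω, √(Pw ω / n) ^ 2 ∂P = (∫ ω, Pw ω ∂P) / n := by
      rw [← integral_div]
      congr 1
      funext ω
      exact Real.sq_sqrt (div_nonneg (hPw0 ω) hn0.le)
    rw [h3]
    exact div_le_div_of_nonneg_right hEP hn0.le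
  have h1 : |∫ ω, A ω ∂P - ∫ ω, B ω ∂P| ≤
      2 * (8 / n + 112 * V / n + 8 * √(V / n)) + 2 ^ (q + 1) * ε := by
    rw [← integral_sub hAi hBi]
    refine (abs_integral_le_integral_abs).trans ?_
    have i1 : Integrable (fun ω => 8 / (n:ℝ) + 32 * Qw ω / n ^ 2) P :=
      (integrable_const _).add ((hQwi.const_mul 32).div_const _)
    have i2 : Integrable (fun ω => 8 / (n:ℝ) + 32 * Qw ω / n ^ 2 + 80 * Pw ω / n) P :=
      i1.add ((hPwi.const_mul 80).div_const _)
    have i3 : Integrable (fun ω => 8 / (n:ℝ) + 32 * Qw ω / n ^ 2 + 80 * Pw ω / n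
        + 8 * √(Pw ω / n)) P := i2.add (hPni.const_mul 8)
    have i4 : Integrable (fun ω => 2 * (2 ^ q * Yw ω)) P := (hYwi.const_mul _).const_mul _
    have h2 : ∫ ω, |A ω - B ω| ∂P ≤ ∫ ω, (2 * (8 / n + 32 * Qw ω / n ^ 2 + 80 * Pw ω / n
        + 8 * √(Pw ω / n)) + 2 * (2 ^ q * Yw ω)) ∂P :=
      integral_mono_of_nonneg (Filter.Eventually.of_forall fun ω => abs_nonneg _)
        ((i3.const_mul 2).add i4) hAB
    refine h2.trans ?_
    rw [integral_add (i3.const_mul 2) i4]
    have e0 : ∫ ω, 2 * (8 / (n:ℝ) + 32 * Qw ω / n ^ 2 + 80 * Pw ω / n + 8 * √(Pw ω / n)) ∂P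
        = 2 * (8 / n + 32 * (∫ ω, Qw ω ∂P) / (n:ℝ) ^ 2 + 80 * (∫ ω, Pw ω ∂P) / (n:ℝ)
          + 8 * ∫ ω, √(Pw ω / n) ∂P) := by
      rw [integral_const_mul, integral_add i2 (hPni.const_mul 8),
        integral_add i1 ((hPwi.const_mul 80).div_const _),
        integral_add (integrable_const _) ((hQwi.const_mul 32).div_const _), integral_const]
      rw [integral_div ((n:ℝ) ^ 2) fun ω => 32 * Qw ω, integral_div (n:ℝ) fun ω => 80 * Pw ω]
      simp only [integral_const_mul, probReal_univ, one_smul]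
    rw [e0, integral_const_mul, integral_const_mul]
    have e1 : 32 * (∫ ω, Qw ω ∂P) / (n:ℝ) ^ 2 ≤ 32 * V / n := by
      rw [div_le_div_iff₀ (by positivity) hn0]
      nlinarith [mul_le_mul_of_nonneg_right hEQ hn0.le]
    have e2 : 80 * (∫ ω, Pw ω ∂P) / (n:ℝ) ≤ 80 * V / n :=
      div_le_div_of_nonneg_right (by linarith) hn0.le
    have e3 : (2:ℝ) ^ (q + 1) = 2 * 2 ^ q := by
      rw [Real.rpow_add (by norm_num), Real.rpow_one]; ring
    have e4 : (2:ℝ) ^ q * ∫ ω, Yw ω ∂P ≤ 2 ^ q * ε :=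
      mul_le_mul_of_nonneg_left hEY (by positivity)
    have e5 : 112 * V / n = 32 * V / n + 80 * V / n := by ring
    rw [e3, e5]
    linarith
  -- step 2: truncation
  have h2 : |∫ ω, B ω ∂P - ∫ ω, C ω ∂P| ≤ 6 * (ρ ^ (1 - q) * ε + V / √R) := by
    have hBC : ∀ᵐ ω ∂P, |B ω - C ω| ≤ 6 * (ρ ^ (1 - q) * Yw ω + Pw ω / √R) := by
      filter_upwards [ae_all_iff.2 hsum] with ω hs
      have g1 := scl_diff (d := fun i => ∑ k, w k * r k ω i)
        (e := fun i => ∑ k, w k * trc ρ R (r k ω) i) (by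
          intro i
          have g : |∑ k, w k * trc ρ R (r k ω) i| ≤ 1 / 2 := by
            refine (Finset.abs_sum_le_sum_abs _ _).trans ?_
            calc ∑ k, |w k * trc ρ R (r k ω) i| ≤ ∑ k, w k * (1 / 2) := by
                  refine Finset.sum_le_sum fun k _ => ?_
                  rw [abs_mul, abs_of_nonneg (hw k)]
                  refine mul_le_mul_of_nonneg_left ?_ (hw k)
                  have := trc_abs hρ.le R (r k ω) i
                  linarith
              _ = 1 / 2 := by rw [← Finset.sum_mul, hw1, one_mul]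
          exact (abs_le.1 g).1) hF hF1
      refine g1.trans (mul_le_mul_of_nonneg_left ?_ (by norm_num))
      have g2 := sqrt_sum_avg_le hw (fun k i => r k ω i - trc ρ R (r k ω) i)
      have g3 : ∀ i, ∑ k, w k * r k ω i - ∑ k, w k * trc ρ R (r k ω) i
          = ∑ k, w k * (r k ω i - trc ρ R (r k ω) i) := by
        intro i
        rw [← Finset.sum_sub_distrib]
        exact Finset.sum_congr rfl fun k _ => by ring
      simp only [g3]
      refine g2.trans ?_
      rw [hYw, hPw]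
      dsimp only
      rw [Finset.mul_sum, Finset.sum_div, ← Finset.sum_add_distrib]
      refine Finset.sum_le_sum fun k _ => ?_
      have g4 := mul_le_mul_of_nonneg_left (trc_diff hρ hR hq (hs k)) (hw k)
      refine g4.trans (le_of_eq ?_)
      rw [hY, hS]
      ring
    rw [← integral_sub hBi hCi]
    refine (abs_integral_le_integral_abs).trans ?_
    have i5 : Integrable (fun ω => 6 * (ρ ^ (1 - q) * Yw ω + Pw ω / √R)) P :=
      ((hYwi.const_mul _).add (hPwi.div_const _)).const_mul _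
    have g5 : ∫ ω, |B ω - C ω| ∂P ≤ ∫ ω, 6 * (ρ ^ (1 - q) * Yw ω + Pw ω / √R) ∂P :=
      integral_mono_of_nonneg (Filter.Eventually.of_forall fun ω => abs_nonneg _) i5 hBC
    refine g5.trans ?_
    rw [integral_const_mul, integral_add (hYwi.const_mul _) (hPwi.div_const _),
      integral_const_mul, integral_div]
    refine mul_le_mul_of_nonneg_left ?_ (by norm_num)
    exact add_le_add (mul_le_mul_of_nonneg_left hEY (by positivity))
      (div_le_div_of_nonneg_right hEP (Real.sqrt_nonneg _))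
  -- step 3: the exchangeable mixture
  have h3 : |∫ ω, C ω ∂P - ∫ x, F x ∂(gpi (Fin n))| ≤
      √(Real.exp (8 * ρ ^ 2 + R ^ 2 / ((n : ℝ) - 1)) - 1) := by
    have g := exch_mixture hn P hw hw1 (r := fun k ω => trc ρ R (r k ω)) htm
      (ρ := 2 * ρ) (R := R) (by linarith) (by linarith) (fun k ω i => trc_abs hρ.le R _ i)
      (fun k ω => trc_sum ρ R _) (fun k ω => trc_sq hR.le _) (by
        intro k σ hσ
        have e1 : P.map (fun ω i => trc ρ R (r k ω) (σ i))
            = (P.map (fun ω i => r k ω (σ i))).map (trc ρ R) := by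
          rw [Measure.map_map (measurable_trc ρ R)
            (measurable_pi_lambda _ fun i => hri k (σ i))]
          congr 1
          funext ω
          exact (trc_perm ρ R (r k ω) σ).symm
        have e2 : P.map (fun ω => trc ρ R (r k ω)) = (P.map (r k)).map (trc ρ R) := by
          rw [Measure.map_map (measurable_trc ρ R) (hr k)]
          rfl
        rw [e1, hexch k σ hσ, ← e2]) hF hF1
    refine g.trans (le_of_eq ?_)
    congr 3
    ring
  calc |∫ ω, A ω ∂P - ∫ x, F x ∂(gpi (Fin n))|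
      = |(∫ ω, A ω ∂P - ∫ ω, B ω ∂P) + (∫ ω, B ω ∂P - ∫ ω, C ω ∂P)
        + (∫ ω, C ω ∂P - ∫ x, F x ∂(gpi (Fin n)))| := by congr 1; ring
    _ ≤ |∫ ω, A ω ∂P - ∫ ω, B ω ∂P| + |∫ ω, B ω ∂P - ∫ ω, C ω ∂P|
        + |∫ ω, C ω ∂P - ∫ x, F x ∂(gpi (Fin n))| := abs_add_three _ _ _
    _ ≤ _ := by linarith

end Pf31f09
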