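import Pool.Agent.Lib.Pf31f09.Numeric

/-! Choice of the exponent `q` for the upper bound. -/

noncomputable section

namespace Pf31f09

open Finset MeasureTheory Filter Topology

/-- pointwise inequality: `y^q ≥ y² - (q-2)(y - y³)/2` on `[0,1]`, `2 ≤ q` -/
theorem rpow_ge_aux {y q : ℝ} (hy0 : 0 ≤ y) (hy1 : y ≤ 1) (hq : 2 ≤ q) :
    y ^ 2 - (q - 2) * (y - y ^ 3) / 2 ≤ y ^ q := by
  rcases hy0.eq_or_lt with h | h
  · rw [← h, Real.zero_rpow (by linarith)]
    simp
  · have e : y ^ q = y ^ 2 * y ^ (q - 2) := by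
      rw [← Real.rpow_natCast y 2, ← Real.rpow_add h]
      norm_num
    have h1 : 1 + Real.log y * (q - 2) ≤ y ^ (q - 2) := by
      rw [Real.rpow_def_of_pos h]
      linarith [Real.add_one_le_exp (Real.log y * (q - 2))]
    -- log y ≥ -(1/y - y)/2
    have h2 : -((1 / y - y) / 2) ≤ Real.log y := by
      -- g(y) = log y + (1/y - y)/2 is decreasing on (0,1], g(1)=0
      have hx : 1 ≤ 1 / y := by
        rw [le_div_iff₀ h]; linarith
      -- use log x ≤ (x - 1/x)/2 for x ≥ 1 via sinh
      have h3 : Real.log (1 / y) ≤ Real.sinh (Real.log (1 / y)) :=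
        Real.self_le_sinh_iff.2 (Real.log_nonneg hx)
      rw [Real.sinh_eq, Real.exp_neg, Real.exp_log (by positivity)] at h3
      rw [one_div, Real.log_inv, inv_inv] at h3
      rw [one_div]
      linarith
    have h3 : 0 ≤ q - 2 := by linarith
    have h4 : 1 - (1 / y - y) / 2 * (q - 2) ≤ y ^ (q - 2) := by nlinarith
    rw [e]
    have h5 := mul_le_mul_of_nonneg_left h4 (sq_nonneg y)
    refine le_trans (le_of_eq ?_) h5
    field_simp

theorem mom_ge {q : ℝ} (hq : 2 ≤ q) : 3 / 8 - (q - 2) * (3 / 32) ≤ mom q := by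
  have h1 := mom_one
  have h2 := mom_two
  have h3 := mom_three
  have key : mom 2 + (-((q - 2) / 2)) * mom 1 + (q - 2) / 2 * mom 3 ≤ mom q := by
    unfold mom
    rw [← avg_const_mul, ← avg_const_mul, ← avg_add (C := 1 + |(-((q - 2) / 2))|) (measurable_cosq 2)
      ((measurable_cosq 1).const_mul _), ← avg_add (C := 2 + |(-((q - 2) / 2))| + |(q - 2) / 2|)]
    · refine avg_mono ?_ (measurable_cosq _) (C := 3 + |(-((q - 2) / 2))| + |(q - 2) / 2|)
        (fun φ => ?_) (fun φ => ?_) fun φ => ?_
      · exact ((measurable_cosq 2).add ((measurable_cosq 1).const_mul _)).add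
          ((measurable_cosq 3).const_mul _)
      · have b1 := cosq_bdd (q := 1) (by norm_num) φ
        have b2 := cosq_bdd (q := 2) (by norm_num) φ
        have b3 := cosq_bdd (q := 3) (by norm_num) φ
        refine (abs_add_le _ _).trans ?_
        refine (add_le_add (abs_add_le _ _) le_rfl).trans ?_
        rw [abs_mul, abs_mul]
        nlinarith [abs_nonneg (-((q - 2) / 2)), abs_nonneg ((q - 2) / 2)]
      · have b1 := cosq_bdd (q := q) (by linarith) φ
        have := abs_nonneg (-((q - 2) / 2))
        have := abs_nonneg ((q - 2) / 2)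
        linarith
      · have := rpow_ge_aux (sq_nonneg (Real.cos φ)) (Real.cos_sq_le_one φ) hq
        rw [Real.rpow_one]
        have e2 : (Real.cos φ ^ 2) ^ (2:ℝ) = (Real.cos φ ^ 2) ^ 2 := by
          exact Real.rpow_ofNat _ 2
        have e3 : (Real.cos φ ^ 2) ^ (3:ℝ) = (Real.cos φ ^ 2) ^ 3 := by
          exact Real.rpow_ofNat _ 3
        rw [e2, e3]
        linarith
    · exact (measurable_cosq 2).add ((measurable_cosq 1).const_mul _)
    · exact (measurable_cosq 3).const_mul _
    · intro φ
      have b1 := cosq_bdd (q := 1) (by norm_num) φ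
      have b2 := cosq_bdd (q := 2) (by norm_num) φ
      refine (abs_add_le _ _).trans ?_
      rw [abs_mul]
      nlinarith [abs_nonneg (-((q - 2) / 2)), abs_nonneg ((q - 2) / 2)]
    · intro φ
      have b3 := cosq_bdd (q := 3) (by norm_num) φ
      rw [abs_mul]
      nlinarith [abs_nonneg (-((q - 2) / 2)), abs_nonneg ((q - 2) / 2)]
    · intro φ
      have b2 := cosq_bdd (q := 2) (by norm_num) φ
      have := abs_nonneg (-((q - 2) / 2))
      linarith
    · intro φ
      have b1 := cosq_bdd (q := 1) (by norm_num) φ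
      rw [abs_mul]
      nlinarith [abs_nonneg (-((q - 2) / 2)), abs_nonneg ((q - 2) / 2)]
  rw [h1, h2, h3] at key
  linarith

/-- The exponent used in the upper bound. -/
theorem const_upper {s : ℝ} (hs : cstar < s) :
    ∃ q : ℝ, 2 < q ∧ q < 3 ∧ q / 4 < -kap q ∧ q < s * (-kap q) ∧ 2 + 4 / q < s := by
  by_cases h39 : 3.9 ≤ s
  · have k := kap_five_half.2
    refine ⟨5 / 2, by norm_num, by norm_num, by linarith, ?_, ?_⟩
    · nlinarith
    · norm_num at h39 ⊢
      linarith
  · push Not at h39
    have : Nonempty (Set.Ioi (1 : ℝ)) := ⟨⟨2, by norm_num [Set.mem_Ioi]⟩⟩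
    obtain ⟨⟨q, hq⟩, hqs⟩ := exists_lt_of_ciInf_lt hs
    have hq1 : 1 < q := hq
    have hk := kap_neg hq1
    have e : 2 - 4 * mom q = -kap q := by unfold kap; ring
    change q / (2 - 4 * mom q) < s at hqs
    rw [e, div_lt_iff₀ (by linarith)] at hqs
    have hs0 : 0 < s := by
      have := cstar_ge
      norm_num at this
      linarith
    have h4 : q / 4 < -kap q := by
      norm_num at h39
      nlinarith
    have hq2 : 2 < q := by
      by_contra h
      rcases (not_lt.1 h).eq_or_lt with h | h
      · rw [h, kap_two] at h4; norm_num at h4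
      · have := kap_three (a := q) (b := 2) (c := 3) (by linarith) h (by norm_num)
        rw [kap_two, kap_three'] at this
        nlinarith
    have hq3 : q < 3 := by
      by_contra h
      rcases (not_lt.1 h).eq_or_lt with h | h
      · rw [← h, kap_three'] at h4; norm_num at h4
      · have := kap_three (a := 2) (b := 3) (c := q) (by norm_num) (by norm_num) h
        rw [kap_two, kap_three'] at this
        nlinarith
    refine ⟨q, hq2, hq3, h4, hqs, ?_⟩
    have hm := mom_ge hq2.le
    have hnu : -kap q ≤ 3 / 8 * q - 1 / 4 := by unfold kap; linarith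
    -- q < s (3q/8 - 1/4), want 2 + 4/q < s
    have h5 : q < s * (3 / 8 * q - 1 / 4) := lt_of_lt_of_le hqs (mul_le_mul_of_nonneg_left hnu hs0.le)
    have h6 : 0 < q := by linarith
    rw [show (2:ℝ) + 4 / q = (2 * q + 4) / q by field_simp, div_lt_iff₀ h6]
    by_contra hcon
    push Not at hcon
    -- s q ≤ 2q+4, so s (3q²/8 - q/4) ≤ (2q+4)(3q/8-1/4) , q² < that
    have h7 : q * q < (2 * q + 4) * (3 / 8 * q - 1 / 4) := by
      have h8 : q * q < s * (3 / 8 * q - 1 / 4) * q := by nlinarith
      have h9 : s * (3 / 8 * q - 1 / 4) * q = (s * q) * (3 / 8 * q - 1 / 4) := by ring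
      have h10 : 0 < 3 / 8 * q - 1 / 4 := by linarith
      have h11 := mul_le_mul_of_nonneg_right hcon h10.le
      linarith
    nlinarith

end Pf31f09
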