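import Mathlib
import Pool.Agent.Lib.Pf31f09.Tdiff

/-! Dirichlet moments of the energies of a Gaussian direction. -/

noncomputable section

namespace Pf31f09

open Finset MeasureTheory ProbabilityTheory Filter

variable {n : ℕ}

/-- The energy shares. -/
def zz (g : E n) (i : Fin n) : ℝ := g i ^ 2 / ∑ j, g j ^ 2

theorem zz_nonneg (g : E n) (i : Fin n) : 0 ≤ zz g i :=
  div_nonneg (sq_nonneg _) (Finset.sum_nonneg fun _ _ => sq_nonneg _)

theorem zz_le_one (g : E n) (i : Fin n) : zz g i ≤ 1 := by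
  refine div_le_one_of_le₀ ?_ (Finset.sum_nonneg fun _ _ => sq_nonneg _)
  exact Finset.single_le_sum (f := fun j => g j ^ 2) (fun j _ => sq_nonneg _) (mem_univ i)

theorem measurable_zz (i : Fin n) : Measurable fun g : E n => zz g i := by
  unfold zz
  fun_prop

theorem sum_zz {g : E n} (hg : ∑ l, g l ^ 2 ≠ 0) : ∑ i, zz g i = 1 := by
  unfold zz
  rw [← Finset.sum_div, div_self hg]

theorem integral_gam_rot {i j : Fin n} (h : i ≠ j) (θ : ℝ) {F : E n → ℝ} (hF : Measurable F) :
    ∫ g, F (rot i j θ g) ∂(gam n) = ∫ g, F g ∂(gam n) := by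
  set e : E n ≃ₗᵢ[ℝ] E n := (rotL h θ).toLinearIsometryEquiv rfl with he
  have h1 : (gam n).map e = gam n := by
    unfold gam
    exact stdGaussian_map e
  conv_rhs => rw [← h1]
  rw [integral_map e.continuous.measurable.aemeasurable
    hF.stronglyMeasurable.aestronglyMeasurable]
  rfl

theorem integrable_bdd {F : E n → ℝ} (hF : Measurable F) {C : ℝ} (hC : ∀ g, |F g| ≤ C) :
    Integrable F (gam n) :=
  Integrable.of_bound hF.aestronglyMeasurable C (Eventually.of_forall fun g => by
    rw [Real.norm_eq_abs]; exact hC g)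

theorem abs_zz (g : E n) (i : Fin n) : |zz g i| ≤ 1 := by
  rw [abs_of_nonneg (zz_nonneg g i)]
  exact zz_le_one g i

theorem abs_zz_mul (g : E n) (i j : Fin n) : |zz g i * zz g j| ≤ 1 := by
  rw [abs_mul]
  exact mul_le_one₀ (abs_zz g i) (abs_nonneg _) (abs_zz g j)

theorem integrable_zz (i : Fin n) : Integrable (fun g : E n => zz g i) (gam n) :=
  integrable_bdd (measurable_zz i) fun g => abs_zz g i

theorem integrable_zz_mul (i j : Fin n) : Integrable (fun g : E n => zz g i * zz g j) (gam n) :=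
  integrable_bdd ((measurable_zz i).mul (measurable_zz j)) fun g => abs_zz_mul g i j

theorem sum_sq_rot {i j : Fin n} (h : i ≠ j) (θ : ℝ) (g : E n) :
    ∑ l, rot i j θ g l ^ 2 = ∑ l, g l ^ 2 := rot_norm h θ g

theorem zz_rot_half {i j : Fin n} (h : i ≠ j) (g : E n) :
    zz (rot i j (Real.pi / 2) g) i = zz g j := by
  unfold zz
  rw [sum_sq_rot h, rot_i]
  simp

theorem zz_rot_quarter {i j : Fin n} (h : i ≠ j) (g : E n) :
    zz (rot i j (Real.pi / 4) g) i ^ 2 + zz (rot i j (-(Real.pi / 4)) g) i ^ 2 =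
      1 / 2 * (zz g i + zz g j) ^ 2 + 2 * (zz g i * zz g j) := by
  unfold zz
  rw [sum_sq_rot h, sum_sq_rot h, rot_i, rot_i]
  rw [Real.cos_neg, Real.sin_neg, Real.cos_pi_div_four, Real.sin_pi_div_four]
  have h2 : Real.sqrt 2 ^ 2 = 2 := Real.sq_sqrt (by norm_num)
  set s := Real.sqrt 2
  have e1 : (g i * (s / 2) - g j * (s / 2)) ^ 2 = 1 / 2 * (g i - g j) ^ 2 := by
    linear_combination (1 / 4) * (g i - g j) ^ 2 * h2
  have e2 : (g i * (s / 2) - g j * -(s / 2)) ^ 2 = 1 / 2 * (g i + g j) ^ 2 := by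
    linear_combination (1 / 4) * (g i + g j) ^ 2 * h2
  rw [e1, e2]
  ring

/-- The second moment does not depend on the coordinate. -/
theorem zz_sq_eq (i j : Fin n) :
    ∫ g, zz g i ^ 2 ∂(gam n) = ∫ g, zz g j ^ 2 ∂(gam n) := by
  by_cases h : i = j
  · rw [h]
  · have h1 := integral_gam_rot h (Real.pi / 2) (F := fun g => zz g i ^ 2)
      ((measurable_zz i).pow_const 2)
    simp only [zz_rot_half h] at h1
    exact h1.symm

theorem zz_one_eq (i j : Fin n) :
    ∫ g, zz g i ∂(gam n) = ∫ g, zz g j ∂(gam n) := by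
  by_cases h : i = j
  · rw [h]
  · have h1 := integral_gam_rot h (Real.pi / 2) (F := fun g => zz g i) (measurable_zz i)
    simp only [zz_rot_half h] at h1
    exact h1.symm

theorem zz_cross {i j : Fin n} (h : i ≠ j) :
    ∫ g, zz g i * zz g j ∂(gam n) = 1 / 3 * ∫ g, zz g i ^ 2 ∂(gam n) := by
  have hm : Measurable fun g : E n => zz g i ^ 2 := (measurable_zz i).pow_const 2
  have h1 := integral_gam_rot h (Real.pi / 4) hm
  have h2 := integral_gam_rot h (-(Real.pi / 4)) hm
  have hb : ∀ g : E n, |zz g i ^ 2| ≤ 1 := by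
    intro g
    rw [pow_two]
    exact abs_zz_mul g i i
  have i1 : Integrable (fun g => zz (rot i j (Real.pi / 4) g) i ^ 2) (gam n) :=
    integrable_bdd (hm.comp ((measurable_rot i j).comp
      (measurable_const.prodMk measurable_id))) fun g => hb _
  have i2 : Integrable (fun g => zz (rot i j (-(Real.pi / 4)) g) i ^ 2) (gam n) :=
    integrable_bdd (hm.comp ((measurable_rot i j).comp
      (measurable_const.prodMk measurable_id))) fun g => hb _
  have h3 := integral_add i1 i2
  rw [h1, h2] at h3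
  simp only [zz_rot_quarter h] at h3
  have e : ∀ g : E n, 1 / 2 * (zz g i + zz g j) ^ 2 + 2 * (zz g i * zz g j) =
      1 / 2 * zz g i ^ 2 + 1 / 2 * zz g j ^ 2 + 3 * (zz g i * zz g j) := by
    intro g; ring
  simp only [e] at h3
  have j1 : Integrable (fun g : E n => zz g i ^ 2) (gam n) := integrable_bdd hm hb
  have j2 : Integrable (fun g : E n => zz g j ^ 2) (gam n) := by
    refine integrable_bdd ((measurable_zz j).pow_const 2) (C := 1) fun g => ?_
    rw [pow_two]
    exact abs_zz_mul g j j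
  have j12 : Integrable (fun g : E n => 1 / 2 * zz g i ^ 2 + 1 / 2 * zz g j ^ 2) (gam n) :=
    (j1.const_mul _).add (j2.const_mul _)
  rw [integral_add j12 ((integrable_zz_mul i j).const_mul _),
    integral_add (j1.const_mul _) (j2.const_mul _), integral_const_mul, integral_const_mul,
    integral_const_mul, zz_sq_eq j i] at h3
  linarith

theorem ae_sum_zz (k : Fin n) : ∀ᵐ g ∂(gam n), ∑ i, zz g i = 1 := by
  filter_upwards [gam_ae_ne_all n] with g hg
  exact sum_zz (sum_g_pos k hg).ne'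

/-- First moment. -/
theorem zz_mean (i : Fin n) : ∫ g, zz g i ∂(gam n) = 1 / n := by
  have h1 : ∫ g, ∑ l, zz g l ∂(gam n) = 1 := by
    rw [integral_congr_ae (ae_sum_zz i), integral_const, probReal_univ, one_smul]
  rw [integral_finsetSum _ fun l _ => integrable_zz l] at h1
  rw [Finset.sum_congr rfl fun l _ => zz_one_eq l i, Finset.sum_const, Finset.card_univ,
    Fintype.card_fin, nsmul_eq_mul] at h1
  have hn : (n : ℝ) ≠ 0 := by
    intro h
    rw [h] at h1
    norm_num at h1
  field_simp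
  linarith

theorem zz_second (i : Fin n) : ∫ g, zz g i ^ 2 ∂(gam n) = 3 / (n * (n + 2)) := by
  have h1 : ∫ g, (∑ l, zz g l) * (∑ l, zz g l) ∂(gam n) = 1 := by
    have : ∀ᵐ g ∂(gam n), (∑ l, zz g l) * (∑ l, zz g l) = 1 := by
      filter_upwards [ae_sum_zz i] with g hg
      rw [hg, one_mul]
    rw [integral_congr_ae this, integral_const, probReal_univ, one_smul]
  simp only [Finset.sum_mul_sum] at h1
  rw [integral_finsetSum _ fun l _ => integrable_finsetSum _ fun m _ => integrable_zz_mul l m] at h1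
  have h2 : ∀ l : Fin n, ∫ g, ∑ m, zz g l * zz g m ∂(gam n) =
      (n + 2) / 3 * ∫ g, zz g i ^ 2 ∂(gam n) := by
    intro l
    rw [integral_finsetSum _ fun m _ => integrable_zz_mul l m,
      ← Finset.add_sum_erase univ _ (mem_univ l)]
    have h3 : ∀ m ∈ univ.erase l, ∫ g, zz g l * zz g m ∂(gam n) =
        1 / 3 * ∫ g, zz g i ^ 2 ∂(gam n) := by
      intro m hm
      rw [zz_cross (ne_of_mem_erase hm).symm, zz_sq_eq l i]
    rw [Finset.sum_congr rfl h3, Finset.sum_const, Finset.card_erase_of_mem (mem_univ l),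
      Finset.card_univ, Fintype.card_fin, nsmul_eq_mul]
    have h4 : ∫ g, zz g l * zz g l ∂(gam n) = ∫ g, zz g i ^ 2 ∂(gam n) := by
      rw [← zz_sq_eq l i]
      refine integral_congr_ae (Eventually.of_forall fun g => ?_)
      change zz g l * zz g l = zz g l ^ 2
      ring
    have hn1 : 1 ≤ n := by have := l.2; omega
    rw [h4, Nat.cast_sub hn1]
    push_cast
    ring
  rw [Finset.sum_congr rfl fun l _ => h2 l, Finset.sum_const, Finset.card_univ, Fintype.card_fin,
    nsmul_eq_mul] at h1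
  have hn : (0 : ℝ) < n := by
    have := i.2
    exact_mod_cast (by omega : 0 < n)
  rw [eq_div_iff (by positivity)]
  linarith

theorem dir_one (i : Fin n) : ∫ g : E n, g i ^ 2 / ∑ j, g j ^ 2 ∂(gam n) = 1 / n := zz_mean i

theorem dir_two (i : Fin n) :
    ∫ g : E n, (g i ^ 2 / ∑ j, g j ^ 2) ^ 2 ∂(gam n) = 3 / (n * (n + 2)) := zz_second i

theorem dir_cross {i j : Fin n} (h : i ≠ j) :
    ∫ g : E n, (g i ^ 2 / ∑ l, g l ^ 2) * (g j ^ 2 / ∑ l, g l ^ 2) ∂(gam n) =
      1 / (n * (n + 2)) := by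
  have h1 := zz_cross h
  rw [zz_second] at h1
  rw [show (1 : ℝ) / (n * (n + 2)) = 1 / 3 * (3 / (n * (n + 2))) by ring]
  exact h1

end Pf31f09
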