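import Pool.Agent.Lib.Pf31f09.UConst
import Pool.Agent.Lib.Pf31f09.Tdefs

/-! One-step inequalities for the moments of the differences of energies. -/

noncomputable section

namespace Pf31f09

open Finset MeasureTheory Filter Topology

/-- sum of `q`-th powers -/
def Vq {n : ℕ} (q : ℝ) (d : Fin n → ℝ) : ℝ := ∑ i, |d i| ^ q

/-- sum of squares -/
def Us {n : ℕ} (d : Fin n → ℝ) : ℝ := ∑ i, d i ^ 2

/-- one-step average over the pair and the angle -/
def sav {n : ℕ} (Ψ : (Fin n → ℝ) → ℝ) (d : Fin n → ℝ) : ℝ :=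
  ((pairs n).card : ℝ)⁻¹ * ∑ p ∈ pairs n, avg fun φ => Ψ (updD p.1 p.2 φ d)

theorem sum_updD {n : ℕ} {i j : Fin n} (hij : i ≠ j) (φ : ℝ) (d : Fin n → ℝ) (f : ℝ → ℝ) :
    ∑ k, f (updD i j φ d k) = (∑ k, f (d k)) - (f (d i) + f (d j))
      + (f ((d i + d j) * Real.cos φ ^ 2) + f ((d i + d j) * Real.sin φ ^ 2)) := by
  classical
  have h1 : ∀ w : Fin n → ℝ, ∑ k, w k
      = w i + w j + ∑ k ∈ (Finset.univ.erase i).erase j, w k := by
    intro w
    rw [← Finset.add_sum_erase _ _ (Finset.mem_univ i),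
      ← Finset.add_sum_erase (Finset.univ.erase i) _ (show j ∈ Finset.univ.erase i by
        simp [hij.symm])]
    ring
  rw [h1 (fun k => f (updD i j φ d k)), h1 (fun k => f (d k))]
  have h2 : updD i j φ d i = (d i + d j) * Real.cos φ ^ 2 := by simp [updD]
  have h3 : updD i j φ d j = (d i + d j) * Real.sin φ ^ 2 := by simp [updD, hij.symm]
  have h4 : ∑ k ∈ (Finset.univ.erase i).erase j, f (updD i j φ d k)
      = ∑ k ∈ (Finset.univ.erase i).erase j, f (d k) := by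
    refine Finset.sum_congr rfl fun k hk => ?_
    simp only [Finset.mem_erase, Finset.mem_univ, and_true] at hk
    simp [updD, hk.1, hk.2]
  rw [h2, h3, h4]
  ring

theorem avg_congr {f g : ℝ → ℝ} (h : ∀ φ, f φ = g φ) : avg f = avg g := by
  rw [show f = g from funext h]

theorem pairs_ne {n : ℕ} {p : Fin n × Fin n} (hp : p ∈ pairs n) : p.1 ≠ p.2 :=
  (mem_pairs.1 hp).ne

/-! ### Elementary inequalities -/

theorem two_rpow_le {q : ℝ} (hq : q ≤ 3) : (2:ℝ) ^ q ≤ 8 := by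
  calc (2:ℝ) ^ q ≤ 2 ^ (3:ℝ) := Real.rpow_le_rpow_of_exponent_le (by norm_num) hq
    _ = 8 := by norm_num [Real.rpow_ofNat]

/-- `(1+r)^q ≤ 1 + 7 r` for `0 ≤ r ≤ 1`, `1 ≤ q ≤ 3` -/
theorem one_add_rpow_le {r q : ℝ} (h0 : 0 ≤ r) (h1 : r ≤ 1) (hq1 : 1 ≤ q) (hq : q ≤ 3) :
    (1 + r) ^ q ≤ 1 + 7 * r := by
  have hc := convexOn_rpow hq1
  have h := hc.2 (show (1:ℝ) ∈ Set.Ici 0 by norm_num [Set.mem_Ici])
    (show (2:ℝ) ∈ Set.Ici 0 by norm_num [Set.mem_Ici])
    (show (0:ℝ) ≤ 1 - r by linarith) h0 (by ring)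
  simp only [smul_eq_mul, Real.one_rpow] at h
  have e : (1 - r) * 1 + r * 2 = 1 + r := by ring
  rw [e] at h
  have h2 := two_rpow_le hq
  nlinarith

theorem add_rpow_cross {x y q : ℝ} (hx : 0 ≤ x) (hy : 0 ≤ y) (hq1 : 1 < q) (hq : q ≤ 3) :
    (x + y) ^ q ≤ x ^ q + y ^ q + 7 * (x ^ (q - 1) * y + y ^ (q - 1) * x) := by
  wlog hyx : y ≤ x generalizing x y with H
  · have := H hy hx (le_of_not_ge hyx)
    rw [add_comm y x] at this
    linarith
  rcases hx.eq_or_lt with h | h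
  · have hy0 : y = 0 := le_antisymm (by linarith) hy
    rw [← h, hy0, Real.zero_rpow (by linarith), Real.zero_rpow (by linarith)]
    simp [Real.zero_rpow (show q ≠ 0 by linarith)]
  · have hr0 : 0 ≤ y / x := by positivity
    have hr1 : y / x ≤ 1 := by rw [div_le_one h]; exact hyx
    have h1 := one_add_rpow_le hr0 hr1 hq1.le hq
    have e1 : x + y = x * (1 + y / x) := by field_simp
    rw [e1, Real.mul_rpow h.le (by positivity)]
    have h2 := mul_le_mul_of_nonneg_left h1 (Real.rpow_nonneg h.le q)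
    have e2 : x ^ q * (1 + 7 * (y / x)) = x ^ q + 7 * (x ^ (q - 1) * y) := by
      rw [Real.rpow_sub_one h.ne']
      field_simp
    rw [e2] at h2
    have h3 := Real.rpow_nonneg hy q
    have h4 := mul_nonneg (Real.rpow_nonneg hy (q - 1)) h.le
    linarith

theorem abs_add_rpow_cross {x y q : ℝ} (hq1 : 1 < q) (hq : q ≤ 3) :
    |x + y| ^ q ≤ |x| ^ q + |y| ^ q + 7 * (|x| ^ (q - 1) * |y| + |y| ^ (q - 1) * |x|) :=
  (Real.rpow_le_rpow (abs_nonneg _) (abs_add_le x y) (by linarith)).trans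
    (add_rpow_cross (abs_nonneg _) (abs_nonneg _) hq1 hq)

/-- power mean -/
theorem sum_rpow_le {n : ℕ} (hn : 0 < n) (d : Fin n → ℝ) {r : ℝ} (hr0 : 0 < r) (hr : r ≤ 2) :
    ∑ i, |d i| ^ r ≤ n * (Us d / n) ^ (r / 2) := by
  have hn' : (0:ℝ) < n := by exact_mod_cast hn
  have h := Real.arith_mean_le_rpow_mean (s := univ) (w := fun _ : Fin n => (1 / n : ℝ))
    (z := fun i => |d i| ^ r) (fun _ _ => by positivity) (by simp [hn'.ne'])
    (fun i _ => Real.rpow_nonneg (abs_nonneg _) _) (p := 2 / r) (by rw [le_div_iff₀ hr0]; linarith)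
  have e1 : ∀ i, (|d i| ^ r) ^ (2 / r) = d i ^ 2 := by
    intro i
    rw [← Real.rpow_mul (abs_nonneg _), mul_div_cancel₀ _ hr0.ne', Real.rpow_two, sq_abs]
  simp only [e1, ← Finset.mul_sum] at h
  have e2 : (1 / (2 / r)) = r / 2 := by field_simp
  rw [e2] at h
  have h2 := mul_le_mul_of_nonneg_left h hn'.le
  rw [← mul_assoc, mul_one_div_cancel hn'.ne', one_mul] at h2
  refine h2.trans (le_of_eq ?_)
  rw [Us]
  congr 2
  field_simp

/-! ### The `q`-th moment -/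

theorem avg_V_updD {n : ℕ} {i j : Fin n} (hij : i ≠ j) (d : Fin n → ℝ) {q : ℝ} (hq : 0 ≤ q) :
    avg (fun φ => Vq q (updD i j φ d)) = Vq q d - (|d i| ^ q + |d j| ^ q)
      + 2 * mom q * |d i + d j| ^ q := by
  have h1 : ∀ φ, Vq q (updD i j φ d) = (Vq q d - (|d i| ^ q + |d j| ^ q))
      + ((|d i + d j| * Real.cos φ ^ 2) ^ q + (|d i + d j| * Real.sin φ ^ 2) ^ q) := by
    intro φ
    unfold Vq
    rw [sum_updD hij φ d (fun x => |x| ^ q), abs_mul, abs_mul,
      abs_of_nonneg (sq_nonneg (Real.cos φ)), abs_of_nonneg (sq_nonneg (Real.sin φ))]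
  rw [avg_congr h1]
  have hb1 : ∀ φ, |(|d i + d j| * Real.cos φ ^ 2) ^ q| ≤ |d i + d j| ^ q := fun φ =>
    pow_bdd (abs_nonneg _) (sq_nonneg _) (Real.cos_sq_le_one φ) hq
  have hb2 : ∀ φ, |(|d i + d j| * Real.sin φ ^ 2) ^ q| ≤ |d i + d j| ^ q := fun φ =>
    pow_bdd (abs_nonneg _) (sq_nonneg _) (Real.sin_sq_le_one φ) hq
  have m1 := measurable_powc (|d i + d j|) q
  have m2 := measurable_pows (|d i + d j|) q
  have h3 := avg_add (C := |Vq q d - (|d i| ^ q + |d j| ^ q)| + 2 * |d i + d j| ^ q)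
    (f := fun _ => Vq q d - (|d i| ^ q + |d j| ^ q))
    (g := fun φ => (|d i + d j| * Real.cos φ ^ 2) ^ q + (|d i + d j| * Real.sin φ ^ 2) ^ q)
    measurable_const (m1.add m2) (fun φ => by
      have := Real.rpow_nonneg (abs_nonneg (d i + d j)) q
      linarith) (fun φ => by
      refine (abs_add_le _ _).trans ?_
      have := hb1 φ
      have := hb2 φ
      have := abs_nonneg (Vq q d - (|d i| ^ q + |d j| ^ q))
      linarith)
  rw [h3, avg_const, avg_add (C := |d i + d j| ^ q) m1 m2 hb1 hb2, avg_powc (abs_nonneg _),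
    avg_pows (abs_nonneg _)]
  ring

theorem mom_le_three_eighths {q : ℝ} (hq : 2 ≤ q) : mom q ≤ 3 / 8 := by
  rw [← mom_two]
  unfold mom
  refine avg_mono (measurable_cosq _) (measurable_cosq _) (C := 1) (cosq_bdd (by linarith))
    (cosq_bdd (by norm_num)) fun φ => ?_
  rcases (sq_nonneg (Real.cos φ)).eq_or_lt with h | h
  · rw [← h, Real.zero_rpow (by linarith), Real.zero_rpow (by norm_num)]
  · exact Real.rpow_le_rpow_of_exponent_ge h (Real.cos_sq_le_one φ) hq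

/-- one-step inequality for `V` -/
theorem sav_V {n : ℕ} (hn : 2 ≤ n) (d : Fin n → ℝ) {q : ℝ} (hq2 : 2 ≤ q) (hq3 : q ≤ 3) :
    sav (Vq q) d ≤ (1 + kap q / n) * Vq q d + 21 * (Us d / n) ^ (q / 2) := by
  have hn' : (2:ℝ) ≤ n := by exact_mod_cast hn
  have hm := mom_le_three_eighths hq2
  have hm0 := mom_nonneg q
  have hV : 0 ≤ Vq q d := Finset.sum_nonneg fun i _ => Real.rpow_nonneg (abs_nonneg _) _
  have hU : 0 ≤ Us d := Finset.sum_nonneg fun i _ => sq_nonneg _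
  have h1 : ∑ p ∈ pairs n, avg (fun φ => Vq q (updD p.1 p.2 φ d))
      ≤ ∑ p ∈ pairs n, (Vq q d + (2 * mom q - 1) * (|d p.1| ^ q + |d p.2| ^ q)
        + 14 * mom q * (|d p.1| ^ (q - 1) * |d p.2| + |d p.2| ^ (q - 1) * |d p.1|)) := by
    refine Finset.sum_le_sum fun p hp => ?_
    rw [avg_V_updD (pairs_ne hp) d (by linarith)]
    have := abs_add_rpow_cross (x := d p.1) (y := d p.2) (q := q) (by linarith) hq3
    nlinarith
  have h2 : ∑ p ∈ pairs n, (|d p.1| ^ (q - 1) * |d p.2| + |d p.2| ^ (q - 1) * |d p.1|)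
      ≤ (n:ℝ) ^ 2 * (Us d / n) ^ (q / 2) := by
    rw [sum_pairs (fun i j => |d i| ^ (q - 1) * |d j|)]
    have h3 : ∑ i, ∑ j ∈ univ.erase i, |d i| ^ (q - 1) * |d j|
        ≤ ∑ i, ∑ j, |d i| ^ (q - 1) * |d j| := by
      refine Finset.sum_le_sum fun i _ => Finset.sum_le_sum_of_subset_of_nonneg (by simp)
        fun j _ _ => ?_
      exact mul_nonneg (Real.rpow_nonneg (abs_nonneg _) _) (abs_nonneg _)
    refine h3.trans ?_
    rw [← Finset.sum_mul_sum]
    have h4 := sum_rpow_le (n := n) (by omega) d (r := q - 1) (by linarith) (by linarith)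
    have h5 := sum_rpow_le (n := n) (by omega) d (r := 1) (by norm_num) (by norm_num)
    simp only [Real.rpow_one] at h5
    have h6 : 0 ≤ ∑ i, |d i| := Finset.sum_nonneg fun i _ => abs_nonneg _
    have h7 : (0:ℝ) ≤ n * (Us d / n) ^ ((q - 1) / 2) := by positivity
    refine (mul_le_mul h4 h5 h6 h7).trans (le_of_eq ?_)
    have h8 : (Us d / n) ^ ((q - 1) / 2) * (Us d / n) ^ ((1:ℝ) / 2) = (Us d / n) ^ (q / 2) := by
      rw [← Real.rpow_add_of_nonneg (by positivity) (by linarith) (by norm_num)]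
      congr 1
      ring
    rw [← h8]
    ring
  have hcard := card_pairs n
  have hcpos : (0:ℝ) < (pairs n).card := by rw [hcard]; nlinarith
  unfold sav
  rw [inv_mul_le_iff₀ hcpos]
  refine h1.trans ?_
  rw [Finset.sum_add_distrib, Finset.sum_add_distrib, ← Finset.mul_sum, ← Finset.mul_sum,
    Finset.sum_const, nsmul_eq_mul, sum_pairs_add (fun i => |d i| ^ q)]
  have hV' : ∑ i, |d i| ^ q = Vq q d := rfl
  rw [hV', hcard]
  have h9 : 14 * mom q * ∑ p ∈ pairs n,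
      (|d p.1| ^ (q - 1) * |d p.2| + |d p.2| ^ (q - 1) * |d p.1|)
      ≤ 21 / 4 * ((n:ℝ) ^ 2 * (Us d / n) ^ (q / 2)) := by
    have h10 : 0 ≤ (n:ℝ) ^ 2 * (Us d / n) ^ (q / 2) := by positivity
    have h11 : 0 ≤ ∑ p ∈ pairs n,
        (|d p.1| ^ (q - 1) * |d p.2| + |d p.2| ^ (q - 1) * |d p.1|) := by
      refine Finset.sum_nonneg fun p _ => ?_
      positivity
    have : 14 * mom q ≤ 21 / 4 := by linarith
    exact mul_le_mul this h2 h11 (by norm_num)
  have h12 : (n:ℝ) ^ 2 ≤ 2 * (n * (n - 1)) := by nlinarith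
  have h13 : 0 ≤ (Us d / n) ^ (q / 2) := by positivity
  have h14 : 21 / 4 * ((n:ℝ) ^ 2 * (Us d / n) ^ (q / 2))
      ≤ (n:ℝ) * (n - 1) / 2 * (21 * (Us d / n) ^ (q / 2)) := by nlinarith
  have h15 : (n:ℝ) * (n - 1) / 2 * (kap q / n * Vq q d)
      = (2 * mom q - 1) * (((n:ℝ) - 1) * Vq q d) := by
    unfold kap
    field_simp
    ring
  nlinarith

end Pf31f09
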