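import Pool.Agent.Lib.Pf31f09.UMom

/-! One-step identities for the second moment and its powers. -/

noncomputable section

namespace Pf31f09

open Finset MeasureTheory Filter Topology

theorem avg_four : avg (fun φ => Real.cos φ ^ 4 + Real.sin φ ^ 4) = 3 / 4 := by
  have h := L1_pow (z := 1) (q := 2) zero_le_one (by norm_num)
  unfold L1 at h
  rw [mom_two, Real.one_rpow] at h
  rw [avg_congr (g := fun φ => (1 * Real.cos φ ^ 2) ^ (2:ℝ) + (1 * Real.sin φ ^ 2) ^ (2:ℝ)), h]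
  · norm_num
  · intro φ
    rw [one_mul, one_mul, Real.rpow_two, Real.rpow_two]
    ring

/-- change of `U` in one update -/
def Del {n : ℕ} (i j : Fin n) (φ : ℝ) (d : Fin n → ℝ) : ℝ :=
  (d i + d j) ^ 2 * (Real.cos φ ^ 4 + Real.sin φ ^ 4) - (d i ^ 2 + d j ^ 2)

theorem Us_updD {n : ℕ} {i j : Fin n} (hij : i ≠ j) (φ : ℝ) (d : Fin n → ℝ) :
    Us (updD i j φ d) = Us d + Del i j φ d := by
  unfold Us Del
  rw [sum_updD hij φ d (fun x => x ^ 2)]
  ring

theorem four_bounds (φ : ℝ) : 0 ≤ Real.cos φ ^ 4 + Real.sin φ ^ 4 ∧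
    Real.cos φ ^ 4 + Real.sin φ ^ 4 ≤ 1 := by
  constructor
  · positivity
  · have h := Real.sin_sq_add_cos_sq φ
    have h1 := sq_nonneg (Real.sin φ)
    have h2 := sq_nonneg (Real.cos φ)
    nlinarith

theorem abs_Del {n : ℕ} (i j : Fin n) (φ : ℝ) (d : Fin n → ℝ) :
    |Del i j φ d| ≤ d i ^ 2 + d j ^ 2 := by
  have h := four_bounds φ
  unfold Del
  rw [abs_le]
  constructor
  · have : 0 ≤ (d i + d j) ^ 2 * (Real.cos φ ^ 4 + Real.sin φ ^ 4) := mul_nonneg (sq_nonneg _) h.1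
    linarith
  · have : (d i + d j) ^ 2 * (Real.cos φ ^ 4 + Real.sin φ ^ 4) ≤ (d i + d j) ^ 2 :=
      mul_le_of_le_one_right (sq_nonneg _) h.2
    nlinarith [sq_nonneg (d i - d j)]

theorem measurable_four : Measurable fun φ : ℝ => Real.cos φ ^ 4 + Real.sin φ ^ 4 := by fun_prop

theorem avg_Del {n : ℕ} (i j : Fin n) (d : Fin n → ℝ) :
    avg (fun φ => Del i j φ d) = 3 / 4 * (d i + d j) ^ 2 - (d i ^ 2 + d j ^ 2) := by
  unfold Del
  have h := avg_add (C := (d i + d j) ^ 2 + (d i ^ 2 + d j ^ 2))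
    (f := fun φ => (d i + d j) ^ 2 * (Real.cos φ ^ 4 + Real.sin φ ^ 4))
    (g := fun _ => -(d i ^ 2 + d j ^ 2)) (measurable_four.const_mul _) measurable_const
    (fun φ => by
      have h := four_bounds φ
      rw [abs_of_nonneg (mul_nonneg (sq_nonneg _) h.1)]
      have := mul_le_of_le_one_right (sq_nonneg (d i + d j)) h.2
      have := sq_nonneg (d i)
      have := sq_nonneg (d j)
      linarith)
    (fun φ => by
      rw [abs_neg, abs_of_nonneg (by positivity)]
      have := sq_nonneg (d i + d j)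
      linarith)
  simp only [sub_eq_add_neg]
  rw [h, avg_const_mul, avg_four, avg_const]
  ring

/-- the exact second moment recursion, for centred vectors -/
theorem sav_U {n : ℕ} (hn : 2 ≤ n) (d : Fin n → ℝ) (hd : ∑ i, d i = 0) :
    sav Us d = (1 - ((n:ℝ) + 2) / (2 * n * (n - 1))) * Us d := by
  have hn' : (2:ℝ) ≤ n := by exact_mod_cast hn
  have h1 : ∀ p ∈ pairs n, avg (fun φ => Us (updD p.1 p.2 φ d))
      = Us d + (-(1/4)) * (d p.1 ^ 2 + d p.2 ^ 2) + 3 / 4 * (d p.1 * d p.2 + d p.2 * d p.1) := by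
    intro p hp
    rw [avg_congr (fun φ => Us_updD (pairs_ne hp) φ d)]
    have hm : Measurable fun φ => Del p.1 p.2 φ d := by unfold Del; fun_prop
    have h := avg_add (C := |Us d| + (d p.1 ^ 2 + d p.2 ^ 2)) (f := fun _ => Us d)
      (g := fun φ => Del p.1 p.2 φ d) measurable_const hm
      (fun φ => by have := sq_nonneg (d p.1); have := sq_nonneg (d p.2); linarith)
      (fun φ => (abs_Del _ _ φ d).trans (by have := abs_nonneg (Us d); linarith))
    rw [h, avg_const, avg_Del]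
    ring
  have h2 : ∑ p ∈ pairs n, (d p.1 * d p.2 + d p.2 * d p.1) = -Us d := by
    rw [sum_pairs (fun i j => d i * d j)]
    have : ∀ i, ∑ j ∈ univ.erase i, d i * d j = - d i ^ 2 := by
      intro i
      have h3 := Finset.add_sum_erase univ (fun j => d i * d j) (Finset.mem_univ i)
      rw [← Finset.mul_sum (s := univ), hd, mul_zero] at h3
      linarith
    rw [Finset.sum_congr rfl (fun i _ => this i), Finset.sum_neg_distrib]
    rfl
  have hcard := card_pairs n
  have hcpos : (0:ℝ) < (pairs n).card := by rw [hcard]; nlinarith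
  unfold sav
  rw [inv_mul_eq_iff_eq_mul₀ hcpos.ne', Finset.sum_congr rfl h1, Finset.sum_add_distrib,
    Finset.sum_add_distrib, ← Finset.mul_sum, ← Finset.mul_sum, h2, Finset.sum_const,
    nsmul_eq_mul, sum_pairs_add (fun i => d i ^ 2), hcard]
  have hU' : ∑ i, d i ^ 2 = Us d := rfl
  rw [hU']
  have : (n:ℝ) - 1 ≠ 0 := by linarith
  have : (n:ℝ) ≠ 0 := by linarith
  field_simp
  ring


theorem one_add_rpow_pos {x p : ℝ} (hx : 0 ≤ x) (hp1 : 1 ≤ p) (hp2 : p ≤ 2) :
    (1 + x) ^ p ≤ 1 + p * x + x ^ p := by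
  set f : ℝ → ℝ := fun x => 1 + p * x + x ^ p - (1 + x) ^ p with hf
  have hd : ∀ y : ℝ, HasDerivAt f (0 + p * 1 + p * y ^ (p - 1) - 1 * p * (1 + y) ^ (p - 1)) y := by
    intro y
    have h1 : HasDerivAt (fun y : ℝ => (1:ℝ) + p * y) (0 + p * 1) y :=
      (hasDerivAt_const y 1).add ((hasDerivAt_id y).const_mul p)
    have h2 : HasDerivAt (fun y : ℝ => y ^ p) (p * y ^ (p - 1)) y :=
      Real.hasDerivAt_rpow_const (Or.inr hp1)
    have h3 : HasDerivAt (fun y : ℝ => (1 + y) ^ p) (1 * p * (1 + y) ^ (p - 1)) y := by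
      have h4 : HasDerivAt (fun y : ℝ => 1 + y) 1 y := by
        simpa using (hasDerivAt_id y).const_add 1
      exact h4.rpow_const (Or.inr hp1)
    exact (h1.add h2).sub h3
  have hmono : MonotoneOn f (Set.Ici 0) := by
    refine monotoneOn_of_deriv_nonneg (convex_Ici 0) ?_ ?_ ?_
    · exact fun y _ => (hd y).continuousAt.continuousWithinAt
    · exact fun y _ => (hd y).differentiableAt.differentiableWithinAt
    · intro y hy
      rw [interior_Ici] at hy
      have hy0 : 0 < y := hy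
      rw [(hd y).deriv]
      have h5 : (1 + y) ^ (p - 1) ≤ 1 ^ (p - 1) + y ^ (p - 1) :=
        Real.rpow_add_le_add_rpow zero_le_one hy0.le (by linarith) (by linarith)
      rw [Real.one_rpow] at h5
      nlinarith
  have := hmono (show (0:ℝ) ∈ Set.Ici 0 by simp) (show x ∈ Set.Ici 0 from hx) hx
  simp only [hf] at this
  rw [Real.zero_rpow (by linarith)] at this
  norm_num at this
  linarith

theorem one_sub_rpow {y p : ℝ} (hy : 0 ≤ y) (hy1 : y ≤ 1) (hp1 : 1 ≤ p) (hp2 : p ≤ 2) :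
    (1 - y) ^ p ≤ 1 - p * y + y ^ p := by
  set f : ℝ → ℝ := fun x => 1 - p * x + x ^ p - (1 - x) ^ p with hf
  have hd : ∀ y : ℝ, HasDerivAt f (0 - p * 1 + p * y ^ (p - 1) - -1 * p * (1 - y) ^ (p - 1)) y := by
    intro y
    have h1 : HasDerivAt (fun y : ℝ => (1:ℝ) - p * y) (0 - p * 1) y :=
      (hasDerivAt_const y 1).sub ((hasDerivAt_id y).const_mul p)
    have h2 : HasDerivAt (fun y : ℝ => y ^ p) (p * y ^ (p - 1)) y :=
      Real.hasDerivAt_rpow_const (Or.inr hp1)
    have h3 : HasDerivAt (fun y : ℝ => (1 - y) ^ p) (-1 * p * (1 - y) ^ (p - 1)) y := by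
      have h4 : HasDerivAt (fun y : ℝ => 1 - y) (-1) y := by
        simpa using (hasDerivAt_id y).const_sub 1
      exact h4.rpow_const (Or.inr hp1)
    exact (h1.add h2).sub h3
  have hmono : MonotoneOn f (Set.Icc 0 1) := by
    refine monotoneOn_of_deriv_nonneg (convex_Icc 0 1) ?_ ?_ ?_
    · exact fun y _ => (hd y).continuousAt.continuousWithinAt
    · exact fun y _ => (hd y).differentiableAt.differentiableWithinAt
    · intro y hy
      rw [interior_Icc] at hy
      have hy0 : 0 < y := hy.1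
      have hy1 : y < 1 := hy.2
      rw [(hd y).deriv]
      have h5 : y ≤ y ^ (p - 1) := by
        conv_lhs => rw [← Real.rpow_one y]
        exact Real.rpow_le_rpow_of_exponent_ge hy0 hy1.le (by linarith)
      have h6 : 1 - y ≤ (1 - y) ^ (p - 1) := by
        conv_lhs => rw [← Real.rpow_one (1 - y)]
        exact Real.rpow_le_rpow_of_exponent_ge (by linarith) (by linarith) (by linarith)
      nlinarith
  have := hmono (show (0:ℝ) ∈ Set.Icc 0 1 by simp) (show y ∈ Set.Icc 0 1 from ⟨hy, hy1⟩) hy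
  simp only [hf] at this
  rw [Real.zero_rpow (by linarith)] at this
  norm_num at this
  linarith

/-- `(1+x)^p ≤ 1 + p x + |x|^p` for `1 ≤ p ≤ 2`, `x ≥ -1` -/
theorem one_add_rpow_two {x p : ℝ} (hx : -1 ≤ x) (hp1 : 1 ≤ p) (hp2 : p ≤ 2) :
    (1 + x) ^ p ≤ 1 + p * x + |x| ^ p := by
  rcases le_total 0 x with h | h
  · rw [abs_of_nonneg h]
    exact one_add_rpow_pos h hp1 hp2
  · rw [abs_of_nonpos h]
    have := one_sub_rpow (y := -x) (by linarith) (by linarith) hp1 hp2
    rw [sub_neg_eq_add] at this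
    linarith

/-- homogeneous form -/
theorem add_rpow_two {u x p : ℝ} (hu : 0 ≤ u) (hx : |x| ≤ u) (hp1 : 1 ≤ p) (hp2 : p ≤ 2) :
    (u + x) ^ p ≤ u ^ p + p * u ^ (p - 1) * x + |x| ^ p := by
  rcases hu.eq_or_lt with h | h
  · have : x = 0 := by rw [← abs_nonpos_iff]; linarith
    rw [← h, this]
    simp
    linarith [Real.rpow_nonneg (le_refl (0:ℝ)) p]
  · have h1 : |x / u| ≤ 1 := by rw [abs_div, abs_of_pos h, div_le_one h]; exact hx
    have h2 := one_add_rpow_two (abs_le.1 h1).1 hp1 hp2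
    have e : u + x = u * (1 + x / u) := by field_simp
    rw [e, Real.mul_rpow h.le (by have := (abs_le.1 h1).1; linarith)]
    have h3 := mul_le_mul_of_nonneg_left h2 (Real.rpow_nonneg h.le p)
    refine h3.trans (le_of_eq ?_)
    rw [abs_div, abs_of_pos h, Real.div_rpow (abs_nonneg _) h.le, Real.rpow_sub_one h.ne']
    have := (Real.rpow_pos_of_pos h p).ne'
    field_simp

theorem add_rpow_le_two {x y p : ℝ} (hx : 0 ≤ x) (hy : 0 ≤ y) (hp1 : 1 ≤ p) (hp2 : p ≤ 3 / 2) :
    (x + y) ^ p ≤ 3 / 2 * (x ^ p + y ^ p) := by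
  have hc := convexOn_rpow hp1
  have h := hc.2 (show (x:ℝ) ∈ Set.Ici 0 from hx) (show y ∈ Set.Ici 0 from hy)
    (show (0:ℝ) ≤ 1 / 2 by norm_num) (show (0:ℝ) ≤ 1 / 2 by norm_num) (by norm_num)
  simp only [smul_eq_mul] at h
  have e : 1 / 2 * x + 1 / 2 * y = (x + y) * (1 / 2) := by ring
  rw [e, Real.mul_rpow (by positivity) (by norm_num)] at h
  have h2 : (1 / 2 : ℝ) ^ (3 / 2 : ℝ) ≤ (1 / 2) ^ p :=
    Real.rpow_le_rpow_of_exponent_ge (by norm_num) (by norm_num) hp2
  have h3 : (1 / 3 : ℝ) ≤ (1 / 2 : ℝ) ^ (3 / 2 : ℝ) := by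
    have e : (1 / 2 : ℝ) ^ (3 / 2 : ℝ) = √((1 / 2) ^ 3) := by
      rw [Real.sqrt_eq_rpow, ← Real.rpow_natCast, ← Real.rpow_mul (by norm_num)]
      norm_num
    rw [e]
    apply Real.le_sqrt_of_sq_le
    norm_num
  have h4 : 0 ≤ (x + y) ^ p := by positivity
  nlinarith

/-- one-step inequality for `U^p` -/
theorem sav_Up {n : ℕ} (hn : 2 ≤ n) (d : Fin n → ℝ) (hd : ∑ i, d i = 0) {p : ℝ} (hp1 : 1 ≤ p)
    (hp2 : p ≤ 3 / 2) :
    sav (fun d => Us d ^ p) d ≤ (1 - p / (2 * n)) * Us d ^ p + 3 / n * Vq (2 * p) d := by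
  have hn' : (2:ℝ) ≤ n := by exact_mod_cast hn
  have hU : 0 ≤ Us d := Finset.sum_nonneg fun i _ => sq_nonneg _
  have hcard := card_pairs n
  have hcpos : (0:ℝ) < (pairs n).card := by rw [hcard]; nlinarith
  have hpair : ∀ q ∈ pairs n, d q.1 ^ 2 + d q.2 ^ 2 ≤ Us d := by
    intro q hq
    have := Finset.sum_le_sum_of_subset_of_nonneg (s := {q.1, q.2}) (t := univ)
      (f := fun i => d i ^ 2) (Finset.subset_univ _) (fun i _ _ => sq_nonneg _)
    rwa [Finset.sum_pair (pairs_ne hq)] at this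
  -- pointwise
  have h1 : ∀ q ∈ pairs n, ∀ φ, Us (updD q.1 q.2 φ d) ^ p ≤ Us d ^ p
      + p * Us d ^ (p - 1) * Del q.1 q.2 φ d
      + 3 / 2 * ((d q.1 ^ 2) ^ p + (d q.2 ^ 2) ^ p) := by
    intro q hq φ
    rw [Us_updD (pairs_ne hq)]
    have h2 := abs_Del q.1 q.2 φ d
    have h3 := add_rpow_two hU (h2.trans (hpair q hq)) hp1 (by linarith)
    have h4 : |Del q.1 q.2 φ d| ^ p ≤ (d q.1 ^ 2 + d q.2 ^ 2) ^ p :=
      Real.rpow_le_rpow (abs_nonneg _) h2 (by linarith)
    have h5 := add_rpow_le_two (sq_nonneg (d q.1)) (sq_nonneg (d q.2)) hp1 hp2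
    linarith
  -- average
  have h6 : ∀ q ∈ pairs n, avg (fun φ => Us (updD q.1 q.2 φ d) ^ p) ≤ Us d ^ p
      + p * Us d ^ (p - 1) * (avg (fun φ => Us (updD q.1 q.2 φ d)) - Us d)
      + 3 / 2 * ((d q.1 ^ 2) ^ p + (d q.2 ^ 2) ^ p) := by
    intro q hq
    have hm : Measurable fun φ => Del q.1 q.2 φ d := by unfold Del; fun_prop
    have hb : ∀ φ, |Del q.1 q.2 φ d| ≤ Us d := fun φ => (abs_Del _ _ φ d).trans (hpair q hq)
    have hUm : Measurable fun φ => Us (updD q.1 q.2 φ d) := by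
      simp only [Us_updD (pairs_ne hq)]
      exact measurable_const.add hm
    have hUb : ∀ φ, 0 ≤ Us (updD q.1 q.2 φ d) ∧ Us (updD q.1 q.2 φ d) ≤ 2 * Us d := by
      intro φ
      rw [Us_updD (pairs_ne hq)]
      have := abs_le.1 (hb φ)
      constructor <;> linarith
    have e1 : avg (fun φ => Us (updD q.1 q.2 φ d)) - Us d = avg (fun φ => Del q.1 q.2 φ d) := by
      rw [avg_congr (fun φ => Us_updD (pairs_ne hq) φ d)]
      rw [avg_add (C := Us d) (f := fun _ => Us d) (g := fun φ => Del q.1 q.2 φ d)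
        measurable_const hm (fun φ => by rw [abs_of_nonneg hU]) hb, avg_const]
      ring
    rw [e1]
    set K := p * Us d ^ (p - 1) with hK
    have hK0 : 0 ≤ K := by
      have := Real.rpow_nonneg hU (p - 1)
      positivity
    set R := 3 / 2 * ((d q.1 ^ 2) ^ p + (d q.2 ^ 2) ^ p) with hR
    have hR0 : 0 ≤ R := by
      have := Real.rpow_nonneg (sq_nonneg (d q.1)) p
      have := Real.rpow_nonneg (sq_nonneg (d q.2)) p
      positivity
    have e2 : avg (fun φ => (Us d ^ p + R) + K * Del q.1 q.2 φ d)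
        = Us d ^ p + R + K * avg (fun φ => Del q.1 q.2 φ d) := by
      rw [avg_add (C := |Us d ^ p + R| + K * Us d) (f := fun _ => Us d ^ p + R)
        (g := fun φ => K * Del q.1 q.2 φ d) measurable_const (hm.const_mul K)
        (fun φ => by have := mul_nonneg hK0 hU; linarith)
        (fun φ => by
          rw [abs_mul, abs_of_nonneg hK0]
          have := mul_le_mul_of_nonneg_left (hb φ) hK0
          have := abs_nonneg (Us d ^ p + R)
          linarith), avg_const, avg_const_mul]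
    have e3 : avg (fun φ => Us (updD q.1 q.2 φ d) ^ p)
        ≤ avg (fun φ => (Us d ^ p + R) + K * Del q.1 q.2 φ d) := by
      refine avg_mono (C := |Us d ^ p + R| + K * Us d + (2 * Us d) ^ p) (hUm.pow_const p)
        (measurable_const.add (hm.const_mul K)) (fun φ => ?_) (fun φ => ?_) fun φ => ?_
      · rw [abs_of_nonneg (Real.rpow_nonneg (hUb φ).1 p)]
        have := Real.rpow_le_rpow (hUb φ).1 (hUb φ).2 (show 0 ≤ p by linarith)
        have := mul_nonneg hK0 hU
        have := abs_nonneg (Us d ^ p + R)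
        linarith
      · refine (abs_add_le _ _).trans ?_
        rw [abs_mul, abs_of_nonneg hK0]
        have := mul_le_mul_of_nonneg_left (hb φ) hK0
        have := Real.rpow_nonneg (show 0 ≤ 2 * Us d by linarith) p
        linarith
      · have := h1 q hq φ
        linarith
    rw [e2] at e3
    linarith
  have h7 := sav_U hn d hd
  unfold sav at h7
  rw [inv_mul_eq_iff_eq_mul₀ hcpos.ne'] at h7
  unfold sav
  rw [inv_mul_le_iff₀ hcpos]
  refine (Finset.sum_le_sum h6).trans ?_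
  rw [Finset.sum_add_distrib, Finset.sum_add_distrib, ← Finset.mul_sum, ← Finset.mul_sum,
    Finset.sum_sub_distrib, h7, Finset.sum_const, Finset.sum_const, nsmul_eq_mul, nsmul_eq_mul,
    sum_pairs_add (fun i => (d i ^ 2) ^ p)]
  have e4 : ∑ i, (d i ^ 2) ^ p = Vq (2 * p) d := by
    unfold Vq
    refine Finset.sum_congr rfl fun i _ => ?_
    rw [← sq_abs, ← Real.rpow_two, ← Real.rpow_mul (abs_nonneg _)]
  rw [e4, hcard]
  have e5 : Us d ^ (p - 1) * Us d = Us d ^ p := by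
    rcases hU.eq_or_lt with h | h
    · rw [← h, mul_zero, Real.zero_rpow (by linarith)]
    · rw [Real.rpow_sub_one h.ne']
      field_simp
  have hUp : 0 ≤ Us d ^ p := Real.rpow_nonneg hU p
  have e6 : p * Us d ^ (p - 1) * ((n:ℝ) * (n - 1) / 2 * ((1 - ((n:ℝ) + 2) / (2 * n * (n - 1))) * Us d)
      - (n:ℝ) * (n - 1) / 2 * Us d) = -(((n:ℝ) + 2) / 4 * p * Us d ^ p) := by
    rw [← e5]
    have : (n:ℝ) - 1 ≠ 0 := by linarith
    have : (n:ℝ) ≠ 0 := by linarith
    field_simp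
    ring
  rw [e6]
  have e7 : (n:ℝ) * (n - 1) / 2 * ((1 - p / (2 * n)) * Us d ^ p + 3 / n * Vq (2 * p) d)
      = (n:ℝ) * (n - 1) / 2 * Us d ^ p - (n - 1) / 4 * p * Us d ^ p
        + 3 / 2 * ((n - 1) * Vq (2 * p) d) := by
    have : (n:ℝ) ≠ 0 := by linarith
    field_simp
    ring
  rw [e7]
  have h8 : 0 ≤ p * Us d ^ p := mul_nonneg (by linarith) hUp
  nlinarith

end Pf31f09
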