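import Pool.Agent.Lib.Pf31f09.UComb
import Pool.Agent.Lib.Pf31f09.Tperm
import Pool.Agent.Lib.Pf31f09.UBridge

/-!
From the combination theorem to the total variation distance of the walk.
-/

open MeasureTheory ProbabilityTheory Finset

noncomputable section

namespace Pf31f09

variable {n : ℕ}

/-- The relative deviation of the column `k` of `M` from its mean. -/
def rr (k : Fin n) (M : Mat n) : Fin n → ℝ := fun i => bT M k i - 1

theorem measurable_rr (k : Fin n) : Measurable (rr k : Mat n → Fin n → ℝ) := by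
  refine measurable_pi_lambda _ fun i => ?_
  unfold rr bT
  have h : ∀ i, Measurable fun M : Mat n => M i k := fun i =>
    (measurable_pi_apply k).comp (measurable_pi_apply i)
  exact ((h i).div ((Finset.measurable_sum _ fun j _ => h j).div_const _)).sub measurable_const

theorem rr_perm (k : Fin n) (σ : Equiv.Perm (Fin n)) (hσ : σ k = k) (M : Mat n) :
    rr k (permM σ M) = fun i => rr k M (σ i) := by
  funext i
  unfold rr bT permM
  rw [hσ, Equiv.sum_comp σ (fun j => M j k)]

theorem rr_map (k : Fin n) (σ : Equiv.Perm (Fin n)) (hσ : σ k = k) (t : ℕ) :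
    (lawM n t).map (fun M i => rr k M (σ i)) = (lawM n t).map (rr k) := by
  have e1 : (fun (M : Mat n) i => rr k M (σ i)) = rr k ∘ permM σ := by
    funext M
    exact (rr_perm k σ hσ M).symm
  rw [e1, ← Measure.map_map (measurable_rr k) (measurable_permM σ), lawM_perm]

theorem rr_ge {k : Fin n} {M : Mat n} (h0 : Nonneg M) (hs : ∀ k, 0 < ∑ i, M i k)
    (i : Fin n) : -1 ≤ rr k M i := by
  unfold rr bT
  have : 0 ≤ M i k / ((∑ j, M j k) / n) :=
    div_nonneg (h0 i k) (div_nonneg (hs k).le (by positivity))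
  linarith

theorem rr_sum (hn : 1 ≤ n) {k : Fin n} {M : Mat n} (hs : ∀ k, 0 < ∑ i, M i k) :
    ∑ i, rr k M i = 0 := by
  unfold rr bT
  have hn0 : (n:ℝ) ≠ 0 := by positivity
  rw [Finset.sum_sub_distrib, ← Finset.sum_div]
  have h1 := (hs k).ne'
  simp only [Finset.sum_const, Finset.card_univ, Fintype.card_fin, nsmul_eq_mul, mul_one]
  field_simp
  ring

/-- The bound on the total variation distance of the walk from the moment bounds. -/
theorem tv_bound (hn : 2 ≤ n) {x : E n} (hx : ‖x‖ = 1) (t : ℕ) {q ε V ρ R : ℝ} (hq : 1 ≤ q)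
    (hε : ∀ k, ∫ M, ∑ i, |rr k M i| ^ q ∂(lawM n t) ≤ ε)
    (hV : ∀ k, ∫ M, ∑ i, rr k M i ^ 2 ∂(lawM n t) ≤ V) (hρ : 0 < ρ) (hρ4 : ρ ≤ 1 / 4)
    (hR : 0 < R) :
    tv (law x t) (unifS n) ≤ n * (1 - 2 / n) ^ t +
      (2 * (8 / n + 112 * V / n + 8 * √(V / n)) + 2 ^ (q + 1) * ε
        + 6 * (ρ ^ (1 - q) * ε + V / √R)
        + √(Real.exp (8 * ρ ^ 2 + R ^ 2 / ((n : ℝ) - 1)) - 1)) := by
  have hprob := isProb_lawM hn t
  have hx2 : ∑ k, x k ^ 2 = 1 := by
    rw [← norm_sq_E, hx, one_pow]
  have hcols := lawM_cols (n := n) t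
  unfold tv
  refine csSup_le ⟨_, ∅, MeasurableSet.empty, rfl⟩ ?_
  rintro r ⟨A, hA, rfl⟩
  have h1 := bridge hn hx t hA
  have key := upper_comb hn (lawM n t) (w := fun k => x k ^ 2) (fun k => sq_nonneg _) hx2
    (r := fun k M => rr k M) (fun k => measurable_rr k)
    (fun k => by
      filter_upwards [hcols] with M hM i
      exact rr_ge hM.1 hM.2 i)
    (fun k => by
      filter_upwards [hcols] with M hM
      exact rr_sum (by omega) hM.2)
    (fun k σ hσ => rr_map k σ hσ t) hq hε hV hρ hρ4 hR (measurable_dirF hA) (dirF_abs A)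
  have e : ∀ M : Mat n, (fun k i => 1 + rr k M i) = bT M := by
    intro M
    funext k i
    unfold rr
    ring
  simp only [e] at key
  exact h1.trans (add_le_add le_rfl key)

end Pf31f09
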