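import Mathlib
import Pool.Agent.Lib.Pf31f09.UTv
import Pool.Agent.Lib.Pf31f09.UDir
import Pool.Agent.Lib.Pf31f09.Tsecond

/-! Transfer of moments from the difference of energies to the columns of the matrix. -/

noncomputable section

namespace Pf31f09

open Finset MeasureTheory ProbabilityTheory Filter

variable {n : ℕ}

/-- The weighted energy share of a column. -/
def etaT (M : Mat n) (k : Fin n) (g : E n) : ℝ := ∑ j, bT M k j * zz g j

theorem bT_nonneg {M : Mat n} (hM : Nonneg M) (hk : ∀ k, 0 < ∑ i, M i k) (k i : Fin n) :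
    0 ≤ bT M k i := div_nonneg (hM i k) (div_nonneg (hk k).le (by positivity))

theorem bT_sum (hn : 1 ≤ n) {M : Mat n} (hk : ∀ k, 0 < ∑ i, M i k) (k : Fin n) :
    ∑ i, bT M k i = n := by
  have h := rr_sum hn (k := k) hk
  unfold rr at h
  rw [Finset.sum_sub_distrib, Finset.sum_const, Finset.card_univ, Fintype.card_fin,
    nsmul_eq_mul, mul_one] at h
  linarith

/-- The key identity. -/
theorem Dk_eta (hn : 1 ≤ n) {M : Mat n} (hM : Nonneg M) (hk : ∀ k, 0 < ∑ i, M i k) {g : E n}
    (hg : ∀ l, g l ≠ 0) (k i : Fin n) :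
    Dk M g k i * etaT M k g = zz g i * (bT M k i - etaT M k g) := by
  have hS := (sum_g_pos k hg).ne'
  have hc := (cM_pos hM (hk k) hg).ne'
  have hn0 : (0 : ℝ) < n := by exact_mod_cast hn
  have hm : (∑ l, M l k) / n ≠ 0 := (div_pos (hk k) hn0).ne'
  set m := (∑ l, M l k) / n with hmdef
  have he : etaT M k g = cM M g k / (m * ∑ l, g l ^ 2) := by
    unfold etaT bT zz cM
    rw [Finset.sum_div univ (fun j => M j k * g j ^ 2) (m * ∑ l, g l ^ 2)]
    refine Finset.sum_congr rfl fun j _ => ?_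
    rw [← hmdef, div_mul_div_comm]
  rw [he]
  unfold Dk bT zz
  rw [← hmdef]
  field_simp

theorem measurable_etaT (M : Mat n) (k : Fin n) : Measurable (etaT M k) := by
  unfold etaT
  exact Finset.measurable_sum _ fun j _ => (measurable_zz j).const_mul _

theorem etaT_bdd (hn : 1 ≤ n) {M : Mat n} (hM : Nonneg M) (hk : ∀ k, 0 < ∑ i, M i k) (k : Fin n)
    (g : E n) : 0 ≤ etaT M k g ∧ etaT M k g ≤ n := by
  constructor
  · exact Finset.sum_nonneg fun j _ => mul_nonneg (bT_nonneg hM hk k j) (zz_nonneg g j)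
  · rw [← bT_sum hn hk k]
    refine Finset.sum_le_sum fun j _ => ?_
    have := bT_nonneg hM hk k j
    have := zz_le_one g j
    nlinarith

theorem zz_mul_le (i j : Fin n) : ∫ g, zz g i * zz g j ∂(gam n) ≤ 3 / (n * (n + 2)) := by
  by_cases h : i = j
  · subst h
    rw [← zz_second i]
    refine le_of_eq (integral_congr_ae (Eventually.of_forall fun g => ?_))
    change zz g i * zz g i = zz g i ^ 2
    ring
  · rw [zz_cross h, zz_second]
    have : (0 : ℝ) ≤ 3 / (n * (n + 2)) := by positivity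
    linarith

theorem etaT_sq (hn : 1 ≤ n) {M : Mat n} (hM : Nonneg M) (hk : ∀ k, 0 < ∑ i, M i k)
    (k : Fin n) : ∫ g, etaT M k g ^ 2 ∂(gam n) ≤ 3 := by
  have e : ∀ g : E n, etaT M k g ^ 2 = ∑ i, ∑ j, bT M k i * bT M k j * (zz g i * zz g j) := by
    intro g
    unfold etaT
    rw [pow_two, Finset.sum_mul_sum]
    refine Finset.sum_congr rfl fun i _ => Finset.sum_congr rfl fun j _ => ?_
    ring
  simp only [e]
  rw [integral_finsetSum _ fun i _ => integrable_finsetSum _ fun j _ =>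
    (integrable_zz_mul i j).const_mul _]
  have hn0 : (0 : ℝ) < n := by exact_mod_cast hn
  calc ∑ i, ∫ g, ∑ j, bT M k i * bT M k j * (zz g i * zz g j) ∂(gam n) ≤
      ∑ i, ∑ j, bT M k i * bT M k j * (3 / (n * (n + 2))) := by
        refine Finset.sum_le_sum fun i _ => ?_
        rw [integral_finsetSum _ fun j _ => (integrable_zz_mul i j).const_mul _]
        refine Finset.sum_le_sum fun j _ => ?_
        rw [integral_const_mul]
        exact mul_le_mul_of_nonneg_left (zz_mul_le i j)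
          (mul_nonneg (bT_nonneg hM hk k i) (bT_nonneg hM hk k j))
    _ = (∑ i, bT M k i) * (∑ j, bT M k j) * (3 / (n * (n + 2))) := by
        rw [Finset.sum_mul_sum, Finset.sum_mul]
        refine Finset.sum_congr rfl fun i _ => ?_
        rw [Finset.sum_mul]
    _ ≤ 3 := by
        rw [bT_sum hn hk k, ← mul_div_assoc, div_le_iff₀ (by positivity)]
        nlinarith

/-- The mean of the right side of the key identity. -/
theorem mean_key (hn : 1 ≤ n) {M : Mat n} (hk : ∀ k, 0 < ∑ i, M i k)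
    (k i : Fin n) : ∫ g, zz g i * (bT M k i - etaT M k g) ∂(gam n) = rr k M i / (n + 2) := by
  have e : ∀ g : E n, zz g i * (bT M k i - etaT M k g) =
      bT M k i * zz g i - ∑ j, bT M k j * (zz g i * zz g j) := by
    intro g
    unfold etaT
    rw [mul_sub, Finset.mul_sum]
    congr 1
    · ring
    · refine Finset.sum_congr rfl fun j _ => ?_
      ring
  simp only [e]
  rw [integral_sub ((integrable_zz i).const_mul _)
    (integrable_finsetSum _ fun j _ => (integrable_zz_mul i j).const_mul _),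
    integral_const_mul, zz_mean, integral_finsetSum _ fun j _ =>
      (integrable_zz_mul i j).const_mul _]
  have h1 : ∑ j, ∫ g, bT M k j * (zz g i * zz g j) ∂(gam n) =
      (2 * bT M k i + n) * (1 / (n * (n + 2))) := by
    have hcr : ∀ j ∈ univ.erase i, ∫ g, bT M k j * (zz g i * zz g j) ∂(gam n) =
        bT M k j * (1 / (n * (n + 2))) := by
      intro j hj
      rw [integral_const_mul, zz_cross (ne_of_mem_erase hj).symm, zz_second]
      ring
    rw [← Finset.add_sum_erase univ _ (mem_univ i), Finset.sum_congr rfl hcr, ← Finset.sum_mul]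
    have hd : ∫ g, bT M k i * (zz g i * zz g i) ∂(gam n) = bT M k i * (3 / (n * (n + 2))) := by
      rw [integral_const_mul, ← zz_second i]
      congr 1
      refine integral_congr_ae (Eventually.of_forall fun g => ?_)
      change zz g i * zz g i = zz g i ^ 2
      ring
    rw [hd]
    have hs := Finset.add_sum_erase univ (fun j => bT M k j) (mem_univ i)
    rw [bT_sum hn hk k] at hs
    have : ∑ j ∈ univ.erase i, bT M k j = n - bT M k i := by linarith
    rw [this]
    ring
  rw [h1]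
  have hn0 : (0 : ℝ) < n := by exact_mod_cast hn
  unfold rr
  field_simp
  ring

theorem measurable_Dk_i (M : Mat n) (k i : Fin n) : Measurable fun g : E n => Dk M g k i := by
  unfold Dk cM
  fun_prop

/-- Quadratic transfer. -/
theorem trans_two (hn : 1 ≤ n) {M : Mat n} (hM : Nonneg M) (hk : ∀ k, 0 < ∑ i, M i k)
    (k i : Fin n) : rr k M i ^ 2 ≤ 3 * (n + 2) ^ 2 * ∫ g, Dk M g k i ^ 2 ∂(gam n) := by
  have hD : Measurable fun g : E n => Dk M g k i := measurable_Dk_i M k i
  have hη := measurable_etaT M k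
  have hDb : ∀ g : E n, |Dk M g k i| ≤ 1 := fun g => Dk_bounds hM g k i
  have hηb := etaT_bdd hn hM hk k
  have hn0 : (0 : ℝ) < n := by exact_mod_cast hn
  have i1 : Integrable (fun g : E n => Dk M g k i ^ 2) (gam n) := by
    refine integrable_bdd (hD.pow_const 2) (C := 1) fun g => ?_
    rw [abs_pow]
    exact pow_le_one₀ (abs_nonneg _) (hDb g)
  have i2 : Integrable (fun g : E n => etaT M k g ^ 2) (gam n) := by
    refine integrable_bdd (hη.pow_const 2) (C := (n : ℝ) ^ 2) fun g => ?_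
    rw [abs_pow, abs_of_nonneg (hηb g).1]
    exact pow_le_pow_left₀ (hηb g).1 (hηb g).2 2
  have i3 : Integrable (fun g : E n => Dk M g k i * etaT M k g) (gam n) := by
    refine integrable_bdd (hD.mul hη) (C := (n : ℝ)) fun g => ?_
    rw [abs_mul, abs_of_nonneg (hηb g).1]
    have := hDb g
    have := (hηb g).1
    have := (hηb g).2
    nlinarith [abs_nonneg (Dk M g k i)]
  have h3 : ∫ g, Dk M g k i * etaT M k g ∂(gam n) = rr k M i / (n + 2) := by
    rw [← mean_key hn hk k i]
    refine integral_congr_ae ?_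
    filter_upwards [gam_ae_ne_all n] with g hg
    exact Dk_eta hn hM hk hg k i
  set P := ∫ g, Dk M g k i * etaT M k g ∂(gam n) with hP
  have h4 : 0 ≤ ∫ g, (Dk M g k i - P / 3 * etaT M k g) ^ 2 ∂(gam n) :=
    integral_nonneg fun g => sq_nonneg _
  have h5 : ∫ g, (Dk M g k i - P / 3 * etaT M k g) ^ 2 ∂(gam n) =
      ∫ g, Dk M g k i ^ 2 ∂(gam n) - 2 * (P / 3) * P +
        (P / 3) ^ 2 * ∫ g, etaT M k g ^ 2 ∂(gam n) := by
    have e : ∀ g : E n, (Dk M g k i - P / 3 * etaT M k g) ^ 2 =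
        (Dk M g k i ^ 2 - 2 * (P / 3) * (Dk M g k i * etaT M k g)) +
          (P / 3) ^ 2 * etaT M k g ^ 2 := by
      intro g; ring
    simp only [e]
    have j1 : Integrable (fun g : E n => Dk M g k i ^ 2 -
        2 * (P / 3) * (Dk M g k i * etaT M k g)) (gam n) := i1.sub (i3.const_mul _)
    rw [integral_add j1 (i2.const_mul _), integral_sub i1 (i3.const_mul _),
      integral_const_mul, integral_const_mul]
  have h6 := etaT_sq hn hM hk k
  have h7 : P ^ 2 ≤ 3 * ∫ g, Dk M g k i ^ 2 ∂(gam n) := by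
    rw [h5] at h4
    nlinarith [sq_nonneg (P / 3)]
  have h8 : rr k M i = P * (n + 2) := by
    rw [h3]
    field_simp
  rw [h8, mul_pow]
  nlinarith [sq_nonneg ((n : ℝ) + 2)]

/-- Transfer for the power `q ≥ 2`. -/
theorem trans_q (hn : 1 ≤ n) {M : Mat n} (hM : Nonneg M) (hk : ∀ k, 0 < ∑ i, M i k)
    (k i : Fin n) {q : ℝ} (hq : 2 ≤ q) :
    |rr k M i| ^ q ≤ (Real.sqrt 3 * (n + 2)) ^ q * ∫ g, |Dk M g k i| ^ q ∂(gam n) := by
  have hD : Measurable fun g : E n => Dk M g k i := measurable_Dk_i M k i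
  have hDb : ∀ g : E n, |Dk M g k i| ≤ 1 := fun g => Dk_bounds hM g k i
  have h1 := trans_two hn hM hk k i
  have i1 : Integrable (fun g : E n => Dk M g k i ^ 2) (gam n) := by
    refine integrable_bdd (hD.pow_const 2) (C := 1) fun g => ?_
    rw [abs_pow]
    exact pow_le_one₀ (abs_nonneg _) (hDb g)
  have hpow : ∀ x : ℝ, (x ^ 2) ^ (q / 2) = |x| ^ q := by
    intro x
    rw [← sq_abs, ← Real.rpow_natCast (|x|) 2, ← Real.rpow_mul (abs_nonneg _)]
    congr 1
    push_cast
    ring
  have hmq : Measurable fun g : E n => |Dk M g k i| ^ q :=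
    (Measurable.pow_const (hD.abs) q)
  have i2 : Integrable (fun g : E n => |Dk M g k i| ^ q) (gam n) := by
    refine integrable_bdd hmq (C := 1) fun g => ?_
    rw [abs_of_nonneg (Real.rpow_nonneg (abs_nonneg _) _)]
    exact Real.rpow_le_one (abs_nonneg _) (hDb g) (by linarith)
  have hJ := (convexOn_rpow (p := q / 2) (by linarith)).map_integral_le
    (f := fun g : E n => Dk M g k i ^ 2) (μ := gam n)
    (Real.continuous_rpow_const (by linarith)).continuousOn isClosed_Ici
    (Eventually.of_forall fun g => Set.mem_Ici.2 (sq_nonneg _)) i1 (by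
      have : ((fun x : ℝ => x ^ (q / 2)) ∘ fun g : E n => Dk M g k i ^ 2) =
          fun g : E n => |Dk M g k i| ^ q := by
        funext g
        exact hpow _
      rw [this]
      exact i2)
  simp only [hpow] at hJ
  have hI0 : 0 ≤ ∫ g, Dk M g k i ^ 2 ∂(gam n) := integral_nonneg fun g => sq_nonneg _
  have hc0 : (0 : ℝ) ≤ 3 * (n + 2) ^ 2 := by positivity
  calc |rr k M i| ^ q = (rr k M i ^ 2) ^ (q / 2) := (hpow _).symm
    _ ≤ (3 * (n + 2) ^ 2 * ∫ g, Dk M g k i ^ 2 ∂(gam n)) ^ (q / 2) :=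
        Real.rpow_le_rpow (sq_nonneg _) h1 (by linarith)
    _ = (3 * (n + 2) ^ 2) ^ (q / 2) * (∫ g, Dk M g k i ^ 2 ∂(gam n)) ^ (q / 2) :=
        Real.mul_rpow hc0 hI0
    _ = (Real.sqrt 3 * (n + 2)) ^ q * (∫ g, Dk M g k i ^ 2 ∂(gam n)) ^ (q / 2) := by
        congr 1
        have e : (3 : ℝ) * (n + 2) ^ 2 = (Real.sqrt 3 * (n + 2)) ^ 2 := by
          rw [mul_pow, Real.sq_sqrt (by norm_num)]
        rw [e, hpow, abs_of_nonneg (by positivity)]
    _ ≤ _ := mul_le_mul_of_nonneg_left hJ (by positivity)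

theorem integrable_lawM (hn : 2 ≤ n) (t : ℕ) {F : Mat n → ℝ} (hF : Measurable F) {C : ℝ}
    (hC : ∀ᵐ M ∂(lawM n t), |F M| ≤ C) : Integrable F (lawM n t) := by
  have := isProb_lawM hn t
  exact Integrable.of_bound hF.aestronglyMeasurable C (hC.mono fun M h => by
    rw [Real.norm_eq_abs]; exact h)

/-- Integrated transfer. -/
theorem trans_int (hn : 2 ≤ n) (t : ℕ) (k : Fin n) {q : ℝ} (hq : 2 ≤ q) :
    ∫ M, ∑ i, |rr k M i| ^ q ∂(lawM n t) ≤ (Real.sqrt 3 * (n + 2)) ^ q *
      ∫ M, ∫ g, ∑ i, |Dk M g k i| ^ q ∂(gam n) ∂(lawM n t) := by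
  have := isProb_lawM hn t
  have hc : (0 : ℝ) ≤ (Real.sqrt 3 * (n + 2)) ^ q := by positivity
  have hm1 : Measurable fun p : Mat n × E n => ∑ i, |Dk p.1 p.2 k i| ^ q := by
    refine Finset.measurable_sum _ fun i _ => ?_
    exact Measurable.pow_const ((measurable_pi_apply i).comp (measurable_Dk k)).abs q
  have hm2 : Measurable fun M : Mat n => ∫ g, ∑ i, |Dk M g k i| ^ q ∂(gam n) :=
    (hm1.stronglyMeasurable.integral_prod_right (ν := gam n)).measurable
  have hDi : ∀ M : Mat n, Nonneg M → ∀ i, Integrable (fun g : E n => |Dk M g k i| ^ q)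
      (gam n) := by
    intro M hM i
    refine integrable_bdd (Measurable.pow_const (measurable_Dk_i M k i).abs q) (C := 1)
      fun g => ?_
    rw [abs_of_nonneg (Real.rpow_nonneg (abs_nonneg _) _)]
    exact Real.rpow_le_one (abs_nonneg _) (Dk_bounds hM g k i) (by linarith)
  have hpt : ∀ᵐ M ∂(lawM n t), ∑ i, |rr k M i| ^ q ≤ (Real.sqrt 3 * (n + 2)) ^ q *
      ∫ g, ∑ i, |Dk M g k i| ^ q ∂(gam n) := by
    filter_upwards [lawM_cols t] with M hM
    rw [integral_finsetSum _ fun i _ => hDi M hM.1 i, Finset.mul_sum]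
    exact Finset.sum_le_sum fun i _ => trans_q (by omega) hM.1 hM.2 k i hq
  have hb : ∀ᵐ M ∂(lawM n t), |∫ g, ∑ i, |Dk M g k i| ^ q ∂(gam n)| ≤ n := by
    filter_upwards [lawM_cols t] with M hM
    rw [abs_of_nonneg (integral_nonneg fun g => Finset.sum_nonneg fun i _ =>
      Real.rpow_nonneg (abs_nonneg _) _), integral_finsetSum _ fun i _ => hDi M hM.1 i]
    calc ∑ i, ∫ g, |Dk M g k i| ^ q ∂(gam n) ≤ ∑ _i : Fin n, (1 : ℝ) := by
          refine Finset.sum_le_sum fun i _ => ?_
          calc ∫ g, |Dk M g k i| ^ q ∂(gam n) ≤ ∫ _, (1 : ℝ) ∂(gam n) := by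
                refine integral_mono (hDi M hM.1 i) (integrable_const _) fun g => ?_
                exact Real.rpow_le_one (abs_nonneg _) (Dk_bounds hM.1 g k i) (by linarith)
            _ = 1 := by rw [integral_const, probReal_univ, one_smul]
      _ = n := by simp
  have iR := (integrable_lawM hn t hm2 hb).const_mul ((Real.sqrt 3 * (n + 2)) ^ q)
  have hmr : Measurable fun M : Mat n => ∑ i, |rr k M i| ^ q := by
    refine Finset.measurable_sum _ fun i _ => ?_
    exact Measurable.pow_const ((measurable_pi_apply i).comp (measurable_rr k)).abs q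
  have iL : Integrable (fun M : Mat n => ∑ i, |rr k M i| ^ q) (lawM n t) := by
    refine integrable_lawM hn t hmr (C := (Real.sqrt 3 * (n + 2)) ^ q * n) ?_
    filter_upwards [hpt, hb] with M h1 h2
    rw [abs_of_nonneg (Finset.sum_nonneg fun i _ => Real.rpow_nonneg (abs_nonneg _) _)]
    exact h1.trans (mul_le_mul_of_nonneg_left ((le_abs_self _).trans h2) hc)
  rw [← integral_const_mul]
  exact integral_mono_ae iL iR hpt

/-- The second moment of the columns. -/
theorem rr_second (hn : 2 ≤ n) (t : ℕ) (k : Fin n) :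
    ∫ M, ∑ i, rr k M i ^ 2 ∂(lawM n t) ≤ 6 * (n + 2) ^ 2 * (1 - 1 / (2 * n)) ^ t := by
  have := isProb_lawM hn t
  have h0 : (0 : ℝ) ≤ 1 - 1 / (2 * n) := (contr_bounds hn).1.trans (contr_bounds hn).2
  have hmr : Measurable fun M : Mat n => ∑ i, rr k M i ^ 2 := by
    refine Finset.measurable_sum _ fun i _ => ?_
    exact ((measurable_pi_apply i).comp (measurable_rr k)).pow_const 2
  have hnn : ∀ M : Mat n, 0 ≤ ∑ i, rr k M i ^ 2 := fun M => Finset.sum_nonneg fun i _ => sq_nonneg _
  have hpt : ∀ᵐ M ∂(lawM n t), ENNReal.ofReal (∑ i, rr k M i ^ 2) ≤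
      ENNReal.ofReal (3 * (n + 2) ^ 2) *
        ∫⁻ g, ENNReal.ofReal (∑ i, Dk M g k i ^ 2) ∂(gam n) := by
    filter_upwards [lawM_cols t] with M hM
    have hi : ∀ i, Integrable (fun g : E n => Dk M g k i ^ 2) (gam n) := by
      intro i
      refine integrable_bdd ((measurable_Dk_i M k i).pow_const 2) (C := 1) fun g => ?_
      rw [abs_pow]
      exact pow_le_one₀ (abs_nonneg _) (Dk_bounds hM.1 g k i)
    rw [← ofReal_integral_eq_lintegral_ofReal (integrable_finsetSum _ fun i _ => hi i)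
      (Eventually.of_forall fun g => Finset.sum_nonneg fun i _ => sq_nonneg _),
      ← ENNReal.ofReal_mul (by positivity)]
    refine ENNReal.ofReal_le_ofReal ?_
    rw [integral_finsetSum _ fun i _ => hi i, Finset.mul_sum]
    exact Finset.sum_le_sum fun i _ => trans_two (by omega) hM.1 hM.2 k i
  rw [integral_eq_lintegral_of_nonneg_ae (Eventually.of_forall hnn) hmr.aestronglyMeasurable]
  refine ENNReal.toReal_le_of_le_ofReal (by positivity) ?_
  have hm1 : Measurable fun p : Mat n × E n => ENNReal.ofReal (∑ l, Dk p.1 p.2 k l ^ 2) :=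
    measurable_sumsq.comp (measurable_Dk k)
  have hI : Measurable fun M : Mat n => ∫⁻ g, ENNReal.ofReal (∑ l, Dk M g k l ^ 2) ∂(gam n) :=
    hm1.lintegral_prod_right'
  calc ∫⁻ M, ENNReal.ofReal (∑ i, rr k M i ^ 2) ∂(lawM n t) ≤
      ∫⁻ M, ENNReal.ofReal (3 * (n + 2) ^ 2) *
        ∫⁻ g, ENNReal.ofReal (∑ i, Dk M g k i ^ 2) ∂(gam n) ∂(lawM n t) :=
        lintegral_mono_ae hpt
    _ = ENNReal.ofReal (3 * (n + 2) ^ 2) *
        ∫⁻ M, ∫⁻ g, ENNReal.ofReal (∑ i, Dk M g k i ^ 2) ∂(gam n) ∂(lawM n t) :=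
        lintegral_const_mul _ hI
    _ ≤ ENNReal.ofReal (3 * (n + 2) ^ 2) * ENNReal.ofReal (2 * (1 - 1 / (2 * n)) ^ t) := by
        gcongr
        exact second_moment hn t k
    _ = _ := by
        rw [← ENNReal.ofReal_mul (by positivity)]
        congr 1
        ring

end Pf31f09
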