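import Mathlib
import Pool.Agent.Lib.Pf31f09.UMom2
import Pool.Agent.Lib.Pf31f09.Tpos
import Pool.Agent.Lib.Pf31f09.UTrans

/-! The recursions for the moments of the difference of energies. -/

noncomputable section

namespace Pf31f09

open Finset MeasureTheory ProbabilityTheory Filter

variable {n : ℕ}

/-- The expectation of a functional of the difference of energies. -/
def Jm (t : ℕ) (k : Fin n) (Ψ : (Fin n → ℝ) → ℝ) : ENNReal :=
  ∫⁻ M, ∫⁻ g, ENNReal.ofReal (Ψ (Dk M g k)) ∂(gam n) ∂(lawM n t)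

theorem measurable_updD (i j : Fin n) : Measurable fun p : ℝ × (Fin n → ℝ) => updD i j p.1 p.2 := by
  unfold updD
  refine measurable_pi_lambda _ fun l => ?_
  by_cases hi : l = i
  · simp only [hi, if_true]
    fun_prop
  · by_cases hj : l = j
    · simp only [hj, if_true]
      have : j ≠ i := hj ▸ hi
      simp only [this, if_false]
      fun_prop
    · simp only [hi, hj, if_false]
      fun_prop

/-- One step of the expectation. -/
theorem Jm_succ (hn : 2 ≤ n) (t : ℕ) (k : Fin n) {Ψ : (Fin n → ℝ) → ℝ} (hΨ : Measurable Ψ)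
    (h0 : ∀ d, 0 ≤ Ψ d)
    (hb : ∀ d i j, ∃ C, ∀ φ, Ψ (updD i j φ d) ≤ C) :
    Jm (t + 1) k Ψ = Jm t k (sav Ψ) := by
  unfold Jm
  rw [lintegral_Dk_succ t k hΨ.ennreal_ofReal]
  refine lintegral_congr fun M => lintegral_congr fun g => ?_
  have hN : (0 : ℝ) < (pairs n).card := by exact_mod_cast pairs_card_pos hn
  unfold sav
  have h1 : ∀ p ∈ pairs n, ∫⁻ φ, ENNReal.ofReal (Ψ (updD p.1 p.2 φ (Dk M g k))) ∂unifAngle =
      ENNReal.ofReal (avg fun φ => Ψ (updD p.1 p.2 φ (Dk M g k))) := by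
    intro p _
    obtain ⟨C, hC⟩ := hb (Dk M g k) p.1 p.2
    refine lintegral_unifAngle ?_ (fun φ => h0 _) hC
    exact hΨ.comp ((measurable_updD p.1 p.2).comp (measurable_id.prodMk measurable_const))
  rw [Finset.sum_congr rfl h1, ← ENNReal.ofReal_sum_of_nonneg fun p _ => avg_nonneg fun φ => h0 _]
  have e1 : ((pairs n).card : ENNReal) = ENNReal.ofReal (pairs n).card :=
    (ENNReal.ofReal_natCast _).symm
  rw [e1, ← ENNReal.ofReal_inv_of_pos hN, ← ENNReal.ofReal_mul (inv_nonneg.2 hN.le)]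

theorem measurable_Vq (q : ℝ) : Measurable (Vq q : (Fin n → ℝ) → ℝ) := by
  unfold Vq
  refine Finset.measurable_sum _ fun i _ => ?_
  exact Measurable.pow_const (measurable_pi_apply i).abs q

theorem measurable_Us : Measurable (Us : (Fin n → ℝ) → ℝ) := by
  unfold Us
  fun_prop

theorem Vq_nonneg (q : ℝ) (d : Fin n → ℝ) : 0 ≤ Vq q d :=
  Finset.sum_nonneg fun _ _ => Real.rpow_nonneg (abs_nonneg _) _

theorem Us_nonneg (d : Fin n → ℝ) : 0 ≤ Us d := Finset.sum_nonneg fun _ _ => sq_nonneg _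

theorem abs_updD_le (i j : Fin n) (φ : ℝ) (d : Fin n → ℝ) (l : Fin n) :
    |updD i j φ d l| ≤ |d i| + |d j| + |d l| := by
  have h1 := abs_add_le (d i) (d j)
  have h0 := abs_nonneg (d i + d j)
  have hl := abs_nonneg (d l)
  unfold updD
  split_ifs
  · rw [abs_mul, abs_of_nonneg (sq_nonneg (Real.cos φ))]
    have := Real.cos_sq_le_one φ
    nlinarith
  · rw [abs_mul, abs_of_nonneg (sq_nonneg (Real.sin φ))]
    have := Real.sin_sq_le_one φ
    nlinarith
  · have := abs_nonneg (d i)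
    have := abs_nonneg (d j)
    linarith

theorem Vq_bdd {q : ℝ} (hq : 0 ≤ q) (d : Fin n → ℝ) (i j : Fin n) :
    ∃ C, ∀ φ, Vq q (updD i j φ d) ≤ C := by
  refine ⟨∑ l, (|d i| + |d j| + |d l|) ^ q, fun φ => ?_⟩
  exact Finset.sum_le_sum fun l _ => Real.rpow_le_rpow (abs_nonneg _) (abs_updD_le i j φ d l) hq

theorem Us_bdd (d : Fin n → ℝ) (i j : Fin n) : ∃ C, ∀ φ, Us (updD i j φ d) ≤ C := by
  refine ⟨∑ l, (|d i| + |d j| + |d l|) ^ 2, fun φ => ?_⟩
  refine Finset.sum_le_sum fun l _ => ?_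
  rw [← sq_abs]
  exact pow_le_pow_left₀ (abs_nonneg _) (abs_updD_le i j φ d l) 2

theorem Usp_bdd {p : ℝ} (hp : 0 ≤ p) (d : Fin n → ℝ) (i j : Fin n) :
    ∃ C, ∀ φ, Us (updD i j φ d) ^ p ≤ C := by
  obtain ⟨C, hC⟩ := Us_bdd d i j
  exact ⟨C ^ p, fun φ => Real.rpow_le_rpow (Us_nonneg _) (hC φ) hp⟩

theorem Jm_mono (t : ℕ) (k : Fin n) {Ψ Φ : (Fin n → ℝ) → ℝ}
    (h : ∀ d, ∑ i, d i = 0 → Ψ d ≤ Φ d) : Jm t k Ψ ≤ Jm t k Φ := by
  unfold Jm
  refine lintegral_mono_ae ?_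
  filter_upwards [ae_sum_Dk t k] with M hM
  refine lintegral_mono_ae ?_
  filter_upwards [hM] with g hg
  exact ENNReal.ofReal_le_ofReal (h _ hg)

theorem measurable_Dk_right (M : Mat n) (k : Fin n) : Measurable fun g : E n => Dk M g k :=
  (measurable_Dk k).comp (measurable_prodMk_left (x := M) (β := E n))

theorem Jm_lin (t : ℕ) (k : Fin n) {Ψ Φ : (Fin n → ℝ) → ℝ} (hΨ : Measurable Ψ)
    (hΦ : Measurable Φ) (h1 : ∀ d, 0 ≤ Ψ d) (h2 : ∀ d, 0 ≤ Φ d) {a b : ℝ} (ha : 0 ≤ a)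
    (hb : 0 ≤ b) :
    Jm t k (fun d => a * Ψ d + b * Φ d) =
      ENNReal.ofReal a * Jm t k Ψ + ENNReal.ofReal b * Jm t k Φ := by
  have hm1 : Measurable fun p : Mat n × E n => ENNReal.ofReal (Ψ (Dk p.1 p.2 k)) :=
    (hΨ.comp (measurable_Dk k)).ennreal_ofReal
  have hm2 : Measurable fun p : Mat n × E n => ENNReal.ofReal (Φ (Dk p.1 p.2 k)) :=
    (hΦ.comp (measurable_Dk k)).ennreal_ofReal
  have hI1 : Measurable fun M : Mat n => ∫⁻ g, ENNReal.ofReal (Ψ (Dk M g k)) ∂(gam n) :=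
    hm1.lintegral_prod_right'
  have hI2 : Measurable fun M : Mat n => ∫⁻ g, ENNReal.ofReal (Φ (Dk M g k)) ∂(gam n) :=
    hm2.lintegral_prod_right'
  unfold Jm
  rw [← lintegral_const_mul _ hI1, ← lintegral_const_mul _ hI2,
    ← lintegral_add_left (hI1.const_mul _)]
  refine lintegral_congr fun M => ?_
  have hs1 : Measurable fun g : E n => ENNReal.ofReal (Ψ (Dk M g k)) :=
    (hΨ.comp (measurable_Dk_right M k)).ennreal_ofReal
  have hs2 : Measurable fun g : E n => ENNReal.ofReal (Φ (Dk M g k)) :=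
    (hΦ.comp (measurable_Dk_right M k)).ennreal_ofReal
  rw [← lintegral_const_mul _ hs1, ← lintegral_const_mul _ hs2,
    ← lintegral_add_left (hs1.const_mul _)]
  refine lintegral_congr fun g => ?_
  rw [ENNReal.ofReal_add (mul_nonneg ha (h1 _)) (mul_nonneg hb (h2 _)), ENNReal.ofReal_mul ha,
    ENNReal.ofReal_mul hb]

/-- Recursion for the `q`-th moment. -/
theorem rec_V (hn : 2 ≤ n) (t : ℕ) (k : Fin n) {q : ℝ} (hq2 : 2 ≤ q) (hq3 : q ≤ 3) :
    Jm (t + 1) k (Vq q) ≤ ENNReal.ofReal (1 + kap q / n) * Jm t k (Vq q) +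
      ENNReal.ofReal (21 * (n : ℝ) ^ (-(q / 2))) * Jm t k (fun d => Us d ^ (q / 2)) := by
  have hnR : (2 : ℝ) ≤ n := by exact_mod_cast hn
  have hk := kap_ge q
  have ha : 0 ≤ 1 + kap q / n := by
    have : -1 ≤ kap q / n := by
      rw [le_div_iff₀ (by linarith)]
      linarith
    linarith
  rw [Jm_succ hn t k (measurable_Vq q) (Vq_nonneg q) (fun d i j => Vq_bdd (by linarith) d i j),
    ← Jm_lin t k (measurable_Vq q) (measurable_Us.pow_const _) (Vq_nonneg q)
      (fun d => Real.rpow_nonneg (Us_nonneg d) _) ha (by positivity)]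
  refine Jm_mono t k fun d _ => (sav_V hn d hq2 hq3).trans (le_of_eq ?_)
  have hU := Us_nonneg d
  rw [Real.div_rpow hU (by positivity), Real.rpow_neg (by positivity)]
  ring

/-- Recursion for the power of the second moment. -/
theorem rec_U (hn : 2 ≤ n) (t : ℕ) (k : Fin n) {q : ℝ} (hq2 : 2 ≤ q) (hq3 : q ≤ 3) :
    Jm (t + 1) k (fun d => Us d ^ (q / 2)) ≤
      ENNReal.ofReal (1 - q / (4 * n)) * Jm t k (fun d => Us d ^ (q / 2)) +
      ENNReal.ofReal (3 / n) * Jm t k (Vq q) := by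
  have hnR : (2 : ℝ) ≤ n := by exact_mod_cast hn
  have ha : 0 ≤ 1 - q / (4 * n) := by
    rw [sub_nonneg, div_le_one (by positivity)]
    linarith
  rw [Jm_succ hn t k (measurable_Us.pow_const _) (fun d => Real.rpow_nonneg (Us_nonneg d) _)
      (fun d i j => Usp_bdd (by linarith) d i j),
    ← Jm_lin t k (measurable_Us.pow_const _) (measurable_Vq q)
      (fun d => Real.rpow_nonneg (Us_nonneg d) _) (Vq_nonneg q) ha (by positivity)]
  refine Jm_mono t k fun d hd => (sav_Up hn d hd (p := q / 2) (by linarith) (by linarith)).trans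
    (le_of_eq ?_)
  have e1 : 2 * (q / 2) = q := by ring
  rw [e1]
  congr 3
  field_simp
  ring

end Pf31f09
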