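import Mathlib
import Pool.Agent.Lib.Pf31f09.URec

/-! Solution of the recursions. -/

noncomputable section

namespace Pf31f09

open Finset MeasureTheory ProbabilityTheory Filter

/-- The solution of the system of recursions. -/
theorem rec_solve {v w : ℕ → ℝ} {ν r N β : ℝ} (hN : 2 ≤ N) (hrν : r < ν)
    (hν : ν ≤ 2) (hβ : 0 ≤ β) (hv0 : ∀ t, 0 ≤ v t) (hw0 : ∀ t, 0 ≤ w t)
    (hv : ∀ t, v (t + 1) ≤ (1 - ν / N) * v t + β * w t)
    (hw : ∀ t, w (t + 1) ≤ (1 - r / N) * w t + 3 / N * v t) {T : ℕ}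
    (hT : 3 / (ν - r) * β * T ≤ 1) :
    ∀ t ≤ T, v t ≤ Real.exp (-(ν * t / N)) * v 0 +
      β * Real.exp 1 * (w 0 + 3 / (ν - r) * v 0) * N / (ν - r) * Real.exp (-(r * t / N)) := by
  have hN0 : 0 < N := by linarith
  have hd : 0 < ν - r := by linarith
  set K := 3 / (ν - r) with hK
  have hK0 : 0 < K := by positivity
  have hKd : K * (ν - r) = 3 := by rw [hK]; field_simp
  have hrN : r / N ≤ 1 := (div_le_one hN0).2 (by linarith)
  have hνN : ν / N ≤ 1 := (div_le_one hN0).2 (by linarith)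
  set X := fun t => w t + K * v t with hX
  have hX0 : ∀ t, 0 ≤ X t := fun t => add_nonneg (hw0 t) (mul_nonneg hK0.le (hv0 t))
  have h1 : ∀ t, X (t + 1) ≤ Real.exp (-(r / N) + K * β) * X t := by
    intro t
    have e1 : X (t + 1) ≤ (1 - r / N) * w t + 3 / N * v t +
        K * ((1 - ν / N) * v t + β * w t) :=
      add_le_add (hw t) (mul_le_mul_of_nonneg_left (hv t) hK0.le)
    have e2 : (1 - r / N) * w t + 3 / N * v t + K * ((1 - ν / N) * v t + β * w t) =
        (1 - r / N + K * β) * w t + (1 - r / N) * (K * v t) := by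
      have : 3 / N * v t = K * (ν - r) / N * v t := by rw [hKd]
      rw [this]
      ring
    have e3 : (1 - r / N) * (K * v t) ≤ (1 - r / N + K * β) * (K * v t) := by
      have h2 := mul_nonneg hK0.le (hv0 t)
      have h3 := mul_nonneg hK0.le hβ
      nlinarith
    have e4 : 1 - r / N + K * β ≤ Real.exp (-(r / N) + K * β) := by
      have := Real.add_one_le_exp (-(r / N) + K * β)
      linarith
    have e5 := mul_le_mul_of_nonneg_right e4 (hX0 t)
    have e6 : (1 - r / N + K * β) * w t + (1 - r / N + K * β) * (K * v t) =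
        (1 - r / N + K * β) * X t := by
      rw [hX]; ring
    linarith
  have h2 : ∀ t : ℕ, X t ≤ Real.exp (-(r * t / N) + K * β * t) * X 0 := by
    intro t
    induction t with
    | zero => simp
    | succ t ih =>
      refine (h1 t).trans ?_
      calc Real.exp (-(r / N) + K * β) * X t ≤ Real.exp (-(r / N) + K * β) *
          (Real.exp (-(r * t / N) + K * β * t) * X 0) :=
            mul_le_mul_of_nonneg_left ih (Real.exp_pos _).le
        _ = _ := by
            rw [← mul_assoc, ← Real.exp_add]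
            congr 2
            push_cast
            ring
  have h3 : ∀ t : ℕ, t ≤ T → w t ≤ Real.exp 1 * X 0 * Real.exp (-(r * t / N)) := by
    intro t ht
    have e1 : w t ≤ X t := le_add_of_nonneg_right (mul_nonneg hK0.le (hv0 t))
    have e2 : K * β * t ≤ 1 := by
      refine le_trans ?_ hT
      have : (t : ℝ) ≤ T := by exact_mod_cast ht
      exact mul_le_mul_of_nonneg_left this (mul_nonneg hK0.le hβ)
    refine (e1.trans (h2 t)).trans ?_
    have e3 : Real.exp (-(r * t / N) + K * β * t) ≤ Real.exp (1 + -(r * t / N)) :=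
      Real.exp_le_exp.2 (by linarith)
    rw [Real.exp_add 1] at e3
    calc _ ≤ Real.exp 1 * Real.exp (-(r * t / N)) * X 0 :=
          mul_le_mul_of_nonneg_right e3 (hX0 0)
      _ = _ := by ring
  set A := β * Real.exp 1 * X 0 * N / (ν - r) with hA
  have hA0 : 0 ≤ A := by
    have := hX0 0
    positivity
  have hAd : A * (ν - r) / N = β * (Real.exp 1 * X 0) := by
    rw [hA]
    field_simp
  have h4 : ∀ t : ℕ, t ≤ T → v t ≤ (1 - ν / N) ^ t * v 0 + A * Real.exp (-(r * t / N)) := by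
    intro t
    induction t with
    | zero =>
      intro _
      simp only [pow_zero, one_mul, Nat.cast_zero, mul_zero, zero_div, neg_zero, Real.exp_zero,
        mul_one]
      linarith
    | succ t ih =>
      intro ht
      have e1 := ih (by omega)
      have e2 := h3 t (by omega)
      set y := Real.exp (-(r * t / N)) with hy
      have hy0 : 0 < y := Real.exp_pos _
      have e3 : Real.exp (-(r * ((t + 1 : ℕ) : ℝ) / N)) = y * Real.exp (-(r / N)) := by
        rw [hy, ← Real.exp_add]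
        congr 1
        push_cast
        ring
      have e4 : 1 - r / N ≤ Real.exp (-(r / N)) := by
        have := Real.add_one_le_exp (-(r / N))
        linarith
      have e5 : (1 - ν / N) * v t ≤ (1 - ν / N) * ((1 - ν / N) ^ t * v 0 + A * y) :=
        mul_le_mul_of_nonneg_left e1 (by linarith)
      have e6 : β * w t ≤ β * (Real.exp 1 * X 0 * y) := mul_le_mul_of_nonneg_left e2 hβ
      have e7 : A * y * (1 - r / N) ≤ A * y * Real.exp (-(r / N)) :=
        mul_le_mul_of_nonneg_left e4 (mul_nonneg hA0 hy0.le)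
      have e8 : (1 - ν / N) * (A * y) + β * (Real.exp 1 * X 0 * y) = A * y * (1 - r / N) := by
        have : β * (Real.exp 1 * X 0 * y) = A * (ν - r) / N * y := by rw [hAd]; ring
        rw [this]
        ring
      rw [e3, pow_succ]
      have := hv t
      nlinarith
  intro t ht
  refine (h4 t ht).trans ?_
  have e1 : (1 - ν / N) ^ t ≤ Real.exp (-(ν * t / N)) := by
    have : 1 - ν / N ≤ Real.exp (-(ν / N)) := by
      have := Real.add_one_le_exp (-(ν / N))
      linarith
    calc (1 - ν / N) ^ t ≤ Real.exp (-(ν / N)) ^ t := pow_le_pow_left₀ (by linarith) this t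
      _ = _ := by
          rw [← Real.exp_nat_mul]
          congr 1
          ring
  have e2 := mul_le_mul_of_nonneg_right e1 (hv0 0)
  have e3 : A * Real.exp (-(r * t / N)) = β * Real.exp 1 * (w 0 + K * v 0) * N / (ν - r) *
      Real.exp (-(r * t / N)) := by rw [hA, hX]
  linarith

variable {n : ℕ}

theorem Us_zero (k : Fin n) : ∀ᵐ g ∂(gam n), Us (Dk (idM n) g k) ≤ 2 := by
  filter_upwards [gam_ae_ne_all n] with g hg
  unfold Us
  rw [Dk_id hg]
  have hS := sum_g_pos k hg
  have hzs := sum_zz hS.ne'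
  calc ∑ l, ((if l = k then (1 : ℝ) else 0) - g l ^ 2 / ∑ j, g j ^ 2) ^ 2 ≤
      ∑ l, ((if l = k then (1 : ℝ) else 0) + zz g l) := by
        refine Finset.sum_le_sum fun l _ => ?_
        have h1 := zz_nonneg g l
        have h2 := zz_le_one g l
        change ((if l = k then (1 : ℝ) else 0) - zz g l) ^ 2 ≤ _
        split_ifs <;> nlinarith
    _ = 2 := by
        rw [Finset.sum_add_distrib, hzs]
        simp
        norm_num

theorem idM_nonneg : Nonneg (idM n) := by
  intro i k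
  unfold idM
  split_ifs <;> norm_num

theorem Jm_zero (k : Fin n) {Ψ : (Fin n → ℝ) → ℝ} (hΨ : Measurable Ψ) {C : ℝ}
    (h : ∀ d : Fin n → ℝ, (∀ i, |d i| ≤ 1) → Us d ≤ 2 → Ψ d ≤ C) :
    Jm 0 k Ψ ≤ ENNReal.ofReal C := by
  have hI : Measurable fun M : Mat n => ∫⁻ g, ENNReal.ofReal (Ψ (Dk M g k)) ∂(gam n) :=
    (hΨ.comp (measurable_Dk k)).ennreal_ofReal.lintegral_prod_right'
  unfold Jm
  rw [lawM, lintegral_dirac' _ hI]
  calc ∫⁻ g, ENNReal.ofReal (Ψ (Dk (idM n) g k)) ∂(gam n) ≤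
      ∫⁻ _, ENNReal.ofReal C ∂(gam n) := by
        refine lintegral_mono_ae ?_
        filter_upwards [Us_zero k] with g hg
        exact ENNReal.ofReal_le_ofReal (h _ (fun i => Dk_bounds idM_nonneg g k i) hg)
    _ = _ := by rw [lintegral_const, measure_univ, mul_one]

theorem Vq_le_Us {q : ℝ} (hq : 2 ≤ q) {d : Fin n → ℝ} (hd : ∀ i, |d i| ≤ 1) : Vq q d ≤ Us d := by
  unfold Vq Us
  refine Finset.sum_le_sum fun i _ => ?_
  rcases (abs_nonneg (d i)).eq_or_lt with h | h
  · rw [← h, Real.zero_rpow (by linarith)]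
    exact sq_nonneg _
  · rw [← sq_abs, ← Real.rpow_natCast (|d i|) 2]
    exact Real.rpow_le_rpow_of_exponent_ge h (hd i) (by push_cast; exact hq)

theorem Jm_zero_V (k : Fin n) {q : ℝ} (hq : 2 ≤ q) : Jm 0 k (Vq q) ≤ ENNReal.ofReal 2 :=
  Jm_zero k (measurable_Vq q) fun _ hd hU => (Vq_le_Us hq hd).trans hU

theorem Jm_zero_U (k : Fin n) {q : ℝ} (hq : 2 ≤ q) (hq3 : q ≤ 3) :
    Jm 0 k (fun d => Us d ^ (q / 2)) ≤ ENNReal.ofReal 4 := by
  refine Jm_zero k (measurable_Us.pow_const _) fun d _ hU => ?_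
  calc Us d ^ (q / 2) ≤ 2 ^ (q / 2) := Real.rpow_le_rpow (Us_nonneg d) hU (by linarith)
    _ ≤ 2 ^ (2 : ℝ) := Real.rpow_le_rpow_of_exponent_le (by norm_num) (by linarith)
    _ = 4 := by norm_num

theorem Jm_finite (hn : 2 ≤ n) (t : ℕ) (k : Fin n) {q : ℝ} (hq : 2 ≤ q) (hq3 : q ≤ 3) :
    Jm t k (Vq q) ≠ ⊤ ∧ Jm t k (fun d => Us d ^ (q / 2)) ≠ ⊤ := by
  induction t with
  | zero =>
    exact ⟨ne_top_of_le_ne_top ENNReal.ofReal_ne_top (Jm_zero_V k hq),
      ne_top_of_le_ne_top ENNReal.ofReal_ne_top (Jm_zero_U k hq hq3)⟩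
  | succ t ih =>
    refine ⟨ne_top_of_le_ne_top ?_ (rec_V hn t k hq hq3),
      ne_top_of_le_ne_top ?_ (rec_U hn t k hq hq3)⟩
    · exact ENNReal.add_ne_top.2 ⟨ENNReal.mul_ne_top ENNReal.ofReal_ne_top ih.1,
        ENNReal.mul_ne_top ENNReal.ofReal_ne_top ih.2⟩
    · exact ENNReal.add_ne_top.2 ⟨ENNReal.mul_ne_top ENNReal.ofReal_ne_top ih.2,
        ENNReal.mul_ne_top ENNReal.ofReal_ne_top ih.1⟩

/-- Explicit bound for the `q`-th moment. -/
theorem Jm_bound (hn : 2 ≤ n) (k : Fin n) {q : ℝ} (hq2 : 2 < q) (hq3 : q < 3)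
    (hν : q / 4 < -kap q) {T : ℕ}
    (hT : 3 / (-kap q - q / 4) * (21 * (n : ℝ) ^ (-(q / 2))) * T ≤ 1) :
    (Jm T k (Vq q)).toReal ≤ 2 * Real.exp (kap q * T / n) +
      21 * (n : ℝ) ^ (-(q / 2)) * Real.exp 1 * (4 + 3 / (-kap q - q / 4) * 2) * n /
        (-kap q - q / 4) * Real.exp (-(q / 4 * T / n)) := by
  have hnR : (2 : ℝ) ≤ n := by exact_mod_cast hn
  have hk := kap_ge q
  have hfin := fun t => Jm_finite hn t k hq2.le hq3.le
  set v := fun t => (Jm t k (Vq q)).toReal with hv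
  set w := fun t => (Jm t k (fun d => Us d ^ (q / 2))).toReal with hw
  have hβ : (0 : ℝ) ≤ 21 * (n : ℝ) ^ (-(q / 2)) := by positivity
  have ha1 : 0 ≤ 1 + kap q / n := by
    have : -1 ≤ kap q / n := by
      rw [le_div_iff₀ (by linarith)]
      linarith
    linarith
  have ha2 : 0 ≤ 1 - q / (4 * n) := by
    rw [sub_nonneg, div_le_one (by positivity)]
    linarith
  have hv1 : ∀ t, v (t + 1) ≤ (1 - -kap q / n) * v t + 21 * (n : ℝ) ^ (-(q / 2)) * w t := by
    intro t
    have h := ENNReal.toReal_mono (ENNReal.add_ne_top.2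
      ⟨ENNReal.mul_ne_top ENNReal.ofReal_ne_top (hfin t).1,
        ENNReal.mul_ne_top ENNReal.ofReal_ne_top (hfin t).2⟩) (rec_V hn t k hq2.le hq3.le)
    rw [ENNReal.toReal_add (ENNReal.mul_ne_top ENNReal.ofReal_ne_top (hfin t).1)
      (ENNReal.mul_ne_top ENNReal.ofReal_ne_top (hfin t).2), ENNReal.toReal_mul,
      ENNReal.toReal_mul, ENNReal.toReal_ofReal ha1, ENNReal.toReal_ofReal hβ] at h
    have e : 1 - -kap q / n = 1 + kap q / n := by ring
    rw [e]
    exact h
  have hw1 : ∀ t, w (t + 1) ≤ (1 - q / 4 / n) * w t + 3 / n * v t := by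
    intro t
    have h := ENNReal.toReal_mono (ENNReal.add_ne_top.2
      ⟨ENNReal.mul_ne_top ENNReal.ofReal_ne_top (hfin t).2,
        ENNReal.mul_ne_top ENNReal.ofReal_ne_top (hfin t).1⟩) (rec_U hn t k hq2.le hq3.le)
    rw [ENNReal.toReal_add (ENNReal.mul_ne_top ENNReal.ofReal_ne_top (hfin t).2)
      (ENNReal.mul_ne_top ENNReal.ofReal_ne_top (hfin t).1), ENNReal.toReal_mul,
      ENNReal.toReal_mul, ENNReal.toReal_ofReal ha2, ENNReal.toReal_ofReal (by positivity)] at h
    have e : 1 - q / 4 / n = 1 - q / (4 * n) := by rw [div_div]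
    rw [e]
    exact h
  have h := rec_solve (v := v) (w := w) (ν := -kap q) (r := q / 4) (N := n)
    (β := 21 * (n : ℝ) ^ (-(q / 2))) hnR hν (by linarith) hβ
    (fun t => ENNReal.toReal_nonneg) (fun t => ENNReal.toReal_nonneg) hv1 hw1 hT T le_rfl
  have hv00 : v 0 ≤ 2 := by
    have := ENNReal.toReal_mono ENNReal.ofReal_ne_top (Jm_zero_V k hq2.le)
    rwa [ENNReal.toReal_ofReal (by norm_num)] at this
  have hw00 : w 0 ≤ 4 := by
    have := ENNReal.toReal_mono ENNReal.ofReal_ne_top (Jm_zero_U k hq2.le hq3.le)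
    rwa [ENNReal.toReal_ofReal (by norm_num)] at this
  have hd : 0 < -kap q - q / 4 := by linarith
  refine h.trans ?_
  have e1 : Real.exp (-(-kap q * T / n)) * v 0 ≤ 2 * Real.exp (kap q * T / n) := by
    have : -(-kap q * T / n) = kap q * T / n := by ring
    rw [this, mul_comm]
    exact mul_le_mul_of_nonneg_right hv00 (Real.exp_pos _).le
  refine add_le_add e1 ?_
  gcongr

theorem Jm_real (hn : 2 ≤ n) (t : ℕ) (k : Fin n) {q : ℝ} (hq : 2 ≤ q) (hq3 : q ≤ 3) :
    ∫ M, ∫ g, ∑ i, |Dk M g k i| ^ q ∂(gam n) ∂(lawM n t) = (Jm t k (Vq q)).toReal := by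
  have := isProb_lawM hn t
  have hm : Measurable fun p : Mat n × E n => ENNReal.ofReal (Vq q (Dk p.1 p.2 k)) :=
    ((measurable_Vq q).comp (measurable_Dk k)).ennreal_ofReal
  have hI : Measurable fun M : Mat n => ∫⁻ g, ENNReal.ofReal (Vq q (Dk M g k)) ∂(gam n) :=
    hm.lintegral_prod_right'
  have h1 : ∀ M : Mat n, ∫ g, ∑ i, |Dk M g k i| ^ q ∂(gam n) =
      (∫⁻ g, ENNReal.ofReal (Vq q (Dk M g k)) ∂(gam n)).toReal := by
    intro M
    change ∫ g, Vq q (Dk M g k) ∂(gam n) = _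
    exact integral_eq_lintegral_of_nonneg_ae (Eventually.of_forall fun g =>
      Vq_nonneg q (Dk M g k))
      ((measurable_Vq q).comp (measurable_Dk_right M k)).aestronglyMeasurable
  simp only [h1]
  rw [integral_toReal hI.aemeasurable]
  · rfl
  · have hfin := (Jm_finite hn t k hq hq3).1
    exact ae_lt_top hI hfin

end Pf31f09
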