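import Mathlib
import Pool.Agent.Lib.Pf31f09.USolve
import Pool.Agent.Lib.Pf31f09.UAsym

/-! The moment hypothesis holds, hence cutoff. -/

noncomputable section

namespace Pf31f09

open Finset MeasureTheory ProbabilityTheory Filter Topology

theorem tendsto_log_rpow {a : ℝ} (ha : 0 < a) :
    Tendsto (fun n : ℕ => Real.log n * (n : ℝ) ^ (-a)) atTop (𝓝 0) := by
  have h := (isLittleO_log_rpow_atTop ha).tendsto_div_nhds_zero
  have h2 := h.comp tendsto_natCast_atTop_atTop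
  refine h2.congr fun n => ?_
  simp only [Function.comp_apply]
  rw [Real.rpow_neg (Nat.cast_nonneg n), div_eq_mul_inv]

theorem exp_time {n : ℕ} (hn : 2 ≤ n) {s a : ℝ} (ha : 0 ≤ a) {t : ℕ}
    (ht : s * n * Real.log n - 1 ≤ t) :
    Real.exp (-(a * t / n)) ≤ Real.exp a * (n : ℝ) ^ (-(a * s)) := by
  have hn0 : (0 : ℝ) < n := by
    have : 0 < n := by omega
    exact_mod_cast this
  have hn1 : (1 : ℝ) ≤ n := by exact_mod_cast (by omega : 1 ≤ n)
  have h1 : s * Real.log n - 1 ≤ t / n := by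
    rw [le_div_iff₀ hn0]
    nlinarith
  rw [Real.rpow_def_of_pos hn0, ← Real.exp_add, Real.exp_le_exp]
  have h2 := mul_le_mul_of_nonneg_left h1 ha
  have e : a * t / n = a * (t / n) := by ring
  rw [e]
  nlinarith

theorem rpow_le_of_exp {n : ℕ} (hn : 1 ≤ n) {a b : ℝ} (h : a ≤ b) :
    (n : ℝ) ^ a ≤ (n : ℝ) ^ b :=
  Real.rpow_le_rpow_of_exponent_le (by exact_mod_cast hn) h

theorem momHyp : MomHyp := by
  intro s hs
  have hc := cstar_ge
  have hs38 : (3.8 : ℝ) < s := by linarith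
  obtain ⟨q, hq2, hq3, hν, hq4, hq5⟩ := const_upper hs
  set ν := -kap q with hνdef
  have hk := kap_ge q
  have hν2 : ν ≤ 2 := by linarith
  have hd : 0 < ν - q / 4 := by linarith
  have hs4 : 1 + q / 2 < q * s / 4 := by
    have h1 : (2 + 4 / q) * q < s * q := mul_lt_mul_of_pos_right hq5 (by linarith)
    have h2 : (2 + 4 / q) * q = 2 * q + 4 := by
      have : q ≠ 0 := by linarith
      field_simp
    rw [h2] at h1
    linarith
  set δ := min (min (s * ν - q) (q * s / 4 - 1 - q / 2)) (s / 2 - 71 / 40) with hδ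
  have hδ0 : 0 < δ := lt_min (lt_min (by linarith) (by linarith)) (by norm_num at hs38 ⊢; linarith)
  have hδ1 : δ ≤ s * ν - q := (min_le_left _ _).trans (min_le_left _ _)
  have hδ2 : δ ≤ q * s / 4 - 1 - q / 2 := (min_le_left _ _).trans (min_le_right _ _)
  have hδ3 : δ ≤ s / 2 - 71 / 40 := min_le_right _ _
  set A := 21 * Real.exp 1 * (4 + 3 / (ν - q / 4) * 2) / (ν - q / 4) with hA
  have hA0 : 0 < A := by positivity
  set C1 := (2 * Real.sqrt 3) ^ q * (2 * Real.exp ν + A * Real.exp (q / 4)) with hC1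
  set C2 := 24 * Real.exp (1 / 2) with hC2
  have hC10 : 0 ≤ C1 := by positivity
  have hC20 : 0 ≤ C2 := by positivity
  refine ⟨q, by linarith, δ, hδ0, C1 + C2, ?_⟩
  have hlim : Tendsto (fun n : ℕ => 3 / (ν - q / 4) * 21 * s *
      (Real.log n * (n : ℝ) ^ (-(q / 2 - 1)))) atTop (𝓝 0) := by
    have := (tendsto_log_rpow (a := q / 2 - 1) (by linarith)).const_mul
      (3 / (ν - q / 4) * 21 * s)
    rwa [mul_zero] at this
  filter_upwards [eventually_ge_atTop 3, hlim.eventually (gt_mem_nhds one_pos)] with n hn3 hlim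
  have hn2 : 2 ≤ n := by omega
  have hn0 : (0 : ℝ) < n := by
    have : 0 < n := by omega
    exact_mod_cast this
  have hnR : (3 : ℝ) ≤ n := by exact_mod_cast hn3
  have hlog : 1 ≤ Real.log n := by
    rw [Real.le_log_iff_exp_le hn0]
    have := Real.exp_one_lt_d9
    linarith
  set t := ⌊s * n * Real.log n⌋₊ with ht
  have hx0 : 0 ≤ s * n * Real.log n := by positivity
  have ht1 : (t : ℝ) ≤ s * n * Real.log n := Nat.floor_le hx0
  have ht2 : s * n * Real.log n - 1 ≤ t := (Nat.sub_one_lt_floor _).le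
  refine ⟨t, ht1, ?_, fun k => ?_, fun k => ?_⟩
  · have : (3 : ℝ) ≤ n * Real.log n := by nlinarith
    nlinarith
  · have hT : 3 / (-kap q - q / 4) * (21 * (n : ℝ) ^ (-(q / 2))) * t ≤ 1 := by
      have h1 : 0 ≤ 3 / (ν - q / 4) * (21 * (n : ℝ) ^ (-(q / 2))) := by positivity
      refine (mul_le_mul_of_nonneg_left ht1 h1).trans (le_of_eq_of_le ?_ hlim.le)
      have e : (n : ℝ) ^ (-(q / 2 - 1)) = (n : ℝ) ^ (-(q / 2)) * n := by
        rw [show -(q / 2 - 1) = -(q / 2) + 1 by ring, Real.rpow_add_one hn0.ne']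
      rw [e]
      ring
    have hb := Jm_bound hn2 k hq2 hq3 hν hT
    rw [← Jm_real hn2 t k hq2.le hq3.le] at hb
    have htr := trans_int hn2 t k hq2.le
    have e1 : Real.exp (kap q * t / n) ≤ Real.exp ν * (n : ℝ) ^ (-(ν * s)) := by
      have : kap q * t / n = -(ν * t / n) := by rw [hνdef]; ring
      rw [this]
      exact exp_time hn2 (by linarith) ht2
    have e2 := exp_time hn2 (a := q / 4) (by linarith) ht2
    have e3 : (Real.sqrt 3 * (n + 2)) ^ q ≤ (2 * Real.sqrt 3) ^ q * (n : ℝ) ^ q := by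
      rw [← Real.mul_rpow (by positivity) hn0.le]
      refine Real.rpow_le_rpow (by positivity) ?_ (by linarith)
      have := Real.sqrt_nonneg 3
      nlinarith
    have hbb : ∫ M, ∫ g, ∑ i, |Dk M g k i| ^ q ∂(gam n) ∂(lawM n t) ≤
        2 * (Real.exp ν * (n : ℝ) ^ (-(ν * s))) +
          A * ((n : ℝ) ^ (-(q / 2)) * n) * (Real.exp (q / 4) * (n : ℝ) ^ (-(q / 4 * s))) := by
      refine hb.trans ?_
      have e4 : 21 * (n : ℝ) ^ (-(q / 2)) * Real.exp 1 * (4 + 3 / (ν - q / 4) * 2) * n /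
          (ν - q / 4) = A * ((n : ℝ) ^ (-(q / 2)) * n) := by rw [hA]; ring
      refine add_le_add (mul_le_mul_of_nonneg_left e1 (by norm_num)) ?_
      rw [← hνdef, e4]
      exact mul_le_mul_of_nonneg_left e2 (by positivity)
    have hI0 : 0 ≤ 2 * (Real.exp ν * (n : ℝ) ^ (-(ν * s))) +
        A * ((n : ℝ) ^ (-(q / 2)) * n) * (Real.exp (q / 4) * (n : ℝ) ^ (-(q / 4 * s))) := by
      positivity
    refine htr.trans ?_
    calc (Real.sqrt 3 * (n + 2)) ^ q * ∫ M, ∫ g, ∑ i, |Dk M g k i| ^ q ∂(gam n) ∂(lawM n t) ≤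
        (2 * Real.sqrt 3) ^ q * (n : ℝ) ^ q * (2 * (Real.exp ν * (n : ℝ) ^ (-(ν * s))) +
          A * ((n : ℝ) ^ (-(q / 2)) * n) * (Real.exp (q / 4) * (n : ℝ) ^ (-(q / 4 * s)))) :=
          (mul_le_mul_of_nonneg_left hbb (by positivity)).trans
            (mul_le_mul_of_nonneg_right e3 hI0)
      _ = (2 * Real.sqrt 3) ^ q * (2 * Real.exp ν * (n : ℝ) ^ (q - ν * s) +
          A * Real.exp (q / 4) * (n : ℝ) ^ (q - q / 2 + 1 - q / 4 * s)) := by
          have f1 : (n : ℝ) ^ (q - ν * s) = (n : ℝ) ^ q * (n : ℝ) ^ (-(ν * s)) := by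
            rw [← Real.rpow_add hn0]
            congr 1
          have f2 : (n : ℝ) ^ (q - q / 2 + 1 - q / 4 * s) =
              (n : ℝ) ^ q * ((n : ℝ) ^ (-(q / 2)) * n) * (n : ℝ) ^ (-(q / 4 * s)) := by
            have : (n : ℝ) ^ (-(q / 2)) * n = (n : ℝ) ^ (-(q / 2) + 1) := by
              rw [Real.rpow_add_one hn0.ne']
            rw [this, ← Real.rpow_add hn0, ← Real.rpow_add hn0]
            congr 1
            ring
          rw [f1, f2]
          ring
      _ ≤ (2 * Real.sqrt 3) ^ q * (2 * Real.exp ν * (n : ℝ) ^ (-δ) +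
          A * Real.exp (q / 4) * (n : ℝ) ^ (-δ)) := by
          have g1 := rpow_le_of_exp (n := n) (by omega) (a := q - ν * s) (b := -δ) (by linarith)
          have g2 := rpow_le_of_exp (n := n) (by omega) (a := q - q / 2 + 1 - q / 4 * s)
            (b := -δ) (by linarith)
          gcongr
      _ = C1 * (n : ℝ) ^ (-δ) := by rw [hC1]; ring
      _ ≤ (C1 + C2) * (n : ℝ) ^ (-δ) := by
          have : 0 ≤ (n : ℝ) ^ (-δ) := by positivity
          nlinarith
  · refine (rr_second hn2 t k).trans ?_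
    have e1 : (1 - 1 / (2 * (n : ℝ))) ^ t ≤ Real.exp (-(1 / 2 * t / n)) := by
      have h0 : (0 : ℝ) ≤ 1 - 1 / (2 * n) := (contr_bounds hn2).1.trans (contr_bounds hn2).2
      have h1 : 1 - 1 / (2 * (n : ℝ)) ≤ Real.exp (-(1 / (2 * n))) := by
        have := Real.add_one_le_exp (-(1 / (2 * (n : ℝ))))
        linarith
      calc (1 - 1 / (2 * (n : ℝ))) ^ t ≤ Real.exp (-(1 / (2 * n))) ^ t :=
            pow_le_pow_left₀ h0 h1 t
        _ = _ := by
            rw [← Real.exp_nat_mul]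
            congr 1
            field_simp
    have e2 := exp_time hn2 (a := 1 / 2) (by norm_num) ht2
    have e3 : 6 * ((n : ℝ) + 2) ^ 2 ≤ 24 * (n : ℝ) ^ (2 : ℝ) := by
      rw [Real.rpow_two]
      nlinarith
    calc 6 * ((n : ℝ) + 2) ^ 2 * (1 - 1 / (2 * (n : ℝ))) ^ t ≤
        24 * (n : ℝ) ^ (2 : ℝ) * (Real.exp (1 / 2) * (n : ℝ) ^ (-(1 / 2 * s))) :=
          mul_le_mul e3 (e1.trans e2) (by
            have h0 : (0 : ℝ) ≤ 1 - 1 / (2 * n) := (contr_bounds hn2).1.trans (contr_bounds hn2).2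
            positivity) (by positivity)
      _ = C2 * (n : ℝ) ^ (2 - 1 / 2 * s) := by
          have : (n : ℝ) ^ (2 - 1 / 2 * s) = (n : ℝ) ^ (2 : ℝ) * (n : ℝ) ^ (-(1 / 2 * s)) := by
            rw [← Real.rpow_add hn0]
            congr 1
          rw [this, hC2]
          ring
      _ ≤ C2 * (n : ℝ) ^ (9 / 40 - δ) :=
          mul_le_mul_of_nonneg_left (rpow_le_of_exp (by omega) (by linarith)) hC20
      _ ≤ (C1 + C2) * (n : ℝ) ^ (9 / 40 - δ) := by
          have : 0 ≤ (n : ℝ) ^ (9 / 40 - δ) := by positivity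
          nlinarith

/-- The upper bound. -/
theorem upper : Upper := upper_of_mom momHyp

/-- The mixing time is asymptotic to `c* n log n` at every level. -/
theorem cutoff_main {ε : ℝ} (hε : 0 < ε) (hε1 : ε < 1) :
    Tendsto (fun n : ℕ => (tmix n ε : ℝ) / (n * Real.log n)) atTop (𝓝 cstar) :=
  tmix_tendsto upper hε hε1

/-- Cutoff. -/
theorem cutoff_ratio {ε : ℝ} (hε : 0 < ε) (hε1 : ε < 1) :
    Tendsto (fun n : ℕ => (tmix n ε : ℝ) / tmix n (1 / 4)) atTop (𝓝 1) :=
  tmix_ratio upper hε hε1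

end Pf31f09
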